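import Pool.Agent.T2H99.AW.CD

set_option autoImplicit false

/-!
# AW, package CO1: discrepancies at a fixed site (uses G, LN, MK, HK2)
-/

namespace Pool.Agent.T2H99.AW

open Finset Filter Topology MeasureTheory ProbabilityTheory
open scoped NNReal ENNReal BigOperators

variable {d : ℕ} {Ω : Type} [mΩ : MeasurableSpace Ω] {μ : Measure Ω} [IsProbabilityMeasure μ]
  {p : ℝ} {c : Site d → Ω → Bool} {S : Site d → ℝ≥0 → Ω → Site d}
  {alive : Finset (Site d) → ℝ≥0 → Ω → Finset (Site d)}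

/-! ### Helpers for CO1 -/

private theorem co1_heat_pos (hd : 0 < d) {t : ℝ} (ht : 0 ≤ t) : 0 < heat d t (0 : Site d) := by
  have h := le_hasSum (heat_term hd ht (0 : Site d)) 0
    fun n _ => mul_nonneg (pw_nonneg ht n) (srw_nonneg n _)
  have h1 : pw t 0 * srw d 0 0 = Real.exp (-t) := by simp [pw, srw]
  rw [h1] at h
  exact (Real.exp_pos _).trans_le h

private theorem co1_abs_sg (b : Bool) : |sg b| = 1 := by
  cases b <;> simp [sg]

omit [IsProbabilityMeasure μ] mΩ in
private theorem co1_meas_col (c : Site d → Ω → Bool) (S : Site d → ℝ≥0 → Ω → Site d)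
    {A : Set (Site d)} {x : Site d} (hx : x ∈ A) (s : ℝ≥0) : Measurable[hist c S A s] (c x) := by
  refine measurable_iff_comap_le.2 ?_
  exact le_trans le_sup_left (le_iSup (fun x : A =>
    (MeasurableSpace.comap (c x) inferInstance) ⊔
    ⨆ u : Set.Iic s, MeasurableSpace.comap (S x u) inferInstance) ⟨x, hx⟩)

/-- The signed discrepancy. -/
private noncomputable def sd (c : Site d → Ω → Bool) (S : Site d → ℝ≥0 → Ω → Site d) (m : ℕ)
    (A : Finset (Site d)) (y : Site d) (i : ℕ) (φ : Site d → ℝ) (ω : Ω) : ℝ :=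
  sg (c y ω) * (gt c S m (insert y A) i φ ω - gt c S m A i φ ω)

omit mΩ in
private theorem sd_pt (m : ℕ) {A : Finset (Site d)} {y : Site d} (hy : y ∉ A) (i : ℕ) (ω : Ω) :
    ∃ w : Site d, (∀ φ : Site d → ℝ, sd c S m A y i φ ω = φ w) ∧
      ∀ (b : Bool) (φ : Site d → ℝ),
        |gw c S m (insert y A) i b φ ω - gw c S m A i b φ ω| ≤ |φ w| := by
  obtain ⟨w, h1, h2⟩ := disc_wt (fun x => c x ω) (gpos S m ω) hy i
  exact ⟨w, h1, h2⟩

omit [IsProbabilityMeasure μ] in
private theorem sd_meas (m : ℕ) (A : Finset (Site d)) (y : Site d) {i j : ℕ} (hij : i ≤ j)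
    (φ : Site d → ℝ) :
    Measurable[hist c S Set.univ ((j : ℝ≥0) / 2 ^ m)] (sd c S m A y i φ) := by
  have hle : ((i : ℝ≥0) / 2 ^ m) ≤ ((j : ℝ≥0) / 2 ^ m) := by gcongr
  have h1 : Measurable[hist c S Set.univ ((j : ℝ≥0) / 2 ^ m)] (fun ω => sg (c y ω)) :=
    (Measurable.of_discrete (f := sg)).comp (co1_meas_col c S (Set.mem_univ y) _)
  have h2 : ∀ B : Finset (Site d),
      Measurable[hist c S Set.univ ((j : ℝ≥0) / 2 ^ m)] (gt c S m B i φ) := fun B =>
    (meas_gt c S m B hle φ).mono (hist_mono c S (Set.subset_univ _) le_rfl) le_rfl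
  exact h1.mul ((h2 _).sub (h2 _))

/-- The discrepancy is at `z` for the first time at step `i`. -/
private def fst (c : Site d → Ω → Bool) (S : Site d → ℝ≥0 → Ω → Site d) (m : ℕ)
    (A : Finset (Site d)) (y z : Site d) (i : ℕ) : Set Ω :=
  {ω | sd c S m A y i (ind z) ω = 1} ∩ ⋂ j ∈ Finset.range i, {ω | sd c S m A y j (ind z) ω = 1}ᶜ

omit [IsProbabilityMeasure μ] in
private theorem fst_meas (m : ℕ) (A : Finset (Site d)) (y z : Site d) (i : ℕ) :
    MeasurableSet[hist c S Set.univ ((i : ℝ≥0) / 2 ^ m)] (fst c S m A y z i) := by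
  have h : ∀ j ≤ i, MeasurableSet[hist c S Set.univ ((i : ℝ≥0) / 2 ^ m)]
      {ω | sd c S m A y j (ind z) ω = 1} := fun j hj =>
    sd_meas m A y hj (ind z) (MeasurableSet.singleton (1 : ℝ))
  refine MeasurableSet.inter (h i le_rfl) ?_
  refine Finset.measurableSet_biInter _ fun j hj => ?_
  exact (h j (Finset.mem_range.1 hj).le).compl

omit mΩ in
private theorem fst_disj (m : ℕ) (A : Finset (Site d)) (y z : Site d) :
    Pairwise (Function.onFun Disjoint (fst c S m A y z)) := by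
  have key : ∀ i j : ℕ, i < j → Disjoint (fst c S m A y z i) (fst c S m A y z j) := by
    intro i j hij
    refine Set.disjoint_left.2 fun ω h1 h2 => ?_
    have h3 := h2.2
    simp only [Set.mem_iInter] at h3
    exact h3 i (Finset.mem_range.2 hij) h1.1
  intro i j hij
  rcases lt_or_gt_of_ne hij with h | h
  · exact key i j h
  · exact (key j i h).symm

omit mΩ in
private theorem fst_cover (m : ℕ) (A : Finset (Site d)) (y z : Site d) (L : ℕ) :
    {ω | ∃ i ≤ L, sd c S m A y i (ind z) ω = 1} ⊆ ⋃ i ∈ Finset.range (L + 1),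
      fst c S m A y z i := by
  classical
  rintro ω ⟨i, hi, h⟩
  have hex : ∃ i, sd c S m A y i (ind z) ω = 1 := ⟨i, h⟩
  refine Set.mem_biUnion (x := Nat.find hex) ?_ ⟨Nat.find_spec hex, ?_⟩
  · have := Nat.find_min' hex h
    simp only [Finset.coe_range, Set.mem_Iio]
    omega
  · simp only [Set.mem_iInter]
    intro j hj
    exact Nat.find_min hex (Finset.mem_range.1 hj)

private theorem sd_int (hS : Setup μ p c S) (m : ℕ) (A : Finset (Site d)) (y : Site d)
    (n : ℕ) {φ : Site d → ℝ} {K : ℝ} (hφ : ∀ z, |φ z| ≤ K) :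
    Integrable (sd c S m A y n φ) μ := by
  have hXm : AEStronglyMeasurable (fun ω => sg (c y ω)) μ :=
    ((Measurable.of_discrete (f := sg)).comp (hS.cmeas y)).aestronglyMeasurable
  exact ((gt_integrable hS m (insert y A) n hφ).sub (gt_integrable hS m A n hφ)).bdd_mul hXm
    (Eventually.of_forall fun ω => (co1_abs_sg _).le)

omit mΩ in
private theorem ind_bdd (z w : Site d) : |ind z w| ≤ 1 := by
  unfold ind
  split_ifs <;> simp

/-- The key estimate for a first time. -/
private theorem fst_key (hd : 0 < d) (hS : Setup μ p c S) (m : ℕ) {A : Finset (Site d)}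
    {y : Site d} (hy : y ∉ A) (z : Site d) {i N : ℕ} (hiN : i ≤ N) :
    μ.real (fst c S m A y z i) * heat d ((N : ℝ) / 2 ^ m) 0 ≤
      ∫ ω in fst c S m A y z i, sd c S m A y N (ind z) ω ∂μ := by
  have hle : hist c S Set.univ ((i : ℝ≥0) / 2 ^ m) ≤ mΩ := hist_le hS _ _
  have hFm : MeasurableSet (fst c S m A y z i) := hle _ (fst_meas m A y z i)
  set ψ : Site d → ℝ := Pt (((N : ℝ) - i) / 2 ^ m) (ind z) with hψ
  have hNi : (0 : ℝ) ≤ ((N : ℝ) - i) / 2 ^ m := by
    have : (i : ℝ) ≤ N := by exact_mod_cast hiN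
    have h2 : 0 ≤ (N : ℝ) - i := by linarith
    positivity
  have hψb : ∀ w, |ψ w| ≤ 1 := Pt_bdd hd hNi (ind_bdd z)
  -- the test variable
  obtain ⟨X, hX⟩ : ∃ X : Ω → ℝ, X = (fst c S m A y z i).indicator (fun ω => sg (c y ω)) := ⟨_, rfl⟩
  have hXm : Measurable[hist c S Set.univ ((i : ℝ≥0) / 2 ^ m)] X := by
    rw [hX]
    exact Measurable.indicator
      ((Measurable.of_discrete (f := sg)).comp (co1_meas_col c S (Set.mem_univ y) _))
      (fst_meas m A y z i)
  have hXb : ∀ ω, |X ω| ≤ 1 := by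
    intro ω
    rw [hX]
    by_cases h : ω ∈ fst c S m A y z i
    · rw [Set.indicator_of_mem h, co1_abs_sg]
    · rw [Set.indicator_of_notMem h, abs_zero]
      exact zero_le_one
  have hXam : AEStronglyMeasurable X μ := (hXm.mono hle le_rfl).aestronglyMeasurable
  have j1 : ∀ (B : Finset (Site d)) (n : ℕ) {φ : Site d → ℝ}, (∀ z, |φ z| ≤ 1) →
      Integrable (fun ω => X ω * gt c S m B n φ ω) μ :=
    fun B n φ hφ => (gt_integrable hS m B n hφ).bdd_mul hXam (Eventually.of_forall hXb)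
  have hXe : ∀ (n : ℕ) (φ : Site d → ℝ) (ω : Ω),
      X ω * gt c S m (insert y A) n φ ω - X ω * gt c S m A n φ ω =
        (fst c S m A y z i).indicator (sd c S m A y n φ) ω := by
    intro n φ ω
    rw [hX]
    by_cases h : ω ∈ fst c S m A y z i
    · rw [Set.indicator_of_mem h, Set.indicator_of_mem h]
      unfold sd
      ring
    · rw [Set.indicator_of_notMem h, Set.indicator_of_notMem h]
      ring
  have h1 := lin hd hS m (insert y A) hiN hXm hXb (ind_bdd z)
  have h2 := lin hd hS m A hiN hXm hXb (ind_bdd z)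
  have h3 : ∫ ω, (fst c S m A y z i).indicator (sd c S m A y N (ind z)) ω ∂μ =
      ∫ ω, (fst c S m A y z i).indicator (sd c S m A y i ψ) ω ∂μ := by
    simp_rw [← hXe]
    rw [integral_sub (j1 _ _ (ind_bdd z)) (j1 _ _ (ind_bdd z)),
      integral_sub (j1 _ _ hψb) (j1 _ _ hψb), h1, h2]
  rw [integral_indicator hFm, integral_indicator hFm] at h3
  rw [h3]
  have h4 : ∀ ω ∈ fst c S m A y z i, heat d ((N : ℝ) / 2 ^ m) 0 ≤ sd c S m A y i ψ ω := by
    intro ω hω
    obtain ⟨w, hw, -⟩ := sd_pt (c := c) (S := S) m hy i ω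
    have hw1 : ind z w = 1 := by rw [← hw (ind z)]; exact hω.1
    have hwz : w = z := by
      by_contra h
      unfold ind at hw1
      rw [if_neg h] at hw1
      exact zero_ne_one hw1
    rw [hw ψ, hwz, hψ]
    unfold ind
    rw [Pt_single, sub_self]
    refine heat_zero_anti hd hNi ?_
    gcongr
    have : (0 : ℝ) ≤ i := Nat.cast_nonneg i
    linarith
  have h5 : ∫ ω in fst c S m A y z i, heat d ((N : ℝ) / 2 ^ m) 0 ∂μ ≤
      ∫ ω in fst c S m A y z i, sd c S m A y i ψ ω ∂μ :=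
    setIntegral_mono_on (integrable_const _) (sd_int hS m A y i hψb).integrableOn hFm h4
  rw [setIntegral_const, smul_eq_mul] at h5
  exact h5

/-- CO1. Let `D_i` be the position of the discrepancy between `insert y A` and `A` at grid step `i`
(`disc_wt`): the numbers of red and of blue particles at `z` can differ at step `i` only if `D_i = z`. Let
`N = (T+1) 2^m`. Decompose at the first `i ≤ T 2^m` with `D_i = z`; by `lin` (from step `i` to `N`,
`X = 1{first time = i} sg (c y)`, `φ = ind z`; `sg (c y) (gt (insert y A) i ψ - gt A i ψ) = ψ (D_i)`),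
`P(first = i, D_N = z) = P(first = i) heat ((N-i)/2^m) 0 ≥ P(first = i) heat (T+1) 0`, so
`P(∃ i ≤ T 2^m, D_i = z) ≤ heat (T+1) (z-y) / heat (T+1) 0`. -/
theorem differ_grid (hd : 0 < d) (hS : Setup μ p c S) (m : ℕ) {A : Finset (Site d)} {y : Site d}
    (hy : y ∉ A) (T : ℕ) (z : Site d) :
    μ {ω | ∃ i ≤ T * 2 ^ m, ∃ b : Bool,
      gw c S m (insert y A) i b (ind z) ω ≠ gw c S m A i b (ind z) ω} ≤
      ENNReal.ofReal (heat d ((T : ℝ) + 1) (z - y) / heat d ((T : ℝ) + 1) 0) := by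
  obtain ⟨N, hN⟩ : ∃ N : ℕ, N = (T + 1) * 2 ^ m := ⟨_, rfl⟩
  have hNt : (N : ℝ) / 2 ^ m = (T : ℝ) + 1 := by
    rw [hN]
    push_cast
    field_simp
  have hheat : 0 < heat d ((T : ℝ) + 1) (0 : Site d) := co1_heat_pos hd (by positivity)
  have hFm : ∀ i, MeasurableSet (fst c S m A y z i) := fun i =>
    hist_le hS _ _ _ (fst_meas m A y z i)
  -- the event is covered by the first times
  have hsub : {ω | ∃ i ≤ T * 2 ^ m, ∃ b : Bool,
      gw c S m (insert y A) i b (ind z) ω ≠ gw c S m A i b (ind z) ω} ⊆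
        ⋃ i ∈ Finset.range (T * 2 ^ m + 1), fst c S m A y z i := by
    refine subset_trans ?_ (fst_cover m A y z (T * 2 ^ m))
    rintro ω ⟨i, hi, b, hb⟩
    refine ⟨i, hi, ?_⟩
    obtain ⟨w, hw, hw2⟩ := sd_pt (c := c) (S := S) m hy i ω
    rw [hw (ind z)]
    have h1 := hw2 b (ind z)
    have h2 : 0 < |gw c S m (insert y A) i b (ind z) ω - gw c S m A i b (ind z) ω| :=
      abs_pos.2 (sub_ne_zero.2 hb)
    have h3 : ind z w ≠ 0 := by
      intro h
      rw [h, abs_zero] at h1
      linarith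
    unfold ind at h3 ⊢
    split_ifs at h3 ⊢ with h
    · rfl
    · exact absurd rfl h3
  have hNi : ∀ i ∈ Finset.range (T * 2 ^ m + 1), i ≤ N := by
    intro i hi
    have h1 := Finset.mem_range.1 hi
    have h2 : T * 2 ^ m ≤ (T + 1) * 2 ^ m := Nat.mul_le_mul_right _ (Nat.le_succ T)
    omega
  have hnn : ∀ ω, 0 ≤ sd c S m A y N (ind z) ω := by
    intro ω
    obtain ⟨w, hw, -⟩ := sd_pt (c := c) (S := S) m hy N ω
    rw [hw]
    unfold ind
    split_ifs <;> norm_num
  have hint := sd_int hS m A y N (ind_bdd z)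
  -- summation over the first times
  have hsum : μ.real (⋃ i ∈ Finset.range (T * 2 ^ m + 1), fst c S m A y z i) *
      heat d ((T : ℝ) + 1) 0 ≤ heat d ((T : ℝ) + 1) (z - y) := by
    have e1 : μ.real (⋃ i ∈ Finset.range (T * 2 ^ m + 1), fst c S m A y z i) =
        ∑ i ∈ Finset.range (T * 2 ^ m + 1), μ.real (fst c S m A y z i) :=
      measureReal_biUnion_finset (fun i _ j _ hij => fst_disj m A y z hij) fun i _ => hFm i
    have e2 : ∫ ω in (⋃ i ∈ Finset.range (T * 2 ^ m + 1), fst c S m A y z i),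
        sd c S m A y N (ind z) ω ∂μ = ∑ i ∈ Finset.range (T * 2 ^ m + 1),
          ∫ ω in fst c S m A y z i, sd c S m A y N (ind z) ω ∂μ :=
      integral_biUnion_finset _ (fun i _ => hFm i) (fun i _ j _ hij => fst_disj m A y z hij)
        fun i _ => hint.integrableOn
    have e3 : ∫ ω in (⋃ i ∈ Finset.range (T * 2 ^ m + 1), fst c S m A y z i),
        sd c S m A y N (ind z) ω ∂μ ≤ ∫ ω, sd c S m A y N (ind z) ω ∂μ :=
      setIntegral_le_integral hint (Eventually.of_forall hnn)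
    have e4 : ∫ ω, sd c S m A y N (ind z) ω ∂μ = heat d ((T : ℝ) + 1) (z - y) := by
      have h := disc_mean hd hS m hy N (ind_bdd z)
      rw [hNt] at h
      unfold sd
      rw [h]
      unfold ind
      rw [Pt_single]
    rw [e1, Finset.sum_mul]
    calc ∑ i ∈ Finset.range (T * 2 ^ m + 1), μ.real (fst c S m A y z i) *
          heat d ((T : ℝ) + 1) 0
        ≤ ∑ i ∈ Finset.range (T * 2 ^ m + 1),
            ∫ ω in fst c S m A y z i, sd c S m A y N (ind z) ω ∂μ := by
          refine Finset.sum_le_sum fun i hi => ?_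
          have h := fst_key hd hS m hy z (hNi i hi)
          rw [hNt] at h
          exact h
      _ ≤ _ := by rw [← e2, ← e4]; exact e3
  calc μ {ω | ∃ i ≤ T * 2 ^ m, ∃ b : Bool,
        gw c S m (insert y A) i b (ind z) ω ≠ gw c S m A i b (ind z) ω}
      ≤ μ (⋃ i ∈ Finset.range (T * 2 ^ m + 1), fst c S m A y z i) := measure_mono hsub
    _ = ENNReal.ofReal (μ.real (⋃ i ∈ Finset.range (T * 2 ^ m + 1), fst c S m A y z i)) :=
        (ofReal_measureReal (measure_ne_top _ _)).symm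
    _ ≤ _ := ENNReal.ofReal_le_ofReal ((le_div_iff₀ hheat).2 hsum)

end Pool.Agent.T2H99.AW
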