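import Pool.Agent.T2H99.AW.CD
import Pool.Agent.T2H99.AW.CO1

set_option autoImplicit false
set_option linter.unusedSectionVars false

/-!
# AW, package CO2: the infinite system is well defined at all times (uses CO1, CD, CG, HK2)
-/

namespace Pool.Agent.T2H99.AW

open Finset Filter Topology MeasureTheory ProbabilityTheory
open scoped NNReal ENNReal BigOperators

variable {d : ℕ} {Ω : Type} [mΩ : MeasurableSpace Ω] {μ : Measure Ω} [IsProbabilityMeasure μ]
  {p : ℝ} {c : Site d → Ω → Bool} {S : Site d → ℝ≥0 → Ω → Site d}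
  {alive : Finset (Site d) → ℝ≥0 → Ω → Finset (Site d)}

namespace CO2

/-- number of particles of colour `b` at `z` at time `t` -/
noncomputable def nn (c : Site d → Ω → Bool) (S : Site d → ℝ≥0 → Ω → Site d)
    (alive : Finset (Site d) → ℝ≥0 → Ω → Finset (Site d)) (A : Finset (Site d)) (t : ℝ≥0) (b : Bool)
    (z : Site d) (ω : Ω) : ℕ :=
  ((alive A t ω).filter (fun x => c x ω = b ∧ posn S ω t x = z)).card

lemma step_path (hA : Sys μ p c S alive) (ω : Ω) (x : Site d) :
    StepPath (fun t => posn S ω t x) := by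
  constructor
  · intro t
    filter_upwards [(hA.setup.walk x).right ω t] with s hs
    simp only [posn, hs]
  · intro t ht
    obtain ⟨z, hz⟩ := (hA.setup.walk x).left ω t ht
    refine ⟨x + z, ?_⟩
    filter_upwards [hz] with s hs
    simp only [posn, hs]

lemma pos_inj (hA : Sys μ p c S alive) (ω : Ω) (x y : Site d)
    (h : posn S ω 0 x = posn S ω 0 y) : x = y := by
  simpa [posn, (hA.setup.walk x).zero, (hA.setup.walk y).zero] using h

lemma alive_sub (hA : Sys μ p c S alive) (A : Finset (Site d)) (t : ℝ≥0) (ω : Ω) :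
    alive A t ω ⊆ A := by
  have h := alive_anti (hA.sys A ω) (zero_le (a := t))
  rwa [(hA.sys A ω).zero] at h

lemma gw_eq_nn {A : Finset (Site d)} {T m : ℕ} {ω : Ω}
    (hm : ∀ i ≤ T * 2 ^ m, gAlive (fun x => c x ω) (fun i x => posn S ω ((i : ℝ≥0) / 2 ^ m) x) A i =
      alive A ((i : ℝ≥0) / 2 ^ m) ω) {i : ℕ} (hi : i ≤ T * 2 ^ m) (b : Bool) (z : Site d) :
    gw c S m A i b (ind z) ω = (nn c S alive A ((i : ℝ≥0) / 2 ^ m) b z ω : ℝ) := by
  have h1 : ga c S m A i ω = alive A ((i : ℝ≥0) / 2 ^ m) ω := hm i hi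
  unfold gw wt nn
  rw [h1]
  unfold ind gpos
  rw [Finset.sum_boole, Finset.filter_filter]

lemma nn_right (hA : Sys μ p c S alive) (A : Finset (Site d)) (t : ℝ≥0) (b : Bool) (z : Site d)
    (ω : Ω) : ∀ᶠ s in 𝓝[>] t, nn c S alive A s b z ω = nn c S alive A t b z ω := by
  have h1 : ∀ᶠ s in 𝓝[>] t, ∀ x ∈ A, posn S ω s x = posn S ω t x := by
    rw [eventually_all_finset]
    exact fun x _ => (step_path hA ω x).1 t
  filter_upwards [h1, (hA.sys A ω).right t] with s hs1 hs2
  unfold nn
  rw [hs2]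
  congr 1
  apply Finset.filter_congr
  intro x hx
  rw [hs1 x (alive_sub hA A t ω hx)]

lemma diff_sub (hA : Sys μ p c S alive) (A B : Finset (Site d)) (T : ℕ) (z : Site d) (ω : Ω)
    (h : ∃ t : ℝ≥0, t ≤ T ∧ ∃ b : Bool, nn c S alive B t b z ω ≠ nn c S alive A t b z ω) :
    ∀ᶠ m : ℕ in atTop, ∃ i ≤ (T + 1) * 2 ^ m, ∃ b : Bool,
      gw c S m B i b (ind z) ω ≠ gw c S m A i b (ind z) ω := by
  obtain ⟨t, htT, b, hne⟩ := h
  have hr := (nn_right hA B t b z ω).and (nn_right hA A t b z ω)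
  obtain ⟨u, hu, hsub⟩ := mem_nhdsGT_iff_exists_Ioo_subset.mp hr
  have hu' : t < u := hu
  have hgA := grid_all (hA.sys A ω) (fun x _ => step_path hA ω x)
    (fun x _ y _ h => pos_inj hA ω x y h) (T + 1)
  have hgB := grid_all (hA.sys B ω) (fun x _ => step_path hA ω x)
    (fun x _ y _ h => pos_inj hA ω x y h) (T + 1)
  have hpos : (0 : ℝ) < u - t := sub_pos.2 (by exact_mod_cast hu')
  have hev : ∀ᶠ m : ℕ in atTop, ((1 : ℝ) / 2) ^ m < u - t :=
    (tendsto_pow_atTop_nhds_zero_of_lt_one (by norm_num) (by norm_num)).eventually_lt_const hpos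
  filter_upwards [hgA, hgB, hev] with m hmA hmB hm
  have h2 : (0 : ℝ≥0) < 2 ^ m := by positivity
  have h2' : (0 : ℝ) < 2 ^ m := by positivity
  set i : ℕ := ⌊t * 2 ^ m⌋₊ + 1 with hi
  have h3 : t * 2 ^ m < (i : ℝ≥0) := by
    rw [hi]; push_cast; exact Nat.lt_floor_add_one _
  have h4 : (i : ℝ≥0) ≤ t * 2 ^ m + 1 := by
    rw [hi]; push_cast
    exact add_le_add_left (Nat.floor_le (zero_le)) 1
  have h5 : t < (i : ℝ≥0) / 2 ^ m := (lt_div_iff₀ h2).2 h3
  have h4' : (i : ℝ) ≤ t * 2 ^ m + 1 := by exact_mod_cast h4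
  have h6 : (i : ℝ≥0) / 2 ^ m < u := by
    rw [div_lt_iff₀ h2]
    have h7 : (i : ℝ) < u * 2 ^ m := by
      have h8 : ((1 : ℝ) / 2) ^ m * 2 ^ m = 1 := by
        rw [← mul_pow]; norm_num
      have h9 := mul_lt_mul_of_pos_right hm h2'
      rw [h8] at h9
      linarith
    exact_mod_cast h7
  have h10 : i ≤ (T + 1) * 2 ^ m := by
    have h11 : (i : ℝ) ≤ ((T : ℝ) + 1) * 2 ^ m := by
      have h12 : (t : ℝ) ≤ T := by exact_mod_cast htT
      have h13 : (1 : ℝ) ≤ 2 ^ m := one_le_pow₀ (by norm_num)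
      nlinarith
    exact_mod_cast h11
  refine ⟨i, h10, b, ?_⟩
  rw [gw_eq_nn (alive := alive) hmB h10, gw_eq_nn (alive := alive) hmA h10]
  have h14 := hsub ⟨h5, h6⟩
  rw [h14.1, h14.2]
  exact_mod_cast hne

/-- the set where the two systems differ at `z` before time `T` -/
def dif (c : Site d → Ω → Bool) (S : Site d → ℝ≥0 → Ω → Site d)
    (alive : Finset (Site d) → ℝ≥0 → Ω → Finset (Site d)) (B A : Finset (Site d)) (T : ℕ)
    (z : Site d) : Set Ω :=
  {ω | ∃ t : ℝ≥0, t ≤ T ∧ ∃ b : Bool, nn c S alive B t b z ω ≠ nn c S alive A t b z ω}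

lemma one_step (hd : 0 < d) (hA : Sys μ p c S alive) {A : Finset (Site d)} {y : Site d}
    (hy : y ∉ A) (T : ℕ) (z : Site d) :
    μ (dif c S alive (insert y A) A T z) ≤
      ENNReal.ofReal (heat d ((T : ℝ) + 2) (z - y) / heat d ((T : ℝ) + 2) 0) := by
  set E : ℕ → Set Ω := fun m => {ω | ∃ i ≤ (T + 1) * 2 ^ m, ∃ b : Bool,
    gw c S m (insert y A) i b (ind z) ω ≠ gw c S m A i b (ind z) ω} with hE
  have h1 : dif c S alive (insert y A) A T z ⊆ ⋃ M : ℕ, ⋂ m ≥ M, E m := by
    intro ω hω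
    have h := diff_sub hA A (insert y A) T z ω hω
    rw [eventually_atTop] at h
    obtain ⟨M, hM⟩ := h
    exact Set.mem_iUnion.2 ⟨M, Set.mem_iInter₂.2 hM⟩
  have hmono : Monotone (fun M : ℕ => ⋂ m ≥ M, E m) := by
    intro M M' hMM'
    exact Set.biInter_subset_biInter_left (fun m hm => le_trans hMM' hm)
  calc μ (dif c S alive (insert y A) A T z) ≤ μ (⋃ M : ℕ, ⋂ m ≥ M, E m) := measure_mono h1
    _ = ⨆ M : ℕ, μ (⋂ m ≥ M, E m) := hmono.measure_iUnion
    _ ≤ _ := iSup_le fun M => by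
        refine (measure_mono (Set.iInter₂_subset M le_rfl)).trans ?_
        have h2 := differ_grid hd hA.setup M hy (T + 1) z
        have e : (((T + 1 : ℕ) : ℝ) + 1) = (T : ℝ) + 2 := by push_cast; ring
        rw [e] at h2
        exact h2

lemma many_step (hd : 0 < d) (hA : Sys μ p c S alive) (A : Finset (Site d)) (T : ℕ) (z : Site d)
    (B : Finset (Site d)) :
    μ (dif c S alive (B ∪ A) A T z) ≤
      ∑ y ∈ B, ENNReal.ofReal (heat d ((T : ℝ) + 2) (z - y) / heat d ((T : ℝ) + 2) 0) := by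
  classical
  induction B using Finset.induction_on with
  | empty =>
    have : dif c S alive (∅ ∪ A) A T z = ∅ := by
      rw [Finset.empty_union]
      ext ω
      simp [dif]
    rw [this]
    simp
  | insert y B hy ih =>
    rw [Finset.sum_insert hy]
    by_cases hyA : y ∈ B ∪ A
    · rw [Finset.insert_union, Finset.insert_eq_of_mem hyA]
      exact ih.trans (le_add_left le_rfl)
    · have h1 : dif c S alive (insert y B ∪ A) A T z ⊆
          dif c S alive (insert y (B ∪ A)) (B ∪ A) T z ∪ dif c S alive (B ∪ A) A T z := by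
        rintro ω ⟨t, ht, b, hb⟩
        rw [Finset.insert_union] at hb
        by_cases h2 : nn c S alive (insert y (B ∪ A)) t b z ω = nn c S alive (B ∪ A) t b z ω
        · right
          rw [h2] at hb
          exact ⟨t, ht, b, hb⟩
        · left
          exact ⟨t, ht, b, h2⟩
      exact (measure_mono h1).trans ((measure_union_le _ _).trans
        (add_le_add (one_step hd hA hyA T z) ih))

lemma sum_fin (hd : 0 < d) (T : ℕ) (z : Site d) :
    ∑' y : Site d, ENNReal.ofReal (heat d ((T : ℝ) + 2) (z - y) / heat d ((T : ℝ) + 2) 0) ≠ ⊤ := by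
  have h0 : (0 : ℝ) ≤ (T : ℝ) + 2 := by positivity
  have hs : Summable (fun y : Site d => heat d ((T : ℝ) + 2) (z - y) / heat d ((T : ℝ) + 2) 0) := by
    apply Summable.div_const
    exact (Equiv.subLeft z).summable_iff.2 (heat_hasSum hd h0).summable
  rw [← ENNReal.ofReal_tsum_of_nonneg (fun y => div_nonneg (heat_nonneg h0 _) (heat_nonneg h0 _)) hs]
  exact ENNReal.ofReal_ne_top

end CO2

open CO2 in
/-- CO2. Almost surely, for every `T` and every site `z`, for all large `n` the numbers of red and of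
blue particles at `z` at all times `t ≤ T` are the same in the systems on `An n` and on `An n'`, `n' ≥ n`.
(By `grid_all` of CG.lean, for `m` large the grid systems on `insert y A` and `A` agree with the continuous
ones at all grid times `≤ T + 1`; a difference at a real time `t` persists for a short time after `t`, hence
occurs at a grid time for all large `m`; Fatou for sets gives
`P(∃ t ≤ T, difference) ≤ heat (T+2) (z-y) / heat (T+2) 0` (use `T + 1` instead of `T`, to have room to the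
right of `T`). Add the labels of `An (n+1) \ An n` one by one, sum over `n`, Borel-Cantelli.) -/
theorem consistent (hd : 0 < d) (hA : Sys μ p c S alive) {An : ℕ → Finset (Site d)}
    (hm : Monotone An) :
    ∀ᵐ ω ∂μ, ∀ (T : ℕ) (z : Site d), ∀ᶠ n in atTop, ∀ n' : ℕ, n ≤ n' → ∀ t : ℝ≥0, t ≤ T →
      ∀ b : Bool,
      ((alive (An n') t ω).filter (fun x => c x ω = b ∧ posn S ω t x = z)).card =
        ((alive (An n) t ω).filter (fun x => c x ω = b ∧ posn S ω t x = z)).card := by
  have key : ∀ (T : ℕ) (z : Site d), ∀ᵐ ω ∂μ, ∀ᶠ n in atTop,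
      ω ∉ dif c S alive (An (n + 1)) (An n) T z := by
    intro T z
    apply ae_eventually_notMem
    set f : Site d → ℝ≥0∞ := fun y =>
      ENNReal.ofReal (heat d ((T : ℝ) + 2) (z - y) / heat d ((T : ℝ) + 2) 0) with hf
    have h1 : ∀ n, μ (dif c S alive (An (n + 1)) (An n) T z) ≤ ∑ y ∈ An (n + 1) \ An n, f y := by
      intro n
      have h2 := many_step hd hA (An n) T z (An (n + 1) \ An n)
      rwa [Finset.sdiff_union_of_subset (hm (Nat.le_succ n))] at h2
    have h3 : ∀ N, ∑ n ∈ Finset.range N, ∑ y ∈ An (n + 1) \ An n, f y + ∑ y ∈ An 0, f y =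
        ∑ y ∈ An N, f y := by
      intro N
      induction N with
      | zero => simp
      | succ N ih =>
        rw [Finset.sum_range_succ, add_right_comm, ih, add_comm]
        exact Finset.sum_sdiff (hm (Nat.le_succ N))
    refine ne_top_of_le_ne_top (sum_fin hd T z) (ENNReal.tsum_le_of_sum_range_le fun N => ?_)
    calc ∑ n ∈ Finset.range N, μ (dif c S alive (An (n + 1)) (An n) T z)
        ≤ ∑ n ∈ Finset.range N, ∑ y ∈ An (n + 1) \ An n, f y := Finset.sum_le_sum fun n _ => h1 n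
      _ ≤ ∑ n ∈ Finset.range N, ∑ y ∈ An (n + 1) \ An n, f y + ∑ y ∈ An 0, f y :=
          le_add_right le_rfl
      _ = ∑ y ∈ An N, f y := h3 N
      _ ≤ ∑' y, f y := ENNReal.sum_le_tsum _
  have key2 : ∀ᵐ ω ∂μ, ∀ (T : ℕ) (z : Site d), ∀ᶠ n in atTop,
      ω ∉ dif c S alive (An (n + 1)) (An n) T z := by
    rw [ae_all_iff]
    intro T
    rw [ae_all_iff]
    intro z
    exact key T z
  filter_upwards [key2] with ω hω T z
  have h := hω T z
  rw [eventually_atTop] at h
  obtain ⟨N, hN⟩ := h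
  filter_upwards [eventually_ge_atTop N] with n hn
  intro n' hn'
  induction n', hn' using Nat.le_induction with
  | base => intro t _ b; rfl
  | succ k hk ih =>
    intro t ht b
    rw [← ih t ht b]
    by_contra hne
    exact hN k (hn.trans hk) ⟨t, ht, b, hne⟩

end Pool.Agent.T2H99.AW
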