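import Pool.Agent.T2H99.AW.K

set_option autoImplicit false

/-!
# AW, package CG: the continuous time system is the limit of the grid systems (uses K)

`StepPath f`: a right-continuous step function with left limits. On `[0, T]` finitely many paths
have together finitely many jump times (compactness: around every `t` there is a neighbourhood in
which the only possible jump is at `t`). For `m` large every cell `((i-1)/2^m, i/2^m]` with
`i ≤ T 2^m` contains at most one jump time `u` of the paths of the labels in `A`. In a cell without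
jump time: the positions do not change, the alive set does not change (`left` and `kill_eq_self`:
alive particles of different colours are never at the same site at any time: at time `0` by
injectivity, at times `> 0` by `left` and `kill_sep`), and the grid system does not change. In a cell
with jump time `u`: positions at the end of the cell are `pos u`, the alive set before `u` is that of
the beginning of the cell, the alive set at `u` and after is `kill c (pos u) ·`: the same as the grid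
step.
A convenient way: prove the real induction principle that a set of times in `[a, b]` that
contains `a`, is open to the right and closed under left limits is everything, and use it for
`alive s = alive a` when no jump occurs in `(a, s]`.
-/

namespace Pool.Agent.T2H99.AW

open Finset Filter Topology
open scoped NNReal

variable {d : ℕ}

/-- A right-continuous step function with left limits. -/
def StepPath {E : Type} (f : ℝ≥0 → E) : Prop :=
  (∀ t, ∀ᶠ s in 𝓝[>] t, f s = f t) ∧ (∀ t, 0 < t → ∃ z, ∀ᶠ s in 𝓝[<] t, f s = z)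

/-- real induction -/
private theorem real_ind {a b : ℝ≥0} {P : ℝ≥0 → Prop} (h0 : P a)
    (hr : ∀ t, a ≤ t → t < b → P t → ∀ᶠ s in 𝓝[>] t, P s)
    (hl : ∀ t, a < t → t ≤ b → (∀ s, a ≤ s → s < t → P s) → P t) {t : ℝ≥0} (hat : a ≤ t)
    (htb : t ≤ b) : P t := by
  by_contra hP
  let B : Set ℝ≥0 := {r | a ≤ r ∧ ¬ P r}
  have hBne : B.Nonempty := ⟨t, hat, hP⟩
  have hBdd : BddBelow B := ⟨a, fun r hr => hr.1⟩
  set σ := sInf B with hσ
  have haσ : a ≤ σ := le_csInf hBne fun r hr => hr.1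
  have hσt : σ ≤ t := csInf_le hBdd ⟨hat, hP⟩
  have hlt : ∀ s, a ≤ s → s < σ → P s := by
    intro s has hs
    by_contra hns
    exact absurd (csInf_le hBdd ⟨has, hns⟩) (not_le.mpr hs)
  have hPσ : P σ := by
    rcases haσ.eq_or_lt with h | h
    · rw [← h]; exact h0
    · exact hl σ h (hσt.trans htb) hlt
  have hσt' : σ < t := lt_of_le_of_ne hσt fun h => hP (h ▸ hPσ)
  have hev := hr σ haσ (lt_of_lt_of_le hσt' htb) hPσ
  obtain ⟨u, hu, hsub⟩ := mem_nhdsGT_iff_exists_Ioo_subset.mp hev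
  obtain ⟨r, hrB, hru⟩ := exists_lt_of_csInf_lt hBne (show sInf B < u from hu)
  have hσr : σ ≤ r := csInf_le hBdd hrB
  rcases hσr.eq_or_lt with h | h
  · exact hrB.2 (h ▸ hPσ)
  · exact hrB.2 (hsub ⟨h, hru⟩)

private theorem nhdsLT_neBot {t : ℝ≥0} (ht : 0 < t) : (𝓝[<] t).NeBot :=
  nhdsLT_neBot_of_exists_lt ⟨0, ht⟩

/-- the annihilating system up to time `T` -/
private structure AnnT (c : Site d → Bool) (pos : ℝ≥0 → Site d → Site d) (A : Finset (Site d))
    (T : ℝ≥0) (alive : ℝ≥0 → Finset (Site d)) : Prop where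
  zero : alive 0 = A
  right : ∀ t, t < T → ∀ᶠ s in 𝓝[>] t, alive s = alive t
  left : ∀ t, 0 < t → t ≤ T → ∀ᶠ s in 𝓝[<] t, alive t = kill c (pos t) (alive s)

private theorem annT_of {c : Site d → Bool} {pos : ℝ≥0 → Site d → Site d} {A : Finset (Site d)}
    {alive : ℝ≥0 → Finset (Site d)} (h : IsAnnihilation c pos A alive) (T : ℝ≥0) :
    AnnT c pos A T alive :=
  ⟨h.zero, fun t _ => h.right t, fun t ht _ => h.left t ht⟩

private theorem AnnT.mono {c : Site d → Bool} {pos : ℝ≥0 → Site d → Site d} {A : Finset (Site d)}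
    {alive : ℝ≥0 → Finset (Site d)} {T T' : ℝ≥0} (h : AnnT c pos A T alive) (hT : T' ≤ T) :
    AnnT c pos A T' alive :=
  ⟨h.zero, fun t ht => h.right t (lt_of_lt_of_le ht hT), fun t h0 ht => h.left t h0 (ht.trans hT)⟩

private theorem AnnT.anti {c : Site d → Bool} {pos : ℝ≥0 → Site d → Site d} {A : Finset (Site d)}
    {alive : ℝ≥0 → Finset (Site d)} {T : ℝ≥0} (h : AnnT c pos A T alive) {s t : ℝ≥0}
    (hst : s ≤ t) (htT : t ≤ T) : alive t ⊆ alive s := by
  refine real_ind (a := s) (b := T) (P := fun r => alive r ⊆ alive s) subset_rfl ?_ ?_ hst htT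
  · intro r _ hrT hr
    filter_upwards [h.right r hrT] with r' hr'
    rw [hr']; exact hr
  · intro r hsr hrT hr
    have h0 : 0 < r := lt_of_le_of_lt (zero_le) hsr
    have := nhdsLT_neBot h0
    have h1 : ∀ᶠ r' in 𝓝[<] r, s < r' := by
      filter_upwards [Ioo_mem_nhdsLT hsr] with r' hr' using hr'.1
    have h2 : ∀ᶠ r' in 𝓝[<] r, r' < r := eventually_mem_nhdsWithin
    obtain ⟨r', hk, h3, h4⟩ := ((h.left r h0 hrT).and (h1.and h2)).exists
    rw [hk]
    exact (kill_subset _ _ _).trans (hr r' h3.le h4)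

private theorem AnnT.sub {c : Site d → Bool} {pos : ℝ≥0 → Site d → Site d} {A : Finset (Site d)}
    {alive : ℝ≥0 → Finset (Site d)} {T : ℝ≥0} (h : AnnT c pos A T alive) {t : ℝ≥0}
    (htT : t ≤ T) : alive t ⊆ A := by
  have := h.anti (s := 0) (t := t) (zero_le) htT
  rwa [h.zero] at this

private theorem AnnT.sep {c : Site d → Bool} {pos : ℝ≥0 → Site d → Site d} {A : Finset (Site d)}
    {alive : ℝ≥0 → Finset (Site d)} {T : ℝ≥0} (h : AnnT c pos A T alive)
    (h0 : ∀ x ∈ A, ∀ y ∈ A, pos 0 x = pos 0 y → x = y) {t : ℝ≥0}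
    (htT : t ≤ T) : ∀ x ∈ alive t, ∀ y ∈ alive t, pos t x = pos t y → c x = c y := by
  rcases eq_or_lt_of_le (zero_le (a := t)) with ht | ht
  · intro x hx y hy hxy
    rw [← ht] at hx hy hxy
    rw [h.zero] at hx hy
    rw [h0 x hx y hy hxy]
  · have := nhdsLT_neBot ht
    obtain ⟨s, hs⟩ := (h.left t ht htT).exists
    intro x hx y hy hxy
    rw [hs] at hx hy
    exact kill_sep hx hy hxy

private theorem AnnT.unique {c : Site d → Bool} {pos : ℝ≥0 → Site d → Site d} {A : Finset (Site d)}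
    {a₁ a₂ : ℝ≥0 → Finset (Site d)} {T : ℝ≥0} (h₁ : AnnT c pos A T a₁) (h₂ : AnnT c pos A T a₂)
    {t : ℝ≥0} (htT : t ≤ T) : a₁ t = a₂ t := by
  refine real_ind (a := 0) (b := T) (P := fun r => a₁ r = a₂ r) (by rw [h₁.zero, h₂.zero]) ?_ ?_
    (zero_le) htT
  · intro r _ hrT hr
    filter_upwards [h₁.right r hrT, h₂.right r hrT] with r' hr1 hr2
    rw [hr1, hr2, hr]
  · intro r h0 hrT hr
    have := nhdsLT_neBot h0
    have h2 : ∀ᶠ r' in 𝓝[<] r, r' < r := eventually_mem_nhdsWithin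
    obtain ⟨r', hk1, hk2, h4⟩ := ((h₁.left r h0 hrT).and ((h₂.left r h0 hrT).and h2)).exists
    rw [hk1, hk2, hr r' (zero_le) h4]

/-- if a step path does not jump in `(a, b]`, nothing changes -/
private theorem AnnT.const {c : Site d → Bool} {pos : ℝ≥0 → Site d → Site d} {A : Finset (Site d)}
    {alive : ℝ≥0 → Finset (Site d)} {T : ℝ≥0} (h : AnnT c pos A T alive)
    (hpos : ∀ x ∈ A, StepPath (fun t => pos t x))
    (h0 : ∀ x ∈ A, ∀ y ∈ A, pos 0 x = pos 0 y → x = y) {a b : ℝ≥0} (hab : a ≤ b) (hbT : b ≤ T)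
    (hgood : ∀ t, a < t → t ≤ b → ∀ x ∈ A, ∀ᶠ s in 𝓝[<] t, pos s x = pos t x) :
    (∀ x ∈ A, pos b x = pos a x) ∧ alive b = alive a := by
  refine real_ind (a := a) (b := b) (P := fun r => (∀ x ∈ A, pos r x = pos a x) ∧ alive r = alive a)
    ⟨fun _ _ => rfl, rfl⟩ ?_ ?_ hab le_rfl
  · intro r _ hrb hr
    have h1 : ∀ᶠ s in 𝓝[>] r, ∀ x ∈ A, pos s x = pos r x := by
      rw [eventually_all_finset]
      exact fun x hx => (hpos x hx).1 r
    filter_upwards [h1, h.right r (lt_of_lt_of_le hrb hbT)] with s hs1 hs2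
    refine ⟨fun x hx => ?_, ?_⟩
    · rw [hs1 x hx, hr.1 x hx]
    · rw [hs2, hr.2]
  · intro r har hrb hr
    have hr0 : 0 < r := lt_of_le_of_lt (zero_le) har
    have := nhdsLT_neBot hr0
    have h1 : ∀ᶠ s in 𝓝[<] r, ∀ x ∈ A, pos s x = pos r x := by
      rw [eventually_all_finset]
      exact fun x hx => hgood r har hrb x hx
    have h2 : ∀ᶠ s in 𝓝[<] r, a < s ∧ s < r := by
      filter_upwards [Ioo_mem_nhdsLT har] with s hs using hs
    obtain ⟨s, hs1, hs2, hs3⟩ := (h1.and (h2.and (h.left r hr0 (hrb.trans hbT)))).exists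
    have hs := hr s hs2.1.le hs2.2
    have hp : ∀ x ∈ A, pos r x = pos a x := fun x hx => by rw [← hs1 x hx, hs.1 x hx]
    refine ⟨hp, ?_⟩
    rw [hs3, hs.2]
    have haT : a ≤ T := hab.trans hbT
    rw [kill_congr (c := c) (c' := c) (pos := pos r) (pos' := pos a) (fun _ _ => rfl)
      (fun x hx => hp x (h.sub haT hx))]
    exact kill_eq_self (h.sep h0 haT)

/-- a cell with at most one jump time `u` -/
private theorem AnnT.cell {c : Site d → Bool} {pos : ℝ≥0 → Site d → Site d} {A : Finset (Site d)}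
    {alive : ℝ≥0 → Finset (Site d)} {T : ℝ≥0} (h : AnnT c pos A T alive)
    (hpos : ∀ x ∈ A, StepPath (fun t => pos t x))
    (h0 : ∀ x ∈ A, ∀ y ∈ A, pos 0 x = pos 0 y → x = y) {a b u : ℝ≥0} (hau : a < u) (hub : u ≤ b)
    (hbT : b ≤ T)
    (hgood : ∀ t, a < t → t ≤ b → t ≠ u → ∀ x ∈ A, ∀ᶠ s in 𝓝[<] t, pos s x = pos t x) :
    alive b = kill c (pos b) (alive a) := by
  have hu0 : 0 < u := lt_of_le_of_lt (zero_le) hau
  have := nhdsLT_neBot hu0
  have hkill : alive u = kill c (pos u) (alive a) := by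
    have h2 : ∀ᶠ s in 𝓝[<] u, a < s ∧ s < u := by
      filter_upwards [Ioo_mem_nhdsLT hau] with s hs using hs
    obtain ⟨s, hs2, hs3⟩ := (h2.and (h.left u hu0 (hub.trans hbT))).exists
    have hc := h.const hpos h0 hs2.1.le ((hs2.2.le.trans hub).trans hbT) (fun t h1 h3 x hx =>
      hgood t h1 (h3.trans (hs2.2.le.trans hub)) (ne_of_lt (lt_of_le_of_lt h3 hs2.2)) x hx)
    rw [hs3, hc.2]
  have hc := h.const hpos h0 hub hbT (fun t h1 h3 x hx =>
    hgood t (hau.trans h1) h3 (ne_of_gt h1) x hx)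
  rw [hc.2, hkill]
  refine kill_congr (fun _ _ => rfl) fun x hx => ?_
  exact (hc.1 x (h.sub ((hau.le.trans hub).trans hbT) hx)).symm

/-- around every time there is a neighbourhood with at most one jump time -/
private theorem local_jump {pos : ℝ≥0 → Site d → Site d} {A : Finset (Site d)}
    (hpos : ∀ x ∈ A, StepPath (fun t => pos t x)) (t : ℝ≥0) :
    ∃ U : Set ℝ≥0, IsOpen U ∧ t ∈ U ∧ ∀ s ∈ U, s ≠ t → ∀ x ∈ A, ∀ᶠ r in 𝓝[<] s, pos r x = pos s x := by
  have h1 : ∀ᶠ s in 𝓝[>] t, ∀ x ∈ A, pos s x = pos t x := by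
    rw [eventually_all_finset]
    exact fun x hx => (hpos x hx).1 t
  obtain ⟨u, hu, hsub⟩ := mem_nhdsGT_iff_exists_Ioo_subset.mp h1
  have hu' : t < u := hu
  have hright : ∀ s, t < s → s < u → ∀ x ∈ A, ∀ᶠ r in 𝓝[<] s, pos r x = pos s x := by
    intro s hts hsu x hx
    filter_upwards [Ioo_mem_nhdsLT hts] with r hr
    rw [hsub ⟨hr.1, hr.2.trans hsu⟩ x hx, hsub ⟨hts, hsu⟩ x hx]
  rcases eq_or_lt_of_le (zero_le (a := t)) with ht | ht
  · refine ⟨Set.Iio u, isOpen_Iio, hu', ?_⟩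
    intro s hs hne x hx
    have hts : t < s := lt_of_le_of_ne (ht ▸ zero_le) (Ne.symm hne)
    exact hright s hts hs x hx
  · have h2 : ∀ x ∈ A, ∃ z, ∀ᶠ s in 𝓝[<] t, pos s x = z := fun x hx => (hpos x hx).2 t ht
    choose! z hz using h2
    have h3 : ∀ᶠ s in 𝓝[<] t, ∀ x ∈ A, pos s x = z x := by
      rw [eventually_all_finset]
      exact hz
    obtain ⟨l, hl, hsubl⟩ := (mem_nhdsLT_iff_exists_Ioo_subset' ht).mp h3
    have hl' : l < t := hl
    refine ⟨Set.Ioo l u, isOpen_Ioo, ⟨hl', hu'⟩, ?_⟩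
    intro s hs hne x hx
    rcases lt_or_gt_of_ne hne with h | h
    · filter_upwards [Ioo_mem_nhdsLT hs.1] with r hr
      rw [hsubl ⟨hr.1, hr.2.trans h⟩ x hx, hsubl ⟨hs.1, h⟩ x hx]
    · exact hright s h hs.2 x hx

/-- short cells contain at most one jump time -/
private theorem exists_mesh {pos : ℝ≥0 → Site d → Site d} {A : Finset (Site d)}
    (hpos : ∀ x ∈ A, StepPath (fun t => pos t x)) (T : ℝ≥0) :
    ∃ δ : ℝ, 0 < δ ∧ ∀ a b : ℝ≥0, a < b → b ≤ T → (b : ℝ) - a < δ → ∃ u, a < u ∧ u ≤ b ∧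
      ∀ t, a < t → t ≤ b → t ≠ u → ∀ x ∈ A, ∀ᶠ s in 𝓝[<] t, pos s x = pos t x := by
  choose U hUo hUm hU using local_jump hpos
  obtain ⟨δ, hδ, hball⟩ := lebesgue_number_lemma_of_metric (s := Set.Icc (0 : ℝ≥0) T)
    (c := U) isCompact_Icc hUo (fun t _ => Set.mem_iUnion.mpr ⟨t, hUm t⟩)
  refine ⟨δ, hδ, ?_⟩
  intro a b hab hbT hlen
  obtain ⟨t0, ht0⟩ := hball b ⟨zero_le, hbT⟩
  have hin : ∀ t, a < t → t ≤ b → t ∈ U t0 := by
    intro t hat htb
    apply ht0
    rw [Metric.mem_ball, NNReal.dist_eq, abs_sub_comm, abs_of_nonneg (sub_nonneg.mpr (by exact_mod_cast htb))]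
    have : (a : ℝ) < t := by exact_mod_cast hat
    linarith
  by_cases hc : a < t0 ∧ t0 ≤ b
  · exact ⟨t0, hc.1, hc.2, fun t h1 h2 h3 x hx => hU t0 t (hin t h1 h2) h3 x hx⟩
  · refine ⟨b, hab, le_rfl, fun t h1 h2 _ x hx => hU t0 t (hin t h1 h2) ?_ x hx⟩
    rintro rfl
    exact hc ⟨h1, h2⟩

/-- CG1. -/
theorem alive_anti {c : Site d → Bool} {pos : ℝ≥0 → Site d → Site d} {A : Finset (Site d)}
    {alive : ℝ≥0 → Finset (Site d)} (h : IsAnnihilation c pos A alive) {s t : ℝ≥0} (hst : s ≤ t) :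
    alive t ⊆ alive s :=
  (annT_of h t).anti hst le_rfl

/-- CG2 at all grid times. -/
theorem grid_all {c : Site d → Bool} {pos : ℝ≥0 → Site d → Site d} {A : Finset (Site d)}
    {alive : ℝ≥0 → Finset (Site d)} (h : IsAnnihilation c pos A alive)
    (hpos : ∀ x ∈ A, StepPath (fun t => pos t x))
    (h0 : ∀ x ∈ A, ∀ y ∈ A, pos 0 x = pos 0 y → x = y) (T : ℕ) :
    ∀ᶠ m : ℕ in atTop, ∀ i ≤ T * 2 ^ m,
      gAlive c (fun i x => pos ((i : ℝ≥0) / 2 ^ m) x) A i = alive ((i : ℝ≥0) / 2 ^ m) := by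
  obtain ⟨δ, hδ, hcell⟩ := exists_mesh hpos (T : ℝ≥0)
  have hev : ∀ᶠ m : ℕ in atTop, ((1 : ℝ) / 2) ^ m < δ :=
    (tendsto_pow_atTop_nhds_zero_of_lt_one (by norm_num) (by norm_num)).eventually_lt_const hδ
  filter_upwards [hev] with m hm
  have h2 : (0 : ℝ≥0) < 2 ^ m := by positivity
  intro i
  induction i with
  | zero =>
    intro _
    simp only [Nat.cast_zero, zero_div]
    rw [h.zero]
    rfl
  | succ i ih =>
    intro hi
    have hlt : (i : ℝ≥0) / 2 ^ m < ((i + 1 : ℕ) : ℝ≥0) / 2 ^ m := by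
      apply (div_lt_div_iff_of_pos_right h2).mpr
      exact_mod_cast Nat.lt_succ_self i
    have hle : ((i + 1 : ℕ) : ℝ≥0) / 2 ^ m ≤ T := by
      rw [div_le_iff₀ h2]
      exact_mod_cast hi
    have hlen : ((((i + 1 : ℕ) : ℝ≥0) / 2 ^ m : ℝ≥0) : ℝ) - (((i : ℝ≥0) / 2 ^ m : ℝ≥0) : ℝ) < δ := by
      have e : ((((i + 1 : ℕ) : ℝ≥0) / 2 ^ m : ℝ≥0) : ℝ) - (((i : ℝ≥0) / 2 ^ m : ℝ≥0) : ℝ)
          = (1 / 2) ^ m := by
        rw [one_div_pow]
        push_cast
        field_simp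
        ring
      rw [e]
      exact hm
    obtain ⟨u, hau, hub, hgood⟩ := hcell _ _ hlt hle hlen
    have hc := (annT_of h (T : ℝ≥0)).cell hpos h0 hau hub hle hgood
    rw [hc, ← ih (by omega)]
    rfl

/-- CG2. -/
theorem grid_eventually {c : Site d → Bool} {pos : ℝ≥0 → Site d → Site d} {A : Finset (Site d)}
    {alive : ℝ≥0 → Finset (Site d)} (h : IsAnnihilation c pos A alive)
    (hpos : ∀ x ∈ A, StepPath (fun t => pos t x))
    (h0 : ∀ x ∈ A, ∀ y ∈ A, pos 0 x = pos 0 y → x = y) (T : ℕ) :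
    ∀ᶠ m : ℕ in atTop, ∀ k ≤ T,
      gAlive c (fun i x => pos ((i : ℝ≥0) / 2 ^ m) x) A (k * 2 ^ m) = alive k := by
  filter_upwards [grid_all h hpos h0 T] with m key
  intro k hk
  rw [key (k * 2 ^ m) (Nat.mul_le_mul_right _ hk)]
  congr 1
  push_cast
  field_simp

private theorem annT_exists (c : Site d → Bool) (pos : ℝ≥0 → Site d → Site d) (A : Finset (Site d))
    (hpos : ∀ x ∈ A, StepPath (fun t => pos t x))
    (h0 : ∀ x ∈ A, ∀ y ∈ A, pos 0 x = pos 0 y → x = y) (T : ℝ≥0) :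
    ∃ alive : ℝ≥0 → Finset (Site d), AnnT c pos A T alive := by
  refine real_ind (a := 0) (b := T) (P := fun r => ∃ alive : ℝ≥0 → Finset (Site d), AnnT c pos A r alive)
    ?_ ?_ ?_ (zero_le) le_rfl
  · exact ⟨fun _ => A, rfl, fun t ht => absurd ht (not_lt.mpr zero_le),
      fun t h1 h2 => absurd h1 (not_lt.mpr h2)⟩
  · intro t _ _ ht
    obtain ⟨alive, ha⟩ := ht
    have h1 : ∀ᶠ s in 𝓝[>] t, ∀ x ∈ A, pos s x = pos t x := by
      rw [eventually_all_finset]
      exact fun x hx => (hpos x hx).1 t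
    obtain ⟨u, hu, hsub⟩ := mem_nhdsGT_iff_exists_Ioo_subset.mp h1
    have hu' : t < u := hu
    filter_upwards [Ioo_mem_nhdsGT hu'] with s hs
    refine ⟨fun r => if r ≤ t then alive r else alive t, ?_, ?_, ?_⟩
    · simp only [zero_le, if_true]
      exact ha.zero
    · intro r hr
      rcases lt_or_ge r t with hrt | hrt
      · filter_upwards [ha.right r hrt, Ioo_mem_nhdsGT hrt] with s' h2 h3
        rw [if_pos h3.2.le, if_pos hrt.le, h2]
      · filter_upwards [self_mem_nhdsWithin] with s' h3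
        have h4 : ¬ s' ≤ t := not_le.mpr (lt_of_le_of_lt hrt h3)
        rw [if_neg h4]
        by_cases h5 : r ≤ t
        · rw [if_pos h5, le_antisymm h5 hrt]
        · rw [if_neg h5]
    · intro r hr0 hrs
      rcases le_or_gt r t with hrt | hrt
      · filter_upwards [ha.left r hr0 hrt, self_mem_nhdsWithin] with s' h2 h3
        have h4 : s' ≤ t := (le_of_lt h3).trans hrt
        rw [if_pos hrt, if_pos h4, h2]
      · filter_upwards [Ioo_mem_nhdsLT hrt] with s' h3
        rw [if_neg (not_le.mpr hrt), if_neg (not_le.mpr h3.1)]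
        have hp : ∀ x ∈ A, pos r x = pos t x := hsub ⟨hrt, lt_of_le_of_lt hrs hs.2⟩
        rw [kill_congr (c := c) (c' := c) (pos := pos r) (pos' := pos t) (fun _ _ => rfl)
          (fun x hx => hp x (ha.sub le_rfl hx))]
        exact (kill_eq_self (ha.sep h0 le_rfl)).symm
  · intro t ht0 _ hE
    have h2 : ∀ x ∈ A, ∃ z, ∀ᶠ s in 𝓝[<] t, pos s x = z := fun x hx => (hpos x hx).2 t ht0
    choose! z hz using h2
    have h3 : ∀ᶠ s in 𝓝[<] t, ∀ x ∈ A, pos s x = z x := by
      rw [eventually_all_finset]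
      exact hz
    obtain ⟨l, hl, hsubl⟩ := (mem_nhdsLT_iff_exists_Ioo_subset' ht0).mp h3
    have hl' : l < t := hl
    obtain ⟨s1, hs1, hs1t⟩ := exists_between hl'
    obtain ⟨alive, ha⟩ := hE s1 (zero_le) hs1t
    have hsep := ha.sep h0 le_rfl
    have hconst : ∀ r, s1 < r → r < t → alive s1 = kill c (pos r) (alive s1) := by
      intro r h4 h5
      have hp : ∀ x ∈ A, pos r x = pos s1 x := fun x hx => by
        rw [hsubl ⟨hs1.trans h4, h5⟩ x hx, hsubl ⟨hs1, hs1t⟩ x hx]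
      rw [kill_congr (c := c) (c' := c) (pos := pos r) (pos' := pos s1) (fun _ _ => rfl)
        (fun x hx => hp x (ha.sub le_rfl hx))]
      exact (kill_eq_self hsep).symm
    refine ⟨fun r => if r ≤ s1 then alive r else if r < t then alive s1 else kill c (pos t) (alive s1),
      ?_, ?_, ?_⟩
    · simp only [zero_le, if_true]
      exact ha.zero
    · intro r hr
      rcases lt_or_ge r s1 with hrt | hrt
      · filter_upwards [ha.right r hrt, Ioo_mem_nhdsGT hrt] with s' h4 h5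
        rw [if_pos h5.2.le, if_pos hrt.le, h4]
      · filter_upwards [Ioo_mem_nhdsGT hr] with s' h5
        have h6 : ¬ s' ≤ s1 := not_le.mpr (lt_of_le_of_lt hrt h5.1)
        rw [if_neg h6, if_pos h5.2]
        by_cases h7 : r ≤ s1
        · rw [if_pos h7, le_antisymm h7 hrt]
        · rw [if_neg h7, if_pos hr]
    · intro r hr0 hrt
      rcases le_or_gt r s1 with hr1 | hr1
      · filter_upwards [ha.left r hr0 hr1, self_mem_nhdsWithin] with s' h4 h5
        have h6 : s' ≤ s1 := (le_of_lt h5).trans hr1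
        rw [if_pos hr1, if_pos h6, h4]
      · filter_upwards [Ioo_mem_nhdsLT hr1] with s' h5
        rw [if_neg (not_le.mpr hr1), if_neg (not_le.mpr h5.1), if_pos (lt_of_lt_of_le h5.2 hrt)]
        by_cases h7 : r < t
        · rw [if_pos h7]
          exact hconst r hr1 h7
        · rw [if_neg h7, le_antisymm hrt (not_lt.mp h7)]

/-- CG3. Existence of the system (not needed for the main proof, used as a non-vacuity check;
may be left for last). -/
theorem exists_annihilation (c : Site d → Bool) (pos : ℝ≥0 → Site d → Site d) (A : Finset (Site d))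
    (hpos : ∀ x ∈ A, StepPath (fun t => pos t x))
    (h0 : ∀ x ∈ A, ∀ y ∈ A, pos 0 x = pos 0 y → x = y) :
    ∃ alive : ℝ≥0 → Finset (Site d), IsAnnihilation c pos A alive := by
  have hex : ∀ n : ℕ, ∃ alive : ℝ≥0 → Finset (Site d), AnnT c pos A n alive := fun n =>
    annT_exists c pos A hpos h0 n
  choose al hal using hex
  have hagree : ∀ (n : ℕ) (t : ℝ≥0), t ≤ n → al (⌈t⌉₊) t = al n t := by
    intro n t htn
    have h1 : ⌈t⌉₊ ≤ n := Nat.ceil_le.mpr htn
    have h2 : AnnT c pos A (⌈t⌉₊ : ℕ) (al n) := (hal n).mono (by exact_mod_cast h1)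
    exact (hal ⌈t⌉₊).unique h2 (Nat.le_ceil t)
  refine ⟨fun t => al ⌈t⌉₊ t, ?_, ?_, ?_⟩
  · show al ⌈(0 : ℝ≥0)⌉₊ 0 = A
    exact (hal _).zero
  · intro t
    have ht : t < ((⌈t⌉₊ + 1 : ℕ) : ℝ≥0) := by
      have := Nat.le_ceil t
      push_cast
      exact lt_of_le_of_lt this (lt_add_one _)
    filter_upwards [(hal (⌈t⌉₊ + 1)).right t ht, Ioo_mem_nhdsGT ht] with s h1 h2
    rw [hagree (⌈t⌉₊ + 1) s h2.2.le, hagree (⌈t⌉₊ + 1) t ht.le, h1]
  · intro t ht0
    have ht : t ≤ ((⌈t⌉₊ : ℕ) : ℝ≥0) := Nat.le_ceil t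
    filter_upwards [(hal ⌈t⌉₊).left t ht0 ht, self_mem_nhdsWithin] with s h1 h2
    have h3 : s ≤ ((⌈t⌉₊ : ℕ) : ℝ≥0) := (le_of_lt h2).trans ht
    rw [hagree ⌈t⌉₊ s h3]
    exact h1

end Pool.Agent.T2H99.AW
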