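import Pool.Agent.T2H99.AW.Defs

set_option autoImplicit false

/-!
# AW: notation for the grid systems and for the continuous time systems

* `gw c S m A i b φ ω`: sum of `φ(position)` over the particles of colour `b` alive after `i` steps
  of the grid system of mesh `2^{-m}` on `A`;
* `gt c S m A i φ ω`: signed sum of `φ` over all alive particles;
* `cw c S alive A t b φ ω`: the same as `gw` in the continuous time system at the integer time `t`;
* `ind z`: the indicator function of the site `z`.
-/

namespace Pool.Agent.T2H99.AW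

open Finset Filter Topology MeasureTheory ProbabilityTheory
open scoped NNReal ENNReal BigOperators

noncomputable section

variable {d : ℕ} {Ω : Type}

/-- Indicator of a site. -/
def ind (z : Site d) : Site d → ℝ := fun w => if w = z then 1 else 0

def gw (c : Site d → Ω → Bool) (S : Site d → ℝ≥0 → Ω → Site d) (m : ℕ) (A : Finset (Site d))
    (i : ℕ) (b : Bool) (φ : Site d → ℝ) (ω : Ω) : ℝ :=
  wt (fun x => c x ω) (gpos S m ω i) (ga c S m A i ω) b φ

def gt (c : Site d → Ω → Bool) (S : Site d → ℝ≥0 → Ω → Site d) (m : ℕ) (A : Finset (Site d))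
    (i : ℕ) (φ : Site d → ℝ) (ω : Ω) : ℝ :=
  tot (fun x => c x ω) (gpos S m ω i) (ga c S m A i ω) φ

def cw (c : Site d → Ω → Bool) (S : Site d → ℝ≥0 → Ω → Site d)
    (alive : Finset (Site d) → ℝ≥0 → Ω → Finset (Site d)) (A : Finset (Site d))
    (t : ℕ) (b : Bool) (φ : Site d → ℝ) (ω : Ω) : ℝ :=
  wt (fun x => c x ω) (posn S ω t) (alive A t ω) b φ

/-- The whole set-up: independent colours and walks, and for every finite set of labels the
annihilating system. -/
structure Sys [MeasurableSpace Ω] (μ : Measure Ω) (p : ℝ) (c : Site d → Ω → Bool)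
    (S : Site d → ℝ≥0 → Ω → Site d)
    (alive : Finset (Site d) → ℝ≥0 → Ω → Finset (Site d)) : Prop where
  setup : Setup μ p c S
  sys : ∀ A ω, IsAnnihilation (fun x => c x ω) (posn S ω) A (fun t => alive A t ω)

/-- The density of the particles of colour `b` in the infinite grid system of mesh `2^{-m}` after `i`
steps: the limit along the finite sets of labels of the mean number at the origin. -/
def gdens [MeasurableSpace Ω] (μ : Measure Ω) (c : Site d → Ω → Bool)
    (S : Site d → ℝ≥0 → Ω → Site d) (m : ℕ) (b : Bool) (i : ℕ) : ℝ :=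
  limUnder (atTop : Filter (Finset (Site d))) (fun A => ∫ ω, gw c S m A i b (ind 0) ω ∂μ)

/-- The density of the particles of colour `b` at the integer time `t` in continuous time. -/
def dens [MeasurableSpace Ω] (μ : Measure Ω) (c : Site d → Ω → Bool)
    (S : Site d → ℝ≥0 → Ω → Site d)
    (alive : Finset (Site d) → ℝ≥0 → Ω → Finset (Site d)) (b : Bool) (t : ℕ) : ℝ :=
  limUnder (atTop : Filter (Finset (Site d))) (fun A => ∫ ω, cw c S alive A t b (ind 0) ω ∂μ)

end

end Pool.Agent.T2H99.AW
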