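import Pool.Agent.T2H99.AW.EX1
import Pool.Agent.T2H99.AW.CG
import Pool.Agent.T2H99.AW.Defs2

set_option autoImplicit false

/-!
# AW, package EX2 (optional): existence of the whole set-up (uses EX1, CG)

`Ω = Site d ⊕ Site d → Bool × Ω₀` with the infinite product measure (`Measure.infinitePi`), `Ω₀` from
`exists_walk`; the coordinate `inl x` gives the colour of `x` and the coordinate `inr x` its walk;
`alive A t ω` from `exists_annihilation` (`IsWalk.right`, `IsWalk.left` hold for every `ω`).
-/

namespace Pool.Agent.T2H99.AW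

open MeasureTheory ProbabilityTheory Filter Topology
open scoped NNReal ENNReal

/-- The Bernoulli measure. -/
noncomputable def bern (p : ℝ) : Measure Bool :=
  ENNReal.ofReal p • Measure.dirac true + ENNReal.ofReal (1 - p) • Measure.dirac false

theorem bern_prob {p : ℝ} (hp : 0 ≤ p) (hp1 : p ≤ 1) : IsProbabilityMeasure (bern p) := by
  constructor
  unfold bern
  rw [Measure.add_apply, Measure.smul_apply, Measure.smul_apply, measure_univ, measure_univ,
    smul_eq_mul, smul_eq_mul, mul_one, mul_one, ← ENNReal.ofReal_add hp (by linarith)]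
  simp

theorem bern_true (p : ℝ) : bern p {true} = ENNReal.ofReal p := by
  unfold bern
  rw [Measure.add_apply, Measure.smul_apply, Measure.smul_apply]
  simp

/-- A walk composed with a measure preserving map is a walk. -/
theorem IsWalk.comp {d : ℕ} {Ω Ω₀ : Type} [MeasurableSpace Ω] [MeasurableSpace Ω₀]
    {μ : Measure Ω} {μ₀ : Measure Ω₀} {S : ℝ≥0 → Ω₀ → Site d} (hS : IsWalk μ₀ S) {π : Ω → Ω₀}
    (hπ : MeasurePreserving π μ μ₀) : IsWalk μ (fun t ω => S t (π ω)) where
  meas t := (hS.meas t).comp hπ.measurable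
  zero ω := hS.zero _
  right ω t := hS.right _ t
  left ω t ht := hS.left _ t ht
  incr s t hst z := by
    have hm : MeasurableSet {ω | S t ω - S s ω = z} :=
      ((hS.meas t).sub (hS.meas s)) (MeasurableSet.singleton z)
    rw [← hS.incr s t hst z, ← hπ.measure_preimage hm.nullMeasurableSet]
    rfl
  indep s t hst := by
    have e1 : (⨆ u : Set.Iic s, MeasurableSpace.comap (fun ω => S u (π ω)) inferInstance) =
        MeasurableSpace.comap π (⨆ u : Set.Iic s, MeasurableSpace.comap (S u) inferInstance) := by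
      rw [MeasurableSpace.comap_iSup]
      refine iSup_congr fun u => ?_
      rw [MeasurableSpace.comap_comp]
      rfl
    have e2 : MeasurableSpace.comap (fun ω => S t (π ω) - S s (π ω)) inferInstance =
        MeasurableSpace.comap π
          (MeasurableSpace.comap (fun ω => S t ω - S s ω) inferInstance) := by
      rw [MeasurableSpace.comap_comp]
      rfl
    have l1 : (⨆ u : Set.Iic s, MeasurableSpace.comap (S u) inferInstance) ≤
        (inferInstance : MeasurableSpace Ω₀) := iSup_le fun u => (hS.meas u).comap_le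
    have l2 : MeasurableSpace.comap (fun ω => S t ω - S s ω) inferInstance ≤
        (inferInstance : MeasurableSpace Ω₀) := ((hS.meas t).sub (hS.meas s)).comap_le
    rw [e1, e2, Indep_iff]
    rintro _ _ ⟨t1, h1, rfl⟩ ⟨t2, h2, rfl⟩
    have h3 := (Indep_iff _ _ _).1 (hS.indep s t hst) t1 t2 h1 h2
    rw [← Set.preimage_inter, hπ.measure_preimage ((l1 _ h1).inter (l2 _ h2)).nullMeasurableSet,
      hπ.measure_preimage (l1 _ h1).nullMeasurableSet,
      hπ.measure_preimage (l2 _ h2).nullMeasurableSet, h3]

theorem exists_sys (d : ℕ) (hd : 0 < d) (p : ℝ) (hp : 0 ≤ p) (hp1 : p ≤ 1) :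
    ∃ (Ω : Type) (_ : MeasurableSpace Ω) (μ : Measure Ω) (_ : IsProbabilityMeasure μ)
      (c : Site d → Ω → Bool) (S : Site d → ℝ≥0 → Ω → Site d)
      (alive : Finset (Site d) → ℝ≥0 → Ω → Finset (Site d)), Sys μ p c S alive := by
  obtain ⟨Ω₀, m₀, μ₀, hμ₀, S₀, hS₀⟩ := exists_walk d hd
  have hb : IsProbabilityMeasure (bern p) := bern_prob hp hp1
  let ν : Measure (Bool × Ω₀) := (bern p).prod μ₀
  let Ω : Type := (Site d ⊕ Site d) → Bool × Ω₀
  let μ : Measure Ω := Measure.infinitePi fun _ => ν
  have hev : ∀ j : Site d ⊕ Site d, MeasurePreserving (fun ω : Ω => ω j) μ ν := fun j =>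
    measurePreserving_eval_infinitePi (fun _ => ν) j
  have hfst : MeasurePreserving (Prod.fst : Bool × Ω₀ → Bool) ν (bern p) :=
    measurePreserving_fst
  have hsnd : MeasurePreserving (Prod.snd : Bool × Ω₀ → Ω₀) ν μ₀ :=
    measurePreserving_snd
  let c : Site d → Ω → Bool := fun x ω => (ω (Sum.inl x)).1
  let S : Site d → ℝ≥0 → Ω → Site d := fun x t ω => S₀ t (ω (Sum.inr x)).2
  have hc : ∀ x, MeasurePreserving (c x) μ (bern p) := fun x => hfst.comp (hev (Sum.inl x))
  have hw : ∀ x, IsWalk μ (S x) := fun x => hS₀.comp (hsnd.comp (hev (Sum.inr x)))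
  have hsys : ∀ (A : Finset (Site d)) (ω : Ω), ∃ alive : ℝ≥0 → Finset (Site d),
      IsAnnihilation (fun x => c x ω) (posn S ω) A alive := by
    intro A ω
    refine exists_annihilation _ _ A (fun x _ => ⟨fun t => ?_, fun t ht => ?_⟩) ?_
    · filter_upwards [(hw x).right ω t] with s hs
      show x + S x s ω = x + S x t ω
      rw [hs]
    · obtain ⟨z, hz⟩ := (hw x).left ω t ht
      refine ⟨x + z, ?_⟩
      filter_upwards [hz] with s hs
      show x + S x s ω = x + z
      rw [hs]
    · intro x _ y _ h
      unfold posn at h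
      rw [(hw x).zero, (hw y).zero, add_zero, add_zero] at h
      exact h
  choose al hal using hsys
  refine ⟨Ω, inferInstance, μ, inferInstance, c, S, fun A t ω => al A ω t, ⟨?_, ?_⟩⟩
  · refine ⟨fun x => (hc x).measurable, fun x => ?_, hw, ?_⟩
    · have h1 := (hc x).measure_preimage (MeasurableSet.singleton true).nullMeasurableSet
      rw [bern_true] at h1
      exact h1
    · have hi : iIndepFun (fun (j : Site d ⊕ Site d) (ω : Ω) => ω j) μ :=
        iIndepFun_infinitePi (P := fun _ : Site d ⊕ Site d => ν)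
          (X := fun _ (y : Bool × Ω₀) => y) (fun _ => measurable_id)
      have hle : ∀ j : Site d ⊕ Site d, Sum.elim
          (fun x => MeasurableSpace.comap (c x) inferInstance)
          (fun x => ⨆ t : ℝ≥0, MeasurableSpace.comap (S x t) inferInstance) j ≤
            MeasurableSpace.comap (fun ω : Ω => ω j) inferInstance := by
        rintro (x | x)
        · show MeasurableSpace.comap (c x) inferInstance ≤ _
          rintro _ ⟨t, ht, rfl⟩
          exact ⟨Prod.fst ⁻¹' t, measurable_fst ht, rfl⟩
        · show (⨆ t : ℝ≥0, MeasurableSpace.comap (S x t) inferInstance) ≤ _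
          refine iSup_le fun u => ?_
          rintro _ ⟨t, ht, rfl⟩
          exact ⟨Prod.snd ⁻¹' (S₀ u ⁻¹' t), measurable_snd ((hS₀.meas u) ht), rfl⟩
      rw [iIndep_iff]
      intro s f hf
      exact (iIndep_iff _ _).1 hi s (fun j hj => hle j _ (hf j hj))
  · exact fun A ω => hal A ω

end Pool.Agent.T2H99.AW
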