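import Pool.Agent.T2H99.AW.CD

set_option autoImplicit false

/-!
# AW, package U6: visits during a unit of time (uses CD, CG, MK, HK2)
-/

namespace Pool.Agent.T2H99.AW

open Finset Filter Topology MeasureTheory ProbabilityTheory
open scoped NNReal ENNReal BigOperators

variable {d : ℕ} {Ω : Type} [mΩ : MeasurableSpace Ω] {μ : Measure Ω} [IsProbabilityMeasure μ]
  {p : ℝ} {c : Site d → Ω → Bool} {S : Site d → ℝ≥0 → Ω → Site d}
  {alive : Finset (Site d) → ℝ≥0 → Ω → Finset (Site d)}

omit [IsProbabilityMeasure μ] in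
private theorem step_posn (hS : Setup μ p c S) (ω : Ω) (x : Site d) :
    StepPath (fun t => posn S ω t x) := by
  have h := hS.walk x
  refine ⟨fun t => ?_, fun t ht => ?_⟩
  · filter_upwards [h.right ω t] with s hs
    simp only [posn, hs]
  · obtain ⟨z, hz⟩ := h.left ω t ht
    refine ⟨x + z, ?_⟩
    filter_upwards [hz] with s hs
    simp only [posn, hs]

omit [IsProbabilityMeasure μ] in
private theorem posn_inj (hS : Setup μ p c S) (ω : Ω) {x y : Site d}
    (h : posn S ω 0 x = posn S ω 0 y) : x = y := by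
  simpa [posn, (hS.walk x).zero, (hS.walk y).zero] using h

omit [IsProbabilityMeasure μ] in
private theorem mem_alive_iff (hA : Sys μ p c S alive) (A : Finset (Site d)) (k : ℕ) (x : Site d)
    (ω : Ω) : x ∈ alive A k ω ↔ ∃ M : ℕ, ∀ m : ℕ, M ≤ m → x ∈ ga c S m A (k * 2 ^ m) ω := by
  have h := grid_eventually (hA.sys A ω) (fun x _ => step_posn hA.setup ω x)
    (fun x _ y _ hxy => posn_inj hA.setup ω hxy) k
  obtain ⟨M, hM⟩ := eventually_atTop.mp h
  have hM' : ∀ m : ℕ, M ≤ m → ga c S m A (k * 2 ^ m) ω = alive A k ω := fun m hm =>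
    hM m hm k le_rfl
  constructor
  · intro hx
    exact ⟨M, fun m hm => by rw [hM' m hm]; exact hx⟩
  · rintro ⟨M', hM''⟩
    rw [← hM' (max M M') (le_max_left _ _)]
    exact hM'' _ (le_max_right _ _)

omit [IsProbabilityMeasure μ] in
private theorem meas_alive (hA : Sys μ p c S alive) (A : Finset (Site d)) (k : ℕ) (x : Site d) :
    MeasurableSet[hist c S Set.univ (k : ℝ≥0)] {ω | x ∈ alive A k ω} := by
  have e : {ω | x ∈ alive A k ω} = ⋃ M : ℕ, ⋂ m : ℕ, ⋂ _ : M ≤ m,
      {ω | x ∈ ga c S m A (k * 2 ^ m) ω} := by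
    ext ω
    simp only [Set.mem_ofPred_eq, Set.mem_iUnion, Set.mem_iInter]
    exact mem_alive_iff hA A k x ω
  rw [e]
  refine @MeasurableSet.iUnion Ω ℕ (hist c S Set.univ (k : ℝ≥0)) _ _ fun M =>
    @MeasurableSet.iInter Ω ℕ (hist c S Set.univ (k : ℝ≥0)) _ _ fun m =>
    @MeasurableSet.iInter Ω (M ≤ m) (hist c S Set.univ (k : ℝ≥0)) _ _ fun _ => ?_
  refine hist_mono c S (Set.subset_univ _) le_rfl _ (meas_mem_ga c S m A ?_ x)
  rw [Nat.cast_mul, Nat.cast_pow, Nat.cast_ofNat, mul_div_assoc, div_self (by positivity), mul_one]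

omit mΩ in
private theorem meas_S (c : Site d → Ω → Bool) (S : Site d → ℝ≥0 → Ω → Site d) (x : Site d)
    {u s : ℝ≥0} (hu : u ≤ s) : Measurable[hist c S Set.univ s] (S x u) := by
  refine measurable_iff_comap_le.2 ?_
  have h1 : MeasurableSpace.comap (S x u) inferInstance ≤
      ⨆ u : Set.Iic s, MeasurableSpace.comap (S x u) inferInstance :=
    le_iSup (fun u : Set.Iic s => MeasurableSpace.comap (S x u) inferInstance) ⟨u, hu⟩
  exact (h1.trans le_sup_right).trans (le_iSup (fun x : (Set.univ : Set (Site d)) =>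
    (MeasurableSpace.comap (c x) inferInstance) ⊔
    ⨆ u : Set.Iic s, MeasurableSpace.comap (S x u) inferInstance) ⟨x, trivial⟩)

omit mΩ in
private theorem meas_c (c : Site d → Ω → Bool) (S : Site d → ℝ≥0 → Ω → Site d) (x : Site d)
    (s : ℝ≥0) : Measurable[hist c S Set.univ s] (c x) := by
  refine measurable_iff_comap_le.2 ?_
  exact le_trans le_sup_left (le_iSup (fun x : (Set.univ : Set (Site d)) =>
    (MeasurableSpace.comap (c x) inferInstance) ⊔
    ⨆ u : Set.Iic s, MeasurableSpace.comap (S x u) inferInstance) ⟨x, trivial⟩)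

omit mΩ in
private theorem meas_posn (c : Site d → Ω → Bool) (S : Site d → ℝ≥0 → Ω → Site d) (x : Site d)
    {u s : ℝ≥0} (hu : u ≤ s) : Measurable[hist c S Set.univ s] (fun ω => posn S ω u x) := by
  exact (Measurable.of_discrete (f := fun z : Site d => x + z)).comp (meas_S c S x hu)

private theorem heat_two_pos (hd : 0 < d) : 0 < heat d 2 0 := by
  have h := heat_term hd (by norm_num : (0 : ℝ) ≤ 2) (0 : Site d)
  have h0 := le_hasSum h 0 fun n _ => mul_nonneg (pw_nonneg (by norm_num) n) (srw_nonneg n 0)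
  refine lt_of_lt_of_le ?_ h0
  simp [pw, srw]
  positivity

/-- the bad event for the label `x` -/
private def Ev (c : Site d → Ω → Bool) (alive : Finset (Site d) → ℝ≥0 → Ω → Finset (Site d))
    (A : Finset (Site d)) (k : ℕ) (x : Site d) : Set Ω := {ω | x ∈ alive A k ω ∧ c x ω = false}

omit [IsProbabilityMeasure μ] in
private theorem meas_Ev (hA : Sys μ p c S alive) (A : Finset (Site d)) (k : ℕ) (x : Site d)
    {s : ℝ≥0} (hs : (k : ℝ≥0) ≤ s) : MeasurableSet[hist c S Set.univ s] (Ev c alive A k x) := by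
  refine hist_mono c S subset_rfl hs _ ?_
  refine @MeasurableSet.inter Ω (hist c S Set.univ (k : ℝ≥0)) _ _ (meas_alive hA A k x) ?_
  exact meas_c c S x k (measurableSet_singleton false)

/-- a visit at one of the first `j` grid times -/
private def Wv (c : Site d → Ω → Bool) (S : Site d → ℝ≥0 → Ω → Site d)
    (alive : Finset (Site d) → ℝ≥0 → Ω → Finset (Site d))
    (A : Finset (Site d)) (k : ℕ) (x : Site d) (m j : ℕ) : Set Ω :=
  Ev c alive A k x ∩ {ω | ∃ i < j, posn S ω ((k : ℝ≥0) + (i : ℝ≥0) / 2 ^ m) x = 0}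

omit [IsProbabilityMeasure μ] in
private theorem meas_Wv (hA : Sys μ p c S alive) (A : Finset (Site d)) (k : ℕ) (x : Site d)
    (m j : ℕ) {s : ℝ≥0} (hs : ∀ i < j, (k : ℝ≥0) + (i : ℝ≥0) / 2 ^ m ≤ s) (hk : (k : ℝ≥0) ≤ s) :
    MeasurableSet[hist c S Set.univ s] (Wv c S alive A k x m j) := by
  refine @MeasurableSet.inter Ω (hist c S Set.univ s) _ _ (meas_Ev hA A k x hk) ?_
  have e : {ω | ∃ i < j, posn S ω ((k : ℝ≥0) + (i : ℝ≥0) / 2 ^ m) x = 0} =
      ⋃ i : ℕ, ⋃ _ : i < j, {ω | posn S ω ((k : ℝ≥0) + (i : ℝ≥0) / 2 ^ m) x = 0} := by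
    ext ω
    simp
  rw [e]
  refine @MeasurableSet.iUnion Ω ℕ (hist c S Set.univ s) _ _ fun i =>
    @MeasurableSet.iUnion Ω (i < j) (hist c S Set.univ s) _ _ fun hi => ?_
  exact meas_posn c S x (hs i hi) (measurableSet_singleton (0 : Site d))

private theorem meas_full (hA : Sys μ p c S alive) (A : Finset (Site d)) (k : ℕ) (x : Site d)
    (m j : ℕ) : MeasurableSet (Wv c S alive A k x m j) := by
  refine hist_le hA.setup Set.univ ((k : ℝ≥0) + (j : ℝ≥0) / 2 ^ m) _ (meas_Wv hA A k x m j ?_ ?_)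
  · intro i hi
    gcongr
  · exact le_self_add

/-- the mass of the walk that returns to the origin at time `k + 2` -/
private theorem visit_grid (hd : 0 < d) (hA : Sys μ p c S alive) (A : Finset (Site d)) (k : ℕ)
    (x : Site d) (m : ℕ) (j : ℕ) (hj : j ≤ 2 ^ m + 1) :
    μ.real (Wv c S alive A k x m j) * heat d 2 0 ≤
      ∫ ω, (Wv c S alive A k x m j).indicator (fun _ => (1 : ℝ)) ω *
        ind 0 (posn S ω ((k : ℝ≥0) + 2) x) ∂μ := by
  induction j with
  | zero =>
    have e : Wv c S alive A k x m 0 = ∅ := by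
      ext ω
      simp [Wv]
    rw [e]
    simp
  | succ j ih =>
    have ihj := ih (by omega)
    set τ : ℝ≥0 := (k : ℝ≥0) + (j : ℝ≥0) / 2 ^ m with hτ
    have hj1 : (j : ℝ≥0) / 2 ^ m ≤ 1 := by
      rw [div_le_iff₀ (by positivity), one_mul]
      exact_mod_cast (by omega : j ≤ 2 ^ m)
    have hτ2 : τ ≤ (k : ℝ≥0) + 2 := by
      rw [hτ]
      gcongr
      exact hj1.trans (by norm_num)
    -- the first visit is at `j`
    set F : Set Ω := (Ev c alive A k x ∩ {ω | posn S ω τ x = 0}) \ Wv c S alive A k x m j with hF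
    have hWτ : MeasurableSet[hist c S Set.univ τ] (Wv c S alive A k x m j) := by
      refine meas_Wv hA A k x m j ?_ le_self_add
      intro i hi
      rw [hτ]
      gcongr
    have hFm : MeasurableSet[hist c S Set.univ τ] F := by
      refine @MeasurableSet.diff Ω (hist c S Set.univ τ) _ _ ?_ hWτ
      exact @MeasurableSet.inter Ω (hist c S Set.univ τ) _ _ (meas_Ev hA A k x le_self_add)
        (meas_posn c S x le_rfl (measurableSet_singleton (0 : Site d)))
    have hFM : MeasurableSet F := hist_le hA.setup _ _ _ hFm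
    have hWM : MeasurableSet (Wv c S alive A k x m j) := meas_full hA A k x m j
    have hdisj : Disjoint (Wv c S alive A k x m j) F := Set.disjoint_sdiff_right
    have hW : Wv c S alive A k x m (j + 1) = Wv c S alive A k x m j ∪ F := by
      ext ω
      simp only [hF, Wv, Set.mem_union, Set.mem_inter_iff, Set.mem_sdiff, Set.mem_ofPred_eq]
      constructor
      · rintro ⟨h1, i, hi, h2⟩
        by_cases h3 : ∃ i < j, posn S ω ((k : ℝ≥0) + (i : ℝ≥0) / 2 ^ m) x = 0
        · exact Or.inl ⟨h1, h3⟩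
        · refine Or.inr ⟨⟨h1, ?_⟩, fun h => h3 h.2⟩
          have : i = j := by
            by_contra hne
            exact h3 ⟨i, by omega, h2⟩
          rw [hτ, ← this]
          exact h2
      · rintro (⟨h1, i, hi, h2⟩ | ⟨⟨h1, h2⟩, _⟩)
        · exact ⟨h1, i, by omega, h2⟩
        · exact ⟨h1, j, by omega, h2⟩
    -- the contribution of `F`
    have key : μ.real F * heat d 2 0 ≤
        ∫ ω, F.indicator (fun _ => (1 : ℝ)) ω * ind 0 (posn S ω ((k : ℝ≥0) + 2) x) ∂μ := by
      have hXm : Measurable[hist c S Set.univ τ] (F.indicator (fun _ => (1 : ℝ))) :=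
        (@measurable_const ℝ Ω _ (hist c S Set.univ τ) (1 : ℝ)).indicator hFm
      have hXb : ∀ ω, |F.indicator (fun _ => (1 : ℝ)) ω| ≤ 1 := by
        intro ω
        by_cases h : ω ∈ F
        · simp [h]
        · simp [h]
      have h1 := markov1 hd hA.setup hτ2 hXm hXb
        (meas_posn c S x (le_refl τ)) x (φ := ind 0) (K := 1) (by
          intro z
          unfold ind
          split_ifs <;> simp)
      have h2 : ∀ ω, posn S ω τ x + (S x ((k : ℝ≥0) + 2) ω - S x τ ω) =
          posn S ω ((k : ℝ≥0) + 2) x := by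
        intro ω
        simp only [posn]
        abel
      simp only [h2] at h1
      rw [h1]
      have h3 : ∀ ω, F.indicator (fun _ => (1 : ℝ)) ω *
          Pt (((k : ℝ≥0) + 2 : ℝ≥0) - (τ : ℝ)) (ind 0) (posn S ω τ x) =
          F.indicator (fun _ => heat d ((((k : ℝ≥0) + 2 : ℝ≥0) : ℝ) - (τ : ℝ)) 0) ω := by
        intro ω
        by_cases h : ω ∈ F
        · have h0 : posn S ω τ x = 0 := h.1.2
          rw [Set.indicator_of_mem h, Set.indicator_of_mem h, h0, one_mul]
          have := Pt_single (d := d) ((((k : ℝ≥0) + 2 : ℝ≥0) : ℝ) - (τ : ℝ)) 0 0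
          rw [sub_zero] at this
          exact this
        · rw [Set.indicator_of_notMem h, Set.indicator_of_notMem h, zero_mul]
      simp only [h3]
      rw [integral_indicator hFM, setIntegral_const, smul_eq_mul]
      refine mul_le_mul_of_nonneg_left ?_ measureReal_nonneg
      refine heat_zero_anti hd ?_ ?_
      · rw [sub_nonneg]
        exact_mod_cast hτ2
      · have : ((k : ℝ≥0) : ℝ) ≤ τ :=
          NNReal.coe_le_coe.2 (le_self_add : (k : ℝ≥0) ≤ (k : ℝ≥0) + (j : ℝ≥0) / 2 ^ m)
        push_cast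
        push_cast at this
        linarith
    have hint : ∀ B : Set Ω, MeasurableSet B →
        Integrable (fun ω => B.indicator (fun _ => (1 : ℝ)) ω *
          ind 0 (posn S ω ((k : ℝ≥0) + 2) x)) μ := by
      intro B hB
      refine Integrable.of_bound (C := 1) ?_ (Eventually.of_forall fun ω => ?_)
      · refine ((measurable_const.indicator hB).mul ?_).aestronglyMeasurable
        have h5 : Measurable (fun ω => posn S ω ((k : ℝ≥0) + 2) x) :=
          (meas_posn c S x (le_refl _)).mono (hist_le hA.setup _ _) le_rfl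
        exact (Measurable.of_discrete (f := (ind 0 : Site d → ℝ))).comp h5
      · unfold ind
        by_cases h : ω ∈ B
        · rw [Set.indicator_of_mem h]
          split_ifs <;> simp
        · rw [Set.indicator_of_notMem h]
          simp
    rw [hW, measureReal_union hdisj hFM, add_mul]
    have hsplit : ∀ ω, (Wv c S alive A k x m j ∪ F).indicator (fun _ => (1 : ℝ)) ω =
        (Wv c S alive A k x m j).indicator (fun _ => (1 : ℝ)) ω +
          F.indicator (fun _ => (1 : ℝ)) ω := by
      intro ω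
      rw [Set.indicator_union_of_disjoint hdisj]
    simp only [hsplit, add_mul]
    rw [integral_add (hint _ hWM) (hint _ hFM)]
    exact add_le_add ihj key

/-- the bound for one label -/
private theorem visit_one (hd : 0 < d) (hA : Sys μ p c S alive) (A : Finset (Site d)) (k : ℕ)
    (x : Site d) :
    μ (Ev c alive A k x ∩ {ω | ∃ t : ℝ≥0, (k : ℝ≥0) ≤ t ∧ t ≤ k + 1 ∧ posn S ω t x = 0}) ≤
      ENNReal.ofReal ((∫ ω, (Ev c alive A k x).indicator (fun _ => (1 : ℝ)) ω *
        heat d 2 (0 - posn S ω k x) ∂μ) / heat d 2 0) := by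
  have hpos := heat_two_pos hd
  -- every grid
  have hgrid : ∀ m : ℕ, μ (Wv c S alive A k x m (2 ^ m + 1)) ≤
      ENNReal.ofReal ((∫ ω, (Ev c alive A k x).indicator (fun _ => (1 : ℝ)) ω *
        heat d 2 (0 - posn S ω k x) ∂μ) / heat d 2 0) := by
    intro m
    have h1 := visit_grid hd hA A k x m (2 ^ m + 1) le_rfl
    have hEm : MeasurableSet[hist c S Set.univ (k : ℝ≥0)] (Ev c alive A k x) :=
      meas_Ev hA A k x le_rfl
    have hEM : MeasurableSet (Ev c alive A k x) := hist_le hA.setup _ _ _ hEm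
    have hXm : Measurable[hist c S Set.univ (k : ℝ≥0)]
        ((Ev c alive A k x).indicator (fun _ => (1 : ℝ))) :=
      (@measurable_const ℝ Ω _ (hist c S Set.univ (k : ℝ≥0)) (1 : ℝ)).indicator hEm
    have hXb : ∀ ω, |(Ev c alive A k x).indicator (fun _ => (1 : ℝ)) ω| ≤ 1 := by
      intro ω
      by_cases h : ω ∈ Ev c alive A k x
      · simp [h]
      · simp [h]
    have h2 := markov1 hd hA.setup (le_self_add : (k : ℝ≥0) ≤ (k : ℝ≥0) + 2) hXm hXb
      (meas_posn c S x (le_refl (k : ℝ≥0))) x (φ := ind 0) (K := 1) (by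
        intro z
        unfold ind
        split_ifs <;> simp)
    have h3 : ∀ ω, posn S ω k x + (S x ((k : ℝ≥0) + 2) ω - S x k ω) =
        posn S ω ((k : ℝ≥0) + 2) x := by
      intro ω
      simp only [posn]
      abel
    simp only [h3] at h2
    have h4 : ((((k : ℝ≥0) + 2 : ℝ≥0) : ℝ) - ((k : ℝ≥0) : ℝ)) = 2 := by
      push_cast
      ring
    rw [h4] at h2
    have h5 : ∀ ω, Pt 2 (ind 0) (posn S ω k x) = heat d 2 (0 - posn S ω k x) := fun ω =>
      Pt_single (d := d) 2 0 _
    simp only [h5] at h2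
    have hint : ∀ B : Set Ω, MeasurableSet B →
        Integrable (fun ω => B.indicator (fun _ => (1 : ℝ)) ω *
          ind 0 (posn S ω ((k : ℝ≥0) + 2) x)) μ := by
      intro B hB
      refine Integrable.of_bound (C := 1) ?_ (Eventually.of_forall fun ω => ?_)
      · refine ((measurable_const.indicator hB).mul ?_).aestronglyMeasurable
        have h5 : Measurable (fun ω => posn S ω ((k : ℝ≥0) + 2) x) :=
          (meas_posn c S x (le_refl _)).mono (hist_le hA.setup _ _) le_rfl
        exact (Measurable.of_discrete (f := (ind 0 : Site d → ℝ))).comp h5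
      · unfold ind
        by_cases h : ω ∈ B
        · rw [Set.indicator_of_mem h]
          split_ifs <;> simp
        · rw [Set.indicator_of_notMem h]
          simp
    have h6 : ∫ ω, (Wv c S alive A k x m (2 ^ m + 1)).indicator (fun _ => (1 : ℝ)) ω *
        ind 0 (posn S ω ((k : ℝ≥0) + 2) x) ∂μ ≤
        ∫ ω, (Ev c alive A k x).indicator (fun _ => (1 : ℝ)) ω *
        ind 0 (posn S ω ((k : ℝ≥0) + 2) x) ∂μ := by
      refine integral_mono (hint _ (meas_full hA A k x m _)) (hint _ hEM) fun ω => ?_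
      refine mul_le_mul_of_nonneg_right ?_ ?_
      · exact Set.indicator_le_indicator_of_subset Set.inter_subset_left (fun _ => zero_le_one) ω
      · unfold ind
        split_ifs <;> simp
    have h7 : μ.real (Wv c S alive A k x m (2 ^ m + 1)) ≤
        (∫ ω, (Ev c alive A k x).indicator (fun _ => (1 : ℝ)) ω *
        heat d 2 (0 - posn S ω k x) ∂μ) / heat d 2 0 := by
      rw [le_div_iff₀ hpos, ← h2]
      exact h1.trans h6
    rw [← ENNReal.ofReal_toReal (measure_ne_top μ (Wv c S alive A k x m (2 ^ m + 1)))]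
    exact ENNReal.ofReal_le_ofReal h7
  -- monotone in `m`
  have hmono : Monotone (fun m : ℕ => Wv c S alive A k x m (2 ^ m + 1)) := by
    refine monotone_nat_of_le_succ fun m => ?_
    rintro ω ⟨h1, i, hi, h2⟩
    refine ⟨h1, 2 * i, ?_, ?_⟩
    · rw [pow_succ]
      omega
    · have : ((2 * i : ℕ) : ℝ≥0) / 2 ^ (m + 1) = (i : ℝ≥0) / 2 ^ m := by
        push_cast
        rw [pow_succ]
        field_simp
      rw [this]
      exact h2
  have hsub : Ev c alive A k x ∩ {ω | ∃ t : ℝ≥0, (k : ℝ≥0) ≤ t ∧ t ≤ k + 1 ∧ posn S ω t x = 0} ⊆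
      ⋃ m : ℕ, Wv c S alive A k x m (2 ^ m + 1) := by
    rintro ω ⟨h1, t, ht1, ht2, ht3⟩
    rw [Set.mem_iUnion]
    rcases eq_or_lt_of_le ht2 with h | h
    · refine ⟨0, h1, 1, by norm_num, ?_⟩
      rw [pow_zero, Nat.cast_one, div_one, ← h]
      exact ht3
    · obtain ⟨u, hu, husub⟩ := mem_nhdsGT_iff_exists_Ioo_subset.mp ((step_posn hA.setup ω x).1 t)
      have hu' : t < u := hu
      -- a grid time in `(t, min u (k+1))`
      set v : ℝ≥0 := min u ((k : ℝ≥0) + 1) with hv
      have htv : t < v := lt_min hu' h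
      obtain ⟨m, hm⟩ := exists_pow_lt_of_lt_one (show (0 : ℝ) < (v : ℝ) - t by
        rw [sub_pos]; exact_mod_cast htv) (show (1 / 2 : ℝ) < 1 by norm_num)
      -- `i = ⌊(t - k) 2^m⌋ + 1`
      set r : ℝ := ((t : ℝ) - k) * 2 ^ m with hr
      have hr0 : 0 ≤ r := mul_nonneg (by
        rw [sub_nonneg]; exact_mod_cast ht1) (by positivity)
      have hp : (0 : ℝ) < 2 ^ m := by positivity
      have hlo : r < (⌊r⌋₊ + 1 : ℕ) := by
        push_cast
        exact Nat.lt_floor_add_one r
      have hhi : ((⌊r⌋₊ + 1 : ℕ) : ℝ) ≤ r + 1 := by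
        push_cast
        linarith [Nat.floor_le hr0]
      have ht_lt : t < (k : ℝ≥0) + ((⌊r⌋₊ + 1 : ℕ) : ℝ≥0) / 2 ^ m := by
        rw [← NNReal.coe_lt_coe]
        have : ((t : ℝ) - k) < ((⌊r⌋₊ + 1 : ℕ) : ℝ) / 2 ^ m := by
          rw [lt_div_iff₀ hp]
          exact hlo
        push_cast
        push_cast at this
        linarith
      have hlt_v : (k : ℝ≥0) + ((⌊r⌋₊ + 1 : ℕ) : ℝ≥0) / 2 ^ m < v := by
        rw [← NNReal.coe_lt_coe]
        have h8 : ((⌊r⌋₊ + 1 : ℕ) : ℝ) / 2 ^ m ≤ ((t : ℝ) - k) + 1 / 2 ^ m := by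
          rw [div_le_iff₀ hp, add_mul, ← hr, one_div, inv_mul_cancel₀ hp.ne']
          exact hhi
        have h9 : (1 : ℝ) / 2 ^ m < (v : ℝ) - t := by
          rw [← one_div_pow]
          exact hm
        push_cast
        push_cast at h8
        linarith
      refine ⟨m, h1, ⌊r⌋₊ + 1, ?_, ?_⟩
      · have h8 : (k : ℝ≥0) + ((⌊r⌋₊ + 1 : ℕ) : ℝ≥0) / 2 ^ m < (k : ℝ≥0) + 1 :=
          hlt_v.trans_le (min_le_right _ _)
        have h9 : ((⌊r⌋₊ + 1 : ℕ) : ℝ≥0) / 2 ^ m < 1 := lt_of_add_lt_add_left h8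
        rw [div_lt_iff₀ (by positivity), one_mul] at h9
        have h10 : ⌊r⌋₊ + 1 < 2 ^ m := by exact_mod_cast h9
        omega
      · have := husub ⟨ht_lt, hlt_v.trans_le (min_le_left _ _)⟩
        simp only [Set.mem_ofPred_eq] at this
        rw [this]
        exact ht3
  refine (measure_mono hsub).trans ?_
  rw [hmono.measure_iUnion]
  exact iSup_le hgrid

/-- Package U6a. For a finite system: the probability that some blue particle is at the origin at some
time in `[k, k+1]`. Such a particle `x` is alive at time `k` (`alive_anti`), and its free path visits `0`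
during `[k, k+1]`. Given the history up to `k`, the probability `h(y)` that a walk at `y` visits `0` within
unit time satisfies `h(y) ≤ heat 2 (0 - y) / heat 2 0`: on the grid of mesh `2^{-m}` decompose at the first
grid time at which the walk is at `0` (`markov1`, `heat_zero_anti`: the probability to be at `0` at time
`k+2` is then at least `heat 2 0`), let `m → ∞` (right-continuity: a visit at a real time in `[k, k+1)`
implies a visit at a grid time for all large `m`; `k + 1` is a grid time). Sum over the particles: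
`∑_x P(x ∈ alive A k, c x = false, visit) ≤ E cw A k false h`. -/
theorem visit_prob (hd : 0 < d) (hA : Sys μ p c S alive) (A : Finset (Site d)) (k : ℕ) :
    μ {ω | ∃ t : ℝ≥0, (k : ℝ≥0) ≤ t ∧ t ≤ k + 1 ∧ ∃ x ∈ alive A t ω, c x ω = false ∧
      posn S ω t x = 0} ≤
      ENNReal.ofReal ((∫ ω, cw c S alive A k false (fun y => heat d 2 (0 - y)) ω ∂μ) / heat d 2 0) := by
  classical
  have hpos := heat_two_pos hd
  have hsubA : ∀ t ω, alive A t ω ⊆ A := by
    intro t ω
    have := alive_anti (hA.sys A ω) (s := 0) (t := t) zero_le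
    rwa [(hA.sys A ω).zero] at this
  have hsub : {ω | ∃ t : ℝ≥0, (k : ℝ≥0) ≤ t ∧ t ≤ k + 1 ∧ ∃ x ∈ alive A t ω, c x ω = false ∧
      posn S ω t x = 0} ⊆ ⋃ x ∈ A, Ev c alive A k x ∩
        {ω | ∃ t : ℝ≥0, (k : ℝ≥0) ≤ t ∧ t ≤ k + 1 ∧ posn S ω t x = 0} := by
    rintro ω ⟨t, ht1, ht2, x, hx, hc, h0⟩
    simp only [Set.mem_iUnion]
    exact ⟨x, hsubA t ω hx, ⟨alive_anti (hA.sys A ω) ht1 hx, hc⟩, t, ht1, ht2, h0⟩
  refine (measure_mono hsub).trans ((measure_biUnion_finset_le A _).trans ?_)
  refine (Finset.sum_le_sum fun x _ => visit_one hd hA A k x).trans ?_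
  have hnn : ∀ x, 0 ≤ (∫ ω, (Ev c alive A k x).indicator (fun _ => (1 : ℝ)) ω *
        heat d 2 (0 - posn S ω k x) ∂μ) / heat d 2 0 := by
    intro x
    refine div_nonneg (integral_nonneg fun ω => mul_nonneg ?_ (heat_nonneg (by norm_num) _)) hpos.le
    exact Set.indicator_nonneg (fun _ _ => zero_le_one) _
  rw [← ENNReal.ofReal_sum_of_nonneg fun x _ => hnn x, ← Finset.sum_div]
  refine ENNReal.ofReal_le_ofReal ?_
  refine div_le_div_of_nonneg_right ?_ hpos.le
  rw [← integral_finsetSum]
  · refine le_of_eq (integral_congr_ae (Eventually.of_forall fun ω => ?_))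
    simp only [cw, wt]
    rw [Finset.sum_filter]
    rw [← Finset.sum_subset (hsubA k ω)]
    · refine Finset.sum_congr rfl fun x hx => ?_
      by_cases hcx : c x ω = false
      · rw [if_pos hcx, Set.indicator_of_mem (show ω ∈ Ev c alive A k x from ⟨hx, hcx⟩), one_mul]
      · rw [if_neg hcx, Set.indicator_of_notMem (show ω ∉ Ev c alive A k x from fun h => hcx h.2),
          zero_mul]
    · intro x _ hx
      rw [Set.indicator_of_notMem (show ω ∉ Ev c alive A k x from fun h => hx h.1), zero_mul]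
  · intro x _
    refine Integrable.of_bound (C := 1) ?_ (Eventually.of_forall fun ω => ?_)
    · have hEM : MeasurableSet (Ev c alive A k x) :=
        hist_le hA.setup _ _ _ (meas_Ev hA A k x (le_refl (k : ℝ≥0)))
      refine ((measurable_const.indicator hEM).mul ?_).aestronglyMeasurable
      have h5 : Measurable (fun ω => posn S ω k x) :=
        (meas_posn c S x (le_refl _)).mono (hist_le hA.setup _ _) le_rfl
      exact (Measurable.of_discrete (f := fun y : Site d => heat d 2 (0 - y))).comp h5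
    · have h1 := heat_le_one hd (by norm_num : (0 : ℝ) ≤ 2) (0 - posn S ω k x)
      have h2 := heat_nonneg (by norm_num : (0 : ℝ) ≤ 2) (0 - posn S ω k x)
      by_cases h : ω ∈ Ev c alive A k x
      · rw [Set.indicator_of_mem h, one_mul, Real.norm_eq_abs, abs_of_nonneg h2]
        exact h1
      · rw [Set.indicator_of_notMem h, zero_mul]
        simp

end Pool.Agent.T2H99.AW
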