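import Pool.Agent.T2H99.AW.U5
import Pool.Agent.T2H99.AW.U6

set_option autoImplicit false

/-!
# AW, package U7: blue visits finitely often (uses U5, U6, CD2)
-/

namespace Pool.Agent.T2H99.AW

open Finset Filter Topology MeasureTheory ProbabilityTheory
open scoped NNReal ENNReal BigOperators

variable {d : ℕ} {Ω : Type} [mΩ : MeasurableSpace Ω] {μ : Measure Ω} [IsProbabilityMeasure μ]
  {p : ℝ} {c : Site d → Ω → Bool} {S : Site d → ℝ≥0 → Ω → Site d}
  {alive : Finset (Site d) → ℝ≥0 → Ω → Finset (Site d)}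

/-- Package U6b. The event `W_k` that for some `t ∈ [k, k+1]`, for all large `n`, the system on `An n` has
a blue particle at `0` at time `t` is contained in `liminf_n {visit in An n during [k,k+1]}`, so its
probability is at most `liminf ≤ dens false k / heat 2 0` (`visit_prob`, `dens_tendsto_fun` along `An`):
summable (`dens_summable`). Borel-Cantelli (for outer measure: `measure_limsup_atTop_eq_zero`-type lemmas
do not need measurability; or use measurable supersets). -/
theorem part_ii (hd : 0 < d) (hp : 1 / 2 < p) (hp1 : p < 1) (hA : Sys μ p c S alive)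
    {An : ℕ → Finset (Site d)} (hm : Monotone An) (hex : ∀ x, ∃ n, x ∈ An n) :
    ∀ᵐ ω ∂μ, ∃ T : ℝ≥0, ∀ t : ℝ≥0, T ≤ t → ¬ ∀ᶠ n in atTop, ∃ x ∈ alive (An n) t ω,
      c x ω = false ∧ posn S ω t x = 0 := by
  classical
  set W : ℕ → Set Ω := fun k => {ω | ∃ t : ℝ≥0, (k : ℝ≥0) ≤ t ∧ t ≤ k + 1 ∧
    ∀ᶠ n in atTop, ∃ x ∈ alive (An n) t ω, c x ω = false ∧ posn S ω t x = 0} with hW
  set V : ℕ → ℕ → Set Ω := fun n k => {ω | ∃ t : ℝ≥0, (k : ℝ≥0) ≤ t ∧ t ≤ k + 1 ∧
    ∃ x ∈ alive (An n) t ω, c x ω = false ∧ posn S ω t x = 0} with hV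
  have hAn : Tendsto An atTop atTop := tendsto_atTop_finset_of_monotone hm hex
  have hsum : HasSum (fun y : Site d => heat d 2 (0 - y)) 1 :=
    (Equiv.subLeft (0 : Site d)).hasSum_iff.2 (heat_hasSum hd (by norm_num))
  -- the bound for one unit of time
  have hWk : ∀ k, μ (W k) ≤ ENNReal.ofReal (dens μ c S alive false k / heat d 2 0) := by
    intro k
    have hlim : Tendsto (fun n => ENNReal.ofReal
        ((∫ ω, cw c S alive (An n) k false (fun y => heat d 2 (0 - y)) ω ∂μ) / heat d 2 0)) atTop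
        (𝓝 (ENNReal.ofReal (dens μ c S alive false k / heat d 2 0))) := by
      have h1 := (dens_tendsto_fun hd hA false k hsum.summable
        (fun z => heat_nonneg (by norm_num) _)).comp hAn
      rw [hsum.tsum_eq, mul_one] at h1
      exact (ENNReal.continuous_ofReal.tendsto _).comp (h1.div_const _)
    set G : ℕ → Set Ω := fun N => ⋂ n ∈ Set.Ici N, V n k with hG
    have hGm : Monotone G := by
      intro N N' hN ω hω
      simp only [hG, Set.mem_iInter, Set.mem_Ici] at hω ⊢
      exact fun n hn => hω n (hN.trans hn)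
    have hsub : W k ⊆ ⋃ N, G N := by
      rintro ω ⟨t, h1, h2, h3⟩
      obtain ⟨N, hN⟩ := eventually_atTop.1 h3
      refine Set.mem_iUnion.2 ⟨N, ?_⟩
      simp only [hG, Set.mem_iInter, Set.mem_Ici]
      exact fun n hn => ⟨t, h1, h2, hN n hn⟩
    have hGle : ∀ N, μ (G N) ≤ ENNReal.ofReal (dens μ c S alive false k / heat d 2 0) := by
      intro N
      refine ge_of_tendsto hlim ?_
      filter_upwards [eventually_ge_atTop N] with n hn
      refine (measure_mono ?_).trans (visit_prob hd hA (An n) k)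
      exact Set.biInter_subset_of_mem (Set.mem_Ici.2 hn)
    refine (measure_mono hsub).trans ?_
    exact le_of_tendsto' (tendsto_measure_iUnion_atTop hGm) hGle
  have hfin : ∑' k, μ (W k) ≠ ∞ := by
    have h1 : Summable (fun k => dens μ c S alive false k / heat d 2 0) :=
      (dens_summable hd hp hp1 hA).div_const _
    refine ne_top_of_le_ne_top ?_ (ENNReal.tsum_le_tsum hWk)
    exact h1.tsum_ofReal_ne_top
  filter_upwards [ae_eventually_notMem hfin] with ω hω
  obtain ⟨K, hK⟩ := eventually_atTop.1 hω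
  refine ⟨K, fun t ht hcon => ?_⟩
  have hk : K ≤ ⌊t⌋₊ := Nat.le_floor ht
  refine hK ⌊t⌋₊ hk ⟨t, Nat.floor_le (zero_le), ?_, hcon⟩
  exact (Nat.lt_floor_add_one t).le

end Pool.Agent.T2H99.AW
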