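import Pool.Agent.T2H99.AW.GD

set_option autoImplicit false

/-!
# AW, package GL: Khintchine and the lower bound of the density at `p = 1/2` (uses LN, GD, HK2)

`khin`: `X = ∑ a_y sg(c y)`: `E X^2 = ∑ a_y^2`, `E X^4 ≤ 3 (∑ a_y^2)^2`, and
`16 σ³ |x| ≥ 12 σ² x² - x⁴` for `σ = (∑ a_y^2)^{1/2}`.
`gdens_lower`: let `φ z = heat t z`, `t = n/2^m`, `s(ω)` the sign of `∑_{y ∈ A} sg(c y) P_t φ(y)`
(measurable w.r.t. `hist 0`). By `lin` from step `0`,
`E|∑_{y ∈ A} sg(c y) P_tφ(y)| = E[s gt_n φ] ≤ E|gt_n φ| ≤ E gw_n true φ + E gw_n false φ`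
`→ gdens true n + gdens false n = 2 gdens true n` as `A → ∞`, and `P_tφ(y) = heat (2t) y`,
`∑ heat (2t) y ^2 = heat (4t) 0`.
-/

namespace Pool.Agent.T2H99.AW

open Finset Filter Topology MeasureTheory ProbabilityTheory
open scoped NNReal ENNReal BigOperators

variable {d : ℕ} {Ω : Type} [mΩ : MeasurableSpace Ω] {μ : Measure Ω} [IsProbabilityMeasure μ]
  {p : ℝ} {c : Site d → Ω → Bool} {S : Site d → ℝ≥0 → Ω → Site d}

namespace PkgGL

theorem abs_sg (b : Bool) : |sg b| = 1 := by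
  cases b <;> simp [sg]

theorem sg_sq (b : Bool) : sg b ^ 2 = 1 := by
  cases b <;> simp [sg]

omit [IsProbabilityMeasure μ] in
theorem meas_sgc (hS : Setup μ p c S) (x : Site d) : Measurable (fun ω => sg (c x ω)) :=
  (Measurable.of_discrete (f := sg)).comp (hS.cmeas x)

theorem mean_sg (hS : Setup μ (1 / 2) c S) (x : Site d) : ∫ ω, sg (c x ω) ∂μ = 0 := by
  have hm : MeasurableSet {ω | c x ω = true} := hS.cmeas x (MeasurableSet.singleton true)
  have e1 : ∀ ω, sg (c x ω) = 2 * ({ω | c x ω = true}.indicator (fun _ => (1 : ℝ)) ω) - 1 := by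
    intro ω
    by_cases h : c x ω = true
    · rw [Set.indicator_of_mem (by exact h), h]
      norm_num [sg]
    · rw [Set.indicator_of_notMem (by exact h)]
      simp only [Bool.not_eq_true] at h
      rw [h]
      norm_num [sg]
  simp_rw [e1]
  rw [integral_sub, integral_const_mul, integral_indicator_const _ hm]
  · simp only [smul_eq_mul, mul_one, integral_const, probReal_univ]
    rw [measureReal_def, hS.cprob x, ENNReal.toReal_ofReal (by norm_num)]
    norm_num
  · exact ((integrable_const (1 : ℝ)).indicator hm).const_mul 2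
  · exact integrable_const _

omit [IsProbabilityMeasure μ] in
theorem iindep (hS : Setup μ p c S) (a : Site d → ℝ) :
    iIndepFun (fun y ω => a y * sg (c y ω)) μ := by
  have h1 : iIndepFun (fun y => c y) μ := by
    rw [iIndepFun_iff_iIndep]
    exact hS.indep.precomp (g := (Sum.inl : Site d → Site d ⊕ Site d)) Sum.inl_injective
  exact h1.comp (fun y b => a y * sg b) fun y => Measurable.of_discrete

/-- second and fourth moment of a Rademacher sum -/
theorem moments (hS : Setup μ (1 / 2) c S) (A : Finset (Site d)) (a : Site d → ℝ) :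
    ∫ ω, (∑ y ∈ A, a y * sg (c y ω)) ^ 2 ∂μ = ∑ y ∈ A, a y ^ 2 ∧
      ∫ ω, (∑ y ∈ A, a y * sg (c y ω)) ^ 4 ∂μ ≤ 3 * (∑ y ∈ A, a y ^ 2) ^ 2 := by
  classical
  induction A using Finset.induction_on with
  | empty => simp
  | insert x A hx ih =>
    obtain ⟨ih1, ih2⟩ := ih
    set X : Ω → ℝ := fun ω => ∑ y ∈ A, a y * sg (c y ω) with hX
    have hXm : Measurable X := by
      refine Finset.measurable_sum _ fun y _ => ?_
      exact (meas_sgc hS y).const_mul _
    have hXb : ∀ ω, |X ω| ≤ ∑ y ∈ A, |a y| := by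
      intro ω
      refine (Finset.abs_sum_le_sum_abs _ _).trans (le_of_eq ?_)
      refine Finset.sum_congr rfl fun y _ => ?_
      rw [abs_mul, abs_sg, mul_one]
    have hXi : ∀ k : ℕ, Integrable (fun ω => X ω ^ k) μ := by
      intro k
      refine Integrable.of_bound (hXm.pow_const k).aestronglyMeasurable ((∑ y ∈ A, |a y|) ^ k)
        (ae_of_all _ fun ω => ?_)
      rw [Real.norm_eq_abs, abs_pow]
      exact pow_le_pow_left₀ (abs_nonneg _) (hXb ω) k
    have hind : IndepFun X (fun ω => a x * sg (c x ω)) μ := by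
      have := (iindep hS a).indepFun_finsetSum_of_notMem
        (fun y => (meas_sgc hS y).const_mul _) hx
      have e : (∑ j ∈ A, fun ω => a j * sg (c j ω)) = X := by
        funext ω
        simp [hX, Finset.sum_apply]
      rwa [e] at this
    have hodd : ∀ k : ℕ, ∫ ω, X ω ^ k * (a x * sg (c x ω)) ∂μ = 0 := by
      intro k
      have h1 : IndepFun (fun ω => X ω ^ k) (fun ω => a x * sg (c x ω)) μ :=
        hind.comp (measurable_id.pow_const k) measurable_id
      rw [h1.integral_fun_mul_eq_mul_integral (hXm.pow_const k).aestronglyMeasurable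
        ((meas_sgc hS x).const_mul _).aestronglyMeasurable, integral_const_mul, mean_sg hS]
      simp
    have hoddi : ∀ k : ℕ, Integrable (fun ω => X ω ^ k * (a x * sg (c x ω))) μ := by
      intro k
      refine Integrable.of_bound ((hXm.pow_const k).mul
        ((meas_sgc hS x).const_mul _)).aestronglyMeasurable ((∑ y ∈ A, |a y|) ^ k * |a x|)
        (ae_of_all _ fun ω => ?_)
      rw [Real.norm_eq_abs, abs_mul, abs_pow, abs_mul, abs_sg, mul_one]
      gcongr
      exact hXb ω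
    have esum : ∀ ω, ∑ y ∈ insert x A, a y * sg (c y ω) = a x * sg (c x ω) + X ω := by
      intro ω
      rw [Finset.sum_insert hx]
    simp_rw [esum]
    rw [Finset.sum_insert hx]
    constructor
    · have e : ∀ ω, (a x * sg (c x ω) + X ω) ^ 2 =
          a x ^ 2 + 2 * (X ω ^ 1 * (a x * sg (c x ω))) + X ω ^ 2 := by
        intro ω
        have := sg_sq (c x ω)
        linear_combination (a x) ^ 2 * this
      simp_rw [e]
      have i0 : Integrable (fun ω => a x ^ 2 + 2 * (X ω ^ 1 * (a x * sg (c x ω)))) μ :=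
        (integrable_const _).add ((hoddi 1).const_mul 2)
      rw [integral_add i0 (hXi 2),
        integral_add (integrable_const _) ((hoddi 1).const_mul 2), integral_const_mul, hodd 1, ih1]
      simp
    · have e : ∀ ω, (a x * sg (c x ω) + X ω) ^ 4 =
          a x ^ 4 + (6 * a x ^ 2) * X ω ^ 2 + X ω ^ 4 +
            ((4 * a x ^ 2) * (X ω ^ 1 * (a x * sg (c x ω))) +
              4 * (X ω ^ 3 * (a x * sg (c x ω)))) := by
        intro ω
        have h2 := sg_sq (c x ω)
        have h4 : sg (c x ω) ^ 4 = 1 := by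
          calc sg (c x ω) ^ 4 = (sg (c x ω) ^ 2) ^ 2 := by ring
            _ = 1 := by rw [h2]; norm_num
        linear_combination (a x) ^ 4 * h4 + (6 * a x ^ 2 * X ω ^ 2 +
          4 * a x ^ 3 * sg (c x ω) * X ω) * h2
      simp_rw [e]
      have i1 : Integrable (fun ω => a x ^ 4 + (6 * a x ^ 2) * X ω ^ 2) μ :=
        (integrable_const _).add ((hXi 2).const_mul _)
      have i2 : Integrable (fun ω => a x ^ 4 + (6 * a x ^ 2) * X ω ^ 2 + X ω ^ 4) μ :=
        i1.add (hXi 4)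
      have i3 : Integrable (fun ω => (4 * a x ^ 2) * (X ω ^ 1 * (a x * sg (c x ω))) +
              4 * (X ω ^ 3 * (a x * sg (c x ω)))) μ :=
        ((hoddi 1).const_mul _).add ((hoddi 3).const_mul _)
      rw [integral_add i2 i3, integral_add ((hoddi 1).const_mul _) ((hoddi 3).const_mul _),
        integral_add i1 (hXi 4), integral_add (integrable_const _) ((hXi 2).const_mul _),
        integral_const_mul, integral_const_mul, integral_const_mul, hodd 1, hodd 3, ih1]
      simp only [integral_const, probReal_univ, smul_eq_mul, one_mul, mul_zero, add_zero]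
      nlinarith [sq_nonneg (a x ^ 2)]

theorem abs_lower (σ x : ℝ) (hσ : 0 ≤ σ) : 12 * σ ^ 2 * x ^ 2 - x ^ 4 ≤ 16 * σ ^ 3 * |x| := by
  have h1 : x ^ 2 = |x| ^ 2 := (sq_abs x).symm
  have h2 : x ^ 4 = |x| ^ 4 := by
    rw [show x ^ 4 = (x ^ 2) ^ 2 by ring, h1]
    ring
  rw [h1, h2]
  have hu : 0 ≤ |x| := abs_nonneg x
  have h3 : 0 ≤ |x| * ((|x| - 2 * σ) ^ 2 * (|x| + 4 * σ)) := by positivity
  nlinarith

end PkgGL

open PkgGL

theorem khin (hS : Setup μ (1 / 2) c S) (A : Finset (Site d)) (a : Site d → ℝ) :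
    (1 / 2) * Real.sqrt (∑ y ∈ A, a y ^ 2) ≤ ∫ ω, |∑ y ∈ A, a y * sg (c y ω)| ∂μ := by
  set σ := Real.sqrt (∑ y ∈ A, a y ^ 2) with hσ
  have hs0 : 0 ≤ ∑ y ∈ A, a y ^ 2 := Finset.sum_nonneg fun y _ => sq_nonneg _
  have hσ0 : 0 ≤ σ := Real.sqrt_nonneg _
  have hσ2 : σ ^ 2 = ∑ y ∈ A, a y ^ 2 := Real.sq_sqrt hs0
  obtain ⟨m2, m4⟩ := moments hS A a
  set X : Ω → ℝ := fun ω => ∑ y ∈ A, a y * sg (c y ω) with hX
  have hXm : Measurable X := by
    refine Finset.measurable_sum _ fun y _ => ?_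
    exact (meas_sgc hS y).const_mul _
  have hXb : ∀ ω, |X ω| ≤ ∑ y ∈ A, |a y| := by
    intro ω
    refine (Finset.abs_sum_le_sum_abs _ _).trans (le_of_eq ?_)
    refine Finset.sum_congr rfl fun y _ => ?_
    rw [abs_mul, abs_sg, mul_one]
  have hXi : ∀ k : ℕ, Integrable (fun ω => X ω ^ k) μ := by
    intro k
    refine Integrable.of_bound (hXm.pow_const k).aestronglyMeasurable ((∑ y ∈ A, |a y|) ^ k)
      (ae_of_all _ fun ω => ?_)
    rw [Real.norm_eq_abs, abs_pow]
    exact pow_le_pow_left₀ (abs_nonneg _) (hXb ω) k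
  have hXa : Integrable (fun ω => |X ω|) μ := by
    have := (hXi 1).abs
    simpa using this
  rcases hσ0.eq_or_lt with h0 | hpos
  · rw [← h0, mul_zero]
    exact integral_nonneg fun ω => abs_nonneg _
  have h1 : ∫ ω, (12 * σ ^ 2 * X ω ^ 2 - X ω ^ 4) ∂μ ≤ ∫ ω, 16 * σ ^ 3 * |X ω| ∂μ :=
    integral_mono (((hXi 2).const_mul _).sub (hXi 4)) (hXa.const_mul _)
      fun ω => abs_lower σ (X ω) hσ0
  rw [integral_sub ((hXi 2).const_mul _) (hXi 4), integral_const_mul, integral_const_mul] at h1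
  rw [← hσ2] at m2 m4
  rw [m2] at h1
  have h2 : 9 * σ ^ 4 ≤ 16 * σ ^ 3 * ∫ ω, |X ω| ∂μ := by nlinarith
  have h3 : 16 * σ ^ 3 * ((1 / 2) * σ) ≤ 16 * σ ^ 3 * ∫ ω, |X ω| ∂μ := by
    refine le_trans ?_ h2
    nlinarith [pow_pos hpos 4]
  exact le_of_mul_le_mul_left h3 (by positivity)

namespace PkgGL

omit [IsProbabilityMeasure μ] in
theorem gt_zero (hS : Setup μ p c S) (m : ℕ) (A : Finset (Site d)) (φ : Site d → ℝ)
    (ω : Ω) : gt c S m A 0 φ ω = ∑ x ∈ A, sg (c x ω) * φ x := by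
  change ∑ x ∈ A, sg (c x ω) * φ (x + S x (((0 : ℕ) : ℝ≥0) / 2 ^ m) ω) = _
  refine Finset.sum_congr rfl fun x _ => ?_
  rw [Nat.cast_zero, zero_div, (hS.walk x).zero ω, add_zero]

omit mΩ in
theorem gt_abs_le (m : ℕ) (A : Finset (Site d)) (n : ℕ) {φ : Site d → ℝ} (hφ : ∀ z, 0 ≤ φ z)
    (ω : Ω) : |gt c S m A n φ ω| ≤ gw c S m A n true φ ω + gw c S m A n false φ ω := by
  classical
  unfold gt tot gw wt
  refine (Finset.abs_sum_le_sum_abs _ _).trans (le_of_eq ?_)
  have h1 : ∀ x ∈ ga c S m A n ω, |sg (c x ω) * φ (gpos S m ω n x)| = φ (gpos S m ω n x) := by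
    intro x _
    rw [abs_mul, abs_sg, one_mul, abs_of_nonneg (hφ _)]
  rw [Finset.sum_congr rfl h1,
    ← Finset.sum_filter_add_sum_filter_not (ga c S m A n ω) (fun x => c x ω = true)]
  simp

/-- the finite volume inequality -/
theorem finite_lower (hd : 0 < d) (hS : Setup μ (1 / 2) c S) (m : ℕ) (n : ℕ)
    (A : Finset (Site d)) {φ : Site d → ℝ} (hφ0 : ∀ z, 0 ≤ φ z) {K : ℝ} (hφ : ∀ z, |φ z| ≤ K) :
    (1 / 2) * Real.sqrt (∑ y ∈ A, Pt ((n : ℝ) / 2 ^ m) φ y ^ 2) ≤
      ∫ ω, gw c S m A n true φ ω ∂μ + ∫ ω, gw c S m A n false φ ω ∂μ := by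
  classical
  refine (khin hS A (Pt ((n : ℝ) / 2 ^ m) φ)).trans ?_
  -- the sign
  set Z : Ω → ℝ := fun ω => ∑ y ∈ A, Pt ((n : ℝ) / 2 ^ m) φ y * sg (c y ω) with hZ
  have hcm : ∀ y, Measurable[hist c S Set.univ (((0 : ℕ) : ℝ≥0) / 2 ^ m)] (c y) := by
    intro y
    refine (comap_measurable _).mono ?_ le_rfl
    refine le_trans ?_ (le_iSup (fun x : (Set.univ : Set (Site d)) =>
      (MeasurableSpace.comap (c x) inferInstance) ⊔
      ⨆ u : Set.Iic (((0 : ℕ) : ℝ≥0) / 2 ^ m), MeasurableSpace.comap (S x u) inferInstance)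
      ⟨y, Set.mem_univ y⟩)
    exact le_sup_left
  have hZm : Measurable[hist c S Set.univ (((0 : ℕ) : ℝ≥0) / 2 ^ m)] Z := by
    refine Finset.measurable_sum _ fun y _ => ?_
    exact ((Measurable.of_discrete (f := sg)).comp (hcm y)).const_mul _
  let X : Ω → ℝ := fun ω => if 0 ≤ Z ω then 1 else -1
  have hXm : Measurable[hist c S Set.univ (((0 : ℕ) : ℝ≥0) / 2 ^ m)] X := by
    refine Measurable.ite ?_ measurable_const measurable_const
    exact measurableSet_le measurable_const hZm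
  have hXb : ∀ ω, |X ω| ≤ 1 := by
    intro ω
    simp only [X]
    split_ifs <;> simp
  have hl := lin hd hS m A (Nat.zero_le n) hXm hXb hφ
  simp only [Nat.cast_zero, sub_zero] at hl
  have e1 : ∀ ω, X ω * gt c S m A 0 (Pt ((n : ℝ) / 2 ^ m) φ) ω = |Z ω| := by
    intro ω
    rw [gt_zero hS]
    have : ∑ x ∈ A, sg (c x ω) * Pt ((n : ℝ) / 2 ^ m) φ x = Z ω := by
      simp only [hZ]
      exact Finset.sum_congr rfl fun x _ => mul_comm _ _
    rw [this]
    simp only [X]
    split_ifs with h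
    · rw [abs_of_nonneg h, one_mul]
    · rw [abs_of_neg (not_le.1 h), neg_one_mul]
  simp_rw [e1] at hl
  rw [← hl]
  have g1 := gw_integrable hS m A n true hφ
  have g2 := gw_integrable hS m A n false hφ
  rw [← integral_add g1 g2]
  have hX' : AEStronglyMeasurable X μ :=
    (hXm.mono (hist_le hS _ _) le_rfl).aestronglyMeasurable
  refine integral_mono ((gt_integrable hS m A n hφ).bdd_mul hX' (Eventually.of_forall hXb))
    (g1.add g2) fun ω => ?_
  refine (le_abs_self _).trans ?_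
  rw [abs_mul]
  calc |X ω| * |gt c S m A n φ ω| ≤ 1 * |gt c S m A n φ ω| :=
        mul_le_mul_of_nonneg_right (hXb ω) (abs_nonneg _)
    _ ≤ _ := by
        rw [one_mul]
        exact gt_abs_le m A n hφ0 ω

end PkgGL

theorem gdens_lower (hd : 0 < d) (hS : Setup μ (1 / 2) c S) (m : ℕ) (n : ℕ) :
    (1 / 4) * Real.sqrt (heat d (4 * ((n : ℝ) / 2 ^ m)) 0) ≤
      (gdens μ c S m true n + gdens μ c S m false n) / 2 := by
  have ht : (0 : ℝ) ≤ (n : ℝ) / 2 ^ m := by positivity
  set t : ℝ := (n : ℝ) / 2 ^ m with htdef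
  let φ : Site d → ℝ := fun z => heat d t (0 - z)
  have hφe : φ = heat d t := by
    funext z
    simp only [φ, zero_sub, heat_symm]
  have hφ0 : ∀ z, 0 ≤ φ z := fun z => by rw [hφe]; exact heat_nonneg ht z
  have hφ : ∀ z, |φ z| ≤ 1 := fun z => by
    rw [abs_of_nonneg (hφ0 z), hφe]
    exact heat_le_one hd ht z
  have hφs : HasSum φ 1 := by rw [hφe]; exact heat_hasSum hd ht
  have hP : ∀ y, Pt t φ y = heat d (2 * t) y := by
    intro y
    have := Pt_heat hd ht ht 0 y
    rw [zero_sub, heat_symm, ← two_mul] at this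
    exact this
  have h2t : 0 ≤ 2 * t := by positivity
  have hfin := fun A => finite_lower hd hS m n A hφ0 hφ
  simp_rw [← htdef, hP] at hfin
  have l1 : Tendsto (fun A : Finset (Site d) => (1 / 2) * Real.sqrt (∑ y ∈ A, heat d (2 * t) y ^ 2))
      atTop (𝓝 ((1 / 2) * Real.sqrt (heat d (4 * t) 0))) := by
    have h1 : HasSum (fun y : Site d => heat d (2 * t) y ^ 2) (heat d (4 * t) 0) := by
      have h3 := (heat_summable_sq hd h2t).hasSum
      rw [heat_sq hd h2t] at h3
      convert h3 using 2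
      ring
    exact ((Real.continuous_sqrt.tendsto _).comp h1).const_mul _
  have r1 := gdens_tendsto_fun hd hS m true n hφs.summable hφ0
  have r2 := gdens_tendsto_fun hd hS m false n hφs.summable hφ0
  rw [hφs.tsum_eq, mul_one] at r1 r2
  have h := le_of_tendsto_of_tendsto' l1 (r1.add r2) hfin
  linarith

end Pool.Agent.T2H99.AW
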