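import Pool.Agent.T2H99.AW.GD2
import Pool.Agent.T2H99.AW.GL
import Pool.Agent.T2H99.AW.CG

set_option autoImplicit false

/-!
# AW, packages CD1, CD2: from the grid to continuous time (integer times)
-/

namespace Pool.Agent.T2H99.AW

open Finset Filter Topology MeasureTheory ProbabilityTheory
open scoped NNReal ENNReal BigOperators

variable {d : ℕ} {Ω : Type} [mΩ : MeasurableSpace Ω] {μ : Measure Ω} [IsProbabilityMeasure μ]
  {p : ℝ} {c : Site d → Ω → Bool} {S : Site d → ℝ≥0 → Ω → Site d}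
  {alive : Finset (Site d) → ℝ≥0 → Ω → Finset (Site d)}

/-! ## Package CD1 (uses CG, ME, LN, GD: `grid_eventually`, `gw_bdd`, `meas_gw`, `gw_diff`) -/

private theorem cd_cast (k m : ℕ) : ((k * 2 ^ m : ℕ) : ℝ≥0) / 2 ^ m = k := by
  push_cast
  have : (2 : ℝ≥0) ^ m ≠ 0 := by positivity
  field_simp

private theorem cd_castR (k m : ℕ) : ((k * 2 ^ m : ℕ) : ℝ) / 2 ^ m = k := by
  push_cast
  have : (2 : ℝ) ^ m ≠ 0 := by positivity
  field_simp

/-- For large `m` the grid system agrees with the continuous time system at the integer times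
`≤ T` (positions agree as `(k 2^m)/2^m = k`). -/
theorem cw_eq (hA : Sys μ p c S alive) (A : Finset (Site d)) (T : ℕ) (ω : Ω) :
    ∀ᶠ m : ℕ in atTop, ∀ k ≤ T, ∀ (b : Bool) (φ : Site d → ℝ),
      gw c S m A (k * 2 ^ m) b φ ω = cw c S alive A k b φ ω := by
  have hpos : ∀ x ∈ A, StepPath (fun t => posn S ω t x) := by
    intro x _
    refine ⟨fun t => ?_, fun t ht => ?_⟩
    · filter_upwards [(hA.setup.walk x).right ω t] with s hs
      simp only [posn, hs]
    · obtain ⟨z, hz⟩ := (hA.setup.walk x).left ω t ht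
      refine ⟨x + z, ?_⟩
      filter_upwards [hz] with s hs
      simp only [posn, hs]
  have h0 : ∀ x ∈ A, ∀ y ∈ A, posn S ω 0 x = posn S ω 0 y → x = y := by
    intro x _ y _ hxy
    simpa only [posn, (hA.setup.walk x).zero, (hA.setup.walk y).zero, add_zero] using hxy
  filter_upwards [grid_eventually (hA.sys A ω) hpos h0 T] with m hm k hk b φ
  have h1 : ga c S m A (k * 2 ^ m) ω = alive A k ω := hm k hk
  have h2 : gpos S m ω (k * 2 ^ m) = posn S ω k := by
    funext x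
    unfold gpos
    rw [cd_cast]
  unfold gw cw
  rw [h1, h2]

private theorem cd_tendsto (hA : Sys μ p c S alive) (A : Finset (Site d)) (k : ℕ) (b : Bool)
    (φ : Site d → ℝ) (ω : Ω) :
    Tendsto (fun m : ℕ => gw c S m A (k * 2 ^ m) b φ ω) atTop (𝓝 (cw c S alive A k b φ ω)) := by
  refine tendsto_const_nhds.congr' ?_
  filter_upwards [cw_eq hA A k ω] with m hm
  exact (hm k le_rfl b φ).symm

theorem cw_meas (hA : Sys μ p c S alive) (A : Finset (Site d)) (k : ℕ) (b : Bool)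
    (φ : Site d → ℝ) : Measurable[⨆ x : A, lab c S x] (cw c S alive A k b φ) := by
  have hle : hist c S (A : Set (Site d)) (k : ℝ≥0) ≤ ⨆ x : A, lab c S x := by
    refine iSup_le fun x => ?_
    refine le_trans ?_ (le_iSup (fun x : A => lab c S x) ⟨x.1, x.2⟩)
    refine sup_le_sup le_rfl ?_
    exact iSup_le fun u => le_iSup (fun u : ℝ≥0 => MeasurableSpace.comap (S x u) inferInstance) u.1
  refine @measurable_of_tendsto_metrizable Ω ℝ (⨆ x : A, lab c S x) _ _ _ _
    (fun m : ℕ => gw c S m A (k * 2 ^ m) b φ) _ (fun m => ?_)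
    (tendsto_pi_nhds.mpr fun ω => cd_tendsto hA A k b φ ω)
  have h1 := meas_gw c S m A (i := k * 2 ^ m) (s := (k : ℝ≥0)) (cd_cast k m).le b φ
  exact h1.mono hle le_rfl

theorem cw_bdd (hA : Sys μ p c S alive) (A : Finset (Site d)) (k : ℕ) (b : Bool)
    {φ : Site d → ℝ} {K : ℝ} (hφ : ∀ z, |φ z| ≤ K) (ω : Ω) :
    |cw c S alive A k b φ ω| ≤ A.card * K := by
  obtain ⟨m, hm⟩ := (cw_eq hA A k ω).exists
  rw [← hm k le_rfl b φ]
  exact gw_bdd c S m A _ b hφ ω

private theorem cd_lab_le (hA : Sys μ p c S alive) (x : Site d) : lab c S x ≤ mΩ := by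
  refine sup_le ?_ (iSup_le fun u => ?_)
  · exact (hA.setup.cmeas x).comap_le
  · exact ((hA.setup.walk x).meas u).comap_le

private theorem cd_aesm (hA : Sys μ p c S alive) (A : Finset (Site d)) (k : ℕ) (b : Bool)
    (φ : Site d → ℝ) : AEStronglyMeasurable (cw c S alive A k b φ) μ := by
  have h1 : Measurable (cw c S alive A k b φ) :=
    (cw_meas hA A k b φ).mono (iSup_le fun x => cd_lab_le hA x) le_rfl
  exact h1.aestronglyMeasurable

theorem cw_integrable (hA : Sys μ p c S alive) (A : Finset (Site d)) (k : ℕ) (b : Bool)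
    {φ : Site d → ℝ} {K : ℝ} (hφ : ∀ z, |φ z| ≤ K) : Integrable (cw c S alive A k b φ) μ := by
  refine Integrable.of_bound (cd_aesm hA A k b φ) (A.card * K) (ae_of_all _ fun ω => ?_)
  rw [Real.norm_eq_abs]
  exact cw_bdd hA A k b hφ ω

/-- Dominated convergence. -/
theorem cw_lim (hA : Sys μ p c S alive) (A : Finset (Site d)) (k : ℕ) (b : Bool)
    {φ : Site d → ℝ} {K : ℝ} (hφ : ∀ z, |φ z| ≤ K) :
    Tendsto (fun m : ℕ => ∫ ω, gw c S m A (k * 2 ^ m) b φ ω ∂μ) atTop
      (𝓝 (∫ ω, cw c S alive A k b φ ω ∂μ)) := by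
  refine tendsto_integral_of_dominated_convergence (fun _ => (A.card : ℝ) * K)
    (fun m => (gw_integrable hA.setup m A _ b hφ).1) (integrable_const _) (fun m => ?_)
    (ae_of_all _ fun ω => cd_tendsto hA A k b φ ω)
  refine ae_of_all _ fun ω => ?_
  rw [Real.norm_eq_abs]
  exact gw_bdd c S m A _ b hφ ω

theorem cw_lim2 (hA : Sys μ p c S alive) (A : Finset (Site d)) (k l : ℕ) (b b' : Bool)
    {φ ψ : Site d → ℝ} {K : ℝ} (hφ : ∀ z, |φ z| ≤ K) (hψ : ∀ z, |ψ z| ≤ K) :
    Tendsto (fun m : ℕ => ∫ ω, gw c S m A (k * 2 ^ m) b φ ω * gw c S m A (l * 2 ^ m) b' ψ ω ∂μ)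
      atTop (𝓝 (∫ ω, cw c S alive A k b φ ω * cw c S alive A l b' ψ ω ∂μ)) := by
  refine tendsto_integral_of_dominated_convergence (fun _ => ((A.card : ℝ) * K) * (A.card * K))
    (fun m => (gw_integrable hA.setup m A _ b hφ).1.mul (gw_integrable hA.setup m A _ b' hψ).1)
    (integrable_const _) (fun m => ?_)
    (ae_of_all _ fun ω => (cd_tendsto hA A k b φ ω).mul (cd_tendsto hA A l b' ψ ω))
  refine ae_of_all _ fun ω => ?_
  rw [Real.norm_eq_abs, abs_mul]
  have h1 := gw_bdd c S m A (k * 2 ^ m) b hφ ω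
  exact mul_le_mul h1 (gw_bdd c S m A _ b' hψ ω) (abs_nonneg _) (le_trans (abs_nonneg _) h1)

theorem cw_diff (hd : 0 < d) (hA : Sys μ p c S alive) {A A' : Finset (Site d)} (hAA : A ⊆ A')
    (k : ℕ) (b : Bool) {φ : Site d → ℝ} {K : ℝ} (hφ : ∀ z, |φ z| ≤ K) :
    ∫ ω, |cw c S alive A' k b φ ω - cw c S alive A k b φ ω| ∂μ ≤
      ∑ y ∈ A' \ A, Pt (k : ℝ) (fun z => |φ z|) y := by
  have hlim : Tendsto (fun m : ℕ => ∫ ω, |gw c S m A' (k * 2 ^ m) b φ ω - gw c S m A (k * 2 ^ m) b φ ω| ∂μ)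
      atTop (𝓝 (∫ ω, |cw c S alive A' k b φ ω - cw c S alive A k b φ ω| ∂μ)) := by
    refine tendsto_integral_of_dominated_convergence (fun _ => (A'.card : ℝ) * K + A.card * K)
      (fun m => ?_) (integrable_const _) (fun m => ?_)
      (ae_of_all _ fun ω => ((cd_tendsto hA A' k b φ ω).sub (cd_tendsto hA A k b φ ω)).abs)
    · have h1 := ((gw_integrable hA.setup m A' (k * 2 ^ m) b hφ).sub
        (gw_integrable hA.setup m A (k * 2 ^ m) b hφ)).abs
      exact h1.1
    · refine ae_of_all _ fun ω => ?_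
      rw [Real.norm_eq_abs, abs_abs]
      exact (abs_sub _ _).trans (add_le_add (gw_bdd c S m A' _ b hφ ω) (gw_bdd c S m A _ b hφ ω))
  refine le_of_tendsto hlim (Eventually.of_forall fun m => ?_)
  have h1 := gw_diff hd hA.setup m hAA (k * 2 ^ m) b hφ
  rwa [cd_castR] at h1

end Pool.Agent.T2H99.AW
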