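import Pool.Agent.T2H99.AW.CD

set_option autoImplicit false

/-!
# AW, package CD2: densities and second moments in continuous time (uses CD1, GD, GD2, GL, VA, PR)

The rate `gdens_rate` at step `k 2^m` is `∑_{y ∉ A} heat k (z - y)`, uniform in `m`; with `cw_lim` the
limits `A → ∞` and `m → ∞` commute:
`dens b k = lim_A E cw A k b (ind z) = lim_m gdens m b (k 2^m)`.
The properties of `dens` are limits `m → ∞` of those of `gdens`.
`cw_second`: limit `m → ∞` of `pair_bb` (with `φ = ψ = ind 0`, `Pt_single`, `j = t' 2^m`), then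
Cauchy-Schwarz, `gw_sq`, `heat_sq`, and limit `A → ∞`; stated as a `limsup` in the form eventually
`≤ bound + ε`.
-/

namespace Pool.Agent.T2H99.AW

open Finset Filter Topology MeasureTheory ProbabilityTheory
open scoped NNReal ENNReal BigOperators

variable {d : ℕ} {Ω : Type} [mΩ : MeasurableSpace Ω] {μ : Measure Ω} [IsProbabilityMeasure μ]
  {p : ℝ} {c : Site d → Ω → Bool} {S : Site d → ℝ≥0 → Ω → Site d}
  {alive : Finset (Site d) → ℝ≥0 → Ω → Finset (Site d)}

theorem CD2_ind_bdd (z w : Site d) : |ind z w| ≤ 1 := by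
  unfold ind
  split_ifs <;> simp

theorem CD2_ind_nonneg (z w : Site d) : 0 ≤ ind z w := by
  unfold ind
  split_ifs <;> simp

theorem CD2_cast (k m : ℕ) : (((k * 2 ^ m : ℕ) : ℝ) / 2 ^ m) = k := by
  push_cast
  field_simp

theorem CD2_cast2 (k l m : ℕ) :
    ((((k * 2 ^ m : ℕ) : ℝ) - ((l * 2 ^ m : ℕ) : ℝ)) / 2 ^ m) = (k : ℝ) - l := by
  push_cast
  field_simp

theorem CD2_heat_hasSum (hd : 0 < d) {t : ℝ} (ht : 0 ≤ t) (z : Site d) :
    HasSum (fun y => heat d t (z - y)) 1 :=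
  (Equiv.subLeft z).hasSum_iff.2 (heat_hasSum hd ht)

theorem CD2_rho (hd : 0 < d) {t : ℝ} (ht : 0 ≤ t) (z : Site d) (A : Finset (Site d)) :
    (∑' y : Site d, if y ∈ A then 0 else heat d t (z - y)) = 1 - ∑ y ∈ A, heat d t (z - y) := by
  have h1 := CD2_heat_hasSum hd ht z
  have h2 : HasSum (fun y : Site d => if y ∈ A then heat d t (z - y) else 0)
      (∑ y ∈ A, heat d t (z - y)) := by
    have : HasSum (fun y : Site d => if y ∈ A then heat d t (z - y) else 0)
        (∑ y ∈ A, if y ∈ A then heat d t (z - y) else 0) :=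
      hasSum_sum_of_ne_finset_zero (fun y hy => if_neg hy)
    rwa [Finset.sum_congr rfl (g := fun y => heat d t (z - y)) (fun y hy => if_pos hy)] at this
  rw [← (h1.sub h2).tsum_eq]
  refine tsum_congr fun y => ?_
  split_ifs <;> simp

theorem CD2_rho_tendsto (hd : 0 < d) {t : ℝ} (ht : 0 ≤ t) (z : Site d) :
    Tendsto (fun A : Finset (Site d) => ∑' y : Site d, if y ∈ A then 0 else heat d t (z - y)) atTop
      (𝓝 0) := by
  simp_rw [CD2_rho hd ht z]
  have h1 := CD2_heat_hasSum hd ht z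
  have h2 : Tendsto (fun A : Finset (Site d) => ∑ y ∈ A, heat d t (z - y)) atTop (𝓝 1) := by
    simpa [HasSum] using h1
  have h3 := h2.const_sub 1
  rwa [sub_self] at h3

theorem CD2_rate (hd : 0 < d) (hS : Setup μ p c S) (m : ℕ) (b : Bool) (k : ℕ) (z : Site d)
    (A : Finset (Site d)) :
    |∫ ω, gw c S m A (k * 2 ^ m) b (ind z) ω ∂μ - gdens μ c S m b (k * 2 ^ m)| ≤
      ∑' y : Site d, if y ∈ A then 0 else heat d k (z - y) := by
  have h := gdens_rate hd hS m b (k * 2 ^ m) z A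
  rwa [CD2_cast] at h

theorem CD2_key (hd : 0 < d) (hA : Sys μ p c S alive) (b : Bool) (k : ℕ) :
    ∃ D, Tendsto (fun m : ℕ => gdens μ c S m b (k * 2 ^ m)) atTop (𝓝 D) := by
  apply cauchySeq_tendsto_of_complete
  rw [Metric.cauchySeq_iff']
  intro ε hε
  have hk : (0 : ℝ) ≤ k := Nat.cast_nonneg k
  obtain ⟨A, hAε⟩ := ((CD2_rho_tendsto hd hk (0 : Site d)).eventually
    (gt_mem_nhds (show (0 : ℝ) < ε / 4 by positivity))).exists
  have hc := (cw_lim hA A k b (CD2_ind_bdd (0 : Site d))).cauchySeq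
  obtain ⟨N, hN⟩ := Metric.cauchySeq_iff'.1 hc (ε / 4) (by positivity)
  refine ⟨N, fun n hn => ?_⟩
  have h1 := hN n hn
  rw [Real.dist_eq] at h1 ⊢
  have h2 := CD2_rate hd hA.setup n b k 0 A
  have h3 := CD2_rate hd hA.setup N b k 0 A
  rw [abs_le] at h2 h3
  rw [abs_lt] at h1 ⊢
  constructor <;> linarith

theorem CD2_erate (hd : 0 < d) (hA : Sys μ p c S alive) (b : Bool) (k : ℕ) {D : ℝ}
    (hD : Tendsto (fun m : ℕ => gdens μ c S m b (k * 2 ^ m)) atTop (𝓝 D)) (z : Site d)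
    (A : Finset (Site d)) :
    |∫ ω, cw c S alive A k b (ind z) ω ∂μ - D| ≤
      ∑' y : Site d, if y ∈ A then 0 else heat d k (z - y) :=
  le_of_tendsto (((cw_lim hA A k b (CD2_ind_bdd z)).sub hD).abs)
    (Eventually.of_forall fun m => CD2_rate hd hA.setup m b k z A)

theorem CD2_etend (hd : 0 < d) (hA : Sys μ p c S alive) (b : Bool) (k : ℕ) {D : ℝ}
    (hD : Tendsto (fun m : ℕ => gdens μ c S m b (k * 2 ^ m)) atTop (𝓝 D)) (z : Site d) :
    Tendsto (fun A => ∫ ω, cw c S alive A k b (ind z) ω ∂μ) atTop (𝓝 D) := by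
  rw [tendsto_iff_dist_tendsto_zero]
  refine squeeze_zero (fun _ => dist_nonneg) (fun A => ?_)
    (CD2_rho_tendsto hd (Nat.cast_nonneg k) z)
  rw [Real.dist_eq]
  exact CD2_erate hd hA b k hD z A

theorem dens_lim_gdens (hd : 0 < d) (hA : Sys μ p c S alive) (b : Bool) (k : ℕ) :
    Tendsto (fun m : ℕ => gdens μ c S m b (k * 2 ^ m)) atTop (𝓝 (dens μ c S alive b k)) := by
  obtain ⟨D, hD⟩ := CD2_key hd hA b k
  have : dens μ c S alive b k = D := (CD2_etend hd hA b k hD 0).limUnder_eq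
  rw [this]
  exact hD

theorem dens_rate (hd : 0 < d) (hA : Sys μ p c S alive) (b : Bool) (k : ℕ) (z : Site d)
    (A : Finset (Site d)) :
    |∫ ω, cw c S alive A k b (ind z) ω ∂μ - dens μ c S alive b k| ≤
      ∑' y : Site d, if y ∈ A then 0 else heat d k (z - y) :=
  CD2_erate hd hA b k (dens_lim_gdens hd hA b k) z A

theorem dens_tendsto (hd : 0 < d) (hA : Sys μ p c S alive) (b : Bool) (k : ℕ) (z : Site d) :
    Tendsto (fun A => ∫ ω, cw c S alive A k b (ind z) ω ∂μ) atTop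
      (𝓝 (dens μ c S alive b k)) :=
  CD2_etend hd hA b k (dens_lim_gdens hd hA b k) z

omit mΩ in
theorem CD2_cw_hasSum (c : Site d → Ω → Bool) (S : Site d → ℝ≥0 → Ω → Site d)
    (alive : Finset (Site d) → ℝ≥0 → Ω → Finset (Site d)) (A : Finset (Site d)) (k : ℕ) (b : Bool)
    (φ : Site d → ℝ) (ω : Ω) :
    HasSum (fun z => φ z * cw c S alive A k b (ind z) ω) (cw c S alive A k b φ ω) := by
  unfold cw wt
  simp_rw [Finset.mul_sum]
  refine hasSum_sum fun x _ => ?_
  have := hasSum_single (f := fun z => φ z * ind z (posn S ω k x)) (posn S ω k x)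
    (fun z hz => by
      unfold ind
      rw [if_neg (fun h => hz h.symm), mul_zero])
  have e : φ (posn S ω k x) * ind (posn S ω k x) (posn S ω k x) = φ (posn S ω k x) := by
    unfold ind
    rw [if_pos rfl, mul_one]
  rwa [e] at this

omit mΩ in
theorem CD2_cw_nonneg (c : Site d → Ω → Bool) (S : Site d → ℝ≥0 → Ω → Site d)
    (alive : Finset (Site d) → ℝ≥0 → Ω → Finset (Site d)) (A : Finset (Site d)) (k : ℕ) (b : Bool)
    {φ : Site d → ℝ} (hφ : ∀ z, 0 ≤ φ z) (ω : Ω) : 0 ≤ cw c S alive A k b φ ω := by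
  unfold cw wt
  exact Finset.sum_nonneg fun x _ => hφ _

theorem CD2_e_le_one (hd : 0 < d) (hA : Sys μ p c S alive) (A : Finset (Site d)) (b : Bool) (k : ℕ)
    (z : Site d) : ∫ ω, cw c S alive A k b (ind z) ω ∂μ ≤ 1 := by
  refine le_of_tendsto (cw_lim hA A k b (CD2_ind_bdd z)) (Eventually.of_forall fun m => ?_)
  have h1 := gw_mean_le hd hA.setup m A (k * 2 ^ m) b (CD2_ind_bdd z) (CD2_ind_nonneg z)
  refine h1.trans ?_
  rw [CD2_cast]
  have h2 : ∀ x ∈ A, Pt (k : ℝ) (ind z) x = heat d k (z - x) := fun x _ => Pt_single _ z x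
  rw [Finset.sum_congr rfl h2]
  exact sum_le_hasSum A (fun y _ => heat_nonneg (Nat.cast_nonneg k) _)
    (CD2_heat_hasSum hd (Nat.cast_nonneg k) z)

theorem CD2_mean (hd : 0 < d) (hA : Sys μ p c S alive) (A : Finset (Site d)) (b : Bool) (k : ℕ)
    {φ : Site d → ℝ} (hφ : Summable φ) (hφ0 : ∀ z, 0 ≤ φ z) :
    ∫ ω, cw c S alive A k b φ ω ∂μ = ∑' z, φ z * ∫ ω, cw c S alive A k b (ind z) ω ∂μ := by
  have h1 : ∀ z, Integrable (fun ω => φ z * cw c S alive A k b (ind z) ω) μ := fun z =>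
    (cw_integrable hA A k b (CD2_ind_bdd z)).const_mul _
  have h2 : ∀ z, ∫ ω, ‖φ z * cw c S alive A k b (ind z) ω‖ ∂μ
      = φ z * ∫ ω, cw c S alive A k b (ind z) ω ∂μ := by
    intro z
    rw [← integral_const_mul]
    congr 1
    funext ω
    rw [Real.norm_eq_abs, abs_of_nonneg (mul_nonneg (hφ0 z)
      (CD2_cw_nonneg c S alive A k b (CD2_ind_nonneg z) ω))]
  have h3 : Summable fun z => ∫ ω, ‖φ z * cw c S alive A k b (ind z) ω‖ ∂μ := by
    refine Summable.of_nonneg_of_le (fun z => integral_nonneg fun ω => norm_nonneg _) (fun z => ?_)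
      hφ
    rw [h2]
    exact mul_le_of_le_one_right (hφ0 z) (CD2_e_le_one hd hA A b k z)
  have h4 := (hasSum_integral_of_summable_integral_norm h1 h3).tsum_eq
  simp_rw [integral_const_mul] at h4
  rw [h4]
  congr 1
  funext ω
  exact (CD2_cw_hasSum c S alive A k b φ ω).tsum_eq.symm

theorem dens_tendsto_fun (hd : 0 < d) (hA : Sys μ p c S alive) (b : Bool) (k : ℕ)
    {φ : Site d → ℝ} (hφ : Summable φ) (hφ0 : ∀ z, 0 ≤ φ z) :
    Tendsto (fun A => ∫ ω, cw c S alive A k b φ ω ∂μ) atTop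
      (𝓝 (dens μ c S alive b k * ∑' z, φ z)) := by
  have h1 : (fun A => ∫ ω, cw c S alive A k b φ ω ∂μ) =
      fun A => ∑' z, φ z * ∫ ω, cw c S alive A k b (ind z) ω ∂μ :=
    funext fun A => CD2_mean hd hA A b k hφ hφ0
  rw [h1, ← tsum_mul_left]
  have h2 : ∀ z, dens μ c S alive b k * φ z = φ z * dens μ c S alive b k := fun z => mul_comm _ _
  simp_rw [h2]
  refine tendsto_tsum_of_dominated_convergence hφ
    (fun z => (dens_tendsto hd hA b k z).const_mul (φ z)) (Eventually.of_forall fun A z => ?_)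
  rw [Real.norm_eq_abs, abs_of_nonneg (mul_nonneg (hφ0 z) (integral_nonneg fun ω =>
    CD2_cw_nonneg c S alive A k b (CD2_ind_nonneg z) ω))]
  exact mul_le_of_le_one_right (hφ0 z) (CD2_e_le_one hd hA A b k z)

theorem dens_nonneg (hd : 0 < d) (hA : Sys μ p c S alive) (b : Bool) (k : ℕ) :
    0 ≤ dens μ c S alive b k :=
  ge_of_tendsto (dens_lim_gdens hd hA b k)
    (Eventually.of_forall fun m => gdens_nonneg hd hA.setup m b _)

theorem dens_anti (hd : 0 < d) (hA : Sys μ p c S alive) (b : Bool) :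
    Antitone (dens μ c S alive b) := by
  intro k l hkl
  exact le_of_tendsto_of_tendsto' (dens_lim_gdens hd hA b l) (dens_lim_gdens hd hA b k)
    fun m => gdens_anti hd hA.setup m b (Nat.mul_le_mul_right _ hkl)

theorem dens_diff (hd : 0 < d) (hp : 0 ≤ p) (hA : Sys μ p c S alive) (k : ℕ) :
    dens μ c S alive true k - dens μ c S alive false k = 2 * p - 1 := by
  have h1 := (dens_lim_gdens hd hA true k).sub (dens_lim_gdens hd hA false k)
  have h2 : (fun m : ℕ => gdens μ c S m true (k * 2 ^ m) - gdens μ c S m false (k * 2 ^ m)) =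
      fun _ => 2 * p - 1 := funext fun m => gdens_diff hd hp hA.setup m _
  rw [h2] at h1
  exact (tendsto_nhds_unique h1 tendsto_const_nhds)

theorem dens_dec (hd : 0 < d) (hA : Sys μ (1 / 2) c S alive) {t' t : ℕ} (h : t' ≤ t) :
    dens μ c S alive true t - dens μ c S alive true (t + 1) ≤
      2 * (dens μ c S alive true t' ^ 2 + heat d (2 * ((t : ℝ) - t')) 0) :=
  le_of_tendsto_of_tendsto'
    ((dens_lim_gdens hd hA true t).sub (dens_lim_gdens hd hA true (t + 1)))
    ((((dens_lim_gdens hd hA true t').pow 2).add_const _).const_mul 2)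
    fun m => gdens_dec_unit hd hA.setup m h

theorem dens_lower (hd : 0 < d) (hA : Sys μ (1 / 2) c S alive) (k : ℕ) :
    (1 / 4) * Real.sqrt (heat d (4 * (k : ℝ)) 0) ≤ dens μ c S alive true k := by
  have h1 := ((dens_lim_gdens hd hA true k).add (dens_lim_gdens hd hA false k)).div_const 2
  have h2 := dens_diff hd (by norm_num : (0 : ℝ) ≤ 1 / 2) hA k
  have h3 : (dens μ c S alive true k + dens μ c S alive false k) / 2
      = dens μ c S alive true k := by linarith
  rw [h3] at h1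
  refine ge_of_tendsto h1 (Eventually.of_forall fun m => ?_)
  have h4 := gdens_lower hd hA.setup m (k * 2 ^ m)
  rwa [CD2_cast] at h4

omit mΩ in
theorem CD2_gw_smul (c : Site d → Ω → Bool) (S : Site d → ℝ≥0 → Ω → Site d) (m : ℕ)
    (A : Finset (Site d)) (i : ℕ) (b : Bool) (a : ℝ) (φ : Site d → ℝ) (ω : Ω) :
    gw c S m A i b (fun z => a * φ z) ω = a * gw c S m A i b φ ω := by
  unfold gw wt
  rw [Finset.mul_sum]

theorem CD2_prod (hS : Setup μ p c S) (m : ℕ) (A : Finset (Site d)) (i : ℕ) (b : Bool)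
    {φ ψ : Site d → ℝ} {K : ℝ} (hφ : ∀ z, |φ z| ≤ K) (hψ : ∀ z, |ψ z| ≤ K) :
    Integrable (fun ω => gw c S m A i b φ ω * gw c S m A i b ψ ω) μ :=
  (gw_integrable hS m A i b hφ).mul_bdd (c := A.card * K)
    (gw_integrable hS m A i b hψ).aestronglyMeasurable
    (Eventually.of_forall fun ω => by
      rw [Real.norm_eq_abs]
      exact gw_bdd c S m A i b hψ ω)

/-- the second moment in the grid system -/
theorem CD2_grid (hd : 0 < d) (hS : Setup μ p c S) {t' s s' : ℕ} (h1 : t' ≤ s) (h2 : s ≤ s')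
    (b : Bool) (A : Finset (Site d)) (m : ℕ) :
    ∫ ω, gw c S m A (s * 2 ^ m) b (ind 0) ω * gw c S m A (s' * 2 ^ m) b (ind 0) ω ∂μ ≤
      heat d ((s' : ℝ) - s) 0 * ∫ ω, gw c S m A (s * 2 ^ m) b (ind 0) ω ∂μ +
      (((∫ ω, gw c S m A (t' * 2 ^ m) b (fun z => heat d ((s : ℝ) - t') (0 - z)) ω ∂μ) ^ 2 +
          heat d (2 * ((s : ℝ) - t')) 0) +
        ((∫ ω, gw c S m A (t' * 2 ^ m) b (fun z => heat d ((s' : ℝ) - t') (0 - z)) ω ∂μ) ^ 2 +
          heat d (2 * ((s' : ℝ) - t')) 0)) / 2 := by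
  have hst : (0 : ℝ) ≤ (s : ℝ) - t' := sub_nonneg.2 (Nat.cast_le.2 h1)
  have hst' : (0 : ℝ) ≤ (s' : ℝ) - t' := sub_nonneg.2 (Nat.cast_le.2 (h1.trans h2))
  have hb : ∀ {t : ℝ}, 0 ≤ t → ∀ z : Site d, |heat d t (0 - z)| ≤ 1 := fun ht z => by
    rw [abs_of_nonneg (heat_nonneg ht _)]
    exact heat_le_one hd ht _
  have hp := pair_bb hd hS m A (Nat.mul_le_mul_right (2 ^ m) h1) (Nat.mul_le_mul_right (2 ^ m) h2) b
    (CD2_ind_bdd (0 : Site d)) (CD2_ind_bdd (0 : Site d)) (CD2_ind_nonneg 0) (CD2_ind_nonneg 0)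
  rw [CD2_cast2, CD2_cast2, CD2_cast2] at hp
  have e1 : ∀ t : ℝ, Pt t (ind (0 : Site d)) = fun z => heat d t (0 - z) := fun t =>
    funext fun z => Pt_single t 0 z
  have e2 : (fun z : Site d => ind 0 z * Pt ((s' : ℝ) - s) (ind 0) z)
      = fun z => heat d ((s' : ℝ) - s) 0 * ind 0 z := by
    funext z
    rw [e1]
    by_cases hz : z = 0
    · subst hz
      simp only [sub_zero]
      ring
    · have : ind (0 : Site d) z = 0 := if_neg hz
      rw [this]
      ring
  rw [e2, e1, e1] at hp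
  simp_rw [CD2_gw_smul] at hp
  rw [integral_const_mul] at hp
  refine hp.trans ?_
  have hsq : ∀ {t : ℝ}, 0 ≤ t → ∫ ω, (gw c S m A (t' * 2 ^ m) b (fun z => heat d t (0 - z)) ω) ^ 2 ∂μ
      ≤ (∫ ω, gw c S m A (t' * 2 ^ m) b (fun z => heat d t (0 - z)) ω ∂μ) ^ 2 +
        heat d (2 * t) 0 := by
    intro t ht
    have hs : Summable (fun z : Site d => heat d t (0 - z) ^ 2) := by
      simp_rw [zero_sub, heat_symm]
      exact heat_summable_sq hd ht
    have h := gw_sq hd hS m A (t' * 2 ^ m) b (hb ht) hs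
    have e3 : ∑' z : Site d, heat d t (0 - z) ^ 2 = heat d (2 * t) 0 := by
      simp_rw [zero_sub, heat_symm]
      exact heat_sq hd ht
    rwa [e3] at h
  have hmid : ∫ ω, gw c S m A (t' * 2 ^ m) b (fun z => heat d ((s : ℝ) - t') (0 - z)) ω *
        gw c S m A (t' * 2 ^ m) b (fun z => heat d ((s' : ℝ) - t') (0 - z)) ω ∂μ ≤
      (∫ ω, (gw c S m A (t' * 2 ^ m) b (fun z => heat d ((s : ℝ) - t') (0 - z)) ω) ^ 2 ∂μ +
        ∫ ω, (gw c S m A (t' * 2 ^ m) b (fun z => heat d ((s' : ℝ) - t') (0 - z)) ω) ^ 2 ∂μ) / 2 := by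
    have i1 : Integrable (fun ω =>
        (gw c S m A (t' * 2 ^ m) b (fun z => heat d ((s : ℝ) - t') (0 - z)) ω) ^ 2) μ := by
      simp_rw [sq]
      exact CD2_prod hS m A _ b (hb hst) (hb hst)
    have i2 : Integrable (fun ω =>
        (gw c S m A (t' * 2 ^ m) b (fun z => heat d ((s' : ℝ) - t') (0 - z)) ω) ^ 2) μ := by
      simp_rw [sq]
      exact CD2_prod hS m A _ b (hb hst') (hb hst')
    rw [← integral_add i1 i2, ← integral_div]
    refine integral_mono (CD2_prod hS m A _ b (hb hst) (hb hst')) ((i1.add i2).div_const 2)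
      fun ω => ?_
    simp only
    have := sq_nonneg (gw c S m A (t' * 2 ^ m) b (fun z => heat d ((s : ℝ) - t') (0 - z)) ω -
      gw c S m A (t' * 2 ^ m) b (fun z => heat d ((s' : ℝ) - t') (0 - z)) ω)
    nlinarith
  have q1 := hsq hst
  have q2 := hsq hst'
  linarith

theorem cw_second (hd : 0 < d) (hA : Sys μ p c S alive) {t' s s' : ℕ} (h1 : t' ≤ s) (h2 : s ≤ s')
    (b : Bool) {ε : ℝ} (hε : 0 < ε) :
    ∀ᶠ A : Finset (Site d) in atTop,
      ∫ ω, cw c S alive A s b (ind 0) ω * cw c S alive A s' b (ind 0) ω ∂μ ≤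
        dens μ c S alive b s * heat d ((s' : ℝ) - s) 0 + dens μ c S alive b t' ^ 2 +
          heat d (2 * ((s : ℝ) - t')) 0 + ε := by
  have hst : (0 : ℝ) ≤ (s : ℝ) - t' := sub_nonneg.2 (Nat.cast_le.2 h1)
  have hst' : (0 : ℝ) ≤ (s' : ℝ) - t' := sub_nonneg.2 (Nat.cast_le.2 (h1.trans h2))
  have hss : (s : ℝ) ≤ s' := Nat.cast_le.2 h2
  have hb : ∀ {t : ℝ}, 0 ≤ t → ∀ z : Site d, |heat d t (0 - z)| ≤ 1 := fun ht z => by
    rw [abs_of_nonneg (heat_nonneg ht _)]
    exact heat_le_one hd ht _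
  have hbound : ∀ A : Finset (Site d),
      ∫ ω, cw c S alive A s b (ind 0) ω * cw c S alive A s' b (ind 0) ω ∂μ ≤
      heat d ((s' : ℝ) - s) 0 * ∫ ω, cw c S alive A s b (ind 0) ω ∂μ +
      (((∫ ω, cw c S alive A t' b (fun z => heat d ((s : ℝ) - t') (0 - z)) ω ∂μ) ^ 2 +
          heat d (2 * ((s : ℝ) - t')) 0) +
        ((∫ ω, cw c S alive A t' b (fun z => heat d ((s' : ℝ) - t') (0 - z)) ω ∂μ) ^ 2 +
          heat d (2 * ((s' : ℝ) - t')) 0)) / 2 := by
    intro A
    refine le_of_tendsto_of_tendsto'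
      (cw_lim2 hA A s s' b b (CD2_ind_bdd (0 : Site d)) (CD2_ind_bdd (0 : Site d)))
      (((cw_lim hA A s b (CD2_ind_bdd (0 : Site d))).const_mul _).add
        ((((((cw_lim hA A t' b (hb hst)).pow 2).add_const _).add
          (((cw_lim hA A t' b (hb hst')).pow 2).add_const _))).div_const 2))
      (fun m => CD2_grid hd hA.setup h1 h2 b A m)
  have hsum : ∀ {t : ℝ}, 0 ≤ t → ∑' z : Site d, heat d t (0 - z) = 1 := fun ht =>
    (CD2_heat_hasSum hd ht 0).tsum_eq
  have l1 := dens_tendsto_fun hd hA b t' (CD2_heat_hasSum hd hst 0).summable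
    (fun z => heat_nonneg hst _)
  have l2 := dens_tendsto_fun hd hA b t' (CD2_heat_hasSum hd hst' 0).summable
    (fun z => heat_nonneg hst' _)
  rw [hsum hst, mul_one] at l1
  rw [hsum hst', mul_one] at l2
  have l3 := (((dens_tendsto hd hA b s 0).const_mul (heat d ((s' : ℝ) - s) 0)).add
        (((((l1.pow 2).add_const (heat d (2 * ((s : ℝ) - t')) 0)).add
          ((l2.pow 2).add_const (heat d (2 * ((s' : ℝ) - t')) 0)))).div_const 2))
  have l4 : heat d (2 * ((s' : ℝ) - t')) (0 : Site d) ≤ heat d (2 * ((s : ℝ) - t')) 0 :=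
    heat_zero_anti hd (by linarith) (by linarith)
  have l5 := l3.eventually (gt_mem_nhds (show _ < _ + ε from lt_add_of_pos_right _ hε))
  filter_upwards [l5] with A hA5
  have h6 := hbound A
  linarith

end Pool.Agent.T2H99.AW
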