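import Mathlib

set_option autoImplicit false
set_option linter.unusedSectionVars false

/-!
# AW: conditional expectations and independent σ-algebras (used by ES and MD)
-/

namespace Pool.Agent.T2H99.AW.Cnd

open MeasureTheory ProbabilityTheory Finset

variable {Ω : Type} [mΩ : MeasurableSpace Ω] {μ : Measure Ω} [IsProbabilityMeasure μ]

theorem int_of_bdd {m : MeasurableSpace Ω} (hm : m ≤ mΩ) {f : Ω → ℝ} (hf : StronglyMeasurable[m] f)
    {C : ℝ} (h : ∀ᵐ ω ∂μ, |f ω| ≤ C) : Integrable f μ :=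
  Integrable.of_bound (hf.mono hm).aestronglyMeasurable C (by simpa using h)

/-- pull-out -/
theorem ort {m : MeasurableSpace Ω} (hm : m ≤ mΩ) {f W : Ω → ℝ} (hf : Integrable f μ)
    (hW : StronglyMeasurable[m] W) {C : ℝ} (h : ∀ᵐ ω ∂μ, |W ω| ≤ C) :
    ∫ ω, f ω * W ω ∂μ = ∫ ω, (μ[f|m]) ω * W ω ∂μ := by
  have hfW : Integrable (f * W) μ :=
    hf.mul_bdd (c := C) (hW.mono hm).aestronglyMeasurable (by simpa using h)
  have h1 := condExp_mul_of_stronglyMeasurable_right hW hfW hf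
  have h2 := integral_condExp hm (μ := μ) (f := f * W)
  calc ∫ ω, f ω * W ω ∂μ = ∫ ω, (f * W) ω ∂μ := rfl
    _ = ∫ ω, (μ[f * W|m]) ω ∂μ := h2.symm
    _ = ∫ ω, (μ[f|m] * W) ω ∂μ := integral_congr_ae h1
    _ = _ := rfl

omit [IsProbabilityMeasure μ] in
theorem bdd_cond (m : MeasurableSpace Ω) {f : Ω → ℝ} {C : ℝ}
    (h : ∀ᵐ ω ∂μ, |f ω| ≤ C) : ∀ᵐ ω ∂μ, |(μ[f|m]) ω| ≤ C :=
  ae_bdd_abs_condExp_of_ae_bdd_abs h

/-- integrals over intersections with an independent set -/
theorem int_inter {K m : MeasurableSpace Ω} (hK : K ≤ mΩ) (hm : m ≤ mΩ) (hi : Indep K m μ)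
    {g : Ω → ℝ} (hg : StronglyMeasurable[K] g) (hgi : Integrable g μ) {A B : Set Ω}
    (hA : MeasurableSet[K] A) (hB : MeasurableSet[m] B) :
    ∫ ω in A ∩ B, g ω ∂μ = μ.real B * ∫ ω in A, g ω ∂μ := by
  have hAm := hK _ hA
  have hBm := hm _ hB
  have h1 := condExp_indep_eq hK hm (hg.indicator hA) hi
  have h2 : ∫ ω in B, (A.indicator g) ω ∂μ = ∫ ω in B, (μ[A.indicator g|m]) ω ∂μ :=
    (setIntegral_condExp hm (hgi.indicator hAm) hB).symm
  have h3 : ∫ ω in B, (μ[A.indicator g|m]) ω ∂μ = ∫ ω in B, (∫ x, (A.indicator g) x ∂μ) ∂μ :=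
    integral_congr_ae (ae_restrict_of_ae h1)
  have h4 : ∫ ω in A ∩ B, g ω ∂μ = ∫ ω in B, (A.indicator g) ω ∂μ := by
    rw [integral_indicator hAm, Measure.restrict_restrict hAm]
  rw [h4, h2, h3, setIntegral_const, integral_indicator hAm, smul_eq_mul]

/-- the π-system generating `H ⊔ m` -/
def pis (H m : MeasurableSpace Ω) : Set (Set Ω) :=
  {s | ∃ A B : Set Ω, MeasurableSet[H] A ∧ MeasurableSet[m] B ∧ s = A ∩ B}

theorem pis_pi (H m : MeasurableSpace Ω) : IsPiSystem (pis H m) := by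
  rintro _ ⟨A, B, hA, hB, rfl⟩ _ ⟨A', B', hA', hB', rfl⟩ _
  exact ⟨A ∩ A', B ∩ B', hA.inter hA', hB.inter hB', by
    ext x
    simp only [Set.mem_inter_iff]
    tauto⟩

theorem pis_gen (H m : MeasurableSpace Ω) : H ⊔ m = MeasurableSpace.generateFrom (pis H m) := by
  apply le_antisymm
  · refine sup_le ?_ ?_
    · intro s hs
      exact MeasurableSpace.measurableSet_generateFrom ⟨s, Set.univ, hs, MeasurableSet.univ, by simp⟩
    · intro s hs
      exact MeasurableSpace.measurableSet_generateFrom ⟨Set.univ, s, MeasurableSet.univ, hs, by simp⟩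
  · refine MeasurableSpace.generateFrom_le ?_
    rintro _ ⟨A, B, hA, hB, rfl⟩
    have h1 : MeasurableSet[H ⊔ m] A := (le_sup_left : H ≤ H ⊔ m) _ hA
    have h2 : MeasurableSet[H ⊔ m] B := (le_sup_right : m ≤ H ⊔ m) _ hB
    exact h1.inter h2

/-- adding an independent σ-algebra does not change the conditional expectation -/
theorem cond_sup {H K m : MeasurableSpace Ω} (hHK : H ≤ K) (hK : K ≤ mΩ) (hm : m ≤ mΩ)
    (hi : Indep K m μ) {g : Ω → ℝ} (hg : StronglyMeasurable[K] g) (hgi : Integrable g μ) :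
    μ[g|H] =ᵐ[μ] μ[g|H ⊔ m] := by
  have hH : H ≤ mΩ := hHK.trans hK
  have hHm : H ⊔ m ≤ mΩ := sup_le hH hm
  have hs : StronglyMeasurable[H] (μ[g|H]) := stronglyMeasurable_condExp
  refine ae_eq_condExp_of_forall_setIntegral_eq hHm hgi (fun _ _ _ => integrable_condExp.integrableOn)
    ?_ (hs.mono le_sup_left).aestronglyMeasurable
  intro s hs' _
  refine MeasurableSpace.induction_on_inter
    (C := fun s _ => ∫ x in s, (μ[g|H]) x ∂μ = ∫ x in s, g x ∂μ) (pis_gen H m) (pis_pi H m)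
    ?_ ?_ ?_ ?_ s hs'
  · simp
  · rintro _ ⟨A, B, hA, hB, rfl⟩
    rw [int_inter (mΩ := mΩ) hK hm hi (hs.mono hHK) integrable_condExp (hHK _ hA) hB,
      int_inter (mΩ := mΩ) hK hm hi hg hgi (hHK _ hA) hB, setIntegral_condExp hH hgi hA]
  · intro t ht h
    have h1 : (∫ x in t, (μ[g|H]) x ∂μ) + ∫ x in tᶜ, (μ[g|H]) x ∂μ = ∫ x, (μ[g|H]) x ∂μ :=
      integral_add_compl (hHm _ ht) integrable_condExp
    have h2 : (∫ x in t, g x ∂μ) + ∫ x in tᶜ, g x ∂μ = ∫ x, g x ∂μ :=
      integral_add_compl (hHm _ ht) hgi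
    have h3 := integral_condExp hH (μ := μ) (f := g)
    linarith
  · intro f hd hf h
    rw [integral_iUnion (fun i => hHm _ (hf i)) hd integrable_condExp.integrableOn,
      integral_iUnion (fun i => hHm _ (hf i)) hd hgi.integrableOn]
    exact tsum_congr h

section family

variable {ι : Type} [DecidableEq ι]

/-- the σ-algebra of a finite set of indices -/
@[reducible] def sig (m : ι → MeasurableSpace Ω) (A : Finset ι) : MeasurableSpace Ω := ⨆ x ∈ A, m x

theorem sig_eq (m : ι → MeasurableSpace Ω) (A : Finset ι) : (⨆ x : A, m x) = sig m A := by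
  rw [sig, iSup_subtype']

theorem sig_le {m : ι → MeasurableSpace Ω} (hm : ∀ i, m i ≤ mΩ) (A : Finset ι) : sig m A ≤ mΩ :=
  iSup₂_le fun i _ => hm i

theorem sig_mono (m : ι → MeasurableSpace Ω) {A B : Finset ι} (h : A ⊆ B) : sig m A ≤ sig m B :=
  biSup_mono fun _ hi => h hi

theorem sig_sup (m : ι → MeasurableSpace Ω) {A : Finset ι} {y : ι} (hy : y ∈ A) :
    sig m (A.erase y) ⊔ m y = sig m A := by
  conv_rhs => rw [← Finset.insert_erase hy, sig, Finset.iSup_insert]
  rw [sup_comm]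

theorem sig_empty (m : ι → MeasurableSpace Ω) : sig m ∅ = ⊥ := by
  simp [sig]

theorem sig_indep {m : ι → MeasurableSpace Ω} (hm : ∀ i, m i ≤ mΩ) (hind : iIndep m μ)
    {A : Finset ι} {y : ι} (hy : y ∉ A) : Indep (sig m A) (m y) μ := by
  have h := indep_iSup_of_disjoint hm hind (S := (A : Set ι)) (T := {y}) (by
    rw [Set.disjoint_singleton_right]
    exact_mod_cast hy)
  have e : (⨆ i ∈ ({y} : Set ι), m i) = m y := by simp
  rw [e] at h
  exact h

/-- the induction step for the approximating functions -/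
theorem step {m : ι → MeasurableSpace Ω} (hm : ∀ i, m i ≤ mΩ) (hind : iIndep m μ)
    {A : Finset ι} (a : ι) {y : ι} (hy : y ∈ A) {g : Ω → ℝ}
    (hg : StronglyMeasurable[sig m ((insert a A).erase y)] g) (hgi : Integrable g μ) :
    μ[g|sig m (A.erase y)] =ᵐ[μ] μ[g|sig m A] := by
  have h := cond_sup (μ := μ) (H := sig m (A.erase y)) (K := sig m ((insert a A).erase y))
    (m := m y) (sig_mono m (Finset.erase_subset_erase y (Finset.subset_insert a A)))
    (sig_le hm _) (hm y) (sig_indep hm hind (Finset.notMem_erase y _)) hg hgi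
  rw [sig_sup m hy] at h
  exact h

theorem const_of_bot {f : Ω → ℝ} (hf : StronglyMeasurable[⊥] f) : ∃ c, f = fun _ => c := by
  have := hf
  rcases isEmpty_or_nonempty Ω with h | h
  · exact ⟨0, funext fun x => (h.false x).elim⟩
  · exact stronglyMeasurable_bot_iff.1 hf

end family

end Pool.Agent.T2H99.AW.Cnd
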