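import Mathlib

set_option autoImplicit false

/-!
# Two-type annihilating random walks (MP_0e9fac_pr): definitions and deterministic notation
-/

namespace Pool.Agent.T2H99.AW

open Finset Filter Topology MeasureTheory ProbabilityTheory
open scoped NNReal ENNReal BigOperators

/-- The sites of `ℤ^d`; particles are labelled by their starting site. -/
abbrev Site (d : ℕ) : Type := Fin d → ℤ

/-- The distribution of the discrete time simple symmetric random walk on `ℤ^d` after `n` steps. -/
noncomputable def srw (d : ℕ) : ℕ → Site d → ℝ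
  | 0, x => if x = 0 then 1 else 0
  | n + 1, x => (1 / (2 * (d : ℝ))) *
      ∑ i : Fin d, (srw d n (x - Pi.single i 1) + srw d n (x + Pi.single i 1))

/-- The transition function of the continuous time simple symmetric random walk with rate `1`. -/
noncomputable def heat (d : ℕ) (t : ℝ) (x : Site d) : ℝ :=
  ∑' n : ℕ, Real.exp (-t) * t ^ n / (n.factorial : ℝ) * srw d n x

/-- `red = true` counts `+1`, `blue = false` counts `-1`. -/
noncomputable def sg (b : Bool) : ℝ := if b then 1 else -1

/-- One annihilation: `X` is the set of alive particles, `pos` their new positions. At each site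
as many red-blue pairs as possible are removed; of each colour those with the lexicographically
smallest labels are removed. A particle survives iff there are, at its site, more particles of its
own colour with smaller or equal label than particles of the opposite colour. -/
noncomputable def kill {d : ℕ} (c : Site d → Bool) (pos : Site d → Site d) (X : Finset (Site d)) :
    Finset (Site d) :=
  X.filter fun x =>
    (X.filter fun y => pos y = pos x ∧ c y ≠ c x).card <
      (X.filter fun y => pos y = pos x ∧ c y = c x ∧ toLex y ≤ toLex x).card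

/-- The system on the finite label set `A` observed along a sequence of positions: `P i x` is the
(free) position of the particle with label `x` at step `i`. -/
noncomputable def gAlive {d : ℕ} (c : Site d → Bool) (P : ℕ → Site d → Site d) (A : Finset (Site d)) :
    ℕ → Finset (Site d)
  | 0 => A
  | i + 1 => kill c (P (i + 1)) (gAlive c P A i)

/-- The number of particles of `X` of colour `b` at `z`. -/
noncomputable def cnt {d : ℕ} (c : Site d → Bool) (pos : Site d → Site d) (X : Finset (Site d)) (b : Bool)
    (z : Site d) : ℝ :=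
  ((X.filter fun x => c x = b ∧ pos x = z).card : ℝ)

/-- Red minus blue at `z`. -/
noncomputable def eta {d : ℕ} (c : Site d → Bool) (pos : Site d → Site d) (X : Finset (Site d))
    (z : Site d) : ℝ :=
  cnt c pos X true z - cnt c pos X false z

/-- The signed sum of `φ` over the particles of `X`. -/
noncomputable def tot {d : ℕ} (c : Site d → Bool) (pos : Site d → Site d) (X : Finset (Site d))
    (φ : Site d → ℝ) : ℝ :=
  ∑ x ∈ X, sg (c x) * φ (pos x)

/-- The sum of `φ` over the particles of `X` of colour `b`. -/
noncomputable def wt {d : ℕ} (c : Site d → Bool) (pos : Site d → Site d) (X : Finset (Site d))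
    (b : Bool) (φ : Site d → ℝ) : ℝ :=
  ∑ x ∈ X.filter (fun x => c x = b), φ (pos x)

/-- The system on the finite label set `A` in continuous time; `pos t x` is the free position of
`x` at time `t`. -/
structure IsAnnihilation {d : ℕ} (c : Site d → Bool) (pos : ℝ≥0 → Site d → Site d)
    (A : Finset (Site d)) (alive : ℝ≥0 → Finset (Site d)) : Prop where
  zero : alive 0 = A
  right : ∀ t, ∀ᶠ s in 𝓝[>] t, alive s = alive t
  left : ∀ t, 0 < t → ∀ᶠ s in 𝓝[<] t, alive t = kill c (pos t) (alive s)

/-- `S` is a continuous time simple symmetric random walk with rate `1`, started at `0`. -/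
structure IsWalk {d : ℕ} {Ω : Type} [MeasurableSpace Ω] (μ : Measure Ω)
    (S : ℝ≥0 → Ω → Site d) : Prop where
  meas : ∀ t, Measurable (S t)
  zero : ∀ ω, S 0 ω = 0
  right : ∀ ω t, ∀ᶠ s in 𝓝[>] t, S s ω = S t ω
  left : ∀ ω t, 0 < t → ∃ z, ∀ᶠ s in 𝓝[<] t, S s ω = z
  incr : ∀ s t, s ≤ t → ∀ z, μ {ω | S t ω - S s ω = z} = ENNReal.ofReal (heat d (t - s) z)
  indep : ∀ s t, s ≤ t →
    Indep (⨆ u : Set.Iic s, MeasurableSpace.comap (S u) inferInstance)
      (MeasurableSpace.comap (fun ω => S t ω - S s ω) inferInstance) μ

/-- Independent Bernoulli colours (`true` = red has probability `p`) and independent walks. -/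
structure Setup {d : ℕ} {Ω : Type} [MeasurableSpace Ω] (μ : Measure Ω) (p : ℝ)
    (c : Site d → Ω → Bool) (S : Site d → ℝ≥0 → Ω → Site d) : Prop where
  cmeas : ∀ x, Measurable (c x)
  cprob : ∀ x, μ {ω | c x ω = true} = ENNReal.ofReal p
  walk : ∀ x, IsWalk μ (S x)
  indep : iIndep (fun j : Site d ⊕ Site d =>
    Sum.elim (fun x => MeasurableSpace.comap (c x) inferInstance)
      (fun x => ⨆ t : ℝ≥0, MeasurableSpace.comap (S x t) inferInstance) j) μ

/-- The position of particle `x` at time `t`. -/
def posn {d : ℕ} {Ω : Type} (S : Site d → ℝ≥0 → Ω → Site d) (ω : Ω) (t : ℝ≥0) (x : Site d) :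
    Site d := x + S x t ω

/-- Positions along the grid of mesh `2^{-m}`. -/
noncomputable def gpos {d : ℕ} {Ω : Type} (S : Site d → ℝ≥0 → Ω → Site d) (m : ℕ) (ω : Ω)
    (i : ℕ) (x : Site d) : Site d := posn S ω ((i : ℝ≥0) / 2 ^ m) x

/-- The alive set of the grid system of mesh `2^{-m}` after `i` steps. -/
noncomputable def ga {d : ℕ} {Ω : Type} (c : Site d → Ω → Bool) (S : Site d → ℝ≥0 → Ω → Site d)
    (m : ℕ) (A : Finset (Site d)) (i : ℕ) (ω : Ω) : Finset (Site d) :=
  gAlive (fun x => c x ω) (gpos S m ω) A i

/-- The information carried by the labels in `A` up to time `s`. -/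
@[reducible] def hist {d : ℕ} {Ω : Type} (c : Site d → Ω → Bool) (S : Site d → ℝ≥0 → Ω → Site d)
    (A : Set (Site d)) (s : ℝ≥0) : MeasurableSpace Ω :=
  ⨆ x : A, (MeasurableSpace.comap (c x) inferInstance) ⊔
    ⨆ u : Set.Iic s, MeasurableSpace.comap (S x u) inferInstance

/-- The information carried by the label `x`. -/
@[reducible] def lab {d : ℕ} {Ω : Type} (c : Site d → Ω → Bool) (S : Site d → ℝ≥0 → Ω → Site d)
    (x : Site d) : MeasurableSpace Ω :=
  (MeasurableSpace.comap (c x) inferInstance) ⊔
    ⨆ u : ℝ≥0, MeasurableSpace.comap (S x u) inferInstance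

/-- The heat semigroup. -/
noncomputable def Pt {d : ℕ} (t : ℝ) (φ : Site d → ℝ) (y : Site d) : ℝ :=
  ∑' z : Site d, heat d t z * φ (y + z)

end Pool.Agent.T2H99.AW
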