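import Pool.Agent.T2H99.AW.Cnd

set_option autoImplicit false
set_option linter.unusedSectionVars false

/-!
# AW, package ES (Efron-Stein) for independent σ-algebras

Proof of ES, by induction on `A`: let `A = insert a A'`, `G = ⨆ x ∈ A', m x`, `u = E[f | G]`.
`Var f = E (f-u)^2 + Var u`, and `E (f-u)^2 ≤ E (f - g a)^2` because `g a` is `G`-measurable and `u` is
the best `G`-measurable approximation. For `y ∈ A'` let `u_y = E[g y | G]`; since `m a`, `m y` and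
`H_y = ⨆ x ∈ A'.erase y, m x` are independent and `g y` is `m a ⊔ H_y`-measurable, `u_y = E[g y | H_y]`
is `H_y`-measurable (a.e. equal to such a function), and `E (u - u_y)^2 ≤ E (f - g y)^2` (Jensen).
The induction hypothesis gives `Var u ≤ ∑_{y ∈ A'} E (u - u_y)^2`.
-/

namespace Pool.Agent.T2H99.AW

open MeasureTheory ProbabilityTheory Finset

namespace Cnd

variable {Ω : Type} [mΩ : MeasurableSpace Ω] {μ : Measure Ω} [IsProbabilityMeasure μ]

/-- Pythagoras -/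
theorem pyth {m : MeasurableSpace Ω} (hm : m ≤ mΩ) {f W : Ω → ℝ} {C : ℝ} (hf : AEStronglyMeasurable[mΩ] f μ)
    (hfb : ∀ᵐ ω ∂μ, |f ω| ≤ C) (hW : StronglyMeasurable[m] W) (hWb : ∀ᵐ ω ∂μ, |W ω| ≤ C) :
    ∫ ω, (f ω - W ω) ^ 2 ∂μ = ∫ ω, (f ω - (μ[f|m]) ω) ^ 2 ∂μ + ∫ ω, ((μ[f|m]) ω - W ω) ^ 2 ∂μ := by
  have hfi : Integrable f μ := Integrable.of_bound hf C (by simpa using hfb)
  have hs : StronglyMeasurable[m] (μ[f|m]) := stronglyMeasurable_condExp
  have hb := bdd_cond (mΩ := mΩ) (μ := μ) m hfb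
  have hsm := (hs.mono hm).aestronglyMeasurable (μ := μ)
  have hWm := (hW.mono hm).aestronglyMeasurable (μ := μ)
  have hd : StronglyMeasurable[m] (fun ω => (μ[f|m]) ω - W ω) := hs.sub hW
  have hdb : ∀ᵐ ω ∂μ, |(μ[f|m]) ω - W ω| ≤ C + C := by
    filter_upwards [hb, hWb] with ω h1 h2
    exact (abs_sub _ _).trans (add_le_add h1 h2)
  have h1 := ort (mΩ := mΩ) hm hfi hd hdb
  have i1 : Integrable (fun ω => f ω * ((μ[f|m]) ω - W ω)) μ :=
    hfi.mul_bdd (c := C + C) (hsm.sub hWm) (by simpa using hdb)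
  have i2 : Integrable (fun ω => (μ[f|m]) ω * ((μ[f|m]) ω - W ω)) μ :=
    integrable_condExp.mul_bdd (c := C + C) (hsm.sub hWm) (by simpa using hdb)
  have i3 : Integrable (fun ω => (f ω - (μ[f|m]) ω) ^ 2) μ := by
    refine Integrable.of_bound ((hf.sub hsm).pow 2) ((C + C) ^ 2) ?_
    filter_upwards [hb, hfb] with ω h1 h2
    rw [Real.norm_eq_abs, abs_pow]
    exact pow_le_pow_left₀ (abs_nonneg _) ((abs_sub _ _).trans (add_le_add h2 h1)) 2
  have i4 : Integrable (fun ω => ((μ[f|m]) ω - W ω) ^ 2) μ := by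
    refine Integrable.of_bound ((hsm.sub hWm).pow 2) ((C + C) ^ 2) ?_
    filter_upwards [hdb] with ω h1
    rw [Real.norm_eq_abs, abs_pow]
    exact pow_le_pow_left₀ (abs_nonneg _) h1 2
  have e : ∀ ω, (f ω - W ω) ^ 2 = (f ω - (μ[f|m]) ω) ^ 2 + ((μ[f|m]) ω - W ω) ^ 2 +
      2 * (f ω * ((μ[f|m]) ω - W ω) - (μ[f|m]) ω * ((μ[f|m]) ω - W ω)) := by
    intro ω
    ring
  have k1 := integral_add (i3.add i4) ((i1.sub i2).const_mul 2)
  have k2 := integral_add i3 i4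
  have k3 := integral_sub i1 i2
  simp only [Pi.add_apply, Pi.sub_apply] at k1
  simp only [e]
  rw [k1, k2, integral_const_mul, k3, h1]
  ring

/-- Jensen -/
theorem jens {m : MeasurableSpace Ω} (hm : m ≤ mΩ) {f : Ω → ℝ} {C : ℝ}
    (hf : AEStronglyMeasurable[mΩ] f μ) (hfb : ∀ᵐ ω ∂μ, |f ω| ≤ C) (hC : 0 ≤ C) :
    ∫ ω, ((μ[f|m]) ω) ^ 2 ∂μ ≤ ∫ ω, (f ω) ^ 2 ∂μ := by
  have h := pyth (mΩ := mΩ) hm hf hfb (W := fun _ => 0) stronglyMeasurable_const (by simpa using hC)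
  simp only [sub_zero] at h
  have h2 : 0 ≤ ∫ ω, (f ω - (μ[f|m]) ω) ^ 2 ∂μ := integral_nonneg fun _ => sq_nonneg _
  linarith

variable {ι : Type} [DecidableEq ι]

theorem es {m : ι → MeasurableSpace Ω} (hm : ∀ i, m i ≤ mΩ) (hind : iIndep m μ) {C : ℝ}
    (hC : 0 ≤ C) (A : Finset ι) : ∀ (f : Ω → ℝ) (g : ι → Ω → ℝ), StronglyMeasurable[sig m A] f →
    (∀ᵐ ω ∂μ, |f ω| ≤ C) → (∀ y ∈ A, StronglyMeasurable[sig m (A.erase y)] (g y)) →
    (∀ y ∈ A, ∀ᵐ ω ∂μ, |g y ω| ≤ C) →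
    ∫ ω, (f ω - ∫ ω', f ω' ∂μ) ^ 2 ∂μ ≤ ∑ y ∈ A, ∫ ω, (f ω - g y ω) ^ 2 ∂μ := by
  induction A using Finset.induction_on with
  | empty =>
    intro f g hf _ _ _
    rw [sig_empty] at hf
    obtain ⟨c, rfl⟩ := const_of_bot hf
    simp
  | insert a A ha ih =>
    intro f g hf hfb hg hgb
    have hG := sig_le hm A
    have hfm := (hf.mono (sig_le hm _)).aestronglyMeasurable (μ := μ)
    have hfi := int_of_bdd (sig_le hm _) hf hfb
    set u : Ω → ℝ := μ[f|sig m A] with hu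
    have hus : StronglyMeasurable[sig m A] u := stronglyMeasurable_condExp
    have hub : ∀ᵐ ω ∂μ, |u ω| ≤ C := bdd_cond _ hfb
    have hmean : ∫ ω, u ω ∂μ = ∫ ω, f ω ∂μ := integral_condExp hG
    have hfa : |∫ ω, f ω ∂μ| ≤ C := by
      have h := norm_integral_le_of_norm_le_const (μ := μ) (f := f) (C := C) (by simpa using hfb)
      simpa using h
    -- the last variable
    have hga : StronglyMeasurable[sig m A] (g a) := by
      have := hg a (Finset.mem_insert_self a A)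
      rwa [Finset.erase_insert ha] at this
    have h1 := pyth hG hfm hfb hga (hgb a (Finset.mem_insert_self a A))
    have h2 := pyth hG hfm hfb (W := fun _ => ∫ ω, f ω ∂μ) stronglyMeasurable_const
      (Filter.Eventually.of_forall fun _ => hfa)
    have h3 : 0 ≤ ∫ ω, ((μ[f|sig m A]) ω - g a ω) ^ 2 ∂μ := integral_nonneg fun _ => sq_nonneg _
    -- the others
    have h4 := ih u (fun y => μ[g y|sig m (A.erase y)]) hus hub
      (fun y _ => stronglyMeasurable_condExp)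
      (fun y hy => bdd_cond _ (hgb y (Finset.mem_insert_of_mem hy)))
    have h5 : ∑ y ∈ A, ∫ ω, (u ω - (μ[g y|sig m (A.erase y)]) ω) ^ 2 ∂μ ≤
        ∑ y ∈ A, ∫ ω, (f ω - g y ω) ^ 2 ∂μ := by
      refine Finset.sum_le_sum fun y hy => ?_
      have hy' := Finset.mem_insert_of_mem (a := y) (b := a) hy
      have hgy := hg y hy'
      have hgi := int_of_bdd (sig_le hm _) hgy (hgb y hy')
      have hgm := (hgy.mono (sig_le hm _)).aestronglyMeasurable (μ := μ)
      have hs := step hm hind a hy hgy hgi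
      have hsub := condExp_sub (m := sig m A) hfi hgi
      have hfg : ∀ᵐ ω ∂μ, |(f - g y) ω| ≤ C + C := by
        filter_upwards [hfb, hgb y hy'] with ω a1 a2
        exact (abs_sub _ _).trans (add_le_add a1 a2)
      have hj := jens (μ := μ) hG (hfm.sub hgm) hfg (by linarith)
      calc ∫ ω, (u ω - (μ[g y|sig m (A.erase y)]) ω) ^ 2 ∂μ
          = ∫ ω, ((μ[f - g y|sig m A]) ω) ^ 2 ∂μ := by
            refine integral_congr_ae ?_
            filter_upwards [hs, hsub] with ω a1 a2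
            rw [a2, a1, Pi.sub_apply]
        _ ≤ _ := hj
    rw [hmean] at h4
    rw [Finset.sum_insert ha]
    linarith

end Cnd

/-- ES (package ES). -/
theorem efron_stein {Ω ι : Type} [mΩ : MeasurableSpace Ω] [DecidableEq ι] (μ : Measure Ω)
    [IsProbabilityMeasure μ] (m : ι → MeasurableSpace Ω) (hm : ∀ i, m i ≤ mΩ) (hind : iIndep m μ)
    (A : Finset ι) (f : Ω → ℝ) (g : ι → Ω → ℝ) (C : ℝ) (hf : Measurable[⨆ x : A, m x] f)
    (hfb : ∀ ω, |f ω| ≤ C) (hg : ∀ y ∈ A, Measurable[⨆ x : (A.erase y : Finset ι), m x] (g y))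
    (hgb : ∀ y ω, |g y ω| ≤ C) :
    ∫ ω, (f ω - ∫ ω', f ω' ∂μ) ^ 2 ∂μ ≤ ∑ y ∈ A, ∫ ω, (f ω - g y ω) ^ 2 ∂μ := by
  have hne : Nonempty Ω := nonempty_of_isProbabilityMeasure μ
  obtain ⟨ω₀⟩ := hne
  have hC : 0 ≤ C := (abs_nonneg _).trans (hfb ω₀)
  refine Cnd.es hm hind hC A f g ?_ (Filter.Eventually.of_forall hfb) ?_
    (fun y _ => Filter.Eventually.of_forall (hgb y))
  · rw [Cnd.sig_eq] at hf
    exact Measurable.stronglyMeasurable hf
  · intro y hy
    have h := hg y hy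
    rw [Cnd.sig_eq] at h
    exact Measurable.stronglyMeasurable h

end Pool.Agent.T2H99.AW
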