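import Pool.Agent.T2H99.AW.HK1
import Pool.Agent.Helper52.TriProc

set_option autoImplicit false

/-!
# AW, package EX1 (optional): existence of the continuous time simple random walk

I.i.d. exponential waiting times `(ω k).1` and i.i.d. uniform steps `stp (ω k).2`; the independence of the
increments is the semigroup property `Us_semigroup` of `Helper52.Tri` for the process that records its path.
-/

namespace Pool.Agent.T2H99.AW

open MeasureTheory ProbabilityTheory Filter Topology
open scoped NNReal ENNReal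

namespace EX1

open Pool.Agent.Helper52.Tri

variable {d : ℕ}

/-- a step -/
def stp (k : Fin d × Bool) : Site d := if k.2 then Pi.single k.1 1 else -Pi.single k.1 1

/-- states: time, position, recorded path -/
abbrev YY (d : ℕ) : Type := ℝ × Site d × (ℝ → Site d)

/-- drift -/
noncomputable def drY (y : YY d) (a : ℝ) : YY d :=
  (y.1 + a, y.2.1, fun u => if y.1 ≤ u ∧ u < y.1 + a then y.2.1 else y.2.2 u)

/-- jump -/
def jnY (y : YY d) (k : Fin d × Bool) : YY d := (y.1, y.2.1 + stp k, y.2.2)

/-- the sequence space -/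
abbrev Om (d : ℕ) : Type := ℕ → ℝ × (Fin d × Bool)

/-- position after `n` steps -/
noncomputable def pn (ω : Om d) (n : ℕ) : Site d := ∑ k ∈ Finset.range n, stp (ω k).2

/-- position at time `t` -/
noncomputable def pos (ω : Om d) (t : ℝ) : Site d := pn ω (count ω t)

/-- the good sequences -/
structure Good (ω : Om d) : Prop where
  pos : ∀ n, 0 < (ω n).1
  top : ∀ T : ℕ, ∃ k, (T : ℝ) < arr ω (k + 1)

theorem arr_succ (ω : Om d) (n : ℕ) : arr ω (n + 1) = arr ω n + (ω n).1 := by
  unfold arr
  rw [Finset.sum_range_succ]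

theorem pn_succ (ω : Om d) (n : ℕ) : pn ω (n + 1) = pn ω n + stp (ω n).2 := by
  unfold pn
  rw [Finset.sum_range_succ]

theorem Good.mono {ω : Om d} (h : Good ω) : StrictMono (arr ω) :=
  strictMono_nat_of_lt_succ fun n => by
    rw [arr_succ]
    have := h.pos n
    linarith

theorem Good.top' {ω : Om d} (h : Good ω) (t : ℝ) : ∃ k, t < arr ω (k + 1) := by
  obtain ⟨T, hT⟩ := exists_nat_gt t
  obtain ⟨k, hk⟩ := h.top T
  exact ⟨k, hT.trans hk⟩

theorem Good.count_eq {ω : Om d} (h : Good ω) {n : ℕ} {v : ℝ} (h1 : arr ω n ≤ v)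
    (h2 : v < arr ω (n + 1)) : count ω v = n := by
  unfold count
  apply le_antisymm
  · exact Nat.sInf_le h2
  · have hne : {n : ℕ | v < arr ω (n + 1)}.Nonempty := ⟨n, h2⟩
    have h3 : v < arr ω (sInf {n : ℕ | v < arr ω (n + 1)} + 1) := Nat.sInf_mem hne
    by_contra hlt
    push Not at hlt
    have h4 := h.mono.monotone (show sInf {n : ℕ | v < arr ω (n + 1)} + 1 ≤ n by omega)
    linarith

theorem Good.count_spec {ω : Om d} (h : Good ω) {v : ℝ} (hv : 0 ≤ v) :
    arr ω (count ω v) ≤ v ∧ v < arr ω (count ω v + 1) := by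
  have hne : {n : ℕ | v < arr ω (n + 1)}.Nonempty := h.top' v
  refine ⟨?_, Nat.sInf_mem hne⟩
  by_contra hlt
  push Not at hlt
  rcases Nat.eq_zero_or_pos (count ω v) with h0 | h0
  · rw [h0, arr_zero] at hlt
    linarith
  · have h1 : count ω v - 1 ∈ {n : ℕ | v < arr ω (n + 1)} := by
      show v < arr ω (count ω v - 1 + 1)
      rw [Nat.sub_add_cancel h0]
      exact hlt
    have h2 : count ω v ≤ count ω v - 1 := Nat.sInf_le h1
    omega

theorem Good.pos_zero {ω : Om d} (h : Good ω) : EX1.pos ω 0 = 0 := by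
  have h1 : count ω 0 = 0 := h.count_eq (by rw [arr_zero]) (by
    rw [arr_succ, arr_zero, zero_add]
    exact h.pos 0)
  unfold EX1.pos pn
  rw [h1, Finset.sum_range_zero]

theorem gafter_eq {ω : Om d} (h : Good ω) (r : ℝ) (w : Site d) (f : ℝ → Site d) (n : ℕ) :
    gafter drY jnY (r, w, f) ω n = (r + arr ω n, w + pn ω n,
      fun u => if r ≤ u ∧ u < r + arr ω n then w + pos ω (u - r) else f u) := by
  induction n with
  | zero =>
    simp only [gafter, arr_zero, pn, Finset.sum_range_zero, add_zero]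
    refine Prod.ext rfl (Prod.ext rfl ?_)
    funext u
    dsimp only
    rw [if_neg]
    rintro ⟨h1, h2⟩
    linarith
  | succ n ih =>
    rw [gafter, ih]
    have hp := h.pos n
    have ha : 0 ≤ arr ω n := by
      have := h.mono.monotone (Nat.zero_le n)
      rwa [arr_zero] at this
    refine Prod.ext ?_ (Prod.ext ?_ ?_)
    · simp only [jnY, drY]
      rw [arr_succ, add_assoc]
    · simp only [jnY, drY]
      rw [pn_succ, add_assoc]
    · simp only [jnY, drY]
      funext u
      rw [arr_succ]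
      by_cases h1 : r + arr ω n ≤ u ∧ u < r + arr ω n + (ω n).1
      · rw [if_pos h1, if_pos ⟨by linarith, by linarith [h1.2]⟩]
        have h2 : count ω (u - r) = n := h.count_eq (by linarith [h1.1])
          (by rw [arr_succ]; linarith [h1.2])
        unfold pos
        rw [h2]
      · rw [if_neg h1]
        by_cases h2 : r ≤ u ∧ u < r + arr ω n
        · rw [if_pos h2, if_pos ⟨h2.1, by linarith [h2.2]⟩]
        · rw [if_neg h2, if_neg]
          rintro ⟨h3, h4⟩
          rcases lt_or_ge u (r + arr ω n) with h5 | h5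
          · exact h2 ⟨h3, h5⟩
          · exact h1 ⟨h5, by linarith⟩

theorem gW_eq {ω : Om d} (h : Good ω) (r : ℝ) (w : Site d) (f : ℝ → Site d) {t : ℝ} (ht : 0 ≤ t) :
    gW drY jnY (r, w, f) ω t = (r + t, w + pos ω t,
      fun u => if r ≤ u ∧ u < r + t then w + pos ω (u - r) else f u) := by
  unfold gW
  rw [gafter_eq h]
  obtain ⟨h1, h2⟩ := h.count_spec ht
  have ha : 0 ≤ arr ω (count ω t) := by
    have := h.mono.monotone (Nat.zero_le (count ω t))
    rwa [arr_zero] at this
  refine Prod.ext ?_ (Prod.ext ?_ ?_)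
  · simp only [drY]
    ring
  · simp only [drY, pos]
  · simp only [drY]
    funext u
    by_cases h3 : r + arr ω (count ω t) ≤ u ∧ u < r + arr ω (count ω t) + (t - arr ω (count ω t))
    · rw [if_pos h3, if_pos ⟨by linarith [h3.1], by linarith [h3.2]⟩]
      have h4 : count ω (u - r) = count ω t := h.count_eq (by linarith [h3.1])
          (by linarith [h3.2])
      unfold pos
      rw [h4]
    · rw [if_neg h3]
      by_cases h4 : r ≤ u ∧ u < r + arr ω (count ω t)
      · rw [if_pos h4, if_pos ⟨h4.1, by linarith [h4.2]⟩]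
      · rw [if_neg h4, if_neg]
        rintro ⟨h5, h6⟩
        rcases lt_or_ge u (r + arr ω (count ω t)) with h7 | h7
        · exact h4 ⟨h5, h7⟩
        · exact h3 ⟨h7, by linarith⟩

theorem flowY (x : YY d) (s t : ℝ) (hs : 0 ≤ s) (ht : 0 ≤ t) :
    drY (drY x s) t = drY x (s + t) := by
  obtain ⟨r, w, f⟩ := x
  refine Prod.ext ?_ (Prod.ext rfl ?_)
  · show r + s + t = r + (s + t)
    ring
  · show (fun u => if r + s ≤ u ∧ u < r + s + t then w else if r ≤ u ∧ u < r + s then w else f u) =
      (fun u => if r ≤ u ∧ u < r + (s + t) then w else f u)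
    funext u
    by_cases h1 : r + s ≤ u ∧ u < r + s + t
    · rw [if_pos h1, if_pos ⟨by linarith [h1.1], by linarith [h1.2]⟩]
    · rw [if_neg h1]
      by_cases h2 : r ≤ u ∧ u < r + s
      · rw [if_pos h2, if_pos ⟨h2.1, by linarith [h2.2]⟩]
      · rw [if_neg h2, if_neg]
        rintro ⟨h3, h4⟩
        rcases lt_or_ge u (r + s) with h5 | h5
        · exact h2 ⟨h3, h5⟩
        · exact h1 ⟨h5, by linarith⟩

/-! ### Paths -/

theorem Good.right {ω : Om d} (h : Good ω) {t : ℝ} (ht : 0 ≤ t) {s : ℝ} (hs : t ≤ s)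
    (hs' : s < arr ω (count ω t + 1)) : EX1.pos ω s = EX1.pos ω t := by
  unfold EX1.pos
  rw [h.count_eq (n := count ω t) ((h.count_spec ht).1.trans hs) hs']

theorem Good.left {ω : Om d} (h : Good ω) {t : ℝ} (ht : 0 < t) :
    ∃ (a : ℝ) (z : Site d), 0 ≤ a ∧ a < t ∧ ∀ s, a ≤ s → s < t → EX1.pos ω s = z := by
  obtain ⟨h1, h2⟩ := h.count_spec ht.le
  have ha : ∀ n, 0 ≤ arr ω n := fun n => by
    have := h.mono.monotone (Nat.zero_le n)
    rwa [arr_zero] at this
  rcases h1.lt_or_eq with h3 | h3
  · refine ⟨arr ω (count ω t), pn ω (count ω t), ha _, h3, fun s hs hs' => ?_⟩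
    unfold EX1.pos
    rw [h.count_eq hs (hs'.trans h2)]
  · obtain ⟨n, hn⟩ : ∃ n, count ω t = n + 1 := by
      refine ⟨count ω t - 1, ?_⟩
      have : count ω t ≠ 0 := by
        intro h0
        rw [h0, arr_zero] at h3
        linarith
      omega
    rw [hn] at h3
    refine ⟨arr ω n, pn ω n, ha _, ?_, fun s hs hs' => ?_⟩
    · rw [← h3]
      exact h.mono (Nat.lt_succ_self n)
    · unfold EX1.pos
      rw [h.count_eq hs (by rw [h3]; exact hs')]

/-! ### Measurability -/

theorem measurable_drY : Measurable (fun p : YY d × ℝ => drY p.1 p.2) := by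
  have h1 : Measurable (fun p : YY d × ℝ => p.1.1) := measurable_fst.comp measurable_fst
  have h2 : Measurable (fun p : YY d × ℝ => p.2) := measurable_snd
  have h3 : Measurable (fun p : YY d × ℝ => p.1.2.1) :=
    measurable_fst.comp (measurable_snd.comp measurable_fst)
  have h4 : ∀ u : ℝ, Measurable (fun p : YY d × ℝ => p.1.2.2 u) := fun u =>
    (measurable_pi_apply u).comp (measurable_snd.comp (measurable_snd.comp measurable_fst))
  refine (h1.add h2).prodMk (h3.prodMk ?_)
  refine measurable_pi_iff.2 fun u => ?_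
  refine Measurable.ite ?_ h3 (h4 u)
  exact (measurableSet_le h1 measurable_const).inter
    (measurableSet_lt measurable_const (h1.add h2))

theorem measurable_jnY : Measurable (fun p : YY d × (Fin d × Bool) => jnY p.1 p.2) := by
  have h1 : Measurable (fun p : YY d × (Fin d × Bool) => p.1.1) := measurable_fst.comp measurable_fst
  have h3 : Measurable (fun p : YY d × (Fin d × Bool) => p.1.2.1) :=
    measurable_fst.comp (measurable_snd.comp measurable_fst)
  have h4 : Measurable (fun p : YY d × (Fin d × Bool) => p.1.2.2) :=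
    measurable_snd.comp (measurable_snd.comp measurable_fst)
  have h5 : Measurable (fun p : YY d × (Fin d × Bool) => stp p.2) :=
    (Measurable.of_discrete (f := (stp : Fin d × Bool → Site d))).comp measurable_snd
  exact h1.prodMk ((h3.add h5).prodMk h4)

theorem measurable_pos (t : ℝ) : Measurable (fun ω : Om d => pos ω t) := by
  have h1 : ∀ n, Measurable (fun ω : Om d => pn ω n) := by
    intro n
    unfold pn
    refine Finset.measurable_fun_sum _ fun k _ => ?_
    exact (Measurable.of_discrete (f := (stp : Fin d × Bool → Site d))).comp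
      (measurable_snd.comp (measurable_pi_apply k))
  have h2 : Measurable (fun ω : Om d => count ω t) := measurable_count t
  have h3 : Measurable (fun p : Om d × ℕ => pn p.1 p.2) := measurable_from_prod_countable_left h1
  exact h3.comp (measurable_id.prodMk h2)

theorem measurableSet_good : MeasurableSet {ω : Om d | Good ω} := by
  have e : {ω : Om d | Good ω} = (⋂ n, {ω : Om d | 0 < (ω n).1}) ∩
      ⋂ T : ℕ, ⋃ k, {ω : Om d | (T : ℝ) < arr ω (k + 1)} := by
    ext ω
    simp only [Set.mem_inter_iff, Set.mem_iInter, Set.mem_iUnion]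
    exact ⟨fun h => ⟨h.pos, h.top⟩, fun h => ⟨h.1, h.2⟩⟩
  rw [e]
  refine (MeasurableSet.iInter fun n => ?_).inter (MeasurableSet.iInter fun T =>
    MeasurableSet.iUnion fun k => ?_)
  · exact measurableSet_lt measurable_const (measurable_fst.comp (measurable_pi_apply n))
  · exact measurableSet_lt measurable_const (measurable_arr (k + 1))

section law

variable {μK : Measure (Fin d × Bool)} [IsProbabilityMeasure μK]

/-- the law of the sequence -/
noncomputable def PP (μK : Measure (Fin d × Bool)) : Measure (Om d) :=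
  Measure.infinitePi (fun _ : ℕ => (expMeasure 1).prod μK)

theorem PP_prob (μK : Measure (Fin d × Bool)) [IsProbabilityMeasure μK] :
    IsProbabilityMeasure (PP μK) := by
  have hp := isProbabilityMeasure_expMeasure one_pos
  unfold PP
  infer_instance

theorem good_ae : ∀ᵐ ω ∂(PP μK), Good ω := by
  have hp := isProbabilityMeasure_expMeasure one_pos
  have h1 : ∀ n : ℕ, ∀ᵐ ω ∂(PP μK), 0 < (ω n).1 := by
    intro n
    have h2 := ae_fst_pos (μK := μK) (lam := 1) one_pos
    have h3 : MeasurePreserving (fun ω : Om d => ω n) (PP μK) ((expMeasure 1).prod μK) :=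
      measurePreserving_eval_infinitePi (fun _ : ℕ => (expMeasure 1).prod μK) n
    exact h3.quasiMeasurePreserving.ae h2
  have h4 : ∀ T : ℕ, ∀ᵐ ω ∂(PP μK), ∃ k, (T : ℝ) < arr ω (k + 1) := fun T =>
    hex (μK := μK) (lam := 1) one_pos T
  filter_upwards [ae_all_iff.2 h1, ae_all_iff.2 h4] with ω h5 h6
  exact ⟨h5, h6⟩

/-- initial state -/
def x0 (d : ℕ) : YY d := (0, 0, fun _ => 0)

/-- the state at time `s` read off from the recorded path -/
noncomputable def rho (s : ℝ) (y : YY d) : YY d := (s, y.2.2 s, fun u => if u < s then y.2.2 u else 0)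

/-- increment since time `s` -/
def sig (s : ℝ) (y : YY d) : Site d := y.2.1 - y.2.2 s

omit [IsProbabilityMeasure μK] in
theorem gW0 {ω : Om d} (h : Good ω) {s : ℝ} (hs : 0 ≤ s) :
    gW drY jnY (x0 d) ω s = (s, pos ω s, fun u => if 0 ≤ u ∧ u < s then pos ω u else 0) := by
  unfold x0
  rw [gW_eq h _ _ _ hs]
  refine Prod.ext (zero_add s) (Prod.ext (zero_add _) ?_)
  funext u
  show (if 0 ≤ u ∧ u < 0 + s then 0 + pos ω (u - 0) else 0) = if 0 ≤ u ∧ u < s then pos ω u else 0
  rw [zero_add, zero_add, sub_zero]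

theorem measurable_rho (s : ℝ) : Measurable (rho s : YY d → YY d) := by
  have h4 : ∀ u : ℝ, Measurable (fun p : YY d => p.2.2 u) := fun u =>
    (measurable_pi_apply u).comp (measurable_snd.comp measurable_snd)
  refine measurable_const.prodMk ((h4 s).prodMk (measurable_pi_iff.2 fun u => ?_))
  by_cases hu : u < s
  · simpa only [if_pos hu] using h4 u
  · simpa only [if_neg hu] using measurable_const

theorem measurable_sig (s : ℝ) : Measurable (sig s : YY d → Site d) := by
  have h3 : Measurable (fun p : YY d => p.2.1) := measurable_fst.comp measurable_snd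
  have h4 : Measurable (fun p : YY d => p.2.2 s) :=
    (measurable_pi_apply s).comp (measurable_snd.comp measurable_snd)
  exact h3.sub h4

theorem rho_step {ω' : Om d} (h' : Good ω') {s h : ℝ} (hh : 0 < h) (w : Site d) (F : ℝ → Site d)
    (hF : ∀ u, s ≤ u → F u = 0) : rho s (gW drY jnY (s, w, F) ω' h) = (s, w, F) := by
  rw [gW_eq h' _ _ _ hh.le]
  refine Prod.ext rfl (Prod.ext ?_ ?_)
  · show (if s ≤ s ∧ s < s + h then w + pos ω' (s - s) else F s) = w
    rw [if_pos ⟨le_rfl, by linarith⟩, sub_self, h'.pos_zero, add_zero]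
  · funext u
    show (if u < s then (if s ≤ u ∧ u < s + h then w + pos ω' (u - s) else F u) else 0) = F u
    by_cases hu : u < s
    · rw [if_pos hu, if_neg]
      rintro ⟨h1, _⟩
      linarith
    · rw [if_neg hu, hF u (not_lt.1 hu)]

theorem sig_step {ω' : Om d} (h' : Good ω') {s h : ℝ} (hh : 0 < h) (w : Site d) (F : ℝ → Site d) :
    sig s (gW drY jnY (s, w, F) ω' h) = pos ω' h := by
  rw [gW_eq h' _ _ _ hh.le]
  show w + pos ω' h - (if s ≤ s ∧ s < s + h then w + pos ω' (s - s) else F s) = pos ω' h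
  rw [if_pos ⟨le_rfl, by linarith⟩, sub_self, h'.pos_zero, add_zero, add_sub_cancel_left]

theorem rho_zero {ω : Om d} (h : Good ω) {s r : ℝ} (hs : 0 ≤ s) (hr : 0 < r) :
    rho s (gW drY jnY (x0 d) ω (s + r)) = gW drY jnY (x0 d) ω s := by
  rw [gW0 h (by linarith), gW0 h hs]
  refine Prod.ext rfl (Prod.ext ?_ ?_)
  · show (if 0 ≤ s ∧ s < s + r then pos ω s else 0) = pos ω s
    rw [if_pos ⟨hs, by linarith⟩]
  · funext u
    show (if u < s then (if 0 ≤ u ∧ u < s + r then pos ω u else 0) else 0) =
      if 0 ≤ u ∧ u < s then pos ω u else 0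
    by_cases hu : u < s
    · rw [if_pos hu]
      by_cases h0 : 0 ≤ u
      · rw [if_pos ⟨h0, by linarith⟩, if_pos ⟨h0, hu⟩]
      · rw [if_neg fun h => h0 h.1, if_neg fun h => h0 h.1]
    · rw [if_neg hu, if_neg fun h => hu h.2]

theorem sig_zero {ω : Om d} (h : Good ω) {s r : ℝ} (hs : 0 ≤ s) (hr : 0 < r) :
    sig s (gW drY jnY (x0 d) ω (s + r)) = pos ω (s + r) - pos ω s := by
  rw [gW0 h (by linarith)]
  show pos ω (s + r) - (if 0 ≤ s ∧ s < s + r then pos ω s else 0) = _
  rw [if_pos ⟨hs, by linarith⟩]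

/-- The Markov property with the whole past. -/
theorem main_id {s h : ℝ} (hs : 0 ≤ s) (hh : 0 < h) {A : Set (YY d)} (hA : MeasurableSet A)
    (B : Set (Site d)) :
    PP μK {ω | gW drY jnY (x0 d) ω s ∈ A ∧ pos ω (s + h) - pos ω s ∈ B} =
      PP μK {ω | gW drY jnY (x0 d) ω s ∈ A} * PP μK {ω | pos ω h ∈ B} := by
  classical
  have hprob := PP_prob μK
  have hB : MeasurableSet B := MeasurableSet.of_discrete
  set g : YY d → ℝ≥0∞ := (rho s ⁻¹' A ∩ sig s ⁻¹' B).indicator 1 with hgdef
  have hg : Measurable g :=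
    measurable_one.indicator ((measurable_rho s hA).inter (measurable_sig s hB))
  have hWm : ∀ (t : ℝ), Measurable (fun ω : Om d => gW drY jnY (x0 d) ω t) := fun t =>
    measurable_gW measurable_drY measurable_jnY (x0 d) t
  have e1 : PP μK {ω | gW drY jnY (x0 d) ω s ∈ A ∧ pos ω (s + h) - pos ω s ∈ B} =
      ∫⁻ ω, g (gW drY jnY (x0 d) ω (s + h)) ∂(PP μK) := by
    have hm : MeasurableSet {ω : Om d | gW drY jnY (x0 d) ω s ∈ A ∧ pos ω (s + h) - pos ω s ∈ B} :=
      (hWm s hA).inter (((measurable_pos (s + h)).sub (measurable_pos s)) hB)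
    rw [← lintegral_indicator_one hm]
    refine lintegral_congr_ae ?_
    filter_upwards [good_ae (μK := μK)] with ω hω
    have h1 := rho_zero hω hs hh
    have h2 := sig_zero hω hs hh
    by_cases hc : gW drY jnY (x0 d) ω s ∈ A ∧ pos ω (s + h) - pos ω s ∈ B
    · rw [Set.indicator_of_mem (by exact hc), hgdef, Set.indicator_of_mem]
      · rfl
      · exact ⟨by rw [Set.mem_preimage, h1]; exact hc.1, by rw [Set.mem_preimage, h2]; exact hc.2⟩
    · rw [Set.indicator_of_notMem (by exact hc), hgdef, Set.indicator_of_notMem]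
      rintro ⟨h3, h4⟩
      rw [Set.mem_preimage, h1] at h3
      rw [Set.mem_preimage, h2] at h4
      exact hc ⟨h3, h4⟩
  have e2 : ∫⁻ ω, g (gW drY jnY (x0 d) ω (s + h)) ∂(PP μK) =
      ∫⁻ ω, Us ((expMeasure 1).prod μK) drY jnY g h (gW drY jnY (x0 d) ω s) ∂(PP μK) := by
    unfold PP
    rw [expect_eq one_pos measurable_drY measurable_jnY hg (s + h) (x0 d),
      Us_semigroup one_pos measurable_drY measurable_jnY flowY hg hh.le s hs (x0 d),
      expect_eq (g := fun y => Us ((expMeasure 1).prod μK) drY jnY g h y) one_pos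
        measurable_drY measurable_jnY ?_ s (x0 d)]
    have hp := isProbabilityMeasure_expMeasure one_pos
    exact (measurable_Us ((expMeasure 1).prod μK) measurable_drY measurable_jnY hg).comp
      (measurable_const.prodMk measurable_id)
  have e3 : ∀ᵐ ω ∂(PP μK), Us ((expMeasure 1).prod μK) drY jnY g h (gW drY jnY (x0 d) ω s) =
      {ω | gW drY jnY (x0 d) ω s ∈ A}.indicator (fun _ => PP μK {ω | pos ω h ∈ B}) ω := by
    filter_upwards [good_ae (μK := μK)] with ω hω
    rw [← expect_eq one_pos measurable_drY measurable_jnY hg h (gW drY jnY (x0 d) ω s)]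
    have e4 : ∀ᵐ ω' ∂(PP μK), g (gW drY jnY (gW drY jnY (x0 d) ω s) ω' h) =
        if gW drY jnY (x0 d) ω s ∈ A then ({ω | pos ω h ∈ B}.indicator (1 : Om d → ℝ≥0∞) ω') else 0 := by
      filter_upwards [good_ae (μK := μK)] with ω' hω'
      rw [gW0 hω hs]
      have hF : ∀ u, s ≤ u → (fun u => if 0 ≤ u ∧ u < s then pos ω u else 0) u = 0 := by
        intro u hu
        show (if 0 ≤ u ∧ u < s then pos ω u else 0) = 0
        rw [if_neg fun h => absurd h.2 (not_lt.2 hu)]
      rw [hgdef]
      simp only [Set.indicator, Set.mem_inter_iff, Set.mem_preimage]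
      rw [rho_step hω' hh _ _ hF, sig_step hω' hh]
      by_cases h1 : ((s, pos ω s, fun u => if 0 ≤ u ∧ u < s then pos ω u else 0) : YY d) ∈ A
      · by_cases h2 : pos ω' h ∈ B
        · rw [if_pos ⟨h1, h2⟩, if_pos h1]
          exact (if_pos h2).symm
        · rw [if_neg fun h => h2 h.2, if_pos h1]
          exact (if_neg h2).symm
      · rw [if_neg fun h => h1 h.1, if_neg h1]
    have e5 := lintegral_congr_ae e4
    refine Eq.trans e5 ?_
    by_cases h1 : gW drY jnY (x0 d) ω s ∈ A
    · simp only [if_pos h1]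
      have hpm : MeasurableSet {ω : Om d | pos ω h ∈ B} := measurable_pos h hB
      rw [lintegral_indicator_one hpm, Set.indicator_of_mem (by exact h1)]
    · simp only [if_neg h1]
      rw [Set.indicator_of_notMem (by exact h1), lintegral_zero]
  have hAm : MeasurableSet {ω : Om d | gW drY jnY (x0 d) ω s ∈ A} := hWm s hA
  rw [e1, e2, lintegral_congr_ae e3, lintegral_indicator_const hAm, mul_comm]

theorem main_id' {s t : ℝ} (hs : 0 ≤ s) (hst : s ≤ t) {A : Set (YY d)} (hA : MeasurableSet A)
    (B : Set (Site d)) :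
    PP μK {ω | gW drY jnY (x0 d) ω s ∈ A ∧ pos ω t - pos ω s ∈ B} =
      PP μK {ω | gW drY jnY (x0 d) ω s ∈ A} * PP μK {ω | pos ω (t - s) ∈ B} := by
  classical
  have hprob := PP_prob μK
  rcases hst.lt_or_eq with h | h
  · have h1 := main_id (μK := μK) hs (sub_pos.2 h) hA B
    rw [add_sub_cancel] at h1
    exact h1
  · subst h
    simp only [sub_self]
    by_cases h0 : (0 : Site d) ∈ B
    · have hm : MeasurableSet {ω : Om d | pos ω 0 ∈ B} := measurable_pos 0 MeasurableSet.of_discrete
      have e : PP μK {ω : Om d | pos ω 0 ∈ B} = 1 := by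
        rw [← mem_ae_iff_prob_eq_one hm]
        filter_upwards [good_ae (μK := μK)] with ω hω
        show pos ω 0 ∈ B
        rw [hω.pos_zero]
        exact h0
      rw [e, mul_one]
      congr 1
      ext ω
      exact ⟨fun h => h.1, fun h => ⟨h, h0⟩⟩
    · have e : PP μK {ω : Om d | pos ω 0 ∈ B} = 0 := by
        rw [measure_eq_zero_iff_ae_notMem]
        filter_upwards [good_ae (μK := μK)] with ω hω
        show ¬ pos ω 0 ∈ B
        rw [hω.pos_zero]
        exact h0
      have e' : {ω : Om d | gW drY jnY (x0 d) ω s ∈ A ∧ (0 : Site d) ∈ B} = ∅ := by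
        ext ω
        exact ⟨fun h => h0 h.2, fun h => h.elim⟩
      rw [e, e', mul_zero, measure_empty]

/-! ### The law at time `t` -/

/-- drift of the plain walk -/
def dr0 (x : Site d) (_ : ℝ) : Site d := x

/-- jump of the plain walk -/
def jn0 (x : Site d) (k : Fin d × Bool) : Site d := x + stp k

omit [IsProbabilityMeasure μK] in
theorem gW_plain (ω : Om d) (x : Site d) (t : ℝ) : gW dr0 jn0 x ω t = x + pos ω t := by
  have h : ∀ n, gafter dr0 jn0 x ω n = x + pn ω n := by
    intro n
    induction n with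
    | zero => simp [gafter, pn]
    | succ n ih =>
      rw [gafter, ih, pn_succ, ← add_assoc]
      rfl
  unfold gW
  rw [h]
  rfl

theorem pw_int (n : ℕ) (t : ℝ) :
    ∫ s in (0 : ℝ)..t, Real.exp (-s) * pw (t - s) n = pw t (n + 1) := by
  have e1 : ∀ s, Real.exp (-s) * pw (t - s) n =
      Real.exp (-t) / (n.factorial : ℝ) * (t - s) ^ n := by
    intro s
    unfold pw
    have : Real.exp (-s) * Real.exp (-(t - s)) = Real.exp (-t) := by
      rw [← Real.exp_add]
      congr 1
      ring
    rw [← this]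
    ring
  simp_rw [e1]
  rw [intervalIntegral.integral_const_mul, intervalIntegral.integral_comp_sub_left (fun x => x ^ n) t]
  rw [integral_pow]
  unfold pw
  rw [Nat.factorial_succ]
  push_cast
  have h1 : (n.factorial : ℝ) ≠ 0 := by positivity
  have h2 : (n : ℝ) + 1 ≠ 0 := by positivity
  field_simp
  simp

theorem pw_lint (n : ℕ) {t : ℝ} (ht : 0 ≤ t) {a : ℝ} (ha : 0 ≤ a) :
    ∫⁻ s in Set.Ioc (0 : ℝ) t, ENNReal.ofReal (Real.exp (-s) * pw (t - s) n * a) =
      ENNReal.ofReal (pw t (n + 1) * a) := by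
  have hc : Continuous fun s : ℝ => Real.exp (-s) * pw (t - s) n * a := by
    unfold pw
    fun_prop
  have hi : IntegrableOn (fun s : ℝ => Real.exp (-s) * pw (t - s) n * a) (Set.Ioc 0 t) :=
    (hc.integrableOn_Icc (a := 0) (b := t)).mono_set Set.Ioc_subset_Icc_self
  rw [← ofReal_integral_eq_lintegral_ofReal hi]
  · congr 1
    rw [← pw_int n t, intervalIntegral.integral_of_le ht, ← integral_mul_const]
  · refine (ae_restrict_iff' measurableSet_Ioc).2 (Eventually.of_forall fun s hs => ?_)
    have h1 : 0 ≤ t - s := by linarith [hs.2]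
    have h2 := pw_nonneg h1 n
    show 0 ≤ Real.exp (-s) * pw (t - s) n * a
    positivity

/-- the uniform law of the steps -/
noncomputable def muK (d : ℕ) : Measure (Fin d × Bool) :=
  (2 * (d : ℝ≥0∞))⁻¹ • Measure.count

theorem muK_prob (hd : 0 < d) : IsProbabilityMeasure (muK d) := by
  refine ⟨?_⟩
  have h : (Measure.count : Measure (Fin d × Bool)) Set.univ = 2 * (d : ℝ≥0∞) := by
    rw [Measure.count_apply_finite' Set.finite_univ MeasurableSet.univ]
    simp [mul_comm]
  unfold muK
  rw [Measure.smul_apply, h, smul_eq_mul]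
  refine ENNReal.inv_mul_cancel ?_ ?_
  · simp only [ne_eq, mul_eq_zero, OfNat.ofNat_ne_zero, Nat.cast_eq_zero, false_or]
    omega
  · exact ENNReal.mul_ne_top ENNReal.ofNat_ne_top (ENNReal.natCast_ne_top d)

theorem muK_lint (hd : 0 < d) {c : ℝ} (hc : 0 ≤ c) (j : ℕ) (y : Site d) :
    ∫⁻ k, ENNReal.ofReal (c * srw d j (y - stp k)) ∂(muK d) =
      ENNReal.ofReal (c * srw d (j + 1) y) := by
  unfold muK
  rw [lintegral_smul_measure, lintegral_count, tsum_fintype, ← ENNReal.ofReal_sum_of_nonneg]
  · have h1 : (2 * (d : ℝ≥0∞))⁻¹ = ENNReal.ofReal (1 / (2 * (d : ℝ))) := by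
      rw [one_div, ENNReal.ofReal_inv_of_pos (by positivity), ENNReal.ofReal_mul (by norm_num)]
      simp
    rw [h1, smul_eq_mul, ← ENNReal.ofReal_mul (by positivity)]
    congr 1
    rw [srw, ← Finset.mul_sum, Fintype.sum_prod_type]
    simp only [Fintype.sum_bool, stp, if_true, Bool.false_eq_true, if_false, sub_neg_eq_add]
    ring
  · intro k _
    exact mul_nonneg hc (srw_nonneg j _)

theorem U_law (hd : 0 < d) (z : Site d) (n : ℕ) : ∀ t, 0 ≤ t → ∀ x : Site d,
    U ((expMeasure 1).prod (muK d)) dr0 jn0 (({z} : Set (Site d)).indicator 1) n t x =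
      ∑ j ∈ Finset.range n, ENNReal.ofReal (pw t j * srw d j (z - x)) := by
  have hp := isProbabilityMeasure_expMeasure one_pos
  have hk := muK_prob hd
  set g : Site d → ℝ≥0∞ := ({z} : Set (Site d)).indicator 1 with hgdef
  have hdr : Measurable (fun p : Site d × ℝ => dr0 p.1 p.2) := measurable_fst
  have hjn : Measurable (fun p : Site d × (Fin d × Bool) => jn0 p.1 p.2) :=
    measurable_fst.add ((Measurable.of_discrete (f := (stp : Fin d × Bool → Site d))).comp
      measurable_snd)
  have hg : Measurable g := Measurable.of_discrete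
  induction n with
  | zero => intro t _ x; simp [U]
  | succ n ih =>
    intro t ht x
    have hB : Measurable (fun z' : ℝ × (Fin d × Bool) =>
        U ((expMeasure 1).prod (muK d)) dr0 jn0 g n (t - z'.1) (jn0 (dr0 x z'.1) z'.2)) := by
      have h1 : Measurable (fun z' : ℝ × (Fin d × Bool) => (t - z'.1, jn0 (dr0 x z'.1) z'.2)) := by
        refine (measurable_const.sub measurable_fst).prodMk ?_
        exact hjn.comp (measurable_const.prodMk measurable_snd)
      exact (measurable_U ((expMeasure 1).prod (muK d)) hdr hjn hg n).comp h1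
    rw [U_succ, T_eq one_pos ht _ hB, Finset.sum_range_succ', add_comm]
    congr 1
    · have e1 : ∀ s ∈ Set.Ioc (0 : ℝ) t, ENNReal.ofReal (1 * Real.exp (-(1 * s))) *
          ∫⁻ k, U ((expMeasure 1).prod (muK d)) dr0 jn0 g n (t - (s, k).1)
            (jn0 (dr0 x (s, k).1) (s, k).2) ∂(muK d) =
          ∑ j ∈ Finset.range n, ENNReal.ofReal (Real.exp (-s) * pw (t - s) j * srw d (j + 1) (z - x)) := by
        intro s hs
        have hts : 0 ≤ t - s := by linarith [hs.2]
        have e2 : ∀ k : Fin d × Bool, U ((expMeasure 1).prod (muK d)) dr0 jn0 g n (t - (s, k).1)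
            (jn0 (dr0 x (s, k).1) (s, k).2) =
            ∑ j ∈ Finset.range n, ENNReal.ofReal (pw (t - s) j * srw d j (z - x - stp k)) := by
          intro k
          rw [sub_sub]
          exact ih (t - s) hts (x + stp k)
        simp only [e2]
        rw [lintegral_finsetSum _ (fun j _ => Measurable.of_discrete), Finset.mul_sum]
        refine Finset.sum_congr rfl fun j _ => ?_
        rw [muK_lint hd (pw_nonneg hts j), one_mul, one_mul,
          ← ENNReal.ofReal_mul (Real.exp_pos _).le, mul_assoc]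
      rw [setLIntegral_congr_fun measurableSet_Ioc e1, lintegral_finsetSum _ (fun j _ => ?_)]
      · exact Finset.sum_congr rfl fun j _ => pw_lint j ht (srw_nonneg _ _)
      · unfold pw
        fun_prop
    · rw [one_mul, hgdef]
      unfold dr0
      by_cases h : x = z
      · rw [Set.indicator_of_mem (by exact h), h, sub_self]
        simp [pw, srw]
      · rw [Set.indicator_of_notMem (by exact h)]
        have h' : z - x ≠ 0 := sub_ne_zero.2 (Ne.symm h)
        simp [srw, h']

theorem pos_law (hd : 0 < d) {t : ℝ} (ht : 0 ≤ t) (z : Site d) :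
    PP (muK d) {ω | pos ω t = z} = ENNReal.ofReal (heat d t z) := by
  have hp := isProbabilityMeasure_expMeasure one_pos
  have hk := muK_prob hd
  have hprob := PP_prob (muK d)
  set g : Site d → ℝ≥0∞ := ({z} : Set (Site d)).indicator 1 with hgdef
  have hdr : Measurable (fun p : Site d × ℝ => dr0 p.1 p.2) := measurable_fst
  have hjn : Measurable (fun p : Site d × (Fin d × Bool) => jn0 p.1 p.2) :=
    measurable_fst.add ((Measurable.of_discrete (f := (stp : Fin d × Bool → Site d))).comp
      measurable_snd)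
  have hg : Measurable g := Measurable.of_discrete
  have h1 := expect_eq (lam := 1) (μK := muK d) one_pos hdr hjn hg t 0
  have hm : MeasurableSet {ω : Om d | pos ω t = z} := measurable_pos t (measurableSet_singleton z)
  have h2 : ∫⁻ ω, g (gW dr0 jn0 0 ω t) ∂(PP (muK d)) = PP (muK d) {ω | pos ω t = z} := by
    rw [← lintegral_indicator_one hm]
    refine lintegral_congr fun ω => ?_
    rw [gW_plain, zero_add, hgdef]
    by_cases h : pos ω t = z
    · rw [Set.indicator_of_mem (by exact h), Set.indicator_of_mem (by exact h)]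
      rfl
    · rw [Set.indicator_of_notMem (by exact h), Set.indicator_of_notMem (by exact h)]
  have h3 : Us ((expMeasure 1).prod (muK d)) dr0 jn0 g t 0 = ENNReal.ofReal (heat d t z) := by
    unfold Us
    have h4 : ∀ n, U ((expMeasure 1).prod (muK d)) dr0 jn0 g n t 0 =
        ∑ j ∈ Finset.range n, ENNReal.ofReal (pw t j * srw d j z) := fun n => by
      rw [U_law hd z n t ht 0, sub_zero]
    simp only [h4]
    rw [← ENNReal.tsum_eq_iSup_nat, heat_eq, ENNReal.ofReal_tsum_of_nonneg]
    · intro n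
      exact mul_nonneg (pw_nonneg ht n) (srw_nonneg n z)
    · exact (heat_term hd ht z).summable
  rw [← h2, ← h3, ← h1]
  rfl

end law

open Classical in
/-- the walk -/
noncomputable def SS (d : ℕ) (t : ℝ≥0) (ω : Om d) : Site d := if Good ω then pos ω t else 0

theorem SS_good {ω : Om d} (h : Good ω) (t : ℝ≥0) : SS d t ω = pos ω t := by
  unfold SS
  rw [if_pos h]

theorem SS_bad {ω : Om d} (h : ¬ Good ω) (t : ℝ≥0) : SS d t ω = 0 := by
  unfold SS
  rw [if_neg h]

theorem SS_meas (t : ℝ≥0) : Measurable (SS d t) :=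
  Measurable.ite measurableSet_good (measurable_pos t) measurable_const

/-- an event of the past is decided by the recorded path -/
theorem past (s : ℝ≥0) {X : Set (Om d)}
    (hX : MeasurableSet[⨆ u : Set.Iic s, MeasurableSpace.comap (SS d u) inferInstance] X) :
    ∃ A : Set (YY d), MeasurableSet A ∧ ∀ ω, Good ω → (gW drY jnY (x0 d) ω s ∈ A ↔ ω ∈ X) := by
  classical
  have hle : (⨆ u : Set.Iic s, MeasurableSpace.comap (SS d u) inferInstance) ≤
      (MeasurableSpace.comap (fun ω : {ω : Om d // Good ω} => gW drY jnY (x0 d) ω.1 (s : ℝ))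
        inferInstance).map Subtype.val := by
    refine iSup_le fun u => ?_
    rintro _ ⟨B, hB, rfl⟩
    have hus : u.1 ≤ s := u.2
    have hus' : ((u.1 : ℝ≥0) : ℝ) ≤ s := by exact_mod_cast hus
    refine ⟨{y : YY d | (if ((u.1 : ℝ≥0) : ℝ) < s then y.2.2 u.1 else y.2.1) ∈ B}, ?_, ?_⟩
    · have hm : Measurable (fun y : YY d => if ((u.1 : ℝ≥0) : ℝ) < s then y.2.2 u.1 else y.2.1) := by
        split_ifs
        · exact (measurable_pi_apply _).comp (measurable_snd.comp measurable_snd)
        · exact measurable_fst.comp measurable_snd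
      exact hm hB
    · ext ω
      have h0 : (0 : ℝ) ≤ s := s.2
      have h1 : (if ((u.1 : ℝ≥0) : ℝ) < s then (gW drY jnY (x0 d) ω.1 (s : ℝ)).2.2 u.1 else
          (gW drY jnY (x0 d) ω.1 (s : ℝ)).2.1) = SS d u ω.1 := by
        rw [gW0 ω.2 h0, SS_good ω.2]
        split_ifs with h2
        · show (if 0 ≤ ((u.1 : ℝ≥0) : ℝ) ∧ ((u.1 : ℝ≥0) : ℝ) < s then pos ω.1 u.1 else 0) = _
          rw [if_pos ⟨u.1.2, h2⟩]
        · have h3 : u.1 = s := le_antisymm hus (by exact_mod_cast not_lt.1 h2)
          show pos ω.1 s = pos ω.1 u.1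
          rw [h3]
      show (if ((u.1 : ℝ≥0) : ℝ) < s then (gW drY jnY (x0 d) ω.1 (s : ℝ)).2.2 u.1 else
          (gW drY jnY (x0 d) ω.1 (s : ℝ)).2.1) ∈ B ↔ SS d u ω.1 ∈ B
      rw [h1]
  obtain ⟨A, hA, hA'⟩ := hle X hX
  refine ⟨A, hA, fun ω hω => ?_⟩
  exact Set.ext_iff.1 hA' ⟨ω, hω⟩

theorem key (hd : 0 < d) {s t : ℝ≥0} (hst : s ≤ t) {X : Set (Om d)} {A : Set (YY d)}
    (hA : MeasurableSet A) (hX : ∀ ω, Good ω → (gW drY jnY (x0 d) ω s ∈ A ↔ ω ∈ X))
    (B : Set (Site d)) :
    PP (muK d) (X ∩ {ω | SS d t ω - SS d s ω ∈ B}) =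
      PP (muK d) X * PP (muK d) {ω | pos ω ((t : ℝ) - s) ∈ B} := by
  have hk := muK_prob hd
  have hprob := PP_prob (muK d)
  have hst' : (s : ℝ) ≤ t := by exact_mod_cast hst
  have h := main_id' (μK := muK d) s.2 hst' hA B
  have e1 : PP (muK d) (X ∩ {ω | SS d t ω - SS d s ω ∈ B}) =
      PP (muK d) {ω | gW drY jnY (x0 d) ω s ∈ A ∧ pos ω t - pos ω s ∈ B} := by
    refine measure_congr ?_
    filter_upwards [good_ae (μK := muK d)] with ω hω
    refine propext ?_
    show (ω ∈ X ∧ SS d t ω - SS d s ω ∈ B) ↔ (gW drY jnY (x0 d) ω s ∈ A ∧ pos ω t - pos ω s ∈ B)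
    rw [SS_good hω, SS_good hω, hX ω hω]
  have e2 : PP (muK d) X = PP (muK d) {ω | gW drY jnY (x0 d) ω s ∈ A} := by
    refine measure_congr ?_
    filter_upwards [good_ae (μK := muK d)] with ω hω
    exact propext (hX ω hω).symm
  rw [e1, e2]
  exact h

theorem walk (hd : 0 < d) : IsWalk (PP (muK d)) (SS d) := by
  have hk := muK_prob hd
  have hprob := PP_prob (muK d)
  refine ⟨SS_meas, ?_, ?_, ?_, ?_, ?_⟩
  · intro ω
    by_cases h : Good ω
    · rw [SS_good h, NNReal.coe_zero, h.pos_zero]
    · rw [SS_bad h]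
  · intro ω t
    by_cases h : Good ω
    · have h1 := (h.count_spec t.2).2
      have h2 : ∀ᶠ s : ℝ≥0 in 𝓝 t, (s : ℝ) < arr ω (count ω (t : ℝ) + 1) :=
        (NNReal.continuous_coe.tendsto t).eventually (gt_mem_nhds h1)
      filter_upwards [nhdsWithin_le_nhds h2, self_mem_nhdsWithin] with s hs hs'
      rw [SS_good h, SS_good h]
      exact h.right t.2 (by exact_mod_cast (le_of_lt hs')) hs
    · exact Eventually.of_forall fun s => by rw [SS_bad h, SS_bad h]
  · intro ω t ht
    by_cases h : Good ω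
    · obtain ⟨a, z, ha, hat, hz⟩ := h.left (t := t) (by exact_mod_cast ht)
      refine ⟨z, ?_⟩
      have h2 : ∀ᶠ s : ℝ≥0 in 𝓝 t, a < (s : ℝ) :=
        (NNReal.continuous_coe.tendsto t).eventually (lt_mem_nhds hat)
      filter_upwards [nhdsWithin_le_nhds h2, self_mem_nhdsWithin] with s hs hs'
      rw [SS_good h]
      exact hz s hs.le (by exact_mod_cast hs')
    · exact ⟨0, Eventually.of_forall fun s => SS_bad h s⟩
  · intro s t hst z
    have h := key hd hst (X := Set.univ) (A := Set.univ) MeasurableSet.univ (fun ω _ => by simp) {z}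
    rw [Set.univ_inter, measure_univ, one_mul] at h
    have hst' : (0 : ℝ) ≤ (t : ℝ) - s := sub_nonneg.2 (by exact_mod_cast hst)
    rw [← pos_law hd hst' z]
    exact h
  · intro s t hst
    rw [Indep_iff]
    rintro X _ hX ⟨B, _, rfl⟩
    obtain ⟨A, hA, hA'⟩ := past s hX
    have h1 := key hd hst hA hA' B
    have h2 := key hd hst (X := Set.univ) (A := Set.univ) MeasurableSet.univ (fun ω _ => by simp) B
    rw [Set.univ_inter, measure_univ, one_mul] at h2
    have h3 : (fun ω => SS d t ω - SS d s ω) ⁻¹' B = {ω | SS d t ω - SS d s ω ∈ B} := rfl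
    rw [h3, h1, h2]

end EX1

theorem exists_walk (d : ℕ) (hd : 0 < d) :
    ∃ (Ω : Type) (_ : MeasurableSpace Ω) (μ : Measure Ω) (_ : IsProbabilityMeasure μ)
      (S : ℝ≥0 → Ω → Site d), IsWalk μ S :=
  ⟨EX1.Om d, inferInstance, EX1.PP (EX1.muK d),
    haveI := EX1.muK_prob hd
    EX1.PP_prob (EX1.muK d), EX1.SS d, EX1.walk hd⟩

end Pool.Agent.T2H99.AW
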