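import Pool.Agent.T2H99.AW.GD

set_option autoImplicit false

/-!
# AW, package FE1: mass transport (uses TI, GD, LN)
-/

namespace Pool.Agent.T2H99.AW

open Finset Filter Topology MeasureTheory ProbabilityTheory
open scoped NNReal ENNReal BigOperators

variable {d : ℕ} {Ω : Type} [mΩ : MeasurableSpace Ω] {μ : Measure Ω} [IsProbabilityMeasure μ]
  {p : ℝ} {c : Site d → Ω → Bool} {S : Site d → ℝ≥0 → Ω → Site d}

namespace FE1

/-- The event: the label `0` is red, alive after `i` steps and at `y`. -/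
def ev (c : Site d → Ω → Bool) (S : Site d → ℝ≥0 → Ω → Site d) (m i : ℕ) (A : Finset (Site d))
    (y : Site d) : Set Ω :=
  {ω | 0 ∈ ga c S m A i ω ∧ c 0 ω = true ∧ gpos S m ω i 0 = y}

theorem ev_meas (hS : Setup μ p c S) (m i : ℕ) (A : Finset (Site d)) (y : Site d) :
    MeasurableSet (ev c S m i A y) := by
  have h1 : MeasurableSet {ω | (0 : Site d) ∈ ga c S m A i ω} :=
    hist_le hS _ _ _ (meas_mem_ga c S m A (le_refl ((i : ℝ≥0) / 2 ^ m)) 0)
  have h2 : MeasurableSet {ω | c 0 ω = true} := hS.cmeas 0 (measurableSet_singleton true)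
  have h3 : MeasurableSet {ω | gpos S m ω i (0 : Site d) = y} := by
    have : Measurable (fun ω => gpos S m ω i (0 : Site d)) :=
      (meas_gpos c S m (Set.mem_univ (0 : Site d)) (le_refl ((i : ℝ≥0) / 2 ^ m))).mono
        (hist_le hS _ _) le_rfl
    exact this (measurableSet_singleton y)
  exact h1.inter (h2.inter h3)

/-- One more particle at a fixed configuration. -/
theorem pt_one (cc : Site d → Bool) (pos : Site d → Site d) {X : Finset (Site d)} {ℓ : Site d}
    (hℓ : ℓ ∉ X) (y : Site d) :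
    |(if 0 ∈ insert ℓ X ∧ cc 0 = true ∧ pos 0 = y then (1 : ℝ) else 0) -
      (if 0 ∈ X ∧ cc 0 = true ∧ pos 0 = y then 1 else 0)| ≤
    |wt cc pos (insert ℓ X) true (ind y) - wt cc pos X true (ind y)| := by
  classical
  by_cases h0 : ℓ = 0
  · subst h0
    by_cases hc : cc 0 = true ∧ pos 0 = y
    · have h1 : wt cc pos (insert 0 X) true (ind y) - wt cc pos X true (ind y) = 1 := by
        unfold wt
        rw [Finset.filter_insert, if_pos hc.1,
          Finset.sum_insert (fun h' => hℓ (Finset.mem_filter.1 h').1), add_sub_cancel_right]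
        simp [ind, hc.2]
      rw [h1]
      simp [hc.1, hc.2, hℓ]
    · have e1 : ¬ ((0 : Site d) ∈ insert (0 : Site d) X ∧ cc 0 = true ∧ pos 0 = y) := fun h => hc h.2
      have e2 : ¬ ((0 : Site d) ∈ X ∧ cc 0 = true ∧ pos 0 = y) := fun h => hc h.2
      rw [if_neg e1, if_neg e2]
      simp
  · have e1 : ((0 : Site d) ∈ insert ℓ X) ↔ (0 : Site d) ∈ X := by
      rw [Finset.mem_insert]
      constructor
      · rintro (h | h)
        · exact absurd h.symm h0
        · exact h
      · exact Or.inr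
    simp only [e1, sub_self, abs_zero]
    exact abs_nonneg _

omit mΩ in
theorem pt_disc (c : Site d → Ω → Bool) (S : Site d → ℝ≥0 → Ω → Site d) (m i : ℕ)
    {A : Finset (Site d)} {w : Site d} (hw : w ∉ A) (y : Site d) (ω : Ω) :
    |(ev c S m i (insert w A) y).indicator (fun _ => (1 : ℝ)) ω -
      (ev c S m i A y).indicator (fun _ => (1 : ℝ)) ω| ≤
    |gw c S m (insert w A) i true (ind y) ω - gw c S m A i true (ind y) ω| := by
  classical
  have hi : ∀ B : Finset (Site d), (ev c S m i B y).indicator (fun _ => (1 : ℝ)) ω =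
      if 0 ∈ ga c S m B i ω ∧ c 0 ω = true ∧ gpos S m ω i 0 = y then 1 else 0 := by
    intro B
    rw [Set.indicator_apply]
    exact if_congr Iff.rfl rfl rfl
  rw [hi, hi]
  obtain ⟨ℓ, h⟩ := gAlive_disc (fun x => c x ω) (gpos S m ω) hw i
  unfold gw
  change |(if 0 ∈ ga c S m (insert w A) i ω ∧ c 0 ω = true ∧ gpos S m ω i 0 = y then (1:ℝ) else 0) -
      (if 0 ∈ ga c S m A i ω ∧ c 0 ω = true ∧ gpos S m ω i 0 = y then (1:ℝ) else 0)| ≤ _
  have hX₁ : gAlive (fun x => c x ω) (gpos S m ω) (insert w A) i = ga c S m (insert w A) i ω := rfl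
  have hX₀ : gAlive (fun x => c x ω) (gpos S m ω) A i = ga c S m A i ω := rfl
  rw [hX₁, hX₀] at h
  rcases h with ⟨_, h2, h3⟩ | ⟨_, h2, h3⟩
  · rw [h3]
    exact pt_one (fun x => c x ω) (gpos S m ω i) h2 y
  · rw [h3, abs_sub_comm, abs_sub_comm (wt _ _ _ _ _)]
    exact pt_one (fun x => c x ω) (gpos S m ω i) h2 y

theorem ind_bdd (y z : Site d) : |ind y z| ≤ 1 := by
  unfold ind
  split_ifs <;> simp

theorem Pt_ind (t : ℝ) (w y : Site d) : Pt t (fun z => |ind w z|) y = heat d t (w - y) := by
  rw [← Pt_single t w y]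
  congr 1
  funext z
  unfold ind
  split_ifs <;> simp

theorem u_step (hd : 0 < d) (hS : Setup μ p c S) (m i : ℕ)
    {A : Finset (Site d)} {w : Site d} (hw : w ∉ A) (y : Site d) :
    |μ.real (ev c S m i (insert w A) y) - μ.real (ev c S m i A y)| ≤
      heat d ((i : ℝ) / 2 ^ m) (y - w) := by
  have h1 : ∀ B : Finset (Site d), μ.real (ev c S m i B y) =
      ∫ ω, (ev c S m i B y).indicator (fun _ => (1 : ℝ)) ω ∂μ := by
    intro B
    rw [integral_indicator_const _ (ev_meas hS m i B y)]
    simp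
  have hI : ∀ B : Finset (Site d),
      Integrable ((ev c S m i B y).indicator (fun _ => (1 : ℝ))) μ := fun B =>
    (integrable_const (1 : ℝ)).indicator (ev_meas hS m i B y)
  rw [h1, h1, ← integral_sub (hI _) (hI _)]
  refine (abs_integral_le_integral_abs).trans ?_
  have h2 := disc_abs hd hS m hw i true (φ := ind y) (ind_bdd y)
  rw [Pt_ind] at h2
  refine le_trans ?_ h2
  refine integral_mono ((hI _).sub (hI _)).abs ?_ (fun ω => pt_disc c S m i hw y ω)
  exact ((gw_integrable hS m _ i true (ind_bdd y)).sub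
    (gw_integrable hS m _ i true (ind_bdd y))).abs

theorem u_diff (hd : 0 < d) (hS : Setup μ p c S) (m i : ℕ)
    {A A' : Finset (Site d)} (hA : A ⊆ A') (y : Site d) :
    |μ.real (ev c S m i A' y) - μ.real (ev c S m i A y)| ≤
      ∑ w ∈ A' \ A, heat d ((i : ℝ) / 2 ^ m) (y - w) := by
  classical
  have key : ∀ D : Finset (Site d), Disjoint D A →
      |μ.real (ev c S m i (D ∪ A) y) - μ.real (ev c S m i A y)| ≤
        ∑ w ∈ D, heat d ((i : ℝ) / 2 ^ m) (y - w) := by
    intro D
    induction D using Finset.induction_on with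
    | empty => intro _; simp
    | insert w D hw ih =>
      intro hD
      rw [Finset.disjoint_insert_left] at hD
      have h1 := ih hD.2
      have h2 : w ∉ D ∪ A := by
        rw [Finset.mem_union]
        rintro (h | h)
        · exact hw h
        · exact hD.1 h
      have h3 := u_step hd hS m i h2 y
      rw [Finset.insert_union, Finset.sum_insert hw]
      calc |μ.real (ev c S m i (insert w (D ∪ A)) y) - μ.real (ev c S m i A y)|
          ≤ |μ.real (ev c S m i (insert w (D ∪ A)) y) - μ.real (ev c S m i (D ∪ A) y)| +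
            |μ.real (ev c S m i (D ∪ A) y) - μ.real (ev c S m i A y)| := abs_sub_le _ _ _
        _ ≤ _ := add_le_add h3 h1
  have h := key (A' \ A) Finset.sdiff_disjoint
  rwa [Finset.sdiff_union_of_subset hA] at h

theorem u_lim (hd : 0 < d) (hS : Setup μ p c S) (m i : ℕ) (y : Site d) :
    ∃ u : ℝ, Tendsto (fun A => μ.real (ev c S m i A y)) atTop (𝓝 u) := by
  classical
  have ht : 0 ≤ (i : ℝ) / 2 ^ m := by positivity
  have hsum : Summable (fun w : Site d => heat d ((i : ℝ) / 2 ^ m) (y - w)) :=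
    ((Equiv.subLeft y).summable_iff (f := heat d ((i : ℝ) / 2 ^ m))).2 (heat_hasSum hd ht).summable
  refine cauchySeq_tendsto_of_complete ?_
  rw [Metric.cauchySeq_iff']
  intro ε hε
  obtain ⟨N, hN⟩ := summable_iff_vanishing_norm.1 hsum ε hε
  refine ⟨N, fun n hn => ?_⟩
  rw [Real.dist_eq]
  refine (u_diff hd hS m i hn y).trans_lt ?_
  have h := hN (n \ N) Finset.sdiff_disjoint
  rw [Real.norm_eq_abs, abs_of_nonneg (Finset.sum_nonneg fun w _ => heat_nonneg ht _)] at h
  exact h

omit [IsProbabilityMeasure μ] in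
theorem pos_law (hS : Setup μ p c S) (m i : ℕ) (y : Site d) :
    μ {ω | gpos S m ω i (0 : Site d) = y} = ENNReal.ofReal (heat d ((i : ℝ) / 2 ^ m) y) := by
  have h := (hS.walk 0).incr 0 ((i : ℝ≥0) / 2 ^ m) zero_le y
  have e : {ω | S 0 ((i : ℝ≥0) / 2 ^ m) ω - S 0 0 ω = y} = {ω | gpos S m ω i (0 : Site d) = y} := by
    ext ω
    simp only [Set.mem_ofPred_eq]
    unfold gpos posn
    rw [(hS.walk 0).zero ω, sub_zero, zero_add]
  rw [e] at h
  rw [h]
  congr 2
  push_cast
  ring

theorem u_le (hS : Setup μ p c S) (m i : ℕ) (A : Finset (Site d)) (y : Site d) :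
    μ.real (ev c S m i A y) ≤ heat d ((i : ℝ) / 2 ^ m) y := by
  have ht : 0 ≤ (i : ℝ) / 2 ^ m := by positivity
  have h1 : μ.real (ev c S m i A y) ≤ μ.real {ω | gpos S m ω i (0 : Site d) = y} :=
    measureReal_mono (fun ω h => h.2.2) (measure_ne_top _ _)
  refine h1.trans (le_of_eq ?_)
  rw [measureReal_def, pos_law hS, ENNReal.toReal_ofReal (heat_nonneg ht y)]

/-- Decomposition according to the position of the label `0`. -/
theorem u_tsum (hS : Setup μ p c S) (m i : ℕ) (A : Finset (Site d)) :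
    μ.real {ω | 0 ∈ ga c S m A i ω ∧ c 0 ω = true} = ∑' y, μ.real (ev c S m i A y) := by
  have h1 : {ω | 0 ∈ ga c S m A i ω ∧ c 0 ω = true} = ⋃ y, ev c S m i A y := by
    ext ω
    simp only [Set.mem_ofPred_eq, Set.mem_iUnion]
    constructor
    · intro h
      exact ⟨gpos S m ω i 0, h.1, h.2, rfl⟩
    · rintro ⟨y, h⟩
      exact ⟨h.1, h.2.1⟩
  have h2 : Pairwise (Function.onFun Disjoint (ev c S m i A)) := by
    intro y y' hne
    rw [Function.onFun, Set.disjoint_left]
    intro ω h h'
    exact hne (h.2.2.symm.trans h'.2.2)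
  rw [measureReal_def, h1, measure_iUnion h2 (fun y => ev_meas hS m i A y),
    ENNReal.tsum_toReal_eq (fun y => measure_ne_top _ _)]
  rfl

/-- `E gw A i true (ind 0)` as a sum over the labels, moved to the label `0`. -/
theorem gw_tsum (hd : 0 < d) (hS : Setup μ p c S) (m i : ℕ) (A : Finset (Site d)) :
    ∫ ω, gw c S m A i true (ind 0) ω ∂μ =
      ∑' x : Site d, if x ∈ A then μ.real (ev c S m i (A.image (· + (-x))) (-x)) else 0 := by
  classical
  rw [gw_eq_sum hd hS m A i true 0, tsum_eq_sum (s := A) (fun x hx => if_neg hx)]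
  refine Finset.sum_congr rfl fun x hx => ?_
  rw [if_pos hx, ← shift_event hd hS m A i true x 0 (-x)]
  have e : x + -x = 0 := add_neg_cancel x
  rw [e, zero_add]
  rfl

theorem shift_atTop (x : Site d) :
    Tendsto (fun A : Finset (Site d) => A.image (· + (-x))) atTop atTop := by
  classical
  refine tendsto_atTop.2 fun B => ?_
  filter_upwards [eventually_ge_atTop (B.image (· + x))] with A hA
  intro b hb
  rw [Finset.mem_image]
  exact ⟨b + x, hA (Finset.mem_image_of_mem _ hb), by abel⟩

end FE1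

open FE1 in
/-- Package FE1. `E gw A i true (ind 0) = ∑_{y ∈ A} P(y ∈ ga A i red, gpos i y = 0)
= ∑_{y ∈ A} P(0 ∈ ga (A - y) i red, gpos i 0 = -y)` (translation, as in `gw_shift`). For every
site `y`, `u_A(y) = P(0 ∈ ga A i red, gpos i 0 = y)` is Cauchy along the net: adding a label `w`
changes it by at most `heat (i/2^m) (y - w)`, since it changes the set of red particles at `y` only
if the discrepancy is at `y` (`disc_wt`/`disc_abs` with `φ = ind y`). As `u_A(y) ≤ heat (i/2^m) y`,
dominated convergence gives `gdens true i = ∑_y lim u_A(y) = lim_A P(0 ∈ ga A i red)`. -/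
theorem mass_transport (hd : 0 < d) (hS : Setup μ p c S) (m : ℕ) (i : ℕ) :
    Tendsto (fun A : Finset (Site d) => μ.real {ω | 0 ∈ ga c S m A i ω ∧ c 0 ω = true}) atTop
      (𝓝 (gdens μ c S m true i)) := by
  classical
  have ht : 0 ≤ (i : ℝ) / 2 ^ m := by positivity
  choose u hu using fun y => u_lim hd hS m i y
  have hsum := (heat_hasSum hd ht).summable
  -- the sum over the labels
  have h1 : Tendsto (fun A : Finset (Site d) => ∫ ω, gw c S m A i true (ind 0) ω ∂μ) atTop
      (𝓝 (∑' x : Site d, u (-x))) := by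
    simp_rw [gw_tsum hd hS m i]
    refine tendsto_tsum_of_dominated_convergence (bound := fun x => heat d ((i : ℝ) / 2 ^ m) (-x))
      ?_ ?_ ?_
    · exact ((Equiv.neg (Site d)).summable_iff (f := heat d ((i : ℝ) / 2 ^ m))).2 hsum
    · intro x
      have h := (hu (-x)).comp (shift_atTop x)
      refine h.congr' ?_
      filter_upwards [eventually_ge_atTop ({x} : Finset (Site d))] with A hA
      rw [if_pos (hA (Finset.mem_singleton_self x))]
      rfl
    · refine Eventually.of_forall fun A x => ?_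
      rw [Real.norm_eq_abs]
      split_ifs
      · rw [abs_of_nonneg measureReal_nonneg]
        exact u_le hS m i _ _
      · rw [abs_zero]
        exact heat_nonneg ht _
  have h2 : Tendsto (fun A : Finset (Site d) => μ.real {ω | 0 ∈ ga c S m A i ω ∧ c 0 ω = true})
      atTop (𝓝 (∑' y : Site d, u y)) := by
    simp_rw [u_tsum hS m i]
    refine tendsto_tsum_of_dominated_convergence (bound := fun x => heat d ((i : ℝ) / 2 ^ m) x)
      hsum hu ?_
    refine Eventually.of_forall fun A x => ?_
    rw [Real.norm_eq_abs, abs_of_nonneg measureReal_nonneg]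
    exact u_le hS m i _ _
  have h3 : ∑' x : Site d, u (-x) = ∑' y : Site d, u y := (Equiv.neg (Site d)).tsum_eq u
  have h4 := tendsto_nhds_unique (gdens_tendsto hd hS m true i 0) h1
  rw [h4, h3]
  exact h2

end Pool.Agent.T2H99.AW
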