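import Pool.Agent.T2H99.AW.MK

set_option autoImplicit false

/-!
# AW, package FE2: free meetings (uses MK, HK2)
-/

namespace Pool.Agent.T2H99.AW

open Finset Filter Topology MeasureTheory ProbabilityTheory
open scoped NNReal ENNReal BigOperators

variable {d : ℕ} {Ω : Type} [mΩ : MeasurableSpace Ω] {μ : Measure Ω} [IsProbabilityMeasure μ]
  {p : ℝ} {c : Site d → Ω → Bool} {S : Site d → ℝ≥0 → Ω → Site d}

/-- Some particle with label outside `F` meets (freely, on the grid) the path of `0` up to time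
`T`. -/
def Meet (S : Site d → ℝ≥0 → Ω → Site d) (m : ℕ) (F : Finset (Site d)) (T : ℕ) : Set Ω :=
  {ω | ∃ y, y ∉ F ∧ ∃ i ≤ T * 2 ^ m, gpos S m ω i y = gpos S m ω i 0}

theorem heat_zero_pos (hd : 0 < d) {t : ℝ} (ht : 0 ≤ t) : 0 < heat d t 0 := by
  have h := le_hasSum (heat_term hd ht 0) 0
    (fun n _ => mul_nonneg (pw_nonneg ht n) (srw_nonneg n 0))
  have e : pw t 0 * srw d 0 0 = Real.exp (-t) := by simp [pw, srw]
  rw [e] at h
  exact lt_of_lt_of_le (Real.exp_pos _) h

/-- The difference of two walks is a walk with double speed, independent of the past. -/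
theorem diff_law (hd : 0 < d) (hS : Setup μ p c S) {s t : ℝ≥0} (hst : s ≤ t) {x y : Site d}
    (hxy : x ≠ y) {E : Set Ω} (hE : MeasurableSet[hist c S Set.univ s] E) (w : Site d) :
    μ.real (E ∩ {ω | (S x t ω - S x s ω) - (S y t ω - S y s ω) = w}) =
      μ.real E * heat d (2 * ((t : ℝ) - s)) w := by
  have hts : (0 : ℝ) ≤ (t : ℝ) - s := sub_nonneg.2 (by exact_mod_cast hst)
  have hEm : MeasurableSet E := hist_le hS _ _ _ hE
  have hX : Measurable[hist c S Set.univ s] (E.indicator (fun _ => (1 : ℝ))) :=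
    measurable_const.indicator hE
  have hXb : ∀ ω, |E.indicator (fun _ => (1 : ℝ)) ω| ≤ 1 := fun ω => by
    by_cases h : ω ∈ E <;> simp [h]
  have hx : ∀ u, Measurable (S x u) := (hS.walk x).meas
  have hy : ∀ u, Measurable (S y u) := (hS.walk y).meas
  have hset : MeasurableSet {ω | (S x t ω - S x s ω) - (S y t ω - S y s ω) = w} :=
    measurableSet_eq_fun (((hx t).sub (hx s)).sub ((hy t).sub (hy s))) measurable_const
  -- first step
  have hY : Measurable[past c S x s] (fun ω => -(S y t ω - S y s ω)) :=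
    ((incr_le_past c S hxy s t).sub (incr_le_past c S hxy s s)).neg
  have h1 := markov0 hd hS hst (hX.mono (hist_le_past c S x s) le_rfl) hXb hY
    (φ := fun z => if z = w then 1 else 0) (K := 1) (fun z => by split_ifs <;> simp)
  have h2 := markov1 hd hS hst hX hXb (Y := fun _ => 0) measurable_const y
    (φ := fun z => heat d ((t : ℝ) - s) (w + z)) (K := 1) (fun z => by
      rw [abs_of_nonneg (heat_nonneg hts _)]
      exact heat_le_one hd hts _)
  have h3 : Pt ((t : ℝ) - s) (fun z => heat d ((t : ℝ) - s) (w + z)) 0 =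
      heat d (2 * ((t : ℝ) - s)) w := by
    unfold Pt
    rw [two_mul, ← heat_add hd hts hts w, ← (Equiv.neg (Site d)).tsum_eq]
    refine tsum_congr fun z => ?_
    rw [Equiv.neg_apply, heat_symm, zero_add]
    show heat d ((t : ℝ) - s) z * heat d ((t : ℝ) - s) (w + -z) = _
    rw [← sub_eq_add_neg]
  have h4 : μ.real (E ∩ {ω | (S x t ω - S x s ω) - (S y t ω - S y s ω) = w}) =
      ∫ ω, E.indicator (fun _ => (1 : ℝ)) ω *
        (if -(S y t ω - S y s ω) + (S x t ω - S x s ω) = w then 1 else 0) ∂μ := by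
    rw [← integral_indicator_one (hEm.inter hset)]
    refine integral_congr_ae (Filter.Eventually.of_forall fun ω => ?_)
    show Set.indicator _ (1 : Ω → ℝ) ω = E.indicator (fun _ => (1 : ℝ)) ω *
        (if -(S y t ω - S y s ω) + (S x t ω - S x s ω) = w then 1 else 0)
    rw [neg_add_eq_sub]
    by_cases h : ω ∈ E <;> by_cases h' : (S x t ω - S x s ω) - (S y t ω - S y s ω) = w <;>
      simp [Set.indicator, h, h']
  have h5 : ∀ ω, Pt ((t : ℝ) - s) (fun z => if z = w then (1 : ℝ) else 0) (-(S y t ω - S y s ω)) =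
      heat d ((t : ℝ) - s) (w + (0 + (S y t ω - S y s ω))) := by
    intro ω
    rw [Pt_single, sub_neg_eq_add, zero_add]
  rw [h4, h1]
  simp only [h5]
  rw [h2]
  rw [h3, integral_mul_const]
  congr 1
  exact integral_indicator_one hEm

theorem gpos_meas_hist (c : Site d → Ω → Bool) (S : Site d → ℝ≥0 → Ω → Site d) (m : ℕ) {i : ℕ}
    {s : ℝ≥0} (hi : (i : ℝ≥0) / 2 ^ m ≤ s) (y : Site d) :
    Measurable[hist c S Set.univ s] (fun ω => gpos S m ω i y) := by
  have h : Measurable[hist c S Set.univ s] (S y ((i : ℝ≥0) / 2 ^ m)) := by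
    rw [measurable_iff_comap_le]
    refine le_trans ?_ (le_iSup (fun x : (Set.univ : Set (Site d)) =>
      (MeasurableSpace.comap (c x) inferInstance) ⊔
      ⨆ u : Set.Iic s, MeasurableSpace.comap (S x u) inferInstance) ⟨y, trivial⟩)
    refine le_trans ?_ le_sup_right
    exact le_iSup (fun u : Set.Iic s => MeasurableSpace.comap (S y u) inferInstance)
      ⟨(i : ℝ≥0) / 2 ^ m, hi⟩
  exact h.const_add y

/-- One label. -/
theorem meet_one (hd : 0 < d) (hS : Setup μ p c S) (m T : ℕ) {y : Site d} (hy : y ≠ 0) :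
    μ.real (⋃ i ∈ Finset.range (T * 2 ^ m + 1), {ω | gpos S m ω i y = gpos S m ω i 0}) *
      heat d (2 * ((T : ℝ) + 1)) 0 ≤ heat d (2 * ((T : ℝ) + 1)) y := by
  classical
  set U : ℝ≥0 := (T : ℝ≥0) + 1 with hU
  have hUr : (U : ℝ) = (T : ℝ) + 1 := by simp [hU]
  set H : ℕ → Set Ω := fun i => {ω | gpos S m ω i y = gpos S m ω i 0} with hH
  set tt : ℕ → ℝ≥0 := fun i => (i : ℝ≥0) / 2 ^ m with htt
  have htU : ∀ i ∈ Finset.range (T * 2 ^ m + 1), tt i ≤ U := by
    intro i hi
    have h1 : i ≤ T * 2 ^ m := Nat.lt_succ_iff.1 (Finset.mem_range.1 hi)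
    have h2 : (i : ℝ≥0) ≤ (T : ℝ≥0) * 2 ^ m := by exact_mod_cast h1
    have h3 : tt i ≤ T := by
      rw [htt]
      exact (div_le_iff₀ (by positivity)).2 h2
    exact h3.trans (by rw [hU]; exact le_self_add)
  have hmono : ∀ i j, i ≤ j → tt i ≤ tt j := by
    intro i j hij
    rw [htt]
    simp only
    gcongr
  have hHm : ∀ i j, i ≤ j → MeasurableSet[hist c S Set.univ (tt j)] (H i) := by
    intro i j hij
    exact measurableSet_eq_fun (gpos_meas_hist c S m (hmono i j hij) y)
      (gpos_meas_hist c S m (hmono i j hij) 0)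
  have hEm : ∀ i, MeasurableSet[hist c S Set.univ (tt i)] (disjointed H i) := by
    intro i
    rw [disjointed_apply]
    refine @MeasurableSet.diff _ (hist c S Set.univ (tt i)) _ _ (hHm i i le_rfl) ?_
    rw [Finset.sup_set_eq_biUnion]
    refine Finset.measurableSet_biUnion _ fun j hj => ?_
    exact hHm j i (by
      have := Finset.mem_Iio.1 hj
      omega)
  have h0 : 0 ≤ heat d (2 * (U : ℝ)) 0 := heat_nonneg (by positivity) _
  have hD : μ.real {ω | S 0 U ω - S y U ω = y} = heat d (2 * (U : ℝ)) y := by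
    have h := diff_law hd hS (show (0 : ℝ≥0) ≤ U from zero_le) (x := 0) (y := y) hy.symm
      (E := Set.univ) MeasurableSet.univ y
    rw [Set.univ_inter, probReal_univ, one_mul] at h
    simp only [(hS.walk _).zero, sub_zero, NNReal.coe_zero] at h
    exact h
  set A : ℕ → Set Ω := fun i => disjointed H i ∩
    {ω | (S 0 U ω - S 0 (tt i) ω) - (S y U ω - S y (tt i) ω) = 0} with hA
  have hAE : ∀ i ∈ Finset.range (T * 2 ^ m + 1),
      μ.real (disjointed H i) * heat d (2 * (U : ℝ)) 0 ≤ μ.real (A i) := by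
    intro i hi
    rw [hA]
    simp only
    rw [diff_law hd hS (htU i hi) hy.symm (hEm i) 0]
    refine mul_le_mul_of_nonneg_left ?_ measureReal_nonneg
    have : ((tt i : ℝ≥0) : ℝ) ≤ U := by exact_mod_cast htU i hi
    refine heat_zero_anti hd (by linarith) ?_
    have : (0 : ℝ) ≤ ((tt i : ℝ≥0) : ℝ) := NNReal.coe_nonneg _
    linarith
  have hAm : ∀ i, MeasurableSet (A i) := by
    intro i
    refine (hist_le hS _ _ _ (hEm i)).inter ?_
    have hx : ∀ u, Measurable (S 0 u) := (hS.walk 0).meas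
    have hy : ∀ u, Measurable (S y u) := (hS.walk y).meas
    exact measurableSet_eq_fun (((hx _).sub (hx _)).sub ((hy _).sub (hy _))) measurable_const
  have hdisj : ((Finset.range (T * 2 ^ m + 1) : Finset ℕ) : Set ℕ).PairwiseDisjoint A := by
    intro i _ j _ hij
    exact (disjoint_disjointed H hij).mono Set.inter_subset_left Set.inter_subset_left
  have hsub : (⋃ i ∈ Finset.range (T * 2 ^ m + 1), A i) ⊆ {ω | S 0 U ω - S y U ω = y} := by
    intro ω hω
    simp only [Set.mem_iUnion] at hω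
    obtain ⟨i, hi, h1, h2⟩ := hω
    have h3 : gpos S m ω i y = gpos S m ω i 0 := disjointed_subset H i h1
    have h4 : S 0 U ω - S 0 (tt i) ω - (S y U ω - S y (tt i) ω) = 0 := h2
    have h5 : y + S y (tt i) ω = 0 + S 0 (tt i) ω := h3
    show S 0 U ω - S y U ω = y
    rw [zero_add] at h5
    rw [← h5] at h4
    have h6 : S 0 U ω - S y U ω = S 0 U ω - (y + S y (tt i) ω) - (S y U ω - S y (tt i) ω) + y := by
      abel
    rw [h6, h4, zero_add]
  have hcover : (⋃ i ∈ Finset.range (T * 2 ^ m + 1), H i) ⊆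
      ⋃ i ∈ Finset.range (T * 2 ^ m + 1), disjointed H i := by
    intro ω hω
    simp only [Set.mem_iUnion] at hω ⊢
    obtain ⟨i, hi, h1⟩ := hω
    have hex : ∃ j, ω ∈ H j := ⟨i, h1⟩
    refine ⟨Nat.find hex, ?_, ?_⟩
    · have := Nat.find_min' hex h1
      rw [Finset.mem_range] at hi ⊢
      omega
    · rw [disjointed_apply]
      refine ⟨Nat.find_spec hex, ?_⟩
      rw [Finset.sup_set_eq_biUnion]
      intro h
      simp only [Set.mem_iUnion] at h
      obtain ⟨j, hj, hj'⟩ := h
      exact Nat.find_min hex (Finset.mem_Iio.1 hj) hj'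
  have hfin : μ.real (⋃ i ∈ Finset.range (T * 2 ^ m + 1), H i) * heat d (2 * (U : ℝ)) 0 ≤
      heat d (2 * (U : ℝ)) y := by
    calc μ.real (⋃ i ∈ Finset.range (T * 2 ^ m + 1), H i) * heat d (2 * (U : ℝ)) 0
        ≤ (∑ i ∈ Finset.range (T * 2 ^ m + 1), μ.real (disjointed H i)) *
            heat d (2 * (U : ℝ)) 0 := by
          refine mul_le_mul_of_nonneg_right ?_ h0
          exact (measureReal_mono hcover (measure_ne_top _ _)).trans
            (measureReal_biUnion_finset_le _ _)
      _ = ∑ i ∈ Finset.range (T * 2 ^ m + 1), μ.real (disjointed H i) *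
            heat d (2 * (U : ℝ)) 0 := by rw [Finset.sum_mul]
      _ ≤ ∑ i ∈ Finset.range (T * 2 ^ m + 1), μ.real (A i) := Finset.sum_le_sum hAE
      _ = μ.real (⋃ i ∈ Finset.range (T * 2 ^ m + 1), A i) :=
          (measureReal_biUnion_finset hdisj fun i _ => hAm i).symm
      _ ≤ μ.real {ω | S 0 U ω - S y U ω = y} := measureReal_mono hsub (measure_ne_top _ _)
      _ = _ := hD
  rw [hUr] at hfin
  exact hfin

/-- Package FE2. `D_i = S 0 - S y` at the grid times satisfies, by `markov2` (conditioning at the first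
grid time `i ≤ T 2^m` with `D_i = y`), `P(D_{T+1} = y) ≥ P(y hit before T) * heat (2(T+1)) 0`
(`heat_zero_anti`, `heat_sq`), and `P(D_{T+1} = y) = heat (2 (T+1)) y`. Sum over `y ∉ F`. -/
theorem meet_small (hd : 0 < d) (hS : Setup μ p c S) (T : ℕ) {ε : ℝ} (hε : 0 < ε) :
    ∃ F : Finset (Site d), 0 ∈ F ∧ ∀ m : ℕ, μ.real (Meet S m F T) ≤ ε := by
  classical
  have hT : (0 : ℝ) ≤ 2 * ((T : ℝ) + 1) := by positivity
  have h0 := heat_zero_pos hd hT
  set g : Site d → ℝ := fun y => heat d (2 * ((T : ℝ) + 1)) y / heat d (2 * ((T : ℝ) + 1)) 0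
    with hg
  have hg0 : ∀ y, 0 ≤ g y := fun y => div_nonneg (heat_nonneg hT y) h0.le
  have hgs : Summable g := (heat_hasSum hd hT).summable.div_const _
  have htail := tendsto_tsum_compl_atTop_zero g
  obtain ⟨F, hF1, hF2⟩ := ((htail.eventually_lt_const hε).and
    (Filter.eventually_ge_atTop ({0} : Finset (Site d)))).exists
  refine ⟨F, hF2 (Finset.mem_singleton_self 0), fun m => ?_⟩
  have hsub : Meet S m F T ⊆ ⋃ y : {y : Site d // y ∉ F},
      ⋃ i ∈ Finset.range (T * 2 ^ m + 1), {ω | gpos S m ω i y = gpos S m ω i 0} := by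
    rintro ω ⟨y, hy, i, hi, h⟩
    simp only [Set.mem_iUnion]
    exact ⟨⟨y, hy⟩, i, Finset.mem_range.2 (Nat.lt_succ_of_le hi), h⟩
  have h1 : μ (Meet S m F T) ≤ ENNReal.ofReal ε := by
    calc μ (Meet S m F T) ≤ μ (⋃ y : {y : Site d // y ∉ F},
          ⋃ i ∈ Finset.range (T * 2 ^ m + 1), {ω | gpos S m ω i y = gpos S m ω i 0}) :=
          measure_mono hsub
      _ ≤ ∑' y : {y : Site d // y ∉ F}, μ (⋃ i ∈ Finset.range (T * 2 ^ m + 1),
            {ω | gpos S m ω i y = gpos S m ω i 0}) := measure_iUnion_le _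
      _ ≤ ∑' y : {y : Site d // y ∉ F}, ENNReal.ofReal (g y) := by
          refine ENNReal.tsum_le_tsum fun y => ?_
          have hy0 : (y : Site d) ≠ 0 := fun h =>
            y.2 (h ▸ hF2 (Finset.mem_singleton_self 0))
          have h2 := meet_one hd hS m T hy0
          have h3 : μ.real (⋃ i ∈ Finset.range (T * 2 ^ m + 1),
              {ω | gpos S m ω i (y : Site d) = gpos S m ω i 0}) ≤ g y := (le_div_iff₀ h0).2 h2
          rw [measureReal_def] at h3
          exact (ENNReal.le_ofReal_iff_toReal_le (measure_ne_top _ _) (hg0 _)).2 h3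
      _ = ENNReal.ofReal (∑' y : {y : Site d // y ∉ F}, g y) :=
          (ENNReal.ofReal_tsum_of_nonneg (f := fun y : {y : Site d // y ∉ F} => g y)
            (fun y => hg0 y) (hgs.subtype _)).symm
      _ ≤ ENNReal.ofReal ε := ENNReal.ofReal_le_ofReal hF1.le
  rw [measureReal_def]
  exact ENNReal.toReal_le_of_le_ofReal hε.le h1

end Pool.Agent.T2H99.AW
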