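import Pool.Agent.T2H99.AW.GD

set_option autoImplicit false
set_option linter.unusedSectionVars false

/-!
# AW, package GD2: monotonicity, decrement and difference of the densities (uses GD, VA, PR)

* `gdens_anti`: `gw (i+1) b (ind 0) ≤ ∑_{x ∈ ga i, colour b} 1{gpos (i+1) x = 0}`, mean
  `E gw i b (heat h (0 - ·))`, let `A → ∞` (`gdens_tendsto_fun`, total mass `1`).
* `gdens_dec`: let `A → ∞` in `loss` with `w = 0`. For fixed `u ≠ v`, with `s = (i-j)/2^m`,
  `E gw i true (ind u) gw i false (ind v) ≤ E gw j true (heat s (u-·)) gw j false (heat s (v-·))`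
  (`pair_rb`, `Pt_single`) `≤ (E (gw j true ..)^2 + E (gw j false ..)^2)/2`
  `≤ ((E gw j true ..)^2 + (E gw j false ..)^2)/2 + heat (2s) 0` (`gw_sq`, `heat_sq`)
  `→ (gdens true j ^2 + gdens false j ^2)/2 + heat (2s) 0`. Dominated convergence over `(u, v)`
  (`pair_le_one`), `∑_{u ≠ v} heat h u heat h v = 1 - heat (2h) 0 ≤ 2h` (`one_sub_heat`).
* `gdens_diff`: `gt_mean` with `φ = ind 0`.
-/

namespace Pool.Agent.T2H99.AW

open Finset Filter Topology MeasureTheory ProbabilityTheory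
open scoped NNReal ENNReal BigOperators

variable {d : ℕ} {Ω : Type} [mΩ : MeasurableSpace Ω] {μ : Measure Ω} [IsProbabilityMeasure μ]
  {p : ℝ} {c : Site d → Ω → Bool} {S : Site d → ℝ≥0 → Ω → Site d}

namespace GD2

omit [IsProbabilityMeasure μ] mΩ in
theorem meas_col (c : Site d → Ω → Bool) (S : Site d → ℝ≥0 → Ω → Site d)
    {A : Set (Site d)} {x : Site d} (hx : x ∈ A) (s : ℝ≥0) : Measurable[hist c S A s] (c x) := by
  refine measurable_iff_comap_le.2 ?_
  exact le_trans le_sup_left (le_iSup (fun x : A =>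
    (MeasurableSpace.comap (c x) inferInstance) ⊔
    ⨆ u : Set.Iic s, MeasurableSpace.comap (S x u) inferInstance) ⟨x, hx⟩)

theorem int_bdd {f : Ω → ℝ} (hf : Measurable f) {C : ℝ} (h : ∀ ω, |f ω| ≤ C) :
    Integrable f μ :=
  Integrable.of_bound hf.aestronglyMeasurable C (Eventually.of_forall h)

/-- alive and of colour `b` -/
noncomputable def al (c : Site d → Ω → Bool) (S : Site d → ℝ≥0 → Ω → Site d) (m : ℕ)
    (A : Finset (Site d)) (i : ℕ) (b : Bool) (x : Site d) (ω : Ω) : ℝ :=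
  if x ∈ ga c S m A i ω ∧ c x ω = b then 1 else 0

omit mΩ in
theorem abs_al (c : Site d → Ω → Bool) (S : Site d → ℝ≥0 → Ω → Site d) (m : ℕ)
    (A : Finset (Site d)) (i : ℕ) (b : Bool) (x : Site d) (ω : Ω) : |al c S m A i b x ω| ≤ 1 := by
  unfold al
  split_ifs <;> simp

theorem meas_al (c : Site d → Ω → Bool) (S : Site d → ℝ≥0 → Ω → Site d) (m : ℕ)
    (A : Finset (Site d)) {i : ℕ} {s : ℝ≥0} (hi : (i : ℝ≥0) / 2 ^ m ≤ s) (b : Bool) (x : Site d) :
    Measurable[hist c S Set.univ s] (al c S m A i b x) := by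
  have h1 : MeasurableSet[hist c S Set.univ s] {ω | x ∈ ga c S m A i ω} :=
    hist_mono c S (Set.subset_univ _) le_rfl _ (meas_mem_ga c S m A hi x)
  have h2 : MeasurableSet[hist c S Set.univ s] {ω | c x ω = b} :=
    meas_col c S (Set.mem_univ x) s (MeasurableSet.singleton b)
  exact Measurable.ite (h1.inter h2) measurable_const measurable_const

omit mΩ in
theorem gw_eq_al (c : Site d → Ω → Bool) (S : Site d → ℝ≥0 → Ω → Site d) (m : ℕ)
    (A : Finset (Site d)) (i : ℕ) (b : Bool) (φ : Site d → ℝ) (ω : Ω) :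
    gw c S m A i b φ ω = ∑ x ∈ A, al c S m A i b x ω * φ (gpos S m ω i x) := by
  classical
  have hsub : ga c S m A i ω ⊆ A := gAlive_subset _ _ _ _
  unfold gw wt al
  rw [Finset.sum_filter, ← Finset.sum_subset hsub]
  · refine Finset.sum_congr rfl fun x hx => ?_
    by_cases h : c x ω = b
    · rw [if_pos h, if_pos ⟨hx, h⟩, one_mul]
    · rw [if_neg h, if_neg (fun hc => h hc.2), zero_mul]
  · intro x _ hx
    rw [if_neg (fun hc => hx hc.1), zero_mul]

omit mΩ in
theorem gw_nonneg' (c : Site d → Ω → Bool) (S : Site d → ℝ≥0 → Ω → Site d) (m : ℕ)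
    (A : Finset (Site d)) (i : ℕ) (b : Bool) {φ : Site d → ℝ} (hφ0 : ∀ z, 0 ≤ φ z) (ω : Ω) :
    0 ≤ gw c S m A i b φ ω :=
  Finset.sum_nonneg fun _ _ => hφ0 _

omit mΩ in
theorem gw_succ_le (c : Site d → Ω → Bool) (S : Site d → ℝ≥0 → Ω → Site d) (m : ℕ)
    (A : Finset (Site d)) (i : ℕ) (b : Bool) {φ : Site d → ℝ} (hφ0 : ∀ z, 0 ≤ φ z) (ω : Ω) :
    gw c S m A (i + 1) b φ ω ≤ ∑ x ∈ A, al c S m A i b x ω * φ (gpos S m ω (i + 1) x) := by
  rw [gw_eq_al]
  refine Finset.sum_le_sum fun x _ => mul_le_mul_of_nonneg_right ?_ (hφ0 _)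
  unfold al
  by_cases h : x ∈ ga c S m A (i + 1) ω ∧ c x ω = b
  · rw [if_pos h, if_pos ⟨gAlive_anti _ _ A (Nat.le_succ i) h.1, h.2⟩]
  · rw [if_neg h]
    split_ifs <;> norm_num

theorem meas_gpos' (hS : Setup μ p c S) (m : ℕ) (i : ℕ) (x : Site d) :
    Measurable (fun ω => gpos S m ω i x) :=
  (meas_gpos c S m (Set.mem_univ x) le_rfl).mono (hist_le hS _ _) le_rfl

theorem int_al (hS : Setup μ p c S) (m : ℕ) (A : Finset (Site d)) (i n : ℕ) (b : Bool)
    (x : Site d) {φ : Site d → ℝ} {K : ℝ} (hφ : ∀ z, |φ z| ≤ K) :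
    Integrable (fun ω => al c S m A i b x ω * φ (gpos S m ω n x)) μ := by
  refine int_bdd (C := 1 * K) ?_ ?_
  · exact ((meas_al c S m A le_rfl b x).mono (hist_le hS _ _) le_rfl).mul
      ((Measurable.of_discrete (f := φ)).comp (meas_gpos' hS m n x))
  · intro ω
    rw [abs_mul]
    exact mul_le_mul (abs_al c S m A i b x ω) (hφ _) (abs_nonneg _) (by norm_num)

theorem step_mean (hd : 0 < d) (hS : Setup μ p c S) (m : ℕ) (A : Finset (Site d)) (i : ℕ) (b : Bool)
    {φ : Site d → ℝ} {K : ℝ} (hφ : ∀ z, |φ z| ≤ K) :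
    ∫ ω, ∑ x ∈ A, al c S m A i b x ω * φ (gpos S m ω (i + 1) x) ∂μ =
      ∫ ω, gw c S m A i b (Pt (1 / 2 ^ m) φ) ω ∂μ := by
  have hpt : ∀ z, |Pt (1 / 2 ^ m) φ z| ≤ K := Pt_bdd hd (by positivity) hφ
  have hst : ((i : ℝ≥0) / 2 ^ m) ≤ (((i + 1 : ℕ) : ℝ≥0) / 2 ^ m) := by
    gcongr
    omega
  have hdiff : ((((i + 1 : ℕ) : ℝ≥0) / 2 ^ m : ℝ≥0) : ℝ) - (((i : ℝ≥0) / 2 ^ m : ℝ≥0) : ℝ) =
      1 / 2 ^ m := by
    push_cast
    ring
  simp_rw [gw_eq_al]
  rw [integral_finsetSum _ fun x _ => int_al hS m A i (i + 1) b x hφ,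
    integral_finsetSum _ fun x _ => int_al hS m A i i b x hpt]
  refine Finset.sum_congr rfl fun x _ => ?_
  have h := markov1 hd hS hst (meas_al c S m A le_rfl b x) (abs_al c S m A i b x)
    (Y := fun ω => gpos S m ω i x) (meas_gpos c S m (Set.mem_univ x) le_rfl) x hφ
  rw [hdiff] at h
  rw [← h]
  refine integral_congr_ae (Eventually.of_forall fun ω => ?_)
  show al c S m A i b x ω * φ (gpos S m ω (i + 1) x) = al c S m A i b x ω * φ (gpos S m ω i x +
    (S x (((i + 1 : ℕ) : ℝ≥0) / 2 ^ m) ω - S x ((i : ℝ≥0) / 2 ^ m) ω))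
  congr 2
  unfold gpos posn
  abel

theorem abs_ind (z : Site d) : ∀ w, |ind z w| ≤ 1 := by
  intro w
  unfold ind
  split_ifs <;> simp

theorem ind_nonneg (z : Site d) : ∀ w, 0 ≤ ind z w := by
  intro w
  unfold ind
  split_ifs <;> simp

theorem heat_sub (hd : 0 < d) {t : ℝ} (ht : 0 ≤ t) (w : Site d) :
    HasSum (fun z => heat d t (w - z)) 1 :=
  (Equiv.subLeft w).hasSum_iff.2 (heat_hasSum hd ht)

theorem heat_sq_sub (hd : 0 < d) {t : ℝ} (ht : 0 ≤ t) (w : Site d) :
    HasSum (fun z => heat d t (w - z) ^ 2) (heat d (2 * t) 0) := by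
  have h := (heat_summable_sq hd ht).hasSum
  rw [heat_sq hd ht] at h
  exact (Equiv.subLeft w).hasSum_iff.2 h

theorem abs_heat (hd : 0 < d) {t : ℝ} (ht : 0 ≤ t) (w : Site d) : ∀ z, |heat d t (w - z)| ≤ 1 := by
  intro z
  rw [abs_of_nonneg (heat_nonneg ht _)]
  exact heat_le_one hd ht _

theorem Pt_ind (t : ℝ) (w : Site d) : Pt t (ind w) = fun z => heat d t (w - z) := by
  funext y
  exact Pt_single t w y

end GD2

open GD2

theorem gdens_anti (hd : 0 < d) (hS : Setup μ p c S) (m : ℕ) (b : Bool) :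
    Antitone (gdens μ c S m b) := by
  refine antitone_nat_of_succ_le fun i => ?_
  have hh : (0 : ℝ) ≤ 1 / 2 ^ m := by positivity
  have h1 := gdens_tendsto hd hS m b (i + 1) 0
  have h2 := gdens_tendsto_fun hd hS m b i (φ := fun z => heat d (1 / 2 ^ m) (0 - z))
    (heat_sub hd hh 0).summable (fun z => heat_nonneg hh _)
  rw [(heat_sub hd hh 0).tsum_eq, mul_one] at h2
  refine le_of_tendsto_of_tendsto' h1 h2 fun A => ?_
  have h3 := step_mean hd hS m A i b (abs_ind (0 : Site d))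
  rw [Pt_ind] at h3
  rw [← h3]
  refine integral_mono (gw_integrable hS m A (i + 1) b (abs_ind 0)) ?_ ?_
  · exact integrable_finsetSum _ fun x _ => int_al hS m A i (i + 1) b x (abs_ind 0)
  · intro ω
    exact gw_succ_le c S m A i b (ind_nonneg 0) ω

namespace GD2

theorem meas_gw' (hS : Setup μ p c S) (m : ℕ) (A : Finset (Site d)) (i : ℕ) (b : Bool)
    (φ : Site d → ℝ) : Measurable (gw c S m A i b φ) :=
  (meas_gw c S m A (i := i) le_rfl b φ).mono (hist_le hS _ _) le_rfl

theorem int_gw_mul (hS : Setup μ p c S) (m : ℕ) (A : Finset (Site d)) (i : ℕ) (b b' : Bool)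
    {φ ψ : Site d → ℝ} {K : ℝ} (hφ : ∀ z, |φ z| ≤ K) (hψ : ∀ z, |ψ z| ≤ K) :
    Integrable (fun ω => gw c S m A i b φ ω * gw c S m A i b' ψ ω) μ := by
  refine int_bdd (C := (A.card * K) * (A.card * K)) ((meas_gw' hS m A i b φ).mul
    (meas_gw' hS m A i b' ψ)) fun ω => ?_
  rw [abs_mul]
  have h1 := gw_bdd c S m A i b hφ ω
  exact mul_le_mul h1 (gw_bdd c S m A i b' hψ ω) (abs_nonneg _) ((abs_nonneg _).trans h1)

/-- the bound of the pair function -/
noncomputable def BB (μ : Measure Ω) (c : Site d → Ω → Bool) (S : Site d → ℝ≥0 → Ω → Site d) (m : ℕ)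
    (A : Finset (Site d)) (j : ℕ) (s : ℝ) (q : Site d × Site d) : ℝ :=
  ((∫ ω, gw c S m A j true (fun z => heat d s (q.1 - z)) ω ∂μ) ^ 2 +
    (∫ ω, gw c S m A j false (fun z => heat d s (q.2 - z)) ω ∂μ) ^ 2) / 2 + heat d (2 * s) 0

theorem pair_le_BB (hd : 0 < d) (hS : Setup μ p c S) (m : ℕ) (A : Finset (Site d)) {j i : ℕ}
    (hji : j ≤ i) (q : Site d × Site d) :
    ∫ ω, gw c S m A i true (ind q.1) ω * gw c S m A i false (ind q.2) ω ∂μ ≤
      BB μ c S m A j (((i : ℝ) - j) / 2 ^ m) q := by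
  have hs : (0 : ℝ) ≤ ((i : ℝ) - j) / 2 ^ m := by
    have : (j : ℝ) ≤ i := by exact_mod_cast hji
    have h2 : (0 : ℝ) ≤ (i : ℝ) - j := by linarith
    positivity
  obtain ⟨s, hsd⟩ : ∃ s : ℝ, s = ((i : ℝ) - j) / 2 ^ m := ⟨_, rfl⟩
  have h1 := pair_rb hd hS m A hji (abs_ind q.1) (abs_ind q.2) (ind_nonneg q.1) (ind_nonneg q.2)
  rw [Pt_ind, Pt_ind] at h1
  rw [← hsd] at h1 hs ⊢
  refine h1.trans ?_
  have hb1 := abs_heat hd hs q.1
  have hb2 := abs_heat hd hs q.2
  have i1 := int_gw_mul (μ := μ) hS m A j true true hb1 hb1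
  have i2 := int_gw_mul (μ := μ) hS m A j false false hb2 hb2
  have h2 : ∫ ω, gw c S m A j true (fun z => heat d s (q.1 - z)) ω *
        gw c S m A j false (fun z => heat d s (q.2 - z)) ω ∂μ ≤
      ∫ ω, (gw c S m A j true (fun z => heat d s (q.1 - z)) ω *
        gw c S m A j true (fun z => heat d s (q.1 - z)) ω +
        gw c S m A j false (fun z => heat d s (q.2 - z)) ω *
        gw c S m A j false (fun z => heat d s (q.2 - z)) ω) / 2 ∂μ := by
    refine integral_mono (int_gw_mul (μ := μ) hS m A j true false hb1 hb2)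
      ((i1.add i2).div_const 2) fun ω => ?_
    show gw c S m A j true (fun z => heat d s (q.1 - z)) ω *
        gw c S m A j false (fun z => heat d s (q.2 - z)) ω ≤
      (gw c S m A j true (fun z => heat d s (q.1 - z)) ω *
        gw c S m A j true (fun z => heat d s (q.1 - z)) ω +
        gw c S m A j false (fun z => heat d s (q.2 - z)) ω *
        gw c S m A j false (fun z => heat d s (q.2 - z)) ω) / 2
    nlinarith [sq_nonneg (gw c S m A j true (fun z => heat d s (q.1 - z)) ω -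
      gw c S m A j false (fun z => heat d s (q.2 - z)) ω)]
  refine h2.trans ?_
  rw [integral_div, integral_add i1 i2]
  have h3 := gw_sq hd hS m A j true hb1 (heat_sq_sub hd hs q.1).summable
  have h4 := gw_sq hd hS m A j false hb2 (heat_sq_sub hd hs q.2).summable
  rw [(heat_sq_sub hd hs q.1).tsum_eq] at h3
  rw [(heat_sq_sub hd hs q.2).tsum_eq] at h4
  simp only [sq] at h3 h4
  unfold BB
  simp only [sq]
  linarith

theorem BB_nonneg {s : ℝ} (hs : 0 ≤ s) (m : ℕ) (A : Finset (Site d)) (j : ℕ) (q : Site d × Site d) :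
    0 ≤ BB μ c S m A j s q := by
  unfold BB
  have := heat_nonneg (d := d) (show (0 : ℝ) ≤ 2 * s by positivity) 0
  positivity

theorem BB_tendsto (hd : 0 < d) (hS : Setup μ p c S) (m : ℕ) (j : ℕ) {s : ℝ} (hs : 0 ≤ s)
    (q : Site d × Site d) : Tendsto (fun A => BB μ c S m A j s q) atTop
      (𝓝 ((gdens μ c S m true j ^ 2 + gdens μ c S m false j ^ 2) / 2 + heat d (2 * s) 0)) := by
  have h1 := gdens_tendsto_fun hd hS m true j (heat_sub hd hs q.1).summable
    (fun z => heat_nonneg hs _)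
  have h2 := gdens_tendsto_fun hd hS m false j (heat_sub hd hs q.2).summable
    (fun z => heat_nonneg hs _)
  rw [(heat_sub hd hs q.1).tsum_eq, mul_one] at h1
  rw [(heat_sub hd hs q.2).tsum_eq, mul_one] at h2
  exact (((h1.pow 2).add (h2.pow 2)).div_const 2).add_const _

/-- the kernel of two steps -/
noncomputable def FF (d : ℕ) (h : ℝ) (q : Site d × Site d) : ℝ :=
  heat d h (0 - q.1) * heat d h (0 - q.2)

theorem FF_nonneg {h : ℝ} (hh : 0 ≤ h) (q : Site d × Site d) : 0 ≤ FF d h q :=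
  mul_nonneg (heat_nonneg hh _) (heat_nonneg hh _)

theorem FF_hasSum (hd : 0 < d) {h : ℝ} (hh : 0 ≤ h) : HasSum (FF d h) 1 := by
  have h1 := heat_sub hd hh (0 : Site d)
  have hs : Summable (fun q : Site d × Site d => heat d h (0 - q.1) * heat d h (0 - q.2)) :=
    h1.summable.mul_of_nonneg h1.summable (fun z => heat_nonneg hh _) (fun z => heat_nonneg hh _)
  have h2 := h1.mul h1 hs
  rw [one_mul] at h2
  exact h2

theorem off_hasSum (hd : 0 < d) {h : ℝ} (hh : 0 ≤ h) :
    HasSum (fun q : Site d × Site d => if q.1 = q.2 then 0 else FF d h q) (1 - heat d (2 * h) 0) := by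
  have h1 : HasSum (fun q : Site d × Site d => if q.1 = q.2 then FF d h q else 0)
      (heat d (2 * h) 0) := by
    have hinj : Function.Injective (fun u : Site d => ((u, u) : Site d × Site d)) := fun a b hab =>
      (Prod.mk.inj hab).1
    refine (hinj.hasSum_iff ?_).1 ?_
    · intro q hq
      refine if_neg fun hc => hq ⟨q.1, ?_⟩
      exact Prod.ext rfl hc
    · have h2 := heat_sq_sub hd hh (0 : Site d)
      have e : ((fun q : Site d × Site d => if q.1 = q.2 then FF d h q else 0) ∘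
          fun u : Site d => ((u, u) : Site d × Site d)) = fun z => heat d h (0 - z) ^ 2 := by
        funext u
        show (if u = u then FF d h (u, u) else 0) = _
        rw [if_pos rfl, FF, sq]
      rw [e]
      exact h2
  have h2 := (FF_hasSum hd hh).sub h1
  have e : (fun q : Site d × Site d => if q.1 = q.2 then 0 else FF d h q) =
      fun q => FF d h q - (if q.1 = q.2 then FF d h q else 0) := by
    funext q
    split_ifs <;> simp
  rw [e]
  exact h2

end GD2

theorem gdens_dec (hd : 0 < d) (hS : Setup μ p c S) (m : ℕ) (b : Bool) {j i : ℕ} (hji : j ≤ i) :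
    gdens μ c S m b i - gdens μ c S m b (i + 1) ≤ 2 / 2 ^ m *
      ((gdens μ c S m true j ^ 2 + gdens μ c S m false j ^ 2) / 2 +
        heat d (2 * ((i : ℝ) - j) / 2 ^ m) 0) := by
  obtain ⟨h, hhd⟩ : ∃ h : ℝ, h = 1 / 2 ^ m := ⟨_, rfl⟩
  have hh : 0 ≤ h := by rw [hhd]; positivity
  have hs : (0 : ℝ) ≤ ((i : ℝ) - j) / 2 ^ m := by
    have : (j : ℝ) ≤ i := by exact_mod_cast hji
    have h2 : (0 : ℝ) ≤ (i : ℝ) - j := by linarith
    positivity
  obtain ⟨s, hsd⟩ : ∃ s : ℝ, s = ((i : ℝ) - j) / 2 ^ m := ⟨_, rfl⟩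
  have e1 : 2 * ((i : ℝ) - j) / 2 ^ m = 2 * s := by rw [hsd]; ring
  have e2 : (2 : ℝ) / 2 ^ m = 2 * h := by rw [hhd]; ring
  rw [e1, e2]
  obtain ⟨B, hB⟩ : ∃ B : ℝ, B = (gdens μ c S m true j ^ 2 + gdens μ c S m false j ^ 2) / 2 +
    heat d (2 * s) 0 := ⟨_, rfl⟩
  rw [← hsd] at hs
  have hB0 : 0 ≤ B := by
    rw [hB]
    have := heat_nonneg (d := d) (show (0 : ℝ) ≤ 2 * s by positivity) 0
    positivity
  rw [← hB]
  have key : ∀ A : Finset (Site d), ∫ ω, gw c S m A i b (fun z => heat d h (0 - z)) ω ∂μ ≤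
      ∫ ω, gw c S m A (i + 1) b (ind 0) ω ∂μ +
      ∑' q : Site d × Site d, (if q.1 = q.2 then 0 else FF d h q) * min 1 (BB μ c S m A j s q) := by
    intro A
    have h1 := loss hd hS m A i b (0 : Site d)
    rw [← hhd] at h1
    refine h1.trans (add_le_add le_rfl ?_)
    have hle : ∀ q : Site d × Site d, (if q.1 = q.2 then 0 else
        heat d h (0 - q.1) * heat d h (0 - q.2) *
          ∫ ω, gw c S m A i true (ind q.1) ω * gw c S m A i false (ind q.2) ω ∂μ) ≤
        (if q.1 = q.2 then 0 else FF d h q) * min 1 (BB μ c S m A j s q) := by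
      intro q
      split_ifs with hq
      · rw [zero_mul]
      · refine mul_le_mul_of_nonneg_left ?_ (FF_nonneg hh q)
        rw [hsd]
        exact le_min (pair_le_one hd hS m A i q.1 q.2) (pair_le_BB hd hS m A hji q)
    have h0 : ∀ q : Site d × Site d, 0 ≤ (if q.1 = q.2 then 0 else
        heat d h (0 - q.1) * heat d h (0 - q.2) *
          ∫ ω, gw c S m A i true (ind q.1) ω * gw c S m A i false (ind q.2) ω ∂μ) := by
      intro q
      split_ifs with hq
      · exact le_rfl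
      · refine mul_nonneg (FF_nonneg hh q) (integral_nonneg fun ω => ?_)
        exact mul_nonneg (gw_nonneg' c S m A i true (ind_nonneg _) ω)
          (gw_nonneg' c S m A i false (ind_nonneg _) ω)
    have hsum : Summable (fun q : Site d × Site d =>
        (if q.1 = q.2 then 0 else FF d h q) * min 1 (BB μ c S m A j s q)) := by
      refine Summable.of_nonneg_of_le (fun q => (h0 q).trans (hle q)) (fun q => ?_)
        (FF_hasSum hd hh).summable
      have hm : min 1 (BB μ c S m A j s q) ≤ 1 := min_le_left _ _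
      have hm0 : 0 ≤ min 1 (BB μ c S m A j s q) := le_min zero_le_one (BB_nonneg hs m A j q)
      have hF := FF_nonneg (d := d) hh q
      split_ifs
      · rw [zero_mul]
        exact hF
      · exact mul_le_of_le_one_right hF hm
    exact Summable.tsum_le_tsum hle (Summable.of_nonneg_of_le h0 hle hsum) hsum
  have t1 := gdens_tendsto_fun hd hS m b i (φ := fun z => heat d h (0 - z))
    (heat_sub hd hh 0).summable (fun z => heat_nonneg hh _)
  rw [(heat_sub hd hh 0).tsum_eq, mul_one] at t1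
  have t2 := gdens_tendsto hd hS m b (i + 1) 0
  have t3 : Tendsto (fun A : Finset (Site d) => ∑' q : Site d × Site d,
      (if q.1 = q.2 then 0 else FF d h q) * min 1 (BB μ c S m A j s q)) atTop
      (𝓝 (∑' q : Site d × Site d, (if q.1 = q.2 then 0 else FF d h q) * min 1 B)) := by
    refine tendsto_tsum_of_dominated_convergence (bound := FF d h) (FF_hasSum hd hh).summable ?_ ?_
    · intro q
      refine Tendsto.const_mul _ ?_
      rw [hB]
      exact tendsto_const_nhds.min (BB_tendsto hd hS m j hs q)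
    · refine Eventually.of_forall fun A q => ?_
      have hm : min 1 (BB μ c S m A j s q) ≤ 1 := min_le_left _ _
      have hm0 : 0 ≤ min 1 (BB μ c S m A j s q) := le_min zero_le_one (BB_nonneg hs m A j q)
      have hF := FF_nonneg (d := d) hh q
      rw [Real.norm_eq_abs, abs_mul, abs_of_nonneg hm0]
      split_ifs
      · rw [abs_zero, zero_mul]
        exact hF
      · rw [abs_of_nonneg hF]
        exact mul_le_of_le_one_right hF hm
  have t4 := le_of_tendsto_of_tendsto' t1 (t2.add t3) key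
  rw [tsum_mul_right, (off_hasSum hd hh).tsum_eq] at t4
  have h5 : 1 - heat d (2 * h) 0 ≤ 2 * h := one_sub_heat hd (by positivity)
  have h6 : 0 ≤ 1 - heat d (2 * h) 0 := sub_nonneg.2 (heat_le_one hd (by positivity) 0)
  have h7 : (1 - heat d (2 * h) 0) * min 1 B ≤ 2 * h * B :=
    mul_le_mul h5 (min_le_right _ _) (le_min zero_le_one hB0) (by positivity)
  linarith

theorem gdens_diff (hd : 0 < d) (hp : 0 ≤ p) (hS : Setup μ p c S) (m : ℕ) (i : ℕ) :
    gdens μ c S m true i - gdens μ c S m false i = 2 * p - 1 := by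
  have ht : (0 : ℝ) ≤ (i : ℝ) / 2 ^ m := by positivity
  have h1 := (gdens_tendsto hd hS m true i 0).sub (gdens_tendsto hd hS m false i 0)
  have h2 : Tendsto (fun A : Finset (Site d) => (2 * p - 1) *
      ∑ x ∈ A, heat d ((i : ℝ) / 2 ^ m) (0 - x)) atTop (𝓝 ((2 * p - 1) * 1)) :=
    Tendsto.const_mul _ (heat_sub hd ht 0)
  rw [mul_one] at h2
  refine tendsto_nhds_unique h1 (h2.congr fun A => ?_)
  have h3 := gt_mean hd hp hS m A i (abs_ind (0 : Site d))
  rw [Pt_ind] at h3
  rw [← h3, ← integral_sub (gw_integrable hS m A i true (abs_ind 0))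
    (gw_integrable hS m A i false (abs_ind 0))]
  refine integral_congr_ae (Eventually.of_forall fun ω => ?_)
  show gt c S m A i (ind 0) ω = gw c S m A i true (ind 0) ω - gw c S m A i false (ind 0) ω
  unfold gt gw tot wt
  rw [Finset.sum_filter, Finset.sum_filter, ← Finset.sum_sub_distrib]
  refine Finset.sum_congr rfl fun x _ => ?_
  cases h : c x ω <;> simp [sg, h]

/-- Over one unit of time (sum of `2^m` decrements), for `p = 1/2`. -/
theorem gdens_dec_unit (hd : 0 < d) (hS : Setup μ (1 / 2) c S) (m : ℕ) {t' t : ℕ}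
    (h : t' ≤ t) :
    gdens μ c S m true (t * 2 ^ m) - gdens μ c S m true ((t + 1) * 2 ^ m) ≤
      2 * (gdens μ c S m true (t' * 2 ^ m) ^ 2 + heat d (2 * ((t : ℝ) - t')) 0) := by
  have h2 : (0 : ℝ) < 2 ^ m := by positivity
  have htt : (t' : ℝ) ≤ t := by exact_mod_cast h
  have heq : gdens μ c S m false (t' * 2 ^ m) = gdens μ c S m true (t' * 2 ^ m) := by
    have := gdens_diff hd (by norm_num) hS m (t' * 2 ^ m)
    linarith
  obtain ⟨G, hG⟩ : ∃ G : ℝ, G = gdens μ c S m true (t' * 2 ^ m) ^ 2 + heat d (2 * ((t : ℝ) - t')) 0 :=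
    ⟨_, rfl⟩
  have key : ∀ n : ℕ, gdens μ c S m true (t * 2 ^ m) - gdens μ c S m true (t * 2 ^ m + n) ≤
      n * (2 / 2 ^ m * G) := by
    intro n
    induction n with
    | zero => simp
    | succ n ih =>
      have hj : t' * 2 ^ m ≤ t * 2 ^ m + n :=
        (Nat.mul_le_mul_right _ h).trans (Nat.le_add_right _ _)
      have h1 := gdens_dec hd hS m true hj
      rw [heq] at h1
      have h3 : heat d (2 * (((t * 2 ^ m + n : ℕ) : ℝ) - (t' * 2 ^ m : ℕ)) / 2 ^ m) 0 ≤
          heat d (2 * ((t : ℝ) - t')) 0 := by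
        refine heat_zero_anti hd (by linarith) ?_
        rw [le_div_iff₀ h2]
        push_cast
        have : (0 : ℝ) ≤ n := Nat.cast_nonneg n
        nlinarith
      have h4 : 2 / 2 ^ m * ((gdens μ c S m true (t' * 2 ^ m) ^ 2 +
          gdens μ c S m true (t' * 2 ^ m) ^ 2) / 2 +
          heat d (2 * (((t * 2 ^ m + n : ℕ) : ℝ) - (t' * 2 ^ m : ℕ)) / 2 ^ m) 0) ≤ 2 / 2 ^ m * G := by
        refine mul_le_mul_of_nonneg_left ?_ (by positivity)
        rw [hG]
        linarith
      have h5 : gdens μ c S m true (t * 2 ^ m + (n + 1)) = gdens μ c S m true (t * 2 ^ m + n + 1) :=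
        rfl
      rw [h5]
      push_cast
      linarith
  have h1 := key (2 ^ m)
  have e : (t + 1) * 2 ^ m = t * 2 ^ m + 2 ^ m := by ring
  rw [e, ← hG]
  refine h1.trans (le_of_eq ?_)
  push_cast
  field_simp

end Pool.Agent.T2H99.AW
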