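import Pool.Agent.T2H99.AW.FE1
import Pool.Agent.T2H99.AW.FE2
import Pool.Agent.T2H99.AW.GD2

set_option autoImplicit false

/-!
# AW, package FE3: the finite energy argument (uses FE1, GD, G, MK, PR)
-/

namespace Pool.Agent.T2H99.AW

open Finset Filter Topology MeasureTheory ProbabilityTheory
open scoped NNReal ENNReal BigOperators

variable {d : ℕ} {Ω : Type} [mΩ : MeasurableSpace Ω] {μ : Measure Ω} [IsProbabilityMeasure μ]
  {p : ℝ} {c : Site d → Ω → Bool} {S : Site d → ℝ≥0 → Ω → Site d}

namespace FE3aux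

omit mΩ in
lemma meas_gAlive {m' : MeasurableSpace Ω} {c : Ω → Site d → Bool} {P : Ω → ℕ → Site d → Site d}
    (A : Finset (Site d)) (n : ℕ) (hc : ∀ x ∈ A, Measurable[m'] (fun ω => c ω x))
    (hP : ∀ j ≤ n, ∀ x ∈ A, Measurable[m'] (fun ω => P ω j x)) (X : Set (Finset (Site d))) :
    MeasurableSet[m'] {ω | gAlive (c ω) (P ω) A n ∈ X} := by
  classical
  let f : Ω → (A → Bool) × (Fin (n + 1) → A → Site d) :=
    fun ω => (fun x => c ω x, fun j x => P ω j x)
  let g : (A → Bool) × (Fin (n + 1) → A → Site d) → Finset (Site d) := fun q =>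
    gAlive (fun x => if h : x ∈ A then q.1 ⟨x, h⟩ else false)
      (fun j x => if h : x ∈ A ∧ j < n + 1 then q.2 ⟨j, h.2⟩ ⟨x, h.1⟩ else 0) A n
  have hfg : ∀ ω, gAlive (c ω) (P ω) A n = g (f ω) := by
    intro ω
    apply gAlive_congr
    · intro x hx
      simp [f, hx]
    · intro j hj x hx
      have : x ∈ A ∧ j < n + 1 := ⟨hx, by omega⟩
      simp [f, this]
  have hf : Measurable[m'] f := by
    refine Measurable.prodMk ?_ ?_
    · exact measurable_pi_lambda _ fun x => hc x x.2
    · exact measurable_pi_lambda _ fun j => measurable_pi_lambda _ fun x =>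
        hP j (by have := j.2; omega) x x.2
  have : {ω | gAlive (c ω) (P ω) A n ∈ X} = f ⁻¹' (g ⁻¹' X) := by
    ext ω
    simp [hfg ω]
  rw [this]
  exact hf (Set.Countable.measurableSet (Set.to_countable _))

/-- Sum and integral. -/
lemma tsum_int {F : Site d → Ω → ℝ} {G : Ω → ℝ} {C : ℝ} (hF : ∀ w, Measurable (F w))
    (h0 : ∀ w ω, 0 ≤ F w ω) (hG : ∀ ω, HasSum (fun w => F w ω) (G ω)) (hG1 : ∀ ω, G ω ≤ C) :
    HasSum (fun w => ∫ ω, F w ω ∂μ) (∫ ω, G ω ∂μ) := by
  have hb : ∀ w ω, F w ω ≤ C := fun w ω => (le_hasSum (hG ω) w fun j _ => h0 j ω).trans (hG1 ω)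
  have hi : ∀ w, Integrable (F w) μ := fun w => by
    refine Integrable.of_bound (hF w).aestronglyMeasurable C (ae_of_all _ fun ω => ?_)
    rw [Real.norm_eq_abs, abs_of_nonneg (h0 w ω)]
    exact hb w ω
  have h1 := hasSum_integral_of_summable_integral_norm (μ := μ) hi (by
    refine summable_of_sum_le (c := C) (fun w => integral_nonneg fun ω => norm_nonneg _) ?_
    intro s
    rw [← integral_finsetSum s fun w _ => (hi w).norm]
    have : ∀ ω, ∑ w ∈ s, ‖F w ω‖ ≤ C := fun ω => by
      have : ∀ w ∈ s, ‖F w ω‖ = F w ω := fun w _ => by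
        rw [Real.norm_eq_abs, abs_of_nonneg (h0 w ω)]
      rw [Finset.sum_congr rfl this]
      exact (sum_le_hasSum s (fun w _ => h0 w ω) (hG ω)).trans (hG1 ω)
    calc ∫ ω, ∑ w ∈ s, ‖F w ω‖ ∂μ ≤ ∫ _, C ∂μ :=
          integral_mono (integrable_finsetSum s fun w _ => (hi w).norm)
            (integrable_const _) this
      _ = C := by simp)
  have h2 : ∀ ω, ∑' w, F w ω = G ω := fun ω => (hG ω).tsum_eq
  simpa only [h2] using h1


omit mΩ in
lemma gpos_succ (S : Site d → ℝ≥0 → Ω → Site d) (m : ℕ) (ω : Ω) (i : ℕ) (x : Site d) :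
    gpos S m ω (i + 1) x = gpos S m ω i x +
      (S x (((i + 1 : ℕ) : ℝ≥0) / 2 ^ m) ω - S x ((i : ℝ≥0) / 2 ^ m) ω) := by
  unfold gpos posn
  abel

lemma meas_gpos' (hS : Setup μ p c S) (m : ℕ) (i : ℕ) (x : Site d) :
    Measurable (fun ω => gpos S m ω i x) :=
  (meas_gpos c S m (A := Set.univ) (Set.mem_univ x) (i := i) (s := (i : ℝ≥0) / 2 ^ m)
    le_rfl).mono (hist_le hS _ _) le_rfl

/-- The meeting of `b` and `0` in one step. -/
lemma meet_step (hd : 0 < d) (hS : Setup μ p c S) (m : ℕ) (i : ℕ) {b : Site d} (hb : b ≠ 0)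
    {X : Ω → ℝ} (hX : Measurable[hist c S Set.univ ((i : ℝ≥0) / 2 ^ m)] X)
    (hX0 : ∀ ω, 0 ≤ X ω) (hX1 : ∀ ω, X ω ≤ 1) :
    ∫ ω, X ω * (if gpos S m ω (i + 1) b = gpos S m ω (i + 1) 0 then 1 else 0) ∂μ =
      ∫ ω, X ω * heat d (2 / 2 ^ m) (gpos S m ω i b - gpos S m ω i 0) ∂μ := by
  classical
  have hX' : Measurable X := hX.mono (hist_le hS _ _) le_rfl
  have hh : (0 : ℝ) ≤ 1 / 2 ^ m := by positivity
  have hY := meas_gpos c S m (A := Set.univ) (Set.mem_univ b) (i := i) (s := (i : ℝ≥0) / 2 ^ m)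
    le_rfl
  have hZ := meas_gpos c S m (A := Set.univ) (Set.mem_univ (0 : Site d)) (i := i)
    (s := (i : ℝ≥0) / 2 ^ m) le_rfl
  have hst : (i : ℝ≥0) / 2 ^ m ≤ ((i + 1 : ℕ) : ℝ≥0) / 2 ^ m := by
    gcongr
    exact Nat.le_succ i
  have hts : ((((i + 1 : ℕ) : ℝ≥0) / 2 ^ m : ℝ≥0) : ℝ) - (((i : ℝ≥0) / 2 ^ m : ℝ≥0) : ℝ) =
      1 / 2 ^ m := by
    push_cast
    ring
  have h1 : HasSum (fun w => ∫ ω, X ω * (ind w (gpos S m ω (i + 1) b) *
      ind w (gpos S m ω (i + 1) 0)) ∂μ)
      (∫ ω, X ω * (if gpos S m ω (i + 1) b = gpos S m ω (i + 1) 0 then 1 else 0) ∂μ) := by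
    refine tsum_int (C := 1) ?_ ?_ ?_ ?_
    · intro w
      exact hX'.mul (((measurable_of_countable (ind w)).comp (meas_gpos' hS m (i + 1) b)).mul
        ((measurable_of_countable (ind w)).comp (meas_gpos' hS m (i + 1) 0)))
    · intro w ω
      have : ∀ z, 0 ≤ ind w z := fun z => by unfold ind; split_ifs <;> norm_num
      exact mul_nonneg (hX0 ω) (mul_nonneg (this _) (this _))
    · intro ω
      refine HasSum.mul_left _ ?_
      by_cases h : gpos S m ω (i + 1) b = gpos S m ω (i + 1) 0
      · rw [if_pos h]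
        have := hasSum_ite_eq (gpos S m ω (i + 1) 0) (1 : ℝ)
        have e : (fun w : Site d => ind w (gpos S m ω (i + 1) b) * ind w (gpos S m ω (i + 1) 0)) =
            fun w => if w = gpos S m ω (i + 1) 0 then (1 : ℝ) else 0 := by
          funext w
          rw [h]
          unfold ind
          by_cases hw : w = gpos S m ω (i + 1) 0
          · simp [hw]
          · have : gpos S m ω (i + 1) 0 ≠ w := fun h => hw h.symm
            simp [hw, this]
        rw [e]
        exact this
      · rw [if_neg h]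
        have e : (fun w : Site d => ind w (gpos S m ω (i + 1) b) * ind w (gpos S m ω (i + 1) 0)) =
            fun w => (0 : ℝ) := by
          funext w
          unfold ind
          by_cases h1 : gpos S m ω (i + 1) b = w
          · have h2 : gpos S m ω (i + 1) 0 ≠ w := fun h2 => h (h1.trans h2.symm)
            simp [h2]
          · simp [h1]
        rw [e]
        exact hasSum_zero
    · intro ω
      have : (if gpos S m ω (i + 1) b = gpos S m ω (i + 1) 0 then (1 : ℝ) else 0) ≤ 1 := by
        split_ifs <;> norm_num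
      have h0 : (0 : ℝ) ≤ (if gpos S m ω (i + 1) b = gpos S m ω (i + 1) 0 then (1 : ℝ) else 0) := by
        split_ifs <;> norm_num
      nlinarith [hX0 ω, hX1 ω]
  have h2 : HasSum (fun w => ∫ ω, X ω * (heat d (1 / 2 ^ m) (w - gpos S m ω i b) *
      heat d (1 / 2 ^ m) (w - gpos S m ω i 0)) ∂μ)
      (∫ ω, X ω * heat d (2 / 2 ^ m) (gpos S m ω i b - gpos S m ω i 0) ∂μ) := by
    refine tsum_int (C := 1) ?_ ?_ ?_ ?_
    · intro w
      exact hX'.mul (((measurable_of_countable (fun z => heat d (1 / 2 ^ m) (w - z))).comp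
        (meas_gpos' hS m i b)).mul
        ((measurable_of_countable (fun z => heat d (1 / 2 ^ m) (w - z))).comp
          (meas_gpos' hS m i 0)))
    · intro w ω
      exact mul_nonneg (hX0 ω) (mul_nonneg (heat_nonneg hh _) (heat_nonneg hh _))
    · intro ω
      refine HasSum.mul_left _ ?_
      have := heat_conv hd hh hh (gpos S m ω i b - gpos S m ω i 0)
      rw [show (1 : ℝ) / 2 ^ m + 1 / 2 ^ m = 2 / 2 ^ m by ring] at this
      rw [← (Equiv.addRight (gpos S m ω i 0)).hasSum_iff]
      have e : ((fun w => heat d (1 / 2 ^ m) (w - gpos S m ω i b) *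
          heat d (1 / 2 ^ m) (w - gpos S m ω i 0)) ∘ ⇑(Equiv.addRight (gpos S m ω i 0))) =
          fun y => heat d (1 / 2 ^ m) y *
            heat d (1 / 2 ^ m) (gpos S m ω i b - gpos S m ω i 0 - y) := by
        funext w
        simp only [Function.comp_apply, Equiv.coe_addRight, add_sub_cancel_right]
        rw [mul_comm, ← heat_symm (d := d) (1 / 2 ^ m) (w + gpos S m ω i 0 - gpos S m ω i b)]
        congr 2
        abel
      rw [e]
      exact this
    · intro ω
      have h1 := heat_le_one hd (t := 2 / 2 ^ m) (by positivity) (gpos S m ω i b - gpos S m ω i 0)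
      have h0 := heat_nonneg (d := d) (t := 2 / 2 ^ m) (by positivity)
        (gpos S m ω i b - gpos S m ω i 0)
      nlinarith [hX0 ω, hX1 ω]
  have h3 : ∀ w, ∫ ω, X ω * (ind w (gpos S m ω (i + 1) b) * ind w (gpos S m ω (i + 1) 0)) ∂μ =
      ∫ ω, X ω * (heat d (1 / 2 ^ m) (w - gpos S m ω i b) *
        heat d (1 / 2 ^ m) (w - gpos S m ω i 0)) ∂μ := by
    intro w
    have hw : ∀ z, |ind w z| ≤ 1 := fun z => by unfold ind; split_ifs <;> simp
    have := markov2 hd hS hst hst hX (C := 1) (fun ω => by rw [abs_of_nonneg (hX0 ω)]; exact hX1 ω)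
      hY hZ hb hw hw
    rw [hts] at this
    simp only [gpos_succ]
    rw [this]
    refine integral_congr_ae (ae_of_all _ fun ω => ?_)
    have e : (ind w : Site d → ℝ) = fun z => if z = w then 1 else 0 := rfl
    beta_reduce
    rw [e, Pt_single, Pt_single]
  simp only [h3] at h1
  exact h1.unique h2


/-- The weight of a meeting in one step. -/
noncomputable def mw (d m : ℕ) (u v : Site d) : ℝ := if v = u then 0 else heat d (2 / 2 ^ m) (v - u)

omit mΩ in
lemma mw_nonneg (m : ℕ) (u v : Site d) : 0 ≤ mw d m u v := by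
  unfold mw
  split_ifs
  · exact le_rfl
  · exact heat_nonneg (by positivity) _

omit mΩ in
lemma mw_le_one (hd : 0 < d) (m : ℕ) (u v : Site d) : mw d m u v ≤ 1 := by
  unfold mw
  split_ifs
  · exact zero_le_one
  · exact heat_le_one hd (by positivity) _

omit mΩ in
lemma mw_abs (hd : 0 < d) (m : ℕ) (u v : Site d) : |mw d m u v| ≤ 1 := by
  rw [abs_of_nonneg (mw_nonneg m u v)]
  exact mw_le_one hd m u v

omit mΩ in
lemma mw_hasSum (hd : 0 < d) (m : ℕ) (u : Site d) :
    HasSum (mw d m u) (1 - heat d (2 / 2 ^ m) 0) := by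
  have h1 := heat_hasSum (d := d) hd (t := 2 / 2 ^ m) (by positivity)
  have h2 : HasSum (fun v => heat d (2 / 2 ^ m) (v - u)) 1 := by
    have := (Equiv.subRight u).hasSum_iff.2 h1
    exact this
  have h3 := hasSum_ite_eq u (heat d (2 / 2 ^ m) 0)
  have h4 := h2.sub h3
  have e : mw d m u = fun v => heat d (2 / 2 ^ m) (v - u) -
      (if v = u then heat d (2 / 2 ^ m) 0 else 0) := by
    funext v
    unfold mw
    by_cases h : v = u
    · simp [h]
    · simp [h]
  rw [e]
  exact h4

omit mΩ in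
lemma mw_tsum (hd : 0 < d) (m : ℕ) (u : Site d) : ∑' v, mw d m u v ≤ 2 / 2 ^ m := by
  rw [(mw_hasSum hd m u).tsum_eq]
  exact one_sub_heat hd (by positivity)

omit mΩ in
lemma meas_c (c : Site d → Ω → Bool) (S : Site d → ℝ≥0 → Ω → Site d) {A : Set (Site d)}
    {x : Site d} (hx : x ∈ A) (s : ℝ≥0) : Measurable[hist c S A s] (c x) := by
  have h1 : (MeasurableSpace.comap (c x) inferInstance) ≤ hist c S A s :=
    le_trans le_sup_left (le_iSup (fun x : A => (MeasurableSpace.comap (c x) inferInstance) ⊔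
      ⨆ u : Set.Iic s, MeasurableSpace.comap (S x u) inferInstance) ⟨x, hx⟩)
  exact (comap_measurable (c x)).mono h1 le_rfl

lemma hit_i (hd : 0 < d) (hS : Setup μ p c S) (m : ℕ) (i : ℕ) {A : Finset (Site d)}
    (h0 : (0 : Site d) ∉ A) :
    μ.real {ω | ∃ b ∈ ga c S m A i ω, c b ω = false ∧ gpos S m ω (i + 1) b = gpos S m ω (i + 1) 0 ∧
        gpos S m ω i b ≠ gpos S m ω i 0} ≤
      ∫ ω, gw c S m A i false (mw d m (gpos S m ω i 0)) ω ∂μ := by
  classical
  let X : Site d → Ω → ℝ := fun b ω => if b ∈ ga c S m A i ω ∧ c b ω = false ∧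
    gpos S m ω i b ≠ gpos S m ω i 0 then 1 else 0
  have hX0 : ∀ b ω, 0 ≤ X b ω := fun b ω => by
    show 0 ≤ (if _ then (1 : ℝ) else 0)
    split_ifs <;> norm_num
  have hX1 : ∀ b ω, X b ω ≤ 1 := fun b ω => by
    show (if _ then (1 : ℝ) else 0) ≤ 1
    split_ifs <;> norm_num
  have hXm : ∀ b, Measurable[hist c S Set.univ ((i : ℝ≥0) / 2 ^ m)] (X b) := by
    intro b
    refine Measurable.ite ?_ measurable_const measurable_const
    have h1 : MeasurableSet[hist c S Set.univ ((i : ℝ≥0) / 2 ^ m)]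
        {ω | b ∈ ga c S m A i ω} :=
      (hist_mono c S (Set.subset_univ _) le_rfl) _
        (meas_mem_ga c S m A (i := i) (s := (i : ℝ≥0) / 2 ^ m) le_rfl b)
    have h2 : MeasurableSet[hist c S Set.univ ((i : ℝ≥0) / 2 ^ m)] {ω | c b ω = false} :=
      (meas_c c S (Set.mem_univ b) _) (MeasurableSet.singleton false)
    have h3 : MeasurableSet[hist c S Set.univ ((i : ℝ≥0) / 2 ^ m)]
        {ω | gpos S m ω i b ≠ gpos S m ω i 0} := by
      have hY := meas_gpos c S m (A := Set.univ) (Set.mem_univ b) (i := i)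
        (s := (i : ℝ≥0) / 2 ^ m) le_rfl
      have hZ := meas_gpos c S m (A := Set.univ) (Set.mem_univ (0 : Site d)) (i := i)
        (s := (i : ℝ≥0) / 2 ^ m) le_rfl
      exact (measurableSet_eq_fun hY hZ).compl
    exact h1.inter (h2.inter h3)
  have hXm' : ∀ b, Measurable (X b) := fun b => (hXm b).mono (hist_le hS _ _) le_rfl
  have hmeet : ∀ b, MeasurableSet {ω | gpos S m ω (i + 1) b = gpos S m ω (i + 1) 0} := fun b =>
    measurableSet_eq_fun (meas_gpos' hS m (i + 1) b) (meas_gpos' hS m (i + 1) 0)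
  -- the event of one label
  have hEb : ∀ b, b ≠ 0 → μ.real ({ω | b ∈ ga c S m A i ω ∧ c b ω = false ∧
      gpos S m ω i b ≠ gpos S m ω i 0} ∩ {ω | gpos S m ω (i + 1) b = gpos S m ω (i + 1) 0}) =
      ∫ ω, X b ω * heat d (2 / 2 ^ m) (gpos S m ω i b - gpos S m ω i 0) ∂μ := by
    intro b hb
    rw [← meet_step hd hS m i hb (hXm b) (hX0 b) (hX1 b)]
    have hms : MeasurableSet {ω | b ∈ ga c S m A i ω ∧ c b ω = false ∧
        gpos S m ω i b ≠ gpos S m ω i 0} := by
      have := hXm' b (measurableSet_singleton (1 : ℝ))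
      convert this using 1
      ext ω
      simp only [Set.mem_ofPred_eq, Set.mem_preimage, Set.mem_singleton_iff, X]
      split_ifs with h
      · simp [h]
      · simp only [h, false_iff]
        norm_num
    rw [← integral_indicator_one (hms.inter (hmeet b))]
    refine integral_congr_ae (ae_of_all _ fun ω => ?_)
    by_cases h1 : b ∈ ga c S m A i ω ∧ c b ω = false ∧ gpos S m ω i b ≠ gpos S m ω i 0
    · by_cases h2 : gpos S m ω (i + 1) b = gpos S m ω (i + 1) 0
      · have : ω ∈ ({ω | b ∈ ga c S m A i ω ∧ c b ω = false ∧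
            gpos S m ω i b ≠ gpos S m ω i 0} ∩
              {ω | gpos S m ω (i + 1) b = gpos S m ω (i + 1) 0}) := ⟨h1, h2⟩
        rw [Set.indicator_of_mem this]
        simp [X, h1, h2]
      · have : ω ∉ ({ω | b ∈ ga c S m A i ω ∧ c b ω = false ∧
            gpos S m ω i b ≠ gpos S m ω i 0} ∩
              {ω | gpos S m ω (i + 1) b = gpos S m ω (i + 1) 0}) := fun h => h2 h.2
        rw [Set.indicator_of_notMem this]
        simp [h2]
    · have : ω ∉ ({ω | b ∈ ga c S m A i ω ∧ c b ω = false ∧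
          gpos S m ω i b ≠ gpos S m ω i 0} ∩
            {ω | gpos S m ω (i + 1) b = gpos S m ω (i + 1) 0}) := fun h => h1 h.1
      rw [Set.indicator_of_notMem this]
      simp only [X, if_neg h1, zero_mul]
  have hint : ∀ b ∈ A, Integrable (fun ω => X b ω *
      heat d (2 / 2 ^ m) (gpos S m ω i b - gpos S m ω i 0)) μ := by
    intro b _
    refine Integrable.of_bound (C := 1) ?_ (ae_of_all _ fun ω => ?_)
    · have : Measurable (fun ω => heat d (2 / 2 ^ m) (gpos S m ω i b - gpos S m ω i 0)) :=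
        (measurable_of_countable (heat d (2 / 2 ^ m))).comp
          ((meas_gpos' hS m i b).sub (meas_gpos' hS m i 0))
      exact ((hXm' b).mul this).aestronglyMeasurable
    · have h1 := heat_le_one hd (t := 2 / 2 ^ m) (by positivity)
        (gpos S m ω i b - gpos S m ω i 0)
      have h2 := heat_nonneg (d := d) (t := 2 / 2 ^ m) (by positivity)
        (gpos S m ω i b - gpos S m ω i 0)
      rw [Real.norm_eq_abs, abs_of_nonneg (mul_nonneg (hX0 b ω) h2)]
      nlinarith [hX0 b ω, hX1 b ω]
  calc μ.real {ω | ∃ b ∈ ga c S m A i ω, c b ω = false ∧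
        gpos S m ω (i + 1) b = gpos S m ω (i + 1) 0 ∧ gpos S m ω i b ≠ gpos S m ω i 0}
      ≤ μ.real (⋃ b ∈ A, ({ω | b ∈ ga c S m A i ω ∧ c b ω = false ∧
          gpos S m ω i b ≠ gpos S m ω i 0} ∩
            {ω | gpos S m ω (i + 1) b = gpos S m ω (i + 1) 0})) := by
        refine measureReal_mono ?_ (measure_ne_top _ _)
        rintro ω ⟨b, hb, h1, h2, h3⟩
        simp only [Set.mem_iUnion]
        exact ⟨b, gAlive_subset _ _ _ _ hb, ⟨hb, h1, h3⟩, h2⟩
    _ ≤ ∑ b ∈ A, μ.real ({ω | b ∈ ga c S m A i ω ∧ c b ω = false ∧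
          gpos S m ω i b ≠ gpos S m ω i 0} ∩
            {ω | gpos S m ω (i + 1) b = gpos S m ω (i + 1) 0}) :=
        measureReal_biUnion_finset_le _ _
    _ = ∑ b ∈ A, ∫ ω, X b ω * heat d (2 / 2 ^ m) (gpos S m ω i b - gpos S m ω i 0) ∂μ :=
        Finset.sum_congr rfl fun b hb => hEb b (by rintro rfl; exact h0 hb)
    _ = ∫ ω, ∑ b ∈ A, X b ω * heat d (2 / 2 ^ m) (gpos S m ω i b - gpos S m ω i 0) ∂μ :=
        (integral_finsetSum A hint).symm
    _ = ∫ ω, gw c S m A i false (mw d m (gpos S m ω i 0)) ω ∂μ := by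
        refine integral_congr_ae (ae_of_all _ fun ω => ?_)
        show _ = wt (fun x => c x ω) (gpos S m ω i) (ga c S m A i ω) false
          (mw d m (gpos S m ω i 0))
        unfold wt
        beta_reduce
        rw [← Finset.sum_subset ((Finset.filter_subset _ _).trans
          (gAlive_subset (fun x => c x ω) (gpos S m ω) A i) : (ga c S m A i ω).filter
            (fun x => c x ω = false) ⊆ A)]
        · refine Finset.sum_congr rfl fun b hb => ?_
          rw [Finset.mem_filter] at hb
          simp only [X, mw]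
          by_cases h : gpos S m ω i b = gpos S m ω i 0
          · simp [h]
          · simp [h, hb.1, hb.2]
        · intro b _ hb
          rw [Finset.mem_filter, not_and] at hb
          have : ¬ (b ∈ ga c S m A i ω ∧ c b ω = false ∧
              gpos S m ω i b ≠ gpos S m ω i 0) := fun h => hb h.1 h.2.1
          simp only [X, if_neg this, zero_mul]


/-- The event depends on `0` only through the independent position. -/
lemma indep_zero (hd : 0 < d) (hS : Setup μ p c S) (m : ℕ) (i : ℕ) {A : Finset (Site d)}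
    (h0 : (0 : Site d) ∉ A) :
    HasSum (fun u => heat d ((i : ℝ) / 2 ^ m) u * ∫ ω, gw c S m A i false (mw d m u) ω ∂μ)
      (∫ ω, gw c S m A i false (mw d m (gpos S m ω i 0)) ω ∂μ) := by
  classical
  have hgm : ∀ u, Measurable (gw c S m A i false (mw d m u)) := fun u =>
    (meas_gw c S m A (i := i) (s := (i : ℝ≥0) / 2 ^ m) le_rfl false _).mono (hist_le hS _ _) le_rfl
  have hg0 : ∀ u ω, 0 ≤ gw c S m A i false (mw d m u) ω := fun u ω =>
    Finset.sum_nonneg fun x _ => mw_nonneg m u _
  have hg1 : ∀ u ω, gw c S m A i false (mw d m u) ω ≤ A.card := fun u ω => by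
    have := gw_bdd c S m A i false (mw_abs hd m u) ω
    rw [mul_one] at this
    exact (le_abs_self _).trans this
  have h1 : HasSum (fun u => ∫ ω, (if gpos S m ω i 0 = u then (1 : ℝ) else 0) *
      gw c S m A i false (mw d m u) ω ∂μ)
      (∫ ω, gw c S m A i false (mw d m (gpos S m ω i 0)) ω ∂μ) := by
    refine tsum_int (C := A.card) ?_ ?_ ?_ ?_
    · intro u
      refine Measurable.mul ?_ (hgm u)
      exact (measurable_of_countable (fun z : Site d => if z = u then (1 : ℝ) else 0)).comp
        (meas_gpos' hS m i 0)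
    · intro u ω
      refine mul_nonneg ?_ (hg0 u ω)
      split_ifs <;> norm_num
    · intro ω
      have h2 := hasSum_ite_eq (gpos S m ω i 0) (gw c S m A i false (mw d m (gpos S m ω i 0)) ω)
      have e : (fun u => (if gpos S m ω i 0 = u then (1 : ℝ) else 0) *
          gw c S m A i false (mw d m u) ω) = fun u => if u = gpos S m ω i 0 then
            gw c S m A i false (mw d m (gpos S m ω i 0)) ω else 0 := by
        funext u
        by_cases h : u = gpos S m ω i 0
        · rw [if_pos h, if_pos h.symm, one_mul, h]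
        · rw [if_neg h, if_neg (fun h' => h h'.symm), zero_mul]
      rw [e]
      exact h2
    · intro ω
      exact hg1 _ ω
  have h2 : ∀ u, ∫ ω, (if gpos S m ω i 0 = u then (1 : ℝ) else 0) *
      gw c S m A i false (mw d m u) ω ∂μ =
      heat d ((i : ℝ) / 2 ^ m) u * ∫ ω, gw c S m A i false (mw d m u) ω ∂μ := by
    intro u
    have hind : Indep (⨆ x ∈ ({0} : Set (Site d)), lab c S x) (⨆ x ∈ (A : Set (Site d)), lab c S x)
        μ := by
      refine indep_iSup_of_disjoint (fun x => lab_le hS x) (lab_iIndep hS) ?_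
      rw [Set.disjoint_singleton_left]
      exact_mod_cast h0
    have hm1 : Measurable[⨆ x ∈ ({0} : Set (Site d)), lab c S x]
        (fun ω => if gpos S m ω i 0 = u then (1 : ℝ) else 0) := by
      have h3 : Measurable[⨆ x ∈ ({0} : Set (Site d)), lab c S x]
          (fun ω => gpos S m ω i 0) := by
        have h4 : Measurable[⨆ x ∈ ({0} : Set (Site d)), lab c S x]
            (fun ω => S 0 ((i : ℝ≥0) / 2 ^ m) ω) := by
          have h5 : MeasurableSpace.comap (S 0 ((i : ℝ≥0) / 2 ^ m)) inferInstance ≤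
              ⨆ x ∈ ({0} : Set (Site d)), lab c S x := by
            refine le_trans ?_ (le_iSup₂_of_le (0 : Site d) (Set.mem_singleton _) le_rfl)
            exact le_trans (le_iSup (fun u : ℝ≥0 => MeasurableSpace.comap (S 0 u) inferInstance) _)
              le_sup_right
          exact (comap_measurable _).mono h5 le_rfl
        exact (measurable_of_countable (fun z : Site d => 0 + z)).comp h4
      exact (measurable_of_countable (fun z : Site d => if z = u then (1 : ℝ) else 0)).comp h3
    have hm2 : Measurable[⨆ x ∈ (A : Set (Site d)), lab c S x]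
        (gw c S m A i false (mw d m u)) := by
      refine (meas_gw c S m A (i := i) (s := (i : ℝ≥0) / 2 ^ m) le_rfl false _).mono ?_ le_rfl
      refine (hist_le_lab c S A _).trans ?_
      exact iSup_le fun x => le_iSup₂_of_le x.1 x.2 le_rfl
    have hI : IndepFun (fun ω => if gpos S m ω i 0 = u then (1 : ℝ) else 0)
        (gw c S m A i false (mw d m u)) μ := by
      rw [IndepFun_iff_Indep]
      exact indep_of_indep_of_le_left (indep_of_indep_of_le_right hind hm2.comap_le) hm1.comap_le
    have hm1' : Measurable (fun ω => if gpos S m ω i 0 = u then (1 : ℝ) else 0) :=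
      (measurable_of_countable (fun z : Site d => if z = u then (1 : ℝ) else 0)).comp
        (meas_gpos' hS m i 0)
    have h3 := hI.integral_mul_eq_mul_integral hm1'.aestronglyMeasurable
      (hgm u).aestronglyMeasurable
    have h4 : ∫ ω, (if gpos S m ω i 0 = u then (1 : ℝ) else 0) ∂μ = heat d ((i : ℝ) / 2 ^ m) u := by
      have hms : MeasurableSet {ω | gpos S m ω i 0 = u} :=
        (meas_gpos' hS m i 0) (measurableSet_singleton u)
      have e : (fun ω => (if gpos S m ω i 0 = u then (1 : ℝ) else 0)) =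
          Set.indicator {ω | gpos S m ω i 0 = u} 1 := by
        funext ω
        by_cases h : gpos S m ω i 0 = u
        · rw [if_pos h, Set.indicator_of_mem (show ω ∈ {ω | gpos S m ω i 0 = u} from h)]
          rfl
        · rw [if_neg h, Set.indicator_of_notMem (show ω ∉ {ω | gpos S m ω i 0 = u} from h)]
      rw [e, integral_indicator_one hms]
      have h5 := (hS.walk 0).incr 0 ((i : ℝ≥0) / 2 ^ m) zero_le u
      have e2 : {ω | S 0 ((i : ℝ≥0) / 2 ^ m) ω - S 0 0 ω = u} = {ω | gpos S m ω i 0 = u} := by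
        ext ω
        simp only [Set.mem_ofPred_eq, (hS.walk 0).zero ω, sub_zero, gpos, posn, zero_add]
      have e3 : ((((i : ℝ≥0) / 2 ^ m : ℝ≥0)) : ℝ) - ((0 : ℝ≥0) : ℝ) = (i : ℝ) / 2 ^ m := by
        push_cast
        rw [sub_zero]
      rw [e2, e3] at h5
      rw [measureReal_def, h5, ENNReal.toReal_ofReal (heat_nonneg (by positivity) _)]
    rw [← h4, ← h3]
    rfl
  simp only [h2] at h1
  exact h1


lemma prob_false (hS : Setup μ (1 / 2) c S) (x : Site d) :
    μ.real {ω | c x ω = false} = 1 / 2 := by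
  have h1 := hS.cprob x
  have hm : MeasurableSet {ω | c x ω = true} := (hS.cmeas x) (measurableSet_singleton true)
  have e : {ω | c x ω = false} = {ω | c x ω = true}ᶜ := by
    ext ω
    simp
  rw [e, measureReal_compl hm, measureReal_def, measureReal_def, h1]
  rw [ENNReal.toReal_ofReal (by norm_num)]
  simp
  norm_num

lemma double (hS : Setup μ (1 / 2) c S) (m : ℕ) (i : ℕ) {A : Finset (Site d)}
    (h0 : (0 : Site d) ∈ A) {φ : Site d → ℝ} {K : ℝ} (hφ0 : ∀ z, 0 ≤ φ z) (hφ : ∀ z, φ z ≤ K) :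
    ∫ ω, gw c S m (A.erase 0) i false φ ω ∂μ ≤ 2 * ∫ ω, gw c S m A i false φ ω ∂μ := by
  classical
  have hφa : ∀ z, |φ z| ≤ K := fun z => by rw [abs_of_nonneg (hφ0 z)]; exact hφ z
  have hgm : Measurable (gw c S m (A.erase 0) i false φ) :=
    (meas_gw c S m _ (i := i) (s := (i : ℝ≥0) / 2 ^ m) le_rfl false _).mono (hist_le hS _ _) le_rfl
  have hind : Indep (⨆ x ∈ ({0} : Set (Site d)), lab c S x)
      (⨆ x ∈ ((A.erase 0 : Finset (Site d)) : Set (Site d)), lab c S x) μ := by
    refine indep_iSup_of_disjoint (fun x => lab_le hS x) (lab_iIndep hS) ?_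
    rw [Set.disjoint_singleton_left]
    simp
  have hc0 : Measurable[⨆ x ∈ ({0} : Set (Site d)), lab c S x] (c 0) := by
    have h5 : MeasurableSpace.comap (c 0) inferInstance ≤
        ⨆ x ∈ ({0} : Set (Site d)), lab c S x := by
      refine le_trans ?_ (le_iSup₂_of_le (0 : Site d) (Set.mem_singleton _) le_rfl)
      exact le_sup_left
    exact (comap_measurable _).mono h5 le_rfl
  have hm1 : Measurable[⨆ x ∈ ({0} : Set (Site d)), lab c S x]
      (fun ω => if c 0 ω = false then (1 : ℝ) else 0) :=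
    (measurable_of_countable (fun z : Bool => if z = false then (1 : ℝ) else 0)).comp hc0
  have hm1' : Measurable (fun ω => if c 0 ω = false then (1 : ℝ) else 0) :=
    (measurable_of_countable (fun z : Bool => if z = false then (1 : ℝ) else 0)).comp (hS.cmeas 0)
  have hm2 : Measurable[⨆ x ∈ ((A.erase 0 : Finset (Site d)) : Set (Site d)), lab c S x]
      (gw c S m (A.erase 0) i false φ) := by
    refine (meas_gw c S m _ (i := i) (s := (i : ℝ≥0) / 2 ^ m) le_rfl false _).mono ?_ le_rfl
    refine (hist_le_lab c S _ _).trans ?_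
    exact iSup_le fun x => le_iSup₂_of_le x.1 x.2 le_rfl
  have hI : IndepFun (fun ω => if c 0 ω = false then (1 : ℝ) else 0)
      (gw c S m (A.erase 0) i false φ) μ := by
    rw [IndepFun_iff_Indep]
    exact indep_of_indep_of_le_left (indep_of_indep_of_le_right hind hm2.comap_le) hm1.comap_le
  have h3 := hI.integral_mul_eq_mul_integral hm1'.aestronglyMeasurable hgm.aestronglyMeasurable
  have h4 : ∫ ω, (if c 0 ω = false then (1 : ℝ) else 0) ∂μ = 1 / 2 := by
    have hms : MeasurableSet {ω | c 0 ω = false} := (hS.cmeas 0) (measurableSet_singleton false)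
    have e : (fun ω => (if c 0 ω = false then (1 : ℝ) else 0)) =
        Set.indicator {ω | c 0 ω = false} 1 := by
      funext ω
      by_cases h : c 0 ω = false
      · rw [if_pos h, Set.indicator_of_mem (show ω ∈ {ω | c 0 ω = false} from h)]
        rfl
      · rw [if_neg h, Set.indicator_of_notMem (show ω ∉ {ω | c 0 ω = false} from h)]
    rw [e, integral_indicator_one hms, prob_false hS]
  rw [h4] at h3
  have h5 : ∫ ω, ((fun ω => if c 0 ω = false then (1 : ℝ) else 0) *
      (gw c S m (A.erase 0) i false φ)) ω ∂μ ≤ ∫ ω, gw c S m A i false φ ω ∂μ := by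
    refine integral_mono_of_nonneg (ae_of_all _ fun ω => ?_) (gw_integrable hS m A i false hφa)
      (ae_of_all _ fun ω => ?_)
    · show 0 ≤ (if c 0 ω = false then (1 : ℝ) else 0) * gw c S m (A.erase 0) i false φ ω
      refine mul_nonneg (by split_ifs <;> norm_num) (Finset.sum_nonneg fun x _ => hφ0 _)
    · show (if c 0 ω = false then (1 : ℝ) else 0) * gw c S m (A.erase 0) i false φ ω ≤
        gw c S m A i false φ ω
      have hn : 0 ≤ gw c S m A i false φ ω := Finset.sum_nonneg fun x _ => hφ0 _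
      by_cases h : c 0 ω = false
      · rw [if_pos h, one_mul]
        refine Finset.sum_le_sum_of_subset_of_nonneg ?_ fun x _ _ => hφ0 _
        intro x hx
        rw [Finset.mem_filter] at hx ⊢
        refine ⟨?_, hx.2⟩
        have h6 := gAlive_mono_same (fun x => c x ω) (gpos S m ω)
          (Finset.notMem_erase (0 : Site d) A) i hx.1 (by
            show c x ω = c 0 ω
            rw [h]
            exact hx.2)
        rwa [Finset.insert_erase h0] at h6
      · rw [if_neg h, zero_mul]
        exact hn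
  linarith


omit mΩ in
/-- Colours changed to red on `F`. -/
def flipc (c : Site d → Ω → Bool) (F : Finset (Site d)) (ω : Ω) (x : Site d) : Bool :=
  if x ∈ F then true else c x ω

lemma flip_prob (hS : Setup μ (1 / 2) c S) (m : ℕ) (n : ℕ) {A F : Finset (Site d)}
    (h0 : (0 : Site d) ∈ F) :
    (1 / 2) ^ F.card * μ.real {ω | (0 : Site d) ∈ gAlive (flipc c F ω) (gpos S m ω) A n} ≤
      μ.real {ω | 0 ∈ ga c S m A n ω ∧ c 0 ω = true} := by
  classical
  let mm : Site d ⊕ Site d → MeasurableSpace Ω := fun j =>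
    Sum.elim (fun x => MeasurableSpace.comap (c x) inferInstance)
      (fun x => ⨆ t : ℝ≥0, MeasurableSpace.comap (S x t) inferInstance) j
  have hmm : ∀ j, mm j ≤ mΩ := by
    rintro (x | x)
    · exact (hS.cmeas x).comap_le
    · exact iSup_le fun t => ((hS.walk x).meas t).comap_le
  have hii : iIndep mm μ := hS.indep
  let I : Set (Site d ⊕ Site d) := Sum.inl '' (F : Set (Site d))
  have hind : Indep (⨆ j ∈ I, mm j) (⨆ j ∈ Iᶜ, mm j) μ :=
    indep_iSup_of_disjoint hmm hii disjoint_compl_right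
  have hE1 : MeasurableSet[⨆ j ∈ Iᶜ, mm j]
      {ω | (0 : Site d) ∈ gAlive (flipc c F ω) (gpos S m ω) A n} := by
    refine meas_gAlive (m' := ⨆ j ∈ Iᶜ, mm j) (c := fun ω => flipc c F ω)
      (P := fun ω => gpos S m ω) A n ?_ ?_ {X | (0 : Site d) ∈ X}
    · intro x _
      by_cases hx : x ∈ F
      · have : (fun ω => flipc c F ω x) = fun _ => true := by
          funext ω
          simp [flipc, hx]
        rw [this]
        exact measurable_const
      · have : (fun ω => flipc c F ω x) = c x := by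
          funext ω
          simp [flipc, hx]
        rw [this]
        have h5 : MeasurableSpace.comap (c x) inferInstance ≤ ⨆ j ∈ Iᶜ, mm j := by
          refine le_iSup₂_of_le (f := fun j (_ : j ∈ Iᶜ) => mm j) (Sum.inl x) ?_ le_rfl
          simp [I, hx]
        exact (comap_measurable _).mono h5 le_rfl
    · intro j _ x _
      have h5 : MeasurableSpace.comap (S x ((j : ℝ≥0) / 2 ^ m)) inferInstance ≤
          ⨆ j ∈ Iᶜ, mm j := by
        refine le_trans ?_ (le_iSup₂_of_le (f := fun j (_ : j ∈ Iᶜ) => mm j) (Sum.inr x) ?_ le_rfl)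
        · exact le_iSup (fun t : ℝ≥0 => MeasurableSpace.comap (S x t) inferInstance) _
        · simp [I]
      have h6 : Measurable[⨆ j ∈ Iᶜ, mm j] (S x ((j : ℝ≥0) / 2 ^ m)) :=
        (comap_measurable _).mono h5 le_rfl
      exact (measurable_of_countable (fun z : Site d => x + z)).comp h6
  have hEv : MeasurableSet[⨆ j ∈ I, mm j] (⋂ x ∈ F, {ω | c x ω = true}) := by
    refine Finset.measurableSet_biInter F fun x hx => ?_
    have h5 : MeasurableSpace.comap (c x) inferInstance ≤ ⨆ j ∈ I, mm j := by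
      refine le_iSup₂_of_le (f := fun j (_ : j ∈ I) => mm j) (Sum.inl x) ?_ le_rfl
      simp [I, hx]
    have h6 : Measurable[⨆ j ∈ I, mm j] (c x) := (comap_measurable _).mono h5 le_rfl
    exact h6 (measurableSet_singleton true)
  have h1 := (Indep_iff _ _ μ).1 hind _ _ hEv hE1
  have h2 : μ (⋂ x ∈ F, {ω | c x ω = true}) = ENNReal.ofReal (1 / 2) ^ F.card := by
    have h3 := hii.meas_biInter (S := F.image Sum.inl)
      (s := fun j => Sum.elim (fun x => {ω | c x ω = true}) (fun _ => Set.univ) j) (by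
        intro j hj
        obtain ⟨x, _, rfl⟩ := Finset.mem_image.1 hj
        exact (comap_measurable (c x)) (measurableSet_singleton true))
    rw [Finset.prod_image (fun x _ y _ h => Sum.inl_injective h)] at h3
    have e : (⋂ j ∈ F.image Sum.inl, Sum.elim (fun x => {ω | c x ω = true})
        (fun _ : Site d => Set.univ) j) = ⋂ x ∈ F, {ω | c x ω = true} := by
      rw [Finset.set_biInter_finset_image]
      rfl
    rw [e] at h3
    rw [h3]
    simp only [Sum.elim_inl, hS.cprob]
    rw [Finset.prod_const]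
  have h4 : μ.real ((⋂ x ∈ F, {ω | c x ω = true}) ∩
      {ω | (0 : Site d) ∈ gAlive (flipc c F ω) (gpos S m ω) A n}) =
      (1 / 2) ^ F.card * μ.real {ω | (0 : Site d) ∈ gAlive (flipc c F ω) (gpos S m ω) A n} := by
    rw [measureReal_def, h1, ENNReal.toReal_mul, h2, ENNReal.toReal_pow,
      ENNReal.toReal_ofReal (by norm_num), measureReal_def]
  rw [← h4]
  refine measureReal_mono ?_ (measure_ne_top _ _)
  rintro ω ⟨ha, hb⟩
  simp only [Set.mem_iInter] at ha
  refine ⟨?_, ha 0 h0⟩
  have : flipc c F ω = fun x => c x ω := by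
    funext x
    unfold flipc
    split_ifs with h
    · exact (ha x h).symm
    · rfl
  have hb' : (0 : Site d) ∈ gAlive (flipc c F ω) (gpos S m ω) A n := hb
  rw [this] at hb'
  exact hb'

omit [IsProbabilityMeasure μ] in
lemma not_E1 (hS : Setup μ (1 / 2) c S) (m : ℕ) {A F : Finset (Site d)} (T t : ℕ)
    (h0 : (0 : Site d) ∈ F) (hFA : F ⊆ A) {ω : Ω}
    (h : (0 : Site d) ∉ gAlive (flipc c F ω) (gpos S m ω) A (t * 2 ^ m)) :
    ω ∈ Meet S m F T ∨ ∃ i ∈ Finset.Ico (T * 2 ^ m) (t * 2 ^ m),
      ∃ b ∈ ga c S m (A.erase 0) i ω, c b ω = false ∧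
        gpos S m ω (i + 1) b = gpos S m ω (i + 1) 0 ∧ gpos S m ω i b ≠ gpos S m ω i 0 := by
  classical
  have hA : insert (0 : Site d) (A.erase 0) = A := Finset.insert_erase (hFA h0)
  rw [← hA] at h
  obtain ⟨i, hi, b, hb, hc, hp, hp'⟩ := death_hit (Finset.notMem_erase (0 : Site d) A) (by
    intro x hx
    have h1 : x ≠ 0 := Finset.ne_of_mem_erase hx
    unfold gpos posn
    rw [Nat.cast_zero, zero_div, (hS.walk x).zero, (hS.walk 0).zero, add_zero, add_zero]
    exact h1) h
  have hb' : b ∉ F := by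
    intro hbF
    apply hc
    simp [flipc, hbF, h0]
  have hcb : c b ω = false := by
    have : flipc c F ω 0 = true := by simp [flipc, h0]
    rw [this] at hc
    have h2 : flipc c F ω b = c b ω := by simp [flipc, hb']
    rw [h2] at hc
    simpa using hc
  by_cases hT : i + 1 ≤ T * 2 ^ m
  · exact Or.inl ⟨b, hb', i + 1, hT, hp⟩
  · refine Or.inr ⟨i, Finset.mem_Ico.2 ⟨by omega, hi⟩, b, ?_, hcb, hp, hp'⟩
    have h3 : gAlive (flipc c F ω) (gpos S m ω) (A.erase 0) i =
        gAlive (flipc c (F.erase 0) ω) (gpos S m ω) (A.erase 0) i := by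
      apply gAlive_congr
      · intro x hx
        have h1 : x ≠ 0 := Finset.ne_of_mem_erase hx
        simp [flipc, h1]
      · intro _ _ _ _
        rfl
    rw [h3] at hb
    refine flip_mono (c := fun x => c x ω) (gpos S m ω) (F := F.erase 0)
      (Finset.erase_subset_erase 0 hFA) ?_ ?_ i hb ?_
    · intro x hx
      simp only [flipc, if_neg hx]
    · intro x hx
      simp only [flipc, if_pos hx]
    · have : b ∉ F.erase 0 := fun h => hb' (Finset.mem_of_mem_erase h)
      simp only [flipc, if_neg this]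
      exact hcb

lemma main_A (hd : 0 < d) (hS : Setup μ (1 / 2) c S) (m : ℕ) {A F : Finset (Site d)} (T t : ℕ)
    (h0 : (0 : Site d) ∈ F) (hFA : F ⊆ A) :
    (1 / 2) ^ F.card * (1 - μ.real (Meet S m F T) - ∑ i ∈ Finset.Ico (T * 2 ^ m) (t * 2 ^ m),
      ∑' u, heat d ((i : ℝ) / 2 ^ m) u * (2 * ∫ ω, gw c S m A i false (mw d m u) ω ∂μ)) ≤
      μ.real {ω | 0 ∈ ga c S m A (t * 2 ^ m) ω ∧ c 0 ω = true} := by
  classical
  refine le_trans ?_ (flip_prob hS m (t * 2 ^ m) h0)
  refine mul_le_mul_of_nonneg_left ?_ (by positivity)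
  have hms : MeasurableSet {ω | (0 : Site d) ∈ gAlive (flipc c F ω) (gpos S m ω) A (t * 2 ^ m)} := by
    refine meas_gAlive (m' := mΩ) (c := fun ω => flipc c F ω)
      (P := fun ω => gpos S m ω) A (t * 2 ^ m) ?_ ?_ {X | (0 : Site d) ∈ X}
    · intro x _
      unfold flipc
      split_ifs
      · exact measurable_const
      · exact hS.cmeas x
    · intro j _ x _
      exact meas_gpos' hS m j x
  have h1 : μ.real {ω | (0 : Site d) ∈ gAlive (flipc c F ω) (gpos S m ω) A (t * 2 ^ m)}ᶜ ≤
      μ.real (Meet S m F T) + ∑ i ∈ Finset.Ico (T * 2 ^ m) (t * 2 ^ m),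
        μ.real {ω | ∃ b ∈ ga c S m (A.erase 0) i ω, c b ω = false ∧
          gpos S m ω (i + 1) b = gpos S m ω (i + 1) 0 ∧ gpos S m ω i b ≠ gpos S m ω i 0} := by
    refine le_trans (measureReal_mono (s₂ := Meet S m F T ∪ ⋃ i ∈ Finset.Ico (T * 2 ^ m) (t * 2 ^ m),
      {ω | ∃ b ∈ ga c S m (A.erase 0) i ω, c b ω = false ∧
          gpos S m ω (i + 1) b = gpos S m ω (i + 1) 0 ∧ gpos S m ω i b ≠ gpos S m ω i 0}) ?_
      (measure_ne_top _ _)) ?_
    · intro ω hω
      rcases not_E1 hS m T t h0 hFA hω with h | ⟨i, hi, h⟩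
      · exact Or.inl h
      · refine Or.inr ?_
        simp only [Set.mem_iUnion]
        exact ⟨i, hi, h⟩
    · refine (measureReal_union_le _ _).trans ?_
      gcongr
      exact measureReal_biUnion_finset_le _ _
  have h2 : ∀ i ∈ Finset.Ico (T * 2 ^ m) (t * 2 ^ m),
      μ.real {ω | ∃ b ∈ ga c S m (A.erase 0) i ω, c b ω = false ∧
          gpos S m ω (i + 1) b = gpos S m ω (i + 1) 0 ∧ gpos S m ω i b ≠ gpos S m ω i 0} ≤
        ∑' u, heat d ((i : ℝ) / 2 ^ m) u * (2 * ∫ ω, gw c S m A i false (mw d m u) ω ∂μ) := by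
    intro i _
    refine (hit_i hd hS m i (Finset.notMem_erase (0 : Site d) A)).trans ?_
    have h3 := indep_zero hd hS m i (Finset.notMem_erase (0 : Site d) A)
    have hnn : ∀ u, 0 ≤ ∫ ω, gw c S m A i false (mw d m u) ω ∂μ := fun u =>
      integral_nonneg fun ω => Finset.sum_nonneg fun x _ => mw_nonneg m u _
    have hs : Summable fun u => heat d ((i : ℝ) / 2 ^ m) u *
        (2 * ∫ ω, gw c S m A i false (mw d m u) ω ∂μ) := by
      refine Summable.of_nonneg_of_le (fun u => mul_nonneg (heat_nonneg (by positivity) _)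
        (by have := hnn u; positivity)) (fun u => ?_)
        ((heat_hasSum (d := d) hd (t := (i : ℝ) / 2 ^ m) (by positivity)).summable.mul_right
          (2 * (A.card : ℝ)))
      refine mul_le_mul_of_nonneg_left ?_ (heat_nonneg (by positivity) _)
      refine mul_le_mul_of_nonneg_left ?_ (by norm_num)
      calc ∫ ω, gw c S m A i false (mw d m u) ω ∂μ ≤ ∫ _, (A.card : ℝ) ∂μ :=
            integral_mono (gw_integrable hS m A i false (mw_abs hd m u)) (integrable_const _)
              fun ω => by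
                have := gw_bdd c S m A i false (mw_abs hd m u) ω
                rw [mul_one] at this
                exact (le_abs_self _).trans this
        _ = A.card := by simp
    rw [← h3.tsum_eq]
    refine Summable.tsum_le_tsum (fun u => ?_) h3.summable hs
    refine mul_le_mul_of_nonneg_left ?_ (heat_nonneg (by positivity) _)
    exact double hS m i (hFA h0) (mw_nonneg m u) (mw_le_one hd m u)
  have h3 := probReal_compl_eq_one_sub hms (μ := μ)
  have h4 := Finset.sum_le_sum h2
  linarith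

lemma mean_le (hd : 0 < d) (hS : Setup μ p c S) (m : ℕ) (i : ℕ) (A : Finset (Site d))
    (u : Site d) : ∫ ω, gw c S m A i false (mw d m u) ω ∂μ ≤ 1 := by
  refine (gw_mean_le hd hS m A i false (mw_abs hd m u) (mw_nonneg m u)).trans ?_
  have h1 := Pt_hasSum (d := d) hd (t := (i : ℝ) / 2 ^ m) (by positivity)
    (mw_hasSum hd m u).summable (mw_nonneg m u)
  refine (sum_le_hasSum A (fun x _ => Pt_nonneg (by positivity) (mw_nonneg m u) x) h1).trans ?_
  rw [(mw_hasSum hd m u).tsum_eq]
  have := heat_nonneg (d := d) (t := 2 / 2 ^ m) (by positivity) 0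
  linarith

end FE3aux

open FE3aux in
/-- Package FE3. Let `A ⊇ F` be finite, `A' = A.erase 0`, `n = t 2^m`, `c'` the colours changed to red
on `F`. On `{c = true on F}`, `c' = c`; the event `E1 = {0 ∈ gAlive c' P A n}` does not depend on the
colours on `F`, so `P(0 ∈ ga A n red) ≥ 2^{-|F|} P(E1)`. If `E1` fails, `death_hit` (colours `c'`)
gives `i < n` and a label `b ∈ gAlive c' P A' i`, `c' b = false` (so `b ∉ F`, `c b = false`) at a
different site at step `i` and at the site of `0` at step `i + 1`. If `i + 1 ≤ T 2^m` the event `Meet`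
holds. Otherwise `b ∈ gAlive c P A' i = ga A' i` (`flip_mono`). The expected number of such `b` in
`ga A' i` is at most `∑_u P(gpos i 0 = u) ∑_{v ≠ u} E cnt^{A'}_i false v * heat (2h) (u - v)`
(`h = 2^{-m}`; the label `0` is independent of the system on `A'`; `markov2`, and `heat_add`), and
`E cnt^{A'}_i false v ≤ 2 E cnt^{A}_i false v` (condition on `c 0 = false`: probability `1/2`,
independent of the system on `A'` and of all paths, and then `gAlive_mono_same`). Let `A → ∞`
(`gdens_tendsto`, everything dominated by `heat`) and use `mass_transport`;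
`∑_{v ≠ u} heat (2h) (u - v) = 1 - heat (2h) 0 ≤ 2h`. -/
theorem surv_lower (hd : 0 < d) (hS : Setup μ (1 / 2) c S) (m : ℕ) {F : Finset (Site d)}
    (hF : 0 ∈ F) (T t : ℕ) (hTt : T ≤ t) :
    (1 / 2) ^ F.card * (1 - μ.real (Meet S m F T) -
      4 / 2 ^ m * ∑ i ∈ Finset.Ico (T * 2 ^ m) (t * 2 ^ m), gdens μ c S m false i) ≤
      gdens μ c S m true (t * 2 ^ m) := by
  classical
  have h1 := mass_transport hd hS m (t * 2 ^ m)
  have h2 : ∀ i : ℕ, Tendsto (fun A : Finset (Site d) => ∑' u, heat d ((i : ℝ) / 2 ^ m) u *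
      (2 * ∫ ω, gw c S m A i false (mw d m u) ω ∂μ)) atTop
      (𝓝 (∑' u, heat d ((i : ℝ) / 2 ^ m) u * (2 * (gdens μ c S m false i *
        (1 - heat d (2 / 2 ^ m) 0))))) := by
    intro i
    refine tendsto_tsum_of_dominated_convergence
      (bound := fun u => heat d ((i : ℝ) / 2 ^ m) u * 2)
      ((heat_hasSum (d := d) hd (t := (i : ℝ) / 2 ^ m) (by positivity)).summable.mul_right 2)
      ?_ (Eventually.of_forall fun A u => ?_)
    · intro u
      have h3 := gdens_tendsto_fun hd hS m false i (mw_hasSum hd m u).summable (mw_nonneg m u)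
      rw [(mw_hasSum hd m u).tsum_eq] at h3
      exact (h3.const_mul 2).const_mul _
    · have hn : 0 ≤ ∫ ω, gw c S m A i false (mw d m u) ω ∂μ :=
        integral_nonneg fun ω => Finset.sum_nonneg fun x _ => mw_nonneg m u _
      have hh : 0 ≤ heat d ((i : ℝ) / 2 ^ m) u := heat_nonneg (by positivity) _
      rw [Real.norm_eq_abs, abs_of_nonneg (mul_nonneg hh (by positivity))]
      refine mul_le_mul_of_nonneg_left ?_ hh
      have := mean_le hd hS m i A u
      linarith
  have h3 : ∀ i : ℕ, ∑' u, heat d ((i : ℝ) / 2 ^ m) u * (2 * (gdens μ c S m false i *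
        (1 - heat d (2 / 2 ^ m) 0))) ≤ 4 / 2 ^ m * gdens μ c S m false i := by
    intro i
    rw [tsum_mul_right, (heat_hasSum (d := d) hd (t := (i : ℝ) / 2 ^ m) (by positivity)).tsum_eq]
    have h4 := one_sub_heat (d := d) hd (t := 2 / 2 ^ m) (by positivity)
    have h5 := gdens_nonneg hd hS m false i
    have h6 : gdens μ c S m false i * (1 - heat d (2 / 2 ^ m) 0) ≤
        gdens μ c S m false i * (2 / 2 ^ m) := mul_le_mul_of_nonneg_left h4 h5
    calc 1 * (2 * (gdens μ c S m false i * (1 - heat d (2 / 2 ^ m) 0)))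
        ≤ 1 * (2 * (gdens μ c S m false i * (2 / 2 ^ m))) := by linarith
      _ = 4 / 2 ^ m * gdens μ c S m false i := by ring
  have h4 : Tendsto (fun A : Finset (Site d) => (1 / 2 : ℝ) ^ F.card * (1 - μ.real (Meet S m F T) -
      ∑ i ∈ Finset.Ico (T * 2 ^ m) (t * 2 ^ m), ∑' u, heat d ((i : ℝ) / 2 ^ m) u *
        (2 * ∫ ω, gw c S m A i false (mw d m u) ω ∂μ))) atTop
      (𝓝 ((1 / 2 : ℝ) ^ F.card * (1 - μ.real (Meet S m F T) -
      ∑ i ∈ Finset.Ico (T * 2 ^ m) (t * 2 ^ m), ∑' u, heat d ((i : ℝ) / 2 ^ m) u *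
        (2 * (gdens μ c S m false i * (1 - heat d (2 / 2 ^ m) 0)))))) :=
    (tendsto_const_nhds.sub (tendsto_finsetSum _ fun i _ => h2 i)).const_mul _
  have h5 := le_of_tendsto_of_tendsto h4 h1 ((eventually_ge_atTop F).mono fun A hA =>
    main_A hd hS m T t hF hA)
  refine le_trans ?_ h5
  refine mul_le_mul_of_nonneg_left ?_ (by positivity)
  rw [Finset.mul_sum]
  have := Finset.sum_le_sum fun i (_ : i ∈ Finset.Ico (T * 2 ^ m) (t * 2 ^ m)) => h3 i
  linarith

end Pool.Agent.T2H99.AW
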