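import Pool.Agent.T2H99.AW.CD2
import Pool.Agent.T2H99.AW.FE3

set_option autoImplicit false

/-!
# AW, package FEF: the density is not summable at `p = 1/2` (uses CD2, FE, GD2)

Suppose `∑ dens true k < ∞`. `dens false = dens true` (`dens_diff`). Choose `T` with
`4 ∑_{k ≥ T} dens k ≤ 1/4`, then (`meet_small`) `F ∋ 0` with `P(Meet m F T) ≤ 1/4` for all `m`. For
`t ≥ T` and every `m`, by `surv_lower` and `gdens_anti`
(`∑_{i ∈ [T 2^m, t 2^m)} gdens false i ≤ 2^m ∑_{k=T}^{t-1} gdens false (k 2^m)`):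
`2^{-|F|} (3/4 - 4 ∑_{k=T}^{t-1} gdens m false (k 2^m)) ≤ gdens m true (t 2^m)`. Let `m → ∞`
(`dens_lim_gdens`): `2^{-|F|}/2 ≤ dens true t` for all `t ≥ T`, contradiction.
-/

namespace Pool.Agent.T2H99.AW

open Finset Filter Topology MeasureTheory ProbabilityTheory
open scoped NNReal ENNReal BigOperators

variable {d : ℕ} {Ω : Type} [mΩ : MeasurableSpace Ω] {μ : Measure Ω} [IsProbabilityMeasure μ]
  {p : ℝ} {c : Site d → Ω → Bool} {S : Site d → ℝ≥0 → Ω → Site d}
  {alive : Finset (Site d) → ℝ≥0 → Ω → Finset (Site d)}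

/-- Block sums of an antitone sequence. -/
theorem sum_block_le {g : ℕ → ℝ} (hg : Antitone g) (N T : ℕ) :
    ∀ t : ℕ, T ≤ t → ∑ i ∈ Finset.Ico (T * N) (t * N), g i ≤
      N * ∑ k ∈ Finset.Ico T t, g (k * N) := by
  intro t ht
  induction t, ht using Nat.le_induction with
  | base => simp
  | succ t ht ih =>
    rw [Finset.sum_Ico_succ_top ht, mul_add,
      ← Finset.sum_Ico_consecutive g (Nat.mul_le_mul_right N ht) (Nat.mul_le_mul_right N (Nat.le_succ t))]
    refine add_le_add ih ?_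
    calc ∑ i ∈ Finset.Ico (t * N) ((t + 1) * N), g i
        ≤ ∑ _i ∈ Finset.Ico (t * N) ((t + 1) * N), g (t * N) :=
          Finset.sum_le_sum fun i hi => hg (Finset.mem_Ico.1 hi).1
      _ = N * g (t * N) := by
          rw [Finset.sum_const, Nat.card_Ico, nsmul_eq_mul]
          congr 2
          rw [Nat.add_mul, one_mul, Nat.add_sub_cancel_left]

theorem dens_not_summable (hd : 0 < d) (hA : Sys μ (1 / 2) c S alive) :
    ¬ Summable (dens μ c S alive true) := by
  intro hs
  have heq : ∀ k, dens μ c S alive false k = dens μ c S alive true k := fun k => by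
    have := dens_diff hd (by norm_num : (0 : ℝ) ≤ 1 / 2) hA k
    linarith
  have h0 : ∀ k, 0 ≤ dens μ c S alive true k := fun k => dens_nonneg hd hA true k
  obtain ⟨T, hT⟩ : ∃ T : ℕ, ∑' k, dens μ c S alive true (k + T) ≤ 1 / 16 :=
    ((tendsto_sum_nat_add (dens μ c S alive true)).eventually
      (eventually_le_nhds (by norm_num : (0 : ℝ) < 1 / 16))).exists
  obtain ⟨F, hF0, hF⟩ := meet_small hd hA.setup T (by norm_num : (0 : ℝ) < 1 / 4)
  have hsum : ∀ t, T ≤ t → ∑ k ∈ Finset.Ico T t, dens μ c S alive false k ≤ 1 / 16 := by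
    intro t _
    rw [Finset.sum_Ico_eq_sum_range]
    refine le_trans ?_ hT
    have hs' : Summable fun k => dens μ c S alive true (k + T) := (summable_nat_add_iff T).2 hs
    calc ∑ k ∈ Finset.range (t - T), dens μ c S alive false (T + k)
        = ∑ k ∈ Finset.range (t - T), dens μ c S alive true (k + T) :=
          Finset.sum_congr rfl fun k _ => by rw [heq, add_comm]
      _ ≤ _ := hs'.sum_le_tsum _ fun k _ => h0 _
  have hlow : ∀ t, T ≤ t → (1 / 2 : ℝ) ^ F.card * (1 / 2) ≤ dens μ c S alive true t := by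
    intro t ht
    have h1 : ∀ m : ℕ, (1 / 2 : ℝ) ^ F.card * (3 / 4 -
        4 * ∑ k ∈ Finset.Ico T t, gdens μ c S m false (k * 2 ^ m)) ≤
        gdens μ c S m true (t * 2 ^ m) := by
      intro m
      refine le_trans ?_ (surv_lower hd hA.setup m hF0 T t ht)
      refine mul_le_mul_of_nonneg_left ?_ (by positivity)
      have h2 := hF m
      have h3 := sum_block_le (gdens_anti hd hA.setup m false) (2 ^ m) T t ht
      have h4 : (4 : ℝ) / 2 ^ m * ∑ i ∈ Finset.Ico (T * 2 ^ m) (t * 2 ^ m), gdens μ c S m false i ≤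
          4 * ∑ k ∈ Finset.Ico T t, gdens μ c S m false (k * 2 ^ m) := by
        have h5 : (0 : ℝ) < 2 ^ m := by positivity
        calc _ ≤ (4 : ℝ) / 2 ^ m * (((2 ^ m : ℕ) : ℝ) *
              ∑ k ∈ Finset.Ico T t, gdens μ c S m false (k * 2 ^ m)) :=
              mul_le_mul_of_nonneg_left h3 (by positivity)
          _ = _ := by
              push_cast
              field_simp
      linarith
    have h2 : Tendsto (fun m : ℕ => (1 / 2 : ℝ) ^ F.card * (3 / 4 -
        4 * ∑ k ∈ Finset.Ico T t, gdens μ c S m false (k * 2 ^ m))) atTop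
        (𝓝 ((1 / 2 : ℝ) ^ F.card * (3 / 4 - 4 * ∑ k ∈ Finset.Ico T t, dens μ c S alive false k))) := by
      refine Tendsto.const_mul _ (tendsto_const_nhds.sub (Tendsto.const_mul _ ?_))
      exact tendsto_finsetSum _ fun k _ => dens_lim_gdens hd hA false k
    have h3 := le_of_tendsto_of_tendsto' h2 (dens_lim_gdens hd hA true t) h1
    refine le_trans (mul_le_mul_of_nonneg_left ?_ (by positivity)) h3
    have := hsum t ht
    linarith
  have hlim := hs.tendsto_atTop_zero
  have hfin : (1 / 2 : ℝ) ^ F.card * (1 / 2) ≤ 0 :=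
    ge_of_tendsto hlim (eventually_atTop.2 ⟨T, fun t ht => hlow t ht⟩)
  have : (0 : ℝ) < (1 / 2 : ℝ) ^ F.card * (1 / 2) := by positivity
  linarith

end Pool.Agent.T2H99.AW
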