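import Pool.Agent.T2H99.AW.HK2

set_option autoImplicit false

/-!
# AW, package HK3: upper bound of the return probability (uses HK1, HK2)

`p_t(0) ≤ C t^{-d/2}` for `t > 0`.

Possible proof (Fourier): for `θ ∈ ℝ^d`, `∑_x srw d n x cos(x·θ) = ((1/d) ∑ cos θ_i)^n` (induction),
so `∑_x heat d t x cos(x·θ) = exp(-t (1 - (1/d) ∑ cos θ_i)) = ∏_i exp(-(t/d)(1 - cos θ_i))`;
integrate over `[-π,π]^d` (the integral of `cos(x·θ)` is `0` for `x ≠ 0`):
`heat d t 0 = ((1/2π) ∫_{-π}^{π} exp(-(t/d)(1-cos θ)) dθ)^d` and `1 - cos θ ≥ 2θ²/π²`, so the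
one-dimensional factor is at most `(1/2π) ∫_ℝ exp(-2tθ²/(dπ²)) dθ = C/√t`.
An induction over the number of coordinates of integration avoids products of measures if wanted.
Other possible proof: `srw` in `d` dimensions is a multinomial mixture of products of one-dimensional
ones, so `heat d t x = ∏ heat 1 (t/d) x_i`, and in one dimension
`heat 1 t 0 = ∑_k e^{-t} t^{2k}/(2k)! C(2k,k)/4^k ≤ E (N+1)^{-1/2} ≤ (E 1/(N+1))^{1/2} ≤ t^{-1/2}`
for a Poisson variable `N` (`C(2k,k)/4^k ≤ (2k+1)^{-1/2}`).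
-/

namespace Pool.Agent.T2H99.AW

variable {d : ℕ}

namespace HK3

open MeasureTheory Real

/-- the uniform distribution on `(-π, π]` -/
noncomputable def nu : Measure ℝ := (ENNReal.ofReal (2 * π))⁻¹ • volume.restrict (Set.Ioc (-π) π)

instance : IsProbabilityMeasure nu := by
  constructor
  unfold nu
  rw [Measure.smul_apply, Measure.restrict_apply_univ, Real.volume_Ioc, smul_eq_mul,
    show π - -π = 2 * π by ring]
  exact ENNReal.inv_mul_cancel (by simp [Real.pi_pos]) ENNReal.ofReal_ne_top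

/-- the phase -/
noncomputable def ph (x : Site d) (θ : Fin d → ℝ) : ℝ := ∑ i, (x i : ℝ) * θ i

/-- the characteristic function of a step -/
noncomputable def ch (θ : Fin d → ℝ) : ℝ := (1 / (d : ℝ)) * ∑ i, cos (θ i)

lemma nu_exp (m : ℤ) : ∫ θ, Complex.exp (Complex.I * m * θ) ∂nu = if m = 0 then 1 else 0 := by
  split_ifs with h
  · subst h
    simp
  · unfold nu
    rw [integral_smul_measure, ← intervalIntegral.integral_of_le (by linarith [Real.pi_pos])]
    have hc : Complex.I * (m : ℂ) ≠ 0 := mul_ne_zero Complex.I_ne_zero (by exact_mod_cast h)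
    rw [integral_exp_mul_complex hc]
    have h1 : Complex.exp (Complex.I * m * ((π : ℝ) : ℂ)) =
        Complex.exp (Complex.I * m * ((-π : ℝ) : ℂ)) := by
      rw [show Complex.I * m * ((π : ℝ) : ℂ) = Complex.I * m * ((-π : ℝ) : ℂ) +
        (m : ℂ) * (2 * (π : ℂ) * Complex.I) by push_cast; ring, Complex.exp_add,
        Complex.exp_int_mul_two_pi_mul_I, mul_one]
    rw [h1, sub_self, zero_div, smul_zero]

lemma int_cos (x : Site d) : ∫ θ, cos (ph x θ) ∂(Measure.pi fun _ : Fin d => nu) =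
    if x = 0 then 1 else 0 := by
  have h1 : ∫ θ : Fin d → ℝ, ∏ i, Complex.exp (Complex.I * x i * θ i) ∂(Measure.pi fun _ : Fin d => nu) =
      if x = 0 then 1 else 0 := by
    rw [integral_fintype_prod_eq_prod (fun i (t : ℝ) => Complex.exp (Complex.I * x i * t))]
    simp only [nu_exp]
    split_ifs with h
    · subst h
      simp
    · obtain ⟨i, hi⟩ := Function.ne_iff.1 h
      refine Finset.prod_eq_zero (Finset.mem_univ i) ?_
      rw [if_neg]
      exact hi
  have h2 : ∀ θ : Fin d → ℝ, ∏ i, Complex.exp (Complex.I * x i * θ i) =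
      Complex.exp (((ph x θ : ℝ) : ℂ) * Complex.I) := by
    intro θ
    rw [← Complex.exp_sum]
    congr 1
    unfold ph
    push_cast
    rw [Finset.sum_mul]
    exact Finset.sum_congr rfl fun i _ => by ring
  simp only [h2] at h1
  have h3 : ∫ θ, cos (ph x θ) ∂(Measure.pi fun _ : Fin d => nu) =
      (∫ θ, Complex.exp (((ph x θ : ℝ) : ℂ) * Complex.I) ∂(Measure.pi fun _ : Fin d => nu)).re := by
    have h4 : Integrable (fun θ => Complex.exp (((ph x θ : ℝ) : ℂ) * Complex.I))
        (Measure.pi fun _ : Fin d => nu) := by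
      refine Integrable.of_bound (C := 1) ?_ (Filter.Eventually.of_forall fun θ => ?_)
      · refine Continuous.aestronglyMeasurable ?_
        unfold ph
        fun_prop
      · rw [Complex.norm_exp_ofReal_mul_I]
    have h5 := integral_re h4
    rw [← RCLike.re_eq_complex_re, ← h5]
    refine integral_congr_ae (Filter.Eventually.of_forall fun θ => ?_)
    simp only
    rw [RCLike.re_eq_complex_re, Complex.exp_ofReal_mul_I_re]
  rw [h3, h1]
  split_ifs <;> simp

lemma ph_single (x : Site d) (θ : Fin d → ℝ) (i : Fin d) (s : ℤ) :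
    ph (x + Pi.single i s) θ = ph x θ + s * θ i := by
  unfold ph
  have h : ∀ j, (((x + Pi.single i s : Site d) j : ℤ) : ℝ) * θ j =
      (x j : ℝ) * θ j + if j = i then (s : ℝ) * θ i else 0 := by
    intro j
    rw [Pi.add_apply, Pi.single_apply]
    split_ifs with hj
    · subst hj; push_cast; ring
    · push_cast; ring
  simp only [h]
  rw [Finset.sum_add_distrib, Finset.sum_ite_eq' Finset.univ i, if_pos (Finset.mem_univ i)]

lemma ch_cont : Continuous (ch : (Fin d → ℝ) → ℝ) := by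
  unfold ch
  fun_prop

lemma ph_cont (x : Site d) : Continuous (ph x) := by
  unfold ph
  fun_prop

lemma ch_abs (hd : 0 < d) (θ : Fin d → ℝ) : |ch θ| ≤ 1 := by
  unfold ch
  have hd' : (0 : ℝ) < d := by exact_mod_cast hd
  rw [abs_mul, abs_of_pos (by positivity : (0 : ℝ) < 1 / d)]
  have h1 : |∑ i, cos (θ i)| ≤ d := by
    refine (Finset.abs_sum_le_sum_abs _ _).trans ?_
    have := Finset.sum_le_card_nsmul Finset.univ (fun i => |cos (θ i)|) 1 fun i _ => abs_cos_le_one _
    simpa using this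
  rw [one_div, inv_mul_le_iff₀ hd', mul_one]
  exact h1

lemma integrable_pow (hd : 0 < d) (n : ℕ) (x : Site d) :
    Integrable (fun θ => ch θ ^ n * cos (ph x θ)) (Measure.pi fun _ : Fin d => nu) := by
  refine Integrable.of_bound (C := 1) ?_ (Filter.Eventually.of_forall fun θ => ?_)
  · exact ((ch_cont.pow n).mul (continuous_cos.comp (ph_cont x))).aestronglyMeasurable
  · rw [norm_eq_abs, abs_mul, abs_pow]
    exact mul_le_one₀ (pow_le_one₀ (abs_nonneg _) (ch_abs hd θ)) (abs_nonneg _) (abs_cos_le_one _)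

lemma srw_eq (hd : 0 < d) (n : ℕ) : ∀ x : Site d, srw d n x =
    ∫ θ, ch θ ^ n * cos (ph x θ) ∂(Measure.pi fun _ : Fin d => nu) := by
  induction n with
  | zero =>
    intro x
    simp only [pow_zero, one_mul]
    rw [int_cos]
    rfl
  | succ n ih =>
    intro x
    have hd' : (d : ℝ) ≠ 0 := by exact_mod_cast hd.ne'
    show (1 / (2 * (d : ℝ))) *
      ∑ i : Fin d, (srw d n (x - Pi.single i 1) + srw d n (x + Pi.single i 1)) = _
    simp only [ih]
    have h0 : ∑ i : Fin d, ((∫ θ, ch θ ^ n * cos (ph (x - Pi.single i 1) θ)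
          ∂(Measure.pi fun _ : Fin d => nu)) +
        ∫ θ, ch θ ^ n * cos (ph (x + Pi.single i 1) θ) ∂(Measure.pi fun _ : Fin d => nu)) =
        ∫ θ, ∑ i : Fin d, (ch θ ^ n * cos (ph (x - Pi.single i 1) θ) +
          ch θ ^ n * cos (ph (x + Pi.single i 1) θ)) ∂(Measure.pi fun _ : Fin d => nu) := by
      have h5 : ∀ i ∈ (Finset.univ : Finset (Fin d)),
          Integrable (fun θ => ch θ ^ n * cos (ph (x - Pi.single i 1) θ) +
            ch θ ^ n * cos (ph (x + Pi.single i 1) θ)) (Measure.pi fun _ : Fin d => nu) := fun i _ =>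
        (integrable_pow hd n (x - Pi.single i 1)).add (integrable_pow hd n (x + Pi.single i 1))
      rw [integral_finsetSum _ h5]
      exact Finset.sum_congr rfl fun i _ => (integral_add (integrable_pow hd n (x - Pi.single i 1))
        (integrable_pow hd n (x + Pi.single i 1))).symm
    rw [h0, ← integral_const_mul]
    refine integral_congr_ae (Filter.Eventually.of_forall fun θ => ?_)
    simp only
    have h1 : ∀ i : Fin d, ch θ ^ n * cos (ph (x - Pi.single i 1) θ) +
        ch θ ^ n * cos (ph (x + Pi.single i 1) θ) = 2 * (ch θ ^ n * cos (ph x θ)) * cos (θ i) := by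
      intro i
      have e1 : x - Pi.single i 1 = x + Pi.single i (-1) := by
        rw [sub_eq_add_neg, ← Pi.single_neg]
      rw [e1, ph_single, ph_single]
      push_cast
      rw [show ph x θ + -1 * θ i = ph x θ - θ i by ring, one_mul, cos_sub, cos_add]
      ring
    simp only [h1]
    rw [← Finset.mul_sum, pow_succ]
    unfold ch
    field_simp

lemma one_sub_cos (θ : ℝ) (h1 : -π ≤ θ) (h2 : θ ≤ π) : 2 * θ ^ 2 / π ^ 2 ≤ 1 - cos θ := by
  have hπ := Real.pi_pos
  have key : ∀ t : ℝ, 0 ≤ t → t ≤ π → 2 * t ^ 2 / π ^ 2 ≤ 1 - cos t := by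
    intro t ht0 ht
    have h3 := Real.mul_le_sin (x := t / 2) (by linarith) (by linarith)
    have h4 : cos t = 1 - 2 * sin (t / 2) ^ 2 := by
      have h5 := Real.cos_two_mul (t / 2)
      have h9 := Real.sin_sq_add_cos_sq (t / 2)
      rw [show 2 * (t / 2) = t by ring] at h5
      rw [h5]
      linarith
    have h6 : 2 / π * (t / 2) = t / π := by field_simp
    rw [h6] at h3
    have h7 : 0 ≤ t / π := by positivity
    have h8 : (t / π) ^ 2 ≤ sin (t / 2) ^ 2 := pow_le_pow_left₀ h7 h3 2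
    rw [h4]
    calc 2 * t ^ 2 / π ^ 2 = 2 * (t / π) ^ 2 := by rw [div_pow]; ring
      _ ≤ 1 - (1 - 2 * sin (t / 2) ^ 2) := by linarith
  rcases le_total 0 θ with h | h
  · exact key θ h h2
  · have := key (-θ) (by linarith) (by linarith)
    rwa [neg_sq, cos_neg] at this

lemma one_dim (b : ℝ) (hb : 0 < b) : ∫ θ, exp (-(b * (1 - cos θ))) ∂nu ≤
    1 / (2 * π) * Real.sqrt (π ^ 3 / (2 * b)) := by
  have hπ := Real.pi_pos
  unfold nu
  rw [integral_smul_measure, ENNReal.toReal_inv, ENNReal.toReal_ofReal (by positivity), smul_eq_mul,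
    ← one_div]
  refine mul_le_mul_of_nonneg_left ?_ (by positivity)
  have hb' : 0 < 2 * b / π ^ 2 := by positivity
  have h1 : ∫ θ in Set.Ioc (-π) π, exp (-(b * (1 - cos θ))) ≤
      ∫ θ in Set.Ioc (-π) π, exp (-(2 * b / π ^ 2) * θ ^ 2) := by
    refine setIntegral_mono_on ?_ (integrable_exp_neg_mul_sq hb').integrableOn measurableSet_Ioc ?_
    · exact (Continuous.integrableOn_Ioc (by fun_prop))
    · intro θ hθ
      apply exp_le_exp.2
      have := one_sub_cos θ hθ.1.le hθ.2
      have h3 : b * (2 * θ ^ 2 / π ^ 2) ≤ b * (1 - cos θ) := mul_le_mul_of_nonneg_left this hb.le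
      calc -(b * (1 - cos θ)) ≤ -(b * (2 * θ ^ 2 / π ^ 2)) := by linarith
        _ = -(2 * b / π ^ 2) * θ ^ 2 := by ring
  have h2 : ∫ θ in Set.Ioc (-π) π, exp (-(2 * b / π ^ 2) * θ ^ 2) ≤
      ∫ θ : ℝ, exp (-(2 * b / π ^ 2) * θ ^ 2) :=
    setIntegral_le_integral (integrable_exp_neg_mul_sq hb')
      (Filter.Eventually.of_forall fun θ => (exp_pos _).le)
  refine (h1.trans h2).trans (le_of_eq ?_)
  rw [integral_gaussian]
  congr 1
  field_simp

lemma heat_eq (hd : 0 < d) (t : ℝ) (ht : 0 ≤ t) : heat d t 0 =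
    (∫ θ, exp (-(t / d * (1 - cos θ))) ∂nu) ^ d := by
  have hd' : (0 : ℝ) < d := by exact_mod_cast hd
  have h0 : ∀ θ : Fin d → ℝ, ph (0 : Site d) θ = 0 := by
    intro θ
    unfold ph
    simp
  have h1 : heat d t 0 = ∑' n : ℕ, ∫ θ, exp (-t) * (t ^ n / (n.factorial : ℝ) * ch θ ^ n)
      ∂(Measure.pi fun _ : Fin d => nu) := by
    unfold heat
    refine tsum_congr fun n => ?_
    rw [srw_eq hd, ← integral_const_mul]
    refine integral_congr_ae (Filter.Eventually.of_forall fun θ => ?_)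
    simp only
    rw [h0, cos_zero, mul_one]
    ring
  have hbd : ∀ (n : ℕ) (θ : Fin d → ℝ), ‖exp (-t) * (t ^ n / (n.factorial : ℝ) * ch θ ^ n)‖ ≤
      exp (-t) * (t ^ n / (n.factorial : ℝ)) := by
    intro n θ
    rw [norm_eq_abs, abs_mul, abs_mul, abs_of_pos (exp_pos _), abs_of_nonneg
      (by positivity : 0 ≤ t ^ n / (n.factorial : ℝ)), abs_pow]
    have := pow_le_one₀ (abs_nonneg _) (ch_abs hd θ) (n := n)
    refine mul_le_mul_of_nonneg_left ?_ (exp_pos _).le
    exact mul_le_of_le_one_right (by positivity) this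
  have hint : ∀ n : ℕ, Integrable (fun θ => exp (-t) * (t ^ n / (n.factorial : ℝ) * ch θ ^ n))
      (Measure.pi fun _ : Fin d => nu) := by
    intro n
    refine Integrable.of_bound (C := exp (-t) * (t ^ n / (n.factorial : ℝ))) ?_
      (Filter.Eventually.of_forall fun θ => hbd n θ)
    exact (continuous_const.mul (continuous_const.mul (ch_cont.pow n))).aestronglyMeasurable
  have hs : Summable fun n : ℕ => exp (-t) * (t ^ n / (n.factorial : ℝ)) :=
    (Real.summable_pow_div_factorial t).mul_left _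
  rw [h1, integral_tsum_of_summable_integral_norm hint]
  · have h2 : ∀ θ : Fin d → ℝ, ∑' n : ℕ, exp (-t) * (t ^ n / (n.factorial : ℝ) * ch θ ^ n) =
        ∏ i, exp (-(t / d * (1 - cos (θ i)))) := by
      intro θ
      rw [tsum_mul_left]
      have h3 : ∑' n : ℕ, t ^ n / (n.factorial : ℝ) * ch θ ^ n = exp (t * ch θ) := by
        rw [Real.exp_eq_exp_ℝ, NormedSpace.exp_eq_tsum_div]
        simp only
        refine tsum_congr fun n => ?_
        rw [mul_pow]
        ring
      rw [h3, ← exp_add, ← exp_sum]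
      congr 1
      unfold ch
      rw [Finset.sum_neg_distrib, ← Finset.mul_sum, Finset.sum_sub_distrib]
      simp only [Finset.sum_const, Finset.card_univ, Fintype.card_fin, nsmul_eq_mul, mul_one]
      field_simp
      ring
    simp only [h2]
    rw [integral_fintype_prod_eq_pow (fun t' : ℝ => exp (-(t / d * (1 - cos t')))), Fintype.card_fin]
  · refine Summable.of_nonneg_of_le (fun n => integral_nonneg fun θ => norm_nonneg _) (fun n => ?_) hs
    have h4 := integral_mono (hint n).norm (integrable_const (exp (-t) * (t ^ n / (n.factorial : ℝ))))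
      (fun θ => hbd n θ)
    simpa using h4

end HK3

theorem heat_upper (hd : 0 < d) : ∃ C : ℝ, 0 < C ∧ ∀ t : ℝ, 0 < t →
    heat d t 0 ≤ C * t ^ (-((d : ℝ) / 2)) := by
  have hd' : (0 : ℝ) < d := by exact_mod_cast hd
  have hπ := Real.pi_pos
  obtain ⟨c, hc⟩ : ∃ c : ℝ, c = 1 / (2 * Real.pi) * Real.sqrt (Real.pi ^ 3 * d / 2) := ⟨_, rfl⟩
  have hc0 : 0 < c := by rw [hc]; positivity
  refine ⟨c ^ d, by positivity, fun t ht => ?_⟩
  rw [HK3.heat_eq hd t ht.le]
  have h1 := HK3.one_dim (t / d) (by positivity)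
  have h2 : 1 / (2 * Real.pi) * Real.sqrt (Real.pi ^ 3 / (2 * (t / d))) = c * t ^ (-(1 / 2 : ℝ)) := by
    rw [hc, Real.rpow_neg ht.le, ← Real.sqrt_eq_rpow, mul_assoc, ← div_eq_mul_inv, ← Real.sqrt_div
      (by positivity)]
    congr 2
    field_simp
  rw [h2] at h1
  have h3 : 0 ≤ ∫ θ, Real.exp (-(t / d * (1 - Real.cos θ))) ∂HK3.nu :=
    MeasureTheory.integral_nonneg fun θ => (Real.exp_pos _).le
  calc (∫ θ, Real.exp (-(t / d * (1 - Real.cos θ))) ∂HK3.nu) ^ d ≤ (c * t ^ (-(1 / 2 : ℝ))) ^ d :=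
        pow_le_pow_left₀ h3 h1 d
    _ = c ^ d * t ^ (-((d : ℝ) / 2)) := by
        rw [mul_pow, ← Real.rpow_natCast (t ^ (-(1 / 2 : ℝ))) d, ← Real.rpow_mul ht.le]
        congr 2
        ring

end Pool.Agent.T2H99.AW
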