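import Pool.Agent.T2H99.AW.HK2
import Pool.Agent.T2H99.AW.HK3

set_option autoImplicit false

/-!
# AW, package HK4: moments of the walk, tail bound, lower bound of the return probability
(uses HK1, HK2)

HK4a. `∑ p_t(x) |x_i|^4 ≤ C (t + t^2)`, hence (Markov) the tail bound (`‖x‖` is the sup norm).
Proof: by induction on `n` (the coordinate `x_i` of `srw` does a lazy walk):
`∑ srw n x * x_i^2 = n/d`, `∑ srw n x * x_i^4 ≤ 3 n^2` (increment `E[(x+ε)^4] = E x^4 + 6 E x^2/d + 1/d`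
where `ε = ±1` with probability `1/(2d)` each), then Poisson average `E N^2 = t^2 + t`.
HK4b. Lower bound: from the Fourier formula `HK3.heat_eq` and `1 - cos θ ≤ θ²/2`.
-/

namespace Pool.Agent.T2H99.AW

open Finset

variable {d : ℕ}

namespace HK4

/-- unit vectors -/
def ee (j : Fin d) : Site d := Pi.single j 1

lemma srw_succ (n : ℕ) (x : Site d) : srw d (n + 1) x =
    (1 / (2 * (d : ℝ))) * ∑ i : Fin d, (srw d n (x - ee i) + srw d n (x + ee i)) := rfl

lemma ee_apply (i j : Fin d) : (ee j : Site d) i = if i = j then 1 else 0 := by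
  unfold ee
  rw [Pi.single_apply]

lemma sum_sub_le (g φ : Site d → ℝ) (hg : ∀ x, 0 ≤ g x) (hφ : ∀ x, 0 ≤ φ x) (F U : Finset (Site d))
    (e : Site d) (hU : F.image (fun x => x - e) ⊆ U) :
    ∑ x ∈ F, g (x - e) * φ x ≤ ∑ y ∈ U, g y * φ (y + e) := by
  have e1 : ∑ y ∈ F.image (fun x => x - e), g y * φ (y + e) = ∑ x ∈ F, g (x - e) * φ (x - e + e) :=
    Finset.sum_image fun a _ b _ hab => by
      have : a - e = b - e := hab
      exact sub_left_injective this
  have e2 : ∑ x ∈ F, g (x - e) * φ x = ∑ y ∈ F.image (fun x => x - e), g y * φ (y + e) := by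
    rw [e1]
    exact Finset.sum_congr rfl fun x _ => by rw [sub_add_cancel]
  rw [e2]
  exact Finset.sum_le_sum_of_subset_of_nonneg hU fun y _ _ => mul_nonneg (hg y) (hφ _)

lemma step (n : ℕ) (φ : Site d → ℝ) (hφ : ∀ x, 0 ≤ φ x) (B : ℝ)
    (h : ∀ F : Finset (Site d), ∑ y ∈ F, srw d n y *
      ((1 / (2 * (d : ℝ))) * ∑ j, (φ (y + ee j) + φ (y - ee j))) ≤ B)
    (F : Finset (Site d)) : ∑ x ∈ F, srw d (n + 1) x * φ x ≤ B := by
  classical
  obtain ⟨U, hU⟩ : ∃ U : Finset (Site d), U = Finset.univ.biUnion fun j : Fin d =>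
    F.image (fun x => x - ee j) ∪ F.image (fun x => x - -ee j) := ⟨_, rfl⟩
  obtain ⟨g, hg⟩ : ∃ g : Site d → ℝ, g = srw d n := ⟨_, rfl⟩
  have hg0 : ∀ x, 0 ≤ g x := fun x => by rw [hg]; exact srw_nonneg n x
  rw [← hg] at h
  have h1 : ∀ j : Fin d, ∑ x ∈ F, g (x - ee j) * φ x ≤ ∑ y ∈ U, g y * φ (y + ee j) := by
    intro j
    refine sum_sub_le g φ hg0 hφ F U (ee j) ?_
    rw [hU]
    exact Finset.subset_union_left.trans (Finset.subset_biUnion_of_mem (fun j : Fin d =>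
      F.image (fun x => x - ee j) ∪ F.image (fun x => x - -ee j)) (Finset.mem_univ j))
  have h2 : ∀ j : Fin d, ∑ x ∈ F, g (x + ee j) * φ x ≤ ∑ y ∈ U, g y * φ (y - ee j) := by
    intro j
    have h3 := sum_sub_le g φ hg0 hφ F U (-ee j) (by
      rw [hU]
      exact Finset.subset_union_right.trans (Finset.subset_biUnion_of_mem (fun j : Fin d =>
        F.image (fun x => x - ee j) ∪ F.image (fun x => x - -ee j)) (Finset.mem_univ j)))
    simpa only [sub_neg_eq_add, ← sub_eq_add_neg] using h3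
  have h3 : ∑ x ∈ F, srw d (n + 1) x * φ x = (1 / (2 * (d : ℝ))) * ∑ j : Fin d,
      (∑ x ∈ F, g (x - ee j) * φ x + ∑ x ∈ F, g (x + ee j) * φ x) := by
    have e3 : ∀ j : Fin d, ∑ x ∈ F, g (x - ee j) * φ x + ∑ x ∈ F, g (x + ee j) * φ x =
        ∑ x ∈ F, (g (x - ee j) + g (x + ee j)) * φ x := by
      intro j
      rw [← Finset.sum_add_distrib]
      exact Finset.sum_congr rfl fun x _ => by ring
    simp only [e3]
    rw [Finset.sum_comm, Finset.mul_sum]
    refine Finset.sum_congr rfl fun x _ => ?_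
    rw [srw_succ, ← hg, mul_assoc, Finset.sum_mul]
  have h4 : ∑ y ∈ U, g y * ((1 / (2 * (d : ℝ))) * ∑ j, (φ (y + ee j) + φ (y - ee j))) =
      (1 / (2 * (d : ℝ))) * ∑ j : Fin d, (∑ y ∈ U, g y * φ (y + ee j) +
        ∑ y ∈ U, g y * φ (y - ee j)) := by
    have e3 : ∀ j : Fin d, ∑ y ∈ U, g y * φ (y + ee j) + ∑ y ∈ U, g y * φ (y - ee j) =
        ∑ y ∈ U, g y * (φ (y + ee j) + φ (y - ee j)) := by
      intro j
      rw [← Finset.sum_add_distrib]
      exact Finset.sum_congr rfl fun x _ => by ring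
    simp only [e3]
    rw [Finset.sum_comm, Finset.mul_sum]
    refine Finset.sum_congr rfl fun y _ => ?_
    rw [mul_left_comm, Finset.mul_sum]
  rw [h3]
  refine le_trans ?_ (h U)
  rw [h4]
  refine mul_le_mul_of_nonneg_left ?_ (by positivity)
  exact Finset.sum_le_sum fun j _ => add_le_add (h1 j) (h2 j)

lemma avg (hd : 0 < d) (i : Fin d) (g : ℤ → ℝ) (y : Site d) :
    (1 / (2 * (d : ℝ))) * ∑ j : Fin d, (g ((y + ee j) i) + g ((y - ee j) i)) =
      g (y i) + (1 / (2 * (d : ℝ))) * (g (y i + 1) + g (y i - 1) - 2 * g (y i)) := by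
  have hd' : (d : ℝ) ≠ 0 := by exact_mod_cast hd.ne'
  have h : ∀ j : Fin d, g ((y + ee j) i) + g ((y - ee j) i) =
      2 * g (y i) + if i = j then (g (y i + 1) + g (y i - 1) - 2 * g (y i)) else 0 := by
    intro j
    rw [Pi.add_apply, Pi.sub_apply, ee_apply]
    split_ifs with hj
    · ring
    · rw [add_zero, sub_zero]; ring
  simp only [h]
  rw [Finset.sum_add_distrib, Finset.sum_ite_eq Finset.univ i, if_pos (Finset.mem_univ i)]
  simp only [Finset.sum_const, Finset.card_univ, Fintype.card_fin, nsmul_eq_mul]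
  field_simp

lemma M0 (hd : 0 < d) (n : ℕ) (F : Finset (Site d)) : ∑ x ∈ F, srw d n x ≤ 1 :=
  sum_le_hasSum F (fun x _ => srw_nonneg n x) (srw_hasSum hd n)

lemma inv_le (hd : 0 < d) : 1 / (2 * (d : ℝ)) ≤ 1 / 2 := by
  have hd' : (1 : ℝ) ≤ d := by exact_mod_cast hd
  apply one_div_le_one_div_of_le <;> linarith

lemma srw_zero (x : Site d) (f : Site d → ℝ) (hf : f 0 = 0) : srw d 0 x * f x = 0 := by
  show (if x = 0 then (1 : ℝ) else 0) * f x = 0
  split_ifs with h
  · subst h; rw [hf, mul_zero]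
  · rw [zero_mul]

lemma M2 (hd : 0 < d) (i : Fin d) (n : ℕ) :
    ∀ F : Finset (Site d), ∑ x ∈ F, srw d n x * (x i : ℝ) ^ 2 ≤ n := by
  induction n with
  | zero =>
    intro F
    rw [Nat.cast_zero]
    exact le_of_eq (Finset.sum_eq_zero fun x _ => srw_zero x (fun x => (x i : ℝ) ^ 2) (by simp))
  | succ n ih =>
    refine step n (fun x => (x i : ℝ) ^ 2) (fun x => sq_nonneg _) _ fun F => ?_
    have h1 : ∀ y : Site d, (1 / (2 * (d : ℝ))) * ∑ j : Fin d, ((((y + ee j) i : ℤ) : ℝ) ^ 2 +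
        (((y - ee j) i : ℤ) : ℝ) ^ 2) ≤ (y i : ℝ) ^ 2 + 1 := by
      intro y
      rw [avg hd i (fun m : ℤ => (m : ℝ) ^ 2) y]
      push_cast
      have := inv_le hd
      nlinarith
    calc ∑ y ∈ F, srw d n y * ((1 / (2 * (d : ℝ))) * ∑ j : Fin d,
          ((((y + ee j) i : ℤ) : ℝ) ^ 2 + (((y - ee j) i : ℤ) : ℝ) ^ 2))
        ≤ ∑ y ∈ F, srw d n y * ((y i : ℝ) ^ 2 + 1) :=
          Finset.sum_le_sum fun y _ => mul_le_mul_of_nonneg_left (h1 y) (srw_nonneg n y)
      _ = ∑ y ∈ F, srw d n y * (y i : ℝ) ^ 2 + ∑ y ∈ F, srw d n y := by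
          rw [← Finset.sum_add_distrib]
          exact Finset.sum_congr rfl fun y _ => by rw [mul_add, mul_one]
      _ ≤ n + 1 := add_le_add (ih F) (M0 hd n F)
      _ = ((n + 1 : ℕ) : ℝ) := by push_cast; rfl

lemma M4 (hd : 0 < d) (i : Fin d) (n : ℕ) :
    ∀ F : Finset (Site d), ∑ x ∈ F, srw d n x * (x i : ℝ) ^ 4 ≤ 3 * (n : ℝ) ^ 2 := by
  induction n with
  | zero =>
    intro F
    refine le_of_eq ((Finset.sum_eq_zero fun x _ =>
      srw_zero x (fun x => (x i : ℝ) ^ 4) (by simp)).trans (by simp))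
  | succ n ih =>
    refine step n (fun x => (x i : ℝ) ^ 4) (fun x => by positivity) _ fun F => ?_
    have h1 : ∀ y : Site d, (1 / (2 * (d : ℝ))) * ∑ j : Fin d, ((((y + ee j) i : ℤ) : ℝ) ^ 4 +
        (((y - ee j) i : ℤ) : ℝ) ^ 4) ≤ (y i : ℝ) ^ 4 + 6 * (y i : ℝ) ^ 2 + 1 := by
      intro y
      rw [avg hd i (fun m : ℤ => (m : ℝ) ^ 4) y]
      push_cast
      have h2 := inv_le hd
      have h3 : ((y i : ℝ) + 1) ^ 4 + ((y i : ℝ) - 1) ^ 4 - 2 * (y i : ℝ) ^ 4 =
        2 * (6 * (y i : ℝ) ^ 2 + 1) := by ring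
      rw [h3]
      have h4 : 1 / (2 * (d : ℝ)) * (2 * (6 * (y i : ℝ) ^ 2 + 1)) ≤
          1 / 2 * (2 * (6 * (y i : ℝ) ^ 2 + 1)) := mul_le_mul_of_nonneg_right h2 (by positivity)
      linarith
    have h5 := ih F
    have h6 := M2 hd i n F
    have h7 := M0 hd n F
    calc ∑ y ∈ F, srw d n y * ((1 / (2 * (d : ℝ))) * ∑ j : Fin d,
          ((((y + ee j) i : ℤ) : ℝ) ^ 4 + (((y - ee j) i : ℤ) : ℝ) ^ 4))
        ≤ ∑ y ∈ F, srw d n y * ((y i : ℝ) ^ 4 + 6 * (y i : ℝ) ^ 2 + 1) :=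
          Finset.sum_le_sum fun y _ => mul_le_mul_of_nonneg_left (h1 y) (srw_nonneg n y)
      _ = ∑ y ∈ F, srw d n y * (y i : ℝ) ^ 4 + 6 * ∑ y ∈ F, srw d n y * (y i : ℝ) ^ 2 +
            ∑ y ∈ F, srw d n y := by
          rw [Finset.mul_sum, ← Finset.sum_add_distrib, ← Finset.sum_add_distrib]
          refine Finset.sum_congr rfl fun y _ => ?_
          generalize srw d n y = w
          ring
      _ ≤ 3 * (n : ℝ) ^ 2 + 6 * n + 1 := by linarith
      _ ≤ 3 * ((n + 1 : ℕ) : ℝ) ^ 2 := by push_cast; nlinarith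

/-- the second moment of the Poisson distribution -/
lemma poisson (t : ℝ) : HasSum (fun n : ℕ => (n : ℝ) ^ 2 * (t ^ n / (n.factorial : ℝ)))
    ((t ^ 2 + t) * Real.exp t) := by
  have h0 : HasSum (fun n : ℕ => t ^ n / (n.factorial : ℝ)) (Real.exp t) := by
    rw [Real.exp_eq_exp_ℝ]
    exact NormedSpace.expSeries_div_hasSum_exp t
  have h1 : HasSum (fun n : ℕ => (n : ℝ) * (t ^ n / (n.factorial : ℝ))) (t * Real.exp t) := by
    have h2 : HasSum (fun n : ℕ => ((n + 1 : ℕ) : ℝ) * (t ^ (n + 1) / ((n + 1).factorial : ℝ)))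
        (t * Real.exp t) := by
      refine (h0.mul_left t).congr_fun fun n => ?_
      rw [Nat.factorial_succ]
      push_cast
      have : (n.factorial : ℝ) ≠ 0 := by exact_mod_cast n.factorial_ne_zero
      have : (n : ℝ) + 1 ≠ 0 := by positivity
      field_simp
      ring
    have h3 := (hasSum_nat_add_iff (f := fun n : ℕ => (n : ℝ) * (t ^ n / (n.factorial : ℝ))) 1).1 h2
    simpa using h3
  have h4 : HasSum (fun n : ℕ => ((n : ℝ) * (n - 1)) * (t ^ n / (n.factorial : ℝ)))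
      (t ^ 2 * Real.exp t) := by
    have h2 : HasSum (fun n : ℕ => (((n + 2 : ℕ) : ℝ) * (((n + 2 : ℕ) : ℝ) - 1)) *
        (t ^ (n + 2) / ((n + 2).factorial : ℝ))) (t ^ 2 * Real.exp t) := by
      refine (h0.mul_left (t ^ 2)).congr_fun fun n => ?_
      rw [Nat.factorial_succ, Nat.factorial_succ]
      push_cast
      have : (n.factorial : ℝ) ≠ 0 := by exact_mod_cast n.factorial_ne_zero
      have : (n : ℝ) + 1 ≠ 0 := by positivity
      have : (n : ℝ) + 1 + 1 ≠ 0 := by positivity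
      field_simp
      ring
    have h3 := (hasSum_nat_add_iff
      (f := fun n : ℕ => ((n : ℝ) * (n - 1)) * (t ^ n / (n.factorial : ℝ))) 2).1 h2
    simpa [Finset.sum_range_succ] using h3
  have h5 := h4.add h1
  rw [← add_mul] at h5
  refine h5.congr_fun fun n => ?_
  ring

end HK4

theorem heat_tail (hd : 0 < d) : ∃ C : ℝ, 0 < C ∧ ∀ t : ℝ, 1 ≤ t → ∀ r : ℝ, 0 < r →
    ∑' x : Site d, (if r < ‖x‖ then heat d t x else 0) ≤ C * t ^ 2 / r ^ 4 := by
  classical
  have hd' : (0 : ℝ) < d := by exact_mod_cast hd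
  refine ⟨6 * d, by positivity, fun t ht r hr => ?_⟩
  have ht0 : 0 ≤ t := by linarith
  refine Real.tsum_le_of_sum_le (fun x => ?_) fun F => ?_
  · split_ifs
    · exact heat_nonneg ht0 x
    · exact le_rfl
  rw [← Finset.sum_filter]
  obtain ⟨F', hF'⟩ : ∃ F', F' = F.filter fun x => r < ‖x‖ := ⟨_, rfl⟩
  rw [← hF']
  have hr4 : 0 < r ^ 4 := by positivity
  -- the bound for each `n`
  have h1 : ∀ n : ℕ, ∑ x ∈ F', srw d n x ≤ 3 * d * (n : ℝ) ^ 2 / r ^ 4 := by
    intro n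
    have h2 : ∀ x ∈ F', srw d n x ≤ ∑ i : Fin d, srw d n x * (x i : ℝ) ^ 4 / r ^ 4 := by
      intro x hx
      rw [hF', Finset.mem_filter] at hx
      have h3 : ∃ i, r < ‖x i‖ := by
        by_contra hcon
        push Not at hcon
        exact absurd ((pi_norm_le_iff_of_nonneg hr.le).2 hcon) (not_le.2 hx.2)
      obtain ⟨i, hi⟩ := h3
      rw [Int.norm_eq_abs] at hi
      have h4 : r ^ 4 ≤ (x i : ℝ) ^ 4 := by
        have := pow_le_pow_left₀ hr.le hi.le 4
        rwa [show |(x i : ℝ)| ^ 4 = (x i : ℝ) ^ 4 by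
          rw [show (4 : ℕ) = 2 * 2 by norm_num, pow_mul, sq_abs, ← pow_mul]] at this
      have h5 : srw d n x ≤ srw d n x * (x i : ℝ) ^ 4 / r ^ 4 := by
        rw [le_div_iff₀ hr4]
        exact mul_le_mul_of_nonneg_left h4 (srw_nonneg n x)
      refine h5.trans (Finset.single_le_sum (f := fun i => srw d n x * (x i : ℝ) ^ 4 / r ^ 4)
        (fun i _ => ?_) (Finset.mem_univ i))
      have := srw_nonneg n x
      positivity
    refine (Finset.sum_le_sum h2).trans ?_
    rw [Finset.sum_comm]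
    have h6 : ∀ i : Fin d, ∑ x ∈ F', srw d n x * (x i : ℝ) ^ 4 / r ^ 4 ≤ 3 * (n : ℝ) ^ 2 / r ^ 4 := by
      intro i
      rw [← Finset.sum_div]
      exact div_le_div_of_nonneg_right (HK4.M4 hd i n F') hr4.le
    refine (Finset.sum_le_card_nsmul _ _ _ fun i _ => h6 i).trans (le_of_eq ?_)
    rw [Finset.card_univ, Fintype.card_fin, nsmul_eq_mul]
    ring
  have hs0 : Summable fun n : ℕ => Real.exp (-t) * t ^ n / (n.factorial : ℝ) := by
    have := (Real.summable_pow_div_factorial t).mul_left (Real.exp (-t))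
    refine this.congr fun n => ?_
    ring
  have hs : ∀ x : Site d, Summable fun n : ℕ =>
      Real.exp (-t) * t ^ n / (n.factorial : ℝ) * srw d n x := by
    intro x
    refine Summable.of_nonneg_of_le (fun n => ?_) (fun n => ?_) hs0
    · have := srw_nonneg n x
      positivity
    · exact mul_le_of_le_one_right (by positivity) (srw_le_one hd n x)
  have h7 : ∑ x ∈ F', heat d t x = ∑' n : ℕ, ∑ x ∈ F',
      Real.exp (-t) * t ^ n / (n.factorial : ℝ) * srw d n x := by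
    unfold heat
    exact (Summable.tsum_finsetSum fun x _ => hs x).symm
  rw [h7]
  have h8 := ((HK4.poisson t).mul_left (3 * d / r ^ 4)).mul_left (Real.exp (-t))
  have h9 : ∀ n : ℕ, ∑ x ∈ F', Real.exp (-t) * t ^ n / (n.factorial : ℝ) * srw d n x ≤
      Real.exp (-t) * (3 * d / r ^ 4 * ((n : ℝ) ^ 2 * (t ^ n / (n.factorial : ℝ)))) := by
    intro n
    rw [← Finset.mul_sum]
    calc Real.exp (-t) * t ^ n / (n.factorial : ℝ) * ∑ x ∈ F', srw d n x ≤
          Real.exp (-t) * t ^ n / (n.factorial : ℝ) * (3 * d * (n : ℝ) ^ 2 / r ^ 4) :=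
          mul_le_mul_of_nonneg_left (h1 n) (by positivity)
      _ = Real.exp (-t) * (3 * d / r ^ 4 * ((n : ℝ) ^ 2 * (t ^ n / (n.factorial : ℝ)))) := by ring
  have h10 : Summable fun n : ℕ => ∑ x ∈ F', Real.exp (-t) * t ^ n / (n.factorial : ℝ) * srw d n x :=
    summable_sum fun x _ => hs x
  refine (h10.tsum_le_tsum h9 h8.summable).trans ?_
  rw [h8.tsum_eq]
  have h11 : Real.exp (-t) * (3 * d / r ^ 4 * ((t ^ 2 + t) * Real.exp t)) =
      3 * d * (t ^ 2 + t) / r ^ 4 := by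
    have : Real.exp (-t) * Real.exp t = 1 := by rw [← Real.exp_add]; simp
    calc Real.exp (-t) * (3 * d / r ^ 4 * ((t ^ 2 + t) * Real.exp t)) =
          (Real.exp (-t) * Real.exp t) * (3 * d * (t ^ 2 + t) / r ^ 4) := by ring
      _ = _ := by rw [this, one_mul]
  rw [h11]
  apply div_le_div_of_nonneg_right _ hr4.le
  have h12 : t ^ 2 + t ≤ 2 * t ^ 2 := by nlinarith
  calc 3 * (d : ℝ) * (t ^ 2 + t) ≤ 3 * d * (2 * t ^ 2) := by gcongr
    _ = 6 * d * t ^ 2 := by ring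

open MeasureTheory in
theorem heat_lower (hd : 0 < d) : ∃ a : ℝ, 0 < a ∧ ∀ t : ℝ, 1 ≤ t →
    a * t ^ (-((d : ℝ) / 2)) ≤ heat d t 0 := by
  have hd' : (1 : ℝ) ≤ d := by exact_mod_cast hd
  have hπ := Real.pi_pos
  obtain ⟨c, hc⟩ : ∃ c : ℝ, c = Real.exp (-(1 / 2)) / Real.pi := ⟨_, rfl⟩
  have hc0 : 0 < c := by rw [hc]; positivity
  refine ⟨c ^ d, by positivity, fun t ht => ?_⟩
  have ht0 : 0 < t := by linarith
  rw [HK3.heat_eq hd t ht0.le]
  obtain ⟨s, hs⟩ : ∃ s : ℝ, s = t ^ (-(1 / 2 : ℝ)) := ⟨_, rfl⟩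
  have hs0 : 0 < s := by rw [hs]; positivity
  have hs1 : s ≤ 1 := by rw [hs]; exact Real.rpow_le_one_of_one_le_of_nonpos ht (by norm_num)
  have hst : t * s ^ 2 = 1 := by
    rw [hs, ← Real.rpow_natCast, ← Real.rpow_mul ht0.le]
    norm_num
    rw [Real.rpow_neg_one, mul_inv_cancel₀ ht0.ne']
  have h1 : c * s ≤ ∫ θ, Real.exp (-(t / d * (1 - Real.cos θ))) ∂HK3.nu := by
    unfold HK3.nu
    rw [integral_smul_measure, ENNReal.toReal_inv, ENNReal.toReal_ofReal (by positivity), smul_eq_mul]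
    have h2 : ∫ θ in Set.Ioc (-s) s, Real.exp (-(1 / 2)) ≤
        ∫ θ in Set.Ioc (-s) s, Real.exp (-(t / d * (1 - Real.cos θ))) := by
      refine setIntegral_mono_on ?_ ?_ measurableSet_Ioc ?_
      · exact (Continuous.integrableOn_Ioc continuous_const)
      · exact (Continuous.integrableOn_Ioc (by fun_prop))
      · intro θ hθ
        apply Real.exp_le_exp.2
        have h3 := Real.one_sub_sq_div_two_le_cos (x := θ)
        have h4 : θ ^ 2 ≤ s ^ 2 := sq_le_sq' hθ.1.le hθ.2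
        have h5 : t / d ≤ t := div_le_self ht0.le hd'
        have h6 : 0 ≤ 1 - Real.cos θ := by linarith [Real.cos_le_one θ]
        have h7 : t / d * (1 - Real.cos θ) ≤ t * (s ^ 2 / 2) := by
          calc t / d * (1 - Real.cos θ) ≤ t * (1 - Real.cos θ) := by gcongr
            _ ≤ t * (s ^ 2 / 2) := by gcongr; linarith
        have h8 : t * (s ^ 2 / 2) = 1 / 2 := by
          rw [← mul_div_assoc, hst]
        linarith
    have h9 : ∫ θ in Set.Ioc (-s) s, Real.exp (-(t / d * (1 - Real.cos θ))) ≤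
        ∫ θ in Set.Ioc (-Real.pi) Real.pi, Real.exp (-(t / d * (1 - Real.cos θ))) := by
      refine setIntegral_mono_set (Continuous.integrableOn_Ioc (by fun_prop))
        (Filter.Eventually.of_forall fun θ => (Real.exp_pos _).le) (HasSubset.Subset.eventuallyLE ?_)
      have := Real.pi_gt_three
      exact Set.Ioc_subset_Ioc (by linarith) (by linarith)
    have h10 : ∫ θ in Set.Ioc (-s) s, Real.exp (-(1 / 2)) = 2 * s * Real.exp (-(1 / 2)) := by
      rw [setIntegral_const, Measure.real, Real.volume_Ioc, ENNReal.toReal_ofReal (by linarith),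
        smul_eq_mul]
      ring
    calc c * s = (2 * Real.pi)⁻¹ * (2 * s * Real.exp (-(1 / 2))) := by
          rw [hc]; field_simp
      _ ≤ _ := by
          refine mul_le_mul_of_nonneg_left ?_ (by positivity)
          rw [← h10]
          exact h2.trans h9
  calc c ^ d * t ^ (-((d : ℝ) / 2)) = (c * s) ^ d := by
        rw [hs, mul_pow, ← Real.rpow_natCast (t ^ (-(1 / 2 : ℝ))) d, ← Real.rpow_mul ht0.le]
        congr 2
        ring
    _ ≤ _ := pow_le_pow_left₀ (by positivity) h1 d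

end Pool.Agent.T2H99.AW
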