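import Mathlib

set_option autoImplicit false

/-!
# AW, package RA: two facts on real sequences (independent of all other files)
-/

namespace Pool.Agent.T2H99.AW

open Filter Topology

/-- telescoping: `ρ t ≤ 2 B / t` -/
lemma ra_tail (ρ : ℕ → ℝ) (B : ℝ) (hB : 0 ≤ B) (t : ℕ) (ht : 1 ≤ t)
    (hlim : Tendsto ρ atTop (𝓝 0))
    (h : ∀ s, t ≤ s → ρ s - ρ (s + 1) ≤ B / (s : ℝ) ^ 2) : (t : ℝ) * ρ t ≤ 2 * B := by
  have ht0 : (0 : ℝ) < t := by exact_mod_cast ht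
  have key : ∀ n : ℕ, ρ t - ρ (t + n) ≤ 2 * B * (1 / (t : ℝ) - 1 / ((t + n : ℕ) : ℝ)) := by
    intro n
    induction n with
    | zero => simp
    | succ n ih =>
      have h1 := h (t + n) (by omega)
      have hs : (0 : ℝ) < ((t + n : ℕ) : ℝ) := by positivity
      have hs1 : (1 : ℝ) ≤ ((t + n : ℕ) : ℝ) := by
        have : 1 ≤ t + n := by omega
        exact_mod_cast this
      have h2 : B / ((t + n : ℕ) : ℝ) ^ 2 ≤ 2 * B * (1 / ((t + n : ℕ) : ℝ) - 1 / (((t + n : ℕ) : ℝ) + 1)) := by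
        have e : 2 * B * (1 / ((t + n : ℕ) : ℝ) - 1 / (((t + n : ℕ) : ℝ) + 1))
            = B * (2 / (((t + n : ℕ) : ℝ) * (((t + n : ℕ) : ℝ) + 1))) := by
          field_simp
          ring
        rw [e, div_eq_mul_inv]
        apply mul_le_mul_of_nonneg_left _ hB
        rw [inv_eq_one_div, div_le_div_iff₀ (by positivity) (by positivity)]
        nlinarith
      have h3 : ((t + (n + 1) : ℕ) : ℝ) = ((t + n : ℕ) : ℝ) + 1 := by push_cast; ring
      have h4 : t + (n + 1) = t + n + 1 := by ring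
      rw [h3, h4]
      have e2 : 2 * B * (1 / (t : ℝ) - 1 / (((t + n : ℕ) : ℝ) + 1))
          = 2 * B * (1 / (t : ℝ) - 1 / ((t + n : ℕ) : ℝ))
            + 2 * B * (1 / ((t + n : ℕ) : ℝ) - 1 / (((t + n : ℕ) : ℝ) + 1)) := by ring
      rw [e2]
      linarith
  have key2 : ∀ n : ℕ, ρ t - ρ (t + n) ≤ 2 * B * (1 / (t : ℝ)) := by
    intro n
    refine (key n).trans ?_
    have : 0 ≤ 1 / ((t + n : ℕ) : ℝ) := by positivity
    nlinarith
  have hl : Tendsto (fun n : ℕ => ρ t - ρ (t + n)) atTop (𝓝 (ρ t - 0)) := by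
    apply Tendsto.sub tendsto_const_nhds
    exact hlim.comp (tendsto_add_atTop_nat t |>.congr fun n => by ring)
  have := le_of_tendsto' hl key2
  rw [sub_zero] at this
  calc (t : ℝ) * ρ t ≤ (t : ℝ) * (2 * B * (1 / (t : ℝ))) := mul_le_mul_of_nonneg_left this ht0.le
    _ = 2 * B := by field_simp

/-- RA1. Proof. Suppose not; then `t ρ(t) < 1/144` for all large `t`, `ρ → 0`. Let
`e k = sup_{t ≥ 2^k} t ρ(t)`. For `s ≥ 2^{k+1}` use the hypothesis with `t' = s/2` (natural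
division, `s/3 ≤ s/2`): `ρ(s) - ρ(s+1) ≤ 36 e_k² / s² + C' s^{-5/2}`. Summing over `s ≥ t ≥ 2^{k+1}`:
`ρ(t) ≤ 72 e_k²/t + C'' t^{-3/2}`, so `e_{k+1} ≤ 72 e_k² + C'' 2^{-(k+1)/2} ≤ e_k / 2 + C'' 2^{-(k+1)/2}`,
which gives `e_k ≤ C''' 2^{-k/2}`, i.e. `ρ(t) ≤ C t^{-3/2}`: summable, contradiction. (The number
`1/144` may be replaced by any smaller positive constant: only existence of `ε` is claimed.) -/
theorem dichotomy (ρ : ℕ → ℝ) (h0 : ∀ t, 0 ≤ ρ t) (hanti : Antitone ρ) (C : ℝ)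
    (h : ∀ t' t : ℕ, t' < t →
      ρ t - ρ (t + 1) ≤ 4 * ρ t' ^ 2 + C * ((t : ℝ) - t') ^ (-(5 / 2 : ℝ)))
    (hns : ¬ Summable ρ) : ∃ ε : ℝ, 0 < ε ∧ ∃ᶠ t : ℕ in atTop, ε * (t : ℝ) ^ (-(1 : ℝ)) ≤ ρ t := by
  by_contra hcon
  push Not at hcon
  have h1 := hcon (1 / 144) (by norm_num)
  rw [eventually_atTop] at h1
  obtain ⟨N, hN⟩ := h1
  -- `t ρ t ≤ 1/144` for `t ≥ N`
  have hN' : ∀ t : ℕ, N ≤ t → 1 ≤ t → (t : ℝ) * ρ t ≤ 1 / 144 := by
    intro t ht ht1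
    have ht0 : (0 : ℝ) < t := by exact_mod_cast ht1
    have h2 := (hN t ht).le
    rw [Real.rpow_neg_one] at h2
    calc (t : ℝ) * ρ t ≤ (t : ℝ) * (1 / 144 * (t : ℝ)⁻¹) := mul_le_mul_of_nonneg_left h2 ht0.le
      _ = 1 / 144 := by field_simp
  have hlim : Tendsto ρ atTop (𝓝 0) := by
    have hz : Tendsto (fun t : ℕ => (1 / 144 : ℝ) / (t : ℝ)) atTop (𝓝 0) :=
      tendsto_const_div_atTop_nhds_zero_nat _
    refine tendsto_of_tendsto_of_tendsto_of_le_of_le' tendsto_const_nhds hz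
      (Eventually.of_forall h0) ?_
    filter_upwards [eventually_ge_atTop (max N 1)] with t ht
    have ht1 : 1 ≤ t := le_trans (le_max_right _ _) ht
    have ht0 : (0 : ℝ) < t := by exact_mod_cast ht1
    rw [le_div_iff₀ ht0]
    have := hN' t (le_trans (le_max_left _ _) ht) ht1
    linarith
  -- the function `g`
  set C' : ℝ := max C 0 with hC'
  have hC'0 : 0 ≤ C' := le_max_right _ _
  have hCC : C ≤ C' := le_max_left _ _
  let g : ℝ → ℝ := fun x => x ^ (-(1 / 2 : ℝ))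
  have hg2 : 7 / 10 ≤ g 2 := by
    show (7 / 10 : ℝ) ≤ (2 : ℝ) ^ (-(1 / 2 : ℝ))
    rw [Real.rpow_neg (by norm_num), ← Real.sqrt_eq_rpow, inv_eq_one_div,
      div_le_div_iff₀ (by norm_num) (by positivity)]
    have : Real.sqrt 2 ≤ 10 / 7 := by
      rw [Real.sqrt_le_left (by norm_num)]
      norm_num
    linarith
  have hgpos : ∀ x : ℝ, 0 < x → 0 < g x := fun x hx => Real.rpow_pos_of_pos hx _
  have hganti : ∀ x y : ℝ, 0 < x → x ≤ y → g y ≤ g x := fun x y hx hxy =>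
    Real.rpow_le_rpow_of_nonpos hx hxy (by norm_num)
  have hgmul : ∀ x y : ℝ, 0 ≤ x → 0 ≤ y → g (x * y) = g x * g y := fun x y hx hy =>
    Real.mul_rpow hx hy
  -- the hypothesis in convenient form
  have hstep : ∀ (s : ℕ) (E : ℝ), 2 ≤ s → N ≤ s / 2 → 0 ≤ E → ((s / 2 : ℕ) : ℝ) * ρ (s / 2) ≤ E →
      ρ s - ρ (s + 1) ≤ (E / 4 + 6 * C' * g s) / (s : ℝ) ^ 2 := by
    intro s E hs hNs hE hsE
    have hs0 : (0 : ℝ) < s := by positivity
    have hlt : s / 2 < s := Nat.div_lt_self (by omega) (by norm_num)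
    have h2 := h (s / 2) s hlt
    have hd1 : (s : ℝ) / 3 ≤ ((s / 2 : ℕ) : ℝ) := by
      have : s ≤ 3 * (s / 2) := by omega
      have : (s : ℝ) ≤ 3 * ((s / 2 : ℕ) : ℝ) := by exact_mod_cast this
      linarith
    have hd2 : (s : ℝ) / 2 ≤ (s : ℝ) - ((s / 2 : ℕ) : ℝ) := by
      have : 2 * (s / 2) ≤ s := by omega
      have : 2 * ((s / 2 : ℕ) : ℝ) ≤ (s : ℝ) := by exact_mod_cast this
      linarith
    have hq := h0 (s / 2)
    have e1 : (s : ℝ) * ρ (s / 2) ≤ 3 * E := by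
      have := mul_le_mul_of_nonneg_right hd1 hq
      linarith
    have e2 : (s : ℝ) * ρ (s / 2) ≤ 3 * (1 / 144) := by
      have h5 := mul_le_mul_of_nonneg_right hd1 hq
      have h6 := hN' (s / 2) hNs (by omega)
      linarith
    have e3 : 4 * ρ (s / 2) ^ 2 ≤ (E / 4) / (s : ℝ) ^ 2 := by
      rw [le_div_iff₀ (by positivity)]
      have h7 : ((s : ℝ) * ρ (s / 2)) * ((s : ℝ) * ρ (s / 2)) ≤ (3 * E) * (3 * (1 / 144)) :=
        mul_le_mul e1 e2 (by positivity) (by positivity)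
      nlinarith
    have e4 : ((s : ℝ) - ((s / 2 : ℕ) : ℝ)) ^ (-(5 / 2 : ℝ)) ≤ 6 * g s / (s : ℝ) ^ 2 := by
      have h8 : ((s : ℝ) - ((s / 2 : ℕ) : ℝ)) ^ (-(5 / 2 : ℝ)) ≤ ((s : ℝ) / 2) ^ (-(5 / 2 : ℝ)) :=
        Real.rpow_le_rpow_of_nonpos (by positivity) hd2 (by norm_num)
      have h9 : ((s : ℝ) / 2) ^ (-(5 / 2 : ℝ)) = g s / (s : ℝ) ^ 2 * (2 : ℝ) ^ (5 / 2 : ℝ) := by
        rw [Real.div_rpow hs0.le (by norm_num)]
        show _ = (s : ℝ) ^ (-(1 / 2 : ℝ)) / (s : ℝ) ^ 2 * (2 : ℝ) ^ (5 / 2 : ℝ)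
        rw [← Real.rpow_natCast (s : ℝ) 2, ← Real.rpow_sub hs0, Real.rpow_neg (by norm_num : (0:ℝ) ≤ 2)]
        rw [div_inv_eq_mul]
        norm_num
      have h10 : (2 : ℝ) ^ (5 / 2 : ℝ) ≤ 6 := by
        have : (2 : ℝ) ^ (5 / 2 : ℝ) = 4 * Real.sqrt 2 := by
          rw [Real.sqrt_eq_rpow, show (5 / 2 : ℝ) = 2 + 1 / 2 by norm_num,
            Real.rpow_add (by norm_num)]
          norm_num
        rw [this]
        have : Real.sqrt 2 ≤ 3 / 2 := by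
          rw [Real.sqrt_le_left (by norm_num)]
          norm_num
        linarith
      have h11 : 0 ≤ g s / (s : ℝ) ^ 2 := by
        have := (hgpos s hs0).le
        positivity
      calc _ ≤ _ := h8
        _ = g s / (s : ℝ) ^ 2 * (2 : ℝ) ^ (5 / 2 : ℝ) := h9
        _ ≤ g s / (s : ℝ) ^ 2 * 6 := mul_le_mul_of_nonneg_left h10 h11
        _ = _ := by ring
    have e5 : C * ((s : ℝ) - ((s / 2 : ℕ) : ℝ)) ^ (-(5 / 2 : ℝ)) ≤ (6 * C' * g s) / (s : ℝ) ^ 2 := by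
      have h12 : 0 ≤ ((s : ℝ) - ((s / 2 : ℕ) : ℝ)) ^ (-(5 / 2 : ℝ)) :=
        Real.rpow_nonneg (by linarith) _
      calc _ ≤ C' * ((s : ℝ) - ((s / 2 : ℕ) : ℝ)) ^ (-(5 / 2 : ℝ)) :=
            mul_le_mul_of_nonneg_right hCC h12
        _ ≤ C' * (6 * g s / (s : ℝ) ^ 2) := mul_le_mul_of_nonneg_left e4 hC'0
        _ = _ := by ring
    rw [add_div]
    linarith
  -- the dyadic induction
  obtain ⟨k0, hk0⟩ : ∃ k0 : ℕ, max N 1 ≤ 2 ^ k0 := ⟨max N 1, Nat.lt_two_pow_self.le⟩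
  have hN2 : N ≤ 2 ^ k0 := le_trans (le_max_left _ _) hk0
  set K : ℝ := 84 * C' + (1 / 144) / g ((2 : ℝ) ^ k0) with hK
  have hgk0 : 0 < g ((2 : ℝ) ^ k0) := hgpos _ (by positivity)
  have hK1 : 84 * C' ≤ K := by
    have : 0 ≤ (1 / 144) / g ((2 : ℝ) ^ k0) := by positivity
    linarith
  have hK2 : 1 / 144 ≤ K * g ((2 : ℝ) ^ k0) := by
    have e : (1 / 144) / g ((2 : ℝ) ^ k0) * g ((2 : ℝ) ^ k0) = 1 / 144 := by
      field_simp
    have : 0 ≤ 84 * C' * g ((2 : ℝ) ^ k0) := by positivity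
    rw [hK, add_mul, e]
    linarith
  have hK0 : 0 ≤ K := by linarith
  have hind : ∀ j : ℕ, ∀ t : ℕ, 2 ^ (k0 + j) ≤ t → (t : ℝ) * ρ t ≤ K * g ((2 : ℝ) ^ (k0 + j)) := by
    intro j
    induction j with
    | zero =>
      intro t ht
      have ht' : 2 ^ k0 ≤ t := by simpa using ht
      have h2 := hN' t (le_trans hN2 ht') (le_trans (le_trans (le_max_right _ _) hk0) ht')
      simp only [add_zero]
      linarith
    | succ j ih =>
      intro t ht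
      have ht2 : 2 ^ (k0 + j) * 2 ≤ t := by
        have : 2 ^ (k0 + (j + 1)) = 2 ^ (k0 + j) * 2 := by rw [← add_assoc, pow_succ]
        omega
      have hp : 1 ≤ 2 ^ (k0 + j) := Nat.one_le_two_pow
      have hNj : N ≤ 2 ^ (k0 + j) := le_trans hN2 (Nat.pow_le_pow_right (by norm_num) (by omega))
      have ht0 : (0 : ℝ) < t := by
        have : 1 ≤ t := by omega
        exact_mod_cast this
      have hgj : 0 ≤ g ((2 : ℝ) ^ (k0 + j)) := (hgpos _ (by positivity)).le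
      have hgt : 0 ≤ g t := (hgpos _ ht0).le
      have htail := ra_tail ρ (K * g ((2 : ℝ) ^ (k0 + j)) / 4 + 6 * C' * g t) (by positivity) t
        (by omega) hlim (by
          intro s hs
          have h3 := hstep s (K * g ((2 : ℝ) ^ (k0 + j))) (by omega) (by omega) (by positivity)
            (ih (s / 2) (by omega))
          refine h3.trans ?_
          apply div_le_div_of_nonneg_right _ (by positivity)
          have h4 : g s ≤ g t := hganti t s ht0 (by exact_mod_cast hs)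
          have := mul_le_mul_of_nonneg_left h4 (by positivity : 0 ≤ 6 * C')
          linarith)
      have h5 : g t ≤ g ((2 : ℝ) ^ (k0 + (j + 1))) := by
        apply hganti _ _ (by positivity)
        exact_mod_cast ht
      have h6 : g ((2 : ℝ) ^ (k0 + (j + 1))) = g ((2 : ℝ) ^ (k0 + j)) * g 2 := by
        rw [← hgmul _ _ (by positivity) (by norm_num), ← add_assoc, pow_succ]
      have h7 : 12 * C' * g t ≤ 12 * C' * (g ((2 : ℝ) ^ (k0 + j)) * g 2) := by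
        rw [← h6]
        exact mul_le_mul_of_nonneg_left h5 (by positivity)
      rw [h6]
      set G := g ((2 : ℝ) ^ (k0 + j)) with hG
      have hfin : K * G / 2 + 12 * C' * (G * g 2) ≤ K * (G * g 2) := by
        have h8 : 0 ≤ (K - 12 * C') := by linarith
        have h9 : (K - 12 * C') * (7 / 10) ≤ (K - 12 * C') * g 2 := mul_le_mul_of_nonneg_left hg2 h8
        have h10 : K / 2 ≤ (K - 12 * C') * g 2 := by linarith
        have h11 := mul_le_mul_of_nonneg_right h10 hgj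
        linarith
      linarith
  -- summability
  apply hns
  have hsum : Summable fun t : ℕ => (2 * K) * (t : ℝ) ^ (-(3 / 2 : ℝ)) :=
    (Real.summable_nat_rpow.mpr (by norm_num)).mul_left _
  refine Summable.of_norm_bounded_eventually_nat hsum ?_
  filter_upwards [eventually_ge_atTop (2 ^ k0)] with t ht
  have ht1 : 1 ≤ t := le_trans Nat.one_le_two_pow ht
  have ht0 : (0 : ℝ) < t := by exact_mod_cast ht1
  rw [Real.norm_of_nonneg (h0 t)]
  have hlog1 : 2 ^ Nat.log 2 t ≤ t := Nat.pow_log_le_self 2 (by omega)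
  have hlog2 : t < 2 ^ (Nat.log 2 t + 1) := Nat.lt_pow_succ_log_self (by norm_num) t
  have hk : k0 ≤ Nat.log 2 t := by
    exact Nat.le_log_of_pow_le (by norm_num) ht
  obtain ⟨j, hj⟩ := Nat.exists_eq_add_of_le hk
  have h2 := hind j t (by rw [← hj]; exact hlog1)
  rw [← hj] at h2
  have h3 : g ((2 : ℝ) ^ Nat.log 2 t) ≤ 2 * g t := by
    have h4 : (t : ℝ) / 2 ≤ (2 : ℝ) ^ Nat.log 2 t := by
      have : (t : ℝ) ≤ 2 ^ (Nat.log 2 t + 1) := by exact_mod_cast hlog2.le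
      rw [pow_succ] at this
      linarith
    have h5 : g ((2 : ℝ) ^ Nat.log 2 t) ≤ g ((t : ℝ) / 2) := hganti _ _ (by positivity) h4
    have h6 : g ((t : ℝ) / 2) * g 2 = g t := by
      rw [← hgmul _ _ (by positivity) (by norm_num)]
      congr 1
      ring
    have h7 : 0 ≤ g ((t : ℝ) / 2) := (hgpos _ (by positivity)).le
    have h8 : g ((t : ℝ) / 2) * (7 / 10) ≤ g t := by
      rw [← h6]
      exact mul_le_mul_of_nonneg_left hg2 h7
    linarith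
  have h9 : (t : ℝ) * ρ t ≤ 2 * K * g t := by
    have := mul_le_mul_of_nonneg_left h3 hK0
    linarith
  have h10 : (t : ℝ) ^ (-(3 / 2 : ℝ)) = g t / t := by
    show _ = (t : ℝ) ^ (-(1 / 2 : ℝ)) / t
    rw [← Real.rpow_sub_one ht0.ne']
    norm_num
  rw [h10, ← mul_div_assoc, le_div_iff₀ ht0]
  linarith

/-- RA2. Proof. `f t = t^α ρ(t)`. If `f ≤ M` for all `t`, then for `t ≥ 8` with `a ≤ f t`:
`ρ(t/4) ≤ M (t/4)^{-α} ≤ M 8^α t^{-α} ≤ (M 8^α / a) ρ(t)` (natural division `t/4 ≥ t/8`).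
If `f` is unbounded, there are arbitrarily large `t` with `f t ≥ f s` for all `s ≤ t` and `f t ≥ a`
(records), and then `(t/4)^α ρ(t/4) ≤ t^α ρ(t)`, so `ρ(t/4) ≤ 8^α ρ(t)`. -/
theorem select (ρ : ℕ → ℝ) (h0 : ∀ t, 0 ≤ ρ t) (hanti : Antitone ρ) (α a : ℝ) (hα : 0 < α)
    (ha : 0 < a) (h : ∃ᶠ t : ℕ in atTop, a * (t : ℝ) ^ (-α) ≤ ρ t) :
    ∃ K : ℝ, 0 < K ∧ ∃ᶠ t : ℕ in atTop, a * (t : ℝ) ^ (-α) ≤ ρ t ∧ ρ (t / 4) ≤ K * ρ t := by
  -- comparison of `t/4` and `t`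
  have hcmp : ∀ t : ℕ, 8 ≤ t → (t : ℝ) / 8 ≤ ((t / 4 : ℕ) : ℝ) := by
    intro t ht
    have : t ≤ 8 * (t / 4) := by omega
    have : (t : ℝ) ≤ 8 * ((t / 4 : ℕ) : ℝ) := by exact_mod_cast this
    linarith
  have hpow : ∀ t : ℕ, 8 ≤ t → (t : ℝ) ^ α ≤ 8 ^ α * ((t / 4 : ℕ) : ℝ) ^ α := by
    intro t ht
    rw [← Real.mul_rpow (by norm_num) (by positivity)]
    apply Real.rpow_le_rpow (by positivity) _ hα.le
    have := hcmp t ht
    linarith
  have h8 : (0 : ℝ) < 8 ^ α := by positivity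
  have hneg : ∀ t : ℕ, 1 ≤ t → (a * (t : ℝ) ^ (-α) ≤ ρ t ↔ a ≤ (t : ℝ) ^ α * ρ t) := by
    intro t ht
    have ht0 : (0 : ℝ) < t := by exact_mod_cast ht
    have hp : (0 : ℝ) < (t : ℝ) ^ α := by positivity
    rw [Real.rpow_neg ht0.le, ← div_eq_mul_inv, div_le_iff₀ hp, mul_comm]
  by_cases hb : ∃ M : ℝ, ∀ t : ℕ, (t : ℝ) ^ α * ρ t ≤ M
  · obtain ⟨M, hM⟩ := hb
    refine ⟨max M 1 * 8 ^ α / a, by positivity, ?_⟩
    refine (h.and_eventually (eventually_ge_atTop 8)).mono ?_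
    rintro t ⟨ht, ht8⟩
    refine ⟨ht, ?_⟩
    have hfa := (hneg t (by omega)).mp ht
    have hq0 : (0 : ℝ) < ((t / 4 : ℕ) : ℝ) := by
      have : 1 ≤ t / 4 := by omega
      exact_mod_cast this
    have hq : (0 : ℝ) < ((t / 4 : ℕ) : ℝ) ^ α := by positivity
    have h1 := hM (t / 4)
    have h2 := hpow t ht8
    have ht0 : (0 : ℝ) < t := by positivity
    have hta : (0 : ℝ) < (t : ℝ) ^ α := by positivity
    have hρ := h0 (t / 4)
    -- `t^α ρ(t/4) ≤ 8^α M`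
    have h3 : (t : ℝ) ^ α * ρ (t / 4) ≤ max M 1 * 8 ^ α := by
      calc (t : ℝ) ^ α * ρ (t / 4) ≤ 8 ^ α * ((t / 4 : ℕ) : ℝ) ^ α * ρ (t / 4) :=
            mul_le_mul_of_nonneg_right h2 hρ
        _ = 8 ^ α * (((t / 4 : ℕ) : ℝ) ^ α * ρ (t / 4)) := by ring
        _ ≤ 8 ^ α * max M 1 := mul_le_mul_of_nonneg_left (h1.trans (le_max_left _ _)) h8.le
        _ = _ := by ring
    have h4 : (t : ℝ) ^ α * ρ (t / 4) ≤ (t : ℝ) ^ α * (max M 1 * 8 ^ α / a * ρ t) := by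
      have e : (t : ℝ) ^ α * (max M 1 * 8 ^ α / a * ρ t) = (max M 1 * 8 ^ α) * (((t : ℝ) ^ α * ρ t) / a) := by
        ring
      rw [e]
      have h5 : 1 ≤ ((t : ℝ) ^ α * ρ t) / a := by rwa [one_le_div ha]
      have h6 : 0 ≤ max M 1 * 8 ^ α := by positivity
      calc _ ≤ max M 1 * 8 ^ α := h3
        _ = max M 1 * 8 ^ α * 1 := by ring
        _ ≤ _ := mul_le_mul_of_nonneg_left h5 h6
    exact le_of_mul_le_mul_left h4 hta
  · push Not at hb
    refine ⟨8 ^ α, h8, ?_⟩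
    rw [frequently_atTop]
    intro N
    -- a record beyond `max N 8`
    let n0 := max N 8
    let M : ℝ := max a ((Finset.range (n0 + 1)).sup' ⟨0, by simp⟩ fun s => (s : ℝ) ^ α * ρ s)
    have hex : ∃ t : ℕ, M < (t : ℝ) ^ α * ρ t := hb M
    classical
    let t := Nat.find hex
    have ht : M < (t : ℝ) ^ α * ρ t := Nat.find_spec hex
    have hmin : ∀ s < t, (s : ℝ) ^ α * ρ s ≤ M := fun s hs => not_lt.mp (Nat.find_min hex hs)
    have htn : n0 < t := by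
      by_contra hle
      have hle : t ≤ n0 := not_lt.mp hle
      have h1 : (t : ℝ) ^ α * ρ t ≤ (Finset.range (n0 + 1)).sup' ⟨0, by simp⟩ fun s => (s : ℝ) ^ α * ρ s :=
        Finset.le_sup' (fun s : ℕ => (s : ℝ) ^ α * ρ s) (by simp; omega)
      have h2 : (t : ℝ) ^ α * ρ t ≤ M := h1.trans (le_max_right _ _)
      linarith
    have htN : N ≤ t := le_trans (le_max_left _ _) htn.le
    have ht8 : 8 ≤ t := le_trans (le_max_right _ _) htn.le
    refine ⟨t, htN, ?_, ?_⟩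
    · rw [hneg t (by omega)]
      exact le_trans (le_max_left _ _) ht.le
    · have h1 : ((t / 4 : ℕ) : ℝ) ^ α * ρ (t / 4) ≤ (t : ℝ) ^ α * ρ t :=
        (hmin (t / 4) (by omega)).trans ht.le
      have hq0 : (0 : ℝ) < ((t / 4 : ℕ) : ℝ) := by
        have : 1 ≤ t / 4 := by omega
        exact_mod_cast this
      have hq : (0 : ℝ) < ((t / 4 : ℕ) : ℝ) ^ α := by positivity
      have h2 := mul_le_mul_of_nonneg_right (hpow t ht8) (h0 t)
      have h3 : ((t / 4 : ℕ) : ℝ) ^ α * ρ (t / 4) ≤ ((t / 4 : ℕ) : ℝ) ^ α * (8 ^ α * ρ t) := by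
        linarith
      exact le_of_mul_le_mul_left h3 hq

end Pool.Agent.T2H99.AW
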