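import Pool.Agent.T2H99.AW.FEF
import Pool.Agent.T2H99.AW.RA
import Pool.Agent.T2H99.AW.HK3
import Pool.Agent.T2H99.AW.HK4

set_option autoImplicit false

/-!
# AW, package SEL: good times (uses CD2, FEF, RA, HK3, HK4)

`α = min (d/4) 1`. If `d ≤ 4`: `dens true t ≥ (1/4) (heat (4t) 0)^{1/2} ≥ a t^{-d/4}` for all `t ≥ 1`
(`dens_lower`, `heat_lower`). If `d ≥ 5`: `dichotomy` applied to `ρ = dens true` (`dens_dec`,
`heat_upper`: `heat (2(t-t')) 0 ≤ C (2(t-t'))^{-d/2} ≤ C (t-t')^{-5/2}` for `t' < t`,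
`dens_not_summable`). Then `select`. The conclusions:
`t_j → ∞` with `dens t_j ≥ a t_j^{-α}` and `dens (t_j/4) ≤ K dens t_j`. In the form of good times:
for `g t = ∑_{k ≤ t} heat k 0` (Green function) and `W = [t/2, t]`,
* `g t ≤ K' * t * dens t` (for `d ≤ 4`: `g t ≤ 1 + C ∑ k^{-d/2} ≤ C' t^{1-d/4}`; for `d ≥ 5`: `g ≤ C`
  and `t dens t ≥ a`);
* `heat ((t/2) - (t/4)) 0`-type terms: `heat s 0 ≤ K' (dens t)^2` for all real `s ≥ t/8`
  (`s^{-d/2} ≤ C t^{-d/2} ≤ C' t^{-2α} ≤ C'' (dens t)^2`, as `2α ≤ d/2`);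
* `heat s 0 ≤ K' t^{-1/4} * dens t` for all `s ≥ t/8` (same, `t^{-d/2} ≤ t^{-α} t^{-1/4}`: `d/2 - α ≥ 1/4`).
-/

namespace Pool.Agent.T2H99.AW

open Finset Filter Topology MeasureTheory ProbabilityTheory
open scoped NNReal ENNReal BigOperators

variable {d : ℕ} {Ω : Type} [mΩ : MeasurableSpace Ω] {μ : Measure Ω} [IsProbabilityMeasure μ]
  {p : ℝ} {c : Site d → Ω → Bool} {S : Site d → ℝ≥0 → Ω → Site d}
  {alive : Finset (Site d) → ℝ≥0 → Ω → Finset (Site d)}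

namespace SEL

/-- `∑_{1 ≤ k ≤ t} k^{-α} ≤ t^{1-α} / (1-α)` -/
theorem sum_pow (α : ℝ) (h0 : 0 ≤ α) (h1 : α < 1) (t : ℕ) :
    ∑ k ∈ Finset.range t, ((k + 1 : ℕ) : ℝ) ^ (-α) ≤ (t : ℝ) ^ (1 - α) / (1 - α) := by
  have hα : 0 < 1 - α := by linarith
  induction t with
  | zero =>
    rw [Finset.sum_range_zero]
    positivity
  | succ t ih =>
    rw [Finset.sum_range_succ]
    have hu : (0 : ℝ) < ((t + 1 : ℕ) : ℝ) := by positivity
    have e0' : 1 / ((t + 1 : ℕ) : ℝ) ≤ 1 := by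
      rw [div_le_one hu]
      push_cast
      linarith [Nat.cast_nonneg (α := ℝ) t]
    have key : (t : ℝ) ^ (1 - α) + (1 - α) * ((t + 1 : ℕ) : ℝ) ^ (-α) ≤
        ((t + 1 : ℕ) : ℝ) ^ (1 - α) := by
      have hb := rpow_one_add_le_one_add_mul_self (s := -(1 / ((t + 1 : ℕ) : ℝ)))
        (by linarith) hα.le (by linarith : 1 - α ≤ 1)
      have e1 : (1 + -(1 / ((t + 1 : ℕ) : ℝ))) * ((t + 1 : ℕ) : ℝ) = t := by
        field_simp
        push_cast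
        ring
      have e0 : 0 ≤ 1 + -(1 / ((t + 1 : ℕ) : ℝ)) := by linarith
      have e2 : (t : ℝ) ^ (1 - α) = (1 + -(1 / ((t + 1 : ℕ) : ℝ))) ^ (1 - α) *
          ((t + 1 : ℕ) : ℝ) ^ (1 - α) := by
        rw [← Real.mul_rpow e0 hu.le, e1]
      have e3 : ((t + 1 : ℕ) : ℝ) ^ (-α) = 1 / ((t + 1 : ℕ) : ℝ) * ((t + 1 : ℕ) : ℝ) ^ (1 - α) := by
        rw [show (1 - α) = -α + 1 by ring, Real.rpow_add_one hu.ne']
        field_simp
      rw [e2, e3]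
      have h3 := mul_le_mul_of_nonneg_right hb (Real.rpow_nonneg hu.le (1 - α))
      linarith
    have h4 : ((t + 1 : ℕ) : ℝ) ^ (-α) ≤
        (((t + 1 : ℕ) : ℝ) ^ (1 - α) - (t : ℝ) ^ (1 - α)) / (1 - α) := by
      rw [le_div_iff₀ hα]
      linarith
    rw [sub_div] at h4
    linarith

/-- `∑_{1 ≤ k ≤ t} k^{-2} ≤ 2` -/
theorem sum_sq' (t : ℕ) :
    ∑ k ∈ Finset.range (t + 1), 1 / ((k + 1 : ℕ) : ℝ) ^ 2 ≤ 2 - 1 / ((t + 1 : ℕ) : ℝ) := by
  induction t with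
  | zero => norm_num
  | succ t ih =>
    rw [Finset.sum_range_succ]
    have h1 : (0 : ℝ) < ((t + 1 : ℕ) : ℝ) := by positivity
    have h2 : (0 : ℝ) < ((t + 1 + 1 : ℕ) : ℝ) := by positivity
    have h3 : 1 / ((t + 1 + 1 : ℕ) : ℝ) ^ 2 ≤ 1 / ((t + 1 : ℕ) : ℝ) - 1 / ((t + 1 + 1 : ℕ) : ℝ) := by
      rw [div_sub_div _ _ h1.ne' h2.ne', div_le_div_iff₀ (by positivity) (by positivity)]
      push_cast
      nlinarith [Nat.cast_nonneg (α := ℝ) t]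
    linarith

theorem sum_sq (t : ℕ) : ∑ k ∈ Finset.range t, 1 / ((k + 1 : ℕ) : ℝ) ^ 2 ≤ 2 := by
  rcases t with _ | t
  · simp
  · have h1 : (0 : ℝ) < ((t + 1 : ℕ) : ℝ) := by positivity
    have h2 := sum_sq' t
    have h3 : 0 < 1 / ((t + 1 : ℕ) : ℝ) := by positivity
    linarith

/-- bound of the Green function -/
theorem green (hd : 0 < d) : ∃ C : ℝ, 0 < C ∧ ∀ t : ℕ, 1 ≤ t →
    ∑ k ∈ Finset.range (t + 1), heat d (k : ℝ) 0 ≤ C * (t : ℝ) ^ (1 - min ((d : ℝ) / 4) 1) := by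
  obtain ⟨C, hC, hu⟩ := heat_upper hd
  have hd1 : (1 : ℝ) ≤ d := by exact_mod_cast hd
  have e1 : ∀ t : ℕ, ∑ k ∈ Finset.range (t + 1), heat d (k : ℝ) 0 ≤
      C * (∑ k ∈ Finset.range t, ((k + 1 : ℕ) : ℝ) ^ (-((d : ℝ) / 2))) + 1 := by
    intro t
    rw [Finset.sum_range_succ', Finset.mul_sum]
    refine add_le_add (Finset.sum_le_sum fun k _ => hu _ (by positivity)) ?_
    rw [Nat.cast_zero]
    exact heat_le_one hd le_rfl 0
  have hk1 : ∀ k : ℕ, (1 : ℝ) ≤ ((k + 1 : ℕ) : ℝ) := by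
    intro k
    push_cast
    linarith [Nat.cast_nonneg (α := ℝ) k]
  rcases Nat.lt_or_ge d 4 with h4 | h4
  · have hd4 : (d : ℝ) ≤ 3 := by
      have : d ≤ 3 := by omega
      exact_mod_cast this
    have hmin : min ((d : ℝ) / 4) 1 = (d : ℝ) / 4 := min_eq_left (by linarith)
    have hpos : 0 < 1 - (d : ℝ) / 4 := by linarith
    refine ⟨C * (1 / (1 - (d : ℝ) / 4)) + 1, by positivity, fun t ht => ?_⟩
    have ht1 : (1 : ℝ) ≤ t := by exact_mod_cast ht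
    rw [hmin]
    have h5 : ∑ k ∈ Finset.range t, ((k + 1 : ℕ) : ℝ) ^ (-((d : ℝ) / 2)) ≤
        (t : ℝ) ^ (1 - (d : ℝ) / 4) / (1 - (d : ℝ) / 4) := by
      refine le_trans (Finset.sum_le_sum fun k _ => ?_)
        (sum_pow ((d : ℝ) / 4) (by positivity) (by linarith) t)
      exact Real.rpow_le_rpow_of_exponent_le (hk1 k) (by linarith)
    have h6 : (1 : ℝ) ≤ (t : ℝ) ^ (1 - (d : ℝ) / 4) := Real.one_le_rpow ht1 hpos.le
    have h7 := mul_le_mul_of_nonneg_left h5 hC.le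
    have h8 := e1 t
    have h9 : C * ((t : ℝ) ^ (1 - (d : ℝ) / 4) / (1 - (d : ℝ) / 4)) =
        C * (1 / (1 - (d : ℝ) / 4)) * (t : ℝ) ^ (1 - (d : ℝ) / 4) := by ring
    rw [h9] at h7
    linarith
  · have hd4 : (4 : ℝ) ≤ d := by exact_mod_cast h4
    have hmin : min ((d : ℝ) / 4) 1 = 1 := min_eq_right (by linarith)
    refine ⟨C * 2 + 1, by positivity, fun t ht => ?_⟩
    rw [hmin, sub_self, Real.rpow_zero, mul_one]
    have h5 : ∑ k ∈ Finset.range t, ((k + 1 : ℕ) : ℝ) ^ (-((d : ℝ) / 2)) ≤ 2 := by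
      refine le_trans (Finset.sum_le_sum fun k _ => ?_) (sum_sq t)
      have h6 : ((k + 1 : ℕ) : ℝ) ^ (-((d : ℝ) / 2)) ≤ ((k + 1 : ℕ) : ℝ) ^ (-(2 : ℝ)) :=
        Real.rpow_le_rpow_of_exponent_le (hk1 k) (by linarith)
      have h7 : ((k + 1 : ℕ) : ℝ) ^ (-(2 : ℝ)) = 1 / ((k + 1 : ℕ) : ℝ) ^ 2 := by
        rw [Real.rpow_neg (by positivity), Real.rpow_two, one_div]
      rw [← h7]
      exact h6
    have h7 := mul_le_mul_of_nonneg_left h5 hC.le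
    have h8 := e1 t
    linarith

/-- the return probabilities after time `t / 8` -/
theorem late (hd : 0 < d) : ∃ C : ℝ, 0 < C ∧ ∀ t : ℕ, 1 ≤ t → ∀ s : ℝ, (t : ℝ) / 8 ≤ s →
    heat d s 0 ≤ C * ((t : ℝ) ^ (-(min ((d : ℝ) / 4) 1))) ^ 2 ∧
    heat d s 0 ≤ C * (t : ℝ) ^ (-(1 / 4 : ℝ)) * (t : ℝ) ^ (-(min ((d : ℝ) / 4) 1)) := by
  obtain ⟨C, hC, hu⟩ := heat_upper hd
  have hd1 : (1 : ℝ) ≤ d := by exact_mod_cast hd
  refine ⟨C * 8 ^ ((d : ℝ) / 2), by positivity, fun t ht s hs => ?_⟩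
  have ht1 : (1 : ℝ) ≤ t := by exact_mod_cast ht
  have ht0 : (0 : ℝ) < t := by linarith
  have hs0 : 0 < s := by linarith
  have h1 : heat d s 0 ≤ C * 8 ^ ((d : ℝ) / 2) * (t : ℝ) ^ (-((d : ℝ) / 2)) := by
    refine (hu s hs0).trans ?_
    rw [mul_assoc]
    refine mul_le_mul_of_nonneg_left ?_ hC.le
    have h2 : s ^ (-((d : ℝ) / 2)) ≤ ((t : ℝ) / 8) ^ (-((d : ℝ) / 2)) :=
      Real.rpow_le_rpow_of_nonpos (by positivity) hs (by linarith)
    refine h2.trans (le_of_eq ?_)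
    rw [Real.div_rpow ht0.le (by norm_num), Real.rpow_neg (by norm_num : (0 : ℝ) ≤ 8), div_inv_eq_mul,
      mul_comm]
  have hm1 : min ((d : ℝ) / 4) 1 ≤ (d : ℝ) / 4 := min_le_left _ _
  have hm2 : min ((d : ℝ) / 4) 1 ≤ 1 := min_le_right _ _
  refine ⟨h1.trans ?_, h1.trans ?_⟩
  · refine mul_le_mul_of_nonneg_left ?_ (by positivity)
    rw [← Real.rpow_natCast, ← Real.rpow_mul ht0.le]
    refine Real.rpow_le_rpow_of_exponent_le ht1 ?_
    push_cast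
    linarith
  · rw [mul_assoc (C * 8 ^ ((d : ℝ) / 2))]
    refine mul_le_mul_of_nonneg_left ?_ (by positivity)
    rw [← Real.rpow_add ht0]
    refine Real.rpow_le_rpow_of_exponent_le ht1 ?_
    have : 1 / 4 + min ((d : ℝ) / 4) 1 ≤ (d : ℝ) / 2 := by
      rcases le_total ((d : ℝ) / 4) 1 with h | h
      · rw [min_eq_left h]
        linarith
      · rw [min_eq_right h]
        linarith
    linarith

/-- lower bound of the density for infinitely many times -/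
theorem freq (hd : 0 < d) (hA : Sys μ (1 / 2) c S alive) : ∃ a : ℝ, 0 < a ∧
    ∃ᶠ t : ℕ in atTop, a * (t : ℝ) ^ (-(min ((d : ℝ) / 4) 1)) ≤ dens μ c S alive true t := by
  have hd1 : (1 : ℝ) ≤ d := by exact_mod_cast hd
  rcases Nat.lt_or_ge 4 d with h4 | h4
  · have hd5 : (5 : ℝ) ≤ d := by exact_mod_cast h4
    rw [min_eq_right (by linarith : (1 : ℝ) ≤ (d : ℝ) / 4)]
    obtain ⟨C, hC, hu⟩ := heat_upper hd
    refine dichotomy (dens μ c S alive true) (dens_nonneg hd hA true) (dens_anti hd hA true)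
      (2 * C) (fun t' t ht => ?_) (dens_not_summable hd hA)
    have h1 := dens_dec hd hA ht.le
    have h2 : (1 : ℝ) ≤ (t : ℝ) - t' := by
      have : (t' : ℝ) + 1 ≤ t := by exact_mod_cast ht
      linarith
    have h3 := hu (2 * ((t : ℝ) - t')) (by linarith)
    have h4' : (2 * ((t : ℝ) - t')) ^ (-((d : ℝ) / 2)) ≤ ((t : ℝ) - t') ^ (-(5 / 2 : ℝ)) := by
      have h5 : (2 * ((t : ℝ) - t')) ^ (-((d : ℝ) / 2)) ≤ ((t : ℝ) - t') ^ (-((d : ℝ) / 2)) :=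
        Real.rpow_le_rpow_of_nonpos (by linarith) (by linarith) (by linarith)
      exact h5.trans (Real.rpow_le_rpow_of_exponent_le h2 (by linarith))
    have h6 := mul_le_mul_of_nonneg_left h4' hC.le
    have h7 := sq_nonneg (dens μ c S alive true t')
    linarith
  · have hd4 : (d : ℝ) ≤ 4 := by exact_mod_cast h4
    rw [min_eq_left (by linarith : (d : ℝ) / 4 ≤ 1)]
    obtain ⟨a, ha, hl⟩ := heat_lower hd
    refine ⟨1 / 4 * Real.sqrt (a * 4 ^ (-((d : ℝ) / 2))), by positivity, ?_⟩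
    refine Filter.Eventually.frequently ?_
    filter_upwards [eventually_ge_atTop 1] with t ht
    have ht1 : (1 : ℝ) ≤ t := by exact_mod_cast ht
    have ht0 : (0 : ℝ) < t := by linarith
    refine le_trans ?_ (dens_lower hd hA t)
    rw [mul_assoc]
    refine mul_le_mul_of_nonneg_left ?_ (by norm_num)
    have h1 := hl (4 * (t : ℝ)) (by linarith)
    have h2 : Real.sqrt (a * 4 ^ (-((d : ℝ) / 2))) * (t : ℝ) ^ (-((d : ℝ) / 4)) =
        Real.sqrt (a * (4 * (t : ℝ)) ^ (-((d : ℝ) / 2))) := by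
      have h3 : Real.sqrt ((t : ℝ) ^ (-((d : ℝ) / 2))) = (t : ℝ) ^ (-((d : ℝ) / 4)) := by
        rw [Real.sqrt_eq_rpow, ← Real.rpow_mul ht0.le]
        congr 1
        ring
      rw [Real.mul_rpow (by norm_num) ht0.le, ← mul_assoc,
        Real.sqrt_mul (x := a * 4 ^ (-((d : ℝ) / 2))) (by positivity), h3]
    rw [h2]
    exact Real.sqrt_le_sqrt h1

end SEL

theorem good_times (hd : 0 < d) (hA : Sys μ (1 / 2) c S alive) :
    ∃ K : ℝ, 0 < K ∧ ∃ᶠ t : ℕ in atTop,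
      0 < dens μ c S alive true t ∧
      dens μ c S alive true (t / 4) ≤ K * dens μ c S alive true t ∧
      (∑ k ∈ Finset.range (t + 1), heat d (k : ℝ) 0) ≤ K * t * dens μ c S alive true t ∧
      (∀ s : ℝ, (t : ℝ) / 8 ≤ s → heat d s 0 ≤ K * dens μ c S alive true t ^ 2) ∧
      (∀ s : ℝ, (t : ℝ) / 8 ≤ s →
        heat d s 0 ≤ K * (t : ℝ) ^ (-(1 / 4 : ℝ)) * dens μ c S alive true t) := by
  have hd1 : (1 : ℝ) ≤ d := by exact_mod_cast hd
  obtain ⟨a, ha, hfr⟩ := SEL.freq hd hA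
  obtain ⟨C₁, hC₁, hg⟩ := SEL.green hd
  obtain ⟨C₂, hC₂, hl⟩ := SEL.late hd
  have hα : 0 < min ((d : ℝ) / 4) 1 := lt_min (by linarith) one_pos
  obtain ⟨K₀, hK₀, hsel⟩ := select (dens μ c S alive true) (dens_nonneg hd hA true)
    (dens_anti hd hA true) _ a hα ha hfr
  obtain ⟨α, hα'⟩ : ∃ α : ℝ, α = min ((d : ℝ) / 4) 1 := ⟨_, rfl⟩
  rw [← hα'] at hα hsel hg hl
  refine ⟨K₀ + C₁ / a + C₂ / a ^ 2 + C₂ / a, by positivity, ?_⟩
  refine (hsel.and_eventually (eventually_ge_atTop 1)).mono ?_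
  rintro t ⟨⟨h1, h2⟩, ht⟩
  have ht1 : (1 : ℝ) ≤ t := by exact_mod_cast ht
  have ht0 : (0 : ℝ) < t := by linarith
  obtain ⟨ρ, hρ⟩ : ∃ ρ : ℝ, ρ = dens μ c S alive true t := ⟨_, rfl⟩
  rw [← hρ] at h1 h2 ⊢
  obtain ⟨w, hw⟩ : ∃ w : ℝ, w = (t : ℝ) ^ (-α) := ⟨_, rfl⟩
  have hw0 : 0 < w := by rw [hw]; positivity
  rw [← hw] at h1
  have hρ0 : 0 < ρ := lt_of_lt_of_le (by positivity) h1
  have hw1 : w ≤ ρ / a := by
    rw [le_div_iff₀ ha]
    linarith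
  have p1 : 0 < C₁ / a := by positivity
  have p2 : 0 < C₂ / a ^ 2 := by positivity
  have p3 : 0 < C₂ / a := by positivity
  refine ⟨hρ0, ?_, ?_, fun s hs => ?_, fun s hs => ?_⟩
  · refine h2.trans (mul_le_mul_of_nonneg_right ?_ hρ0.le)
    linarith
  · have h3 := hg t ht
    have h4 : (t : ℝ) ^ (1 - α) = t * w := by
      rw [hw, show (1 - α) = -α + 1 by ring, Real.rpow_add_one ht0.ne', mul_comm]
    rw [h4] at h3
    refine h3.trans ?_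
    have h5 : C₁ * ((t : ℝ) * w) ≤ C₁ / a * t * ρ := by
      have := mul_le_mul_of_nonneg_left hw1 (by positivity : 0 ≤ C₁ * (t : ℝ))
      calc C₁ * ((t : ℝ) * w) = C₁ * t * w := by ring
        _ ≤ C₁ * t * (ρ / a) := this
        _ = C₁ / a * t * ρ := by ring
    refine h5.trans ?_
    have h6 : 0 ≤ (t : ℝ) * ρ := by positivity
    have h7 : C₁ / a * ((t : ℝ) * ρ) ≤ (K₀ + C₁ / a + C₂ / a ^ 2 + C₂ / a) * ((t : ℝ) * ρ) :=
      mul_le_mul_of_nonneg_right (by linarith) h6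
    linarith
  · have h3 := (hl t ht s hs).1
    rw [← hw] at h3
    refine h3.trans ?_
    have h4 : w ^ 2 ≤ (ρ / a) ^ 2 := pow_le_pow_left₀ hw0.le hw1 2
    have h5 := mul_le_mul_of_nonneg_left h4 hC₂.le
    have h6 : C₂ * (ρ / a) ^ 2 = C₂ / a ^ 2 * ρ ^ 2 := by
      rw [div_pow]
      ring
    rw [h6] at h5
    refine h5.trans (mul_le_mul_of_nonneg_right ?_ (sq_nonneg _))
    linarith
  · have h3 := (hl t ht s hs).2
    rw [← hw] at h3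
    refine h3.trans ?_
    have h0 : 0 ≤ (t : ℝ) ^ (-(1 / 4 : ℝ)) := by positivity
    have h5 := mul_le_mul_of_nonneg_left hw1 (by positivity : 0 ≤ C₂ * (t : ℝ) ^ (-(1 / 4 : ℝ)))
    refine h5.trans ?_
    have h6 : C₂ * (t : ℝ) ^ (-(1 / 4 : ℝ)) * (ρ / a) =
        C₂ / a * ((t : ℝ) ^ (-(1 / 4 : ℝ)) * ρ) := by ring
    rw [h6, mul_assoc (K₀ + C₁ / a + C₂ / a ^ 2 + C₂ / a)]
    exact mul_le_mul_of_nonneg_right (by linarith) (by positivity)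

end Pool.Agent.T2H99.AW
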