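import Mathlib

set_option autoImplicit false

/-!
# AW, package Z01: a zero-one law (independent of all other files)

Let `m x`, `x ∈ ι`, be independent σ-algebras, and `E` an event that, for every finite set `F` of
indices, agrees a.e. with an event `E_F` of `⨆ x ∉ F, m x`. Then `μ E ∈ {0, 1}`.
Proof: `E` (a.e. equal to `E_F`) is independent of `⨆ x ∈ F, m x` for every finite `F`, hence of
`⨆ x, m x` (π-system of the finite unions), and `E` is a.e. equal to an event of `⨆ x, m x` (`F = ∅`), so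
`μ E = μ E ^ 2`.
-/

namespace Pool.Agent.T2H99.AW

open MeasureTheory ProbabilityTheory Filter

theorem zero_one {Ω ι : Type} [mΩ : MeasurableSpace Ω] (μ : Measure Ω) [IsProbabilityMeasure μ]
    (m : ι → MeasurableSpace Ω) (hm : ∀ i, m i ≤ mΩ) (hind : iIndep m μ) (E : Set Ω)
    (hE : ∀ F : Finset ι, ∃ E' : Set Ω, MeasurableSet[⨆ x : {x : ι // x ∉ F}, m x] E' ∧
      E =ᵐ[μ] E') : μ E = 0 ∨ μ E = 1 := by
  obtain ⟨E0, hE0, hEE0⟩ := hE ∅
  have hle : (⨆ i, m i) ≤ mΩ := iSup_le hm
  have hE0' : MeasurableSet[⨆ i, m i] E0 := by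
    refine (iSup_le fun x => ?_ : (⨆ x : {x : ι // x ∉ (∅ : Finset ι)}, m x) ≤ ⨆ i, m i) _ hE0
    exact le_iSup m (x : ι)
  have hE0m : MeasurableSet[mΩ] E0 := hle _ hE0'
  rw [measure_congr hEE0]
  -- the directed family
  let M : Finset ι → MeasurableSpace Ω := fun F => ⨆ i ∈ (F : Set ι), m i
  have hMle : ∀ F, M F ≤ mΩ := fun F => iSup₂_le fun i _ => hm i
  have hdir : Directed (· ≤ ·) M := by
    intro F G
    classical
    refine ⟨F ∪ G, ?_, ?_⟩
    · exact iSup₂_le fun i hi => le_iSup₂_of_le i (by simp at hi ⊢; exact Or.inl hi) le_rfl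
    · exact iSup₂_le fun i hi => le_iSup₂_of_le i (by simp at hi ⊢; exact Or.inr hi) le_rfl
  have hsup : (⨆ F, M F) = ⨆ i, m i := by
    apply le_antisymm
    · exact iSup_le fun F => iSup₂_le fun i _ => le_iSup m i
    · refine iSup_le fun i => ?_
      refine le_trans ?_ (le_iSup M {i})
      exact le_iSup₂_of_le i (by simp) le_rfl
  have hindF : ∀ F, Indep (M F) (MeasurableSpace.generateFrom {E0}) μ := by
    intro F
    have h1 : M F = MeasurableSpace.generateFrom {s | MeasurableSet[M F] s} :=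
      (@MeasurableSpace.generateFrom_measurableSet Ω (M F)).symm
    rw [h1]
    refine IndepSets.indep' (fun s hs => hMle F _ hs) (fun s hs => ?_)
      (@MeasurableSpace.isPiSystem_measurableSet Ω (M F)) (IsPiSystem.singleton E0) ?_
    · rw [Set.mem_singleton_iff.1 hs]; exact hE0m
    · rw [IndepSets_iff]
      intro s t hs ht
      rw [Set.mem_singleton_iff.1 ht]
      obtain ⟨EF, hEF, hEEF⟩ := hE F
      have hdisj : Disjoint (F : Set ι) {x | x ∉ F} := by
        rw [Set.disjoint_left]
        intro x hx hx'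
        exact hx' hx
      have hI := indep_iSup_of_disjoint hm hind hdisj
      rw [Indep_iff] at hI
      have hEF' : MeasurableSet[⨆ i ∈ {x | x ∉ F}, m i] EF := by
        refine (iSup_le fun x => ?_ :
          (⨆ x : {x : ι // x ∉ F}, m x) ≤ ⨆ i ∈ {x | x ∉ F}, m i) _ hEF
        exact le_iSup₂_of_le (x : ι) x.2 le_rfl
      have h2 := hI s EF hs hEF'
      have h3 : E0 =ᵐ[μ] EF := hEE0.symm.trans hEEF
      rw [measure_congr ((ae_eq_refl s).inter h3), h2, measure_congr h3]
  have hI := indep_iSup_of_directed_le hindF hMle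
    (MeasurableSpace.generateFrom_le fun t ht => by
      rw [Set.mem_singleton_iff.1 ht]; exact hE0m) hdir
  rw [hsup, Indep_iff] at hI
  have h4 := hI E0 E0 hE0' (MeasurableSpace.measurableSet_generateFrom (Set.mem_singleton E0))
  rw [Set.inter_self] at h4
  have hfin : μ E0 ≠ ⊤ := measure_ne_top μ E0
  by_cases h0 : μ E0 = 0
  · exact Or.inl h0
  · right
    have h5 : μ E0 * 1 = μ E0 * μ E0 := by rw [mul_one]; exact h4
    exact ((ENNReal.mul_right_inj h0 hfin).1 h5).symm

end Pool.Agent.T2H99.AW
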