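import Pool.Agent.T2H99.AW.PZ
import Pool.Agent.T2H99.AW.SEL
import Pool.Agent.T2H99.AW.Z01

set_option autoImplicit false

/-!
# AW, package FI: both colours visit the origin infinitely often at `p = 1/2`
(uses PZ, IV, SEL, Z01, CD2, HK2, MK)

`p = 1/2`, so `dens false = dens true` (`dens_diff`). Let `t` be a good time (`good_times`), `t ≥ 4`,
`W = Finset.Icc (t/2) t`, `L = ∑_{k ∈ W} ci k b`, `M = ∑_{k ∈ W} dens b k = E L ≥ |W| dens t`.
By `ci_second` with `t' = t/4` (`s - t' ≥ t/8` for `s ∈ W`, `|W| ≤ t`, `|W| ≥ t/2`)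
`E L² ≤ 2 ∑_{s ≤ s'} (..) ≤ 2 (M ∑_{k ≤ t} heat k 0 + |W|² (K² + K) (dens t)²) ≤ 2 (2K + K² + K) M²`,
hence (Paley-Zygmund) `P(L ≥ M/2) ≥ κ > 0` with `κ` independent of `t`.
Choose good times `t_j → ∞` with `t_j^{-1/4} ≤ 2^{-j}`, `Q_j = L_{t_j}/M_{t_j}`. The event
`E = {ω | ∀ ε > 0, ∃ᶠ j, Q_j ≥ 1/2 - ε}` has probability at least `κ` (reverse Fatou). For finite `F`,
the same quantities `Q_j^F` for the sequence `An \ F` satisfy (`ci_sub`, `heat_le_zero`)
`E|Q_j - Q_j^F| ≤ |W| |F| K t_j^{-1/4} dens t_j / M ≤ K |F| 2^{-j}`, so `Q_j - Q_j^F → 0` a.s. and `E`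
agrees a.e. with an event of `⨆ x ∉ F, lab x` (`ci_tail`). By `zero_one`, `P(E) = 1`. On `E`, for infinitely
many `j`, `L_{t_j} > 0`, so some `ci k b > 0` with `k ∈ [t_j/2, t_j]`; with `ci_ev`, `cw (An n) k b (ind 0) > 0`
for all large `n`, which means a particle of colour `b` of the system on `An n` sits at the origin.
-/

namespace Pool.Agent.T2H99.AW

open Finset Filter Topology MeasureTheory ProbabilityTheory
open scoped NNReal ENNReal BigOperators

variable {d : ℕ} {Ω : Type} [mΩ : MeasurableSpace Ω] {μ : Measure Ω} [IsProbabilityMeasure μ]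
  {p : ℝ} {c : Site d → Ω → Bool} {S : Site d → ℝ≥0 → Ω → Site d}
  {alive : Finset (Site d) → ℝ≥0 → Ω → Finset (Site d)}

namespace FI

/-- the event that infinitely often `q j` is almost `1/2` -/
def EE (q : ℕ → Ω → ℝ) : Set Ω :=
  {ω | ∀ n N : ℕ, ∃ j, N ≤ j ∧ 1 / 2 - 1 / ((n : ℝ) + 1) ≤ q j ω}

omit mΩ in
theorem EE_eq (q : ℕ → Ω → ℝ) : EE q = ⋂ n : ℕ, ⋂ N : ℕ, ⋃ j : ℕ, ⋃ _ : N ≤ j,
    {ω | 1 / 2 - 1 / ((n : ℝ) + 1) ≤ q j ω} := by
  ext ω
  simp only [EE, Set.mem_iInter, Set.mem_iUnion, Set.mem_ofPred_eq, exists_prop]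

omit mΩ in
theorem EE_meas (m : MeasurableSpace Ω) (q : ℕ → Ω → ℝ) (hq : ∀ j, Measurable[m] (q j)) :
    MeasurableSet[m] (EE q) := by
  rw [EE_eq]
  exact MeasurableSet.iInter fun n => MeasurableSet.iInter fun N => MeasurableSet.iUnion fun j =>
    MeasurableSet.iUnion fun _ => @measurableSet_le _ _ _ _ _ m _ _ _ _ _ measurable_const (hq j)

omit mΩ in
theorem EE_sub {q q' : ℕ → Ω → ℝ} {ω : Ω}
    (h : Tendsto (fun j => q j ω - q' j ω) atTop (𝓝 0)) (hω : ω ∈ EE q) : ω ∈ EE q' := by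
  intro n N
  have hδ : 0 < 1 / ((n : ℝ) + 1) - 1 / (((n + 1 : ℕ) : ℝ) + 1) := by
    rw [sub_pos]
    push_cast
    exact one_div_lt_one_div_of_lt (by positivity) (by linarith)
  obtain ⟨N1, hN1⟩ := (Metric.tendsto_atTop.1 h) _ hδ
  obtain ⟨j, hj, hqj⟩ := hω (n + 1) (max N N1)
  refine ⟨j, (le_max_left _ _).trans hj, ?_⟩
  have h1 := hN1 j ((le_max_right _ _).trans hj)
  rw [Real.dist_eq, sub_zero] at h1
  have h2 := (abs_lt.1 h1).2
  linarith

theorem EE_congr {q q' : ℕ → Ω → ℝ}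
    (h : ∀ᵐ ω ∂μ, Tendsto (fun j => q j ω - q' j ω) atTop (𝓝 0)) : EE q =ᵐ[μ] EE q' := by
  rw [Filter.eventuallyEq_set]
  filter_upwards [h] with ω hω
  refine ⟨EE_sub hω, EE_sub ?_⟩
  have h1 := hω.neg
  rw [neg_zero] at h1
  refine h1.congr fun j => ?_
  ring

theorem EE_pos {q : ℕ → Ω → ℝ} (hq : ∀ j, AEMeasurable (q j) μ) {κ : ℝ}
    (hκ : ∀ j, κ ≤ μ.real {ω | 1 / 2 ≤ q j ω}) : ENNReal.ofReal κ ≤ μ (EE q) := by
  set B : ℕ → Set Ω := fun N => ⋃ j : ℕ, ⋃ _ : N ≤ j, {ω | 1 / 2 ≤ q j ω} with hB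
  have hBm : ∀ N, NullMeasurableSet (B N) μ := fun N =>
    NullMeasurableSet.iUnion fun j => NullMeasurableSet.iUnion fun _ =>
      nullMeasurableSet_le aemeasurable_const (hq j)
  have hBa : Antitone B := by
    intro N N' hNN
    simp only [hB]
    exact Set.iUnion_mono fun j => Set.iUnion_subset fun h =>
      Set.subset_iUnion_of_subset (hNN.trans h) subset_rfl
  have hlim := tendsto_measure_iInter_atTop hBm hBa ⟨0, measure_ne_top μ _⟩
  have hle : ∀ N, ENNReal.ofReal κ ≤ μ (B N) := by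
    intro N
    have h1 : {ω | 1 / 2 ≤ q N ω} ⊆ B N := by
      simp only [hB]
      exact Set.subset_iUnion_of_subset N (Set.subset_iUnion_of_subset le_rfl subset_rfl)
    refine le_trans ?_ (measure_mono h1)
    rw [← ofReal_measureReal]
    exact ENNReal.ofReal_le_ofReal (hκ N)
  have h2 : ENNReal.ofReal κ ≤ μ (⋂ N, B N) :=
    ge_of_tendsto hlim (Eventually.of_forall fun N => hle N)
  refine h2.trans (measure_mono ?_)
  intro ω hω n N
  have h3 := Set.mem_iInter.1 hω N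
  simp only [hB, Set.mem_iUnion, exists_prop] at h3
  obtain ⟨j, hj, h4⟩ := h3
  refine ⟨j, hj, le_trans ?_ h4⟩
  have : 0 ≤ 1 / ((n : ℝ) + 1) := by positivity
  linarith

theorem ae_zero (X : ℕ → Ω → ℝ) (hX : ∀ j, Integrable (X j) μ) (C : ℝ)
    (h : ∀ j, ∫ ω, |X j ω| ∂μ ≤ C * (1 / 2) ^ j) :
    ∀ᵐ ω ∂μ, Tendsto (fun j => X j ω) atTop (𝓝 0) := by
  have h1 : ∀ j, ∫⁻ ω, ‖X j ω‖ₑ ∂μ ≤ ENNReal.ofReal (C * (1 / 2) ^ j) := by
    intro j
    rw [← ofReal_integral_norm_eq_lintegral_enorm (hX j)]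
    exact ENNReal.ofReal_le_ofReal (h j)
  have hC : ∀ j, 0 ≤ C * (1 / 2 : ℝ) ^ j := fun j =>
    (integral_nonneg fun ω => abs_nonneg _).trans (h j)
  have h2 : ∑' j, ∫⁻ ω, ‖X j ω‖ₑ ∂μ ≠ ⊤ := by
    have hs : Summable (fun j : ℕ => C * (1 / 2 : ℝ) ^ j) :=
      (summable_geometric_of_lt_one (by norm_num) (by norm_num)).mul_left C
    have h3 := ENNReal.tsum_le_tsum h1
    rw [← ENNReal.ofReal_tsum_of_nonneg hC hs] at h3
    exact ne_top_of_le_ne_top ENNReal.ofReal_ne_top h3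
  rw [← lintegral_tsum fun j => (hX j).aestronglyMeasurable.enorm] at h2
  have hm : AEMeasurable (fun ω => ∑' j, ‖X j ω‖ₑ) μ :=
    AEMeasurable.ennreal_tsum fun j => (hX j).aestronglyMeasurable.enorm
  filter_upwards [ae_lt_top' hm h2] with ω hω
  have h4 := ENNReal.tendsto_atTop_zero_of_tsum_ne_top hω.ne
  have h5 := (tendsto_zero_iff_enorm_tendsto_zero (f := fun j => X j ω)).2 h4
  exact h5

end FI

open FI in
/-- FI2. -/
theorem part_i (hd : 0 < d) (hA : Sys μ (1 / 2) c S alive) {An : ℕ → Finset (Site d)}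
    (hm : Monotone An) (hex : ∀ x, ∃ n, x ∈ An n) (b : Bool) :
    ∀ᵐ ω ∂μ, ∀ N : ℕ, ∃ k : ℕ, N ≤ k ∧ ∀ᶠ n in atTop, ∃ x ∈ alive (An n) k ω,
      c x ω = b ∧ posn S ω k x = 0 := by
  classical
  obtain ⟨K, hK, hgood⟩ := good_times (d := d) (μ := μ) hd hA
  obtain ⟨κ, hκ, hpz⟩ := pz hd hA hm hex b hK
  -- the sequence of good times
  have hev : ∀ j : ℕ, ∀ᶠ t : ℕ in atTop, 4 ≤ t ∧ 2 * j ≤ t ∧ (t : ℝ) ^ (-(1 / 4 : ℝ)) ≤ (1 / 2) ^ j := by
    intro j
    have h1 : Tendsto (fun t : ℕ => (t : ℝ) ^ (-(1 / 4 : ℝ))) atTop (𝓝 0) :=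
      (tendsto_rpow_neg_atTop (by norm_num)).comp tendsto_natCast_atTop_atTop
    have h2 : ∀ᶠ t : ℕ in atTop, (t : ℝ) ^ (-(1 / 4 : ℝ)) < (1 / 2) ^ j :=
      h1.eventually_lt_const (by positivity)
    filter_upwards [h2, eventually_ge_atTop 4, eventually_ge_atTop (2 * j)] with t a1 a2 a3
    exact ⟨a2, a3, a1.le⟩
  have hsel := fun j => (hgood.and_eventually (hev j)).exists
  choose t ht using hsel
  set D : ℕ → ℝ := dens μ c S alive true with hD
  have hDb : ∀ k, dens μ c S alive b k = D k := by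
    intro k
    cases b with
    | true => rfl
    | false =>
      have h := dens_diff hd (by norm_num) hA k
      rw [hD]
      linarith
  have hDanti : Antitone D := dens_anti hd hA true
  have hDpos : ∀ j, 0 < D (t j) := fun j => (ht j).1.1
  set W : ℕ → Finset ℕ := fun j => Finset.Icc (t j / 2) (t j) with hW
  set M : ℕ → ℝ := fun j => ∑ k ∈ W j, dens μ c S alive b k with hM
  have hWpos : ∀ j, 0 < ((W j).card : ℝ) := by
    intro j
    have : 0 < (W j).card := by
      simp only [hW, Nat.card_Icc]; omega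
    exact_mod_cast this
  have hMle : ∀ j, ((W j).card : ℝ) * D (t j) ≤ M j := by
    intro j
    rw [← nsmul_eq_mul, ← Finset.sum_const]
    refine Finset.sum_le_sum fun k hk => ?_
    rw [hDb]
    exact hDanti (Finset.mem_Icc.1 hk).2
  have hM0 : ∀ j, 0 < M j := fun j => lt_of_lt_of_le (mul_pos (hWpos j) (hDpos j)) (hMle j)
  set Q : ℕ → Ω → ℝ := fun j ω => (∑ k ∈ W j, ci c S alive An k b ω) / M j with hQ
  have hQint : ∀ j, Integrable (Q j) μ := fun j =>
    (integrable_finsetSum _ fun k _ => ci_integrable hd hA hm k b).div_const _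
  -- positive probability
  have hpos : ENNReal.ofReal κ ≤ μ (EE Q) := by
    refine EE_pos (fun j => (hQint j).aemeasurable) fun j => ?_
    have h1 := hpz (t j) (ht j).2.1 (ht j).1.1 (ht j).1.2.1 (ht j).1.2.2.1 (ht j).1.2.2.2.1
    refine h1.trans (le_of_eq ?_)
    congr 1
    ext ω
    simp only [Set.mem_ofPred_eq, hQ]
    rw [le_div_iff₀ (hM0 j)]
    have : 1 / 2 * M j = M j / 2 := by ring
    rw [this]
  -- tail
  have htail : ∀ F : Finset (Site d), ∃ E' : Set Ω,
      MeasurableSet[⨆ x : {x : Site d // x ∉ F}, lab c S x] E' ∧ EE Q =ᵐ[μ] E' := by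
    intro F
    choose u hu huc using fun k => ci_tail (μ := μ) hd hA hm F k b
    set q : ℕ → Ω → ℝ := fun j ω => (∑ k ∈ W j, u k ω) / M j with hq
    refine ⟨EE q, EE_meas _ q fun j => ?_, ?_⟩
    · simp only [hq]
      exact (Finset.measurable_fun_sum _ fun k _ => hu k).div_const _
    · set An' : ℕ → Finset (Site d) := fun n => An n \ F with hAn'
      have hm' : Monotone An' := fun a a' h => Finset.sdiff_subset_sdiff (hm h) subset_rfl
      set X : ℕ → Ω → ℝ := fun j ω =>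
        (∑ k ∈ W j, (ci c S alive An k b ω - ci c S alive An' k b ω)) / M j with hX
      have hXint : ∀ j, Integrable (X j) μ := fun j =>
        (integrable_finsetSum _ fun k _ =>
          (ci_integrable hd hA hm k b).sub (ci_integrable hd hA hm' k b)).div_const _
      have hXb : ∀ j, ∫ ω, |X j ω| ∂μ ≤ (F.card * K) * (1 / 2) ^ j := by
        intro j
        have hkb : ∀ k ∈ W j, ∫ ω, |ci c S alive An k b ω - ci c S alive An' k b ω| ∂μ ≤
            F.card * (K * (t j : ℝ) ^ (-(1 / 4 : ℝ)) * D (t j)) := by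
          intro k hk
          refine (ci_sub hd hA hm F k b).trans ?_
          rw [← nsmul_eq_mul, ← Finset.sum_const]
          refine Finset.sum_le_sum fun y _ => ?_
          refine (heat_le_zero hd (Nat.cast_nonneg k) _).trans ?_
          refine (ht j).1.2.2.2.2 _ ?_
          have h1 : t j / 2 ≤ k := (Finset.mem_Icc.1 hk).1
          have h2 : t j ≤ 2 * k + 1 := by omega
          have h2' : (t j : ℝ) ≤ 2 * k + 1 := by exact_mod_cast h2
          have h3 : (4 : ℝ) ≤ t j := by exact_mod_cast (ht j).2.1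
          linarith
        have hint1 : ∀ k ∈ W j, Integrable
            (fun ω => |ci c S alive An k b ω - ci c S alive An' k b ω|) μ := fun k _ =>
          ((ci_integrable hd hA hm k b).sub (ci_integrable hd hA hm' k b)).abs
        calc ∫ ω, |X j ω| ∂μ
            ≤ ∫ ω, (∑ k ∈ W j, |ci c S alive An k b ω - ci c S alive An' k b ω|) / M j ∂μ := by
              refine integral_mono (hXint j).abs ((integrable_finsetSum _ hint1).div_const _) ?_
              intro ω
              simp only [hX]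
              rw [abs_div, abs_of_pos (hM0 j)]
              exact div_le_div_of_nonneg_right (Finset.abs_sum_le_sum_abs _ _) (hM0 j).le
          _ = (∑ k ∈ W j, ∫ ω, |ci c S alive An k b ω - ci c S alive An' k b ω| ∂μ) / M j := by
              rw [integral_div, integral_finsetSum _ hint1]
          _ ≤ (∑ _k ∈ W j, F.card * (K * (t j : ℝ) ^ (-(1 / 4 : ℝ)) * D (t j))) / M j :=
              div_le_div_of_nonneg_right (Finset.sum_le_sum hkb) (hM0 j).le
          _ = (F.card * K) * (t j : ℝ) ^ (-(1 / 4 : ℝ)) * (((W j).card * D (t j)) / M j) := by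
              rw [Finset.sum_const, nsmul_eq_mul]; ring
          _ ≤ (F.card * K) * (t j : ℝ) ^ (-(1 / 4 : ℝ)) * 1 := by
              refine mul_le_mul_of_nonneg_left ?_ (by positivity)
              exact (div_le_one (hM0 j)).2 (hMle j)
          _ ≤ (F.card * K) * (1 / 2) ^ j := by
              rw [mul_one]
              exact mul_le_mul_of_nonneg_left (ht j).2.2.2 (by positivity)
      have h0 := ae_zero X hXint _ hXb
      refine EE_congr ?_
      have hall : ∀ᵐ ω ∂μ, ∀ k, ci c S alive An' k b ω = u k ω := ae_all_iff.2 fun k => huc k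
      filter_upwards [h0, hall] with ω h1 h2
      refine h1.congr fun j => ?_
      simp only [hX, hQ, hq]
      rw [Finset.sum_sub_distrib, sub_div, Finset.sum_congr rfl fun k _ => h2 k]
  -- zero-one law
  have h01 := zero_one μ (fun x => lab c S x) (lab_le hA.setup) (lab_iIndep hA.setup) (EE Q) htail
  have hone : μ (EE Q) = 1 := by
    rcases h01 with h | h
    · rw [h] at hpos
      exact absurd hpos (not_le.2 (ENNReal.ofReal_pos.2 hκ))
    · exact h
  have hEEm : NullMeasurableSet (EE Q) μ := by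
    obtain ⟨E', hE', hEE'⟩ := htail ∅
    have hle : (⨆ x : {x : Site d // x ∉ (∅ : Finset (Site d))}, lab c S x) ≤ mΩ :=
      iSup_le fun x => lab_le hA.setup x
    exact (hle _ hE').nullMeasurableSet.congr hEE'.symm
  have hae : ∀ᵐ ω ∂μ, ω ∈ EE Q := by
    rw [ae_iff]
    have : {ω | ω ∉ EE Q} = (EE Q)ᶜ := rfl
    rw [this, prob_compl_eq_zero_iff₀ hEEm]
    exact hone
  have hciev : ∀ᵐ ω ∂μ, ∀ k, ∀ᶠ n in atTop,
      cw c S alive (An n) k b (ind 0) ω = ci c S alive An k b ω :=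
    ae_all_iff.2 fun k => ci_ev hd hA hm k b
  filter_upwards [hae, hciev] with ω h1 h2 N
  obtain ⟨j, hj, hqj⟩ := h1 2 N
  have hQpos : 0 < Q j ω := by
    norm_num at hqj
    linarith
  have hLpos : 0 < ∑ k ∈ W j, ci c S alive An k b ω := by
    have h3 : 0 < (∑ k ∈ W j, ci c S alive An k b ω) / M j := hQpos
    exact (div_pos_iff_of_pos_right (hM0 j)).1 h3
  obtain ⟨k, hk, hkpos⟩ : ∃ k ∈ W j, 0 < ci c S alive An k b ω := by
    by_contra hcon
    push Not at hcon
    exact absurd hLpos (not_lt.2 (Finset.sum_nonpos hcon))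
  refine ⟨k, ?_, ?_⟩
  · have h3 : t j / 2 ≤ k := (Finset.mem_Icc.1 hk).1
    have h4 : 2 * j ≤ t j := (ht j).2.2.1
    omega
  · filter_upwards [h2 k] with n hn
    rw [← hn] at hkpos
    unfold cw wt at hkpos
    obtain ⟨x, hx, hxpos⟩ : ∃ x ∈ (alive (An n) k ω).filter (fun x => c x ω = b),
        0 < ind 0 (posn S ω k x) := by
      by_contra hcon
      push Not at hcon
      exact absurd hkpos (not_lt.2 (Finset.sum_nonpos hcon))
    rw [Finset.mem_filter] at hx
    refine ⟨x, hx.1, hx.2, ?_⟩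
    unfold ind at hxpos
    by_contra hne
    rw [if_neg hne] at hxpos
    exact lt_irrefl _ hxpos

end Pool.Agent.T2H99.AW
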