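import Pool.Agent.T2H99.AW.FI
import Pool.Agent.T2H99.AW.U7
import Pool.Agent.T2H99.AW.CO2

set_option autoImplicit false

/-!
# AW: final assembly (draft of the results file)
-/

namespace Pool.Agent.T2H99.AW

open Finset Filter Topology MeasureTheory ProbabilityTheory
open scoped NNReal ENNReal BigOperators

/-- In the infinite system (the limit of the systems on the finite label sets `An n`) the origin is
visited infinitely many times by particles of colour `b`. -/
def VisitedIO {d : ℕ} {Ω : Type} (c : Site d → Ω → Bool) (S : Site d → ℝ≥0 → Ω → Site d)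
    (alive : Finset (Site d) → ℝ≥0 → Ω → Finset (Site d)) (An : ℕ → Finset (Site d))
    (b : Bool) (ω : Ω) : Prop :=
  ∀ T : ℝ≥0, ∃ t : ℝ≥0, T ≤ t ∧ ∀ᶠ n in atTop, ∃ x ∈ alive (An n) t ω, c x ω = b ∧ posn S ω t x = 0

theorem result (d : ℕ) (hd : 0 < d) (p : ℝ) (hp : 1 / 2 ≤ p) (hp1 : p < 1)
    {Ω : Type} [MeasurableSpace Ω] (μ : Measure Ω) [IsProbabilityMeasure μ]
    (c : Site d → Ω → Bool) (S : Site d → ℝ≥0 → Ω → Site d)
    (alive : Finset (Site d) → ℝ≥0 → Ω → Finset (Site d)) (hS : Sys μ p c S alive)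
    (An : ℕ → Finset (Site d)) (hmono : Monotone An) (hex : ∀ x, ∃ n, x ∈ An n) :
    (∀ᵐ ω ∂μ, ∀ (T : ℕ) (z : Site d), ∀ᶠ n in atTop, ∀ n' : ℕ, n ≤ n' → ∀ t : ℝ≥0, t ≤ T →
      ∀ b : Bool,
      ((alive (An n') t ω).filter (fun x => c x ω = b ∧ posn S ω t x = z)).card =
        ((alive (An n) t ω).filter (fun x => c x ω = b ∧ posn S ω t x = z)).card) ∧
    (p = 1 / 2 → ∀ᵐ ω ∂μ, VisitedIO c S alive An true ω ∧ VisitedIO c S alive An false ω) ∧
    (1 / 2 < p → (∀ᵐ ω ∂μ, ¬ VisitedIO c S alive An false ω) ∧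
      ¬ ∀ᵐ ω ∂μ, VisitedIO c S alive An true ω ∧ VisitedIO c S alive An false ω) := by
  refine ⟨consistent hd hS hmono, ?_, ?_⟩
  · rintro rfl
    have h : ∀ b : Bool, ∀ᵐ ω ∂μ, VisitedIO c S alive An b ω := by
      intro b
      filter_upwards [part_i hd hS hmono hex b] with ω hω T
      obtain ⟨N, hN⟩ := exists_nat_ge T
      obtain ⟨k, hk, h⟩ := hω N
      exact ⟨k, hN.trans (by exact_mod_cast hk), h⟩
    filter_upwards [h true, h false] with ω h1 h2 using ⟨h1, h2⟩
  · intro hp2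
    have h : ∀ᵐ ω ∂μ, ¬ VisitedIO c S alive An false ω := by
      filter_upwards [part_ii hd hp2 hp1 hS hmono hex] with ω hω hv
      obtain ⟨T, hT⟩ := hω
      obtain ⟨t, ht, h⟩ := hv T
      exact hT t ht h
    refine ⟨h, fun h' => ?_⟩
    have h3 : ∀ᵐ ω ∂μ, False := by
      filter_upwards [h, h'] with ω h1 h2 using h1 h2.2
    have := h3.exists
    exact this.elim fun _ hF => hF

end Pool.Agent.T2H99.AW
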