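import Pool.Agent.T2H99.AW.Defs

set_option autoImplicit false

/-!
# AW, package K2: the discrepancy of one annihilation step

Adding one particle `ℓ` to `X` changes the result of the annihilation by exactly one particle `ℓ'`
sitting at the same site.

Proof. Only the site `z = pos ℓ` matters. Let `R ∌ ℓ` be the particles of `X` at `z` of the colour
of `ℓ`, `B` those of the other colour; `kill` removes the `k = min(|R|, |B|)` smallest labels of
each. If `|R| ≥ |B|`: with `ℓ` still `k = |B|` are removed of each colour, all of `B` disappears, and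
the survivors of `R ∪ {ℓ}` are the survivors of `R` plus one particle: `ℓ' = ℓ` if at least `|B|`
labels of `R` are below `ℓ`, otherwise `ℓ'` is the `|B|`-th smallest label of `R`.
If `|R| < |B|`: all of `R ∪ {ℓ}` dies, and one more particle `ℓ'` of `B` dies (the one of rank
`|R| + 1`). Recall: `x` survives iff `#{opposite colour at the site} < #{y of own colour at the site,
y ≤ x}`.
-/

namespace Pool.Agent.T2H99.AW

open Finset

variable {d : ℕ}

/-- The number of labels of `S` that are at most `x`. -/
private noncomputable def rk (S : Finset (Site d)) (x : Site d) : ℕ :=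
  (S.filter fun y => toLex y ≤ toLex x).card

private theorem rk_lt {S : Finset (Site d)} {x y : Site d} (hy : y ∈ S)
    (h : toLex x < toLex y) : rk S x < rk S y := by
  unfold rk
  apply Finset.card_lt_card
  rw [Finset.ssubset_iff_of_subset]
  · refine ⟨y, ?_, ?_⟩
    · simp [hy]
    · simp only [Finset.mem_filter, not_and, not_le]
      exact fun _ => h
  · intro u hu
    simp only [Finset.mem_filter] at hu ⊢
    exact ⟨hu.1, hu.2.trans h.le⟩

private theorem rk_inj {S : Finset (Site d)} {x y : Site d} (hx : x ∈ S) (hy : y ∈ S)
    (h : rk S x = rk S y) : x = y := by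
  by_contra hne
  have hne' : toLex x ≠ toLex y := fun h' => hne (toLex.injective h')
  rcases lt_or_gt_of_ne hne' with hlt | hlt
  · exact absurd h (rk_lt hy hlt).ne
  · exact absurd h (rk_lt hx hlt).ne'

private theorem rk_le (S : Finset (Site d)) (x : Site d) : rk S x ≤ S.card :=
  Finset.card_filter_le _ _

private theorem rk_pos {S : Finset (Site d)} {x : Site d} (hx : x ∈ S) : 1 ≤ rk S x := by
  unfold rk
  exact Finset.card_pos.2 ⟨x, by simp [hx]⟩

private theorem rk_surj (S : Finset (Site d)) {k : ℕ} (h1 : 1 ≤ k) (h2 : k ≤ S.card) :
    ∃ e ∈ S, rk S e = k := by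
  have himg : S.image (rk S) = Finset.Icc 1 S.card := by
    apply Finset.eq_of_subset_of_card_le
    · intro j hj
      obtain ⟨x, hx, rfl⟩ := Finset.mem_image.1 hj
      exact Finset.mem_Icc.2 ⟨rk_pos hx, rk_le S x⟩
    · rw [Finset.card_image_of_injOn (fun x hx y hy h => rk_inj hx hy h), Nat.card_Icc]
      omega
  have hk : k ∈ S.image (rk S) := by
    rw [himg]
    exact Finset.mem_Icc.2 ⟨h1, h2⟩
  obtain ⟨e, he, hek⟩ := Finset.mem_image.1 hk
  exact ⟨e, he, hek⟩

private theorem rk_insert {S : Finset (Site d)} {ℓ : Site d} (hℓ : ℓ ∉ S) (x : Site d) :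
    rk (insert ℓ S) x = rk S x + if toLex ℓ ≤ toLex x then 1 else 0 := by
  unfold rk
  rw [Finset.filter_insert]
  split_ifs with h
  · rw [Finset.card_insert_of_notMem]
    intro h'
    exact hℓ (Finset.mem_filter.1 h').1
  · rfl

private theorem mem_kill_iff {c : Site d → Bool} {pos : Site d → Site d} {Y : Finset (Site d)}
    {x : Site d} :
    x ∈ kill c pos Y ↔ x ∈ Y ∧
      (Y.filter fun y => pos y = pos x ∧ c y ≠ c x).card <
        rk (Y.filter fun y => pos y = pos x ∧ c y = c x) x := by
  unfold kill rk
  rw [Finset.mem_filter, Finset.filter_filter]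
  simp only [and_assoc]

theorem kill_insert {c : Site d → Bool} {pos : Site d → Site d} {X : Finset (Site d)} {ℓ : Site d}
    (hℓ : ℓ ∉ X) :
    ∃ ℓ', pos ℓ' = pos ℓ ∧
      ((c ℓ' = c ℓ ∧ ℓ' ∉ kill c pos X ∧ kill c pos (insert ℓ X) = insert ℓ' (kill c pos X)) ∨
       (c ℓ' ≠ c ℓ ∧ ℓ' ∉ kill c pos (insert ℓ X) ∧
          kill c pos X = insert ℓ' (kill c pos (insert ℓ X)))) := by
  classical
  set R : Finset (Site d) := X.filter fun y => pos y = pos ℓ ∧ c y = c ℓ with hR
  set B : Finset (Site d) := X.filter fun y => pos y = pos ℓ ∧ c y ≠ c ℓ with hB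
  have hℓR : ℓ ∉ R := fun h => hℓ (Finset.mem_filter.1 h).1
  -- away from the site
  have away : ∀ x, pos x ≠ pos ℓ → (x ∈ kill c pos (insert ℓ X) ↔ x ∈ kill c pos X) := by
    intro x hx
    have hxl : x ≠ ℓ := fun h => hx (by rw [h])
    rw [mem_kill_iff, mem_kill_iff, Finset.filter_insert, Finset.filter_insert,
      if_neg (fun h => hx h.1.symm), if_neg (fun h => hx h.1.symm), Finset.mem_insert]
    simp [hxl]
  -- own colour
  have own : ∀ x, pos x = pos ℓ → c x = c ℓ → (x ∈ kill c pos X ↔ x ∈ R ∧ B.card < rk R x) := by
    intro x hx hc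
    rw [mem_kill_iff, hx, hc, hR, Finset.mem_filter]
    simp [hx, hc, hB]
  have own' : ∀ x, pos x = pos ℓ → c x = c ℓ →
      (x ∈ kill c pos (insert ℓ X) ↔ x ∈ insert ℓ R ∧ B.card < rk (insert ℓ R) x) := by
    intro x hx hc
    rw [mem_kill_iff, hx, hc, Finset.filter_insert, Finset.filter_insert,
      if_neg (fun h => h.2 rfl), if_pos ⟨rfl, rfl⟩, ← hR, ← hB, Finset.mem_insert,
      Finset.mem_insert, hR, Finset.mem_filter]
    simp [hx, hc]
  -- other colour
  have hbool : ∀ x y : Site d, c x ≠ c ℓ → (c y = c x ↔ c y ≠ c ℓ) := by
    intro x y h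
    revert h
    cases c x <;> cases c y <;> cases c ℓ <;> simp
  have hbool' : ∀ x y : Site d, c x ≠ c ℓ → (c y ≠ c x ↔ c y = c ℓ) := by
    intro x y h
    revert h
    cases c x <;> cases c y <;> cases c ℓ <;> simp
  have oth : ∀ x, pos x = pos ℓ → c x ≠ c ℓ → (x ∈ kill c pos X ↔ x ∈ B ∧ R.card < rk B x) := by
    intro x hx hc
    have e1 : (X.filter fun y => pos y = pos x ∧ c y ≠ c x) = R := by
      rw [hR]
      apply Finset.filter_congr
      intro y _
      rw [hx, hbool' x y hc]
    have e2 : (X.filter fun y => pos y = pos x ∧ c y = c x) = B := by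
      rw [hB]
      apply Finset.filter_congr
      intro y _
      rw [hx, hbool x y hc]
    rw [mem_kill_iff, e1, e2, hB, Finset.mem_filter]
    simp [hx, hc]
  have oth' : ∀ x, pos x = pos ℓ → c x ≠ c ℓ →
      (x ∈ kill c pos (insert ℓ X) ↔ x ∈ B ∧ R.card + 1 < rk B x) := by
    intro x hx hc
    have hxl : x ≠ ℓ := fun h => hc (by rw [h])
    have e1 : ((insert ℓ X).filter fun y => pos y = pos x ∧ c y ≠ c x) = insert ℓ R := by
      rw [Finset.filter_insert, if_pos ⟨hx.symm, fun h => hc h.symm⟩, hR]
      congr 1
      apply Finset.filter_congr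
      intro y _
      rw [hx, hbool' x y hc]
    have e2 : ((insert ℓ X).filter fun y => pos y = pos x ∧ c y = c x) = B := by
      rw [Finset.filter_insert, if_neg (fun h => hc h.2.symm), hB]
      apply Finset.filter_congr
      intro y _
      rw [hx, hbool x y hc]
    rw [mem_kill_iff, e1, e2, Finset.card_insert_of_notMem hℓR, hB, Finset.mem_filter,
      Finset.mem_insert]
    simp [hx, hc, hxl]
  by_cases hrb : B.card ≤ R.card
  · -- no particle of `B` survives
    have noB : ∀ x, pos x = pos ℓ → c x ≠ c ℓ → x ∉ kill c pos X := by
      intro x hx hc h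
      have := ((oth x hx hc).1 h).2
      have h2 := rk_le B x
      omega
    have noB' : ∀ x, pos x = pos ℓ → c x ≠ c ℓ → x ∉ kill c pos (insert ℓ X) := by
      intro x hx hc h
      have := ((oth' x hx hc).1 h).2
      have h2 := rk_le B x
      omega
    by_cases hs : B.card < rk (insert ℓ R) ℓ
    · -- `ℓ` survives
      refine ⟨ℓ, rfl, Or.inl ⟨rfl, ?_, ?_⟩⟩
      · intro h
        exact hℓR ((own ℓ rfl rfl).1 h).1
      · ext x
        rw [Finset.mem_insert]
        by_cases hx : pos x = pos ℓ
        · by_cases hc : c x = c ℓ
          · rw [own x hx hc, own' x hx hc, Finset.mem_insert]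
            by_cases hxl : x = ℓ
            · subst hxl
              simp [hs]
            · simp only [hxl, false_or]
              refine and_congr_right fun hxR => ?_
              rw [rk_insert hℓR]
              split_ifs with hle
              · have hlt : toLex ℓ < toLex x :=
                  lt_of_le_of_ne hle (fun h => hxl (toLex.injective h).symm)
                have h3 := rk_lt (S := insert ℓ R) (Finset.mem_insert_of_mem hxR) hlt
                rw [rk_insert hℓR x, if_pos hle] at h3
                omega
              · simp
          · have h1 := noB x hx hc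
            have h2 := noB' x hx hc
            have hxl : x ≠ ℓ := fun h => hc (by rw [h])
            simp [h1, h2, hxl]
        · have hxl : x ≠ ℓ := fun h => hx (by rw [h])
          rw [away x hx]
          simp [hxl]
    · -- `ℓ` dies
      push_neg at hs
      have hB1 : 1 ≤ B.card := (rk_pos (S := insert ℓ R) (Finset.mem_insert_self _ _)).trans hs
      obtain ⟨e, heR, hek⟩ := rk_surj R hB1 hrb
      have heX := (Finset.mem_filter.1 heR).2
      have hel : e ≠ ℓ := fun h => hℓR (h ▸ heR)
      refine ⟨e, heX.1, Or.inl ⟨heX.2, ?_, ?_⟩⟩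
      · intro h
        have := ((own e heX.1 heX.2).1 h).2
        omega
      · ext x
        rw [Finset.mem_insert]
        by_cases hx : pos x = pos ℓ
        · by_cases hc : c x = c ℓ
          · rw [own x hx hc, own' x hx hc, Finset.mem_insert]
            by_cases hxl : x = ℓ
            · subst hxl
              simp [hℓR, hel.symm]
              exact hs
            · simp only [hxl, false_or]
              constructor
              · rintro ⟨hxR, h2⟩
                rw [rk_insert hℓR] at h2
                by_cases h3 : B.card < rk R x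
                · exact Or.inr ⟨hxR, h3⟩
                · left
                  split_ifs at h2 with hle
                  · apply rk_inj hxR heR
                    omega
                  · omega
              · rintro (rfl | ⟨hxR, h3⟩)
                · refine ⟨heR, ?_⟩
                  rw [rk_insert hℓR]
                  have hle : toLex ℓ ≤ toLex x := by
                    by_contra hcon
                    push_neg at hcon
                    have h4 := rk_lt (S := insert ℓ R) (Finset.mem_insert_self ℓ R) hcon
                    rw [rk_insert hℓR x] at h4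
                    split_ifs at h4 <;> omega
                  rw [if_pos hle]
                  omega
                · refine ⟨hxR, ?_⟩
                  rw [rk_insert hℓR]
                  omega
          · have h1 := noB x hx hc
            have h2 := noB' x hx hc
            have hxe : x ≠ e := fun h => hc (by rw [h]; exact heX.2)
            simp [h1, h2, hxe]
        · have hxe : x ≠ e := fun h => hx (by rw [h]; exact heX.1)
          rw [away x hx]
          simp [hxe]
  · -- all of `R ∪ {ℓ}` dies
    push_neg at hrb
    have noR : ∀ x, pos x = pos ℓ → c x = c ℓ → x ∉ kill c pos X := by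
      intro x hx hc h
      have := ((own x hx hc).1 h).2
      have h2 := rk_le R x
      omega
    have noR' : ∀ x, pos x = pos ℓ → c x = c ℓ → x ∉ kill c pos (insert ℓ X) := by
      intro x hx hc h
      have := ((own' x hx hc).1 h).2
      have h2 := rk_le (insert ℓ R) x
      rw [Finset.card_insert_of_notMem hℓR] at h2
      omega
    obtain ⟨e, heB, hek⟩ := rk_surj B (k := R.card + 1) (by omega) (by omega)
    have heX := (Finset.mem_filter.1 heB).2
    refine ⟨e, heX.1, Or.inr ⟨heX.2, ?_, ?_⟩⟩
    · intro h
      have := ((oth' e heX.1 heX.2).1 h).2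
      omega
    · ext x
      rw [Finset.mem_insert]
      by_cases hx : pos x = pos ℓ
      · by_cases hc : c x = c ℓ
        · have h1 := noR x hx hc
          have h2 := noR' x hx hc
          have hxe : x ≠ e := fun h => heX.2 (by rw [← h]; exact hc)
          simp [h1, h2, hxe]
        · rw [oth x hx hc, oth' x hx hc]
          constructor
          · rintro ⟨hxB, h2⟩
            by_cases h3 : R.card + 1 < rk B x
            · exact Or.inr ⟨hxB, h3⟩
            · left
              apply rk_inj hxB heB
              omega
          · rintro (rfl | ⟨hxB, h3⟩)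
            · exact ⟨heB, by omega⟩
            · exact ⟨hxB, by omega⟩
      · have hxe : x ≠ e := fun h => hx (by rw [h]; exact heX.1)
        rw [away x hx]
        simp [hxe]

end Pool.Agent.T2H99.AW
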