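import Pool.Agent.T2H99.AW.K
import Pool.Agent.T2H99.AW.K2

set_option autoImplicit false

/-!
# AW, package G: the grid system, deterministic facts (uses K, K2)
-/

namespace Pool.Agent.T2H99.AW

open Finset

variable {d : ℕ}

/-- `X₁` (system with `y`) and `X₀` (system without `y`) differ exactly by the label `ℓ`. -/
def Disc (c : Site d → Bool) (y ℓ : Site d) (X₁ X₀ : Finset (Site d)) : Prop :=
  (c ℓ = c y ∧ ℓ ∉ X₀ ∧ X₁ = insert ℓ X₀) ∨ (c ℓ ≠ c y ∧ ℓ ∉ X₁ ∧ X₀ = insert ℓ X₁)

/-- G1. By induction on `i` with `kill_insert` (applied to `ℓ ∉ X₀` resp. `ℓ ∉ X₁`). -/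
theorem gAlive_disc (c : Site d → Bool) (P : ℕ → Site d → Site d) {A : Finset (Site d)}
    {y : Site d} (hy : y ∉ A) (i : ℕ) :
    ∃ ℓ, Disc c y ℓ (gAlive c P (insert y A) i) (gAlive c P A i) := by
  have hbool : ∀ a b e : Bool, a ≠ b → b ≠ e → a = e := by decide
  induction i with
  | zero => exact ⟨y, Or.inl ⟨rfl, hy, rfl⟩⟩
  | succ i ih =>
    obtain ⟨ℓ, hd⟩ := ih
    change ∃ ℓ, Disc c y ℓ (kill c (P (i + 1)) (gAlive c P (insert y A) i))
      (kill c (P (i + 1)) (gAlive c P A i))
    rcases hd with ⟨h1, h2, h3⟩ | ⟨h1, h2, h3⟩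
    · obtain ⟨ℓ', -, h⟩ := kill_insert (c := c) (pos := P (i + 1)) h2
      rw [h3]
      rcases h with ⟨g1, g2, g3⟩ | ⟨g1, g2, g3⟩
      · exact ⟨ℓ', Or.inl ⟨g1.trans h1, g2, g3⟩⟩
      · exact ⟨ℓ', Or.inr ⟨fun h => g1 (h.trans h1.symm), g2, g3⟩⟩
    · obtain ⟨ℓ', -, h⟩ := kill_insert (c := c) (pos := P (i + 1)) h2
      rw [h3]
      rcases h with ⟨g1, g2, g3⟩ | ⟨g1, g2, g3⟩
      · exact ⟨ℓ', Or.inr ⟨fun h => h1 (g1.symm.trans h), g2, g3⟩⟩
      · exact ⟨ℓ', Or.inl ⟨hbool _ _ _ g1 h1, g2, g3⟩⟩

theorem gAlive_subset (c : Site d → Bool) (P : ℕ → Site d → Site d) (A : Finset (Site d))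
    (i : ℕ) : gAlive c P A i ⊆ A := by
  induction i with
  | zero => exact subset_rfl
  | succ i ih => exact (kill_subset c (P (i + 1)) (gAlive c P A i)).trans ih

theorem gAlive_anti (c : Site d → Bool) (P : ℕ → Site d → Site d) (A : Finset (Site d))
    {i j : ℕ} (h : i ≤ j) : gAlive c P A j ⊆ gAlive c P A i := by
  induction j, h using Nat.le_induction with
  | base => exact subset_rfl
  | succ j _ ih => exact (kill_subset c (P (j + 1)) (gAlive c P A j)).trans ih

/-- G2. With `w = P i ℓ`, the position of the discrepancy. -/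
theorem disc_wt (c : Site d → Bool) (P : ℕ → Site d → Site d) {A : Finset (Site d)}
    {y : Site d} (hy : y ∉ A) (i : ℕ) :
    ∃ w : Site d,
      (∀ φ : Site d → ℝ, sg (c y) * (tot c (P i) (gAlive c P (insert y A) i) φ -
          tot c (P i) (gAlive c P A i) φ) = φ w) ∧
      (∀ (b : Bool) (φ : Site d → ℝ), |wt c (P i) (gAlive c P (insert y A) i) b φ -
          wt c (P i) (gAlive c P A i) b φ| ≤ |φ w|) := by
  obtain ⟨ℓ, hd⟩ := gAlive_disc c P hy i
  generalize gAlive c P (insert y A) i = X₁ at hd ⊢
  generalize gAlive c P A i = X₀ at hd ⊢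
  have hsq : ∀ b : Bool, sg b * sg b = 1 := by
    intro b
    cases b <;> simp [sg]
  have hne : ∀ a b : Bool, a ≠ b → sg a = - sg b := by
    intro a b
    cases a <;> cases b <;> simp [sg]
  have hwt : ∀ (X : Finset (Site d)) (b : Bool) (φ : Site d → ℝ), ℓ ∉ X →
      |wt c (P i) (insert ℓ X) b φ - wt c (P i) X b φ| ≤ |φ (P i ℓ)| := by
    intro X b φ hX
    unfold wt
    rw [Finset.filter_insert]
    split_ifs with h
    · rw [Finset.sum_insert (fun h' => hX (Finset.mem_filter.1 h').1)]
      rw [add_sub_cancel_right]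
    · simp
  refine ⟨P i ℓ, ?_, ?_⟩
  · intro φ
    rcases hd with ⟨h1, h2, rfl⟩ | ⟨h1, h2, rfl⟩
    · unfold tot
      rw [Finset.sum_insert h2, add_sub_cancel_right, h1, ← mul_assoc, hsq, one_mul]
    · unfold tot
      rw [Finset.sum_insert h2, hne _ _ h1]
      have := hsq (c y)
      linear_combination (φ (P i ℓ)) * this
  · intro b φ
    rcases hd with ⟨h1, h2, rfl⟩ | ⟨h1, h2, rfl⟩
    · exact hwt X₀ b φ h2
    · rw [abs_sub_comm]
      exact hwt X₁ b φ h2

/-- G3. Adding a particle helps the particles of its colour and harms the others. -/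
theorem gAlive_mono_same (c : Site d → Bool) (P : ℕ → Site d → Site d) {A : Finset (Site d)}
    {y : Site d} (hy : y ∉ A) (i : ℕ) {x : Site d} (hx : x ∈ gAlive c P A i) (hc : c x = c y) :
    x ∈ gAlive c P (insert y A) i := by
  obtain ⟨ℓ, ⟨_, _, h3⟩ | ⟨h1, _, h3⟩⟩ := gAlive_disc c P hy i
  · rw [h3]
    exact Finset.mem_insert_of_mem hx
  · rw [h3] at hx
    rcases Finset.mem_insert.1 hx with rfl | hx
    · exact absurd hc h1
    · exact hx

theorem gAlive_mono_opp (c : Site d → Bool) (P : ℕ → Site d → Site d) {A : Finset (Site d)}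
    {y : Site d} (hy : y ∉ A) (i : ℕ) {x : Site d} (hx : x ∈ gAlive c P (insert y A) i)
    (hc : c x ≠ c y) : x ∈ gAlive c P A i := by
  obtain ⟨ℓ, ⟨h1, _, h3⟩ | ⟨_, _, h3⟩⟩ := gAlive_disc c P hy i
  · rw [h3] at hx
    rcases Finset.mem_insert.1 hx with rfl | hx
    · exact absurd h1 hc
    · exact hx
  · rw [h3]
    exact Finset.mem_insert_of_mem hx

/-- G4. The result depends only on the colours and positions of the labels in `A`. -/
theorem gAlive_congr {c c' : Site d → Bool} {P P' : ℕ → Site d → Site d} {A : Finset (Site d)}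
    (hc : ∀ x ∈ A, c x = c' x) (i : ℕ) (hP : ∀ j ≤ i, ∀ x ∈ A, P j x = P' j x) :
    gAlive c P A i = gAlive c' P' A i := by
  induction i with
  | zero => rfl
  | succ i ih =>
    change kill c (P (i + 1)) (gAlive c P A i) = kill c' (P' (i + 1)) (gAlive c' P' A i)
    rw [← ih fun j hj => hP j (by omega)]
    exact kill_congr (fun x hx => hc x (gAlive_subset c P A i hx))
      (fun x hx => hP (i + 1) le_rfl x (gAlive_subset c P A i hx))

/-- G5. Recolouring the labels in `F` red decreases the set of alive blue particles (remove the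
elements of `F` one by one from the system with colours `c`, and add them one by one to the system
with colours `c'`; for blue elements of `F` removing helps red and harms blue; for red elements of
`F` nothing is to be done: it is enough to treat the labels of `F` with `c = false`). -/
theorem flip_mono {c c' : Site d → Bool} (P : ℕ → Site d → Site d) {A F : Finset (Site d)}
    (hF : F ⊆ A) (h1 : ∀ x, x ∉ F → c' x = c x) (h2 : ∀ x ∈ F, c' x = true) (i : ℕ) {x : Site d}
    (hx : x ∈ gAlive c' P A i) (hb : c' x = false) : x ∈ gAlive c P A i := by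
  classical
  -- one flip
  have one : ∀ (e : Site d → Bool) (a : Site d), a ∈ A → ∀ x,
      x ∈ gAlive (Function.update e a true) P A i → Function.update e a true x = false →
      x ∈ gAlive e P A i := by
    intro e a ha x hx hb
    by_cases hea : e a = true
    · rwa [← hea, Function.update_eq_self] at hx
    · have hea' : e a = false := by simpa using hea
      have hA : insert a (A.erase a) = A := Finset.insert_erase ha
      have hxa : x ≠ a := by
        rintro rfl
        simp at hb
      rw [← hA] at hx ⊢
      have h3 := gAlive_mono_opp (Function.update e a true) P (Finset.notMem_erase a A) i hx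
        (by rw [hb]; simp)
      have h4 : gAlive (Function.update e a true) P (A.erase a) i = gAlive e P (A.erase a) i := by
        apply gAlive_congr
        · intro u hu
          rw [Function.update_of_ne (Finset.ne_of_mem_erase hu)]
        · intro _ _ _ _
          rfl
      rw [h4] at h3
      refine gAlive_mono_same e P (Finset.notMem_erase a A) i h3 ?_
      rw [hea']
      rwa [Function.update_of_ne hxa] at hb
  -- all flips
  induction F using Finset.induction_on generalizing c with
  | empty =>
    have : c' = c := funext fun u => h1 u (Finset.notMem_empty u)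
    rwa [← this]
  | insert a F ha ih =>
    have h3 := ih (c := Function.update c a true)
      (fun u hu => hF (Finset.mem_insert_of_mem hu))
      (by
        intro u hu
        by_cases hua : u = a
        · subst hua
          rw [h2 u (Finset.mem_insert_self _ _)]
          simp
        · rw [Function.update_of_ne hua]
          apply h1
          simp [hua, hu])
      (fun u hu => h2 u (Finset.mem_insert_of_mem hu))
    refine one c a (hF (Finset.mem_insert_self _ _)) x h3 ?_
    have hxa : x ≠ a := by
      rintro rfl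
      rw [h2 x (Finset.mem_insert_self _ _)] at hb
      exact Bool.noConfusion hb
    have hxF : x ∉ F := by
      intro h
      rw [h2 x (Finset.mem_insert_of_mem h)] at hb
      exact Bool.noConfusion hb
    rw [Function.update_of_ne hxa, ← h1 x (by simp [hxa, hxF])]
    exact hb

/-- G6. If `y` survives, the two systems differ exactly by `y` all the time. -/
theorem surv_eq {c : Site d → Bool} {P : ℕ → Site d → Site d} {A : Finset (Site d)}
    {y : Site d} (hy : y ∉ A) {n : ℕ} (h : y ∈ gAlive c P (insert y A) n) {i : ℕ} (hi : i ≤ n) :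
    gAlive c P (insert y A) i = insert y (gAlive c P A i) := by
  have hy1 : y ∈ gAlive c P (insert y A) i := gAlive_anti c P (insert y A) hi h
  have hy0 : y ∉ gAlive c P A i := fun h' => hy (gAlive_subset c P A i h')
  obtain ⟨ℓ, ⟨_, _, h3⟩ | ⟨_, _, h3⟩⟩ := gAlive_disc c P hy i
  · rw [h3] at hy1
    rcases Finset.mem_insert.1 hy1 with rfl | h'
    · exact h3
    · exact absurd h' hy0
  · exfalso
    apply hy0
    rw [h3]
    exact Finset.mem_insert_of_mem hy1

/-- G7. If `y` survives, it never shares (after a step) a site with a particle of the other colour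
of the system without `y`. -/
theorem surv_sep {c : Site d → Bool} {P : ℕ → Site d → Site d} {A : Finset (Site d)}
    {y : Site d} (hy : y ∉ A) {n : ℕ} (h : y ∈ gAlive c P (insert y A) n) {i : ℕ} (hi0 : 0 < i)
    (hi : i ≤ n) {x : Site d} (hx : x ∈ gAlive c P A i) (hxy : P i x = P i y) : c x = c y := by
  have h1 := surv_eq hy h hi
  have hy1 : y ∈ gAlive c P (insert y A) i := gAlive_anti c P (insert y A) hi h
  have hx1 : x ∈ gAlive c P (insert y A) i := by
    rw [h1]
    exact Finset.mem_insert_of_mem hx
  obtain ⟨j, rfl⟩ : ∃ j, i = j + 1 := ⟨i - 1, by omega⟩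
  exact kill_sep (c := c) (pos := P (j + 1)) (X := gAlive c P (insert y A) j) hx1 hy1 hxy

/-- G8. If `y` dies, it is hit, from a different site, by a particle of the other colour of the
system without `y`. (Up to the first death time the systems differ by `y`; alive particles of
opposite colours are at different sites: at step `0` by injectivity, later by `kill_sep`.) -/
theorem death_hit {c : Site d → Bool} {P : ℕ → Site d → Site d} {A : Finset (Site d)}
    {y : Site d} (hy : y ∉ A) (h0 : ∀ x ∈ A, P 0 x ≠ P 0 y) {n : ℕ}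
    (h : y ∉ gAlive c P (insert y A) n) :
    ∃ i < n, ∃ b ∈ gAlive c P A i, c b ≠ c y ∧ P (i + 1) b = P (i + 1) y ∧ P i b ≠ P i y := by
  classical
  have hex : ∃ m, y ∉ gAlive c P (insert y A) m := ⟨n, h⟩
  have hm := Nat.find_spec hex
  have hmin : ∀ k, k < Nat.find hex → y ∈ gAlive c P (insert y A) k := fun k hk => by
    have := Nat.find_min hex hk
    simpa using this
  have hmn : Nat.find hex ≤ n := Nat.find_min' hex h
  generalize Nat.find hex = m at hm hmin hmn
  cases m with
  | zero => exact absurd (Finset.mem_insert_self y A) hm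
  | succ i =>
    have hyi : y ∈ gAlive c P (insert y A) i := hmin i (Nat.lt_succ_self i)
    have hX := surv_eq hy hyi le_rfl
    obtain ⟨b, hb, hcb, hpb⟩ := kill_partner (c := c) (pos := P (i + 1)) hyi hm
    have hby : b ≠ y := fun h' => hcb (by rw [h'])
    rw [hX] at hb
    have hb0 : b ∈ gAlive c P A i := by
      rcases Finset.mem_insert.1 hb with h' | h'
      · exact absurd h' hby
      · exact h'
    refine ⟨i, by omega, b, hb0, hcb, hpb, ?_⟩
    intro hp
    cases i with
    | zero => exact h0 b (gAlive_subset c P A 0 hb0) hp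
    | succ i => exact hcb (surv_sep hy hyi (Nat.succ_pos i) le_rfl hb0 hp)

/-- G9. Translation covariance. -/
theorem gAlive_shift {c c' : Site d → Bool} {P P' : ℕ → Site d → Site d} {A : Finset (Site d)}
    (v : Site d) (hc : ∀ x ∈ A, c' (x + v) = c x) (i : ℕ)
    (hP : ∀ j ≤ i, ∀ x ∈ A, P' j (x + v) = P j x + v) :
    gAlive c' P' (A.image (· + v)) i = (gAlive c P A i).image (· + v) := by
  induction i with
  | zero => rfl
  | succ i ih =>
    change kill c' (P' (i + 1)) (gAlive c' P' (A.image (· + v)) i) =
      (kill c (P (i + 1)) (gAlive c P A i)).image (· + v)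
    rw [ih fun j hj => hP j (by omega)]
    exact kill_shift v (fun x hx => hc x (gAlive_subset c P A i hx))
      (fun x hx => hP (i + 1) le_rfl x (gAlive_subset c P A i hx))

end Pool.Agent.T2H99.AW
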