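import Pool.Agent.T2H99.AW.ME

set_option autoImplicit false

/-!
# AW, package PR: pair bounds (uses G, MK, ME, HK2)

A particle alive at a later step is alive at an earlier one; two different labels alive at step `j`
move independently afterwards (`markov2` with `X = 1{x, y ∈ ga j, colours}`), one label by `markov1`.

PR1: `gw i true φ * gw i false ψ = ∑_{x red, y blue ∈ ga i} φ(gpos i x) ψ(gpos i y)`
`≤ ∑_{x red ≠ y blue ∈ ga j} φ(gpos i x) ψ(gpos i y)`.
PR2: split `gw i b φ * gw n b ψ = ∑_{x ∈ ga i, y ∈ ga n}` into `x = y`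
(`≤ ∑_{x ∈ ga i} φ(gpos i x) ψ(gpos n x)`) and `x ≠ y` (both alive at step `j`).
PR3: two particles arriving at `w` at step `i+1`: with `a = #{x ∈ ga i red, gpos (i+1) x = w}` and
`b` the same for blue: `E[a b] = ∑_{u ≠ v} heat h (w-u) heat h (w-v) E[cnt_i red u * cnt_i blue v]`
(alive particles of opposite colours are at different sites, `kill_sep`, at step `0` the positions
are the labels). `pair_le_one`: PR1 with `j = 0`.
-/

namespace Pool.Agent.T2H99.AW

open Finset Filter Topology MeasureTheory ProbabilityTheory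
open scoped NNReal ENNReal BigOperators

variable {d : ℕ} {Ω : Type} [mΩ : MeasurableSpace Ω] {μ : Measure Ω} [IsProbabilityMeasure μ]
  {p : ℝ} {c : Site d → Ω → Bool} {S : Site d → ℝ≥0 → Ω → Site d}

namespace PkgPR

open Classical in
/-- The indicator of `x` being alive at step `i` and of colour `b`. -/
noncomputable def al (c : Site d → Ω → Bool) (S : Site d → ℝ≥0 → Ω → Site d) (m : ℕ)
    (A : Finset (Site d)) (i : ℕ) (b : Bool) (x : Site d) (ω : Ω) : ℝ :=
  if x ∈ ga c S m A i ω ∧ c x ω = b then 1 else 0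

omit mΩ in
lemma al_nonneg (c : Site d → Ω → Bool) (S : Site d → ℝ≥0 → Ω → Site d) (m : ℕ)
    (A : Finset (Site d)) (i : ℕ) (b : Bool) (x : Site d) (ω : Ω) : 0 ≤ al c S m A i b x ω := by
  unfold al; split_ifs <;> norm_num

omit mΩ in
lemma al_le_one (c : Site d → Ω → Bool) (S : Site d → ℝ≥0 → Ω → Site d) (m : ℕ)
    (A : Finset (Site d)) (i : ℕ) (b : Bool) (x : Site d) (ω : Ω) : al c S m A i b x ω ≤ 1 := by
  unfold al; split_ifs <;> norm_num

omit mΩ in
lemma al_anti (c : Site d → Ω → Bool) (S : Site d → ℝ≥0 → Ω → Site d) (m : ℕ)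
    (A : Finset (Site d)) {i j : ℕ} (hij : j ≤ i) (b : Bool) (x : Site d) (ω : Ω) :
    al c S m A i b x ω ≤ al c S m A j b x ω := by
  have h := gAlive_anti (fun x => c x ω) (gpos S m ω) A hij
  unfold al
  by_cases h1 : x ∈ ga c S m A i ω ∧ c x ω = b
  · rw [if_pos h1, if_pos ⟨h h1.1, h1.2⟩]
  · rw [if_neg h1]
    split_ifs <;> norm_num

omit mΩ in
lemma al_opp (c : Site d → Ω → Bool) (S : Site d → ℝ≥0 → Ω → Site d) (m : ℕ)
    (A : Finset (Site d)) (i j : ℕ) (x : Site d) (ω : Ω) :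
    al c S m A i true x ω * al c S m A j false x ω = 0 := by
  unfold al
  by_cases h : c x ω = true
  · have : ¬ (x ∈ ga c S m A j ω ∧ c x ω = false) := by
      rintro ⟨-, h2⟩; rw [h] at h2; exact Bool.noConfusion h2
    rw [if_neg this, mul_zero]
  · have : ¬ (x ∈ ga c S m A i ω ∧ c x ω = true) := fun h2 => h h2.2
    rw [if_neg this, zero_mul]

omit mΩ in
lemma wt_eq (c : Site d → Ω → Bool) (S : Site d → ℝ≥0 → Ω → Site d) (m : ℕ)
    (A : Finset (Site d)) (i : ℕ) (b : Bool) (pos : Site d → Site d) (φ : Site d → ℝ) (ω : Ω) :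
    wt (fun x => c x ω) pos (ga c S m A i ω) b φ = ∑ x ∈ A, al c S m A i b x ω * φ (pos x) := by
  classical
  have hsub : ga c S m A i ω ⊆ A := gAlive_subset _ _ _ _
  unfold wt al
  have h1 : (ga c S m A i ω).filter (fun x => c x ω = b) =
      A.filter (fun x => x ∈ ga c S m A i ω ∧ c x ω = b) := by
    ext x
    simp only [Finset.mem_filter]
    constructor
    · rintro ⟨h2, h3⟩; exact ⟨hsub h2, h2, h3⟩
    · rintro ⟨-, h2, h3⟩; exact ⟨h2, h3⟩
  rw [h1, Finset.sum_filter]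
  refine Finset.sum_congr rfl fun x _ => ?_
  by_cases h : x ∈ ga c S m A i ω ∧ c x ω = b
  · simp only [if_pos h, one_mul]
  · simp only [if_neg h, zero_mul]

omit mΩ in
lemma gw_eq (c : Site d → Ω → Bool) (S : Site d → ℝ≥0 → Ω → Site d) (m : ℕ)
    (A : Finset (Site d)) (i : ℕ) (b : Bool) (φ : Site d → ℝ) (ω : Ω) :
    gw c S m A i b φ ω = ∑ x ∈ A, al c S m A i b x ω * φ (gpos S m ω i x) :=
  wt_eq c S m A i b _ φ ω

lemma wt_ind (c : Site d → Bool) (pos : Site d → Site d) (X : Finset (Site d)) (b : Bool)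
    (z : Site d) : wt c pos X b (ind z) = cnt c pos X b z := by
  classical
  unfold wt cnt ind
  rw [← Finset.sum_filter, Finset.filter_filter, Finset.sum_const, nsmul_eq_mul, mul_one]

omit mΩ in
lemma meas_c (c : Site d → Ω → Bool) (S : Site d → ℝ≥0 → Ω → Site d) (s : ℝ≥0) (x : Site d) :
    Measurable[hist c S Set.univ s] (c x) := by
  rw [measurable_iff_comap_le]
  have h := le_iSup (fun x : (Set.univ : Set (Site d)) => (MeasurableSpace.comap (c x) inferInstance) ⊔
    ⨆ u : Set.Iic s, MeasurableSpace.comap (S x u) inferInstance) ⟨x, Set.mem_univ x⟩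
  exact le_trans le_sup_left h

lemma meas_al (c : Site d → Ω → Bool) (S : Site d → ℝ≥0 → Ω → Site d) (m : ℕ)
    (A : Finset (Site d)) {i : ℕ} {s : ℝ≥0} (hi : (i : ℝ≥0) / 2 ^ m ≤ s) (b : Bool) (x : Site d) :
    Measurable[hist c S Set.univ s] (al c S m A i b x) := by
  have h1 : MeasurableSet[hist c S Set.univ s] {ω | x ∈ ga c S m A i ω} :=
    hist_mono c S (Set.subset_univ _) le_rfl _ (meas_mem_ga c S m A hi x)
  have h2 : MeasurableSet[hist c S Set.univ s] {ω | c x ω = b} :=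
    meas_c c S s x (MeasurableSet.singleton b)
  have h3 : MeasurableSet[hist c S Set.univ s] {ω | x ∈ ga c S m A i ω ∧ c x ω = b} := by
    have := MeasurableSet.inter h1 h2
    exact this
  unfold al
  exact Measurable.ite h3 measurable_const measurable_const

lemma meas_pos (c : Site d → Ω → Bool) (S : Site d → ℝ≥0 → Ω → Site d) (m : ℕ)
    {i : ℕ} {s : ℝ≥0} (hi : (i : ℝ≥0) / 2 ^ m ≤ s) (x : Site d) :
    Measurable[hist c S Set.univ s] (fun ω => gpos S m ω i x) :=
  meas_gpos c S m (Set.mem_univ x) hi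

lemma meas_al' (hS : Setup μ p c S) (m : ℕ) (A : Finset (Site d)) (i : ℕ) (b : Bool) (x : Site d) :
    Measurable (al c S m A i b x) :=
  (meas_al c S m A (le_refl ((i : ℝ≥0) / 2 ^ m)) b x).mono (hist_le hS _ _) le_rfl

lemma meas_pos' (hS : Setup μ p c S) (m : ℕ) (i : ℕ) (x : Site d) :
    Measurable (fun ω => gpos S m ω i x) :=
  (meas_pos c S m (le_refl ((i : ℝ≥0) / 2 ^ m)) x).mono (hist_le hS _ _) le_rfl

lemma meas_phi (φ : Site d → ℝ) : Measurable φ := Measurable.of_discrete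

lemma meas_phipos (hS : Setup μ p c S) (m : ℕ) (i : ℕ) (x : Site d) (φ : Site d → ℝ) :
    Measurable (fun ω => φ (gpos S m ω i x)) :=
  (meas_phi φ).comp (meas_pos' hS m i x)

lemma intb {f : Ω → ℝ} (hf : Measurable f) {C : ℝ} (hC : ∀ ω, |f ω| ≤ C) : Integrable f μ :=
  Integrable.of_bound hf.aestronglyMeasurable C (Filter.Eventually.of_forall hC)

lemma time_sub (m : ℕ) {i j : ℕ} (_hij : j ≤ i) :
    (((((i : ℝ≥0) / 2 ^ m : ℝ≥0) : ℝ)) - (((j : ℝ≥0) / 2 ^ m : ℝ≥0) : ℝ)) = ((i : ℝ) - j) / 2 ^ m := by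
  push_cast
  ring

lemma time_le (m : ℕ) {i j : ℕ} (hij : j ≤ i) : (j : ℝ≥0) / 2 ^ m ≤ (i : ℝ≥0) / 2 ^ m := by
  gcongr

omit mΩ in
lemma gpos_add (S : Site d → ℝ≥0 → Ω → Site d) (m : ℕ) (ω : Ω) (i j : ℕ) (x : Site d) :
    gpos S m ω i x = gpos S m ω j x + (S x ((i : ℝ≥0) / 2 ^ m) ω - S x ((j : ℝ≥0) / 2 ^ m) ω) := by
  unfold gpos posn
  abel

lemma mk1 (hd : 0 < d) (hS : Setup μ p c S) (m : ℕ) {i j : ℕ} (hij : j ≤ i) {X : Ω → ℝ} {C : ℝ}
    (hX : Measurable[hist c S Set.univ ((j : ℝ≥0) / 2 ^ m)] X) (hXb : ∀ ω, |X ω| ≤ C) (x : Site d)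
    {φ : Site d → ℝ} {K : ℝ} (hφ : ∀ z, |φ z| ≤ K) :
    ∫ ω, X ω * φ (gpos S m ω i x) ∂μ = ∫ ω, X ω * Pt (((i : ℝ) - j) / 2 ^ m) φ (gpos S m ω j x) ∂μ := by
  have h := markov1 hd hS (time_le m hij) hX hXb (meas_pos c S m le_rfl x) x hφ
  rw [time_sub m hij] at h
  rw [← h]
  refine integral_congr_ae (Filter.Eventually.of_forall fun ω => ?_)
  show X ω * φ (gpos S m ω i x) = X ω * φ (gpos S m ω j x + _)
  rw [← gpos_add S m ω i j x]

lemma mk2 (hd : 0 < d) (hS : Setup μ p c S) (m : ℕ) {i n j : ℕ} (hij : j ≤ i) (hnj : j ≤ n)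
    {X : Ω → ℝ} {C : ℝ}
    (hX : Measurable[hist c S Set.univ ((j : ℝ≥0) / 2 ^ m)] X) (hXb : ∀ ω, |X ω| ≤ C)
    {x y : Site d} (hxy : x ≠ y)
    {φ ψ : Site d → ℝ} {K : ℝ} (hφ : ∀ z, |φ z| ≤ K) (hψ : ∀ z, |ψ z| ≤ K) :
    ∫ ω, X ω * (φ (gpos S m ω i x) * ψ (gpos S m ω n y)) ∂μ =
      ∫ ω, X ω * (Pt (((i : ℝ) - j) / 2 ^ m) φ (gpos S m ω j x) *
        Pt (((n : ℝ) - j) / 2 ^ m) ψ (gpos S m ω j y)) ∂μ := by
  have h := markov2 hd hS (time_le m hij) (time_le m hnj) hX hXb (meas_pos c S m le_rfl x)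
    (meas_pos c S m le_rfl y) hxy hφ hψ
  rw [time_sub m hij, time_sub m hnj] at h
  rw [← h]
  refine integral_congr_ae (Filter.Eventually.of_forall fun ω => ?_)
  show X ω * (φ (gpos S m ω i x) * ψ (gpos S m ω n y)) =
    X ω * (φ (gpos S m ω j x + _) * ψ (gpos S m ω j y + _))
  rw [← gpos_add S m ω i j x, ← gpos_add S m ω n j y]

/-- the general term is bounded -/
lemma term_bdd {a b u v K : ℝ} (ha : 0 ≤ a) (ha1 : a ≤ 1) (hb : 0 ≤ b) (hb1 : b ≤ 1)
    (hu : |u| ≤ K) (hv : |v| ≤ K) : |(a * b) * (u * v)| ≤ K * K := by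
  have hK : 0 ≤ K := (abs_nonneg _).trans hu
  rw [abs_mul, abs_mul u v, abs_of_nonneg (mul_nonneg ha hb)]
  have h1 : a * b ≤ 1 := mul_le_one₀ ha1 hb hb1
  have h2 : |u| * |v| ≤ K * K := mul_le_mul hu hv (abs_nonneg _) hK
  calc a * b * (|u| * |v|) ≤ 1 * (|u| * |v|) := mul_le_mul_of_nonneg_right h1 (by positivity)
    _ ≤ _ := by rw [one_mul]; exact h2

lemma int_gw_mul (hS : Setup μ p c S) (m : ℕ) (A : Finset (Site d)) (i n : ℕ) (b b' : Bool)
    {φ ψ : Site d → ℝ} {K : ℝ} (hφ : ∀ z, |φ z| ≤ K) (hψ : ∀ z, |ψ z| ≤ K) :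
    ∫ ω, gw c S m A i b φ ω * gw c S m A n b' ψ ω ∂μ =
      ∑ x ∈ A, ∑ y ∈ A, ∫ ω, (al c S m A i b x ω * al c S m A n b' y ω) *
        (φ (gpos S m ω i x) * ψ (gpos S m ω n y)) ∂μ := by
  have hI : ∀ x y, Integrable (fun ω => (al c S m A i b x ω * al c S m A n b' y ω) *
        (φ (gpos S m ω i x) * ψ (gpos S m ω n y))) μ := fun x y =>
    intb (((meas_al' hS m A i b x).mul (meas_al' hS m A n b' y)).mul
      ((meas_phipos hS m i x φ).mul (meas_phipos hS m n y ψ)))
      (fun ω => term_bdd (al_nonneg _ _ _ _ _ _ _ _) (al_le_one _ _ _ _ _ _ _ _)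
        (al_nonneg _ _ _ _ _ _ _ _) (al_le_one _ _ _ _ _ _ _ _) (hφ _) (hψ _))
  have h1 : ∀ ω, gw c S m A i b φ ω * gw c S m A n b' ψ ω =
      ∑ x ∈ A, ∑ y ∈ A, (al c S m A i b x ω * al c S m A n b' y ω) *
        (φ (gpos S m ω i x) * ψ (gpos S m ω n y)) := by
    intro ω
    rw [gw_eq, gw_eq, Finset.sum_mul_sum]
    refine Finset.sum_congr rfl fun x _ => Finset.sum_congr rfl fun y _ => ?_
    ring
  simp_rw [h1]
  rw [integral_finsetSum _ fun x _ => integrable_finsetSum _ fun y _ => hI x y]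
  refine Finset.sum_congr rfl fun x _ => ?_
  rw [integral_finsetSum _ fun y _ => hI x y]

end PkgPR

open PkgPR

theorem pair_rb (hd : 0 < d) (hS : Setup μ p c S) (m : ℕ) (A : Finset (Site d)) {j i : ℕ}
    (hji : j ≤ i) {φ ψ : Site d → ℝ} {K : ℝ} (hφ : ∀ z, |φ z| ≤ K) (hψ : ∀ z, |ψ z| ≤ K)
    (hφ0 : ∀ z, 0 ≤ φ z) (hψ0 : ∀ z, 0 ≤ ψ z) :
    ∫ ω, gw c S m A i true φ ω * gw c S m A i false ψ ω ∂μ ≤
      ∫ ω, gw c S m A j true (Pt (((i : ℝ) - j) / 2 ^ m) φ) ω *
        gw c S m A j false (Pt (((i : ℝ) - j) / 2 ^ m) ψ) ω ∂μ := by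
  have ht : 0 ≤ ((i : ℝ) - j) / 2 ^ m := by
    have : (j : ℝ) ≤ i := by exact_mod_cast hji
    have h2 : 0 ≤ (i : ℝ) - j := by linarith
    positivity
  rw [int_gw_mul hS m A i i true false hφ hψ,
    int_gw_mul hS m A j j true false (fun z => Pt_bdd hd ht hφ z) (fun z => Pt_bdd hd ht hψ z)]
  refine Finset.sum_le_sum fun x _ => Finset.sum_le_sum fun y _ => ?_
  by_cases hxy : x = y
  · subst hxy
    have h1 : ∀ ω, (al c S m A i true x ω * al c S m A i false x ω) *
        (φ (gpos S m ω i x) * ψ (gpos S m ω i x)) = 0 := fun ω => by rw [al_opp, zero_mul]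
    have h2 : ∀ ω, (al c S m A j true x ω * al c S m A j false x ω) *
        (Pt (((i : ℝ) - j) / 2 ^ m) φ (gpos S m ω j x) *
          Pt (((i : ℝ) - j) / 2 ^ m) ψ (gpos S m ω j x)) = 0 := fun ω => by rw [al_opp, zero_mul]
    simp_rw [h1, h2]
    exact le_rfl
  · have hX : Measurable[hist c S Set.univ ((j : ℝ≥0) / 2 ^ m)]
        (fun ω => al c S m A j true x ω * al c S m A j false y ω) :=
      Measurable.mul (meas_al c S m A le_rfl true x) (meas_al c S m A le_rfl false y)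
    have hXb : ∀ ω, |al c S m A j true x ω * al c S m A j false y ω| ≤ 1 := fun ω => by
      rw [abs_of_nonneg (mul_nonneg (al_nonneg _ _ _ _ _ _ _ _) (al_nonneg _ _ _ _ _ _ _ _))]
      exact mul_le_one₀ (al_le_one _ _ _ _ _ _ _ _) (al_nonneg _ _ _ _ _ _ _ _)
        (al_le_one _ _ _ _ _ _ _ _)
    rw [← mk2 hd hS m hji hji hX hXb hxy hφ hψ]
    refine integral_mono ?_ ?_ fun ω => ?_
    · exact intb (((meas_al' hS m A i true x).mul (meas_al' hS m A i false y)).mul
        ((meas_phipos hS m i x φ).mul (meas_phipos hS m i y ψ)))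
        (fun ω => term_bdd (al_nonneg _ _ _ _ _ _ _ _) (al_le_one _ _ _ _ _ _ _ _)
          (al_nonneg _ _ _ _ _ _ _ _) (al_le_one _ _ _ _ _ _ _ _) (hφ _) (hψ _))
    · exact intb (((meas_al' hS m A j true x).mul (meas_al' hS m A j false y)).mul
        ((meas_phipos hS m i x φ).mul (meas_phipos hS m i y ψ)))
        (fun ω => term_bdd (al_nonneg _ _ _ _ _ _ _ _) (al_le_one _ _ _ _ _ _ _ _)
          (al_nonneg _ _ _ _ _ _ _ _) (al_le_one _ _ _ _ _ _ _ _) (hφ _) (hψ _))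
    · exact mul_le_mul_of_nonneg_right (mul_le_mul (al_anti c S m A hji true x ω)
        (al_anti c S m A hji false y ω) (al_nonneg _ _ _ _ _ _ _ _) (al_nonneg _ _ _ _ _ _ _ _))
        (mul_nonneg (hφ0 _) (hψ0 _))


theorem pair_bb (hd : 0 < d) (hS : Setup μ p c S) (m : ℕ) (A : Finset (Site d)) {j i n : ℕ}
    (hji : j ≤ i) (hin : i ≤ n) (b : Bool) {φ ψ : Site d → ℝ} {K : ℝ} (hφ : ∀ z, |φ z| ≤ K)
    (hψ : ∀ z, |ψ z| ≤ K) (hφ0 : ∀ z, 0 ≤ φ z) (hψ0 : ∀ z, 0 ≤ ψ z) :
    ∫ ω, gw c S m A i b φ ω * gw c S m A n b ψ ω ∂μ ≤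
      ∫ ω, gw c S m A i b (fun z => φ z * Pt (((n : ℝ) - i) / 2 ^ m) ψ z) ω ∂μ +
      ∫ ω, gw c S m A j b (Pt (((i : ℝ) - j) / 2 ^ m) φ) ω *
        gw c S m A j b (Pt (((n : ℝ) - j) / 2 ^ m) ψ) ω ∂μ := by
  classical
  have hjn : j ≤ n := hji.trans hin
  have ht : 0 ≤ ((i : ℝ) - j) / 2 ^ m := by
    have : (j : ℝ) ≤ i := by exact_mod_cast hji
    have h2 : 0 ≤ (i : ℝ) - j := by linarith
    positivity
  have ht' : 0 ≤ ((n : ℝ) - j) / 2 ^ m := by
    have : (j : ℝ) ≤ n := by exact_mod_cast hjn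
    have h2 : 0 ≤ (n : ℝ) - j := by linarith
    positivity
  have ht'' : 0 ≤ ((n : ℝ) - i) / 2 ^ m := by
    have : (i : ℝ) ≤ n := by exact_mod_cast hin
    have h2 : 0 ≤ (n : ℝ) - i := by linarith
    positivity
  have hK : 0 ≤ K := (abs_nonneg _).trans (hφ 0)
  rw [int_gw_mul hS m A i n b b hφ hψ,
    int_gw_mul hS m A j j b b (fun z => Pt_bdd hd ht hφ z) (fun z => Pt_bdd hd ht' hψ z)]
  have h1 : ∫ ω, gw c S m A i b (fun z => φ z * Pt (((n : ℝ) - i) / 2 ^ m) ψ z) ω ∂μ =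
      ∑ x ∈ A, ∫ ω, al c S m A i b x ω * (φ (gpos S m ω i x) * ψ (gpos S m ω n x)) ∂μ := by
    have h2 : ∀ x, ∫ ω, al c S m A i b x ω * (φ (gpos S m ω i x) * ψ (gpos S m ω n x)) ∂μ =
        ∫ ω, al c S m A i b x ω * (φ (gpos S m ω i x) *
          Pt (((n : ℝ) - i) / 2 ^ m) ψ (gpos S m ω i x)) ∂μ := by
      intro x
      have hX : Measurable[hist c S Set.univ ((i : ℝ≥0) / 2 ^ m)]
          (fun ω => al c S m A i b x ω * φ (gpos S m ω i x)) :=
        Measurable.mul (meas_al c S m A le_rfl b x) ((meas_phi φ).comp (meas_pos c S m le_rfl x))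
      have hXb : ∀ ω, |al c S m A i b x ω * φ (gpos S m ω i x)| ≤ K := fun ω => by
        rw [abs_mul, abs_of_nonneg (al_nonneg _ _ _ _ _ _ _ _)]
        calc _ ≤ 1 * |φ (gpos S m ω i x)| :=
              mul_le_mul_of_nonneg_right (al_le_one _ _ _ _ _ _ _ _) (abs_nonneg _)
          _ ≤ _ := by rw [one_mul]; exact hφ _
      have h := mk1 hd hS m hin hX hXb x hψ
      simp_rw [← mul_assoc]
      exact h
    simp_rw [h2, gw_eq]
    rw [integral_finsetSum]
    intro x _
    have hm : Measurable (fun ω => al c S m A i b x ω *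
        (φ (gpos S m ω i x) * Pt (((n : ℝ) - i) / 2 ^ m) ψ (gpos S m ω i x))) :=
      (meas_al' hS m A i b x).mul ((meas_phipos hS m i x φ).mul (meas_phipos hS m i x _))
    refine intb hm (C := 1 * (K * K)) fun ω => ?_
    rw [abs_mul, abs_mul, abs_of_nonneg (al_nonneg _ _ _ _ _ _ _ _)]
    exact mul_le_mul (al_le_one _ _ _ _ _ _ _ _)
      (mul_le_mul (hφ _) (Pt_bdd hd ht'' hψ _) (abs_nonneg _) hK) (by positivity) zero_le_one
  rw [h1, ← Finset.sum_add_distrib]
  refine Finset.sum_le_sum fun x hx => ?_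
  -- the general term
  have key : ∀ y, (∫ ω, (al c S m A i b x ω * al c S m A n b y ω) *
        (φ (gpos S m ω i x) * ψ (gpos S m ω n y)) ∂μ) ≤
      (if y = x then ∫ ω, al c S m A i b x ω * (φ (gpos S m ω i x) * ψ (gpos S m ω n x)) ∂μ else 0) +
      ∫ ω, (al c S m A j b x ω * al c S m A j b y ω) *
        (Pt (((i : ℝ) - j) / 2 ^ m) φ (gpos S m ω j x) *
          Pt (((n : ℝ) - j) / 2 ^ m) ψ (gpos S m ω j y)) ∂μ := by
    intro y
    by_cases hxy : y = x
    · subst hxy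
      rw [if_pos rfl]
      have h3 : 0 ≤ ∫ ω, (al c S m A j b y ω * al c S m A j b y ω) *
        (Pt (((i : ℝ) - j) / 2 ^ m) φ (gpos S m ω j y) *
          Pt (((n : ℝ) - j) / 2 ^ m) ψ (gpos S m ω j y)) ∂μ :=
        integral_nonneg fun ω => mul_nonneg (mul_nonneg (al_nonneg _ _ _ _ _ _ _ _)
          (al_nonneg _ _ _ _ _ _ _ _)) (mul_nonneg (Pt_nonneg ht hφ0 _) (Pt_nonneg ht' hψ0 _))
      have h4 : (∫ ω, (al c S m A i b y ω * al c S m A n b y ω) *
          (φ (gpos S m ω i y) * ψ (gpos S m ω n y)) ∂μ) ≤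
          ∫ ω, al c S m A i b y ω * (φ (gpos S m ω i y) * ψ (gpos S m ω n y)) ∂μ := by
        refine integral_mono ?_ ?_ fun ω => ?_
        · exact intb (((meas_al' hS m A i b y).mul (meas_al' hS m A n b y)).mul
            ((meas_phipos hS m i y φ).mul (meas_phipos hS m n y ψ)))
            (fun ω => term_bdd (al_nonneg _ _ _ _ _ _ _ _) (al_le_one _ _ _ _ _ _ _ _)
              (al_nonneg _ _ _ _ _ _ _ _) (al_le_one _ _ _ _ _ _ _ _) (hφ _) (hψ _))
        · have hm : Measurable (fun ω => al c S m A i b y ω *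
              (φ (gpos S m ω i y) * ψ (gpos S m ω n y))) :=
            (meas_al' hS m A i b y).mul ((meas_phipos hS m i y φ).mul (meas_phipos hS m n y _))
          refine intb hm (C := 1 * (K * K)) fun ω => ?_
          rw [abs_mul, abs_mul, abs_of_nonneg (al_nonneg _ _ _ _ _ _ _ _)]
          exact mul_le_mul (al_le_one _ _ _ _ _ _ _ _)
            (mul_le_mul (hφ _) (hψ _) (abs_nonneg _) hK) (by positivity) zero_le_one
        · show (al c S m A i b y ω * al c S m A n b y ω) * _ ≤ al c S m A i b y ω * _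
          refine mul_le_mul_of_nonneg_right ?_ (mul_nonneg (hφ0 _) (hψ0 _))
          calc _ ≤ al c S m A i b y ω * 1 :=
                mul_le_mul_of_nonneg_left (al_le_one _ _ _ _ _ _ _ _) (al_nonneg _ _ _ _ _ _ _ _)
            _ = _ := mul_one _
      linarith
    · rw [if_neg hxy, zero_add]
      have hxy' : x ≠ y := fun h => hxy h.symm
      have hX : Measurable[hist c S Set.univ ((j : ℝ≥0) / 2 ^ m)]
          (fun ω => al c S m A j b x ω * al c S m A j b y ω) :=
        Measurable.mul (meas_al c S m A le_rfl b x) (meas_al c S m A le_rfl b y)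
      have hXb : ∀ ω, |al c S m A j b x ω * al c S m A j b y ω| ≤ 1 := fun ω => by
        rw [abs_of_nonneg (mul_nonneg (al_nonneg _ _ _ _ _ _ _ _) (al_nonneg _ _ _ _ _ _ _ _))]
        exact mul_le_one₀ (al_le_one _ _ _ _ _ _ _ _) (al_nonneg _ _ _ _ _ _ _ _)
          (al_le_one _ _ _ _ _ _ _ _)
      rw [← mk2 hd hS m hji hjn hX hXb hxy' hφ hψ]
      refine integral_mono ?_ ?_ fun ω => ?_
      · exact intb (((meas_al' hS m A i b x).mul (meas_al' hS m A n b y)).mul
          ((meas_phipos hS m i x φ).mul (meas_phipos hS m n y ψ)))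
          (fun ω => term_bdd (al_nonneg _ _ _ _ _ _ _ _) (al_le_one _ _ _ _ _ _ _ _)
            (al_nonneg _ _ _ _ _ _ _ _) (al_le_one _ _ _ _ _ _ _ _) (hφ _) (hψ _))
      · exact intb (((meas_al' hS m A j b x).mul (meas_al' hS m A j b y)).mul
          ((meas_phipos hS m i x φ).mul (meas_phipos hS m n y ψ)))
          (fun ω => term_bdd (al_nonneg _ _ _ _ _ _ _ _) (al_le_one _ _ _ _ _ _ _ _)
            (al_nonneg _ _ _ _ _ _ _ _) (al_le_one _ _ _ _ _ _ _ _) (hφ _) (hψ _))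
      · exact mul_le_mul_of_nonneg_right (mul_le_mul (al_anti c S m A hji b x ω)
          (al_anti c S m A hjn b y ω) (al_nonneg _ _ _ _ _ _ _ _) (al_nonneg _ _ _ _ _ _ _ _))
          (mul_nonneg (hφ0 _) (hψ0 _))
  refine (Finset.sum_le_sum fun y _ => key y).trans ?_
  rw [Finset.sum_add_distrib, Finset.sum_ite_eq' A x, if_pos hx]

/-- Second moment of the number of particles (both colours) at `w` one block of time later, on an
event of the past. -/
theorem pair_cond (hd : 0 < d) (hS : Setup μ p c S) (m : ℕ) (A : Finset (Site d)) {j i : ℕ}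
    (hji : j ≤ i) (w : Site d) {E : Set Ω}
    (hE : MeasurableSet[hist c S Set.univ ((j : ℝ≥0) / 2 ^ m)] E) :
    ∫ ω in E, (gw c S m A i true (ind w) ω + gw c S m A i false (ind w) ω) ^ 2 ∂μ ≤
      ∫ ω in E, ((gw c S m A j true (fun z => heat d (((i : ℝ) - j) / 2 ^ m) (w - z)) ω +
          gw c S m A j false (fun z => heat d (((i : ℝ) - j) / 2 ^ m) (w - z)) ω) +
        (gw c S m A j true (fun z => heat d (((i : ℝ) - j) / 2 ^ m) (w - z)) ω +
          gw c S m A j false (fun z => heat d (((i : ℝ) - j) / 2 ^ m) (w - z)) ω) ^ 2) ∂μ := by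
  classical
  have ht : 0 ≤ ((i : ℝ) - j) / 2 ^ m := by
    have : (j : ℝ) ≤ i := by exact_mod_cast hji
    have h2 : 0 ≤ (i : ℝ) - j := by linarith
    positivity
  have hind : ∀ z, |ind w z| ≤ 1 := fun z => by
    unfold ind; split_ifs <;> norm_num
  have hind0 : ∀ z, 0 ≤ ind w z := fun z => by
    unfold ind; split_ifs <;> norm_num
  have hind1 : ∀ z, ind w z * ind w z = ind w z := fun z => by
    unfold ind; split_ifs <;> norm_num
  have hPt : Pt (((i : ℝ) - j) / 2 ^ m) (ind w) =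
      fun z => heat d (((i : ℝ) - j) / 2 ^ m) (w - z) := by
    funext z; exact Pt_single _ w z
  set ht1 := ((i : ℝ) - j) / 2 ^ m with ht1def
  set H : Site d → ℝ := fun z => heat d ht1 (w - z) with hH
  have hH0 : ∀ z, 0 ≤ H z := fun z => heat_nonneg ht _
  have hH1 : ∀ z, |H z| ≤ 1 := fun z => by
    rw [abs_of_nonneg (hH0 z)]; exact heat_le_one hd ht _
  have hE' : MeasurableSet E := hist_le hS _ _ _ hE
  let e : Ω → ℝ := E.indicator (fun _ => 1)
  have he0 : ∀ ω, 0 ≤ e ω := fun ω => Set.indicator_nonneg (fun _ _ => zero_le_one) ω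
  have he1 : ∀ ω, e ω ≤ 1 := fun ω => by
    by_cases h : ω ∈ E
    · simp [e, h]
    · simp [e, h]
  have hem : Measurable[hist c S Set.univ ((j : ℝ≥0) / 2 ^ m)] e :=
    Measurable.indicator measurable_const hE
  have hem' : Measurable e := hem.mono (hist_le hS _ _) le_rfl
  -- alive (both colours)
  let ae : ℕ → Site d → Ω → ℝ := fun i x ω => al c S m A i true x ω + al c S m A i false x ω
  have ha0 : ∀ i x ω, 0 ≤ ae i x ω := fun i x ω =>
    add_nonneg (al_nonneg _ _ _ _ _ _ _ _) (al_nonneg _ _ _ _ _ _ _ _)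
  have ha1 : ∀ i x ω, ae i x ω ≤ 1 := by
    intro i x ω
    have h1 := al_opp c S m A i i x ω
    have h2 := al_le_one c S m A i true x ω
    have h3 := al_le_one c S m A i false x ω
    rcases mul_eq_zero.1 h1 with h | h
    · show al c S m A i true x ω + al c S m A i false x ω ≤ 1
      rw [h, zero_add]; exact h3
    · show al c S m A i true x ω + al c S m A i false x ω ≤ 1
      rw [h, add_zero]; exact h2
  have haa : ∀ x ω, ae i x ω ≤ ae j x ω := fun x ω =>
    add_le_add (al_anti c S m A hji true x ω) (al_anti c S m A hji false x ω)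
  have ham : ∀ x, Measurable[hist c S Set.univ ((j : ℝ≥0) / 2 ^ m)] (ae j x) := fun x =>
    Measurable.add (meas_al c S m A le_rfl true x) (meas_al c S m A le_rfl false x)
  have ham' : ∀ i x, Measurable (ae i x) := fun i x =>
    (meas_al' hS m A i true x).add (meas_al' hS m A i false x)
  have hsum : ∀ (i : ℕ) (φ : Site d → ℝ) (ω : Ω), gw c S m A i true φ ω + gw c S m A i false φ ω =
      ∑ x ∈ A, ae i x ω * φ (gpos S m ω i x) := by
    intro i φ ω
    rw [gw_eq, gw_eq, ← Finset.sum_add_distrib]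
    exact Finset.sum_congr rfl fun x _ => (add_mul _ _ _).symm
  have hset : ∀ f : Ω → ℝ, ∫ ω in E, f ω ∂μ = ∫ ω, e ω * f ω ∂μ := by
    intro f
    rw [← integral_indicator hE']
    refine integral_congr_ae (Filter.Eventually.of_forall fun ω => ?_)
    by_cases h : ω ∈ E
    · simp [e, h]
    · simp [e, h]
  rw [hset, hset]
  -- bounds of general terms
  have tb : ∀ {a b b' u v : ℝ}, 0 ≤ a → a ≤ 1 → 0 ≤ b → b ≤ 1 → 0 ≤ b' → b' ≤ 1 → |u| ≤ 1 → |v| ≤ 1 →
      |(a * (b * b')) * (u * v)| ≤ 1 := by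
    intro a b b' u v h1 h2 h3 h4 h5 h6 h7 h8
    have := term_bdd h1 h2 (mul_nonneg h3 h5) (mul_le_one₀ h4 h5 h6) h7 h8
    simpa using this
  have I2 : ∀ (i : ℕ) (φ : Site d → ℝ), (∀ z, |φ z| ≤ 1) → ∀ (k : ℕ) (x y : Site d),
      Integrable (fun ω => (e ω * (ae k x ω * ae k y ω)) *
        (φ (gpos S m ω i x) * φ (gpos S m ω i y))) μ := fun i φ hφ k x y =>
    intb ((hem'.mul ((ham' k x).mul (ham' k y))).mul
      ((meas_phipos hS m i x φ).mul (meas_phipos hS m i y φ)))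
      (fun ω => tb (he0 ω) (he1 ω) (ha0 _ _ _) (ha1 _ _ _) (ha0 _ _ _) (ha1 _ _ _) (hφ _) (hφ _))
  have I1 : ∀ (i : ℕ) (φ : Site d → ℝ), (∀ z, |φ z| ≤ 1) → ∀ (k : ℕ) (x : Site d),
      Integrable (fun ω => (e ω * ae k x ω) * φ (gpos S m ω i x)) μ := fun i φ hφ k x => by
    refine intb ((hem'.mul (ham' k x)).mul (meas_phipos hS m i x φ)) (C := 1) fun ω => ?_
    rw [abs_mul, abs_of_nonneg (mul_nonneg (he0 ω) (ha0 k x ω))]
    exact mul_le_one₀ (mul_le_one₀ (he1 ω) (ha0 _ _ _) (ha1 _ _ _)) (abs_nonneg _) (hφ _)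
  have hsq : ∀ (k : ℕ) (φ : Site d → ℝ), (∀ z, |φ z| ≤ 1) →
      ∫ ω, e ω * (gw c S m A k true φ ω + gw c S m A k false φ ω) ^ 2 ∂μ =
        ∑ x ∈ A, ∑ y ∈ A, ∫ ω, (e ω * (ae k x ω * ae k y ω)) *
        (φ (gpos S m ω k x) * φ (gpos S m ω k y)) ∂μ := by
    intro k φ hφ
    have h1 : ∀ ω, e ω * (gw c S m A k true φ ω + gw c S m A k false φ ω) ^ 2 =
        ∑ x ∈ A, ∑ y ∈ A, (e ω * (ae k x ω * ae k y ω)) *
        (φ (gpos S m ω k x) * φ (gpos S m ω k y)) := by
      intro ω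
      rw [hsum, sq, Finset.sum_mul_sum, Finset.mul_sum]
      refine Finset.sum_congr rfl fun x _ => ?_
      rw [Finset.mul_sum]
      refine Finset.sum_congr rfl fun y _ => ?_
      ring
    simp_rw [h1]
    rw [integral_finsetSum _ fun x _ => integrable_finsetSum _ fun y _ => I2 k φ hφ k x y]
    refine Finset.sum_congr rfl fun x _ => ?_
    rw [integral_finsetSum _ fun y _ => I2 k φ hφ k x y]
  have hlin : ∫ ω, e ω * (gw c S m A j true H ω + gw c S m A j false H ω) ∂μ =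
      ∑ x ∈ A, ∫ ω, (e ω * ae j x ω) * H (gpos S m ω j x) ∂μ := by
    have h1 : ∀ ω, e ω * (gw c S m A j true H ω + gw c S m A j false H ω) =
        ∑ x ∈ A, (e ω * ae j x ω) * H (gpos S m ω j x) := by
      intro ω
      rw [hsum, Finset.mul_sum]
      refine Finset.sum_congr rfl fun x _ => ?_
      ring
    simp_rw [h1]
    rw [integral_finsetSum _ fun x _ => I1 j H hH1 j x]
  have gwm : ∀ (k : ℕ) (b : Bool) (φ : Site d → ℝ), Measurable (gw c S m A k b φ) := by
    intro k b φ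
    have : gw c S m A k b φ = fun ω => ∑ x ∈ A, al c S m A k b x ω * φ (gpos S m ω k x) := by
      funext ω; exact gw_eq _ _ _ _ _ _ _ _
    rw [this]
    exact Finset.measurable_sum _ fun x _ => (meas_al' hS m A k b x).mul (meas_phipos hS m k x φ)
  have J1 : Integrable (fun ω => e ω * (gw c S m A j true H ω + gw c S m A j false H ω)) μ := by
    have h1 : (fun ω => e ω * (gw c S m A j true H ω + gw c S m A j false H ω)) =
        fun ω => ∑ x ∈ A, (e ω * ae j x ω) * H (gpos S m ω j x) := by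
      funext ω
      rw [hsum, Finset.mul_sum]
      refine Finset.sum_congr rfl fun x _ => ?_
      ring
    rw [h1]
    exact integrable_finsetSum _ fun x _ => I1 j H hH1 j x
  have J2 : Integrable (fun ω => e ω * (gw c S m A j true H ω + gw c S m A j false H ω) ^ 2) μ := by
    have h1 : (fun ω => e ω * (gw c S m A j true H ω + gw c S m A j false H ω) ^ 2) =
        fun ω => ∑ x ∈ A, ∑ y ∈ A, (e ω * (ae j x ω * ae j y ω)) *
        (H (gpos S m ω j x) * H (gpos S m ω j y)) := by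
      funext ω
      rw [hsum, sq, Finset.sum_mul_sum, Finset.mul_sum]
      refine Finset.sum_congr rfl fun x _ => ?_
      rw [Finset.mul_sum]
      refine Finset.sum_congr rfl fun y _ => ?_
      ring
    rw [h1]
    exact integrable_finsetSum _ fun x _ => integrable_finsetSum _ fun y _ => I2 j H hH1 j x y
  have hR : ∫ ω, e ω * ((gw c S m A j true H ω + gw c S m A j false H ω) +
      (gw c S m A j true H ω + gw c S m A j false H ω) ^ 2) ∂μ =
      (∑ x ∈ A, ∫ ω, (e ω * ae j x ω) * H (gpos S m ω j x) ∂μ) +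
      ∑ x ∈ A, ∑ y ∈ A, ∫ ω, (e ω * (ae j x ω * ae j y ω)) *
        (H (gpos S m ω j x) * H (gpos S m ω j y)) ∂μ := by
    simp_rw [mul_add]
    rw [← hlin, ← hsq j H hH1]
    rw [← integral_add J1 J2]
    refine integral_congr_ae (Filter.Eventually.of_forall fun ω => ?_)
    show _ = e ω * (gw c S m A j true H ω + gw c S m A j false H ω) +
      e ω * (gw c S m A j true H ω + gw c S m A j false H ω) ^ 2
    ring
  rw [hR, hsq i (ind w) hind, ← Finset.sum_add_distrib]
  refine Finset.sum_le_sum fun x hx => ?_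
  have key : ∀ y, (∫ ω, (e ω * (ae i x ω * ae i y ω)) *
        (ind w (gpos S m ω i x) * ind w (gpos S m ω i y)) ∂μ) ≤
      (if y = x then ∫ ω, (e ω * ae j x ω) * H (gpos S m ω j x) ∂μ else 0) +
      ∫ ω, (e ω * (ae j x ω * ae j y ω)) *
        (H (gpos S m ω j x) * H (gpos S m ω j y)) ∂μ := by
    intro y
    by_cases hxy : y = x
    · subst hxy
      rw [if_pos rfl]
      have h3 : 0 ≤ ∫ ω, (e ω * (ae j y ω * ae j y ω)) *
        (H (gpos S m ω j y) * H (gpos S m ω j y)) ∂μ :=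
        integral_nonneg fun ω => mul_nonneg (mul_nonneg (he0 ω) (mul_nonneg (ha0 _ _ _)
          (ha0 _ _ _))) (mul_nonneg (hH0 _) (hH0 _))
      have hX : Measurable[hist c S Set.univ ((j : ℝ≥0) / 2 ^ m)] (fun ω => e ω * ae j y ω) :=
        Measurable.mul hem (ham y)
      have hXb : ∀ ω, |e ω * ae j y ω| ≤ 1 := fun ω => by
        rw [abs_of_nonneg (mul_nonneg (he0 ω) (ha0 _ _ _))]
        exact mul_le_one₀ (he1 ω) (ha0 _ _ _) (ha1 _ _ _)
      have h5 := mk1 hd hS m hji hX hXb y hind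
      rw [hPt] at h5
      have h4 : (∫ ω, (e ω * (ae i y ω * ae i y ω)) *
          (ind w (gpos S m ω i y) * ind w (gpos S m ω i y)) ∂μ) ≤
          ∫ ω, (e ω * ae j y ω) * ind w (gpos S m ω i y) ∂μ := by
        refine integral_mono (I2 i (ind w) hind i y y) (I1 i (ind w) hind j y) fun ω => ?_
        show (e ω * (ae i y ω * ae i y ω)) * (ind w (gpos S m ω i y) * ind w (gpos S m ω i y)) ≤ _
        rw [hind1]
        refine mul_le_mul_of_nonneg_right (mul_le_mul_of_nonneg_left ?_ (he0 ω)) (hind0 _)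
        calc ae i y ω * ae i y ω ≤ ae i y ω * 1 := mul_le_mul_of_nonneg_left (ha1 _ _ _) (ha0 _ _ _)
          _ = ae i y ω := mul_one _
          _ ≤ _ := haa y ω
      rw [h5] at h4
      exact h4.trans (le_add_of_nonneg_right h3)
    · rw [if_neg hxy, zero_add]
      have hxy' : x ≠ y := fun h => hxy h.symm
      have hX : Measurable[hist c S Set.univ ((j : ℝ≥0) / 2 ^ m)]
          (fun ω => e ω * (ae j x ω * ae j y ω)) :=
        Measurable.mul hem (Measurable.mul (ham x) (ham y))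
      have hXb : ∀ ω, |e ω * (ae j x ω * ae j y ω)| ≤ 1 := fun ω => by
        rw [abs_of_nonneg (mul_nonneg (he0 ω) (mul_nonneg (ha0 _ _ _) (ha0 _ _ _)))]
        exact mul_le_one₀ (he1 ω) (mul_nonneg (ha0 _ _ _) (ha0 _ _ _))
          (mul_le_one₀ (ha1 _ _ _) (ha0 _ _ _) (ha1 _ _ _))
      have h5 := mk2 hd hS m hji hji hX hXb hxy' hind hind
      rw [hPt] at h5
      rw [← h5]
      refine integral_mono (I2 i (ind w) hind i x y) (I2 i (ind w) hind j x y) fun ω => ?_
      exact mul_le_mul_of_nonneg_right (mul_le_mul_of_nonneg_left (mul_le_mul (haa x ω)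
        (haa y ω) (ha0 _ _ _) (ha0 _ _ _)) (he0 ω)) (mul_nonneg (hind0 _) (hind0 _))
  refine (Finset.sum_le_sum fun y _ => key y).trans ?_
  rw [Finset.sum_add_distrib, Finset.sum_ite_eq' A x, if_pos hx]


namespace PkgPR

omit [IsProbabilityMeasure μ] in
lemma gpos_zero (hS : Setup μ p c S) (m : ℕ) (ω : Ω) (x : Site d) : gpos S m ω 0 x = x := by
  unfold gpos posn
  have h : ((0 : ℕ) : ℝ≥0) / 2 ^ m = 0 := by simp
  rw [h, (hS.walk x).zero ω, add_zero]

omit [IsProbabilityMeasure μ] in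
lemma gw_zero_le (hd : 0 < d) (hS : Setup μ p c S) (m : ℕ) (A : Finset (Site d)) (b : Bool)
    {t : ℝ} (ht : 0 ≤ t) (u : Site d) (ω : Ω) :
    gw c S m A 0 b (fun z => heat d t (u - z)) ω ≤ 1 := by
  rw [gw_eq]
  have h1 : ∑ x ∈ A, al c S m A 0 b x ω * heat d t (u - gpos S m ω 0 x) ≤
      ∑ x ∈ A, heat d t (u - x) := by
    refine Finset.sum_le_sum fun x _ => ?_
    rw [gpos_zero hS]
    calc _ ≤ 1 * heat d t (u - x) :=
          mul_le_mul_of_nonneg_right (al_le_one _ _ _ _ _ _ _ _) (heat_nonneg ht _)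
      _ = _ := one_mul _
  refine h1.trans ?_
  have h2 : HasSum (fun x => heat d t (u - x)) 1 :=
    (Equiv.subLeft u).hasSum_iff.2 (heat_hasSum hd ht)
  exact sum_le_hasSum A (fun x _ => heat_nonneg ht _) h2

end PkgPR

theorem pair_le_one (hd : 0 < d) (hS : Setup μ p c S) (m : ℕ) (A : Finset (Site d)) (i : ℕ)
    (u v : Site d) :
    ∫ ω, gw c S m A i true (ind u) ω * gw c S m A i false (ind v) ω ∂μ ≤ 1 := by
  have hind : ∀ w z : Site d, |ind w z| ≤ 1 := fun w z => by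
    unfold ind; split_ifs <;> norm_num
  have hind0 : ∀ w z : Site d, 0 ≤ ind w z := fun w z => by
    unfold ind; split_ifs <;> norm_num
  have ht : 0 ≤ ((i : ℝ) - (0 : ℕ)) / 2 ^ m := by
    rw [Nat.cast_zero, sub_zero]; positivity
  have hPt : ∀ w : Site d, Pt (((i : ℝ) - (0 : ℕ)) / 2 ^ m) (ind w) =
      fun z => heat d (((i : ℝ) - (0 : ℕ)) / 2 ^ m) (w - z) := by
    intro w; funext z; exact Pt_single _ w z
  refine (pair_rb hd hS m A (Nat.zero_le i) (hind u) (hind v) (hind0 u) (hind0 v)).trans ?_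
  rw [hPt, hPt]
  set t := ((i : ℝ) - (0 : ℕ)) / 2 ^ m
  have hn : ∀ (b : Bool) (w : Site d) (ω : Ω), 0 ≤ gw c S m A 0 b (fun z => heat d t (w - z)) ω := by
    intro b w ω
    rw [gw_eq]
    exact Finset.sum_nonneg fun x _ => mul_nonneg (al_nonneg _ _ _ _ _ _ _ _) (heat_nonneg ht _)
  have h1 : ∀ ω, gw c S m A 0 true (fun z => heat d t (u - z)) ω *
      gw c S m A 0 false (fun z => heat d t (v - z)) ω ≤ 1 := fun ω =>
    mul_le_one₀ (gw_zero_le hd hS m A true ht u ω) (hn _ _ _) (gw_zero_le hd hS m A false ht v ω)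
  calc _ ≤ ∫ _ω, (1 : ℝ) ∂μ := by
        refine integral_mono_of_nonneg (Filter.Eventually.of_forall fun ω =>
          mul_nonneg (hn _ _ _) (hn _ _ _)) (integrable_const _) (Filter.Eventually.of_forall h1)
    _ = 1 := by simp

namespace PkgPR

omit mΩ in
lemma gw_ne (c : Site d → Ω → Bool) (S : Site d → ℝ≥0 → Ω → Site d) (m : ℕ)
    (A : Finset (Site d)) (i : ℕ) (b : Bool) (u : Site d) (ω : Ω)
    (h : gw c S m A i b (ind u) ω ≠ 0) :
    ∃ x, x ∈ ga c S m A i ω ∧ c x ω = b ∧ gpos S m ω i x = u := by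
  rw [gw_eq] at h
  obtain ⟨x, hx, hx2⟩ := Finset.exists_ne_zero_of_sum_ne_zero h
  have h1 := left_ne_zero_of_mul hx2
  have h2 := right_ne_zero_of_mul hx2
  unfold al at h1
  unfold ind at h2
  have h3 : x ∈ ga c S m A i ω ∧ c x ω = b := by
    by_contra h4
    exact h1 (if_neg h4)
  have h4 : gpos S m ω i x = u := by
    by_contra h5
    exact h2 (if_neg h5)
  exact ⟨x, h3.1, h3.2, h4⟩

omit [IsProbabilityMeasure μ] in
lemma gw_sep (hS : Setup μ p c S) (m : ℕ) (A : Finset (Site d)) (i : ℕ) (u : Site d) (ω : Ω) :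
    gw c S m A i true (ind u) ω * gw c S m A i false (ind u) ω = 0 := by
  by_contra h
  obtain ⟨x, hx1, hx2, hx3⟩ := gw_ne c S m A i true u ω (left_ne_zero_of_mul h)
  obtain ⟨y, hy1, hy2, hy3⟩ := gw_ne c S m A i false u ω (right_ne_zero_of_mul h)
  cases i with
  | zero =>
    rw [gpos_zero hS] at hx3 hy3
    rw [hx3] at hx2
    rw [hy3, hx2] at hy2
    exact Bool.noConfusion hy2
  | succ i =>
    have h1 := kill_sep (c := fun x => c x ω) (pos := gpos S m ω (i + 1))
      (X := ga c S m A i ω) hx1 hy1 (hx3.trans hy3.symm)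
    rw [hx2, hy2] at h1
    exact Bool.noConfusion h1

omit mΩ in
lemma gw_hasSum (c : Site d → Ω → Bool) (S : Site d → ℝ≥0 → Ω → Site d) (m : ℕ)
    (A : Finset (Site d)) (i : ℕ) (b : Bool) (φ : Site d → ℝ) (ω : Ω) :
    HasSum (fun q => φ q * gw c S m A i b (ind q) ω) (gw c S m A i b φ ω) := by
  rw [gw_eq]
  have h1 : ∀ q, φ q * gw c S m A i b (ind q) ω =
      ∑ x ∈ A, al c S m A i b x ω * (φ q * ind q (gpos S m ω i x)) := by
    intro q
    rw [gw_eq, Finset.mul_sum]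
    exact Finset.sum_congr rfl fun x _ => by ring
  simp_rw [h1]
  refine hasSum_sum fun x _ => HasSum.mul_left _ ?_
  have h2 := hasSum_single (f := fun q => φ q * ind q (gpos S m ω i x)) (gpos S m ω i x) (by
    intro q hq
    unfold ind
    rw [if_neg (fun h => hq h.symm), mul_zero])
  have h3 : φ (gpos S m ω i x) * ind (gpos S m ω i x) (gpos S m ω i x) = φ (gpos S m ω i x) := by
    unfold ind
    rw [if_pos rfl, mul_one]
  rw [h3] at h2
  exact h2

omit mΩ in
lemma gw_bd (c : Site d → Ω → Bool) (S : Site d → ℝ≥0 → Ω → Site d) (m : ℕ)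
    (A : Finset (Site d)) (i : ℕ) (b : Bool) (q : Site d) (ω : Ω) :
    0 ≤ gw c S m A i b (ind q) ω ∧ gw c S m A i b (ind q) ω ≤ A.card := by
  rw [gw_eq]
  have h0 : ∀ z, 0 ≤ ind q z := fun z => by unfold ind; split_ifs <;> norm_num
  have h1 : ∀ z, ind q z ≤ 1 := fun z => by unfold ind; split_ifs <;> norm_num
  refine ⟨Finset.sum_nonneg fun x _ => mul_nonneg (al_nonneg _ _ _ _ _ _ _ _) (h0 _), ?_⟩
  calc _ ≤ ∑ x ∈ A, (1 : ℝ) := Finset.sum_le_sum fun x _ =>
        mul_le_one₀ (al_le_one _ _ _ _ _ _ _ _) (h0 _) (h1 _)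
    _ = _ := by simp

lemma meas_gw' (hS : Setup μ p c S) (m : ℕ) (A : Finset (Site d)) (i : ℕ) (b : Bool)
    (φ : Site d → ℝ) : Measurable (gw c S m A i b φ) := by
  have : gw c S m A i b φ = fun ω => ∑ x ∈ A, al c S m A i b x ω * φ (gpos S m ω i x) := by
    funext ω; exact gw_eq _ _ _ _ _ _ _ _
  rw [this]
  exact Finset.measurable_sum _ fun x _ => (meas_al' hS m A i b x).mul (meas_phipos hS m i x φ)

lemma prod_expand (hd : 0 < d) (hS : Setup μ p c S) (m : ℕ) (A : Finset (Site d)) (i : ℕ)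
    {t : ℝ} (ht : 0 ≤ t) (w : Site d) :
    ∫ ω, gw c S m A i true (fun z => heat d t (w - z)) ω *
      gw c S m A i false (fun z => heat d t (w - z)) ω ∂μ =
    ∑' q : Site d × Site d, if q.1 = q.2 then 0 else
        heat d t (w - q.1) * heat d t (w - q.2) *
          ∫ ω, gw c S m A i true (ind q.1) ω * gw c S m A i false (ind q.2) ω ∂μ := by
  set H : Site d → ℝ := fun z => heat d t (w - z) with hH
  have hH0 : ∀ z, 0 ≤ H z := fun z => heat_nonneg ht _
  have hHs : Summable H := ((Equiv.subLeft w).hasSum_iff.2 (heat_hasSum hd ht)).summable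
  let G : Site d × Site d → Ω → ℝ := fun q ω =>
    (H q.1 * gw c S m A i true (ind q.1) ω) * (H q.2 * gw c S m A i false (ind q.2) ω)
  have hG0 : ∀ q ω, 0 ≤ G q ω := fun q ω =>
    mul_nonneg (mul_nonneg (hH0 _) (gw_bd c S m A i true q.1 ω).1)
      (mul_nonneg (hH0 _) (gw_bd c S m A i false q.2 ω).1)
  have hG1 : ∀ q ω, G q ω ≤ H q.1 * H q.2 * (A.card * A.card) := fun q ω => by
    have h1 := gw_bd c S m A i true q.1 ω
    have h2 := gw_bd c S m A i false q.2 ω
    calc G q ω = H q.1 * H q.2 * (gw c S m A i true (ind q.1) ω * gw c S m A i false (ind q.2) ω) := by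
          show (H q.1 * _) * (H q.2 * _) = _
          ring
      _ ≤ _ := mul_le_mul_of_nonneg_left (mul_le_mul h1.2 h2.2 h2.1 (by positivity))
          (mul_nonneg (hH0 _) (hH0 _))
  have hGs : ∀ ω, HasSum (fun q => G q ω)
      (gw c S m A i true H ω * gw c S m A i false H ω) := by
    intro ω
    have h1 := gw_hasSum c S m A i true H ω
    have h2 := gw_hasSum c S m A i false H ω
    exact h1.mul h2 (h1.summable.mul_of_nonneg h2.summable
      (fun q => mul_nonneg (hH0 _) (gw_bd c S m A i true q ω).1)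
      (fun q => mul_nonneg (hH0 _) (gw_bd c S m A i false q ω).1))
  have hGm : ∀ q, Measurable (G q) := fun q =>
    ((meas_gw' hS m A i true (ind q.1)).const_mul _).mul
      ((meas_gw' hS m A i false (ind q.2)).const_mul _)
  have hGi : ∀ q, Integrable (G q) μ := fun q =>
    intb (hGm q) (C := H q.1 * H q.2 * (A.card * A.card)) fun ω => by
      rw [abs_of_nonneg (hG0 q ω)]; exact hG1 q ω
  have hHH : Summable (fun q : Site d × Site d => H q.1 * H q.2) :=
    hHs.mul_of_nonneg hHs hH0 hH0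
  have hsumn : Summable fun q => ∫ ω, ‖G q ω‖ ∂μ := by
    refine Summable.of_nonneg_of_le (fun q => integral_nonneg fun ω => norm_nonneg _) (fun q => ?_)
      (hHH.mul_right ((A.card : ℝ) * A.card))
    calc ∫ ω, ‖G q ω‖ ∂μ ≤ ∫ _ω, H q.1 * H q.2 * (A.card * A.card) ∂μ := by
          refine integral_mono (hGi q).norm (integrable_const _) fun ω => ?_
          rw [Real.norm_eq_abs, abs_of_nonneg (hG0 q ω)]
          exact hG1 q ω
      _ = _ := by simp
  have h1 := hasSum_integral_of_summable_integral_norm hGi hsumn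
  have h2 : ∀ ω, ∑' q, G q ω = gw c S m A i true H ω * gw c S m A i false H ω := fun ω =>
    (hGs ω).tsum_eq
  simp_rw [h2] at h1
  rw [← h1.tsum_eq]
  refine tsum_congr fun q => ?_
  have h3 : ∀ ω, G q ω = H q.1 * H q.2 *
      (gw c S m A i true (ind q.1) ω * gw c S m A i false (ind q.2) ω) := fun ω => by
    show (H q.1 * _) * (H q.2 * _) = _
    ring
  simp_rw [h3]
  rw [integral_const_mul]
  split_ifs with h4
  · rw [h4]
    simp_rw [gw_sep hS]
    simp
  · rfl

end PkgPR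

/-- PR3. The loss at `w` in step `i + 1` (uses `kill_lost`). -/
theorem loss (hd : 0 < d) (hS : Setup μ p c S) (m : ℕ) (A : Finset (Site d)) (i : ℕ) (b : Bool)
    (w : Site d) :
    ∫ ω, gw c S m A i b (fun z => heat d (1 / 2 ^ m) (w - z)) ω ∂μ ≤
      ∫ ω, gw c S m A (i + 1) b (ind w) ω ∂μ +
      ∑' q : Site d × Site d, if q.1 = q.2 then 0 else
        heat d (1 / 2 ^ m) (w - q.1) * heat d (1 / 2 ^ m) (w - q.2) *
          ∫ ω, gw c S m A i true (ind q.1) ω * gw c S m A i false (ind q.2) ω ∂μ := by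
  classical
  have ht : (0 : ℝ) ≤ 1 / 2 ^ m := by positivity
  have ht1 : (((i + 1 : ℕ) : ℝ) - i) / 2 ^ m = 1 / 2 ^ m := by push_cast; ring
  have hind : ∀ z : Site d, |ind w z| ≤ 1 := fun z => by
    unfold ind; split_ifs <;> norm_num
  have hind0 : ∀ z : Site d, 0 ≤ ind w z := fun z => by
    unfold ind; split_ifs <;> norm_num
  have hPt : Pt ((((i + 1 : ℕ) : ℝ) - i) / 2 ^ m) (ind w) =
      fun z => heat d (1 / 2 ^ m) (w - z) := by
    rw [ht1]; funext z; exact Pt_single _ w z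
  rw [← prod_expand hd hS m A i ht w]
  set H : Site d → ℝ := fun z => heat d (1 / 2 ^ m) (w - z) with hH
  have hH1 : ∀ z, |H z| ≤ 1 := fun z => by
    rw [abs_of_nonneg (heat_nonneg ht _)]; exact heat_le_one hd ht _
  -- the number of particles of colour `b` alive at step `i` arriving at `w`
  let N : Bool → Ω → ℝ := fun b ω => ∑ x ∈ A, al c S m A i b x ω * ind w (gpos S m ω (i + 1) x)
  have hNc : ∀ b ω, cnt (fun x => c x ω) (gpos S m ω (i + 1)) (ga c S m A i ω) b w = N b ω := by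
    intro b ω
    rw [← wt_ind, wt_eq]
  have hI : ∀ b x, Integrable (fun ω => al c S m A i b x ω * ind w (gpos S m ω (i + 1) x)) μ := by
    intro b x
    refine intb ((meas_al' hS m A i b x).mul (meas_phipos hS m (i + 1) x _)) (C := 1) fun ω => ?_
    rw [abs_mul, abs_of_nonneg (al_nonneg _ _ _ _ _ _ _ _)]
    exact mul_le_one₀ (al_le_one _ _ _ _ _ _ _ _) (abs_nonneg _) (hind _)
  have hI' : ∀ b x, Integrable (fun ω => al c S m A i b x ω * H (gpos S m ω i x)) μ := by
    intro b x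
    refine intb ((meas_al' hS m A i b x).mul (meas_phipos hS m i x _)) (C := 1) fun ω => ?_
    rw [abs_mul, abs_of_nonneg (al_nonneg _ _ _ _ _ _ _ _)]
    exact mul_le_one₀ (al_le_one _ _ _ _ _ _ _ _) (abs_nonneg _) (hH1 _)
  have hXb : ∀ b x ω, |al c S m A i b x ω| ≤ 1 := fun b x ω => by
    rw [abs_of_nonneg (al_nonneg _ _ _ _ _ _ _ _)]; exact al_le_one _ _ _ _ _ _ _ _
  have hN1 : ∫ ω, N b ω ∂μ = ∫ ω, gw c S m A i b H ω ∂μ := by
    simp_rw [gw_eq]
    rw [integral_finsetSum _ fun x _ => hI b x, integral_finsetSum _ fun x _ => hI' b x]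
    refine Finset.sum_congr rfl fun x _ => ?_
    have h := mk1 hd hS m (Nat.le_succ i) (meas_al c S m A le_rfl b x) (hXb b x) x hind
    rw [hPt] at h
    exact h
  have hNm : ∀ b, Measurable (N b) := fun b =>
    Finset.measurable_sum _ fun x _ => (meas_al' hS m A i b x).mul (meas_phipos hS m (i + 1) x _)
  have hNb : ∀ b ω, 0 ≤ N b ω ∧ N b ω ≤ A.card := by
    intro b ω
    refine ⟨Finset.sum_nonneg fun x _ => mul_nonneg (al_nonneg _ _ _ _ _ _ _ _) (hind0 _), ?_⟩
    calc N b ω ≤ ∑ x ∈ A, (1 : ℝ) := Finset.sum_le_sum fun x _ =>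
          mul_le_one₀ (al_le_one _ _ _ _ _ _ _ _) (hind0 _) ((le_abs_self _).trans (hind _))
      _ = _ := by simp
  have hNN : Integrable (fun ω => N true ω * N false ω) μ := by
    refine intb ((hNm true).mul (hNm false)) (C := (A.card : ℝ) * A.card) fun ω => ?_
    rw [abs_of_nonneg (mul_nonneg (hNb true ω).1 (hNb false ω).1)]
    exact mul_le_mul (hNb true ω).2 (hNb false ω).2 (hNb false ω).1 (by positivity)
  have hN2 : ∫ ω, N true ω * N false ω ∂μ =
      ∫ ω, gw c S m A i true H ω * gw c S m A i false H ω ∂μ := by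
    rw [int_gw_mul hS m A i i true false hH1 hH1]
    have h1 : ∀ ω, N true ω * N false ω =
        ∑ x ∈ A, ∑ y ∈ A, (al c S m A i true x ω * al c S m A i false y ω) *
          (ind w (gpos S m ω (i + 1) x) * ind w (gpos S m ω (i + 1) y)) := by
      intro ω
      show (∑ x ∈ A, _) * (∑ x ∈ A, _) = _
      rw [Finset.sum_mul_sum]
      refine Finset.sum_congr rfl fun x _ => Finset.sum_congr rfl fun y _ => ?_
      ring
    have hI2 : ∀ x y, Integrable (fun ω => (al c S m A i true x ω * al c S m A i false y ω) *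
          (ind w (gpos S m ω (i + 1) x) * ind w (gpos S m ω (i + 1) y))) μ := fun x y =>
      intb (((meas_al' hS m A i true x).mul (meas_al' hS m A i false y)).mul
        ((meas_phipos hS m (i + 1) x _).mul (meas_phipos hS m (i + 1) y _)))
        (fun ω => term_bdd (al_nonneg _ _ _ _ _ _ _ _) (al_le_one _ _ _ _ _ _ _ _)
          (al_nonneg _ _ _ _ _ _ _ _) (al_le_one _ _ _ _ _ _ _ _) (hind _) (hind _))
    simp_rw [h1]
    rw [integral_finsetSum _ fun x _ => integrable_finsetSum _ fun y _ => hI2 x y]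
    refine Finset.sum_congr rfl fun x _ => ?_
    rw [integral_finsetSum _ fun y _ => hI2 x y]
    refine Finset.sum_congr rfl fun y _ => ?_
    by_cases hxy : x = y
    · subst hxy
      simp_rw [al_opp, zero_mul]
    · have hX : Measurable[hist c S Set.univ ((i : ℝ≥0) / 2 ^ m)]
          (fun ω => al c S m A i true x ω * al c S m A i false y ω) :=
        Measurable.mul (meas_al c S m A le_rfl true x) (meas_al c S m A le_rfl false y)
      have hXb' : ∀ ω, |al c S m A i true x ω * al c S m A i false y ω| ≤ 1 := fun ω => by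
        rw [abs_of_nonneg (mul_nonneg (al_nonneg _ _ _ _ _ _ _ _) (al_nonneg _ _ _ _ _ _ _ _))]
        exact mul_le_one₀ (al_le_one _ _ _ _ _ _ _ _) (al_nonneg _ _ _ _ _ _ _ _)
          (al_le_one _ _ _ _ _ _ _ _)
      have h := mk2 hd hS m (Nat.le_succ i) (Nat.le_succ i) hX hXb' hxy hind hind
      rw [hPt] at h
      exact h
  rw [← hN1, ← hN2]
  have hg : Integrable (gw c S m A (i + 1) b (ind w)) μ := by
    refine intb (meas_gw' hS m A (i + 1) b _) (C := (A.card : ℝ)) fun ω => ?_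
    have h := gw_bd c S m A (i + 1) b w ω
    rw [abs_of_nonneg h.1]
    exact h.2
  rw [← integral_add hg hNN]
  refine integral_mono (integrable_finsetSum _ fun x _ => hI b x) (hg.add hNN) fun ω => ?_
  have h := kill_lost (fun x => c x ω) (gpos S m ω (i + 1)) (ga c S m A i ω) b w
  rw [hNc, hNc, hNc] at h
  have h2 : cnt (fun x => c x ω) (gpos S m ω (i + 1))
      (kill (fun x => c x ω) (gpos S m ω (i + 1)) (ga c S m A i ω)) b w =
      gw c S m A (i + 1) b (ind w) ω := by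
    rw [← wt_ind]
    rfl
  rw [h2] at h
  exact h

end Pool.Agent.T2H99.AW
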