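import Pool.Agent.T2H99.AW.LN

set_option autoImplicit false

/-!
# AW, package TI: translation invariance (uses MK, G: `gAlive_shift`, `gAlive_congr`)

The families `(c (x + v), S (x + v))_x` and `(c x, S x)_x` have the same law (independent, same marginals:
`cprob`, `incr`, `indep`) at the grid times; the events are decided by finitely many labels and grid times.
-/

namespace Pool.Agent.T2H99.AW

open Finset Filter Topology MeasureTheory ProbabilityTheory
open scoped NNReal ENNReal BigOperators

variable {d : ℕ} {Ω : Type} [mΩ : MeasurableSpace Ω] {μ : Measure Ω} [IsProbabilityMeasure μ]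
  {p : ℝ} {c : Site d → Ω → Bool} {S : Site d → ℝ≥0 → Ω → Site d}

namespace TIaux

/-- the grid times -/
noncomputable def tm (m : ℕ) (j : ℕ) : ℝ≥0 := (j : ℝ≥0) / 2 ^ m

theorem tm_mono (m : ℕ) {i j : ℕ} (h : i ≤ j) : tm m i ≤ tm m j := by
  unfold tm
  gcongr

/-- Two walks have the same law along the grid. -/
theorem path_law {W W' : ℝ≥0 → Ω → Site d} (hW : IsWalk μ W) (hW' : IsWalk μ W') (m : ℕ)
    (a : ℕ → Site d) (n : ℕ) :
    μ {ω | ∀ j ≤ n, W (tm m j) ω = a j} = μ {ω | ∀ j ≤ n, W' (tm m j) ω = a j} := by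
  induction n with
  | zero =>
    have h : ∀ {W : ℝ≥0 → Ω → Site d}, IsWalk μ W →
        {ω | ∀ j ≤ 0, W (tm m j) ω = a j} = {_ω : Ω | (0 : Site d) = a 0} := by
      intro W hW
      ext ω
      simp only [Set.mem_ofPred_eq, Nat.le_zero, forall_eq]
      have : tm m 0 = 0 := by unfold tm; simp
      rw [this, hW.zero]
    rw [h hW, h hW']
  | succ n ih =>
    have h : ∀ {W : ℝ≥0 → Ω → Site d}, IsWalk μ W →
        μ {ω | ∀ j ≤ n + 1, W (tm m j) ω = a j} =
          μ {ω | ∀ j ≤ n, W (tm m j) ω = a j} *
            ENNReal.ofReal (heat d (tm m (n + 1) - tm m n) (a (n + 1) - a n)) := by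
      intro W hW
      have hle : tm m n ≤ tm m (n + 1) := tm_mono m (Nat.le_succ n)
      have e1 : {ω | ∀ j ≤ n + 1, W (tm m j) ω = a j} =
          {ω | ∀ j ≤ n, W (tm m j) ω = a j} ∩
            {ω | W (tm m (n + 1)) ω - W (tm m n) ω = a (n + 1) - a n} := by
        ext ω
        simp only [Set.mem_ofPred_eq, Set.mem_inter_iff]
        constructor
        · intro h
          exact ⟨fun j hj => h j (by omega), by rw [h (n + 1) le_rfl, h n (by omega)]⟩
        · rintro ⟨h1, h2⟩ j hj
          rcases Nat.lt_or_ge j (n + 1) with h3 | h3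
          · exact h1 j (by omega)
          · obtain rfl : j = n + 1 := by omega
            rw [h1 n le_rfl] at h2
            exact sub_left_injective h2
      have hm1 : MeasurableSet[⨆ u : Set.Iic (tm m n), MeasurableSpace.comap (W u) inferInstance]
          {ω | ∀ j ≤ n, W (tm m j) ω = a j} := by
        have e2 : {ω | ∀ j ≤ n, W (tm m j) ω = a j} =
            ⋂ j : Fin (n + 1), (W (tm m j)) ⁻¹' {a j} := by
          ext ω
          simp only [Set.mem_ofPred_eq, Set.mem_iInter, Set.mem_preimage, Set.mem_singleton_iff]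
          constructor
          · intro h j
            exact h j (by omega)
          · intro h j hj
            exact h ⟨j, by omega⟩
        rw [e2]
        refine MeasurableSet.iInter fun j => ?_
        have hj : tm m j ≤ tm m n := tm_mono m (by omega)
        exact (le_iSup (fun u : Set.Iic (tm m n) => MeasurableSpace.comap (W u) inferInstance)
          ⟨tm m j, hj⟩) _ ⟨{a j}, MeasurableSet.singleton _, rfl⟩
      have hm2 : MeasurableSet[MeasurableSpace.comap
          (fun ω => W (tm m (n + 1)) ω - W (tm m n) ω) inferInstance]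
          {ω | W (tm m (n + 1)) ω - W (tm m n) ω = a (n + 1) - a n} :=
        ⟨{a (n + 1) - a n}, MeasurableSet.singleton _, rfl⟩
      rw [e1, (Indep_iff _ _ _).1 (hW.indep _ _ hle) _ _ hm1 hm2, hW.incr _ _ hle]
    rw [h hW, h hW', ih]

/-- the law of the data of one label -/
theorem lab_law (hS : Setup μ p c S) (m n : ℕ) (a : ℕ → Site d) (b : Bool) (y y' : Site d) :
    μ {ω | c y ω = b ∧ ∀ j ≤ n, S y (tm m j) ω = a j} =
      μ {ω | c y' ω = b ∧ ∀ j ≤ n, S y' (tm m j) ω = a j} := by
  have hc : ∀ y : Site d, μ {ω | c y ω = true} = ENNReal.ofReal p := hS.cprob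
  have hc' : μ {ω | c y ω = b} = μ {ω | c y' ω = b} := by
    cases b
    · have h : ∀ y : Site d, μ {ω | c y ω = false} = 1 - ENNReal.ofReal p := by
        intro y
        have e : {ω | c y ω = false} = {ω | c y ω = true}ᶜ := by
          ext ω
          simp
        have hmt : MeasurableSet {ω | c y ω = true} := (hS.cmeas y) (MeasurableSet.singleton true)
        rw [e, prob_compl_eq_one_sub hmt, hc]
      rw [h, h]
    · rw [hc, hc]
  have h : ∀ y : Site d, μ {ω | c y ω = b ∧ ∀ j ≤ n, S y (tm m j) ω = a j} =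
      μ {ω | c y ω = b} * μ {ω | ∀ j ≤ n, S y (tm m j) ω = a j} := by
    intro y
    have hne : (Sum.inl y : Site d ⊕ Site d) ≠ Sum.inr y := by simp
    have hi := hS.indep.indep hne
    have hm1 : MeasurableSet[MeasurableSpace.comap (c y) inferInstance] {ω | c y ω = b} :=
      ⟨{b}, MeasurableSet.singleton _, rfl⟩
    have hm2 : MeasurableSet[⨆ t : ℝ≥0, MeasurableSpace.comap (S y t) inferInstance]
        {ω | ∀ j ≤ n, S y (tm m j) ω = a j} := by
      have e2 : {ω | ∀ j ≤ n, S y (tm m j) ω = a j} =
          ⋂ j : Fin (n + 1), (S y (tm m j)) ⁻¹' {a j} := by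
        ext ω
        simp only [Set.mem_ofPred_eq, Set.mem_iInter, Set.mem_preimage, Set.mem_singleton_iff]
        constructor
        · intro h j
          exact h j (by omega)
        · intro h j hj
          exact h ⟨j, by omega⟩
      rw [e2]
      refine MeasurableSet.iInter fun j => ?_
      exact (le_iSup (fun t : ℝ≥0 => MeasurableSpace.comap (S y t) inferInstance) (tm m j)) _
        ⟨{a j}, MeasurableSet.singleton _, rfl⟩
    exact (Indep_iff _ _ _).1 hi _ _ hm1 hm2
  rw [h, h, hc', path_law (hS.walk y) (hS.walk y') m a n]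

/-- the data of one label: colour and positions at the grid times `≤ n` -/
abbrev Dat (d n : ℕ) : Type := Bool × (Fin (n + 1) → Site d)

/-- the data of the labels in `B`, shifted by `v` -/
noncomputable def dat (c : Site d → Ω → Bool) (S : Site d → ℝ≥0 → Ω → Site d) (m n : ℕ)
    (B : Finset (Site d)) (v : Site d) (ω : Ω) : B → Dat d n :=
  fun y => (c (y + v) ω, fun j => S (y + v) (tm m j) ω)

theorem dat_meas (hS : Setup μ p c S) (m n : ℕ) (B : Finset (Site d)) (v : Site d) :
    Measurable (dat c S m n B v) := by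
  refine measurable_pi_lambda _ fun y => ?_
  refine (hS.cmeas _).prodMk ?_
  exact measurable_pi_lambda _ fun j => (hS.walk _).meas _

theorem dat_law (hS : Setup μ p c S) (m n : ℕ) (B : Finset (Site d)) (v : Site d) :
    μ.map (dat c S m n B v) = μ.map (dat c S m n B 0) := by
  have key : ∀ (v : Site d) (e : B → Dat d n), μ (dat c S m n B v ⁻¹' {e}) =
      ∏ y : B, μ {ω | c y ω = (e y).1 ∧ ∀ j ≤ n,
        S y (tm m j) ω = (e y).2 (if h : j < n + 1 then ⟨j, h⟩ else 0)} := by
    intro v e
    -- the shifted labels are independent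
    have hinj : Function.Injective fun y : B => (y : Site d) + v := by
      intro y y' h
      exact Subtype.ext (add_left_injective v h)
    have hi : iIndep (fun y : B => lab c S ((y : Site d) + v)) μ :=
      (lab_iIndep hS).precomp hinj
    have e1 : dat c S m n B v ⁻¹' {e} = ⋂ y ∈ (Finset.univ : Finset B),
        {ω | c ((y : Site d) + v) ω = (e y).1 ∧ ∀ j ≤ n,
          S ((y : Site d) + v) (tm m j) ω = (e y).2 (if h : j < n + 1 then ⟨j, h⟩ else 0)} := by
      ext ω
      simp only [Set.mem_preimage, Set.mem_singleton_iff, Finset.mem_univ, Set.iInter_true,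
        Set.mem_iInter, Set.mem_ofPred_eq]
      constructor
      · rintro rfl y
        refine ⟨rfl, fun j hj => ?_⟩
        have hj' : j < n + 1 := by omega
        simp only [dat, dif_pos hj']
      · intro h
        funext y
        obtain ⟨h1, h2⟩ := h y
        refine Prod.ext h1 (funext fun j => ?_)
        have := h2 j (by omega)
        rw [dif_pos j.2] at this
        exact this
    rw [e1, hi.meas_biInter (S := Finset.univ) (s := fun y : B => {ω | c ((y : Site d) + v) ω =
      (e y).1 ∧ ∀ j ≤ n, S ((y : Site d) + v) (tm m j) ω =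
        (e y).2 (if h : j < n + 1 then ⟨j, h⟩ else 0)}) ?_]
    · refine Finset.prod_congr rfl fun y _ => ?_
      exact lab_law hS m n (fun j => (e y).2 (if h : j < n + 1 then ⟨j, h⟩ else 0)) _ _ _
    · intro y _
      have e2 : {ω | c ((y : Site d) + v) ω = (e y).1 ∧ ∀ j ≤ n,
          S ((y : Site d) + v) (tm m j) ω = (e y).2 (if h : j < n + 1 then ⟨j, h⟩ else 0)} =
          (c ((y : Site d) + v)) ⁻¹' {(e y).1} ∩
            ⋂ j : Fin (n + 1), (S ((y : Site d) + v) (tm m j)) ⁻¹'
              {(e y).2 (if h : (j : ℕ) < n + 1 then ⟨j, h⟩ else 0)} := by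
        ext ω
        simp only [Set.mem_ofPred_eq, Set.mem_inter_iff, Set.mem_preimage, Set.mem_singleton_iff,
          Set.mem_iInter]
        refine and_congr Iff.rfl ⟨fun h j => h j (by omega), fun h j hj => h ⟨j, by omega⟩⟩
      rw [e2]
      refine MeasurableSet.inter ?_ (MeasurableSet.iInter fun j => ?_)
      · exact (le_sup_left : _ ≤ lab c S ((y : Site d) + v)) _
          ⟨{(e y).1}, MeasurableSet.singleton _, rfl⟩
      · exact (le_trans (le_iSup (fun u : ℝ≥0 => MeasurableSpace.comap (S ((y : Site d) + v) u)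
          inferInstance) (tm m j)) (le_sup_right : _ ≤ lab c S ((y : Site d) + v))) _
          ⟨{_}, MeasurableSet.singleton _, rfl⟩
  refine Measure.ext_of_singleton fun e => ?_
  rw [Measure.map_apply (dat_meas hS m n B v) (MeasurableSet.singleton e),
    Measure.map_apply (dat_meas hS m n B 0) (MeasurableSet.singleton e), key, key]

/-- colours from the data -/
def cE (B : Finset (Site d)) (n : ℕ) (e : B → Dat d n) (y : Site d) : Bool :=
  if h : y ∈ B then (e ⟨y, h⟩).1 else false

/-- positions from the data -/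
def pE (B : Finset (Site d)) (n : ℕ) (e : B → Dat d n) (j : ℕ) (y : Site d) : Site d :=
  if h : y ∈ B then (if h' : j < n + 1 then y + (e ⟨y, h⟩).2 ⟨j, h'⟩ else 0) else 0

/-- the event, in terms of the data -/
def ev (B A : Finset (Site d)) (n : ℕ) (b : Bool) (x z : Site d) : Set (B → Dat d n) :=
  {e | x ∈ gAlive (cE B n e) (pE B n e) A n ∧ cE B n e x = b ∧ pE B n e n x = z}

theorem ev_iff (c : Site d → Ω → Bool) (S : Site d → ℝ≥0 → Ω → Site d) (m : ℕ)
    (B A : Finset (Site d)) (hA : A ⊆ B) (n : ℕ) (b : Bool) (x z v : Site d) (hx : x ∈ B) (ω : Ω) :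
    (x + v ∈ ga c S m (A.image (· + v)) n ω ∧ c (x + v) ω = b ∧
        gpos S m ω n (x + v) = z + v) ↔ dat c S m n B v ω ∈ ev B A n b x z := by
  have hpos : ∀ j ≤ n, ∀ y ∈ B, gpos S m ω j (y + v) = pE B n (dat c S m n B v ω) j y + v := by
    intro j hj y hy
    have hj' : j < n + 1 := by omega
    unfold pE gpos posn
    rw [dif_pos hy, dif_pos hj']
    simp only [dat, tm]
    abel
  have hcol : ∀ y ∈ B, c (y + v) ω = cE B n (dat c S m n B v ω) y := by
    intro y hy
    unfold cE
    rw [dif_pos hy]
    rfl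
  have h1 : ga c S m (A.image (· + v)) n ω =
      (gAlive (cE B n (dat c S m n B v ω)) (pE B n (dat c S m n B v ω)) A n).image (· + v) := by
    unfold ga
    exact gAlive_shift v (fun y hy => hcol y (hA hy)) n (fun j hj y hy => hpos j hj y (hA hy))
  have h2 : x + v ∈ (gAlive (cE B n (dat c S m n B v ω)) (pE B n (dat c S m n B v ω)) A n).image
      (· + v) ↔ x ∈ gAlive (cE B n (dat c S m n B v ω)) (pE B n (dat c S m n B v ω)) A n := by
    rw [Finset.mem_image]
    constructor
    · rintro ⟨y, hy, h⟩
      rwa [add_left_injective v h] at hy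
    · intro h
      exact ⟨x, h, rfl⟩
  unfold ev
  rw [Set.mem_ofPred_eq, h1, h2, hcol x hx, hpos n le_rfl x hx]
  refine and_congr Iff.rfl (and_congr Iff.rfl ⟨fun h => add_left_injective v h, fun h => by rw [h]⟩)

theorem ev_set (c : Site d → Ω → Bool) (S : Site d → ℝ≥0 → Ω → Site d) (m : ℕ)
    (A : Finset (Site d)) (n : ℕ) (b : Bool) (x z v : Site d) :
    {ω | x + v ∈ ga c S m (A.image (· + v)) n ω ∧ c (x + v) ω = b ∧
        gpos S m ω n (x + v) = z + v} =
      dat c S m n (insert x A) v ⁻¹' ev (insert x A) A n b x z := by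
  ext ω
  exact ev_iff c S m (insert x A) A (Finset.subset_insert _ _) n b x z v
    (Finset.mem_insert_self _ _) ω

theorem ev_set0 (c : Site d → Ω → Bool) (S : Site d → ℝ≥0 → Ω → Site d) (m : ℕ)
    (A : Finset (Site d)) (n : ℕ) (b : Bool) (x z : Site d) :
    {ω | x ∈ ga c S m A n ω ∧ c x ω = b ∧ gpos S m ω n x = z} =
      dat c S m n (insert x A) 0 ⁻¹' ev (insert x A) A n b x z := by
  have := ev_set c S m A n b x z 0
  simpa using this

theorem ev_meas (hS : Setup μ p c S) (m : ℕ) (A : Finset (Site d)) (n : ℕ) (b : Bool)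
    (x z : Site d) :
    MeasurableSet {ω | x ∈ ga c S m A n ω ∧ c x ω = b ∧ gpos S m ω n x = z} := by
  rw [ev_set0]
  exact (dat_meas hS m n (insert x A) 0) (MeasurableSet.of_discrete)

end TIaux

open TIaux

/-- TI1. -/
theorem shift_event (hd : 0 < d) (hS : Setup μ p c S) (m : ℕ) (A : Finset (Site d)) (i : ℕ) (b : Bool)
    (x z v : Site d) :
    μ.real {ω | x + v ∈ ga c S m (A.image (· + v)) i ω ∧ c (x + v) ω = b ∧
        gpos S m ω i (x + v) = z + v} =
      μ.real {ω | x ∈ ga c S m A i ω ∧ c x ω = b ∧ gpos S m ω i x = z} := by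
  unfold Measure.real
  rw [ev_set, ev_set0,
    ← Measure.map_apply (dat_meas hS m i (insert x A) v) MeasurableSet.of_discrete,
    ← Measure.map_apply (dat_meas hS m i (insert x A) 0) MeasurableSet.of_discrete,
    dat_law hS m i (insert x A) v]

/-- TI2: `gw A (ind z)` is the sum over `x ∈ A` of the indicators of these events. -/
theorem gw_eq_sum (hd : 0 < d) (hS : Setup μ p c S) (m : ℕ) (A : Finset (Site d)) (i : ℕ) (b : Bool)
    (z : Site d) :
    ∫ ω, gw c S m A i b (ind z) ω ∂μ =
      ∑ x ∈ A, μ.real {ω | x ∈ ga c S m A i ω ∧ c x ω = b ∧ gpos S m ω i x = z} := by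
  have h : ∀ ω, gw c S m A i b (ind z) ω =
      ∑ x ∈ A, Set.indicator {ω | x ∈ ga c S m A i ω ∧ c x ω = b ∧ gpos S m ω i x = z}
        (fun _ => (1 : ℝ)) ω := by
    intro ω
    unfold gw wt
    have hsub : (ga c S m A i ω).filter (fun x => c x ω = b) ⊆ A :=
      (Finset.filter_subset _ _).trans (gAlive_subset _ _ _ _)
    rw [← Finset.sum_subset hsub]
    · refine Finset.sum_congr rfl fun x hx => ?_
      rw [Finset.mem_filter] at hx
      unfold ind
      by_cases hz : gpos S m ω i x = z
      · rw [if_pos hz, Set.indicator_of_mem]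
        exact ⟨hx.1, hx.2, hz⟩
      · rw [if_neg hz, Set.indicator_of_notMem]
        exact fun h => hz h.2.2
    · intro x _ hx
      rw [Set.indicator_of_notMem]
      exact fun h => hx (Finset.mem_filter.2 ⟨h.1, h.2.1⟩)
  simp only [h]
  rw [integral_finsetSum]
  · refine Finset.sum_congr rfl fun x _ => ?_
    rw [integral_indicator_const _ (ev_meas hS m A i b x z), smul_eq_mul, mul_one]
  · intro x _
    exact (integrable_const (1 : ℝ)).indicator (ev_meas hS m A i b x z)

/-- Translation invariance in mean: the families `(c (x + v), S (x + v))_x` and `(c x, S x)_x` have the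
same law (independent, with the same marginals) on the grid times, and `gAlive_shift`. -/
theorem gw_shift (hd : 0 < d) (hS : Setup μ p c S) (m : ℕ) (A : Finset (Site d)) (i : ℕ) (b : Bool)
    (z v : Site d) :
    ∫ ω, gw c S m (A.image (· + v)) i b (ind (z + v)) ω ∂μ = ∫ ω, gw c S m A i b (ind z) ω ∂μ := by
  rw [gw_eq_sum hd hS, gw_eq_sum hd hS, Finset.sum_image]
  · exact Finset.sum_congr rfl fun x _ => shift_event hd hS m A i b x z v
  · intro x _ y _ h
    exact add_left_injective v h

end Pool.Agent.T2H99.AW
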