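import Pool.Agent.T2H99.AW.VA
import Pool.Agent.T2H99.AW.TI
import Pool.Agent.T2H99.AW.PR

set_option autoImplicit false

/-!
# AW, package GD: the infinite grid system (uses TI, LN, HK2, G)

`gdens μ c S m b i` = limit along the net of finite label sets `A` of `E gw A i b (ind 0)`.
-/

namespace Pool.Agent.T2H99.AW

open Finset Filter Topology MeasureTheory ProbabilityTheory
open scoped NNReal ENNReal BigOperators

variable {d : ℕ} {Ω : Type} [mΩ : MeasurableSpace Ω] {μ : Measure Ω} [IsProbabilityMeasure μ]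
  {p : ℝ} {c : Site d → Ω → Bool} {S : Site d → ℝ≥0 → Ω → Site d}

/-! ### Tools -/

/-- The tail of a series. -/
private theorem tail_hasSum {h : Site d → ℝ} {s : ℝ} (hs : HasSum h s) (A : Finset (Site d)) :
    HasSum (fun y => if y ∈ A then 0 else h y) (s - ∑ y ∈ A, h y) := by
  classical
  have h1 : HasSum (fun y => if y ∈ A then h y else 0) (∑ y ∈ A, h y) := by
    have h2 : HasSum (fun y => if y ∈ A then h y else 0) (∑ y ∈ A, if y ∈ A then h y else 0) :=
      hasSum_sum_of_ne_finset_zero fun y hy => if_neg hy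
    rwa [Finset.sum_congr rfl (fun y hy => if_pos hy)] at h2
  refine (hs.sub h1).congr_fun fun y => ?_
  split_ifs <;> simp

private theorem heat_shift_hasSum (hd : 0 < d) {t : ℝ} (ht : 0 ≤ t) (z : Site d) :
    HasSum (fun y : Site d => heat d t (z - y)) 1 :=
  (Equiv.subLeft z).hasSum_iff.2 (heat_hasSum hd ht)

private theorem abs_ind (z w : Site d) : |ind z w| = ind z w := by
  unfold ind
  split_ifs <;> simp

private theorem ind_nonneg (z w : Site d) : 0 ≤ ind z w := by
  unfold ind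
  split_ifs <;> simp

private theorem abs_ind_le (z w : Site d) : |ind z w| ≤ 1 := by
  unfold ind
  split_ifs <;> simp

private theorem Pt_ind (t : ℝ) (z y : Site d) : Pt t (ind z) y = heat d t (z - y) :=
  Pt_single t z y

omit mΩ in
private theorem gw_add (c : Site d → Ω → Bool) (S : Site d → ℝ≥0 → Ω → Site d) (m : ℕ)
    (A : Finset (Site d)) (i : ℕ) (b : Bool) (φ ψ : Site d → ℝ) (ω : Ω) :
    gw c S m A i b (fun z => φ z + ψ z) ω = gw c S m A i b φ ω + gw c S m A i b ψ ω := by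
  unfold gw wt
  rw [← Finset.sum_add_distrib]

omit mΩ in
private theorem gw_fsum (c : Site d → Ω → Bool) (S : Site d → ℝ≥0 → Ω → Site d) (m : ℕ)
    (A : Finset (Site d)) (i : ℕ) (b : Bool) (φ : Site d → ℝ) (F : Finset (Site d)) (ω : Ω) :
    gw c S m A i b (fun z => if z ∈ F then φ z else 0) ω =
      ∑ z ∈ F, φ z * gw c S m A i b (ind z) ω := by
  classical
  unfold gw wt
  simp_rw [Finset.mul_sum]
  rw [Finset.sum_comm]
  refine Finset.sum_congr rfl fun x _ => ?_
  unfold ind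
  simp only [mul_ite, mul_one, mul_zero]
  rw [Finset.sum_ite_eq]

/-- From `disc_abs`, adding the labels of `A' \ A` one by one. -/
theorem gw_diff (hd : 0 < d) (hS : Setup μ p c S) (m : ℕ) {A A' : Finset (Site d)} (hA : A ⊆ A')
    (i : ℕ) (b : Bool) {φ : Site d → ℝ} {K : ℝ} (hφ : ∀ z, |φ z| ≤ K) :
    ∫ ω, |gw c S m A' i b φ ω - gw c S m A i b φ ω| ∂μ ≤
      ∑ y ∈ A' \ A, Pt ((i : ℝ) / 2 ^ m) (fun z => |φ z|) y := by
  classical
  have key : ∀ D : Finset (Site d), Disjoint D A →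
      ∫ ω, |gw c S m (D ∪ A) i b φ ω - gw c S m A i b φ ω| ∂μ ≤
        ∑ y ∈ D, Pt ((i : ℝ) / 2 ^ m) (fun z => |φ z|) y := by
    intro D
    induction D using Finset.induction_on with
    | empty => simp
    | insert y D hyD ih =>
      intro hdis
      rw [Finset.disjoint_insert_left] at hdis
      have hy : y ∉ D ∪ A := by
        rw [Finset.mem_union, not_or]
        exact ⟨hyD, hdis.1⟩
      have h1 := disc_abs hd hS m hy i b hφ
      have h2 := ih hdis.2
      have i1 := gw_integrable hS m (insert y (D ∪ A)) i b hφ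
      have i2 := gw_integrable hS m (D ∪ A) i b hφ
      have i3 := gw_integrable hS m A i b hφ
      rw [Finset.insert_union, Finset.sum_insert hyD]
      calc ∫ ω, |gw c S m (insert y (D ∪ A)) i b φ ω - gw c S m A i b φ ω| ∂μ
          ≤ ∫ ω, (|gw c S m (insert y (D ∪ A)) i b φ ω - gw c S m (D ∪ A) i b φ ω| +
              |gw c S m (D ∪ A) i b φ ω - gw c S m A i b φ ω|) ∂μ :=
            integral_mono (i1.sub i3).abs ((i1.sub i2).abs.add (i2.sub i3).abs)
              fun ω => abs_sub_le _ _ _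
        _ = ∫ ω, |gw c S m (insert y (D ∪ A)) i b φ ω - gw c S m (D ∪ A) i b φ ω| ∂μ +
              ∫ ω, |gw c S m (D ∪ A) i b φ ω - gw c S m A i b φ ω| ∂μ :=
            integral_add (i1.sub i2).abs (i2.sub i3).abs
        _ ≤ _ := add_le_add h1 h2
  have h := key (A' \ A) Finset.sdiff_disjoint
  rwa [Finset.sdiff_union_of_subset hA] at h

/-- The means for nested sets of labels. -/
private theorem a_diff (hd : 0 < d) (hS : Setup μ p c S) (m : ℕ) {A A' : Finset (Site d)}
    (hA : A ⊆ A') (i : ℕ) (b : Bool) (z : Site d) :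
    |∫ ω, gw c S m A' i b (ind z) ω ∂μ - ∫ ω, gw c S m A i b (ind z) ω ∂μ| ≤
      ∑' y : Site d, if y ∈ A then 0 else heat d ((i : ℝ) / 2 ^ m) (z - y) := by
  classical
  have ht : (0 : ℝ) ≤ (i : ℝ) / 2 ^ m := by positivity
  have h1 := gw_diff hd hS m hA i b (abs_ind_le z)
  have e1 : (fun w => |ind z w|) = ind z := funext fun w => abs_ind z w
  rw [e1] at h1
  have i1 := gw_integrable hS m A' i b (abs_ind_le z)
  have i2 := gw_integrable hS m A i b (abs_ind_le z)
  rw [← integral_sub i1 i2]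
  refine (abs_integral_le_integral_abs).trans (h1.trans ?_)
  have h2 := tail_hasSum (heat_shift_hasSum hd ht z) A
  have h3 : ∑ y ∈ A' \ A, Pt ((i : ℝ) / 2 ^ m) (ind z) y =
      ∑ y ∈ A' \ A, (if y ∈ A then 0 else heat d ((i : ℝ) / 2 ^ m) (z - y)) := by
    refine Finset.sum_congr rfl fun y hy => ?_
    rw [if_neg (Finset.mem_sdiff.1 hy).2, Pt_ind]
  rw [h3]
  refine h2.summable.sum_le_tsum _ fun y _ => ?_
  split_ifs
  · exact le_rfl
  · exact heat_nonneg ht _

private theorem tail_tendsto (hd : 0 < d) {t : ℝ} (ht : 0 ≤ t) (z : Site d) :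
    Tendsto (fun A : Finset (Site d) => ∑' y : Site d, if y ∈ A then 0 else heat d t (z - y))
      atTop (𝓝 0) := by
  classical
  have h1 : (fun A : Finset (Site d) => ∑' y : Site d, if y ∈ A then 0 else heat d t (z - y)) =
      fun A => 1 - ∑ y ∈ A, heat d t (z - y) :=
    funext fun A => (tail_hasSum (heat_shift_hasSum hd ht z) A).tsum_eq
  rw [h1]
  have h2 : Tendsto (fun A : Finset (Site d) => (1 : ℝ) - ∑ y ∈ A, heat d t (z - y)) atTop
      (𝓝 (1 - 1)) := tendsto_const_nhds.sub (heat_shift_hasSum hd ht z)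
  rwa [sub_self] at h2

private theorem a_cauchy (hd : 0 < d) (hS : Setup μ p c S) (m : ℕ) (b : Bool) (i : ℕ)
    (z : Site d) : ∃ L, Tendsto (fun A => ∫ ω, gw c S m A i b (ind z) ω ∂μ) atTop (𝓝 L) := by
  classical
  apply cauchySeq_tendsto_of_complete
  rw [Metric.cauchySeq_iff']
  intro ε hε
  have ht : (0 : ℝ) ≤ (i : ℝ) / 2 ^ m := by positivity
  obtain ⟨N, hN⟩ := ((tail_tendsto hd ht z).eventually (gt_mem_nhds hε)).exists
  refine ⟨N, fun A hA => ?_⟩
  rw [Real.dist_eq]
  exact (a_diff hd hS m hA i b z).trans_lt hN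

omit [IsProbabilityMeasure μ] in
private theorem image_atTop (z : Site d) :
    Tendsto (fun A : Finset (Site d) => A.image (· + z)) atTop atTop := by
  classical
  rw [tendsto_atTop_atTop]
  intro B
  refine ⟨B.image (· - z), fun A hA x hx => ?_⟩
  exact Finset.mem_image.2 ⟨x - z, hA (Finset.mem_image_of_mem _ hx), by simp⟩

/-- A bound for the means. -/
private theorem a_le_one (hd : 0 < d) (hS : Setup μ p c S) (m : ℕ) (b : Bool) (i : ℕ)
    (z : Site d) (A : Finset (Site d)) : ∫ ω, gw c S m A i b (ind z) ω ∂μ ≤ 1 := by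
  have ht : (0 : ℝ) ≤ (i : ℝ) / 2 ^ m := by positivity
  refine (gw_mean_le hd hS m A i b (abs_ind_le z) (ind_nonneg z)).trans ?_
  simp_rw [Pt_ind]
  exact sum_le_hasSum A (fun y _ => heat_nonneg ht _) (heat_shift_hasSum hd ht z)

omit mΩ in
private theorem gw_nonneg (c : Site d → Ω → Bool) (S : Site d → ℝ≥0 → Ω → Site d) (m : ℕ)
    (A : Finset (Site d)) (i : ℕ) (b : Bool) {φ : Site d → ℝ} (hφ : ∀ z, 0 ≤ φ z) (ω : Ω) :
    0 ≤ gw c S m A i b φ ω :=
  Finset.sum_nonneg fun _ _ => hφ _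

theorem gdens_tendsto (hd : 0 < d) (hS : Setup μ p c S) (m : ℕ) (b : Bool) (i : ℕ) (z : Site d) :
    Tendsto (fun A => ∫ ω, gw c S m A i b (ind z) ω ∂μ) atTop (𝓝 (gdens μ c S m b i)) := by
  classical
  have h0 : Tendsto (fun A => ∫ ω, gw c S m A i b (ind 0) ω ∂μ) atTop (𝓝 (gdens μ c S m b i)) :=
    tendsto_nhds_limUnder (a_cauchy hd hS m b i 0)
  obtain ⟨L, hL⟩ := a_cauchy hd hS m b i z
  have h1 := hL.comp (image_atTop z)
  have h2 : ((fun A => ∫ ω, gw c S m A i b (ind z) ω ∂μ) ∘ fun A : Finset (Site d) =>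
      A.image (· + z)) = fun A => ∫ ω, gw c S m A i b (ind 0) ω ∂μ := by
    funext A
    have h3 := gw_shift hd hS m A i b 0 z
    rw [zero_add] at h3
    exact h3
  rw [h2] at h1
  rwa [tendsto_nhds_unique h0 h1]

theorem gdens_rate (hd : 0 < d) (hS : Setup μ p c S) (m : ℕ) (b : Bool) (i : ℕ) (z : Site d)
    (A : Finset (Site d)) :
    |∫ ω, gw c S m A i b (ind z) ω ∂μ - gdens μ c S m b i| ≤
      ∑' y : Site d, if y ∈ A then 0 else heat d ((i : ℝ) / 2 ^ m) (z - y) := by
  rw [abs_sub_comm]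
  have h1 : Tendsto (fun A' => |∫ ω, gw c S m A' i b (ind z) ω ∂μ -
      ∫ ω, gw c S m A i b (ind z) ω ∂μ|) atTop
        (𝓝 |gdens μ c S m b i - ∫ ω, gw c S m A i b (ind z) ω ∂μ|) :=
    ((gdens_tendsto hd hS m b i z).sub_const _).abs
  refine le_of_tendsto h1 ?_
  filter_upwards [eventually_ge_atTop A] with A' hA'
  exact a_diff hd hS m hA' i b z

/-- By dominated convergence (`E gw A i b (ind z) ≤ 1`). -/
theorem gdens_tendsto_fun (hd : 0 < d) (hS : Setup μ p c S) (m : ℕ) (b : Bool) (i : ℕ)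
    {φ : Site d → ℝ} (hφ : Summable φ) (hφ0 : ∀ z, 0 ≤ φ z) :
    Tendsto (fun A => ∫ ω, gw c S m A i b φ ω ∂μ) atTop (𝓝 (gdens μ c S m b i * ∑' z, φ z)) := by
  classical
  have ht : (0 : ℝ) ≤ (i : ℝ) / 2 ^ m := by positivity
  have hφb : ∀ z, |φ z| ≤ ∑' z, φ z := by
    intro z
    rw [abs_of_nonneg (hφ0 z)]
    exact hφ.le_tsum z fun y _ => hφ0 y
  -- the series in `z` for a finite set of labels
  have key : ∀ A, HasSum (fun z => φ z * ∫ ω, gw c S m A i b (ind z) ω ∂μ)
      (∫ ω, gw c S m A i b φ ω ∂μ) := by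
    intro A
    change Tendsto (fun F : Finset (Site d) => ∑ z ∈ F, φ z * ∫ ω, gw c S m A i b (ind z) ω ∂μ)
      atTop (𝓝 (∫ ω, gw c S m A i b φ ω ∂μ))
    have htail : Tendsto (fun F : Finset (Site d) => (∑' z, φ z) - ∑ z ∈ F, φ z) atTop
        (𝓝 0) := by
      have h2 : Tendsto (fun F : Finset (Site d) => (∑' z, φ z) - ∑ z ∈ F, φ z) atTop
        (𝓝 ((∑' z, φ z) - ∑' z, φ z)) := tendsto_const_nhds.sub hφ.hasSum
      rwa [sub_self] at h2
    rw [tendsto_iff_dist_tendsto_zero]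
    refine squeeze_zero (fun _ => dist_nonneg) (fun F => ?_) htail
    -- the rest
    have hr := tail_hasSum hφ.hasSum F
    have hr0 : ∀ z, 0 ≤ (fun z => if z ∈ F then 0 else φ z) z := by
      intro z
      simp only
      split_ifs
      · exact le_rfl
      · exact hφ0 z
    have hrb : ∀ z, |(fun z => if z ∈ F then 0 else φ z) z| ≤ ∑' z, φ z := by
      intro z
      simp only
      split_ifs
      · rw [abs_zero]
        exact tsum_nonneg hφ0
      · exact hφb z
    have hFb : ∀ z, |(fun z => if z ∈ F then φ z else 0) z| ≤ ∑' z, φ z := by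
      intro z
      simp only
      split_ifs
      · exact hφb z
      · rw [abs_zero]
        exact tsum_nonneg hφ0
    have e1 : ∀ ω, gw c S m A i b φ ω = gw c S m A i b (fun z => if z ∈ F then φ z else 0) ω +
        gw c S m A i b (fun z => if z ∈ F then 0 else φ z) ω := by
      intro ω
      rw [← gw_add]
      congr 1
      funext z
      split_ifs <;> simp
    have e2 : ∫ ω, gw c S m A i b (fun z => if z ∈ F then φ z else 0) ω ∂μ =
        ∑ z ∈ F, φ z * ∫ ω, gw c S m A i b (ind z) ω ∂μ := by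
      simp_rw [gw_fsum]
      rw [integral_finsetSum _ fun z _ =>
        (gw_integrable hS m A i b (abs_ind_le z)).const_mul (φ z)]
      exact Finset.sum_congr rfl fun z _ => integral_const_mul _ _
    have e3 : ∫ ω, gw c S m A i b φ ω ∂μ = ∑ z ∈ F, φ z * ∫ ω, gw c S m A i b (ind z) ω ∂μ +
        ∫ ω, gw c S m A i b (fun z => if z ∈ F then 0 else φ z) ω ∂μ := by
      rw [← e2, ← integral_add (gw_integrable hS m A i b hFb) (gw_integrable hS m A i b hrb)]
      exact integral_congr_ae (Eventually.of_forall e1)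
    have h4 : ∫ ω, gw c S m A i b (fun z => if z ∈ F then 0 else φ z) ω ∂μ ≤
        (∑' z, φ z) - ∑ z ∈ F, φ z := by
      refine (gw_mean_le hd hS m A i b hrb hr0).trans ?_
      have h5 := Pt_hasSum hd ht hr.summable hr0
      rw [hr.tsum_eq] at h5
      exact sum_le_hasSum A (fun y _ => Pt_nonneg ht hr0 y) h5
    have h6 : 0 ≤ ∫ ω, gw c S m A i b (fun z => if z ∈ F then 0 else φ z) ω ∂μ :=
      integral_nonneg fun ω => gw_nonneg c S m A i b hr0 ω
    rw [Real.dist_eq, e3, abs_sub_comm, add_sub_cancel_left, abs_of_nonneg h6]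
    exact h4
  have h1 : (fun A => ∫ ω, gw c S m A i b φ ω ∂μ) =
      fun A => ∑' z, φ z * ∫ ω, gw c S m A i b (ind z) ω ∂μ :=
    funext fun A => (key A).tsum_eq.symm
  have h2 : gdens μ c S m b i * ∑' z, φ z = ∑' z, φ z * gdens μ c S m b i := by
    rw [tsum_mul_right, mul_comm]
  rw [h1, h2]
  refine tendsto_tsum_of_dominated_convergence (bound := φ) hφ
    (fun z => (gdens_tendsto hd hS m b i z).const_mul (φ z)) (Eventually.of_forall fun A z => ?_)
  have h3 : 0 ≤ ∫ ω, gw c S m A i b (ind z) ω ∂μ :=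
    integral_nonneg fun ω => gw_nonneg c S m A i b (ind_nonneg z) ω
  rw [Real.norm_eq_abs, abs_mul, abs_of_nonneg (hφ0 z), abs_of_nonneg h3]
  calc φ z * ∫ ω, gw c S m A i b (ind z) ω ∂μ ≤ φ z * 1 :=
        mul_le_mul_of_nonneg_left (a_le_one hd hS m b i z A) (hφ0 z)
    _ = φ z := mul_one _

theorem gdens_nonneg (hd : 0 < d) (hS : Setup μ p c S) (m : ℕ) (b : Bool) (i : ℕ) :
    0 ≤ gdens μ c S m b i :=
  ge_of_tendsto' (gdens_tendsto hd hS m b i 0) fun A =>
    integral_nonneg fun ω => gw_nonneg c S m A i b (ind_nonneg 0) ω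

theorem gdens_le_one (hd : 0 < d) (hS : Setup μ p c S) (m : ℕ) (b : Bool) (i : ℕ) :
    gdens μ c S m b i ≤ 1 :=
  le_of_tendsto' (gdens_tendsto hd hS m b i 0) fun A => a_le_one hd hS m b i 0 A

end Pool.Agent.T2H99.AW
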