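import Pool.Agent.T2H99.AW.Defs

set_option autoImplicit false

/-!
# AW, package HK1: elementary facts on the transition function
-/

namespace Pool.Agent.T2H99.AW

open Finset

variable {d : ℕ}

/-! ### Tools -/

/-- Interchange of sums for nonnegative double series. -/
theorem swapsum {α β : Type*} {F : α → β → ℝ} (hF : ∀ a b, 0 ≤ F a b) {g : α → ℝ}
    (h1 : ∀ a, HasSum (F a) (g a)) {S : ℝ} (h2 : HasSum g S) :
    (Summable fun p : β × α => F p.2 p.1) ∧ (∀ b, Summable fun a => F a b) ∧
      HasSum (fun b => ∑' a, F a b) S := by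
  have hs : Summable (fun p : α × β => F p.1 p.2) := by
    refine (summable_prod_of_nonneg (fun p => hF _ _)).2 ⟨fun a => (h1 a).summable, ?_⟩
    have : (fun a => ∑' b, F a b) = g := by
      funext a
      exact (h1 a).tsum_eq
    simp only [this]
    exact h2.summable
  have h3 : HasSum (fun p : α × β => F p.1 p.2) S := by
    have h4 := hs.hasSum
    have h5 := h4.prod_fiberwise h1
    rwa [h5.unique h2] at h4
  have h6 : HasSum (fun p : β × α => F p.2 p.1) S :=
    (Equiv.prodComm β α).hasSum_iff.2 h3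
  have h7 : ∀ b, Summable fun a => F a b := fun b => h6.summable.prod_factor b
  exact ⟨h6.summable, h7, h6.prod_fiberwise fun b => (h7 b).hasSum⟩

/-- the Poisson weights -/
noncomputable def pw (t : ℝ) (n : ℕ) : ℝ := Real.exp (-t) * t ^ n / (n.factorial : ℝ)

theorem pw_nonneg {t : ℝ} (ht : 0 ≤ t) (n : ℕ) : 0 ≤ pw t n := by
  unfold pw
  positivity

theorem pw_hasSum (t : ℝ) : HasSum (pw t) 1 := by
  have h := NormedSpace.expSeries_div_hasSum_exp (𝔸 := ℝ) t
  rw [← Real.exp_eq_exp_ℝ] at h
  have h2 := h.mul_left (Real.exp (-t))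
  rw [← Real.exp_add, neg_add_cancel, Real.exp_zero] at h2
  have h3 : pw t = fun n => Real.exp (-t) * (t ^ n / (n.factorial : ℝ)) := by
    funext n
    unfold pw
    ring
  rw [h3]
  exact h2

theorem heat_eq (t : ℝ) (x : Site d) : heat d t x = ∑' n, pw t n * srw d n x := rfl

/-! ### The discrete time walk -/

theorem srw_nonneg (n : ℕ) (x : Site d) : 0 ≤ srw d n x := by
  induction n generalizing x with
  | zero => unfold srw; split_ifs <;> norm_num
  | succ n ih =>
    unfold srw
    exact mul_nonneg (by positivity) (Finset.sum_nonneg fun i _ => add_nonneg (ih _) (ih _))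

theorem srw_finite (n : ℕ) : (Function.support (srw d n)).Finite := by
  induction n with
  | zero =>
    refine (Set.finite_singleton (0 : Site d)).subset fun x hx => ?_
    by_contra h
    exact hx (if_neg h)
  | succ n ih =>
    refine (Set.finite_iUnion fun i : Fin d => ((ih.image (· + Pi.single i 1)).union
      (ih.image (· - Pi.single i 1)))).subset fun x hx => ?_
    by_contra h
    simp only [Set.mem_iUnion, Set.mem_union, Set.mem_image, not_exists, not_or, not_and] at h
    refine hx ?_
    unfold srw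
    rw [Finset.sum_eq_zero, mul_zero]
    intro i _
    have h1 : srw d n (x - Pi.single i 1) = 0 := by
      by_contra h2
      exact (h i).1 _ h2 (sub_add_cancel _ _)
    have h3 : srw d n (x + Pi.single i 1) = 0 := by
      by_contra h2
      exact (h i).2 _ h2 (add_sub_cancel_right _ _)
    rw [h1, h3, add_zero]

/-- sums over shifts -/
theorem hasSum_step {f : Site d → ℝ} {a : ℝ} (hd : 0 < d) (h : HasSum f a) :
    HasSum (fun x : Site d => (1 / (2 * (d : ℝ))) *
      ∑ i : Fin d, (f (x - (Pi.single i 1 : Site d)) + f (x + (Pi.single i 1 : Site d)))) a := by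
  have h1 : ∀ i : Fin d, HasSum (fun x : Site d => f (x - (Pi.single i 1 : Site d)) + f (x + (Pi.single i 1 : Site d))) (a + a) :=
    fun i => ((Equiv.subRight (Pi.single i (1:ℤ) : Site d)).hasSum_iff.2 h).add
      ((Equiv.addRight (Pi.single i (1:ℤ) : Site d)).hasSum_iff.2 h)
  have h2 := (hasSum_sum (s := (Finset.univ : Finset (Fin d))) fun i _ => h1 i).mul_left
    (1 / (2 * (d : ℝ)))
  have h3 : (1 / (2 * (d : ℝ))) * ∑ _i : Fin d, (a + a) = a := by
    rw [Finset.sum_const, Finset.card_univ, Fintype.card_fin, nsmul_eq_mul]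
    have : (d : ℝ) ≠ 0 := by positivity
    field_simp
    ring
  rw [h3] at h2
  exact h2

theorem srw_hasSum (hd : 0 < d) (n : ℕ) : HasSum (srw d n) 1 := by
  induction n with
  | zero =>
    have := hasSum_ite_eq (0 : Site d) (1 : ℝ)
    exact this
  | succ n ih => exact hasSum_step hd ih

theorem srw_symm (n : ℕ) (x : Site d) : srw d n (-x) = srw d n x := by
  induction n generalizing x with
  | zero => unfold srw; simp
  | succ n ih =>
    unfold srw
    congr 1
    refine Finset.sum_congr rfl fun i _ => ?_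
    rw [show -x - Pi.single i 1 = -(x + Pi.single i 1) by abel,
      show -x + Pi.single i 1 = -(x - Pi.single i 1) by abel, ih, ih, add_comm]

theorem srw_le_one (hd : 0 < d) (n : ℕ) (x : Site d) : srw d n x ≤ 1 :=
  le_hasSum (srw_hasSum hd n) x fun y _ => srw_nonneg n y

theorem srw_conv (m n : ℕ) (x : Site d) :
    HasSum (fun y => srw d m y * srw d n (x - y)) (srw d (m + n) x) := by
  induction n generalizing x with
  | zero =>
    have h : HasSum (fun y => srw d m y * srw d 0 (x - y)) (srw d m x * srw d 0 (x - x)) := by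
      refine hasSum_single x fun y hy => ?_
      have : x - y ≠ 0 := sub_ne_zero.2 (Ne.symm hy)
      unfold srw
      rw [if_neg this, mul_zero]
    have e : srw d 0 (x - x) = 1 := by
      rw [sub_self]
      exact if_pos rfl
    rw [e, mul_one] at h
    exact h
  | succ n ih =>
    have h1 := (hasSum_sum (s := (Finset.univ : Finset (Fin d))) fun i _ =>
      (ih (x - Pi.single i 1)).add (ih (x + Pi.single i 1))).mul_left (1 / (2 * (d : ℝ)))
    have e1 : (1 / (2 * (d : ℝ))) * ∑ i : Fin d, (srw d (m + n) (x - Pi.single i 1) +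
        srw d (m + n) (x + Pi.single i 1)) = srw d (m + (n + 1)) x := rfl
    rw [e1] at h1
    refine h1.congr_fun fun y => ?_
    rw [show srw d (n + 1) (x - y) = (1 / (2 * (d : ℝ))) *
      ∑ i : Fin d, (srw d n (x - y - Pi.single i 1) + srw d n (x - y + Pi.single i 1)) from rfl,
      Finset.mul_sum, Finset.mul_sum, Finset.mul_sum]
    refine Finset.sum_congr rfl fun i _ => ?_
    rw [show x - y - Pi.single i 1 = x - Pi.single i 1 - y by abel,
      show x - y + Pi.single i 1 = x + Pi.single i 1 - y by abel]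
    ring

/-- Chapman-Kolmogorov in discrete time. -/
theorem srw_add (hd : 0 < d) (m n : ℕ) (x : Site d) :
    ∑' y : Site d, srw d m y * srw d n (x - y) = srw d (m + n) x :=
  (srw_conv m n x).tsum_eq

/-! ### Continuous time -/

theorem heat_nonneg {t : ℝ} (ht : 0 ≤ t) (x : Site d) : 0 ≤ heat d t x :=
  tsum_nonneg fun n => mul_nonneg (pw_nonneg ht n) (srw_nonneg n x)

theorem heat_zero (x : Site d) : heat d 0 x = if x = 0 then 1 else 0 := by
  rw [heat_eq, tsum_eq_single 0]
  · simp [pw, srw]
  · intro n hn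
    simp [pw, hn]

theorem heat_aux (hd : 0 < d) {t : ℝ} (ht : 0 ≤ t) :
    (∀ x : Site d, Summable fun n => pw t n * srw d n x) ∧ HasSum (heat d t) 1 := by
  have h := swapsum (F := fun n (x : Site d) => pw t n * srw d n x)
    (fun n x => mul_nonneg (pw_nonneg ht n) (srw_nonneg n x)) (g := pw t)
    (fun n => by simpa using (srw_hasSum hd n).mul_left (pw t n)) (pw_hasSum t)
  exact ⟨h.2.1, h.2.2⟩

theorem heat_hasSum (hd : 0 < d) {t : ℝ} (ht : 0 ≤ t) : HasSum (heat d t) 1 := (heat_aux hd ht).2

theorem heat_term (hd : 0 < d) {t : ℝ} (ht : 0 ≤ t) (x : Site d) :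
    HasSum (fun n => pw t n * srw d n x) (heat d t x) := ((heat_aux hd ht).1 x).hasSum

theorem heat_symm (t : ℝ) (x : Site d) : heat d t (-x) = heat d t x := by
  rw [heat_eq, heat_eq]
  exact tsum_congr fun n => by rw [srw_symm]

theorem pw_add (s t : ℝ) (k : ℕ) :
    ∑ kl ∈ antidiagonal k, pw s kl.1 * pw t kl.2 = pw (s + t) k := by
  unfold pw
  rw [(Commute.all s t).add_pow', Finset.mul_sum, Finset.sum_div, neg_add, Real.exp_add]
  refine Finset.sum_congr rfl fun kl hkl => ?_
  rw [HasAntidiagonal.mem_antidiagonal] at hkl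
  have h1 : ((k.choose kl.1 : ℕ) : ℝ) = (k.factorial : ℝ) / (kl.1.factorial * kl.2.factorial) := by
    have h0 := Nat.choose_mul_factorial_mul_factorial (show kl.1 ≤ k by omega)
    rw [show k - kl.1 = kl.2 by omega] at h0
    rw [eq_div_iff (by positivity), ← mul_assoc]
    exact_mod_cast h0
  rw [nsmul_eq_mul, h1]
  have h2 : (k.factorial : ℝ) ≠ 0 := by positivity
  field_simp

theorem heat_conv (hd : 0 < d) {s t : ℝ} (hs : 0 ≤ s) (ht : 0 ≤ t) (x : Site d) :
    HasSum (fun y : Site d => heat d s y * heat d t (x - y)) (heat d (s + t) x) := by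
  -- the sum over the pairs of numbers of steps
  have hpp : Summable fun p : ℕ × ℕ => pw s p.1 * pw t p.2 :=
    (pw_hasSum s).summable.mul_of_nonneg (pw_hasSum t).summable (fun n => pw_nonneg hs n)
      (fun n => pw_nonneg ht n)
  have hH : Summable fun p : ℕ × ℕ => pw s p.1 * pw t p.2 * srw d (p.1 + p.2) x := by
    refine Summable.of_nonneg_of_le (fun p => ?_) (fun p => ?_) hpp
    · exact mul_nonneg (mul_nonneg (pw_nonneg hs _) (pw_nonneg ht _)) (srw_nonneg _ _)
    · exact mul_le_of_le_one_right (mul_nonneg (pw_nonneg hs _) (pw_nonneg ht _))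
        (srw_le_one hd _ _)
  have h1 : HasSum (fun p : ℕ × ℕ => pw s p.1 * pw t p.2 * srw d (p.1 + p.2) x)
      (heat d (s + t) x) := by
    have h2 := hH.hasSum
    have h3 := (Finset.HasAntidiagonal.sigmaAntidiagonalEquivProd (A := ℕ)).hasSum_iff.2 h2
    have h4 := h3.sigma (g := fun k => pw (s + t) k * srw d k x) (fun k => by
      have h5 : ∑ kl ∈ antidiagonal k, pw s kl.1 * pw t kl.2 * srw d (kl.1 + kl.2) x =
          pw (s + t) k * srw d k x := by
        rw [← pw_add, Finset.sum_mul]
        refine Finset.sum_congr rfl fun kl hkl => ?_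
        rw [HasAntidiagonal.mem_antidiagonal.1 hkl]
      rw [← h5, ← Finset.sum_finset_coe]
      exact hasSum_fintype _)
    have h5 := heat_term hd (add_nonneg hs ht) x
    rw [h4.unique h5] at h2
    exact h2
  -- the double sum
  have h := swapsum (F := fun (p : ℕ × ℕ) (y : Site d) =>
      pw s p.1 * pw t p.2 * (srw d p.1 y * srw d p.2 (x - y)))
    (fun p y => mul_nonneg (mul_nonneg (pw_nonneg hs _) (pw_nonneg ht _))
      (mul_nonneg (srw_nonneg _ _) (srw_nonneg _ _)))
    (fun p => (srw_conv p.1 p.2 x).mul_left _) h1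
  refine h.2.2.congr_fun fun y => ?_
  have h6 := (heat_term hd hs y).summable
  have h7 := (heat_term hd ht (x - y)).summable
  have h8 := h6.mul_of_nonneg h7 (fun n => mul_nonneg (pw_nonneg hs _) (srw_nonneg _ _))
    (fun n => mul_nonneg (pw_nonneg ht _) (srw_nonneg _ _))
  rw [heat_eq, heat_eq, h6.tsum_mul_tsum h7 h8]
  refine tsum_congr fun p => ?_
  ring

/-- Chapman-Kolmogorov (binomial theorem and `srw_add`). -/
theorem heat_add (hd : 0 < d) {s t : ℝ} (hs : 0 ≤ s) (ht : 0 ≤ t) (x : Site d) :
    ∑' y : Site d, heat d s y * heat d t (x - y) = heat d (s + t) x :=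
  (heat_conv hd hs ht x).tsum_eq

/-- The walk stays with probability at least `exp (-t) ≥ 1 - t`. -/
theorem one_sub_heat (hd : 0 < d) {t : ℝ} (ht : 0 ≤ t) : 1 - heat d t 0 ≤ t := by
  have h := le_hasSum (heat_term hd ht (0 : Site d)) 0
    fun n _ => mul_nonneg (pw_nonneg ht n) (srw_nonneg n _)
  have h1 : pw t 0 * srw d 0 0 = Real.exp (-t) := by simp [pw, srw]
  rw [h1] at h
  have := Real.add_one_le_exp (-t)
  linarith

end Pool.Agent.T2H99.AW
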