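import Pool.Agent.T2H99.AW.HK1

set_option autoImplicit false

/-!
# AW, package HK2: consequences of Chapman-Kolmogorov and the semigroup `Pt` (uses HK1)

`Pt t φ y = ∑' z, heat d t z * φ (y + z)`.
-/

namespace Pool.Agent.T2H99.AW

open Finset

variable {d : ℕ}

theorem heat_le_one (hd : 0 < d) {t : ℝ} (ht : 0 ≤ t) (x : Site d) : heat d t x ≤ 1 :=
  le_hasSum (heat_hasSum hd ht) x fun y _ => heat_nonneg ht y

theorem heat_summable_sq (hd : 0 < d) {t : ℝ} (ht : 0 ≤ t) :
    Summable (fun x : Site d => heat d t x ^ 2) := by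
  refine Summable.of_nonneg_of_le (fun x => sq_nonneg _) (fun x => ?_) (heat_hasSum hd ht).summable
  have h1 := heat_nonneg ht x
  have h2 := heat_le_one hd ht x
  nlinarith

/-- `∑ p_t(x)^2 = p_{2t}(0)`. -/
theorem heat_sq (hd : 0 < d) {t : ℝ} (ht : 0 ≤ t) :
    ∑' x : Site d, heat d t x ^ 2 = heat d (2 * t) 0 := by
  rw [two_mul, ← heat_add hd ht ht 0]
  refine tsum_congr fun x => ?_
  rw [zero_sub, heat_symm, sq]

/-- `p_t(x) ≤ p_t(0)`: write `p_t = p_{t/2} * p_{t/2}` and use Cauchy-Schwarz. -/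
theorem heat_le_zero (hd : 0 < d) {t : ℝ} (ht : 0 ≤ t) (x : Site d) : heat d t x ≤ heat d t 0 := by
  have ht2 : 0 ≤ t / 2 := by linarith
  have h1 := heat_conv hd ht2 ht2 x
  rw [add_halves] at h1
  have h2 : HasSum (fun y : Site d => heat d (t / 2) y ^ 2) (heat d t 0) := by
    have h3 := (heat_summable_sq hd ht2).hasSum
    rw [heat_sq hd ht2, mul_div_cancel₀ t two_ne_zero] at h3
    exact h3
  have h3 : HasSum (fun y : Site d => heat d (t / 2) (x - y) ^ 2) (heat d t 0) :=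
    (Equiv.subLeft x).hasSum_iff.2 h2
  have h4 := (h2.add h3).div_const 2
  rw [add_self_div_two] at h4
  refine hasSum_le (fun y => ?_) h1 h4
  have := sq_nonneg (heat d (t / 2) y - heat d (t / 2) (x - y))
  nlinarith

theorem heat_zero_anti (hd : 0 < d) {s t : ℝ} (hs : 0 ≤ s) (hst : s ≤ t) :
    heat d t 0 ≤ heat d s 0 := by
  have h1 := heat_conv hd (sub_nonneg.2 hst) hs (0 : Site d)
  rw [sub_add_cancel] at h1
  have h2 := (heat_hasSum hd (sub_nonneg.2 hst)).mul_right (heat d s 0)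
  rw [one_mul] at h2
  exact hasSum_le (fun y => mul_le_mul_of_nonneg_left (heat_le_zero hd hs _)
    (heat_nonneg (sub_nonneg.2 hst) _)) h1 h2

/-! ### The semigroup -/

theorem Pt_summable (hd : 0 < d) {t : ℝ} (ht : 0 ≤ t) {φ : Site d → ℝ} {C : ℝ}
    (hφ : ∀ z, |φ z| ≤ C) (y : Site d) : Summable (fun z => heat d t z * φ (y + z)) := by
  refine Summable.of_norm_bounded ((heat_hasSum hd ht).summable.mul_right C) fun z => ?_
  rw [Real.norm_eq_abs, abs_mul, abs_of_nonneg (heat_nonneg ht z)]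
  exact mul_le_mul_of_nonneg_left (hφ _) (heat_nonneg ht z)

theorem Pt_bdd (hd : 0 < d) {t : ℝ} (ht : 0 ≤ t) {φ : Site d → ℝ} {C : ℝ}
    (hφ : ∀ z, |φ z| ≤ C) (y : Site d) : |Pt t φ y| ≤ C := by
  have h1 := (heat_hasSum hd ht).mul_right C
  rw [one_mul] at h1
  refine tsum_of_norm_bounded (f := fun z => heat d t z * φ (y + z)) h1 fun z => ?_
  rw [Real.norm_eq_abs, abs_mul, abs_of_nonneg (heat_nonneg ht z)]
  exact mul_le_mul_of_nonneg_left (hφ _) (heat_nonneg ht z)

theorem Pt_nonneg {t : ℝ} (ht : 0 ≤ t) {φ : Site d → ℝ} (hφ : ∀ z, 0 ≤ φ z) (y : Site d) :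
    0 ≤ Pt t φ y :=
  tsum_nonneg fun z => mul_nonneg (heat_nonneg ht z) (hφ _)

theorem Pt_mono (hd : 0 < d) {t : ℝ} (ht : 0 ≤ t) {φ ψ : Site d → ℝ} {C : ℝ}
    (hφ : ∀ z, |φ z| ≤ C) (hψ : ∀ z, |ψ z| ≤ C) (h : ∀ z, φ z ≤ ψ z) (y : Site d) :
    Pt t φ y ≤ Pt t ψ y :=
  Summable.tsum_le_tsum (fun z => mul_le_mul_of_nonneg_left (h _) (heat_nonneg ht z))
    (Pt_summable hd ht hφ y) (Pt_summable hd ht hψ y)

theorem Pt_zero (φ : Site d → ℝ) : Pt 0 φ = φ := by
  funext y
  unfold Pt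
  rw [tsum_eq_single 0]
  · rw [heat_zero, if_pos rfl, add_zero, one_mul]
  · intro z hz
    rw [heat_zero, if_neg hz, zero_mul]

theorem Pt_Pt (hd : 0 < d) {s t : ℝ} (hs : 0 ≤ s) (ht : 0 ≤ t) {φ : Site d → ℝ} {C : ℝ}
    (hφ : ∀ z, |φ z| ≤ C) : Pt s (Pt t φ) = Pt (s + t) φ := by
  funext y
  have hC : 0 ≤ C := (abs_nonneg _).trans (hφ 0)
  -- absolute summability of the double series
  have h := swapsum (F := fun (u z : Site d) => heat d s z * heat d t (u - z))
    (fun u z => mul_nonneg (heat_nonneg hs _) (heat_nonneg ht _)) (g := heat d (s + t))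
    (fun u => heat_conv hd hs ht u) (heat_hasSum hd (add_nonneg hs ht))
  have hsum : Summable fun p : Site d × Site d =>
      heat d s p.1 * heat d t (p.2 - p.1) * φ (y + p.2) := by
    refine Summable.of_norm_bounded (h.1.mul_right C) fun p => ?_
    have h0 := mul_nonneg (heat_nonneg hs p.1) (heat_nonneg ht (p.2 - p.1))
    rw [Real.norm_eq_abs, abs_mul, abs_of_nonneg h0]
    exact mul_le_mul_of_nonneg_left (hφ _) h0
  have h1 : Pt s (Pt t φ) y =
      ∑' z : Site d, ∑' u : Site d, heat d s z * heat d t (u - z) * φ (y + u) := by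
    unfold Pt
    refine tsum_congr fun z => ?_
    rw [← tsum_mul_left, ← (Equiv.subRight z).tsum_eq]
    refine tsum_congr fun u => ?_
    rw [Equiv.subRight_apply, ← mul_assoc, show y + z + (u - z) = y + u by abel]
  have h2 : Pt (s + t) φ y =
      ∑' u : Site d, ∑' z : Site d, heat d s z * heat d t (u - z) * φ (y + u) := by
    unfold Pt
    refine tsum_congr fun u => ?_
    rw [← heat_add hd hs ht u, tsum_mul_right]
  rw [h1, h2]
  exact (Summable.tsum_comm (f := fun z u => heat d s z * heat d t (u - z) * φ (y + u)) hsum).symm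

theorem Pt_add (hd : 0 < d) {t : ℝ} (ht : 0 ≤ t) {φ ψ : Site d → ℝ} {C : ℝ}
    (hφ : ∀ z, |φ z| ≤ C) (hψ : ∀ z, |ψ z| ≤ C) (y : Site d) :
    Pt t (fun z => φ z + ψ z) y = Pt t φ y + Pt t ψ y := by
  unfold Pt
  rw [← (Pt_summable hd ht hφ y).tsum_add (Pt_summable hd ht hψ y)]
  exact tsum_congr fun z => mul_add _ _ _

theorem Pt_smul (t a : ℝ) (φ : Site d → ℝ) (y : Site d) :
    Pt t (fun z => a * φ z) y = a * Pt t φ y := by
  unfold Pt
  rw [← tsum_mul_left]
  exact tsum_congr fun z => by ring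

/-- `P_t` of the indicator of `w` is `y ↦ p_t(w - y)`. -/
theorem Pt_single (t : ℝ) (w y : Site d) :
    Pt t (fun z => if z = w then 1 else 0) y = heat d t (w - y) := by
  unfold Pt
  rw [tsum_eq_single (w - y)]
  · show heat d t (w - y) * (if y + (w - y) = w then 1 else 0) = _
    rw [if_pos (by abel), mul_one]
  · intro z hz
    show heat d t z * (if y + z = w then 1 else 0) = 0
    rw [if_neg, mul_zero]
    intro h
    exact hz (by rw [← h]; abel)

/-- `P_s` of the heat kernel around `w`. -/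
theorem Pt_heat (hd : 0 < d) {s t : ℝ} (hs : 0 ≤ s) (ht : 0 ≤ t) (w y : Site d) :
    Pt s (fun z => heat d t (w - z)) y = heat d (s + t) (w - y) := by
  unfold Pt
  rw [← heat_add hd hs ht (w - y)]
  refine tsum_congr fun z => ?_
  show heat d s z * heat d t (w - (y + z)) = _
  rw [show w - (y + z) = w - y - z by abel]

/-- Total mass is preserved. -/
theorem Pt_hasSum (hd : 0 < d) {t : ℝ} (ht : 0 ≤ t) {φ : Site d → ℝ} (hφ : Summable φ)
    (hφ0 : ∀ z, 0 ≤ φ z) : HasSum (Pt t φ) (∑' z, φ z) := by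
  have h := swapsum (F := fun (z y : Site d) => heat d t z * φ (y + z))
    (fun z y => mul_nonneg (heat_nonneg ht _) (hφ0 _)) (g := fun z => heat d t z * ∑' w, φ w)
    (fun z => ((Equiv.addRight z).hasSum_iff.2 hφ.hasSum).mul_left _)
    (S := ∑' w, φ w) (by simpa using (heat_hasSum hd ht).mul_right (∑' w, φ w))
  exact h.2.2

end Pool.Agent.T2H99.AW
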