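import Pool.Agent.T2H99.AW.CD2

set_option autoImplicit false

/-!
# AW, package IV: the infinite system at integer times (uses CD1, CD2)

`An` is an increasing sequence of finite sets of labels. `ci c S alive An k b ω` is the limit of the
number of particles of colour `b` at the origin at time `k` in the systems on `An n`.

* `ci_ev`: by `cw_diff` (`φ = ind 0`), `∑_n E|cw (An (n+1)) - cw (An n)| ≤ ∑_y heat k (0 - y) = 1`, and the
  `cw` are integers, so a.s. `cw (An n)` is eventually constant (for any increasing sequence `An`).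
* `ci_sub`: remove the labels of the finite set `F` from all `An`; `cw_diff` and Fatou.
* `ci_int`: if `An` exhausts, `E ci = dens` (`dens_tendsto`; `L¹`-Cauchy by `cw_diff`).
* `ci_second`: Fatou and `cw_second`.
* `ci_tail`: limit of functions measurable w.r.t. `⨆ x ∉ F, lab c S x` (`cw_meas`).
-/

namespace Pool.Agent.T2H99.AW

open Finset Filter Topology MeasureTheory ProbabilityTheory
open scoped NNReal ENNReal BigOperators

variable {d : ℕ} {Ω : Type} [mΩ : MeasurableSpace Ω] {μ : Measure Ω} [IsProbabilityMeasure μ]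
  {p : ℝ} {c : Site d → Ω → Bool} {S : Site d → ℝ≥0 → Ω → Site d}
  {alive : Finset (Site d) → ℝ≥0 → Ω → Finset (Site d)}

/-- The number of particles of colour `b` at the origin at time `k` in the infinite system. -/
noncomputable def ci (c : Site d → Ω → Bool) (S : Site d → ℝ≥0 → Ω → Site d)
    (alive : Finset (Site d) → ℝ≥0 → Ω → Finset (Site d)) (An : ℕ → Finset (Site d)) (k : ℕ)
    (b : Bool) (ω : Ω) : ℝ :=
  limUnder atTop (fun n : ℕ => cw c S alive (An n) k b (ind 0) ω)

private theorem iv_ind (z : Site d) : |ind (0 : Site d) z| = if z = 0 then 1 else 0 := by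
  unfold ind
  split_ifs <;> simp

private theorem iv_ind_le (z : Site d) : |ind (0 : Site d) z| ≤ 1 := by
  rw [iv_ind]
  split_ifs <;> norm_num

private theorem iv_Pt (k : ℕ) (y : Site d) :
    Pt (k : ℝ) (fun z => |ind (0 : Site d) z|) y = heat d k (0 - y) := by
  have h : (fun z : Site d => |ind (0 : Site d) z|) = fun z => if z = 0 then (1 : ℝ) else 0 := by
    funext z
    exact iv_ind z
  rw [h, Pt_single]

/-- the values are natural numbers -/
private theorem iv_nat (A : Finset (Site d)) (k : ℕ) (b : Bool) (ω : Ω) :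
    ∃ n : ℕ, cw c S alive A k b (ind 0) ω = n := by
  unfold cw wt ind
  exact ⟨_, Finset.sum_boole _ _⟩

private theorem iv_nonneg (A : Finset (Site d)) (k : ℕ) (b : Bool) (ω : Ω) :
    0 ≤ cw c S alive A k b (ind 0) ω := by
  obtain ⟨n, hn⟩ := iv_nat (c := c) (S := S) (alive := alive) A k b ω
  rw [hn]
  positivity

private theorem iv_diff (hd : 0 < d) (hA : Sys μ p c S alive) {A A' : Finset (Site d)} (h : A ⊆ A')
    (k : ℕ) (b : Bool) :
    ∫ ω, |cw c S alive A' k b (ind 0) ω - cw c S alive A k b (ind 0) ω| ∂μ ≤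
      ∑ y ∈ A' \ A, heat d k (0 - y) := by
  refine (cw_diff hd hA h k b iv_ind_le).trans (le_of_eq ?_)
  exact Finset.sum_congr rfl fun y _ => iv_Pt k y

private theorem iv_hasSum (hd : 0 < d) (k : ℕ) : HasSum (fun y : Site d => heat d k (0 - y)) 1 :=
  (Equiv.subLeft (0 : Site d)).hasSum_iff.mpr (heat_hasSum hd (Nat.cast_nonneg k))

private theorem iv_heat (hd : 0 < d) (k : ℕ) (y : Site d) : 0 ≤ heat d k (0 - y) :=
  heat_nonneg (Nat.cast_nonneg k) _

private theorem iv_sum_le (hd : 0 < d) (k : ℕ) (A : Finset (Site d)) :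
    ∑ y ∈ A, heat d k (0 - y) ≤ 1 :=
  sum_le_hasSum A (fun y _ => iv_heat hd k y) (iv_hasSum hd k)

/-- Fatou -/
private theorem iv_fatou {f : ℕ → Ω → ℝ} {g : Ω → ℝ} {B : ℝ} (hB : 0 ≤ B)
    (hf : ∀ n, Integrable (f n) μ) (hlim : ∀ᵐ ω ∂μ, Tendsto (fun n => f n ω) atTop (𝓝 (g ω)))
    (hb : ∀ᶠ n in atTop, ∫ ω, |f n ω| ∂μ ≤ B) : Integrable g μ ∧ ∫ ω, |g ω| ∂μ ≤ B := by
  have hg : AEStronglyMeasurable g μ :=
    aestronglyMeasurable_of_tendsto_ae atTop (fun n => (hf n).1) hlim
  have h1 : eLpNorm g 1 μ ≤ ENNReal.ofReal B := by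
    refine (Lp.eLpNorm_lim_le_liminf_eLpNorm (fun n => (hf n).1) g hlim).trans ?_
    refine liminf_le_of_frequently_le' (Eventually.frequently ?_)
    filter_upwards [hb] with n hn
    rw [eLpNorm_one_eq_lintegral_enorm, ← ofReal_integral_norm_eq_lintegral_enorm (hf n)]
    exact ENNReal.ofReal_le_ofReal hn
  have hint : Integrable g μ := by
    rw [← memLp_one_iff_integrable]
    exact ⟨hg, lt_of_le_of_lt h1 ENNReal.ofReal_lt_top⟩
  refine ⟨hint, ?_⟩
  rw [eLpNorm_one_eq_lintegral_enorm, ← ofReal_integral_norm_eq_lintegral_enorm hint] at h1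
  exact (ENNReal.ofReal_le_ofReal_iff hB).mp h1

private theorem iv_cwi (hA : Sys μ p c S alive) (A : Finset (Site d)) (k : ℕ) (b : Bool) :
    Integrable (cw c S alive A k b (ind 0)) μ := cw_integrable hA A k b iv_ind_le

theorem ci_ev (hd : 0 < d) (hA : Sys μ p c S alive) {An : ℕ → Finset (Site d)} (hm : Monotone An)
    (k : ℕ) (b : Bool) :
    ∀ᵐ ω ∂μ, ∀ᶠ n in atTop, cw c S alive (An n) k b (ind 0) ω = ci c S alive An k b ω := by
  let X : ℕ → Ω → ℝ := fun n => cw c S alive (An n) k b (ind 0)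
  have hXi : ∀ n, Integrable (X n) μ := fun n => iv_cwi hA (An n) k b
  have hDi : ∀ n, Integrable (fun ω => X (n + 1) ω - X n ω) μ := fun n => (hXi (n + 1)).sub (hXi n)
  have hsum : ∀ N : ℕ, ∑ n ∈ range N, ∫ ω, |X (n + 1) ω - X n ω| ∂μ ≤ ∑ y ∈ An N, heat d k (0 - y) := by
    intro N
    induction N with
    | zero =>
      rw [Finset.sum_range_zero]
      exact Finset.sum_nonneg fun y _ => iv_heat hd k y
    | succ N ih =>
      rw [Finset.sum_range_succ]
      have h1 := iv_diff hd hA (hm (Nat.le_succ N)) k b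
      have h2 := Finset.sum_sdiff (f := fun y => heat d k (0 - y)) (hm (Nat.le_succ N))
      have h3 : ∫ ω, |X (N + 1) ω - X N ω| ∂μ ≤ ∑ y ∈ An (N + 1) \ An N, heat d k (0 - y) := h1
      have h4 : ∑ y ∈ An (N + 1) \ An N, heat d k (0 - y) + ∑ y ∈ An N, heat d k (0 - y)
          = ∑ y ∈ An (N + 1), heat d k (0 - y) := h2
      linarith
  have hfin : ∑' n, ∫⁻ ω, ‖X (n + 1) ω - X n ω‖ₑ ∂μ ≤ ENNReal.ofReal 1 := by
    refine ENNReal.tsum_le_of_sum_range_le fun N => ?_
    have h1 : ∑ n ∈ range N, ∫⁻ ω, ‖X (n + 1) ω - X n ω‖ₑ ∂μ =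
        ENNReal.ofReal (∑ n ∈ range N, ∫ ω, |X (n + 1) ω - X n ω| ∂μ) := by
      rw [ENNReal.ofReal_sum_of_nonneg (fun n _ => integral_nonneg fun ω => abs_nonneg _)]
      refine Finset.sum_congr rfl fun n _ => ?_
      rw [← ofReal_integral_norm_eq_lintegral_enorm (hDi n)]
      rfl
    rw [h1]
    exact ENNReal.ofReal_le_ofReal ((hsum N).trans (iv_sum_le hd k _))
  have hmeas : ∀ n, AEMeasurable (fun ω => ‖X (n + 1) ω - X n ω‖ₑ) μ := fun n => (hDi n).1.enorm
  have hlt : ∀ᵐ ω ∂μ, ∑' n, ‖X (n + 1) ω - X n ω‖ₑ < ⊤ := by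
    refine ae_lt_top' (AEMeasurable.ennreal_tsum hmeas) ?_
    rw [lintegral_tsum hmeas]
    exact ne_top_of_le_ne_top ENNReal.ofReal_ne_top hfin
  filter_upwards [hlt] with ω hω
  have h0 := ENNReal.tendsto_atTop_zero_of_tsum_ne_top hω.ne
  have h1 : ∀ᶠ n in atTop, ‖X (n + 1) ω - X n ω‖ₑ < 1 := h0.eventually_lt_const (by norm_num)
  have h2 : ∀ᶠ n in atTop, X (n + 1) ω = X n ω := by
    filter_upwards [h1] with n hn
    obtain ⟨a, ha⟩ := iv_nat (c := c) (S := S) (alive := alive) (An (n + 1)) k b ω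
    obtain ⟨a', ha'⟩ := iv_nat (c := c) (S := S) (alive := alive) (An n) k b ω
    have ha : X (n + 1) ω = a := ha
    have ha' : X n ω = a' := ha'
    rw [ha, ha'] at hn ⊢
    have h3 : |((a : ℝ) - a')| < 1 := by
      rw [← ofReal_norm_eq_enorm, Real.norm_eq_abs, ← ENNReal.ofReal_one,
        ENNReal.ofReal_lt_ofReal_iff (by norm_num)] at hn
      exact hn
    have h4 : |((a : ℤ) - a')| < 1 := by exact_mod_cast h3
    have h5 : (a : ℤ) - a' = 0 := Int.abs_lt_one_iff.mp h4
    have h6 : (a : ℤ) = a' := by omega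
    exact_mod_cast h6
  rw [eventually_atTop] at h2
  obtain ⟨N, hN⟩ := h2
  have h3 : ∀ n, N ≤ n → X n ω = X N ω := by
    intro n hn
    induction n, hn using Nat.le_induction with
    | base => rfl
    | succ n hn ih => rw [hN n hn, ih]
  have h4 : Tendsto (fun n => X n ω) atTop (𝓝 (X N ω)) := by
    refine tendsto_const_nhds.congr' ?_
    filter_upwards [eventually_ge_atTop N] with n hn
    exact (h3 n hn).symm
  have h5 : ci c S alive An k b ω = X N ω := h4.limUnder_eq
  rw [h5]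
  filter_upwards [eventually_ge_atTop N] with n hn
  exact h3 n hn

private theorem iv_tendsto (hd : 0 < d) (hA : Sys μ p c S alive) {An : ℕ → Finset (Site d)}
    (hm : Monotone An) (k : ℕ) (b : Bool) :
    ∀ᵐ ω ∂μ, Tendsto (fun n => cw c S alive (An n) k b (ind 0) ω) atTop
      (𝓝 (ci c S alive An k b ω)) := by
  filter_upwards [ci_ev hd hA hm k b] with ω hω
  refine tendsto_const_nhds.congr' ?_
  filter_upwards [hω] with n hn using hn.symm

theorem ci_nonneg (hd : 0 < d) (hA : Sys μ p c S alive) {An : ℕ → Finset (Site d)}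
    (hm : Monotone An) (k : ℕ) (b : Bool) : ∀ᵐ ω ∂μ, 0 ≤ ci c S alive An k b ω := by
  filter_upwards [ci_ev hd hA hm k b] with ω hω
  obtain ⟨n, hn⟩ := hω.exists
  rw [← hn]
  exact iv_nonneg _ _ _ _

private theorem iv_mean_le (hd : 0 < d) (hA : Sys μ p c S alive) (A : Finset (Site d)) (k : ℕ)
    (b : Bool) : ∫ ω, |cw c S alive A k b (ind 0) ω| ∂μ ≤ 1 := by
  have h1 := iv_diff hd hA (Finset.empty_subset A) k b
  have h2 : ∀ ω, cw c S alive ∅ k b (ind 0) ω = 0 := by
    intro ω
    have h3 := cw_bdd hA ∅ k b iv_ind_le ω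
    simp only [Finset.card_empty, Nat.cast_zero, zero_mul] at h3
    exact abs_nonpos_iff.mp h3
  simp only [h2, sub_zero] at h1
  exact h1.trans (iv_sum_le hd k _)

theorem ci_integrable (hd : 0 < d) (hA : Sys μ p c S alive) {An : ℕ → Finset (Site d)}
    (hm : Monotone An) (k : ℕ) (b : Bool) : Integrable (ci c S alive An k b) μ :=
  (iv_fatou zero_le_one (fun n => iv_cwi hA (An n) k b) (iv_tendsto hd hA hm k b)
    (Eventually.of_forall fun n => iv_mean_le hd hA (An n) k b)).1

theorem ci_int (hd : 0 < d) (hA : Sys μ p c S alive) {An : ℕ → Finset (Site d)}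
    (hm : Monotone An) (hex : ∀ x, ∃ n, x ∈ An n) (k : ℕ) (b : Bool) :
    ∫ ω, ci c S alive An k b ω ∂μ = dens μ c S alive b k := by
  have hAt : Tendsto An atTop atTop := tendsto_atTop_finset_of_monotone hm hex
  have h1 : Tendsto (fun n => ∫ ω, cw c S alive (An n) k b (ind 0) ω ∂μ) atTop
      (𝓝 (dens μ c S alive b k)) := (dens_tendsto hd hA b k 0).comp hAt
  have hci := ci_integrable hd hA hm k b
  have h2 : ∀ n, ∫ ω, |ci c S alive An k b ω - cw c S alive (An n) k b (ind 0) ω| ∂μ ≤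
      1 - ∑ y ∈ An n, heat d k (0 - y) := by
    intro n
    refine (iv_fatou (f := fun m ω => cw c S alive (An m) k b (ind 0) ω - cw c S alive (An n) k b (ind 0) ω)
      (sub_nonneg.mpr (iv_sum_le hd k _)) (fun m => (iv_cwi hA (An m) k b).sub (iv_cwi hA (An n) k b))
      ?_ ?_).2
    · filter_upwards [iv_tendsto hd hA hm k b] with ω hω
      exact hω.sub tendsto_const_nhds
    · filter_upwards [eventually_ge_atTop n] with m hmn
      have h3 := iv_diff hd hA (hm hmn) k b
      have h4 := Finset.sum_sdiff (f := fun y => heat d k (0 - y)) (hm hmn)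
      have h5 := iv_sum_le hd k (An m)
      have h4' : ∑ y ∈ An m \ An n, heat d k (0 - y) + ∑ y ∈ An n, heat d k (0 - y)
          = ∑ y ∈ An m, heat d k (0 - y) := h4
      linarith
  have h3 : Tendsto (fun n => 1 - ∑ y ∈ An n, heat d k (0 - y)) atTop (𝓝 (1 - 1)) :=
    tendsto_const_nhds.sub ((iv_hasSum hd k).comp hAt)
  rw [sub_self] at h3
  have h4 : Tendsto (fun n => ∫ ω, cw c S alive (An n) k b (ind 0) ω ∂μ) atTop
      (𝓝 (∫ ω, ci c S alive An k b ω ∂μ)) := by
    rw [tendsto_iff_dist_tendsto_zero]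
    refine squeeze_zero (fun _ => dist_nonneg) (fun n => ?_) h3
    rw [Real.dist_eq, abs_sub_comm, ← integral_sub hci (iv_cwi hA (An n) k b)]
    exact (abs_integral_le_integral_abs).trans (h2 n)
  exact tendsto_nhds_unique h4 h1

theorem ci_sub (hd : 0 < d) (hA : Sys μ p c S alive) {An : ℕ → Finset (Site d)}
    (hm : Monotone An) (F : Finset (Site d)) (k : ℕ) (b : Bool) :
    ∫ ω, |ci c S alive An k b ω - ci c S alive (fun n => An n \ F) k b ω| ∂μ ≤
      ∑ y ∈ F, heat d k (0 - y) := by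
  have hm' : Monotone fun n => An n \ F := fun n m h => Finset.sdiff_subset_sdiff (hm h) subset_rfl
  refine (iv_fatou (f := fun n ω => cw c S alive (An n) k b (ind 0) ω -
      cw c S alive (An n \ F) k b (ind 0) ω)
      (Finset.sum_nonneg fun y _ => iv_heat hd k y)
      (fun n => (iv_cwi hA (An n) k b).sub (iv_cwi hA (An n \ F) k b)) ?_ ?_).2
  · filter_upwards [iv_tendsto hd hA hm k b, iv_tendsto hd hA hm' k b] with ω h1 h2
    exact h1.sub h2
  · refine Eventually.of_forall fun n => ?_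
    refine (iv_diff hd hA Finset.sdiff_subset k b).trans ?_
    refine Finset.sum_le_sum_of_subset_of_nonneg ?_ fun y _ _ => iv_heat hd k y
    intro y hy
    rw [Finset.mem_sdiff, Finset.mem_sdiff] at hy
    by_contra hF
    exact hy.2 ⟨hy.1, hF⟩

theorem ci_second (hd : 0 < d) (hA : Sys μ p c S alive) {An : ℕ → Finset (Site d)}
    (hm : Monotone An) (hex : ∀ x, ∃ n, x ∈ An n) {t' s s' : ℕ} (h1 : t' ≤ s) (h2 : s ≤ s')
    (b : Bool) :
    Integrable (fun ω => ci c S alive An s b ω * ci c S alive An s' b ω) μ ∧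
    ∫ ω, ci c S alive An s b ω * ci c S alive An s' b ω ∂μ ≤
        dens μ c S alive b s * heat d ((s' : ℝ) - s) 0 + dens μ c S alive b t' ^ 2 +
          heat d (2 * ((s : ℝ) - t')) 0 := by
  set B := dens μ c S alive b s * heat d ((s' : ℝ) - s) 0 + dens μ c S alive b t' ^ 2 +
          heat d (2 * ((s : ℝ) - t')) 0 with hB
  have hAt : Tendsto An atTop atTop := tendsto_atTop_finset_of_monotone hm hex
  have hs1 : (0 : ℝ) ≤ (s' : ℝ) - s := sub_nonneg.mpr (by exact_mod_cast h2)
  have hs2 : (0 : ℝ) ≤ 2 * ((s : ℝ) - t') :=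
    mul_nonneg (by norm_num) (sub_nonneg.mpr (by exact_mod_cast h1))
  have hB0 : 0 ≤ B := by
    have q1 := dens_nonneg hd hA b s
    have q2 := heat_nonneg hs1 (0 : Site d)
    have q3 := heat_nonneg hs2 (0 : Site d)
    positivity
  have hlim : ∀ᵐ ω ∂μ, Tendsto (fun n => cw c S alive (An n) s b (ind 0) ω *
      cw c S alive (An n) s' b (ind 0) ω) atTop
      (𝓝 (ci c S alive An s b ω * ci c S alive An s' b ω)) := by
    filter_upwards [iv_tendsto hd hA hm s b, iv_tendsto hd hA hm s' b] with ω h3 h4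
    exact h3.mul h4
  have hint : ∀ n, Integrable (fun ω => cw c S alive (An n) s b (ind 0) ω *
      cw c S alive (An n) s' b (ind 0) ω) μ := by
    intro n
    refine (iv_cwi hA (An n) s' b).bdd_mul (c := (An n).card * 1) (iv_cwi hA (An n) s b).1
      (ae_of_all _ fun ω => ?_)
    rw [Real.norm_eq_abs]
    exact cw_bdd hA (An n) s b iv_ind_le ω
  have key : ∀ ε : ℝ, 0 < ε → Integrable (fun ω => ci c S alive An s b ω * ci c S alive An s' b ω) μ ∧
      ∫ ω, |ci c S alive An s b ω * ci c S alive An s' b ω| ∂μ ≤ B + ε := by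
    intro ε hε
    refine iv_fatou (by positivity) hint hlim ?_
    filter_upwards [hAt.eventually (cw_second hd hA h1 h2 b hε)] with n hn
    refine le_trans (le_of_eq ?_) hn
    refine integral_congr_ae (ae_of_all _ fun ω => ?_)
    exact abs_of_nonneg (mul_nonneg (iv_nonneg _ _ _ _) (iv_nonneg _ _ _ _))
  refine ⟨(key 1 one_pos).1, ?_⟩
  refine le_of_forall_pos_le_add fun ε hε => ?_
  refine le_trans (integral_mono (key 1 one_pos).1 (key 1 one_pos).1.abs fun ω => le_abs_self _) (key ε hε).2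

theorem ci_tail (hd : 0 < d) (hA : Sys μ p c S alive) {An : ℕ → Finset (Site d)}
    (hm : Monotone An) (F : Finset (Site d)) (k : ℕ) (b : Bool) :
    ∃ u : Ω → ℝ, Measurable[⨆ x : {x : Site d // x ∉ F}, lab c S x] u ∧
      ci c S alive (fun n => An n \ F) k b =ᵐ[μ] u := by
  have hm' : Monotone fun n => An n \ F := fun n m h => Finset.sdiff_subset_sdiff (hm h) subset_rfl
  refine ⟨fun ω => limsup (fun n => cw c S alive (An n \ F) k b (ind 0) ω) atTop, ?_, ?_⟩
  · refine @Measurable.limsup ℝ Ω _ _ _ (⨆ x : {x : Site d // x ∉ F}, lab c S x) _ _ _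
      (fun n => cw c S alive (An n \ F) k b (ind 0)) fun n => ?_
    refine (cw_meas hA (An n \ F) k b (ind 0)).mono ?_ le_rfl
    refine iSup_le fun x => ?_
    exact le_iSup (fun x : {x : Site d // x ∉ F} => lab c S x)
      ⟨x.1, (Finset.mem_sdiff.mp x.2).2⟩
  · filter_upwards [iv_tendsto hd hA hm' k b] with ω hω
    exact hω.limsup_eq.symm

end Pool.Agent.T2H99.AW
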