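import Pool.Agent.T2H99.AW.Defs

set_option autoImplicit false

/-!
# AW, package K1 / K2: one annihilation step (finite combinatorics)

`kill c pos X` removes, at every site `z`, `k = min(r, b)` red and `k` blue particles, where `r`, `b`
are the numbers of red/blue particles of `X` at `z` (those with lexicographically smallest labels).
-/

namespace Pool.Agent.T2H99.AW

open Finset

variable {d : ℕ}

/-! ## Package K1 -/

/-- The number of labels of `S` that are at most `x`. -/
private noncomputable def rk (S : Finset (Site d)) (x : Site d) : ℕ :=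
  (S.filter fun y => toLex y ≤ toLex x).card

private theorem rk_lt {S : Finset (Site d)} {x y : Site d} (hy : y ∈ S)
    (h : toLex x < toLex y) : rk S x < rk S y := by
  unfold rk
  apply Finset.card_lt_card
  rw [Finset.ssubset_iff_of_subset]
  · refine ⟨y, ?_, ?_⟩
    · simp [hy]
    · simp only [Finset.mem_filter, not_and, not_le]
      exact fun _ => h
  · intro u hu
    simp only [Finset.mem_filter] at hu ⊢
    exact ⟨hu.1, hu.2.trans h.le⟩

private theorem rk_inj {S : Finset (Site d)} {x y : Site d} (hx : x ∈ S) (hy : y ∈ S)
    (h : rk S x = rk S y) : x = y := by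
  by_contra hne
  have hne' : toLex x ≠ toLex y := fun h' => hne (toLex.injective h')
  rcases lt_or_gt_of_ne hne' with hlt | hlt
  · exact absurd h (rk_lt hy hlt).ne
  · exact absurd h (rk_lt hx hlt).ne'

private theorem rk_le (S : Finset (Site d)) (x : Site d) : rk S x ≤ S.card :=
  Finset.card_filter_le _ _

private theorem rk_pos {S : Finset (Site d)} {x : Site d} (hx : x ∈ S) : 1 ≤ rk S x := by
  unfold rk
  exact Finset.card_pos.2 ⟨x, by simp [hx]⟩

private theorem rk_image (S : Finset (Site d)) : S.image (rk S) = Finset.Icc 1 S.card := by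
  apply Finset.eq_of_subset_of_card_le
  · intro j hj
    obtain ⟨x, hx, rfl⟩ := Finset.mem_image.1 hj
    exact Finset.mem_Icc.2 ⟨rk_pos hx, rk_le S x⟩
  · rw [Finset.card_image_of_injOn (fun x hx y hy h => rk_inj hx hy h), Nat.card_Icc]
    omega

/-- The number of elements of rank at most `k`. -/
private theorem card_rk_le (S : Finset (Site d)) (k : ℕ) :
    (S.filter fun x => rk S x ≤ k).card = min k S.card := by
  have h1 : ((S.filter fun x => rk S x ≤ k).image (rk S)) = Finset.Icc 1 (min k S.card) := by
    ext j
    constructor
    · intro hj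
      obtain ⟨x, hx, rfl⟩ := Finset.mem_image.1 hj
      rw [Finset.mem_filter] at hx
      exact Finset.mem_Icc.2 ⟨rk_pos hx.1, le_min hx.2 (rk_le S x)⟩
    · intro hj
      rw [Finset.mem_Icc, le_min_iff] at hj
      have hj' : j ∈ S.image (rk S) := by
        rw [rk_image]
        exact Finset.mem_Icc.2 ⟨hj.1, hj.2.2⟩
      obtain ⟨e, he, hek⟩ := Finset.mem_image.1 hj'
      refine Finset.mem_image.2 ⟨e, Finset.mem_filter.2 ⟨he, ?_⟩, hek⟩
      rw [hek]
      exact hj.2.1
  rw [← Finset.card_image_of_injOn (f := rk S), h1, Nat.card_Icc]
  · omega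
  · intro x hx y hy h
    exact rk_inj (Finset.mem_filter.1 hx).1 (Finset.mem_filter.1 hy).1 h

private theorem mem_kill_iff {c : Site d → Bool} {pos : Site d → Site d} {Y : Finset (Site d)}
    {x : Site d} :
    x ∈ kill c pos Y ↔ x ∈ Y ∧
      (Y.filter fun y => pos y = pos x ∧ c y ≠ c x).card <
        rk (Y.filter fun y => pos y = pos x ∧ c y = c x) x := by
  unfold kill rk
  rw [Finset.mem_filter, Finset.filter_filter]
  simp only [and_assoc]

/-- The particles of colour `b` of `X` at `z`. -/
private noncomputable def cls (c : Site d → Bool) (pos : Site d → Site d) (X : Finset (Site d))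
    (b : Bool) (z : Site d) : Finset (Site d) := X.filter fun y => c y = b ∧ pos y = z

private theorem mem_kill_cls {c : Site d → Bool} {pos : Site d → Site d} {X : Finset (Site d)}
    {x : Site d} :
    x ∈ kill c pos X ↔ x ∈ X ∧
      (cls c pos X (!(c x)) (pos x)).card < rk (cls c pos X (c x) (pos x)) x := by
  rw [mem_kill_iff]
  have e1 : (X.filter fun y => pos y = pos x ∧ c y ≠ c x) = cls c pos X (!(c x)) (pos x) := by
    unfold cls
    apply Finset.filter_congr
    intro y _
    cases c x <;> cases c y <;> simp
  have e2 : (X.filter fun y => pos y = pos x ∧ c y = c x) = cls c pos X (c x) (pos x) := by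
    unfold cls
    apply Finset.filter_congr
    intro y _
    rw [and_comm]
  rw [e1, e2]

theorem kill_subset (c : Site d → Bool) (pos : Site d → Site d) (X : Finset (Site d)) :
    kill c pos X ⊆ X := Finset.filter_subset _ _

/-- The number of removed particles of colour `b` at `z`. -/
private theorem card_removed (c : Site d → Bool) (pos : Site d → Site d) (X : Finset (Site d))
    (b : Bool) (z : Site d) :
    ((X \ kill c pos X).filter fun y => c y = b ∧ pos y = z).card =
      min (cls c pos X (!b) z).card (cls c pos X b z).card := by
  rw [← card_rk_le]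
  congr 1
  ext x
  simp only [Finset.mem_filter, Finset.mem_sdiff, mem_kill_cls]
  constructor
  · rintro ⟨⟨hx, hk⟩, rfl, rfl⟩
    refine ⟨by simp [cls, hx], ?_⟩
    by_contra h
    push Not at h
    exact hk ⟨hx, h⟩
  · rintro ⟨hx, hk⟩
    simp only [cls, Finset.mem_filter] at hx
    obtain ⟨hx, rfl, rfl⟩ := hx
    refine ⟨⟨hx, ?_⟩, rfl, rfl⟩
    rintro ⟨_, h⟩
    omega

/-- K1a. Signed sums are not changed: the same number of red and blue is removed at every site. -/
theorem tot_kill (c : Site d → Bool) (pos : Site d → Site d) (X : Finset (Site d))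
    (φ : Site d → ℝ) : tot c pos (kill c pos X) φ = tot c pos X φ := by
  classical
  unfold tot
  rw [← Finset.sum_sdiff (kill_subset c pos X)]
  have h0 : ∑ x ∈ X \ kill c pos X, sg (c x) * φ (pos x) = 0 := by
    set D := X \ kill c pos X with hD
    rw [← Finset.sum_fiberwise_of_maps_to (g := pos) (t := D.image pos)
      (fun x hx => Finset.mem_image_of_mem pos hx)]
    apply Finset.sum_eq_zero
    intro z _
    have h1 : ∑ x ∈ D.filter (fun x => pos x = z), sg (c x) * φ (pos x) =
        (∑ x ∈ D.filter (fun x => pos x = z), sg (c x)) * φ z := by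
      rw [Finset.sum_mul]
      apply Finset.sum_congr rfl
      intro x hx
      rw [(Finset.mem_filter.1 hx).2]
    rw [h1]
    have h2 : ∑ x ∈ D.filter (fun x => pos x = z), sg (c x) =
        ((D.filter fun y => c y = true ∧ pos y = z).card : ℝ) -
          ((D.filter fun y => c y = false ∧ pos y = z).card : ℝ) := by
      rw [← Finset.sum_filter_add_sum_filter_not (D.filter (fun x => pos x = z))
        (fun x => c x = true)]
      have e1 : ∑ x ∈ (D.filter (fun x => pos x = z)).filter (fun x => c x = true), sg (c x) =
          ((D.filter fun y => c y = true ∧ pos y = z).card : ℝ) := by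
        rw [Finset.filter_filter]
        rw [Finset.sum_congr rfl (g := fun _ => (1 : ℝ))]
        · rw [Finset.sum_const, nsmul_eq_mul, mul_one]
          congr 2
          apply Finset.filter_congr
          intro y _
          rw [and_comm]
        · intro x hx
          rw [(Finset.mem_filter.1 hx).2.2]
          simp [sg]
      have e2 : ∑ x ∈ (D.filter (fun x => pos x = z)).filter (fun x => ¬ c x = true), sg (c x) =
          -((D.filter fun y => c y = false ∧ pos y = z).card : ℝ) := by
        rw [Finset.filter_filter]
        rw [Finset.sum_congr rfl (g := fun _ => (-1 : ℝ))]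
        · rw [Finset.sum_const, nsmul_eq_mul, mul_neg, mul_one]
          congr 3
          apply Finset.filter_congr
          intro y _
          rw [and_comm]
          simp
        · intro x hx
          have := (Finset.mem_filter.1 hx).2.2
          simp only [Bool.not_eq_true] at this
          rw [this]
          simp [sg]
      rw [e1, e2]
      ring
    rw [h2, hD, card_removed, card_removed]
    simp [min_comm]
  rw [h0, zero_add]

/-- K1b. After the annihilation no two colours share a site. -/
theorem kill_sep {c : Site d → Bool} {pos : Site d → Site d} {X : Finset (Site d)} {x y : Site d}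
    (hx : x ∈ kill c pos X) (hy : y ∈ kill c pos X) (h : pos x = pos y) : c x = c y := by
  by_contra hne
  have hne' : (!(c x)) = c y := by
    revert hne
    cases c x <;> cases c y <;> simp
  have hne'' : (!(c y)) = c x := by
    revert hne
    cases c x <;> cases c y <;> simp
  have h1 := (mem_kill_cls.1 hx).2
  have h2 := (mem_kill_cls.1 hy).2
  rw [hne', h] at h1
  rw [hne''] at h2
  have h3 := rk_le (cls c pos X (c x) (pos y)) x
  have h4 := rk_le (cls c pos X (c y) (pos y)) y
  omega

/-- K1c. A removed particle has a partner of the other colour at its site. -/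
theorem kill_partner {c : Site d → Bool} {pos : Site d → Site d} {X : Finset (Site d)} {x : Site d}
    (hx : x ∈ X) (hk : x ∉ kill c pos X) : ∃ y ∈ X, c y ≠ c x ∧ pos y = pos x := by
  have h1 : ¬ ((cls c pos X (!(c x)) (pos x)).card < rk (cls c pos X (c x) (pos x)) x) :=
    fun h => hk (mem_kill_cls.2 ⟨hx, h⟩)
  have h2 : 1 ≤ rk (cls c pos X (c x) (pos x)) x := rk_pos (by simp [cls, hx])
  have h3 : 0 < (cls c pos X (!(c x)) (pos x)).card := by omega
  obtain ⟨y, hy⟩ := Finset.card_pos.1 h3
  simp only [cls, Finset.mem_filter] at hy
  refine ⟨y, hy.1, ?_, hy.2.2⟩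
  rw [hy.2.1]
  cases c x <;> simp

/-- K1d. -/
theorem kill_keep {c : Site d → Bool} {pos : Site d → Site d} {X : Finset (Site d)} {x : Site d}
    (hx : x ∈ X) (h : ∀ y ∈ X, pos y = pos x → c y = c x) : x ∈ kill c pos X := by
  by_contra hk
  obtain ⟨y, hy, h1, h2⟩ := kill_partner hx hk
  exact h1 (h y hy h2)

/-- K1e. -/
theorem kill_eq_self {c : Site d → Bool} {pos : Site d → Site d} {X : Finset (Site d)}
    (h : ∀ x ∈ X, ∀ y ∈ X, pos x = pos y → c x = c y) : kill c pos X = X := by
  refine subset_antisymm (kill_subset _ _ _) fun x hx => kill_keep hx fun y hy hxy => ?_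
  exact h y hy x hx hxy

/-- K1f. The number of particles of colour `b` lost at `z` is at most `r * b`. -/
theorem kill_lost (c : Site d → Bool) (pos : Site d → Site d) (X : Finset (Site d)) (b : Bool)
    (z : Site d) :
    cnt c pos X b z ≤ cnt c pos (kill c pos X) b z + cnt c pos X true z * cnt c pos X false z := by
  classical
  have h1 : (X.filter fun x => c x = b ∧ pos x = z).card =
      ((kill c pos X).filter fun x => c x = b ∧ pos x = z).card +
        ((X \ kill c pos X).filter fun x => c x = b ∧ pos x = z).card := by
    rw [← Finset.card_union_of_disjoint]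
    · rw [← Finset.filter_union, Finset.union_sdiff_of_subset (kill_subset c pos X)]
    · apply Finset.disjoint_filter_filter
      exact Finset.disjoint_sdiff
  have h2 := card_removed c pos X b z
  have h3 : ((X \ kill c pos X).filter fun x => c x = b ∧ pos x = z).card ≤
      (X.filter fun x => c x = true ∧ pos x = z).card *
        (X.filter fun x => c x = false ∧ pos x = z).card := by
    rw [h2]
    have h4 : min (cls c pos X (!b) z).card (cls c pos X b z).card ≤
        (cls c pos X true z).card * (cls c pos X false z).card := by
      have h5 : ∀ m n : ℕ, min m n ≤ n * m := by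
        intro m n
        rcases Nat.eq_zero_or_pos n with rfl | hn
        · simp
        · exact (min_le_left _ _).trans (Nat.le_mul_of_pos_left m hn)
      have h6 : ∀ m n : ℕ, min m n ≤ m * n := fun m n => by
        rw [mul_comm]
        exact h5 m n
      cases b
      · exact h6 _ _
      · exact h5 _ _
    exact h4
  unfold cnt
  rw [h1]
  push_cast
  have h3' : (((X \ kill c pos X).filter fun x => c x = b ∧ pos x = z).card : ℝ) ≤
      ((X.filter fun x => c x = true ∧ pos x = z).card : ℝ) *
        ((X.filter fun x => c x = false ∧ pos x = z).card : ℝ) := by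
    exact_mod_cast h3
  linarith

/-- K1g. -/
theorem kill_congr {c c' : Site d → Bool} {pos pos' : Site d → Site d} {X : Finset (Site d)}
    (hc : ∀ x ∈ X, c x = c' x) (hp : ∀ x ∈ X, pos x = pos' x) :
    kill c pos X = kill c' pos' X := by
  unfold kill
  apply Finset.filter_congr
  intro x hx
  have e1 : (X.filter fun y => pos y = pos x ∧ c y ≠ c x) =
      X.filter fun y => pos' y = pos' x ∧ c' y ≠ c' x := by
    apply Finset.filter_congr
    intro y hy
    rw [hp x hx, hp y hy, hc x hx, hc y hy]
  have e2 : (X.filter fun y => pos y = pos x ∧ c y = c x ∧ toLex y ≤ toLex x) =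
      X.filter fun y => pos' y = pos' x ∧ c' y = c' x ∧ toLex y ≤ toLex x := by
    apply Finset.filter_congr
    intro y hy
    rw [hp x hx, hp y hy, hc x hx, hc y hy]
  rw [e1, e2]

/-- K1h. Translation covariance (the lexicographic order is translation invariant). -/
theorem kill_shift {c c' : Site d → Bool} {pos pos' : Site d → Site d} {X : Finset (Site d)}
    (v : Site d) (hc : ∀ x ∈ X, c' (x + v) = c x) (hp : ∀ x ∈ X, pos' (x + v) = pos x + v) :
    kill c' pos' (X.image (· + v)) = (kill c pos X).image (· + v) := by
  classical
  unfold kill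
  rw [Finset.filter_image]
  congr 1
  apply Finset.filter_congr
  intro x hx
  have e1 : ((X.image (· + v)).filter fun y => pos' y = pos' (x + v) ∧ c' y ≠ c' (x + v)).card =
      (X.filter fun y => pos y = pos x ∧ c y ≠ c x).card := by
    rw [Finset.filter_image, Finset.card_image_of_injective _ (add_left_injective v)]
    congr 1
    apply Finset.filter_congr
    intro y hy
    rw [hc x hx, hc y hy, hp x hx, hp y hy, add_left_inj]
  have e2 : ((X.image (· + v)).filter fun y => pos' y = pos' (x + v) ∧ c' y = c' (x + v) ∧
        toLex y ≤ toLex (x + v)).card =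
      (X.filter fun y => pos y = pos x ∧ c y = c x ∧ toLex y ≤ toLex x).card := by
    rw [Finset.filter_image, Finset.card_image_of_injective _ (add_left_injective v)]
    congr 1
    apply Finset.filter_congr
    intro y hy
    rw [hc x hx, hc y hy, hp x hx, hp y hy, add_left_inj]
    rw [toLex_add, toLex_add, add_le_add_iff_right]
  rw [e1, e2]

end Pool.Agent.T2H99.AW
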