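import Pool.Agent.T2H99.AW.ME

set_option autoImplicit false

/-!
# AW, package LN: the signed field is linear in mean (uses G, MK, ME, HK2)

One step: by `tot_kill`, `gt (i+1) φ = ∑_{x ∈ ga i} sg(c x) φ(gpos (i+1) x)` and
`gpos (i+1) x = gpos i x + (S x ((i+1)/2^m) - S x (i/2^m))`; apply `markov1` with
`X' = X * 1{x ∈ ga i} * sg (c x)` for every `x ∈ A`. Iterate with `Pt_Pt`.
`disc_mean`: apply `lin` from step `0` with `X = sg (c y)` to the systems `insert y A` and `A`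
(`ga 0 = A`, `gpos 0 x = x`). `disc_abs`, `disc_sq`: with `disc_wt`.
-/

namespace Pool.Agent.T2H99.AW

open Finset Filter Topology MeasureTheory ProbabilityTheory
open scoped NNReal ENNReal BigOperators

variable {d : ℕ} {Ω : Type} [mΩ : MeasurableSpace Ω] {μ : Measure Ω} [IsProbabilityMeasure μ]
  {p : ℝ} {c : Site d → Ω → Bool} {S : Site d → ℝ≥0 → Ω → Site d}

omit [IsProbabilityMeasure μ] mΩ in
private theorem meas_col (c : Site d → Ω → Bool) (S : Site d → ℝ≥0 → Ω → Site d)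
    {A : Set (Site d)} {x : Site d} (hx : x ∈ A) (s : ℝ≥0) : Measurable[hist c S A s] (c x) := by
  refine measurable_iff_comap_le.2 ?_
  exact le_trans le_sup_left (le_iSup (fun x : A =>
    (MeasurableSpace.comap (c x) inferInstance) ⊔
    ⨆ u : Set.Iic s, MeasurableSpace.comap (S x u) inferInstance) ⟨x, hx⟩)

private theorem int_bdd {f : Ω → ℝ} (hf : Measurable f) {C : ℝ} (h : ∀ ω, |f ω| ≤ C) :
    Integrable f μ :=
  Integrable.of_bound hf.aestronglyMeasurable C (Eventually.of_forall h)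

private theorem abs_sg (b : Bool) : |sg b| = 1 := by
  cases b <;> simp [sg]

omit mΩ in
private theorem ga_subset (c : Site d → Ω → Bool) (S : Site d → ℝ≥0 → Ω → Site d) (m : ℕ)
    (A : Finset (Site d)) (i : ℕ) (ω : Ω) : ga c S m A i ω ⊆ A := gAlive_subset _ _ _ _

/-- the sign of `x` if alive -/
private noncomputable def sa (c : Site d → Ω → Bool) (S : Site d → ℝ≥0 → Ω → Site d) (m : ℕ)
    (A : Finset (Site d)) (i : ℕ) (x : Site d) (ω : Ω) : ℝ :=
  if x ∈ ga c S m A i ω then sg (c x ω) else 0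

omit mΩ in
private theorem abs_sa (c : Site d → Ω → Bool) (S : Site d → ℝ≥0 → Ω → Site d) (m : ℕ)
    (A : Finset (Site d)) (i : ℕ) (x : Site d) (ω : Ω) : |sa c S m A i x ω| ≤ 1 := by
  unfold sa
  split_ifs
  · rw [abs_sg]
  · simp

omit [IsProbabilityMeasure μ] in
private theorem meas_sa (c : Site d → Ω → Bool) (S : Site d → ℝ≥0 → Ω → Site d) (m : ℕ)
    (A : Finset (Site d)) {i : ℕ} {s : ℝ≥0} (hi : (i : ℝ≥0) / 2 ^ m ≤ s) (x : Site d) :
    Measurable[hist c S Set.univ s] (sa c S m A i x) := by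
  have h1 : MeasurableSet[hist c S Set.univ s] {ω | x ∈ ga c S m A i ω} :=
    hist_mono c S (Set.subset_univ _) le_rfl _ (meas_mem_ga c S m A hi x)
  have h2 : Measurable[hist c S Set.univ s] (fun ω => sg (c x ω)) :=
    (Measurable.of_discrete (f := sg)).comp (meas_col c S (Set.mem_univ x) s)
  exact Measurable.ite h1 h2 measurable_const

omit mΩ in
private theorem gt_eq_sum (c : Site d → Ω → Bool) (S : Site d → ℝ≥0 → Ω → Site d) (m : ℕ)
    (A : Finset (Site d)) (i : ℕ) (φ : Site d → ℝ) (ω : Ω) :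
    gt c S m A i φ ω = ∑ x ∈ A, sa c S m A i x ω * φ (gpos S m ω i x) := by
  classical
  unfold gt tot sa
  rw [← Finset.sum_subset (ga_subset c S m A i ω)]
  · exact Finset.sum_congr rfl fun x hx => by rw [if_pos hx]
  · intro x _ hx
    rw [if_neg hx, zero_mul]

omit mΩ in
private theorem gt_succ_eq_sum (c : Site d → Ω → Bool) (S : Site d → ℝ≥0 → Ω → Site d) (m : ℕ)
    (A : Finset (Site d)) (i : ℕ) (φ : Site d → ℝ) (ω : Ω) :
    gt c S m A (i + 1) φ ω = ∑ x ∈ A, sa c S m A i x ω * φ (gpos S m ω i x +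
      (S x (((i + 1 : ℕ) : ℝ≥0) / 2 ^ m) ω - S x ((i : ℝ≥0) / 2 ^ m) ω)) := by
  classical
  have h1 : gt c S m A (i + 1) φ ω =
      tot (fun x => c x ω) (gpos S m ω (i + 1)) (ga c S m A i ω) φ :=
    tot_kill (fun x => c x ω) (gpos S m ω (i + 1)) (ga c S m A i ω) φ
  rw [h1]
  unfold tot sa
  rw [← Finset.sum_subset (ga_subset c S m A i ω)]
  · refine Finset.sum_congr rfl fun x hx => ?_
    rw [if_pos hx]
    congr 2
    unfold gpos posn
    abel
  · intro x _ hx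
    rw [if_neg hx, zero_mul]

/-- One step. -/
private theorem lin_step (hd : 0 < d) (hS : Setup μ p c S) (m : ℕ) (A : Finset (Site d)) (n : ℕ)
    {X : Ω → ℝ} {C : ℝ}
    (hX : Measurable[hist c S Set.univ ((n : ℝ≥0) / 2 ^ m)] X) (hXb : ∀ ω, |X ω| ≤ C)
    {φ : Site d → ℝ} {K : ℝ} (hφ : ∀ z, |φ z| ≤ K) :
    ∫ ω, X ω * gt c S m A (n + 1) φ ω ∂μ =
      ∫ ω, X ω * gt c S m A n (Pt (1 / 2 ^ m) φ) ω ∂μ := by
  have hst : ((n : ℝ≥0) / 2 ^ m) ≤ (((n + 1 : ℕ) : ℝ≥0) / 2 ^ m) := by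
    gcongr
    omega
  have hdiff : ((((n + 1 : ℕ) : ℝ≥0) / 2 ^ m : ℝ≥0) : ℝ) - (((n : ℝ≥0) / 2 ^ m : ℝ≥0) : ℝ) =
      1 / 2 ^ m := by
    push_cast
    ring
  have hpt : ∀ z, |Pt (1 / 2 ^ m) φ z| ≤ K := Pt_bdd hd (by positivity) hφ
  have hXm : ∀ x, Measurable[hist c S Set.univ ((n : ℝ≥0) / 2 ^ m)]
      (fun ω => X ω * sa c S m A n x ω) := fun x => hX.mul (meas_sa c S m A le_rfl x)
  have hXb' : ∀ x ω, |X ω * sa c S m A n x ω| ≤ C := by
    intro x ω
    rw [abs_mul]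
    calc |X ω| * |sa c S m A n x ω| ≤ C * 1 :=
          mul_le_mul (hXb ω) (abs_sa c S m A n x ω) (abs_nonneg _) ((abs_nonneg _).trans (hXb ω))
      _ = C := mul_one C
  have hY : ∀ x, Measurable[hist c S Set.univ ((n : ℝ≥0) / 2 ^ m)] (fun ω => gpos S m ω n x) :=
    fun x => meas_gpos c S m (Set.mem_univ x) le_rfl
  have hle : hist c S Set.univ ((n : ℝ≥0) / 2 ^ m) ≤ mΩ := hist_le hS _ _
  have hinc : ∀ x, Measurable (fun ω => gpos S m ω n x +
      (S x (((n + 1 : ℕ) : ℝ≥0) / 2 ^ m) ω - S x ((n : ℝ≥0) / 2 ^ m) ω)) := by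
    intro x
    have h1 : (fun ω => gpos S m ω n x +
      (S x (((n + 1 : ℕ) : ℝ≥0) / 2 ^ m) ω - S x ((n : ℝ≥0) / 2 ^ m) ω)) =
        fun ω => gpos S m ω (n + 1) x := by
      funext ω
      unfold gpos posn
      abel
    rw [h1]
    exact (meas_gpos c S m (Set.mem_univ x) le_rfl).mono (hist_le hS _ _) le_rfl
  have i1 : ∀ x ∈ A, Integrable (fun ω => (X ω * sa c S m A n x ω) * φ (gpos S m ω n x +
      (S x (((n + 1 : ℕ) : ℝ≥0) / 2 ^ m) ω - S x ((n : ℝ≥0) / 2 ^ m) ω))) μ := by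
    intro x _
    refine int_bdd (C := C * K) ?_ ?_
    · exact ((hXm x).mono hle le_rfl).mul ((Measurable.of_discrete (f := φ)).comp (hinc x))
    · intro ω
      rw [abs_mul]
      exact mul_le_mul (hXb' x ω) (hφ _) (abs_nonneg _) ((abs_nonneg _).trans (hXb' x ω))
  have i2 : ∀ x ∈ A, Integrable (fun ω => (X ω * sa c S m A n x ω) *
      Pt (1 / 2 ^ m) φ (gpos S m ω n x)) μ := by
    intro x _
    refine int_bdd (C := C * K) ?_ ?_
    · exact ((hXm x).mono hle le_rfl).mul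
        ((Measurable.of_discrete (f := Pt (1 / 2 ^ m) φ)).comp ((hY x).mono hle le_rfl))
    · intro ω
      rw [abs_mul]
      exact mul_le_mul (hXb' x ω) (hpt _) (abs_nonneg _) ((abs_nonneg _).trans (hXb' x ω))
  have e1 : ∀ ω, X ω * gt c S m A (n + 1) φ ω = ∑ x ∈ A, (X ω * sa c S m A n x ω) *
      φ (gpos S m ω n x + (S x (((n + 1 : ℕ) : ℝ≥0) / 2 ^ m) ω - S x ((n : ℝ≥0) / 2 ^ m) ω)) := by
    intro ω
    rw [gt_succ_eq_sum, Finset.mul_sum]
    exact Finset.sum_congr rfl fun x _ => by ring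
  have e2 : ∀ ω, X ω * gt c S m A n (Pt (1 / 2 ^ m) φ) ω = ∑ x ∈ A, (X ω * sa c S m A n x ω) *
      Pt (1 / 2 ^ m) φ (gpos S m ω n x) := by
    intro ω
    rw [gt_eq_sum, Finset.mul_sum]
    exact Finset.sum_congr rfl fun x _ => by ring
  simp_rw [e1, e2]
  rw [integral_finsetSum _ i1, integral_finsetSum _ i2]
  refine Finset.sum_congr rfl fun x _ => ?_
  have h := markov1 hd hS hst (hXm x) (hXb' x) (hY x) x hφ
  rw [hdiff] at h
  exact h

theorem lin (hd : 0 < d) (hS : Setup μ p c S) (m : ℕ) (A : Finset (Site d)) {i n : ℕ}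
    (hin : i ≤ n) {X : Ω → ℝ} {C : ℝ}
    (hX : Measurable[hist c S Set.univ ((i : ℝ≥0) / 2 ^ m)] X) (hXb : ∀ ω, |X ω| ≤ C)
    {φ : Site d → ℝ} {K : ℝ} (hφ : ∀ z, |φ z| ≤ K) :
    ∫ ω, X ω * gt c S m A n φ ω ∂μ =
      ∫ ω, X ω * gt c S m A i (Pt (((n : ℝ) - i) / 2 ^ m) φ) ω ∂μ := by
  induction n, hin using Nat.le_induction generalizing φ with
  | base => rw [sub_self, zero_div, Pt_zero]
  | succ n hin ih =>
    have hmono : ((i : ℝ≥0) / 2 ^ m) ≤ ((n : ℝ≥0) / 2 ^ m) := by gcongr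
    have h1 : 0 ≤ ((n : ℝ) - i) / 2 ^ m := by
      have : (i : ℝ) ≤ n := by exact_mod_cast hin
      have h2 : 0 ≤ (n : ℝ) - i := by linarith
      positivity
    rw [lin_step hd hS m A n (hX.mono (hist_mono c S subset_rfl hmono) le_rfl) hXb hφ,
      ih (Pt_bdd hd (by positivity) hφ), Pt_Pt hd h1 (by positivity) hφ]
    congr 3
    push_cast
    ring_nf

omit [IsProbabilityMeasure μ] in
private theorem gt_zero (hS : Setup μ p c S) (m : ℕ) (A : Finset (Site d)) (φ : Site d → ℝ)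
    (ω : Ω) : gt c S m A 0 φ ω = ∑ x ∈ A, sg (c x ω) * φ x := by
  change ∑ x ∈ A, sg (c x ω) * φ (x + S x (((0 : ℕ) : ℝ≥0) / 2 ^ m) ω) = _
  refine Finset.sum_congr rfl fun x _ => ?_
  rw [Nat.cast_zero, zero_div, (hS.walk x).zero ω, add_zero]

private theorem mean_sg (hp : 0 ≤ p) (hS : Setup μ p c S) (x : Site d) :
    ∫ ω, sg (c x ω) ∂μ = 2 * p - 1 := by
  have hm : MeasurableSet {ω | c x ω = true} := hS.cmeas x (MeasurableSet.singleton true)
  have e1 : ∀ ω, sg (c x ω) = 2 * ({ω | c x ω = true}.indicator (fun _ => (1 : ℝ)) ω) - 1 := by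
    intro ω
    by_cases h : c x ω = true
    · rw [Set.indicator_of_mem (by exact h), h]
      norm_num [sg]
    · rw [Set.indicator_of_notMem (by exact h)]
      simp only [Bool.not_eq_true] at h
      rw [h]
      norm_num [sg]
  simp_rw [e1]
  rw [integral_sub, integral_const_mul, integral_indicator_const _ hm]
  · simp only [smul_eq_mul, mul_one, integral_const, probReal_univ]
    rw [measureReal_def, hS.cprob x, ENNReal.toReal_ofReal hp]
  · exact ((integrable_const (1 : ℝ)).indicator hm).const_mul 2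
  · exact integrable_const _

/-- Mean of the signed field: `(2p-1) ∑_{x ∈ A} P_t φ(x)`. -/
theorem gt_mean (hd : 0 < d) (hp : 0 ≤ p) (hS : Setup μ p c S) (m : ℕ) (A : Finset (Site d)) (n : ℕ)
    {φ : Site d → ℝ} {K : ℝ} (hφ : ∀ z, |φ z| ≤ K) :
    ∫ ω, gt c S m A n φ ω ∂μ = (2 * p - 1) * ∑ x ∈ A, Pt ((n : ℝ) / 2 ^ m) φ x := by
  have h1 := lin hd hS m A (Nat.zero_le n) (X := fun _ => 1) (C := 1) measurable_const
    (fun ω => by simp) hφ
  simp only [one_mul, Nat.cast_zero, sub_zero] at h1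
  rw [h1]
  simp_rw [gt_zero hS]
  have hi : ∀ x ∈ A, Integrable (fun ω => sg (c x ω) * Pt ((n : ℝ) / 2 ^ m) φ x) μ := by
    intro x _
    exact (int_bdd (μ := μ) (C := 1)
      ((Measurable.of_discrete (f := sg)).comp (hS.cmeas x)) (fun ω => (abs_sg _).le)).mul_const _
  rw [integral_finsetSum _ hi, Finset.mul_sum]
  refine Finset.sum_congr rfl fun x _ => ?_
  rw [integral_mul_const, mean_sg hp hS x]

theorem disc_mean (hd : 0 < d) (hS : Setup μ p c S) (m : ℕ) {A : Finset (Site d)} {y : Site d}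
    (hy : y ∉ A) (n : ℕ) {φ : Site d → ℝ} {K : ℝ} (hφ : ∀ z, |φ z| ≤ K) :
    ∫ ω, sg (c y ω) * (gt c S m (insert y A) n φ ω - gt c S m A n φ ω) ∂μ =
      Pt ((n : ℝ) / 2 ^ m) φ y := by
  have hX : Measurable[hist c S Set.univ (((0 : ℕ) : ℝ≥0) / 2 ^ m)] (fun ω => sg (c y ω)) :=
    (Measurable.of_discrete (f := sg)).comp (meas_col c S (Set.mem_univ y) _)
  have hXb : ∀ ω, |sg (c y ω)| ≤ 1 := fun ω => (abs_sg _).le
  have hXm : AEStronglyMeasurable (fun ω => sg (c y ω)) μ :=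
    (hX.mono (hist_le hS _ _) le_rfl).aestronglyMeasurable
  have h1 := lin hd hS m (insert y A) (Nat.zero_le n) hX hXb hφ
  have h2 := lin hd hS m A (Nat.zero_le n) hX hXb hφ
  simp only [Nat.cast_zero, sub_zero] at h1 h2
  have j1 : ∀ (B : Finset (Site d)), Integrable (fun ω => sg (c y ω) * gt c S m B n φ ω) μ :=
    fun B => (gt_integrable hS m B n hφ).bdd_mul hXm (Eventually.of_forall hXb)
  simp_rw [mul_sub]
  rw [integral_sub (j1 _) (j1 _), h1, h2]
  have hpt : ∀ z, |Pt ((n : ℝ) / 2 ^ m) φ z| ≤ K := Pt_bdd hd (by positivity) hφ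
  have j2 : ∀ (B : Finset (Site d)), Integrable
      (fun ω => sg (c y ω) * gt c S m B 0 (Pt ((n : ℝ) / 2 ^ m) φ) ω) μ :=
    fun B => (gt_integrable hS m B 0 hpt).bdd_mul hXm (Eventually.of_forall hXb)
  rw [← integral_sub (j2 _) (j2 _)]
  have e : ∀ ω, sg (c y ω) * gt c S m (insert y A) 0 (Pt ((n : ℝ) / 2 ^ m) φ) ω -
      sg (c y ω) * gt c S m A 0 (Pt ((n : ℝ) / 2 ^ m) φ) ω = Pt ((n : ℝ) / 2 ^ m) φ y := by
    intro ω
    rw [gt_zero hS, gt_zero hS, Finset.sum_insert hy]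
    have hsq : sg (c y ω) * sg (c y ω) = 1 := by
      cases c y ω <;> norm_num [sg]
    linear_combination (Pt ((n : ℝ) / 2 ^ m) φ y) * hsq
  simp_rw [e]
  simp

omit mΩ in
/-- Pointwise comparison with the signed discrepancy. -/
private theorem disc_pt (m : ℕ) {A : Finset (Site d)} {y : Site d}
    (hy : y ∉ A) (n : ℕ) (b : Bool) (φ ψ : Site d → ℝ) (ω : Ω) :
    ∃ w, |gw c S m (insert y A) n b φ ω - gw c S m A n b φ ω| ≤ |φ w| ∧
      sg (c y ω) * (gt c S m (insert y A) n ψ ω - gt c S m A n ψ ω) = ψ w := by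
  obtain ⟨w, h1, h2⟩ := disc_wt (fun x => c x ω) (gpos S m ω) hy n
  exact ⟨w, h2 b φ, h1 ψ⟩

private theorem disc_int (hS : Setup μ p c S) (m : ℕ) (A : Finset (Site d)) (y : Site d)
    (n : ℕ) {φ : Site d → ℝ} {K : ℝ} (hφ : ∀ z, |φ z| ≤ K) :
    Integrable (fun ω => sg (c y ω) * (gt c S m (insert y A) n φ ω - gt c S m A n φ ω)) μ := by
  have hXm : AEStronglyMeasurable (fun ω => sg (c y ω)) μ :=
    ((Measurable.of_discrete (f := sg)).comp (hS.cmeas y)).aestronglyMeasurable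
  exact ((gt_integrable hS m (insert y A) n hφ).sub (gt_integrable hS m A n hφ)).bdd_mul hXm
    (Eventually.of_forall fun ω => (abs_sg _).le)

theorem disc_abs (hd : 0 < d) (hS : Setup μ p c S) (m : ℕ) {A : Finset (Site d)} {y : Site d}
    (hy : y ∉ A) (n : ℕ) (b : Bool) {φ : Site d → ℝ} {K : ℝ} (hφ : ∀ z, |φ z| ≤ K) :
    ∫ ω, |gw c S m (insert y A) n b φ ω - gw c S m A n b φ ω| ∂μ ≤
      Pt ((n : ℝ) / 2 ^ m) (fun z => |φ z|) y := by
  have hφ' : ∀ z, |(fun z => |φ z|) z| ≤ K := fun z => by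
    simpa using hφ z
  rw [← disc_mean hd hS m hy n hφ']
  refine integral_mono_of_nonneg (Eventually.of_forall fun ω => abs_nonneg _)
    (disc_int hS m A y n hφ') (Eventually.of_forall fun ω => ?_)
  obtain ⟨w, h1, h2⟩ := disc_pt (c := c) (S := S) m hy n b φ (fun z => |φ z|) ω
  simp only
  rw [h2]
  exact h1

theorem disc_sq (hd : 0 < d) (hS : Setup μ p c S) (m : ℕ) {A : Finset (Site d)} {y : Site d}
    (hy : y ∉ A) (n : ℕ) (b : Bool) {φ : Site d → ℝ} {K : ℝ} (hφ : ∀ z, |φ z| ≤ K) :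
    ∫ ω, (gw c S m (insert y A) n b φ ω - gw c S m A n b φ ω) ^ 2 ∂μ ≤
      Pt ((n : ℝ) / 2 ^ m) (fun z => φ z ^ 2) y := by
  have hφ' : ∀ z, |(fun z => φ z ^ 2) z| ≤ K ^ 2 := fun z => by
    simp only [abs_pow]
    exact pow_le_pow_left₀ (abs_nonneg _) (hφ z) 2
  rw [← disc_mean hd hS m hy n hφ']
  refine integral_mono_of_nonneg (Eventually.of_forall fun ω => sq_nonneg _)
    (disc_int hS m A y n hφ') (Eventually.of_forall fun ω => ?_)
  obtain ⟨w, h1, h2⟩ := disc_pt (c := c) (S := S) m hy n b φ (fun z => φ z ^ 2) ω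
  simp only
  rw [h2, ← sq_abs, ← sq_abs (φ w)]
  exact pow_le_pow_left₀ (abs_nonneg _) h1 2

/-- Free domination of the means: `E gw ≤ ∑_{x ∈ A} P_t φ(x)` for `φ ≥ 0`. -/
theorem gw_mean_le (hd : 0 < d) (hS : Setup μ p c S) (m : ℕ) (A : Finset (Site d)) (n : ℕ)
    (b : Bool) {φ : Site d → ℝ} {K : ℝ} (hφ : ∀ z, |φ z| ≤ K) (hφ0 : ∀ z, 0 ≤ φ z) :
    ∫ ω, gw c S m A n b φ ω ∂μ ≤ ∑ x ∈ A, Pt ((n : ℝ) / 2 ^ m) φ x := by
  classical
  induction A using Finset.induction_on with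
  | empty =>
    have h : ∀ ω, gw c S m ∅ n b φ ω = 0 := by
      intro ω
      have h1 : ga c S m ∅ n ω = ∅ := Finset.subset_empty.1 (ga_subset c S m ∅ n ω)
      unfold gw wt
      rw [h1]
      simp
    simp_rw [h]
    simp
  | insert y A hy ih =>
    have habs : (fun z => |φ z|) = φ := funext fun z => abs_of_nonneg (hφ0 z)
    have h1 := disc_abs hd hS m hy n b hφ
    rw [habs] at h1
    have i1 := gw_integrable hS m (insert y A) n b hφ
    have i2 := gw_integrable hS m A n b hφ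
    have h2 : ∫ ω, (gw c S m (insert y A) n b φ ω - gw c S m A n b φ ω) ∂μ ≤
        ∫ ω, |gw c S m (insert y A) n b φ ω - gw c S m A n b φ ω| ∂μ :=
      integral_mono (i1.sub i2) (i1.sub i2).abs fun ω => le_abs_self _
    rw [integral_sub i1 i2] at h2
    rw [Finset.sum_insert hy]
    linarith

end Pool.Agent.T2H99.AW
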