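import Pool.Agent.T2H99.AW.Cnd

set_option autoImplicit false
set_option linter.unusedSectionVars false

/-!
# AW, package MD (McDiarmid for independent σ-algebras)

The induction of `ES.lean`: with `A = insert a A'`, `G = ⨆ x ∈ A', m x`, `u = E[f | G]`,
`|f - u| ≤ 2B`, and `exp y ≤ cosh c + y sinh c / c` for `|y| ≤ c` gives
`E exp (λ (f - E f)) ≤ exp (2 B² λ²) E exp (λ (u - E u))`.
-/

namespace Pool.Agent.T2H99.AW

open MeasureTheory ProbabilityTheory Finset

namespace Cnd

variable {Ω : Type} [mΩ : MeasurableSpace Ω] {μ : Measure Ω} [IsProbabilityMeasure μ]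

/-- convexity of the exponential function -/
theorem exp_le_lin {c y : ℝ} (h : |y| ≤ c) :
    Real.exp y ≤ Real.cosh c + y * (Real.sinh c / c) := by
  rcases eq_or_lt_of_le ((abs_nonneg y).trans h) with h0 | h0
  · have : y = 0 := by
      rw [← h0] at h
      exact abs_eq_zero.1 (le_antisymm h (abs_nonneg y))
    rw [this, ← h0]
    simp
  · obtain ⟨h1, h2⟩ := abs_le.1 h
    have hc := convexOn_exp
    have q1 : 0 ≤ (c - y) / (2 * c) := div_nonneg (by linarith) (by linarith)
    have q2 : 0 ≤ (c + y) / (2 * c) := div_nonneg (by linarith) (by linarith)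
    have q3 : (c - y) / (2 * c) + (c + y) / (2 * c) = 1 := by
      field_simp
      ring
    have h3 := hc.2 (Set.mem_univ (-c)) (Set.mem_univ c) q1 q2 q3
    have e : ((c - y) / (2 * c)) • (-c) + ((c + y) / (2 * c)) • c = y := by
      simp only [smul_eq_mul]
      field_simp
      ring
    rw [e] at h3
    refine h3.trans (le_of_eq ?_)
    rw [Real.cosh_eq, Real.sinh_eq]
    simp only [smul_eq_mul]
    field_simp
    ring

variable {ι : Type} [DecidableEq ι]

theorem md {m : ι → MeasurableSpace Ω} (hm : ∀ i, m i ≤ mΩ) (hind : iIndep m μ) {C B : ℝ}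
    (lam : ℝ) (A : Finset ι) : ∀ (f : Ω → ℝ) (g : ι → Ω → ℝ),
    StronglyMeasurable[sig m A] f →
    (∀ᵐ ω ∂μ, |f ω| ≤ C) → (∀ y ∈ A, StronglyMeasurable[sig m (A.erase y)] (g y)) →
    (∀ y ∈ A, ∀ᵐ ω ∂μ, |g y ω| ≤ C) → (∀ y ∈ A, ∀ᵐ ω ∂μ, |f ω - g y ω| ≤ B) →
    ∫ ω, Real.exp (lam * (f ω - ∫ ω', f ω' ∂μ)) ∂μ ≤ Real.exp (2 * B ^ 2 * lam ^ 2 * A.card) := by
  induction A using Finset.induction_on with
  | empty =>
    intro f g hf _ _ _ _
    rw [sig_empty] at hf
    obtain ⟨c, rfl⟩ := const_of_bot hf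
    simp
  | insert a A ha ih =>
    intro f g hf hfb hg hgb hfg
    have hG := sig_le hm A
    have hfm := (hf.mono (sig_le hm _)).aestronglyMeasurable (μ := μ)
    have hfi := int_of_bdd (sig_le hm _) hf hfb
    set u : Ω → ℝ := μ[f|sig m A] with hu
    have hus : StronglyMeasurable[sig m A] u := stronglyMeasurable_condExp
    have hub : ∀ᵐ ω ∂μ, |u ω| ≤ C := bdd_cond _ hfb
    have hui : Integrable u μ := integrable_condExp
    have hmean : ∫ ω, u ω ∂μ = ∫ ω, f ω ∂μ := integral_condExp hG
    have hfa : |∫ ω, f ω ∂μ| ≤ C := by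
      have h := norm_integral_le_of_norm_le_const (μ := μ) (f := f) (C := C) (by simpa using hfb)
      simpa using h
    set E : ℝ := ∫ ω, f ω ∂μ with hE
    -- the last variable
    have ha' := Finset.mem_insert_self a A
    have hga : StronglyMeasurable[sig m A] (g a) := by
      have := hg a ha'
      rwa [Finset.erase_insert ha] at this
    have hgi := int_of_bdd hG hga (hgb a ha')
    have hfu : ∀ᵐ ω ∂μ, |f ω - u ω| ≤ 2 * B := by
      have h1 : ∀ᵐ ω ∂μ, |(μ[f - g a|sig m A]) ω| ≤ B := bdd_cond _ (hfg a ha')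
      have h2 := condExp_sub (m := sig m A) hfi hgi
      have h3 : μ[g a|sig m A] = g a := condExp_of_stronglyMeasurable hG hga hgi
      filter_upwards [h1, h2, hfg a ha'] with ω b1 b2 b3
      rw [b2, Pi.sub_apply, h3] at b1
      have : f ω - u ω = (f ω - g a ω) - (u ω - g a ω) := by ring
      rw [this]
      exact (abs_sub _ _).trans (by linarith)
    -- the factor which is measurable
    set W : Ω → ℝ := fun ω => Real.exp (lam * (u ω - E)) with hW
    have hWs : StronglyMeasurable[sig m A] W :=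
      Real.continuous_exp.comp_stronglyMeasurable ((hus.sub stronglyMeasurable_const).const_mul lam)
    have hWb : ∀ᵐ ω ∂μ, |W ω| ≤ Real.exp (|lam| * (C + C)) := by
      filter_upwards [hub] with ω h
      rw [hW, abs_of_pos (Real.exp_pos _), Real.exp_le_exp]
      refine (le_abs_self _).trans ?_
      rw [abs_mul]
      exact mul_le_mul_of_nonneg_left ((abs_sub _ _).trans (add_le_add h hfa)) (abs_nonneg _)
    have hWi := int_of_bdd hG hWs hWb
    set c : ℝ := |lam| * (2 * B) with hc
    have hpt : ∀ᵐ ω ∂μ, Real.exp (lam * (f ω - E)) ≤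
        Real.cosh c * W ω + lam * (Real.sinh c / c) * (f ω * W ω - u ω * W ω) := by
      filter_upwards [hfu] with ω h
      have h1 : |lam * (f ω - u ω)| ≤ c := by
        rw [abs_mul]
        exact mul_le_mul_of_nonneg_left h (abs_nonneg _)
      have h2 := mul_le_mul_of_nonneg_right (exp_le_lin h1) (Real.exp_pos (lam * (u ω - E))).le
      rw [← Real.exp_add] at h2
      have e : lam * (f ω - u ω) + lam * (u ω - E) = lam * (f ω - E) := by ring
      rw [e] at h2
      refine h2.trans (le_of_eq ?_)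
      simp only [hW]
      ring
    have hWm := (hWs.mono hG).aestronglyMeasurable (μ := μ)
    have i1 : Integrable (fun ω => f ω * W ω) μ :=
      hfi.mul_bdd (c := Real.exp (|lam| * (C + C))) hWm (by simpa using hWb)
    have i2 : Integrable (fun ω => u ω * W ω) μ :=
      hui.mul_bdd (c := Real.exp (|lam| * (C + C))) hWm (by simpa using hWb)
    have h0 := ort hG hfi hWs hWb
    have k1 := integral_add (hWi.const_mul (Real.cosh c))
      ((i1.sub i2).const_mul (lam * (Real.sinh c / c)))
    have k2 := integral_sub i1 i2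
    simp only [Pi.sub_apply] at k1
    have hle : ∫ ω, Real.exp (lam * (f ω - E)) ∂μ ≤ Real.cosh c * ∫ ω, W ω ∂μ := by
      have h1 := integral_mono_ae (μ := μ) (f := fun ω => Real.exp (lam * (f ω - E)))
        (g := fun ω => Real.cosh c * W ω + lam * (Real.sinh c / c) * (f ω * W ω - u ω * W ω)) ?_ ?_ hpt
      · rw [k1, integral_const_mul, integral_const_mul, k2, h0, sub_self, mul_zero, add_zero] at h1
        exact h1
      · refine Integrable.of_bound (Real.continuous_exp.comp_aestronglyMeasurable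
          ((hfm.sub aestronglyMeasurable_const).const_mul lam)) (Real.exp (|lam| * (C + C))) ?_
        filter_upwards [hfb] with ω h
        rw [Real.norm_eq_abs, abs_of_pos (Real.exp_pos _), Real.exp_le_exp]
        refine (le_abs_self _).trans ?_
        rw [abs_mul]
        exact mul_le_mul_of_nonneg_left ((abs_sub _ _).trans (add_le_add h hfa)) (abs_nonneg _)
      · exact (hWi.const_mul (Real.cosh c)).add ((i1.sub i2).const_mul (lam * (Real.sinh c / c)))
    -- the others
    have h4 := ih u (fun y => μ[g y|sig m (A.erase y)]) hus hub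
      (fun y _ => stronglyMeasurable_condExp)
      (fun y hy => bdd_cond _ (hgb y (Finset.mem_insert_of_mem hy))) ?_
    · rw [hmean] at h4
      have hcosh : Real.cosh c ≤ Real.exp (2 * B ^ 2 * lam ^ 2) := by
        refine (Real.cosh_le_exp_half_sq c).trans (Real.exp_le_exp.2 (le_of_eq ?_))
        rw [hc, mul_pow, sq_abs]
        ring
      calc ∫ ω, Real.exp (lam * (f ω - E)) ∂μ ≤ Real.cosh c * ∫ ω, W ω ∂μ := hle
        _ ≤ Real.exp (2 * B ^ 2 * lam ^ 2) * Real.exp (2 * B ^ 2 * lam ^ 2 * A.card) :=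
          mul_le_mul hcosh h4 (integral_nonneg fun _ => (Real.exp_pos _).le) (Real.exp_pos _).le
        _ = _ := by
          rw [← Real.exp_add, Finset.card_insert_of_notMem ha]
          congr 1
          push_cast
          ring
    · intro y hy
      have hy' := Finset.mem_insert_of_mem (a := y) (b := a) hy
      have hgy := hg y hy'
      have hgi := int_of_bdd (sig_le hm _) hgy (hgb y hy')
      have hs := step hm hind a hy hgy hgi
      have hsub := condExp_sub (m := sig m A) hfi hgi
      have hj : ∀ᵐ ω ∂μ, |(μ[f - g y|sig m A]) ω| ≤ B := bdd_cond _ (hfg y hy')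
      filter_upwards [hs, hsub, hj] with ω a1 a2 a3
      rw [a2, Pi.sub_apply, ← a1] at a3
      exact a3

end Cnd

/-- MD. -/
theorem mcdiarmid {Ω ι : Type} [mΩ : MeasurableSpace Ω] [DecidableEq ι] (μ : Measure Ω)
    [IsProbabilityMeasure μ] (m : ι → MeasurableSpace Ω) (hm : ∀ i, m i ≤ mΩ) (hind : iIndep m μ)
    (A : Finset ι) (f : Ω → ℝ) (g : ι → Ω → ℝ) (C B : ℝ) (hf : Measurable[⨆ x : A, m x] f)
    (hfb : ∀ ω, |f ω| ≤ C) (hg : ∀ y ∈ A, Measurable[⨆ x : (A.erase y : Finset ι), m x] (g y))
    (hgb : ∀ y ω, |g y ω| ≤ C) (hB : 0 < B) (hfg : ∀ y ∈ A, ∀ ω, |f ω - g y ω| ≤ B)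
    (hA : A.Nonempty) (r : ℝ) (hr : 0 ≤ r) :
    μ.real {ω | f ω ≤ (∫ ω', f ω' ∂μ) - r} ≤ Real.exp (-(r ^ 2) / (8 * B ^ 2 * A.card)) := by
  have hfs : StronglyMeasurable[Cnd.sig m A] f := by
    rw [Cnd.sig_eq] at hf
    exact Measurable.stronglyMeasurable hf
  have hn : (0 : ℝ) < A.card := by exact_mod_cast hA.card_pos
  set lam : ℝ := -(r / (4 * B ^ 2 * A.card)) with hlam
  have h := Cnd.md hm hind lam A f g hfs (Filter.Eventually.of_forall hfb)
    (fun y hy => by
      have h := hg y hy
      rw [Cnd.sig_eq] at h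
      exact Measurable.stronglyMeasurable h)
    (fun y _ => Filter.Eventually.of_forall (hgb y))
    (fun y hy => Filter.Eventually.of_forall (hfg y hy))
  set E : ℝ := ∫ ω', f ω' ∂μ with hE
  have hfa : |E| ≤ C := by
    have h := norm_integral_le_of_norm_le_const (μ := μ) (f := f) (C := C)
      (Filter.Eventually.of_forall (by simpa using hfb))
    simpa using h
  have hi : Integrable (fun ω => Real.exp (lam * (f ω - E))) μ := by
    refine Integrable.of_bound (Real.continuous_exp.comp_aestronglyMeasurable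
      (((hfs.mono (Cnd.sig_le hm _)).aestronglyMeasurable.sub aestronglyMeasurable_const).const_mul lam))
      (Real.exp (|lam| * (C + C))) (Filter.Eventually.of_forall fun ω => ?_)
    rw [Real.norm_eq_abs, abs_of_pos (Real.exp_pos _), Real.exp_le_exp]
    refine (le_abs_self _).trans ?_
    rw [abs_mul]
    exact mul_le_mul_of_nonneg_left ((abs_sub _ _).trans (add_le_add (hfb ω) hfa)) (abs_nonneg _)
  have hlam0 : lam ≤ 0 := by
    rw [hlam]
    exact neg_nonpos.2 (div_nonneg hr (by positivity))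
  have hmk := mul_meas_ge_le_integral_of_nonneg (μ := μ)
    (f := fun ω => Real.exp (lam * (f ω - E)))
    (Filter.Eventually.of_forall fun ω => (Real.exp_pos _).le) hi (Real.exp (lam * (-r)))
  have hsub : {ω | f ω ≤ E - r} ⊆ {ω | Real.exp (lam * (-r)) ≤ Real.exp (lam * (f ω - E))} := by
    intro ω hω
    have h1 : f ω ≤ E - r := hω
    refine Real.exp_le_exp.2 ?_
    exact mul_le_mul_of_nonpos_left (by linarith) hlam0
  have h2 : μ.real {ω | f ω ≤ E - r} ≤
      μ.real {ω | Real.exp (lam * (-r)) ≤ Real.exp (lam * (f ω - E))} := measureReal_mono hsub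
  have h3 : Real.exp (lam * (-r)) * μ.real {ω | f ω ≤ E - r} ≤
      Real.exp (2 * B ^ 2 * lam ^ 2 * A.card) :=
    ((mul_le_mul_of_nonneg_left h2 (Real.exp_pos _).le).trans hmk).trans h
  have h4 : μ.real {ω | f ω ≤ E - r} ≤
      Real.exp (2 * B ^ 2 * lam ^ 2 * A.card) / Real.exp (lam * (-r)) := by
    rw [le_div_iff₀ (Real.exp_pos _), mul_comm]
    exact h3
  refine h4.trans (le_of_eq ?_)
  rw [← Real.exp_sub]
  congr 1
  rw [hlam]
  field_simp
  ring

end Pool.Agent.T2H99.AW
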