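import Pool.Agent.T2H99.AW.Defs2
import Pool.Agent.T2H99.AW.HK2

set_option autoImplicit false

/-!
# AW, package MK: independence and the Markov property (uses HK1, HK2)

`hist c S A s` is the σ-algebra generated by the colours and by the paths up to time `s` of the
labels in `A`, `lab c S x` everything about the label `x`.

* `lab_iIndep`: grouping of the independent family of `Setup.indep`.
* `markov1`, `markov2`: by `IsWalk.indep` and `Setup.indep` the increments `S x t - S x s` (of one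
  label, or of two different labels) are independent of `hist c S univ s` (and of each other), with
  law `heat d (t-s)`. Then
  `E[X φ(Y + Δ)] = ∑_z E[X φ(Y + z)] heat(z) = E[X (P φ)(Y)]`.
-/

namespace Pool.Agent.T2H99.AW

open Finset Filter Topology MeasureTheory ProbabilityTheory
open scoped NNReal ENNReal BigOperators

variable {d : ℕ} {Ω : Type} [mΩ : MeasurableSpace Ω] {μ : Measure Ω} [IsProbabilityMeasure μ]
  {p : ℝ} {c : Site d → Ω → Bool} {S : Site d → ℝ≥0 → Ω → Site d}

theorem hist_le (hS : Setup μ p c S) (A : Set (Site d)) (s : ℝ≥0) : hist c S A s ≤ mΩ :=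
  iSup_le fun x => sup_le (hS.cmeas x).comap_le
    (iSup_le fun u => ((hS.walk x).meas u).comap_le)

theorem hist_mono (c : Site d → Ω → Bool) (S : Site d → ℝ≥0 → Ω → Site d) {A B : Set (Site d)}
    (hAB : A ⊆ B) {s t : ℝ≥0} (hst : s ≤ t) : hist c S A s ≤ hist c S B t := by
  refine iSup_le fun x => ?_
  refine le_trans ?_ (le_iSup (fun x : B => (MeasurableSpace.comap (c x) inferInstance) ⊔
    ⨆ u : Set.Iic t, MeasurableSpace.comap (S x u) inferInstance) ⟨x, hAB x.2⟩)
  refine sup_le le_sup_left (le_trans ?_ le_sup_right)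
  refine iSup_le fun u => ?_
  exact le_iSup (fun u : Set.Iic t => MeasurableSpace.comap (S (x : Site d) u) inferInstance)
    ⟨u, le_trans u.2 hst⟩

theorem lab_le (hS : Setup μ p c S) (x : Site d) : lab c S x ≤ mΩ :=
  sup_le (hS.cmeas x).comap_le (iSup_le fun u => ((hS.walk x).meas u).comap_le)

/-- The independent family of `Setup.indep`. -/
@[reducible] def fam (c : Site d → Ω → Bool) (S : Site d → ℝ≥0 → Ω → Site d)
    (j : Site d ⊕ Site d) : MeasurableSpace Ω :=
  Sum.elim (fun x => MeasurableSpace.comap (c x) inferInstance)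
      (fun x => ⨆ t : ℝ≥0, MeasurableSpace.comap (S x t) inferInstance) j

theorem fam_le (hS : Setup μ p c S) (j : Site d ⊕ Site d) : fam c S j ≤ mΩ := by
  rcases j with x | x
  · exact (hS.cmeas x).comap_le
  · exact iSup_le fun u => ((hS.walk x).meas u).comap_le

theorem lab_eq (c : Site d → Ω → Bool) (S : Site d → ℝ≥0 → Ω → Site d) (x : Site d) :
    lab c S x = ⨆ j ∈ ({Sum.inl x, Sum.inr x} : Set (Site d ⊕ Site d)), fam c S j := by
  rw [_root_.iSup_insert, _root_.iSup_singleton]
  rfl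

theorem lab_iIndep (hS : Setup μ p c S) : iIndep (fun x => lab c S x) μ := by
  rw [iIndep_iff]
  intro s
  induction s using Finset.induction_on with
  | empty => intro f _; simp
  | insert a s ha ih =>
    intro f hf
    rw [Finset.set_biInter_insert, Finset.prod_insert ha,
      ← ih (fun i hi => hf i (Finset.mem_insert_of_mem hi))]
    have h := indep_iSup_of_disjoint (fam_le hS) hS.indep
      (S := ({Sum.inl a, Sum.inr a} : Set (Site d ⊕ Site d)))
      (T := {j | ∃ x ∈ s, j = Sum.inl x ∨ j = Sum.inr x}) (by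
        rw [Set.disjoint_left]
        rintro j hj ⟨x, hx, hjx⟩
        have hax : a ≠ x := fun h => ha (h ▸ hx)
        rcases hj with rfl | rfl <;> rcases hjx with h | h <;> simp_all)
    rw [Indep_iff] at h
    refine h _ _ ?_ ?_
    · have h1 := hf a (Finset.mem_insert_self _ _)
      rw [lab_eq] at h1
      exact h1
    · refine Finset.measurableSet_biInter _ fun x hx => ?_
      have h1 := hf x (Finset.mem_insert_of_mem hx)
      refine (?_ : lab c S x ≤ _) _ h1
      rw [lab_eq]
      refine iSup₂_le fun j hj => ?_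
      exact le_iSup₂_of_le j ⟨x, hx, hj⟩ le_rfl

theorem hist_le_lab (c : Site d → Ω → Bool) (S : Site d → ℝ≥0 → Ω → Site d) (A : Finset (Site d))
    (s : ℝ≥0) : hist c S (A : Set (Site d)) s ≤ ⨆ x : A, lab c S x := by
  refine iSup_le fun x => ?_
  refine le_trans ?_ (le_iSup (fun x : A => lab c S x) ⟨x, x.2⟩)
  refine sup_le le_sup_left (le_trans ?_ le_sup_right)
  refine iSup_le fun u => ?_
  exact le_iSup (fun u : ℝ≥0 => MeasurableSpace.comap (S (x : Site d) u) inferInstance) u

theorem indep_sup {m1 m2 m3 : MeasurableSpace Ω} (h1 : m1 ≤ mΩ) (h2 : m2 ≤ mΩ) (h3 : m3 ≤ mΩ)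
    (h : Indep m1 (m2 ⊔ m3) μ) (h' : Indep m2 m3 μ) : Indep (m1 ⊔ m2) m3 μ := by
  have hgen : m1 ⊔ m2 = MeasurableSpace.generateFrom
      (Set.image2 (fun a b => a ∩ b) {s | MeasurableSet[m1] s} {s | MeasurableSet[m2] s}) := by
    refine le_antisymm (sup_le ?_ ?_) (MeasurableSpace.generateFrom_le ?_)
    · intro s hs
      exact MeasurableSpace.measurableSet_generateFrom
        ⟨s, hs, Set.univ, @MeasurableSet.univ _ m2, Set.inter_univ s⟩
    · intro s hs
      exact MeasurableSpace.measurableSet_generateFrom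
        ⟨Set.univ, @MeasurableSet.univ _ m1, s, hs, Set.univ_inter s⟩
    · rintro _ ⟨a, ha, b, hb, rfl⟩
      have ha' : MeasurableSet[m1 ⊔ m2] a := (le_sup_left : m1 ≤ m1 ⊔ m2) _ ha
      have hb' : MeasurableSet[m1 ⊔ m2] b := (le_sup_right : m2 ≤ m1 ⊔ m2) _ hb
      exact @MeasurableSet.inter _ (m1 ⊔ m2) _ _ ha' hb'
  have hpi : IsPiSystem
      (Set.image2 (fun a b => a ∩ b) {s | MeasurableSet[m1] s} {s | MeasurableSet[m2] s}) := by
    rintro _ ⟨a, ha, b, hb, rfl⟩ _ ⟨a', ha', b', hb', rfl⟩ _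
    exact ⟨a ∩ a', @MeasurableSet.inter _ m1 _ _ ha ha', b ∩ b',
      @MeasurableSet.inter _ m2 _ _ hb hb', Set.inter_inter_inter_comm _ _ _ _⟩
  refine IndepSets.indep (sup_le h1 h2) h3 hpi (@MeasurableSpace.isPiSystem_measurableSet _ m3)
    hgen (@MeasurableSpace.generateFrom_measurableSet _ m3).symm ?_
  rw [IndepSets_iff]
  rintro _ e ⟨a, ha, b, hb, rfl⟩ he
  rw [Indep_iff] at h h'
  have hb' : MeasurableSet[m2 ⊔ m3] b := (le_sup_left : m2 ≤ m2 ⊔ m3) _ hb
  have he' : MeasurableSet[m2 ⊔ m3] e := (le_sup_right : m3 ≤ m2 ⊔ m3) _ he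
  have e1 := h a (b ∩ e) ha (@MeasurableSet.inter _ (m2 ⊔ m3) _ _ hb' he')
  have e2 := h' b e hb he
  have e3 := h a b ha hb'
  show μ (a ∩ b ∩ e) = μ (a ∩ b) * μ e
  rw [Set.inter_assoc, e1, e2, e3, mul_assoc]

/-- Everything but the increments of the label `x` after time `s`. -/
@[reducible] def past (c : Site d → Ω → Bool) (S : Site d → ℝ≥0 → Ω → Site d) (x : Site d)
    (s : ℝ≥0) : MeasurableSpace Ω :=
  (⨆ j ∈ {j : Site d ⊕ Site d | j ≠ Sum.inr x}, fam c S j) ⊔
    ⨆ u : Set.Iic s, MeasurableSpace.comap (S x u) inferInstance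

theorem rest_le (hS : Setup μ p c S) (x : Site d) :
    (⨆ j ∈ {j : Site d ⊕ Site d | j ≠ Sum.inr x}, fam c S j) ≤ mΩ :=
  iSup₂_le fun j _ => fam_le hS j

theorem past_le (hS : Setup μ p c S) (x : Site d) (s : ℝ≥0) : past c S x s ≤ mΩ :=
  sup_le (rest_le hS x) (iSup_le fun u => ((hS.walk x).meas u).comap_le)

theorem past_indep (hS : Setup μ p c S) (x : Site d) {s t : ℝ≥0} (hst : s ≤ t) :
    Indep (past c S x s) (MeasurableSpace.comap (fun ω => S x t ω - S x s ω) inferInstance) μ := by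
  refine indep_sup (rest_le hS x) (iSup_le fun u => ((hS.walk x).meas u).comap_le)
    (((hS.walk x).meas t).sub ((hS.walk x).meas s)).comap_le ?_ ((hS.walk x).indep s t hst)
  have h := indep_iSup_of_disjoint (fam_le hS) hS.indep
      (S := {j : Site d ⊕ Site d | j ≠ Sum.inr x})
      (T := ({Sum.inr x} : Set (Site d ⊕ Site d))) (by
        rw [Set.disjoint_left]
        intro j hj hj'
        exact hj hj')
  rw [_root_.iSup_singleton] at h
  refine indep_of_indep_of_le_right h (sup_le ?_ ?_)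
  · refine iSup_le fun u => ?_
    exact le_iSup (fun u : ℝ≥0 => MeasurableSpace.comap (S x u) inferInstance) u
  · have e1 : ∀ u : ℝ≥0, Measurable[fam c S (Sum.inr x)] (S x u) := fun u => by
      rw [measurable_iff_comap_le]
      exact le_iSup (fun u : ℝ≥0 => MeasurableSpace.comap (S x u) inferInstance) u
    have e2 : Measurable[fam c S (Sum.inr x)] (fun ω => S x t ω - S x s ω) := (e1 t).sub (e1 s)
    exact e2.comap_le

theorem hist_le_past (c : Site d → Ω → Bool) (S : Site d → ℝ≥0 → Ω → Site d) (x : Site d)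
    (s : ℝ≥0) : hist c S Set.univ s ≤ past c S x s := by
  refine iSup_le fun y => sup_le ?_ ?_
  · refine le_trans ?_ le_sup_left
    exact le_iSup₂_of_le (f := fun (j : Site d ⊕ Site d)
      (_ : j ∈ {j : Site d ⊕ Site d | j ≠ Sum.inr x}) => fam c S j) (Sum.inl (y : Site d))
      (by simp) le_rfl
  · by_cases h : (y : Site d) = x
    · rw [h]
      exact le_sup_right
    · refine le_trans ?_ le_sup_left
      refine iSup_le fun u => ?_
      refine le_trans (le_iSup (fun u : ℝ≥0 => MeasurableSpace.comap (S (y : Site d) u)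
        inferInstance) u) ?_
      exact le_iSup₂_of_le (f := fun (j : Site d ⊕ Site d)
        (_ : j ∈ {j : Site d ⊕ Site d | j ≠ Sum.inr x}) => fam c S j) (Sum.inr (y : Site d))
        (by simpa using h) le_rfl

theorem incr_le_past (c : Site d → Ω → Bool) (S : Site d → ℝ≥0 → Ω → Site d) {x y : Site d}
    (hxy : x ≠ y) (s t : ℝ≥0) : Measurable[past c S x s] (S y t) := by
  rw [measurable_iff_comap_le]
  refine le_trans ?_ le_sup_left
  refine le_trans (le_iSup (fun u : ℝ≥0 => MeasurableSpace.comap (S y u) inferInstance) t) ?_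
  exact le_iSup₂_of_le (f := fun (j : Site d ⊕ Site d)
        (_ : j ∈ {j : Site d ⊕ Site d | j ≠ Sum.inr x}) => fam c S j) (Sum.inr y)
        (by simpa using hxy.symm) le_rfl

theorem markov0 (hd : 0 < d) (hS : Setup μ p c S) {s t : ℝ≥0} (hst : s ≤ t) {X : Ω → ℝ} {C : ℝ}
    {x : Site d} (hX : Measurable[past c S x s] X) (hXb : ∀ ω, |X ω| ≤ C) {Y : Ω → Site d}
    (hY : Measurable[past c S x s] Y) {φ : Site d → ℝ} {K : ℝ}
    (hφ : ∀ z, |φ z| ≤ K) :
    ∫ ω, X ω * φ (Y ω + (S x t ω - S x s ω)) ∂μ = ∫ ω, X ω * Pt (t - s) φ (Y ω) ∂μ := by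
  have hle := past_le hS x s
  have hXm : Measurable X := hX.mono hle le_rfl
  have hYm : Measurable Y := hY.mono hle le_rfl
  have hΔ : Measurable (fun ω => S x t ω - S x s ω) :=
    ((hS.walk x).meas t).sub ((hS.walk x).meas s)
  have hV : Measurable (fun ω => (X ω, Y ω)) := hXm.prodMk hYm
  have hφm : Measurable φ := measurable_of_countable φ
  have hind : IndepFun (fun ω => (X ω, Y ω)) (fun ω => S x t ω - S x s ω) μ := by
    rw [IndepFun_iff_Indep]
    refine indep_of_indep_of_le_left (past_indep hS x hst) ?_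
    have e2 : Measurable[past c S x s] (fun ω => (X ω, Y ω)) := hX.prodMk hY
    exact e2.comap_le
  have hmap := hind.map_prod_eq_prod_map_map hV.aemeasurable hΔ.aemeasurable
  have hF : Measurable (fun q : (ℝ × Site d) × Site d => q.1.1 * φ (q.1.2 + q.2)) := by fun_prop
  have hint : Integrable (fun q : (ℝ × Site d) × Site d => q.1.1 * φ (q.1.2 + q.2))
      (μ.map (fun ω => ((X ω, Y ω), S x t ω - S x s ω))) := by
    rw [integrable_map_measure hF.aestronglyMeasurable (hV.prodMk hΔ).aemeasurable]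
    refine Integrable.of_bound (hF.comp (hV.prodMk hΔ)).aestronglyMeasurable (C * K) ?_
    refine Filter.Eventually.of_forall fun ω => ?_
    simp only [Function.comp, Real.norm_eq_abs, abs_mul]
    exact mul_le_mul (hXb ω) (hφ _) (abs_nonneg _) ((abs_nonneg _).trans (hXb ω))
  have h1 : ∫ ω, X ω * φ (Y ω + (S x t ω - S x s ω)) ∂μ =
      ∫ q, q.1.1 * φ (q.1.2 + q.2) ∂(μ.map (fun ω => ((X ω, Y ω), S x t ω - S x s ω))) := by
    rw [integral_map (hV.prodMk hΔ).aemeasurable hF.aestronglyMeasurable]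
  rw [h1]
  rw [hmap] at hint ⊢
  rw [integral_prod _ hint, integral_map hV.aemeasurable]
  · refine integral_congr_ae (Filter.Eventually.of_forall fun ω => ?_)
    show ∫ z, X ω * φ (Y ω + z) ∂(μ.map (fun ω => S x t ω - S x s ω)) = _
    rw [integral_const_mul]
    congr 1
    have : IsProbabilityMeasure (μ.map (fun ω => S x t ω - S x s ω)) :=
      Measure.isProbabilityMeasure_map hΔ.aemeasurable
    rw [integral_countable]
    · unfold Pt
      refine tsum_congr fun z => ?_
      rw [smul_eq_mul]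
      congr 1
      rw [measureReal_def, Measure.map_apply hΔ (measurableSet_singleton z)]
      have e := (hS.walk x).incr s t hst z
      rw [show (fun ω => S x t ω - S x s ω) ⁻¹' {z} = {ω | S x t ω - S x s ω = z} from rfl, e,
        ENNReal.toReal_ofReal]
      exact heat_nonneg (sub_nonneg.2 (by exact_mod_cast hst)) z
    · refine Integrable.of_bound (by fun_prop) K ?_
      exact Filter.Eventually.of_forall fun z => hφ _
  · have := hint.integral_prod_left
    exact this.aestronglyMeasurable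

theorem markov1 (hd : 0 < d) (hS : Setup μ p c S) {s t : ℝ≥0} (hst : s ≤ t) {X : Ω → ℝ} {C : ℝ}
    (hX : Measurable[hist c S Set.univ s] X) (hXb : ∀ ω, |X ω| ≤ C) {Y : Ω → Site d}
    (hY : Measurable[hist c S Set.univ s] Y) (x : Site d) {φ : Site d → ℝ} {K : ℝ}
    (hφ : ∀ z, |φ z| ≤ K) :
    ∫ ω, X ω * φ (Y ω + (S x t ω - S x s ω)) ∂μ = ∫ ω, X ω * Pt (t - s) φ (Y ω) ∂μ :=
  markov0 hd hS hst (hX.mono (hist_le_past c S x s) le_rfl) hXb
    (hY.mono (hist_le_past c S x s) le_rfl) hφ

theorem markov2 (hd : 0 < d) (hS : Setup μ p c S) {s t t' : ℝ≥0} (hst : s ≤ t) (hst' : s ≤ t')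
    {X : Ω → ℝ} {C : ℝ}
    (hX : Measurable[hist c S Set.univ s] X) (hXb : ∀ ω, |X ω| ≤ C) {Y Z : Ω → Site d}
    (hY : Measurable[hist c S Set.univ s] Y) (hZ : Measurable[hist c S Set.univ s] Z)
    {x y : Site d} (hxy : x ≠ y) {φ ψ : Site d → ℝ} {K : ℝ}
    (hφ : ∀ z, |φ z| ≤ K) (hψ : ∀ z, |ψ z| ≤ K) :
    ∫ ω, X ω * (φ (Y ω + (S x t ω - S x s ω)) * ψ (Z ω + (S y t' ω - S y s ω))) ∂μ =
      ∫ ω, X ω * (Pt (t - s) φ (Y ω) * Pt (t' - s) ψ (Z ω)) ∂μ := by
  have hφm : Measurable φ := measurable_of_countable φ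
  have hψm : Measurable ψ := measurable_of_countable ψ
  have hPm : Measurable (Pt ((t : ℝ) - s) φ) := measurable_of_countable _
  have hts : (0 : ℝ) ≤ (t : ℝ) - s := sub_nonneg.2 (by exact_mod_cast hst)
  have hX1 := hX.mono (hist_le_past c S x s) le_rfl
  have hY1 := hY.mono (hist_le_past c S x s) le_rfl
  have hZ1 := hZ.mono (hist_le_past c S x s) le_rfl
  have hX2 := hX.mono (hist_le_past c S y s) le_rfl
  have hY2 := hY.mono (hist_le_past c S y s) le_rfl
  have hZ2 := hZ.mono (hist_le_past c S y s) le_rfl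
  have hW : Measurable[past c S x s] (fun ω => X ω * ψ (Z ω + (S y t' ω - S y s ω))) := by
    have e1 := incr_le_past c S hxy s t'
    have e2 := incr_le_past c S hxy s s
    have e4 : Measurable[past c S x s] (fun ω => Z ω + (S y t' ω - S y s ω)) :=
      hZ1.add (e1.sub e2)
    exact hX1.mul (hψm.comp e4)
  have h1 := markov0 (C := C * K) hd hS hst (x := x) hW (fun ω => by
    rw [abs_mul]
    exact mul_le_mul (hXb ω) (hψ _) (abs_nonneg _) ((abs_nonneg _).trans (hXb ω))) hY1 hφ
  have hW2 : Measurable[past c S y s] (fun ω => X ω * Pt (t - s) φ (Y ω)) :=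
    hX2.mul (hPm.comp hY2)
  have h2 := markov0 (C := C * K) hd hS hst' (x := y) hW2 (fun ω => by
    rw [abs_mul]
    exact mul_le_mul (hXb ω) (Pt_bdd hd hts hφ _) (abs_nonneg _)
      ((abs_nonneg _).trans (hXb ω))) hZ2 hψ
  calc ∫ ω, X ω * (φ (Y ω + (S x t ω - S x s ω)) * ψ (Z ω + (S y t' ω - S y s ω))) ∂μ
      = ∫ ω, X ω * ψ (Z ω + (S y t' ω - S y s ω)) * φ (Y ω + (S x t ω - S x s ω)) ∂μ := by
        refine integral_congr_ae (Filter.Eventually.of_forall fun ω => ?_)
        show _ = _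
        ring
    _ = ∫ ω, X ω * ψ (Z ω + (S y t' ω - S y s ω)) * Pt (t - s) φ (Y ω) ∂μ := h1
    _ = ∫ ω, X ω * Pt (t - s) φ (Y ω) * ψ (Z ω + (S y t' ω - S y s ω)) ∂μ := by
        refine integral_congr_ae (Filter.Eventually.of_forall fun ω => ?_)
        show _ = _
        ring
    _ = ∫ ω, X ω * Pt (t - s) φ (Y ω) * Pt (t' - s) ψ (Z ω) ∂μ := h2
    _ = _ := by
        refine integral_congr_ae (Filter.Eventually.of_forall fun ω => ?_)
        show _ = _
        ring

end Pool.Agent.T2H99.AW
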