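import Pool.Agent.T2H99.AW.Defs2
import Pool.Agent.T2H99.AW.G
import Pool.Agent.T2H99.AW.MK

set_option autoImplicit false

/-!
# AW, package ME: measurability, bounds and integrability of the grid quantities (uses G, MK)

`ga c S m A i` takes finitely many values (subsets of `A`); the event `{ga = F}` is decided by the
colours and the positions at the grid times `≤ i` of the labels in `A` (countable values).
-/

namespace Pool.Agent.T2H99.AW

open Finset Filter Topology MeasureTheory ProbabilityTheory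
open scoped NNReal ENNReal BigOperators

variable {d : ℕ} {Ω : Type} [mΩ : MeasurableSpace Ω] {μ : Measure Ω} [IsProbabilityMeasure μ]
  {p : ℝ} {c : Site d → Ω → Bool} {S : Site d → ℝ≥0 → Ω → Site d}

theorem meas_gpos (c : Site d → Ω → Bool) (S : Site d → ℝ≥0 → Ω → Site d) (m : ℕ)
    {A : Set (Site d)} {x : Site d} (hx : x ∈ A) {i : ℕ} {s : ℝ≥0} (hi : (i : ℝ≥0) / 2 ^ m ≤ s) :
    Measurable[hist c S A s] (fun ω => gpos S m ω i x) := by
  have h1 : MeasurableSpace.comap (S x ((i : ℝ≥0) / 2 ^ m)) inferInstance ≤ hist c S A s := by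
    refine le_trans ?_ (le_iSup (fun x : A => (MeasurableSpace.comap (c x) inferInstance) ⊔
      ⨆ u : Set.Iic s, MeasurableSpace.comap (S x u) inferInstance) ⟨x, hx⟩)
    refine le_trans ?_ le_sup_right
    exact le_iSup (fun u : Set.Iic s => MeasurableSpace.comap (S x u) inferInstance)
      ⟨(i : ℝ≥0) / 2 ^ m, hi⟩
  have h2 : Measurable[hist c S A s] (S x ((i : ℝ≥0) / 2 ^ m)) :=
    (comap_measurable _).mono h1 le_rfl
  exact (measurable_const_add x).comp h2

private theorem meas_col (c : Site d → Ω → Bool) (S : Site d → ℝ≥0 → Ω → Site d)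
    {A : Set (Site d)} {x : Site d} (hx : x ∈ A) (s : ℝ≥0) :
    Measurable[hist c S A s] (c x) := by
  have h1 : MeasurableSpace.comap (c x) inferInstance ≤ hist c S A s := by
    refine le_trans ?_ (le_iSup (fun x : A => (MeasurableSpace.comap (c x) inferInstance) ⊔
      ⨆ u : Set.Iic s, MeasurableSpace.comap (S x u) inferInstance) ⟨x, hx⟩)
    exact le_sup_left
  exact (comap_measurable _).mono h1 le_rfl

/-- Everything that depends only on the colours of the labels in `A` and their positions at the grid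
times `≤ i` is measurable with respect to the history. -/
theorem meas_factor (c : Site d → Ω → Bool) (S : Site d → ℝ≥0 → Ω → Site d) (m : ℕ)
    (A : Finset (Site d)) {i : ℕ} {s : ℝ≥0} (hi : (i : ℝ≥0) / 2 ^ m ≤ s) {β : Type}
    [MeasurableSpace β] (f : (Site d → Bool) → (ℕ → Site d → Site d) → β)
    (hf : ∀ (c c' : Site d → Bool) (P P' : ℕ → Site d → Site d), (∀ x ∈ A, c x = c' x) →
      (∀ j ≤ i, ∀ x ∈ A, P j x = P' j x) → f c P = f c' P') :
    Measurable[hist c S (A : Set (Site d)) s] (fun ω => f (fun x => c x ω) (gpos S m ω)) := by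
  let g : (A → Bool × (Fin (i + 1) → Site d)) → β := fun a =>
    f (fun x => if h : x ∈ A then (a ⟨x, h⟩).1 else true)
      (fun j x => if h : x ∈ A then (if hj : j < i + 1 then (a ⟨x, h⟩).2 ⟨j, hj⟩ else 0) else 0)
  let Φ : Ω → (A → Bool × (Fin (i + 1) → Site d)) := fun ω x =>
    (c x ω, fun j => gpos S m ω j x)
  have hΦ : Measurable[hist c S (A : Set (Site d)) s] Φ := by
    let _ : MeasurableSpace Ω := hist c S (A : Set (Site d)) s
    refine measurable_pi_lambda _ fun x => Measurable.prodMk ?_ (measurable_pi_lambda _ fun j => ?_)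
    · exact meas_col c S x.2 s
    · refine meas_gpos c S m x.2 (le_trans ?_ hi)
      gcongr
      exact Nat.lt_succ_iff.1 j.2
  have hg : Measurable g := measurable_of_countable g
  have h1 : (fun ω => f (fun x => c x ω) (gpos S m ω)) = g ∘ Φ := by
    funext ω
    refine hf _ _ _ _ (fun x hx => ?_) fun j hj x hx => ?_
    · simp [Φ, hx]
    · simp [Φ, hx, Nat.lt_succ_iff.2 hj]
  rw [h1]
  exact hg.comp hΦ

theorem meas_ga (c : Site d → Ω → Bool) (S : Site d → ℝ≥0 → Ω → Site d) (m : ℕ)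
    (A : Finset (Site d)) {i : ℕ} {s : ℝ≥0} (hi : (i : ℝ≥0) / 2 ^ m ≤ s) (F : Finset (Site d)) :
    MeasurableSet[hist c S (A : Set (Site d)) s] {ω | ga c S m A i ω = F} := by
  let _ : MeasurableSpace Ω := hist c S (A : Set (Site d)) s
  refine measurableSet_setOfPred.2 ?_
  refine meas_factor c S m A hi (fun c P => gAlive c P A i = F) fun c c' P P' h1 h2 => ?_
  rw [gAlive_congr h1 i h2]

theorem meas_mem_ga (c : Site d → Ω → Bool) (S : Site d → ℝ≥0 → Ω → Site d) (m : ℕ)
    (A : Finset (Site d)) {i : ℕ} {s : ℝ≥0} (hi : (i : ℝ≥0) / 2 ^ m ≤ s) (x : Site d) :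
    MeasurableSet[hist c S (A : Set (Site d)) s] {ω | x ∈ ga c S m A i ω} := by
  let _ : MeasurableSpace Ω := hist c S (A : Set (Site d)) s
  refine measurableSet_setOfPred.2 ?_
  refine meas_factor c S m A hi (fun c P => x ∈ gAlive c P A i) fun c c' P P' h1 h2 => ?_
  rw [gAlive_congr h1 i h2]

theorem meas_gw (c : Site d → Ω → Bool) (S : Site d → ℝ≥0 → Ω → Site d) (m : ℕ)
    (A : Finset (Site d)) {i : ℕ} {s : ℝ≥0} (hi : (i : ℝ≥0) / 2 ^ m ≤ s) (b : Bool)
    (φ : Site d → ℝ) : Measurable[hist c S (A : Set (Site d)) s] (gw c S m A i b φ) := by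
  refine meas_factor c S m A hi (fun c P => wt c (P i) (gAlive c P A i) b φ)
    fun c c' P P' h1 h2 => ?_
  have h3 := gAlive_subset c' P' A i
  simp only [gAlive_congr h1 i h2, wt]
  have h4 : (gAlive c' P' A i).filter (fun x => c x = b) =
      (gAlive c' P' A i).filter (fun x => c' x = b) :=
    Finset.filter_congr fun x hx => by rw [h1 x (h3 hx)]
  rw [h4]
  refine Finset.sum_congr rfl fun x hx => ?_
  rw [h2 i le_rfl x (h3 (Finset.mem_filter.1 hx).1)]

theorem meas_gt (c : Site d → Ω → Bool) (S : Site d → ℝ≥0 → Ω → Site d) (m : ℕ)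
    (A : Finset (Site d)) {i : ℕ} {s : ℝ≥0} (hi : (i : ℝ≥0) / 2 ^ m ≤ s)
    (φ : Site d → ℝ) : Measurable[hist c S (A : Set (Site d)) s] (gt c S m A i φ) := by
  refine meas_factor c S m A hi (fun c P => tot c (P i) (gAlive c P A i) φ)
    fun c c' P P' h1 h2 => ?_
  have h3 := gAlive_subset c' P' A i
  simp only [gAlive_congr h1 i h2, tot]
  refine Finset.sum_congr rfl fun x hx => ?_
  rw [h2 i le_rfl x (h3 hx), h1 x (h3 hx)]

private theorem ga_card_le (c : Site d → Ω → Bool) (S : Site d → ℝ≥0 → Ω → Site d) (m : ℕ)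
    (A : Finset (Site d)) (i : ℕ) (ω : Ω) : (ga c S m A i ω).card ≤ A.card :=
  Finset.card_le_card (gAlive_subset _ _ A i)

theorem gw_bdd (c : Site d → Ω → Bool) (S : Site d → ℝ≥0 → Ω → Site d) (m : ℕ)
    (A : Finset (Site d)) (i : ℕ) (b : Bool) {φ : Site d → ℝ} {K : ℝ} (hφ : ∀ z, |φ z| ≤ K)
    (ω : Ω) : |gw c S m A i b φ ω| ≤ A.card * K := by
  have hK : 0 ≤ K := (abs_nonneg _).trans (hφ 0)
  unfold gw wt
  refine (Finset.abs_sum_le_sum_abs _ _).trans ?_
  refine (Finset.sum_le_card_nsmul _ _ K fun x _ => hφ _).trans ?_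
  rw [nsmul_eq_mul]
  have h1 : (Finset.filter (fun x => c x ω = b) (ga c S m A i ω)).card ≤ A.card :=
    (Finset.card_filter_le _ _).trans (ga_card_le c S m A i ω)
  have h2 : ((Finset.filter (fun x => c x ω = b) (ga c S m A i ω)).card : ℝ) ≤ A.card := by
    exact_mod_cast h1
  exact mul_le_mul_of_nonneg_right h2 hK

theorem gt_bdd (c : Site d → Ω → Bool) (S : Site d → ℝ≥0 → Ω → Site d) (m : ℕ)
    (A : Finset (Site d)) (i : ℕ) {φ : Site d → ℝ} {K : ℝ} (hφ : ∀ z, |φ z| ≤ K)
    (ω : Ω) : |gt c S m A i φ ω| ≤ A.card * K := by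
  have hK : 0 ≤ K := (abs_nonneg _).trans (hφ 0)
  unfold gt tot
  refine (Finset.abs_sum_le_sum_abs _ _).trans ?_
  refine (Finset.sum_le_card_nsmul _ _ K fun x _ => ?_).trans ?_
  · have : |sg (c x ω)| = 1 := by
      unfold sg
      split_ifs <;> simp
    rw [abs_mul, this, one_mul]
    exact hφ _
  · rw [nsmul_eq_mul]
    have h2 : ((ga c S m A i ω).card : ℝ) ≤ A.card := by
      exact_mod_cast ga_card_le c S m A i ω
    exact mul_le_mul_of_nonneg_right h2 hK

theorem gw_integrable (hS : Setup μ p c S) (m : ℕ) (A : Finset (Site d)) (i : ℕ) (b : Bool)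
    {φ : Site d → ℝ} {K : ℝ} (hφ : ∀ z, |φ z| ≤ K) : Integrable (gw c S m A i b φ) μ := by
  have h1 : Measurable (gw c S m A i b φ) :=
    (meas_gw c S m A (i := i) (le_refl ((i : ℝ≥0) / 2 ^ m)) b φ).mono (hist_le hS _ _) le_rfl
  refine Integrable.of_bound h1.aestronglyMeasurable (A.card * K) (ae_of_all _ fun ω => ?_)
  rw [Real.norm_eq_abs]
  exact gw_bdd c S m A i b hφ ω

theorem gt_integrable (hS : Setup μ p c S) (m : ℕ) (A : Finset (Site d)) (i : ℕ)
    {φ : Site d → ℝ} {K : ℝ} (hφ : ∀ z, |φ z| ≤ K) : Integrable (gt c S m A i φ) μ := by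
  have h1 : Measurable (gt c S m A i φ) :=
    (meas_gt c S m A (i := i) (le_refl ((i : ℝ≥0) / 2 ^ m)) φ).mono (hist_le hS _ _) le_rfl
  refine Integrable.of_bound h1.aestronglyMeasurable (A.card * K) (ae_of_all _ fun ω => ?_)
  rw [Real.norm_eq_abs]
  exact gt_bdd c S m A i hφ ω

end Pool.Agent.T2H99.AW
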