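import Pool.Agent.T2H99.AW.IV
import Pool.Agent.T2H99.AW.HK3

set_option autoImplicit false

/-!
# AW, package PZ: Paley-Zygmund bound (uses IV, CD2, HK2); see the explanation in FI.lean
-/

namespace Pool.Agent.T2H99.AW

open Finset Filter Topology MeasureTheory ProbabilityTheory
open scoped NNReal ENNReal BigOperators

variable {d : ℕ} {Ω : Type} [mΩ : MeasurableSpace Ω] {μ : Measure Ω} [IsProbabilityMeasure μ]
  {p : ℝ} {c : Site d → Ω → Bool} {S : Site d → ℝ≥0 → Ω → Site d}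
  {alive : Finset (Site d) → ℝ≥0 → Ω → Finset (Site d)}

namespace PZ

omit [IsProbabilityMeasure μ] in
/-- the abstract Paley-Zygmund bound -/
theorem paley [IsProbabilityMeasure μ] {L : Ω → ℝ} (hL : Integrable L μ)
    (hL2 : Integrable (fun ω => L ω * L ω) μ) {M B : ℝ} (hM : 0 < M) (hB : 0 < B)
    (h1 : ∫ ω, L ω ∂μ = M) (h2 : ∫ ω, L ω * L ω ∂μ ≤ B * M ^ 2) :
    1 / (4 * B) ≤ μ.real {ω | M / 2 ≤ L ω} := by
  set E : Set Ω := {ω | M / 2 ≤ L ω} with hE
  have hEm : NullMeasurableSet E μ := nullMeasurableSet_le aemeasurable_const hL.aemeasurable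
  set a : ℝ := 1 / (2 * B * M) with ha
  have ha0 : 0 < a := by positivity
  have hainv : a⁻¹ = 2 * B * M := by rw [ha, one_div, inv_inv]
  have hInd : Integrable (E.indicator (fun _ => (1 : ℝ))) μ :=
    (integrable_const (1 : ℝ)).indicator₀ hEm
  have hpt : ∀ ω, L ω ≤ M / 2 + (a * (L ω * L ω) + a⁻¹ * E.indicator (fun _ => (1 : ℝ)) ω) / 2 := by
    intro ω
    have h3 : 0 ≤ a * (L ω * L ω) := mul_nonneg ha0.le (mul_self_nonneg _)
    by_cases hω : ω ∈ E
    · rw [Set.indicator_of_mem hω, mul_one]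
      have h4 : 2 * L ω ≤ a * (L ω * L ω) + a⁻¹ := by
        have h5 : a * (L ω * L ω) + a⁻¹ - 2 * L ω = a * (L ω - a⁻¹) ^ 2 := by
          field_simp; ring
        have h6 : 0 ≤ a * (L ω - a⁻¹) ^ 2 := by positivity
        linarith
      linarith
    · rw [Set.indicator_of_notMem hω, mul_zero, add_zero]
      have h4 : L ω < M / 2 := not_le.1 hω
      linarith
  have hI : ∫ ω, E.indicator (fun _ => (1 : ℝ)) ω ∂μ = μ.real E := by
    rw [integral_indicator₀ hEm]
    simp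
  have hA1 : Integrable (fun ω => a * (L ω * L ω)) μ := hL2.const_mul a
  have hA2 : Integrable (fun ω => a⁻¹ * E.indicator (fun _ => (1 : ℝ)) ω) μ := hInd.const_mul a⁻¹
  have hA3 : Integrable (fun ω => a * (L ω * L ω) + a⁻¹ * E.indicator (fun _ => (1 : ℝ)) ω) μ :=
    hA1.add hA2
  have hA4 : Integrable (fun ω => (a * (L ω * L ω) + a⁻¹ * E.indicator (fun _ => (1 : ℝ)) ω) / 2) μ :=
    hA3.div_const 2
  have hint : Integrable (fun ω => M / 2 +
      (a * (L ω * L ω) + a⁻¹ * E.indicator (fun _ => (1 : ℝ)) ω) / 2) μ :=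
    (integrable_const _).add hA4
  have h3 := integral_mono hL hint hpt
  have h4 : ∫ ω, (M / 2 + (a * (L ω * L ω) + a⁻¹ * E.indicator (fun _ => (1 : ℝ)) ω) / 2) ∂μ =
      M / 2 + (a * ∫ ω, L ω * L ω ∂μ + a⁻¹ * μ.real E) / 2 := by
    have h5 : ∫ ω, (a * (L ω * L ω) + a⁻¹ * E.indicator (fun _ => (1 : ℝ)) ω) / 2 ∂μ =
        (a * ∫ ω, L ω * L ω ∂μ + a⁻¹ * μ.real E) / 2 := by
      rw [integral_div, integral_add hA1 hA2, integral_const_mul, integral_const_mul, hI]
    rw [integral_add (integrable_const _) hA4, h5]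
    simp
  rw [h1, h4] at h3
  have h5 : a * ∫ ω, L ω * L ω ∂μ ≤ M / 2 := by
    calc a * ∫ ω, L ω * L ω ∂μ ≤ a * (B * M ^ 2) := by gcongr
      _ = M / 2 := by rw [ha]; field_simp
  rw [hainv] at h3
  rw [div_le_iff₀ (by positivity)]
  have h6 : M ≤ 2 * B * M * μ.real E * 2 := by linarith
  have h7 : 1 * M ≤ (2 * B * μ.real E * 2) * M := by linarith
  have h8 := le_of_mul_le_mul_right h7 hM
  linarith

/-- sums over differences -/
theorem sum_dist_le (f : ℕ → ℝ) (hf : ∀ k, 0 ≤ f k) (W : Finset ℕ) (t s : ℕ)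
    (hW : W ⊆ Finset.range (t + 1)) (hs : s ≤ t) :
    ∑ s' ∈ W, f (Nat.dist s s') ≤ 2 * ∑ k ∈ Finset.range (t + 1), f k := by
  classical
  calc ∑ s' ∈ W, f (Nat.dist s s') ≤ ∑ s' ∈ Finset.range (t + 1), f (Nat.dist s s') :=
        Finset.sum_le_sum_of_subset_of_nonneg hW fun _ _ _ => hf _
    _ = ∑ k ∈ Finset.range (t + 1), ∑ s' ∈ (Finset.range (t + 1)).filter (fun s' => Nat.dist s s' = k),
          f (Nat.dist s s') := by
        refine (Finset.sum_fiberwise_of_maps_to (fun s' hs' => ?_) _).symm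
        rw [Finset.mem_range] at hs' ⊢
        unfold Nat.dist; omega
    _ ≤ ∑ k ∈ Finset.range (t + 1), 2 * f k := by
        refine Finset.sum_le_sum fun k _ => ?_
        have h1 : ∑ s' ∈ (Finset.range (t + 1)).filter (fun s' => Nat.dist s s' = k),
            f (Nat.dist s s') = ((Finset.range (t + 1)).filter (fun s' => Nat.dist s s' = k)).card * f k := by
          rw [Finset.sum_congr rfl fun s' hs' => by rw [(Finset.mem_filter.1 hs').2],
            Finset.sum_const, nsmul_eq_mul]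
        rw [h1]
        refine mul_le_mul_of_nonneg_right ?_ (hf k)
        have h2 : (Finset.range (t + 1)).filter (fun s' => Nat.dist s s' = k) ⊆ {s + k, s - k} := by
          intro s' hs'
          have h3 := (Finset.mem_filter.1 hs').2
          rw [Finset.mem_insert, Finset.mem_singleton]
          unfold Nat.dist at h3
          omega
        have h4 := (Finset.card_le_card h2).trans (Finset.card_le_two)
        exact_mod_cast h4
    _ = 2 * ∑ k ∈ Finset.range (t + 1), f k := by rw [Finset.mul_sum]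

/-- the double sum -/
theorem sum_bound (W : Finset ℕ) (D N : ℕ → ℝ) (J : ℕ → ℕ → ℝ) (K M δ : ℝ) (hK : 0 < K)
    (hM : 0 < M) (hMD : M = ∑ k ∈ W, D k) (hD0 : ∀ k, 0 ≤ D k) (hδ : 0 ≤ δ)
    (hMle : (W.card : ℝ) * δ ≤ M)
    (hG : ∀ s ∈ W, ∑ s' ∈ W, N (Nat.dist s s') ≤ 2 * (K * (2 * M)))
    (hJ : ∀ s ∈ W, ∀ s' ∈ W, J s s' ≤
      D s * N (Nat.dist s s') + D s' * N (Nat.dist s' s) + (K ^ 2 + K) * δ ^ 2) :
    ∑ s ∈ W, ∑ s' ∈ W, J s s' ≤ (K ^ 2 + 17 * K) * M ^ 2 := by
  have h1 : ∑ s ∈ W, ∑ s' ∈ W, J s s' ≤ ∑ s ∈ W, ∑ s' ∈ W, (D s * N (Nat.dist s s') +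
      D s' * N (Nat.dist s' s) + (K ^ 2 + K) * δ ^ 2) :=
    Finset.sum_le_sum fun s hs => Finset.sum_le_sum fun s' hs' => hJ s hs s' hs'
  refine h1.trans ?_
  simp only [Finset.sum_add_distrib]
  have h2 : ∑ s ∈ W, ∑ s' ∈ W, D s * N (Nat.dist s s') ≤ 4 * K * M ^ 2 := by
    calc ∑ s ∈ W, ∑ s' ∈ W, D s * N (Nat.dist s s') =
          ∑ s ∈ W, D s * ∑ s' ∈ W, N (Nat.dist s s') :=
          Finset.sum_congr rfl fun s _ => by rw [Finset.mul_sum]
      _ ≤ ∑ s ∈ W, D s * (2 * (K * (2 * M))) :=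
          Finset.sum_le_sum fun s hs => mul_le_mul_of_nonneg_left (hG s hs) (hD0 s)
      _ = 4 * K * M ^ 2 := by rw [← Finset.sum_mul, ← hMD]; ring
  have h3 : ∑ s ∈ W, ∑ s' ∈ W, D s' * N (Nat.dist s' s) ≤ 4 * K * M ^ 2 := by
    rw [Finset.sum_comm]
    exact h2
  have h5 : ∑ _s ∈ W, ∑ _s' ∈ W, (K ^ 2 + K) * δ ^ 2 ≤ (K ^ 2 + K) * M ^ 2 := by
    simp only [Finset.sum_const, nsmul_eq_mul]
    have h6 : ((W.card : ℝ) * δ) ^ 2 ≤ M ^ 2 :=
      pow_le_pow_left₀ (mul_nonneg (Nat.cast_nonneg _) hδ) hMle 2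
    calc (W.card : ℝ) * (W.card * ((K ^ 2 + K) * δ ^ 2)) =
          (K ^ 2 + K) * ((W.card : ℝ) * δ) ^ 2 := by ring
      _ ≤ (K ^ 2 + K) * M ^ 2 := by
          refine mul_le_mul_of_nonneg_left h6 (by positivity)
  have h7 : 0 ≤ K * M ^ 2 := by positivity
  nlinarith

end PZ

open PZ in
/-- FI1 (Paley-Zygmund). -/
theorem pz (hd : 0 < d) (hA : Sys μ (1 / 2) c S alive) {An : ℕ → Finset (Site d)}
    (hm : Monotone An) (hex : ∀ x, ∃ n, x ∈ An n) (b : Bool) {K : ℝ} (hK : 0 < K) :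
    ∃ κ : ℝ, 0 < κ ∧ ∀ t : ℕ, 4 ≤ t → 0 < dens μ c S alive true t →
      dens μ c S alive true (t / 4) ≤ K * dens μ c S alive true t →
      (∑ k ∈ Finset.range (t + 1), heat d (k : ℝ) 0) ≤ K * t * dens μ c S alive true t →
      (∀ s : ℝ, (t : ℝ) / 8 ≤ s → heat d s 0 ≤ K * dens μ c S alive true t ^ 2) →
      κ ≤ μ.real {ω | (∑ k ∈ Finset.Icc (t / 2) t, dens μ c S alive b k) / 2 ≤
        ∑ k ∈ Finset.Icc (t / 2) t, ci c S alive An k b ω} := by
  refine ⟨1 / (4 * (K ^ 2 + 17 * K)), by positivity, ?_⟩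
  intro t ht hpos h4 hG hh
  set D : ℕ → ℝ := dens μ c S alive true with hD
  have hDb : ∀ k, dens μ c S alive b k = D k := by
    intro k
    cases b with
    | true => rfl
    | false =>
      have h := dens_diff hd (by norm_num) hA k
      rw [hD]
      linarith
  have hD0 : ∀ k, 0 ≤ D k := fun k => dens_nonneg hd hA true k
  have hDanti : Antitone D := dens_anti hd hA true
  set W : Finset ℕ := Finset.Icc (t / 2) t with hW
  have hWr : W ⊆ Finset.range (t + 1) := by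
    intro k hk
    rw [hW, Finset.mem_Icc] at hk
    rw [Finset.mem_range]; omega
  set M : ℝ := ∑ k ∈ W, dens μ c S alive b k with hM
  have hMD : M = ∑ k ∈ W, D k := Finset.sum_congr rfl fun k _ => hDb k
  have hcard : (t : ℝ) ≤ 2 * W.card := by
    have : t ≤ 2 * W.card := by
      rw [hW, Nat.card_Icc]; omega
    exact_mod_cast this
  have hMle : (W.card : ℝ) * D t ≤ M := by
    rw [hMD, ← nsmul_eq_mul, ← Finset.sum_const]
    refine Finset.sum_le_sum fun k hk => hDanti ?_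
    rw [hW, Finset.mem_Icc] at hk
    exact hk.2
  have hMt : t * D t ≤ 2 * M := by
    calc (t : ℝ) * D t ≤ (2 * W.card) * D t := mul_le_mul_of_nonneg_right hcard (hD0 t)
      _ = 2 * (W.card * D t) := by ring
      _ ≤ 2 * M := by linarith
  have hM0 : 0 < M := by
    have h1 : (4 : ℝ) ≤ t := by exact_mod_cast ht
    have h2 : 0 < (t : ℝ) * D t := by positivity
    linarith
  set N : ℕ → ℝ := fun k => heat d (k : ℝ) 0 with hN
  have hN0 : ∀ k, 0 ≤ N k := fun k => heat_nonneg (Nat.cast_nonneg k) 0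
  -- second moments
  have hkey : ∀ s ∈ W, ∀ s' ∈ W, s ≤ s' →
      Integrable (fun ω => ci c S alive An s b ω * ci c S alive An s' b ω) μ ∧
      ∫ ω, ci c S alive An s b ω * ci c S alive An s' b ω ∂μ ≤
        D s * N (Nat.dist s s') + (K ^ 2 + K) * D t ^ 2 := by
    intro s hs s' hs' hss
    have hs1 : t / 2 ≤ s := (Finset.mem_Icc.1 (hW ▸ hs)).1
    have h1 : t / 4 ≤ s := by omega
    obtain ⟨hi, hb⟩ := ci_second hd hA hm hex h1 hss b
    refine ⟨hi, hb.trans ?_⟩
    rw [hDb, hDb]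
    have h2 : heat d ((s' : ℝ) - s) 0 = N (Nat.dist s s') := by
      simp only [hN]
      rw [Nat.dist_eq_sub_of_le hss, Nat.cast_sub hss]
    have h3 : D (t / 4) ^ 2 ≤ (K * D t) ^ 2 := pow_le_pow_left₀ (hD0 _) h4 2
    have h5 : heat d (2 * ((s : ℝ) - ((t / 4 : ℕ) : ℝ))) 0 ≤ K * D t ^ 2 := by
      refine hh _ ?_
      have h6 : t ≤ 2 * s + 1 := by omega
      have h7 : 4 * (t / 4) ≤ t := by omega
      have h6' : (t : ℝ) ≤ 2 * s + 1 := by exact_mod_cast h6
      have h7' : 4 * ((t / 4 : ℕ) : ℝ) ≤ t := by exact_mod_cast h7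
      have h8 : (4 : ℝ) ≤ t := by exact_mod_cast ht
      linarith
    rw [h2]
    nlinarith
  have hkey2 : ∀ s ∈ W, ∀ s' ∈ W,
      Integrable (fun ω => ci c S alive An s b ω * ci c S alive An s' b ω) μ ∧
      ∫ ω, ci c S alive An s b ω * ci c S alive An s' b ω ∂μ ≤
        D s * N (Nat.dist s s') + D s' * N (Nat.dist s' s) + (K ^ 2 + K) * D t ^ 2 := by
    intro s hs s' hs'
    rcases le_total s s' with h | h
    · obtain ⟨hi, hb⟩ := hkey s hs s' hs' h
      refine ⟨hi, hb.trans ?_⟩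
      have := mul_nonneg (hD0 s') (hN0 (Nat.dist s' s))
      linarith
    · obtain ⟨hi, hb⟩ := hkey s' hs' s hs h
      have e1 : (fun ω => ci c S alive An s b ω * ci c S alive An s' b ω) =
          fun ω => ci c S alive An s' b ω * ci c S alive An s b ω := by
        funext ω; ring
      rw [e1]
      refine ⟨hi, hb.trans ?_⟩
      have := mul_nonneg (hD0 s) (hN0 (Nat.dist s s'))
      linarith
  set L : Ω → ℝ := fun ω => ∑ k ∈ W, ci c S alive An k b ω with hL
  have hLint : Integrable L μ := integrable_finsetSum _ fun k _ => ci_integrable hd hA hm k b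
  have hLM : ∫ ω, L ω ∂μ = M := by
    simp only [hL]
    rw [integral_finsetSum _ fun k _ => ci_integrable hd hA hm k b]
    exact Finset.sum_congr rfl fun k _ => ci_int hd hA hm hex k b
  have hLL : (fun ω => L ω * L ω) = fun ω => ∑ s ∈ W, ∑ s' ∈ W,
      ci c S alive An s b ω * ci c S alive An s' b ω := by
    funext ω
    simp only [hL]
    rw [Finset.sum_mul_sum]
  have hL2 : Integrable (fun ω => L ω * L ω) μ := by
    rw [hLL]
    exact integrable_finsetSum _ fun s hs => integrable_finsetSum _ fun s' hs' =>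
      (hkey2 s hs s' hs').1
  have hG' : ∀ s ∈ W, ∑ s' ∈ W, N (Nat.dist s s') ≤ 2 * (K * (2 * M)) := by
    intro s hs
    refine (sum_dist_le N hN0 W t s hWr ?_).trans ?_
    · exact (Finset.mem_Icc.1 (hW ▸ hs)).2
    · have h1 : ∑ k ∈ Finset.range (t + 1), N k ≤ K * (2 * M) := by
        refine hG.trans ?_
        calc K * t * D t = K * (t * D t) := by ring
          _ ≤ K * (2 * M) := by gcongr
      linarith
  have hE2 : ∫ ω, L ω * L ω ∂μ ≤ (K ^ 2 + 17 * K) * M ^ 2 := by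
    rw [hLL, integral_finsetSum _ fun s hs => integrable_finsetSum _ fun s' hs' =>
      (hkey2 s hs s' hs').1]
    have h1 : ∀ s ∈ W, ∫ ω, ∑ s' ∈ W, ci c S alive An s b ω * ci c S alive An s' b ω ∂μ =
        ∑ s' ∈ W, ∫ ω, ci c S alive An s b ω * ci c S alive An s' b ω ∂μ := fun s hs =>
      integral_finsetSum _ fun s' hs' => (hkey2 s hs s' hs').1
    rw [Finset.sum_congr rfl h1]
    exact sum_bound W D N _ K M (D t) hK hM0 hMD hD0 (hD0 t) hMle hG'
      fun s hs s' hs' => (hkey2 s hs s' hs').2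
  exact paley hLint hL2 hM0 (by positivity) hLM hE2

end Pool.Agent.T2H99.AW
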