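import Pool.Agent.T2H99.AW.LN
import Pool.Agent.T2H99.AW.PR

set_option autoImplicit false

/-!
# AW, package U1: survival in a red majority, one path (uses LN, PR)
-/

namespace Pool.Agent.T2H99.AW

open Finset Filter Topology MeasureTheory ProbabilityTheory
open scoped NNReal ENNReal BigOperators

variable {d : ℕ} {Ω : Type} [mΩ : MeasurableSpace Ω] {μ : Measure Ω} [IsProbabilityMeasure μ]
  {p : ℝ} {c : Site d → Ω → Bool} {S : Site d → ℝ≥0 → Ω → Site d}

/-- The system on `A` looks normal, at time `s` and at the distance scale `√δ`, around `w`. -/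
def Good (c : Site d → Ω → Bool) (S : Site d → ℝ≥0 → Ω → Site d) (m : ℕ) (A : Finset (Site d))
    (β : ℝ) (s δ : ℕ) (w : Site d) : Set Ω :=
  {ω | β / 2 ≤ gt c S m A (s * 2 ^ m) (fun z => heat d δ (w - z)) ω ∧
    gw c S m A (s * 2 ^ m) true (fun z => heat d δ (w - z)) ω +
      gw c S m A (s * 2 ^ m) false (fun z => heat d δ (w - z)) ω ≤ 3}

private theorem time_div (s m : ℕ) : (((s * 2 ^ m : ℕ) : ℝ≥0)) / 2 ^ m = s := by
  push_cast
  rw [mul_div_assoc, div_self (by positivity), mul_one]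

private theorem meas_gt' (c : Site d → Ω → Bool) (S : Site d → ℝ≥0 → Ω → Site d) (m : ℕ)
    (A : Finset (Site d)) {i s : ℕ} (hi : i ≤ s) (φ : Site d → ℝ) :
    Measurable[hist c S Set.univ (s : ℝ≥0)] (gt c S m A (i * 2 ^ m) φ) := by
  have h := meas_gt c S m A (i := i * 2 ^ m) (s := (s : ℝ≥0)) (by
    rw [time_div]; exact_mod_cast hi) φ
  exact h.mono (hist_mono c S (Set.subset_univ _) le_rfl) le_rfl

private theorem meas_gw' (c : Site d → Ω → Bool) (S : Site d → ℝ≥0 → Ω → Site d) (m : ℕ)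
    (A : Finset (Site d)) {i s : ℕ} (hi : i ≤ s) (b : Bool) (φ : Site d → ℝ) :
    Measurable[hist c S Set.univ (s : ℝ≥0)] (gw c S m A (i * 2 ^ m) b φ) := by
  have h := meas_gw c S m A (i := i * 2 ^ m) (s := (s : ℝ≥0)) (by
    rw [time_div]; exact_mod_cast hi) b φ
  exact h.mono (hist_mono c S (Set.subset_univ _) le_rfl) le_rfl

private theorem meas_good (c : Site d → Ω → Bool) (S : Site d → ℝ≥0 → Ω → Site d) (m : ℕ)
    (A : Finset (Site d)) (β : ℝ) {i s : ℕ} (hi : i ≤ s) (δ : ℕ) (w : Site d) :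
    MeasurableSet[hist c S Set.univ (s : ℝ≥0)] (Good c S m A β i δ w) := by
  have h1 := meas_gt' c S m A hi (fun z => heat d δ (w - z))
  have h2 := meas_gw' c S m A hi true (fun z => heat d δ (w - z))
  have h3 := meas_gw' c S m A hi false (fun z => heat d δ (w - z))
  have h4 : MeasurableSet[hist c S Set.univ (s : ℝ≥0)]
      {ω | β / 2 ≤ gt c S m A (i * 2 ^ m) (fun z => heat d δ (w - z)) ω} := h1 measurableSet_Ici
  have h5 : MeasurableSet[hist c S Set.univ (s : ℝ≥0)]
      {ω | gw c S m A (i * 2 ^ m) true (fun z => heat d δ (w - z)) ω +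
        gw c S m A (i * 2 ^ m) false (fun z => heat d δ (w - z)) ω ≤ 3} :=
    (h2.add h3) measurableSet_Iic
  exact h4.inter h5

/-- the events of the past -/
private def Ek (c : Site d → Ω → Bool) (S : Site d → ℝ≥0 → Ω → Site d) (m : ℕ)
    (A : Finset (Site d)) (β : ℝ) (δ : ℕ) (v : ℕ → Site d) (k : ℕ) : Set Ω :=
  {ω | ∀ j ∈ Finset.Icc 1 k, gt c S m A (j * δ * 2 ^ m) (ind (v j)) ω ≤ 0 ∧
    ω ∈ Good c S m A β ((j - 1) * δ) δ (v j)}

private theorem meas_Ek (c : Site d → Ω → Bool) (S : Site d → ℝ≥0 → Ω → Site d) (m : ℕ)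
    (A : Finset (Site d)) (β : ℝ) (δ : ℕ) (v : ℕ → Site d) (k : ℕ) :
    MeasurableSet[hist c S Set.univ ((k * δ : ℕ) : ℝ≥0)] (Ek c S m A β δ v k) := by
  have h : Ek c S m A β δ v k = ⋂ j ∈ Finset.Icc 1 k,
      ({ω | gt c S m A (j * δ * 2 ^ m) (ind (v j)) ω ≤ 0} ∩ Good c S m A β ((j - 1) * δ) δ (v j)) := by
    ext ω
    simp only [Ek, Set.mem_ofPred_eq, Set.mem_iInter, Set.mem_inter_iff]
  rw [h]
  refine Finset.measurableSet_biInter _ fun j hj => ?_
  rw [Finset.mem_Icc] at hj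
  refine MeasurableSet.inter ?_ ?_
  · exact (meas_gt' c S m A (Nat.mul_le_mul_right δ hj.2) (ind (v j))) measurableSet_Iic
  · exact meas_good c S m A β (Nat.mul_le_mul_right δ (by omega)) δ (v j)

private theorem ind_bdd (w z : Site d) : |ind w z| ≤ 1 := by
  unfold ind
  split_ifs <;> simp

private theorem ind_nonneg (w z : Site d) : 0 ≤ ind w z := by
  unfold ind
  split_ifs <;> simp

private theorem sq_ind (w z : Site d) : ind w z ^ 2 = ind w z := by
  unfold ind
  split_ifs <;> simp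

omit mΩ in
private theorem gt_eq (c : Site d → Ω → Bool) (S : Site d → ℝ≥0 → Ω → Site d) (m : ℕ)
    (A : Finset (Site d)) (i : ℕ) (φ : Site d → ℝ) (ω : Ω) :
    gt c S m A i φ ω = gw c S m A i true φ ω - gw c S m A i false φ ω := by
  classical
  unfold gt gw tot wt
  rw [Finset.sum_filter, Finset.sum_filter, ← Finset.sum_sub_distrib]
  refine Finset.sum_congr rfl fun x _ => ?_
  by_cases h : c x ω = true
  · simp [sg, h]
  · simp only [Bool.not_eq_true] at h
    simp [sg, h]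

omit mΩ in
private theorem gw_nonneg (c : Site d → Ω → Bool) (S : Site d → ℝ≥0 → Ω → Site d) (m : ℕ)
    (A : Finset (Site d)) (i : ℕ) (b : Bool) {φ : Site d → ℝ} (hφ : ∀ z, 0 ≤ φ z) (ω : Ω) :
    0 ≤ gw c S m A i b φ ω := Finset.sum_nonneg fun _ _ => hφ _

/-- one step -/
private theorem one_step (hd : 0 < d) (hS : Setup μ p c S) (m : ℕ) (A : Finset (Site d)) {β : ℝ}
    (hβ : 0 < β) (hβ1 : β ≤ 1) (k δ : ℕ) (w : Site d) {E : Set Ω}
    (hE : MeasurableSet[hist c S Set.univ ((k * δ : ℕ) : ℝ≥0)] E)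
    (hg : E ⊆ Good c S m A β (k * δ) δ w) :
    μ.real (E ∩ {ω | gt c S m A ((k + 1) * δ * 2 ^ m) (ind w) ω ≤ 0}) ≤
      (1 - β ^ 2 / 48) * μ.real E := by
  have hEm : MeasurableSet E := hist_le hS _ _ _ hE
  set i := k * δ * 2 ^ m with hi
  set n := (k + 1) * δ * 2 ^ m with hn
  have hin : i ≤ n := by
    rw [hi, hn]
    gcongr
    omega
  have htime : ((n : ℝ) - i) / 2 ^ m = δ := by
    rw [hi, hn]
    push_cast
    field_simp
    ring
  have hE' : MeasurableSet[hist c S Set.univ ((i : ℝ≥0) / 2 ^ m)] E := by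
    rw [hi, time_div]
    exact hE
  have hδ : (0 : ℝ) ≤ δ := Nat.cast_nonneg δ
  set η := gt c S m A n (ind w) with hη
  have hηm : Measurable η :=
    (meas_gt c S m A (i := n) (s := (n : ℝ≥0) / 2 ^ m) le_rfl (ind w)).mono (hist_le hS _ _) le_rfl
  have hηb : ∀ ω, |η ω| ≤ A.card * 1 := gt_bdd c S m A n (ind_bdd w)
  have hηi : Integrable η μ := gt_integrable hS m A n (ind_bdd w)
  have hη2i : Integrable (fun ω => η ω ^ 2) μ := by
    refine Integrable.of_bound (hηm.pow_const 2).aestronglyMeasurable ((A.card * 1) ^ 2)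
      (Eventually.of_forall fun ω => ?_)
    rw [Real.norm_eq_abs, abs_pow]
    exact pow_le_pow_left₀ (abs_nonneg _) (hηb ω) 2
  -- the mean
  have h1 : β / 2 * μ.real E ≤ ∫ ω in E, η ω ∂μ := by
    have hX : Measurable[hist c S Set.univ ((i : ℝ≥0) / 2 ^ m)] (E.indicator (fun _ => (1 : ℝ))) :=
      Measurable.indicator measurable_const hE'
    have hXb : ∀ ω, |E.indicator (fun _ => (1 : ℝ)) ω| ≤ 1 := by
      intro ω
      by_cases h : ω ∈ E
      · rw [Set.indicator_of_mem h]; simp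
      · rw [Set.indicator_of_notMem h]; simp
    have h2 := lin hd hS m A hin hX hXb (ind_bdd w)
    have e1 : ∀ f : Ω → ℝ, ∫ ω, E.indicator (fun _ => (1 : ℝ)) ω * f ω ∂μ = ∫ ω in E, f ω ∂μ := by
      intro f
      rw [← integral_indicator hEm]
      refine integral_congr_ae (Eventually.of_forall fun ω => ?_)
      simp only
      by_cases h : ω ∈ E
      · rw [Set.indicator_of_mem h, Set.indicator_of_mem h, one_mul]
      · rw [Set.indicator_of_notMem h, Set.indicator_of_notMem h, zero_mul]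
    rw [e1, e1, htime] at h2
    rw [hη, h2]
    have e2 : Pt (δ : ℝ) (ind w) = fun z => heat d δ (w - z) := by
      funext y
      exact Pt_single (δ : ℝ) w y
    rw [e2]
    have hb : ∀ z, |heat d (δ : ℝ) (w - z)| ≤ 1 := fun z => by
      rw [abs_of_nonneg (heat_nonneg hδ _)]
      exact heat_le_one hd hδ _
    calc β / 2 * μ.real E = ∫ ω in E, β / 2 ∂μ := by
          rw [setIntegral_const, smul_eq_mul, mul_comm]
      _ ≤ _ := by
          refine setIntegral_mono_on (integrable_const _).integrableOn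
            (gt_integrable hS m A i hb).integrableOn hEm fun ω hω => ?_
          exact (hg hω).1
  -- the second moment
  have h2 : ∫ ω in E, η ω ^ 2 ∂μ ≤ 12 * μ.real E := by
    have h3 := pair_cond hd hS m A hin w hE'
    rw [htime] at h3
    have hb : ∀ z, |heat d (δ : ℝ) (w - z)| ≤ 1 := fun z => by
      rw [abs_of_nonneg (heat_nonneg hδ _)]
      exact heat_le_one hd hδ _
    have hN : ∀ b, Measurable (gw c S m A n b (ind w)) := fun b =>
      (meas_gw c S m A (i := n) (s := (n : ℝ≥0) / 2 ^ m) le_rfl b (ind w)).mono (hist_le hS _ _) le_rfl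
    have hNb : ∀ b ω, |gw c S m A n b (ind w) ω| ≤ A.card * 1 := fun b =>
      gw_bdd c S m A n b (ind_bdd w)
    have hN2 : Integrable (fun ω => (gw c S m A n true (ind w) ω +
        gw c S m A n false (ind w) ω) ^ 2) μ := by
      refine Integrable.of_bound (((hN true).add (hN false)).pow_const 2).aestronglyMeasurable
        ((A.card * 1 + A.card * 1) ^ 2) (Eventually.of_forall fun ω => ?_)
      rw [Real.norm_eq_abs, abs_pow]
      refine pow_le_pow_left₀ (abs_nonneg _) ((abs_add_le _ _).trans ?_) 2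
      exact add_le_add (hNb true ω) (hNb false ω)
    have h4 : ∫ ω in E, η ω ^ 2 ∂μ ≤ ∫ ω in E, (gw c S m A n true (ind w) ω +
        gw c S m A n false (ind w) ω) ^ 2 ∂μ := by
      refine setIntegral_mono_on hη2i.integrableOn hN2.integrableOn hEm fun ω _ => ?_
      have e := gt_eq c S m A n (ind w) ω
      have p1 := gw_nonneg c S m A n true (ind_nonneg w) ω
      have p2 := gw_nonneg c S m A n false (ind_nonneg w) ω
      rw [hη, e]
      nlinarith
    refine h4.trans (h3.trans ?_)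
    set X : Ω → ℝ := fun ω => gw c S m A i true (fun z => heat d (δ : ℝ) (w - z)) ω +
      gw c S m A i false (fun z => heat d (δ : ℝ) (w - z)) ω with hXd
    have hXm : Measurable X := by
      have h5 : ∀ b, Measurable (gw c S m A i b (fun z => heat d (δ : ℝ) (w - z))) := fun b =>
        (meas_gw c S m A (i := i) (s := (i : ℝ≥0) / 2 ^ m) le_rfl b _).mono (hist_le hS _ _) le_rfl
      exact (h5 true).add (h5 false)
    have hX0 : ∀ ω, 0 ≤ X ω := fun ω => add_nonneg
      (gw_nonneg c S m A i true (fun z => heat_nonneg hδ _) ω)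
      (gw_nonneg c S m A i false (fun z => heat_nonneg hδ _) ω)
    have hXi : IntegrableOn (fun ω => X ω + X ω ^ 2) E μ := by
      refine Measure.integrableOn_of_bounded (M := 12) (measure_ne_top _ _)
        (hXm.add (hXm.pow_const 2)).aestronglyMeasurable ?_
      refine (ae_restrict_iff' hEm).2 (Eventually.of_forall fun ω hω => ?_)
      have h6 : X ω ≤ 3 := (hg hω).2
      have h7 := hX0 ω
      rw [Real.norm_eq_abs, abs_of_nonneg (by positivity)]
      nlinarith
    calc ∫ ω in E, (X ω + X ω ^ 2) ∂μ ≤ ∫ ω in E, (12 : ℝ) ∂μ := by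
          refine setIntegral_mono_on hXi (integrable_const _).integrableOn hEm fun ω hω => ?_
          have h6 : X ω ≤ 3 := (hg hω).2
          have h7 := hX0 ω
          nlinarith
      _ = 12 * μ.real E := by
          rw [setIntegral_const, smul_eq_mul, mul_comm]
  -- the elementary inequality
  set G : Set Ω := {ω | η ω ≤ 0} with hG
  have hGm : MeasurableSet G := hηm measurableSet_Iic
  have hpt : ∀ ω, η ω ≤ β / 48 * η ω ^ 2 + 12 / β * (Gᶜ).indicator (fun _ => (1 : ℝ)) ω := by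
    intro ω
    by_cases h : ω ∈ G
    · rw [Set.indicator_of_notMem (by simpa using h), mul_zero, add_zero]
      have h8 : η ω ≤ 0 := h
      have : 0 ≤ β / 48 * η ω ^ 2 := by positivity
      linarith
    · rw [Set.indicator_of_mem (by simpa using h), mul_one]
      have h9 : β / 48 * η ω ^ 2 + 12 / β - η ω = (β * η ω - 24) ^ 2 / (48 * β) := by
        field_simp
        ring
      have : 0 ≤ (β * η ω - 24) ^ 2 / (48 * β) := by positivity
      linarith
  have h3 : ∫ ω in E, η ω ∂μ ≤ β / 48 * ∫ ω in E, η ω ^ 2 ∂μ + 12 / β * μ.real (E \ G) := by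
    have hi1 : IntegrableOn (fun ω => β / 48 * η ω ^ 2) E μ := (hη2i.const_mul _).integrableOn
    have hi2 : IntegrableOn (fun ω => 12 / β * (Gᶜ).indicator (fun _ => (1 : ℝ)) ω) E μ :=
      (((integrable_const (1 : ℝ)).indicator hGm.compl).const_mul _).integrableOn
    calc ∫ ω in E, η ω ∂μ ≤ ∫ ω in E, (β / 48 * η ω ^ 2 +
          12 / β * (Gᶜ).indicator (fun _ => (1 : ℝ)) ω) ∂μ :=
          setIntegral_mono_on hηi.integrableOn (hi1.add hi2) hEm fun ω _ => hpt ω
      _ = _ := by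
          rw [integral_add hi1 hi2, integral_const_mul, integral_const_mul,
            setIntegral_indicator hGm.compl, setIntegral_const, smul_eq_mul, mul_one,
            Set.sdiff_eq]
  have h4 : μ.real (E ∩ G) = μ.real E - μ.real (E \ G) := by
    have := measureReal_inter_add_sdiff (μ := μ) (s := E) hGm
    linarith
  have h5 : β / 2 * μ.real E ≤ β / 48 * (12 * μ.real E) + 12 / β * μ.real (E \ G) := by
    have : β / 48 * ∫ ω in E, η ω ^ 2 ∂μ ≤ β / 48 * (12 * μ.real E) :=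
      mul_le_mul_of_nonneg_left h2 (by positivity)
    linarith
  have h6 : β ^ 2 / 48 * μ.real E ≤ μ.real (E \ G) := by
    have h7 : β / 4 * μ.real E ≤ 12 / β * μ.real (E \ G) := by linarith
    have h8 := mul_le_mul_of_nonneg_left h7 (by positivity : 0 ≤ β / 12)
    have e1 : β / 12 * (β / 4 * μ.real E) = β ^ 2 / 48 * μ.real E := by ring
    have e2 : β / 12 * (12 / β * μ.real (E \ G)) = μ.real (E \ G) := by
      field_simp
    rw [e1, e2] at h8
    exact h8
  rw [h4]
  linarith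

/-- Package U1. `F_k` = history up to time `k δ`. Let
`E_k = ⋂_{1 ≤ j ≤ k} {gt A (jδ) (ind (v j)) ≤ 0} ∩ Good ((j-1)δ) (v j)`, measurable w.r.t. `F_k`. With
`E = E_{k-1} ∩ Good ((k-1)δ) (v k) ∈ F_{k-1}`, `η = gt A (kδ) (ind (v k))`, `N = gw true + gw false` of
`ind (v k)` at time `kδ` (`|η| ≤ N`): `∫_E η = ∫_E gt A ((k-1)δ) H ≥ (β/2) P(E)` (`lin`),
`∫_E η² ≤ ∫_E N² ≤ 12 P(E)` (`pair_cond` with `X ≤ 3`), Cauchy-Schwarz:
`P(E ∩ {η > 0}) ≥ (β²/48) P(E)`, so `P(E_k) ≤ (1 - β²/48) P(E_{k-1})`. -/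
theorem env_decay (hd : 0 < d) (hS : Setup μ p c S) (m : ℕ) (A : Finset (Site d)) {β : ℝ}
    (hβ : 0 < β) (hβ1 : β ≤ 1) (δ : ℕ) (v : ℕ → Site d) (k : ℕ) :
    μ.real {ω | ∀ j ∈ Finset.Icc 1 k, gt c S m A (j * δ * 2 ^ m) (ind (v j)) ω ≤ 0} ≤
      (1 - β ^ 2 / 48) ^ k +
        ∑ j ∈ Finset.Icc 1 k, μ.real (Good c S m A β ((j - 1) * δ) δ (v j))ᶜ := by
  have hq : 0 ≤ 1 - β ^ 2 / 48 := by nlinarith
  have hEk : ∀ k, μ.real (Ek c S m A β δ v k) ≤ (1 - β ^ 2 / 48) ^ k := by
    intro k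
    induction k with
    | zero => rw [pow_zero]; exact measureReal_le_one
    | succ k ih =>
      have h1 : Ek c S m A β δ v (k + 1) ⊆
          (Ek c S m A β δ v k ∩ Good c S m A β (k * δ) δ (v (k + 1))) ∩
            {ω | gt c S m A ((k + 1) * δ * 2 ^ m) (ind (v (k + 1))) ω ≤ 0} := by
        intro ω hω
        have h2 := hω (k + 1) (Finset.mem_Icc.2 ⟨by omega, le_rfl⟩)
        refine ⟨⟨fun j hj => hω j ?_, ?_⟩, h2.1⟩
        · rw [Finset.mem_Icc] at hj ⊢
          omega
        · have := h2.2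
          rwa [Nat.add_sub_cancel] at this
      have h3 := one_step hd hS m A hβ hβ1 k δ (v (k + 1))
        (E := Ek c S m A β δ v k ∩ Good c S m A β (k * δ) δ (v (k + 1)))
        ((meas_Ek c S m A β δ v k).inter (meas_good c S m A β le_rfl δ (v (k + 1))))
        Set.inter_subset_right
      calc μ.real (Ek c S m A β δ v (k + 1)) ≤ _ := measureReal_mono h1
        _ ≤ _ := h3
        _ ≤ (1 - β ^ 2 / 48) * μ.real (Ek c S m A β δ v k) :=
            mul_le_mul_of_nonneg_left (measureReal_mono Set.inter_subset_left) hq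
        _ ≤ (1 - β ^ 2 / 48) * (1 - β ^ 2 / 48) ^ k := mul_le_mul_of_nonneg_left ih hq
        _ = _ := by rw [pow_succ]; ring
  have hsub : {ω | ∀ j ∈ Finset.Icc 1 k, gt c S m A (j * δ * 2 ^ m) (ind (v j)) ω ≤ 0} ⊆
      Ek c S m A β δ v k ∪ ⋃ j ∈ Finset.Icc 1 k, (Good c S m A β ((j - 1) * δ) δ (v j))ᶜ := by
    intro ω hω
    by_cases h : ∀ j ∈ Finset.Icc 1 k, ω ∈ Good c S m A β ((j - 1) * δ) δ (v j)
    · exact Or.inl fun j hj => ⟨hω j hj, h j hj⟩
    · push Not at h
      obtain ⟨j, hj, hj'⟩ := h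
      exact Or.inr (Set.mem_biUnion hj hj')
  calc _ ≤ μ.real (Ek c S m A β δ v k ∪
        ⋃ j ∈ Finset.Icc 1 k, (Good c S m A β ((j - 1) * δ) δ (v j))ᶜ) := measureReal_mono hsub
    _ ≤ μ.real (Ek c S m A β δ v k) +
        μ.real (⋃ j ∈ Finset.Icc 1 k, (Good c S m A β ((j - 1) * δ) δ (v j))ᶜ) :=
        measureReal_union_le _ _
    _ ≤ _ := add_le_add (hEk k) (measureReal_biUnion_finset_le _ _)

end Pool.Agent.T2H99.AW
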