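import Pool.Agent.T2H99.AW.LN
import Pool.Agent.T2H99.AW.ES
import Pool.Agent.T2H99.AW.MD

set_option autoImplicit false

/-!
# AW, package VA: variance and concentration of the grid system (uses LN, ME, MK, ES, MD, HK2)

`efron_stein` / `mcdiarmid` with `m = lab c S`, `f = gw ... A`, `g y = gw ... (A.erase y)`
(resp. `gt`), `disc_sq` and `∑_{y ∈ A} P_t(φ²)(y) ≤ ∑ φ²` (`Pt_hasSum`); by `disc_wt`
`|gw A - gw (A.erase y)| ≤ sup |φ|` and `|gt A - gt (A.erase y)| ≤ sup |φ|`.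
-/

namespace Pool.Agent.T2H99.AW

open Finset Filter Topology MeasureTheory ProbabilityTheory
open scoped NNReal ENNReal BigOperators

variable {d : ℕ} {Ω : Type} [mΩ : MeasurableSpace Ω] {μ : Measure Ω} [IsProbabilityMeasure μ]
  {p : ℝ} {c : Site d → Ω → Bool} {S : Site d → ℝ≥0 → Ω → Site d}

private theorem K_nonneg {φ : Site d → ℝ} {K : ℝ} (hφ : ∀ z, |φ z| ≤ K) : 0 ≤ K :=
  (abs_nonneg _).trans (hφ 0)

private theorem card_erase_bdd {K : ℝ} (hK : 0 ≤ K) (A : Finset (Site d)) (y : Site d) :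
    ((A.erase y).card : ℝ) * K ≤ A.card * K := by
  refine mul_le_mul_of_nonneg_right ?_ hK
  exact_mod_cast Finset.card_le_card (Finset.erase_subset y A)

omit [IsProbabilityMeasure μ] in
private theorem meas_gw_lab (c : Site d → Ω → Bool) (S : Site d → ℝ≥0 → Ω → Site d) (m : ℕ)
    (A : Finset (Site d)) (n : ℕ) (b : Bool) (φ : Site d → ℝ) :
    Measurable[⨆ x : A, lab c S x] (gw c S m A n b φ) :=
  (meas_gw c S m A (le_refl ((n : ℝ≥0) / 2 ^ m)) b φ).mono (hist_le_lab c S A _) le_rfl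

omit [IsProbabilityMeasure μ] in
private theorem meas_gt_lab (c : Site d → Ω → Bool) (S : Site d → ℝ≥0 → Ω → Site d) (m : ℕ)
    (A : Finset (Site d)) (n : ℕ) (φ : Site d → ℝ) :
    Measurable[⨆ x : A, lab c S x] (gt c S m A n φ) :=
  (meas_gt c S m A (le_refl ((n : ℝ≥0) / 2 ^ m)) φ).mono (hist_le_lab c S A _) le_rfl

omit mΩ in
private theorem disc_gt_le (m : ℕ) {A : Finset (Site d)} {y : Site d}
    (hy : y ∈ A) (n : ℕ) {φ : Site d → ℝ} {K : ℝ} (hφ : ∀ z, |φ z| ≤ K) (ω : Ω) :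
    |gt c S m A n φ ω - gt c S m (A.erase y) n φ ω| ≤ K := by
  obtain ⟨w, h1, -⟩ := disc_wt (fun x => c x ω) (gpos S m ω) (Finset.notMem_erase y A) n
  have h := h1 φ
  rw [Finset.insert_erase hy] at h
  have h2 : |sg (c y ω)| = 1 := by
    cases c y ω <;> simp [sg]
  have h3 : |sg (c y ω) * (gt c S m A n φ ω - gt c S m (A.erase y) n φ ω)| = |φ w| := by
    congr 1
  rw [abs_mul, h2, one_mul] at h3
  rw [h3]
  exact hφ w

omit mΩ in
private theorem disc_gw_le (m : ℕ) {A : Finset (Site d)} {y : Site d}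
    (hy : y ∈ A) (n : ℕ) (b : Bool) {φ : Site d → ℝ} {K : ℝ} (hφ : ∀ z, |φ z| ≤ K) (ω : Ω) :
    |gw c S m A n b φ ω - gw c S m (A.erase y) n b φ ω| ≤ K := by
  obtain ⟨w, -, h1⟩ := disc_wt (fun x => c x ω) (gpos S m ω) (Finset.notMem_erase y A) n
  have h := h1 b φ
  rw [Finset.insert_erase hy] at h
  exact h.trans (hφ w)

theorem gw_var (hd : 0 < d) (hS : Setup μ p c S) (m : ℕ) (A : Finset (Site d)) (n : ℕ)
    (b : Bool) {φ : Site d → ℝ} {K : ℝ} (hφ : ∀ z, |φ z| ≤ K) (hsum : Summable (fun z => φ z ^ 2)) :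
    ∫ ω, (gw c S m A n b φ ω - ∫ ω', gw c S m A n b φ ω' ∂μ) ^ 2 ∂μ ≤ ∑' z, φ z ^ 2 := by
  have hK := K_nonneg hφ
  have h := efron_stein μ (fun x => lab c S x) (fun x => lab_le hS x) (lab_iIndep hS) A
    (gw c S m A n b φ) (fun y => gw c S m (A.erase y) n b φ) (A.card * K)
    (meas_gw_lab c S m A n b φ) (fun ω => gw_bdd c S m A n b hφ ω)
    (fun y _ => meas_gw_lab c S m (A.erase y) n b φ)
    (fun y ω => (gw_bdd c S m (A.erase y) n b hφ ω).trans (card_erase_bdd hK A y))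
  refine h.trans ?_
  have h2 : ∀ y ∈ A, ∫ ω, (gw c S m A n b φ ω - gw c S m (A.erase y) n b φ ω) ^ 2 ∂μ ≤
      Pt ((n : ℝ) / 2 ^ m) (fun z => φ z ^ 2) y := by
    intro y hy
    have h3 := disc_sq hd hS m (Finset.notMem_erase y A) n b hφ
    rwa [Finset.insert_erase hy] at h3
  refine (Finset.sum_le_sum h2).trans ?_
  have h4 : HasSum (Pt ((n : ℝ) / 2 ^ m) (fun z => φ z ^ 2)) (∑' z, φ z ^ 2) :=
    Pt_hasSum hd (by positivity) hsum (fun z => sq_nonneg _)
  exact sum_le_hasSum A (fun z _ => Pt_nonneg (by positivity) (fun w => sq_nonneg _) z) h4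

theorem gw_sq (hd : 0 < d) (hS : Setup μ p c S) (m : ℕ) (A : Finset (Site d)) (n : ℕ)
    (b : Bool) {φ : Site d → ℝ} {K : ℝ} (hφ : ∀ z, |φ z| ≤ K) (hsum : Summable (fun z => φ z ^ 2)) :
    ∫ ω, (gw c S m A n b φ ω) ^ 2 ∂μ ≤ (∫ ω, gw c S m A n b φ ω ∂μ) ^ 2 + ∑' z, φ z ^ 2 := by
  have h := gw_var hd hS m A n b hφ hsum
  set E : ℝ := ∫ ω, gw c S m A n b φ ω ∂μ with hE
  have hi := gw_integrable hS m A n b hφ
  have hi2 : Integrable (fun ω => (gw c S m A n b φ ω) ^ 2) μ := by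
    have h1 := hi.mul_bdd (c := A.card * K) hi.aestronglyMeasurable
      (Eventually.of_forall fun ω => by
        rw [Real.norm_eq_abs]
        exact gw_bdd c S m A n b hφ ω)
    refine h1.congr (Eventually.of_forall fun ω => ?_)
    simp only
    ring
  have e : ∀ ω, (gw c S m A n b φ ω - E) ^ 2 =
      (gw c S m A n b φ ω) ^ 2 - (2 * E * gw c S m A n b φ ω - E ^ 2) := by
    intro ω
    ring
  simp_rw [e] at h
  have hi3 : Integrable (fun ω => 2 * E * gw c S m A n b φ ω) μ := hi.const_mul _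
  have hi4 : Integrable (fun ω => 2 * E * gw c S m A n b φ ω - E ^ 2) μ :=
    hi3.sub (integrable_const _)
  rw [integral_sub hi2 hi4, integral_sub hi3 (integrable_const _),
    integral_const_mul, ← hE] at h
  simp only [integral_const, probReal_univ, smul_eq_mul, one_mul] at h
  linarith

/-- Lower deviations of the signed sum. -/
theorem gt_conc (hd : 0 < d) (hS : Setup μ p c S) (m : ℕ) {A : Finset (Site d)} (hA : A.Nonempty)
    (n : ℕ) {φ : Site d → ℝ} {K : ℝ} (hK : 0 < K) (hφ : ∀ z, |φ z| ≤ K) {r : ℝ} (hr : 0 ≤ r) :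
    μ.real {ω | gt c S m A n φ ω ≤ (∫ ω', gt c S m A n φ ω' ∂μ) - r} ≤
      Real.exp (-(r ^ 2) / (8 * K ^ 2 * A.card)) := by
  exact mcdiarmid μ (fun x => lab c S x) (fun x => lab_le hS x) (lab_iIndep hS) A
    (gt c S m A n φ) (fun y => gt c S m (A.erase y) n φ) (A.card * K) K
    (meas_gt_lab c S m A n φ) (fun ω => gt_bdd c S m A n hφ ω)
    (fun y _ => meas_gt_lab c S m (A.erase y) n φ)
    (fun y ω => (gt_bdd c S m (A.erase y) n hφ ω).trans (card_erase_bdd hK.le A y)) hK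
    (fun y hy ω => disc_gt_le m hy n hφ ω) hA r hr

/-- Upper deviations of the number of particles of one colour. -/
theorem gw_conc (hd : 0 < d) (hS : Setup μ p c S) (m : ℕ) {A : Finset (Site d)} (hA : A.Nonempty)
    (n : ℕ) (b : Bool) {φ : Site d → ℝ} {K : ℝ} (hK : 0 < K) (hφ : ∀ z, |φ z| ≤ K) {r : ℝ}
    (hr : 0 ≤ r) :
    μ.real {ω | (∫ ω', gw c S m A n b φ ω' ∂μ) + r ≤ gw c S m A n b φ ω} ≤
      Real.exp (-(r ^ 2) / (8 * K ^ 2 * A.card)) := by
  have h := mcdiarmid μ (fun x => lab c S x) (fun x => lab_le hS x) (lab_iIndep hS) A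
    (fun ω => -gw c S m A n b φ ω) (fun y ω => -gw c S m (A.erase y) n b φ ω) (A.card * K) K
    (meas_gw_lab c S m A n b φ).neg (fun ω => by
      rw [abs_neg]
      exact gw_bdd c S m A n b hφ ω)
    (fun y _ => (meas_gw_lab c S m (A.erase y) n b φ).neg)
    (fun y ω => by
      rw [abs_neg]
      exact (gw_bdd c S m (A.erase y) n b hφ ω).trans (card_erase_bdd hK.le A y)) hK
    (fun y hy ω => by
      have h1 := disc_gw_le (c := c) (S := S) m hy n b hφ ω
      rw [abs_sub_comm] at h1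
      have e : -gw c S m A n b φ ω - -gw c S m (A.erase y) n b φ ω =
        gw c S m (A.erase y) n b φ ω - gw c S m A n b φ ω := by ring
      rw [e]
      exact h1) hA r hr
  rw [integral_neg] at h
  have e : {ω | (∫ ω', gw c S m A n b φ ω' ∂μ) + r ≤ gw c S m A n b φ ω} =
      {ω | -gw c S m A n b φ ω ≤ -(∫ ω', gw c S m A n b φ ω' ∂μ) - r} := by
    ext ω
    simp only [Set.mem_ofPred_eq]
    constructor
    · intro h'
      linarith
    · intro h'
      linarith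
  rw [e]
  exact h

end Pool.Agent.T2H99.AW
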