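import Pool.Agent.T2H99.AW.U1
import Pool.Agent.T2H99.AW.VA
import Pool.Agent.T2H99.AW.GD
import Pool.Agent.T2H99.AW.HK3
import Pool.Agent.T2H99.AW.HK4

set_option autoImplicit false

/-!
# AW, package U2: the environment is good (uses VA, LN, `gw_diff`)
-/

namespace Pool.Agent.T2H99.AW

open Finset Filter Topology MeasureTheory ProbabilityTheory
open scoped NNReal ENNReal BigOperators

variable {d : ℕ} {Ω : Type} [mΩ : MeasurableSpace Ω] {μ : Measure Ω} [IsProbabilityMeasure μ]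
  {p : ℝ} {c : Site d → Ω → Bool} {S : Site d → ℝ≥0 → Ω → Site d}

namespace U2aux

omit mΩ in
theorem gt_eq_sub (c : Site d → Ω → Bool) (S : Site d → ℝ≥0 → Ω → Site d) (m : ℕ)
    (A : Finset (Site d)) (i : ℕ) (φ : Site d → ℝ) (ω : Ω) :
    gt c S m A i φ ω = gw c S m A i true φ ω - gw c S m A i false φ ω := by
  unfold gt gw tot wt
  rw [Finset.sum_filter, Finset.sum_filter, ← Finset.sum_sub_distrib]
  refine Finset.sum_congr rfl fun x _ => ?_
  cases h : c x ω <;> simp [sg, h]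

/-- the tail terms are summable -/
theorem tail_summable (hd : 0 < d) {t : ℝ} (ht : 0 ≤ t) (r : ℝ) :
    Summable (fun x : Site d => if r < ‖x‖ then heat d t x else 0) := by
  refine Summable.of_nonneg_of_le (fun x => ?_) (fun x => ?_) (heat_hasSum hd ht).summable
  · split_ifs
    · exact heat_nonneg ht x
    · exact le_rfl
  · split_ifs
    · exact le_rfl
    · exact heat_nonneg ht x

/-- the sum over labels far from `w` -/
theorem far_sum (hd : 0 < d) {t : ℝ} (ht : 0 ≤ t) (ρ : ℝ) (w : Site d) (F : Finset (Site d))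
    (hF : ∀ x ∈ F, ρ < ‖w - x‖) :
    ∑ x ∈ F, heat d t (w - x) ≤ ∑' x : Site d, if ρ < ‖x‖ then heat d t x else 0 := by
  classical
  have hinj : Function.Injective (fun x : Site d => w - x) := fun a b h => by
    simpa using h
  have h1 : ∑ x ∈ F, heat d t (w - x) =
      ∑ x ∈ F.image (fun x => w - x), (if ρ < ‖x‖ then heat d t x else 0) := by
    rw [Finset.sum_image (fun a _ b _ h => hinj h)]
    exact Finset.sum_congr rfl fun x hx => by rw [if_pos (hF x hx)]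
  rw [h1]
  refine (tail_summable hd ht ρ).sum_le_tsum _ fun x _ => ?_
  split_ifs
  · exact heat_nonneg ht x
  · exact le_rfl

omit [IsProbabilityMeasure μ] in
/-- Markov's inequality -/
theorem markov_le {f : Ω → ℝ} (hf : Integrable f μ) (hf0 : ∀ ω, 0 ≤ f ω) {ε D : ℝ} (hε : 0 < ε)
    (hD : ∫ ω, f ω ∂μ ≤ D) : μ.real {ω | ε ≤ f ω} ≤ D / ε := by
  have h := mul_meas_ge_le_integral_of_nonneg (μ := μ) (f := f)
    (Eventually.of_forall hf0) hf ε
  rw [le_div_iff₀ hε]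
  linarith

end U2aux

open U2aux in
/-- Package U2. `β = 2p - 1`, `t = s + δ`, `τ = ∑_{‖x‖ > r/2} heat t x`, `B = heat δ 0`,
`H z = heat δ (w - z)` (`0 ≤ H ≤ B`), `A0` = the labels `x ≠ y` with `‖x - y‖ ≤ r`, `A0 ⊆ A`, `y ∉ A`,
`‖w - y‖ ≤ r/2`, `τ + heat t 0 ≤ 1/8`. Then
* `E|gt A - gt A0|`, `E|gw A - gw A0| ≤ ∑_{x ∈ A \ A0} P_s H(x) = ∑_{x ∈ A \ A0} heat t (w - x) ≤ τ`
  (from `gw_diff`; `gt = gw true - gw false`, so `E|gt A - gt A0| ≤ 2τ`);
* `E gt A0 = β ∑_{x ∈ A0} heat t (w-x) ≥ β (1 - τ - heat t 0) ≥ 7β/8` (`gt_mean`);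
* `E gw A0 ≤ 1` (`gw_mean_le`);
* `gt_conc`, `gw_conc` for `A0` with `K = B`, `r = β/4` resp. `1/4`; Markov's inequality for the
  differences (thresholds `β/8`, `1/4`).
Total: `(16/β + 8) τ + 3 exp(-β²/(128 B² |A0|))`. -/
theorem env_bad (hd : 0 < d) (hp : 1 / 2 < p) (hp1 : p < 1) (hS : Setup μ p c S) (m : ℕ)
    {A A0 : Finset (Site d)} {y w : Site d} {r : ℝ} (hr : 1 ≤ r) (s δ : ℕ) (hδ : 0 < δ)
    (hA0 : ∀ x, x ∈ A0 ↔ x ≠ y ∧ ‖x - y‖ ≤ r) (hsub : A0 ⊆ A) (hy : y ∉ A)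
    (hw : ‖w - y‖ ≤ r / 2)
    (hsmall : (∑' x : Site d, if r / 2 < ‖x‖ then heat d ((s : ℝ) + δ) x else 0) +
      heat d ((s : ℝ) + δ) 0 ≤ 1 / 8) :
    μ.real (Good c S m A (2 * p - 1) s δ w)ᶜ ≤
      (16 / (2 * p - 1) + 8) *
        (∑' x : Site d, if r / 2 < ‖x‖ then heat d ((s : ℝ) + δ) x else 0) +
      3 * Real.exp (-((2 * p - 1) ^ 2) / (128 * heat d δ 0 ^ 2 * A0.card)) := by
  classical
  obtain ⟨β, hβ⟩ : ∃ β : ℝ, β = 2 * p - 1 := ⟨_, rfl⟩
  rw [← hβ]
  have hβ0 : 0 < β := by linarith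
  have hβ1 : β ≤ 1 := by linarith
  have hs0 : (0 : ℝ) ≤ s := Nat.cast_nonneg s
  have hδ0 : (0 : ℝ) ≤ δ := Nat.cast_nonneg δ
  have hδ1 : (1 : ℝ) ≤ δ := by exact_mod_cast hδ
  have ht0 : (0 : ℝ) ≤ (s : ℝ) + δ := by positivity
  obtain ⟨τ, hτ⟩ : ∃ τ : ℝ, τ = ∑' x : Site d, if r / 2 < ‖x‖ then heat d ((s : ℝ) + δ) x else 0 :=
    ⟨_, rfl⟩
  rw [← hτ] at hsmall ⊢
  have hτ0 : 0 ≤ τ := by
    rw [hτ]
    exact tsum_nonneg fun x => by
      split_ifs
      · exact heat_nonneg ht0 x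
      · exact le_rfl
  obtain ⟨H, hH⟩ : ∃ H : Site d → ℝ, H = fun z => heat d δ (w - z) := ⟨_, rfl⟩
  obtain ⟨B, hB⟩ : ∃ B : ℝ, B = heat d δ 0 := ⟨_, rfl⟩
  have hB0 : 0 < B := by
    obtain ⟨a, ha, h⟩ := heat_lower hd
    have h1 := h δ hδ1
    have h2 : 0 < a * (δ : ℝ) ^ (-((d : ℝ) / 2)) := by positivity
    rw [hB]
    linarith
  have hH0 : ∀ z, 0 ≤ H z := fun z => by rw [hH]; exact heat_nonneg hδ0 _
  have hHabs : (fun z => |H z|) = H := funext fun z => abs_of_nonneg (hH0 z)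
  have hHB : ∀ z, |H z| ≤ B := fun z => by
    rw [abs_of_nonneg (hH0 z), hH, hB]
    exact heat_le_zero hd hδ0 _
  obtain ⟨n, hn⟩ : ∃ n : ℕ, n = s * 2 ^ m := ⟨_, rfl⟩
  have hns : (n : ℝ) / 2 ^ m = s := by
    rw [hn]
    push_cast
    field_simp
  have hPH : ∀ x, Pt ((n : ℝ) / 2 ^ m) H x = heat d ((s : ℝ) + δ) (w - x) := fun x => by
    rw [hns, hH]
    exact Pt_heat hd hs0 hδ0 w x
  -- the exceptional set
  have hGood : Good c S m A β s δ w = {ω | β / 2 ≤ gt c S m A n H ω ∧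
      gw c S m A n true H ω + gw c S m A n false H ω ≤ 3} := by
    unfold Good
    rw [hn, hH]
  rw [hGood]
  -- trivial case
  rcases A0.eq_empty_or_nonempty with hemp | hne
  · have h1 : μ.real {ω | β / 2 ≤ gt c S m A n H ω ∧
      gw c S m A n true H ω + gw c S m A n false H ω ≤ 3}ᶜ ≤ 1 := measureReal_le_one
    have h2 : Real.exp (-(β ^ 2) / (128 * heat d δ 0 ^ 2 * (A0.card : ℝ))) = 1 := by
      rw [hemp]
      simp
    rw [h2]
    have h3 : 0 ≤ (16 / β + 8) * τ := by positivity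
    linarith
  have hcard : (0 : ℝ) < A0.card := by exact_mod_cast hne.card_pos
  -- the far labels
  have hfar : ∀ x, x ∉ A0 → x ≠ y → r / 2 < ‖w - x‖ := by
    intro x hx hxy
    have h1 : r < ‖x - y‖ := by
      by_contra h
      exact hx ((hA0 x).2 ⟨hxy, not_lt.1 h⟩)
    have h2 : ‖x - y‖ ≤ ‖w - x‖ + ‖w - y‖ := by
      have h3 : x - y = (w - y) - (w - x) := by abel
      rw [h3]
      have := norm_sub_le (w - y) (w - x)
      linarith
    linarith
  have hD : ∀ b : Bool, ∫ ω, |gw c S m A n b H ω - gw c S m A0 n b H ω| ∂μ ≤ τ := by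
    intro b
    have h1 := gw_diff hd hS m hsub n b hHB
    rw [hHabs] at h1
    refine h1.trans ?_
    simp_rw [hPH]
    rw [hτ]
    refine far_sum hd ht0 _ w _ fun x hx => ?_
    rw [Finset.mem_sdiff] at hx
    exact hfar x hx.2 fun h => hy (h ▸ hx.1)
  have hI : ∀ (A' : Finset (Site d)) (b : Bool), Integrable (gw c S m A' n b H) μ := fun A' b =>
    gw_integrable hS m A' n b hHB
  have hDi : ∀ b : Bool, Integrable (fun ω => |gw c S m A n b H ω - gw c S m A0 n b H ω|) μ :=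
    fun b => ((hI A b).sub (hI A0 b)).abs
  -- the mean of the signed sum
  have hsum0 : 7 / 8 ≤ ∑ x ∈ A0, heat d ((s : ℝ) + δ) (w - x) := by
    have hs1 : HasSum (fun x : Site d => heat d ((s : ℝ) + δ) (w - x)) 1 :=
      (Equiv.subLeft w).hasSum_iff.2 (heat_hasSum hd ht0)
    have hle : ∀ F : Finset (Site d), ∑ x ∈ F, heat d ((s : ℝ) + δ) (w - x) ≤
        ∑ x ∈ A0, heat d ((s : ℝ) + δ) (w - x) + (heat d ((s : ℝ) + δ) 0 + τ) := by
      intro F
      have hF : F ⊆ A0 ∪ ({y} ∪ (F \ insert y A0)) := by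
        intro x hx
        simp only [Finset.mem_union, Finset.mem_singleton, Finset.mem_sdiff, Finset.mem_insert]
        tauto
      have hnn : ∀ x : Site d, 0 ≤ heat d ((s : ℝ) + δ) (w - x) := fun x => heat_nonneg ht0 _
      have h1 := Finset.sum_le_sum_of_subset_of_nonneg hF
        (f := fun x => heat d ((s : ℝ) + δ) (w - x)) fun x _ _ => hnn x
      have h2 : ∑ x ∈ A0 ∪ ({y} ∪ (F \ insert y A0)), heat d ((s : ℝ) + δ) (w - x) ≤
          ∑ x ∈ A0, heat d ((s : ℝ) + δ) (w - x) +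
            ∑ x ∈ ({y} ∪ (F \ insert y A0) : Finset (Site d)), heat d ((s : ℝ) + δ) (w - x) := by
        rw [← Finset.sum_union_inter]
        have := Finset.sum_nonneg (s := A0 ∩ ({y} ∪ (F \ insert y A0)))
          (f := fun x => heat d ((s : ℝ) + δ) (w - x)) fun x _ => hnn x
        linarith
      have h3 : ∑ x ∈ ({y} ∪ (F \ insert y A0) : Finset (Site d)), heat d ((s : ℝ) + δ) (w - x) ≤
          heat d ((s : ℝ) + δ) (w - y) +
            ∑ x ∈ F \ insert y A0, heat d ((s : ℝ) + δ) (w - x) := by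
        have h4 : ∑ x ∈ ({y} : Finset (Site d)), heat d ((s : ℝ) + δ) (w - x) =
          heat d ((s : ℝ) + δ) (w - y) := Finset.sum_singleton _ _
        rw [← h4, ← Finset.sum_union_inter]
        have := Finset.sum_nonneg (s := ({y} : Finset (Site d)) ∩ (F \ insert y A0))
          (f := fun x => heat d ((s : ℝ) + δ) (w - x)) fun x _ => hnn x
        linarith
      have h5 : ∑ x ∈ F \ insert y A0, heat d ((s : ℝ) + δ) (w - x) ≤ τ := by
        rw [hτ]
        refine far_sum hd ht0 _ w _ fun x hx => ?_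
        rw [Finset.mem_sdiff, Finset.mem_insert, not_or] at hx
        exact hfar x hx.2.2 hx.2.1
      have h6 : heat d ((s : ℝ) + δ) (w - y) ≤ heat d ((s : ℝ) + δ) 0 := heat_le_zero hd ht0 _
      linarith
    have h7 : (1 : ℝ) ≤ ∑ x ∈ A0, heat d ((s : ℝ) + δ) (w - x) + (heat d ((s : ℝ) + δ) 0 + τ) :=
      hasSum_le_of_sum_le hs1 hle
    linarith
  have hp0 : 0 ≤ p := by linarith
  have hmean : 7 / 8 * β ≤ ∫ ω, gt c S m A0 n H ω ∂μ := by
    rw [gt_mean hd hp0 hS m A0 n hHB, ← hβ]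
    simp_rw [hPH]
    nlinarith
  have hgwm : ∀ b : Bool, ∫ ω, gw c S m A0 n b H ω ∂μ ≤ 1 := by
    intro b
    refine (gw_mean_le hd hS m A0 n b hHB hH0).trans ?_
    simp_rw [hPH]
    have hs1 : HasSum (fun x : Site d => heat d ((s : ℝ) + δ) (w - x)) 1 :=
      (Equiv.subLeft w).hasSum_iff.2 (heat_hasSum hd ht0)
    rw [← hs1.tsum_eq]
    exact hs1.summable.sum_le_tsum _ fun x _ => heat_nonneg ht0 _
  -- the six events
  obtain ⟨E, hE⟩ : ∃ E : ℝ, E = Real.exp (-(β ^ 2) / (128 * heat d δ 0 ^ 2 * (A0.card : ℝ))) :=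
    ⟨_, rfl⟩
  rw [← hE]
  have hc1 : μ.real {ω | gt c S m A0 n H ω ≤ (∫ ω', gt c S m A0 n H ω' ∂μ) - β / 4} ≤ E := by
    refine (gt_conc hd hS m hne n hB0 hHB (by positivity)).trans (le_of_eq ?_)
    rw [hE, hB]
    congr 1
    have : heat d (δ : ℝ) 0 ≠ 0 := by rw [← hB]; exact hB0.ne'
    field_simp
    ring
  have hc2 : ∀ b : Bool,
      μ.real {ω | (∫ ω', gw c S m A0 n b H ω' ∂μ) + 1 / 4 ≤ gw c S m A0 n b H ω} ≤ E := by
    intro b
    refine (gw_conc hd hS m hne n b hB0 hHB (by norm_num)).trans ?_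
    rw [hE]
    apply Real.exp_le_exp.2
    rw [← hB]
    have h1 : -((1 / 4 : ℝ) ^ 2) / (8 * B ^ 2 * (A0.card : ℝ)) =
        -(1 : ℝ) / (128 * B ^ 2 * (A0.card : ℝ)) := by
      field_simp
      ring
    rw [h1]
    refine div_le_div_of_nonneg_right ?_ (by positivity)
    nlinarith
  have hm1 : ∀ b : Bool, ∀ ε : ℝ, 0 < ε →
      μ.real {ω | ε ≤ |gw c S m A n b H ω - gw c S m A0 n b H ω|} ≤ τ / ε := fun b ε hε =>
    markov_le (hDi b) (fun ω => abs_nonneg _) hε (hD b)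
  have hm2 : μ.real {ω | β / 8 ≤ |gw c S m A n true H ω - gw c S m A0 n true H ω| +
      |gw c S m A n false H ω - gw c S m A0 n false H ω|} ≤ (τ + τ) / (β / 8) := by
    have hsumI : Integrable (fun ω => |gw c S m A n true H ω - gw c S m A0 n true H ω| +
      |gw c S m A n false H ω - gw c S m A0 n false H ω|) μ := (hDi true).add (hDi false)
    refine markov_le hsumI (fun ω => add_nonneg (abs_nonneg _) (abs_nonneg _)) (by positivity) ?_
    rw [integral_add (hDi true) (hDi false)]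
    exact add_le_add (hD true) (hD false)
  have hsubset : {ω | β / 2 ≤ gt c S m A n H ω ∧
      gw c S m A n true H ω + gw c S m A n false H ω ≤ 3}ᶜ ⊆
      ((({ω | gt c S m A0 n H ω ≤ (∫ ω', gt c S m A0 n H ω' ∂μ) - β / 4} ∪
        {ω | β / 8 ≤ |gw c S m A n true H ω - gw c S m A0 n true H ω| +
          |gw c S m A n false H ω - gw c S m A0 n false H ω|}) ∪
        ({ω | (∫ ω', gw c S m A0 n true H ω' ∂μ) + 1 / 4 ≤ gw c S m A0 n true H ω} ∪
        {ω | (∫ ω', gw c S m A0 n false H ω' ∂μ) + 1 / 4 ≤ gw c S m A0 n false H ω})) ∪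
        ({ω | 1 / 4 ≤ |gw c S m A n true H ω - gw c S m A0 n true H ω|} ∪
        {ω | 1 / 4 ≤ |gw c S m A n false H ω - gw c S m A0 n false H ω|})) := by
    intro ω hω
    by_contra hcon
    apply hω
    simp only [Set.mem_union, Set.mem_setOf_eq, not_or, not_le] at hcon
    obtain ⟨⟨⟨k1, k2⟩, k3, k4⟩, k5, k6⟩ := hcon
    have e1 := gt_eq_sub c S m A n H ω
    have e2 := gt_eq_sub c S m A0 n H ω
    have t1 := hgwm true
    have t2 := hgwm false
    obtain ⟨l1, l2⟩ := abs_lt.1 k5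
    obtain ⟨l3, l4⟩ := abs_lt.1 k6
    refine ⟨?_, by linarith⟩
    have u1 := neg_abs_le (gw c S m A n true H ω - gw c S m A0 n true H ω)
    have u2 := le_abs_self (gw c S m A n false H ω - gw c S m A0 n false H ω)
    rw [e1]
    rw [e2] at k1
    linarith
  refine (measureReal_mono hsubset).trans ?_
  refine (measureReal_union_le _ _).trans ?_
  have v1 := measureReal_union_le (μ := μ)
    ({ω | gt c S m A0 n H ω ≤ (∫ ω', gt c S m A0 n H ω' ∂μ) - β / 4} ∪
        {ω | β / 8 ≤ |gw c S m A n true H ω - gw c S m A0 n true H ω| +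
          |gw c S m A n false H ω - gw c S m A0 n false H ω|})
    ({ω | (∫ ω', gw c S m A0 n true H ω' ∂μ) + 1 / 4 ≤ gw c S m A0 n true H ω} ∪
        {ω | (∫ ω', gw c S m A0 n false H ω' ∂μ) + 1 / 4 ≤ gw c S m A0 n false H ω})
  have v2 := measureReal_union_le (μ := μ)
    {ω | gt c S m A0 n H ω ≤ (∫ ω', gt c S m A0 n H ω' ∂μ) - β / 4}
    {ω | β / 8 ≤ |gw c S m A n true H ω - gw c S m A0 n true H ω| +
          |gw c S m A n false H ω - gw c S m A0 n false H ω|}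
  have v3 := measureReal_union_le (μ := μ)
    {ω | (∫ ω', gw c S m A0 n true H ω' ∂μ) + 1 / 4 ≤ gw c S m A0 n true H ω}
    {ω | (∫ ω', gw c S m A0 n false H ω' ∂μ) + 1 / 4 ≤ gw c S m A0 n false H ω}
  have v4 := measureReal_union_le (μ := μ)
    {ω | 1 / 4 ≤ |gw c S m A n true H ω - gw c S m A0 n true H ω|}
    {ω | 1 / 4 ≤ |gw c S m A n false H ω - gw c S m A0 n false H ω|}
  have w1 := hc2 true
  have w2 := hc2 false
  have w3 := hm1 true (1 / 4) (by norm_num)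
  have w4 := hm1 false (1 / 4) (by norm_num)
  have w5 : (τ + τ) / (β / 8) = 16 / β * τ := by
    field_simp
    ring
  have w6 : τ / (1 / 4) = 4 * τ := by ring
  rw [w5] at hm2
  rw [w6] at w3 w4
  linarith

end Pool.Agent.T2H99.AW
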