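import Pool.Agent.T2H99.AW.U2
import Pool.Agent.T2H99.AW.GD2

set_option autoImplicit false

/-!
# AW, package U3: bound of the blue density (uses U1, G, GD, MK)
-/

namespace Pool.Agent.T2H99.AW

open Finset Filter Topology MeasureTheory ProbabilityTheory
open scoped NNReal ENNReal BigOperators

variable {d : ℕ} {Ω : Type} [mΩ : MeasurableSpace Ω] {μ : Measure Ω} [IsProbabilityMeasure μ]
  {p : ℝ} {c : Site d → Ω → Bool} {S : Site d → ℝ≥0 → Ω → Site d}

namespace U3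

theorem ball_finite (y : Site d) (r : ℝ) : {w : Site d | ‖w - y‖ ≤ r}.Finite := by
  have h : {w : Site d | ‖w - y‖ ≤ r} = Metric.closedBall y r := by
    ext w
    simp [dist_eq_norm]
  rw [h]
  exact (isCompact_closedBall y r).finite_of_discrete

omit [IsProbabilityMeasure μ] mΩ in
theorem measH_S (c : Site d → Ω → Bool) (S : Site d → ℝ≥0 → Ω → Site d) {A : Set (Site d)}
    {x : Site d} (hx : x ∈ A) (s : ℝ≥0) : Measurable[hist c S A s] (S x s) := by
  refine measurable_iff_comap_le.2 ?_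
  refine le_trans ?_ (le_iSup (fun x : A =>
    (MeasurableSpace.comap (c x) inferInstance) ⊔
    ⨆ u : Set.Iic s, MeasurableSpace.comap (S x u) inferInstance) ⟨x, hx⟩)
  refine le_trans ?_ le_sup_right
  exact le_iSup (fun u : Set.Iic s => MeasurableSpace.comap (S x u) inferInstance)
    ⟨s, Set.mem_Iic.2 le_rfl⟩

omit [IsProbabilityMeasure μ] mΩ in
theorem measL_S (c : Site d → Ω → Bool) (S : Site d → ℝ≥0 → Ω → Site d)
    (x : Site d) (s : ℝ≥0) : Measurable[lab c S x] (S x s) := by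
  refine measurable_iff_comap_le.2 ?_
  refine le_trans ?_ le_sup_right
  exact le_iSup (fun u : ℝ≥0 => MeasurableSpace.comap (S x u) inferInstance) s

omit mΩ [IsProbabilityMeasure μ] in
theorem measL_gpos (c : Site d → Ω → Bool) (S : Site d → ℝ≥0 → Ω → Site d) (m : ℕ)
    (x : Site d) (i : ℕ) : Measurable[lab c S x] (fun ω => gpos S m ω i x) :=
  (Measurable.of_discrete (f := fun u : Site d => x + u)).comp (measL_S c S x _)

/-- The law of the walk. -/
theorem law (hd : 0 < d) (hS : Setup μ p c S) (x : Site d) (t : ℝ≥0) {φ : Site d → ℝ} {K : ℝ}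
    (hφ : ∀ z, |φ z| ≤ K) : ∫ ω, φ (S x t ω) ∂μ = ∑' z, heat d t z * φ z := by
  have h := markov1 hd hS (s := 0) (t := t) zero_le (X := fun _ => 1) (C := 1) measurable_const (by simp)
    (Y := fun _ => 0) measurable_const x hφ
  have h0 : ∀ ω, S x 0 ω = 0 := (hS.walk x).zero
  simp only [h0, one_mul, zero_add, sub_zero, NNReal.coe_zero, integral_const, probReal_univ,
    smul_eq_mul] at h
  rw [h]
  unfold Pt
  simp only [zero_add]

theorem exit_eq (hd : 0 < d) (hS : Setup μ p c S) (x z : Site d) {s t : ℝ≥0} (hst : s ≤ t)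
    (R : ℝ) :
    μ.real {ω | R < ‖S x s ω‖ ∧ x + S x t ω = z} =
      ∑' u : Site d, heat d s u * (if R < ‖u‖ then heat d (t - s) (z - x - u) else 0) := by
  classical
  have hst' : 0 ≤ (t : ℝ) - s := sub_nonneg.2 (by exact_mod_cast hst)
  have hX : Measurable[hist c S Set.univ s] (fun ω => if R < ‖S x s ω‖ then (1 : ℝ) else 0) :=
    (Measurable.of_discrete (f := fun u : Site d => if R < ‖u‖ then (1 : ℝ) else 0)).comp
      (measH_S c S (Set.mem_univ x) s)
  have hY : Measurable[hist c S Set.univ s] (fun ω => x + S x s ω) :=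
    (Measurable.of_discrete (f := fun u : Site d => x + u)).comp (measH_S c S (Set.mem_univ x) s)
  have h := markov1 hd hS hst hX (C := 1) (by intro ω; split_ifs <;> simp) hY x
    (φ := fun w => if w = z then (1 : ℝ) else 0) (K := 1) (by intro w; split_ifs <;> simp)
  have hm : MeasurableSet {ω | R < ‖S x s ω‖ ∧ x + S x t ω = z} := by
    have h1 : MeasurableSet {ω | R < ‖S x s ω‖} :=
      ((hS.walk x).meas s) (MeasurableSet.of_discrete (s := {u : Site d | R < ‖u‖}))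
    have h2 : MeasurableSet {ω | x + S x t ω = z} :=
      ((hS.walk x).meas t) (MeasurableSet.of_discrete (s := {u : Site d | x + u = z}))
    exact h1.inter h2
  rw [← integral_indicator_one hm]
  have e1 : ∀ ω, ({ω | R < ‖S x s ω‖ ∧ x + S x t ω = z}.indicator (1 : Ω → ℝ)) ω =
      (if R < ‖S x s ω‖ then (1 : ℝ) else 0) *
        (if x + S x s ω + (S x t ω - S x s ω) = z then (1 : ℝ) else 0) := by
    intro ω
    have e : x + S x s ω + (S x t ω - S x s ω) = x + S x t ω := by abel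
    rw [e]
    by_cases h1 : R < ‖S x s ω‖ <;> by_cases h2 : x + S x t ω = z <;>
      simp [Set.indicator, h1, h2]
  rw [integral_congr_ae (Eventually.of_forall e1), h]
  have e2 : ∀ ω, (if R < ‖S x s ω‖ then (1 : ℝ) else 0) *
      Pt ((t : ℝ) - s) (fun w => if w = z then (1 : ℝ) else 0) (x + S x s ω) =
      (fun u : Site d => if R < ‖u‖ then heat d (t - s) (z - x - u) else 0) (S x s ω) := by
    intro ω
    rw [Pt_single]
    dsimp only
    split_ifs
    · rw [one_mul, sub_sub]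
    · rw [zero_mul]
  rw [integral_congr_ae (Eventually.of_forall e2)]
  refine law hd hS x s (φ := fun u : Site d => if R < ‖u‖ then heat d (t - s) (z - x - u) else 0)
    (K := 1) fun u => ?_
  split_ifs
  · rw [abs_of_nonneg (heat_nonneg hst' _)]
    exact heat_le_one hd hst' _
  · simp

theorem at_eq (hd : 0 < d) (hS : Setup μ p c S) (x z : Site d) (t : ℝ≥0) :
    μ.real {ω | x + S x t ω = z} = heat d t (z - x) := by
  have h := exit_eq hd hS x z (s := 0) (t := t) zero_le (-1)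
  have h0 : ∀ ω, S x 0 ω = 0 := (hS.walk x).zero
  have h1 : ∀ u : Site d, (-1 : ℝ) < ‖u‖ := fun u => lt_of_lt_of_le (by norm_num) (norm_nonneg u)
  simp only [h1, true_and, if_true, NNReal.coe_zero, sub_zero] at h
  rw [h, tsum_eq_single 0]
  · rw [heat_zero, if_pos rfl, one_mul, sub_zero]
  · intro u hu
    rw [heat_zero, if_neg hu, zero_mul]

theorem exit_sum (hd : 0 < d) (hS : Setup μ p c S) (A : Finset (Site d)) {s t : ℝ≥0} (hst : s ≤ t)
    (R : ℝ) :
    ∑ y ∈ A, μ.real {ω | R < ‖S y s ω‖ ∧ y + S y t ω = 0} ≤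
      ∑' u : Site d, if R < ‖u‖ then heat d s u else 0 := by
  classical
  have hst' : 0 ≤ (t : ℝ) - s := sub_nonneg.2 (by exact_mod_cast hst)
  have hs0 : (0 : ℝ) ≤ s := s.2
  have hb : ∀ y : Site d, Summable fun u : Site d =>
      heat d s u * (if R < ‖u‖ then heat d (t - s) (0 - y - u) else 0) := by
    intro y
    have := Pt_summable hd hs0 (C := 1)
      (φ := fun u => if R < ‖u‖ then heat d (t - s) (0 - y - u) else 0) (by
        intro u
        split_ifs
        · rw [abs_of_nonneg (heat_nonneg hst' _)]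
          exact heat_le_one hd hst' _
        · simp) 0
    simpa only [zero_add] using this
  rw [Finset.sum_congr rfl fun y _ => exit_eq hd hS y 0 hst R, ← Summable.tsum_finsetSum fun y _ => hb y]
  refine Summable.tsum_le_tsum (fun u => ?_) (summable_sum fun y _ => hb y) ?_
  · by_cases h : R < ‖u‖
    · simp only [h, if_true]
      rw [← Finset.mul_sum]
      refine mul_le_of_le_one_right (heat_nonneg hs0 _) ?_
      have h1 : HasSum (fun y : Site d => heat d (t - s) (0 - y - u)) 1 := by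
        have h2 := (Equiv.subLeft (-u)).hasSum_iff.2 (heat_hasSum hd hst')
        refine h2.congr_fun fun y => ?_
        simp only [Function.comp_apply, Equiv.subLeft_apply]
        congr 1
        abel
      exact sum_le_hasSum A (fun y _ => heat_nonneg hst' _) h1
    · simp only [h, if_false, mul_zero, Finset.sum_const_zero, le_refl]
  · refine Summable.of_nonneg_of_le (fun u => ?_) (fun u => ?_) (heat_hasSum hd hs0).summable
    · split_ifs
      · exact heat_nonneg hs0 _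
      · exact le_rfl
    · split_ifs
      · exact le_rfl
      · exact heat_nonneg hs0 _

/-- The path argument. -/
theorem path_bound (hd : 0 < d) (hS : Setup μ p c S) (m : ℕ) {β : ℝ}
    (hβ : 0 < β) (hβ1 : β ≤ 1) {r q : ℝ} (hr : 1 ≤ r) (δ k : ℕ) (hk : 0 < k)
    {A : Finset (Site d)} {y : Site d} (hy : y ∉ A)
    (hq : ∀ w : Site d, ‖w - y‖ ≤ r / 2 → ∀ j ∈ Finset.Icc 1 k,
      μ.real (Good c S m A β ((j - 1) * δ) δ w)ᶜ ≤ q)
    {U : Set Ω} (hU : MeasurableSet[lab c S y] U) :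
    μ.real (U ∩ {ω | (∀ j ∈ Finset.Icc 1 k, ‖gpos S m ω (j * δ * 2 ^ m) y - y‖ ≤ r / 2) ∧
      ∀ j ∈ Finset.Icc 1 k,
        gt c S m A (j * δ * 2 ^ m) (ind (gpos S m ω (j * δ * 2 ^ m) y)) ω ≤ 0}) ≤
      μ.real U * ((1 - β ^ 2 / 48) ^ k + k * q) := by
  classical
  have hq0 : 0 ≤ q := le_trans measureReal_nonneg (hq y (by simp; linarith) 1 (by simp; omega))
  have hQ0 : 0 ≤ (1 - β ^ 2 / 48) ^ k + k * q := by
    have : 0 ≤ 1 - β ^ 2 / 48 := by nlinarith
    positivity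
  set ball : Finset (Site d) := (ball_finite y (r / 2)).toFinset with hball
  have hmem : ∀ w, w ∈ ball ↔ ‖w - y‖ ≤ r / 2 := fun w => by simp [hball]
  set B : Finset (↥(Finset.Icc 1 k) → Site d) := Fintype.piFinset fun _ => ball with hB
  set ext : (↥(Finset.Icc 1 k) → Site d) → ℕ → Site d :=
    fun v j => if h : j ∈ Finset.Icc 1 k then v ⟨j, h⟩ else y with hext
  have hext' : ∀ v j (h : j ∈ Finset.Icc 1 k), ext v j = v ⟨j, h⟩ := by
    intro v j h
    simp only [hext]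
    rw [dif_pos h]
  set W : (↥(Finset.Icc 1 k) → Site d) → Set Ω :=
    fun v => {ω | ∀ j ∈ Finset.Icc 1 k, gpos S m ω (j * δ * 2 ^ m) y = ext v j} with hW
  set F : (↥(Finset.Icc 1 k) → Site d) → Set Ω :=
    fun v => {ω | ∀ j ∈ Finset.Icc 1 k, gt c S m A (j * δ * 2 ^ m) (ind (ext v j)) ω ≤ 0} with hF
  have hle : ∀ x, lab c S x ≤ mΩ := lab_le hS
  -- measurability
  have hWm : ∀ v, MeasurableSet[lab c S y] (W v) := by
    intro v
    have e : W v = ⋂ j ∈ Finset.Icc 1 k, {ω | gpos S m ω (j * δ * 2 ^ m) y = ext v j} := by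
      ext ω
      simp [hW]
    rw [e]
    refine Finset.measurableSet_biInter _ fun j _ => ?_
    exact (measL_gpos c S m y (j * δ * 2 ^ m)) (measurableSet_singleton (ext v j))
  have hFm : ∀ v, MeasurableSet[Cnd.sig (lab c S) A] (F v) := by
    intro v
    have e : F v = ⋂ j ∈ Finset.Icc 1 k,
        {ω | gt c S m A (j * δ * 2 ^ m) (ind (ext v j)) ω ≤ 0} := by
      ext ω
      simp [hF]
    rw [e]
    refine Finset.measurableSet_biInter _ fun j _ => ?_
    have h1 := meas_gt c S m A (i := j * δ * 2 ^ m) (le_refl _) (ind (ext v j))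
    have h2 : MeasurableSet[hist c S (A : Set (Site d)) (((j * δ * 2 ^ m : ℕ) : ℝ≥0) / 2 ^ m)]
        {ω | gt c S m A (j * δ * 2 ^ m) (ind (ext v j)) ω ≤ 0} :=
      h1 measurableSet_Iic
    have h3 := hist_le_lab c S A (((j * δ * 2 ^ m : ℕ) : ℝ≥0) / 2 ^ m)
    have h4 : (⨆ x : A, lab c S x) = Cnd.sig (lab c S) A := Cnd.sig_eq (lab c S) A
    rw [h4] at h3
    exact h3 _ h2
  have hind : Indep (Cnd.sig (lab c S) A) (lab c S y) μ :=
    Cnd.sig_indep hle (lab_iIndep hS) hy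
  have hprod : ∀ v, μ.real ((U ∩ W v) ∩ F v) = μ.real (U ∩ W v) * μ.real (F v) := by
    intro v
    have h1 : MeasurableSet[lab c S y] (U ∩ W v) := hU.inter (hWm v)
    have h2 := (Indep_iff _ _ μ).1 hind (F v) (U ∩ W v) (hFm v) h1
    rw [Set.inter_comm, measureReal_def, h2, ENNReal.toReal_mul, mul_comm]
    rfl
  have hFb : ∀ v ∈ B, μ.real (F v) ≤ (1 - β ^ 2 / 48) ^ k + k * q := by
    intro v hv
    refine (env_decay hd hS m A hβ hβ1 δ (ext v) k).trans ?_
    have h1 : ∑ j ∈ Finset.Icc 1 k, μ.real (Good c S m A β ((j - 1) * δ) δ (ext v j))ᶜ ≤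
        ∑ j ∈ Finset.Icc 1 k, q := by
      refine Finset.sum_le_sum fun j hj => hq _ ?_ j hj
      rw [hext' v j hj, ← hmem]
      exact Fintype.mem_piFinset.1 hv _
    have h2 : ∑ j ∈ Finset.Icc 1 k, q = k * q := by simp
    linarith
  have hsub : (U ∩ {ω | (∀ j ∈ Finset.Icc 1 k, ‖gpos S m ω (j * δ * 2 ^ m) y - y‖ ≤ r / 2) ∧
      ∀ j ∈ Finset.Icc 1 k,
        gt c S m A (j * δ * 2 ^ m) (ind (gpos S m ω (j * δ * 2 ^ m) y)) ω ≤ 0}) ⊆
      ⋃ v ∈ B, (U ∩ W v) ∩ F v := by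
    rintro ω ⟨hωU, h1, h2⟩
    refine Set.mem_biUnion (x := fun j : ↥(Finset.Icc 1 k) => gpos S m ω (j * δ * 2 ^ m) y) ?_ ?_
    · rw [Finset.mem_coe, hB, Fintype.mem_piFinset]
      intro j
      rw [hmem]
      exact h1 j j.2
    · refine ⟨⟨hωU, ?_⟩, ?_⟩
      · intro j hj
        exact (hext' (fun j : ↥(Finset.Icc 1 k) => gpos S m ω (j * δ * 2 ^ m) y) j hj).symm
      · intro j hj
        have := h2 j hj
        rw [hext' (fun j : ↥(Finset.Icc 1 k) => gpos S m ω (j * δ * 2 ^ m) y) j hj]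
        exact this
  calc _ ≤ μ.real (⋃ v ∈ B, (U ∩ W v) ∩ F v) := measureReal_mono hsub (measure_ne_top _ _)
    _ ≤ ∑ v ∈ B, μ.real ((U ∩ W v) ∩ F v) := measureReal_biUnion_finset_le _ _
    _ ≤ ∑ v ∈ B, μ.real (U ∩ W v) * ((1 - β ^ 2 / 48) ^ k + k * q) := by
        refine Finset.sum_le_sum fun v hv => ?_
        rw [hprod]
        exact mul_le_mul_of_nonneg_left (hFb v hv) measureReal_nonneg
    _ = (∑ v ∈ B, μ.real (U ∩ W v)) * ((1 - β ^ 2 / 48) ^ k + k * q) := by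
        rw [Finset.sum_mul]
    _ ≤ μ.real U * ((1 - β ^ 2 / 48) ^ k + k * q) := by
        refine mul_le_mul_of_nonneg_right ?_ hQ0
        rw [← measureReal_biUnion_finset]
        · exact measureReal_mono (Set.iUnion₂_subset fun v _ => Set.inter_subset_left)
            (measure_ne_top _ _)
        · intro v _ v' _ hvv
          refine Set.disjoint_left.2 ?_
          rintro ω ⟨_, h1⟩ ⟨_, h2⟩
          apply hvv
          funext j
          have h3 := h1 j j.2
          have h4 := h2 j j.2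
          rw [hext' _ _ j.2] at h3 h4
          rw [← h3, ← h4]
        · intro v _
          exact hle y _ (hU.inter (hWm v))

theorem grid_time (m δ j : ℕ) :
    (((j * δ * 2 ^ m : ℕ) : ℝ≥0) / 2 ^ m) = ((j * δ : ℕ) : ℝ≥0) := by
  have h : (2 : ℝ≥0) ^ m ≠ 0 := pow_ne_zero _ two_ne_zero
  rw [Nat.cast_mul (j * δ), Nat.cast_pow, Nat.cast_ofNat, mul_div_assoc, div_self h, mul_one]

omit mΩ [IsProbabilityMeasure μ] in
theorem gpos_eq (S : Site d → ℝ≥0 → Ω → Site d) (m δ j : ℕ) (ω : Ω) (x : Site d) :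
    gpos S m ω (j * δ * 2 ^ m) x = x + S x ((j * δ : ℕ) : ℝ≥0) ω := by
  unfold gpos posn
  rw [grid_time]

/-- Inner labels. -/
theorem inner_bound (hd : 0 < d) (hS : Setup μ p c S) (m : ℕ) {β : ℝ}
    (hβ : 0 < β) (hβ1 : β ≤ 1) {r q : ℝ} (hr : 1 ≤ r) (δ k : ℕ) (hδ : 0 < δ) (hk : 0 < k)
    {A : Finset (Site d)} {y : Site d} (hy : y ∈ A)
    (hq : ∀ w : Site d, ‖w - y‖ ≤ r / 2 → ∀ j ∈ Finset.Icc 1 k,
      μ.real (Good c S m (A.erase y) β ((j - 1) * δ) δ w)ᶜ ≤ q) :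
    μ.real {ω | y ∈ ga c S m A (k * δ * 2 ^ m) ω ∧ c y ω = false ∧
        gpos S m ω (k * δ * 2 ^ m) y = 0} ≤
      heat d ((k * δ : ℕ) : ℝ) (0 - y) * ((1 - β ^ 2 / 48) ^ k + k * q) +
        ∑ j ∈ Finset.Icc 1 k, μ.real {ω | r / 2 < ‖S y ((j * δ : ℕ) : ℝ≥0) ω‖ ∧
          y + S y ((k * δ : ℕ) : ℝ≥0) ω = 0} := by
  classical
  set U : Set Ω := {ω | gpos S m ω (k * δ * 2 ^ m) y = 0} with hUdef
  have hU : MeasurableSet[lab c S y] U :=
    (measL_gpos c S m y (k * δ * 2 ^ m)) (measurableSet_singleton (0 : Site d))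
  have hUm : μ.real U = heat d ((k * δ : ℕ) : ℝ) (0 - y) := by
    have h := at_eq hd hS y 0 ((k * δ : ℕ) : ℝ≥0)
    rw [NNReal.coe_natCast] at h
    rw [← h]
    congr 1
    ext ω
    simp only [hUdef, Set.mem_ofPred_eq, gpos_eq]
  have h1 := path_bound hd hS m hβ hβ1 hr δ k hk (Finset.notMem_erase y A) hq hU
  rw [hUm] at h1
  have hsub : {ω | y ∈ ga c S m A (k * δ * 2 ^ m) ω ∧ c y ω = false ∧
        gpos S m ω (k * δ * 2 ^ m) y = 0} ⊆
      (U ∩ {ω | (∀ j ∈ Finset.Icc 1 k, ‖gpos S m ω (j * δ * 2 ^ m) y - y‖ ≤ r / 2) ∧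
      ∀ j ∈ Finset.Icc 1 k,
        gt c S m (A.erase y) (j * δ * 2 ^ m) (ind (gpos S m ω (j * δ * 2 ^ m) y)) ω ≤ 0}) ∪
      ⋃ j ∈ Finset.Icc 1 k, {ω | r / 2 < ‖S y ((j * δ : ℕ) : ℝ≥0) ω‖ ∧
          y + S y ((k * δ : ℕ) : ℝ≥0) ω = 0} := by
    rintro ω ⟨ha, hc, h0⟩
    by_cases hex : ∃ j ∈ Finset.Icc 1 k, r / 2 < ‖S y ((j * δ : ℕ) : ℝ≥0) ω‖
    · right
      obtain ⟨j, hj, hj'⟩ := hex
      refine Set.mem_biUnion (Finset.mem_coe.2 hj) ⟨hj', ?_⟩
      rw [← gpos_eq S m]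
      exact h0
    · left
      push Not at hex
      refine ⟨h0, ?_, ?_⟩
      · intro j hj
        rw [gpos_eq, add_sub_cancel_left]
        exact hex j hj
      · intro j hj
        obtain ⟨hj1, hjk⟩ := Finset.mem_Icc.1 hj
        unfold gt tot
        refine Finset.sum_nonpos fun x hx => ?_
        unfold ind
        split_ifs with hxy
        · have hA : insert y (A.erase y) = A := Finset.insert_erase hy
          have ha' : y ∈ gAlive (fun x => c x ω) (gpos S m ω) (insert y (A.erase y))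
              (k * δ * 2 ^ m) := by
            rw [hA]
            exact ha
          have hcx : c x ω = c y ω := surv_sep (c := fun x => c x ω) (P := gpos S m ω)
            (Finset.notMem_erase y A) ha' (i := j * δ * 2 ^ m) (by positivity) (by gcongr)
            hx hxy
          have hcx' : (fun x => c x ω) x = false := hcx.trans hc
          rw [hcx']
          norm_num [sg]
        · simp
  calc _ ≤ _ := measureReal_mono hsub (measure_ne_top _ _)
    _ ≤ _ := measureReal_union_le _ _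
    _ ≤ _ := add_le_add h1 (measureReal_biUnion_finset_le _ _)

end U3

/-- Package U3. Let `N = k δ 2^m`, `Q0 = (1 - β²/48)^k + k q`, where `q` bounds `P(Good^c)` of the system on
`A' = A.erase y` for all `w` with `‖w - y‖ ≤ r/2` and all `s = (j-1) δ`, `1 ≤ j ≤ k` (hypothesis `hq`,
for all `y` and all finite `A'` that contain all `x ≠ y` with `‖x - y‖ ≤ r`, not `y`).
`E gw A N false (ind 0) = ∑_{y ∈ A} P(y ∈ ga A N, c y = false, gpos N y = 0)`.
(1) `y` with all labels `x`, `‖x-y‖ ≤ r`, in `A`. If `‖S y (jδ)‖ ≤ r/2` for all `1 ≤ j ≤ k` (no exit), then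
by `surv_sep` (with `insert y (A.erase y) = A`) no red particle of `A'` is at `gpos (jδ2^m) y`, so
`gt A' (jδ2^m) (ind (gpos (jδ2^m) y)) ≤ 0` for `1 ≤ j ≤ k`. The system on `A'` is independent of the path of
`y`: summing over the values `v_j` of the path, the probability is at most `P(gpos N y = 0) Q0 = heat (kδ) (0-y) Q0`
(`env_decay`). Sum over `y`: `≤ Q0`. The exit probabilities: `∑_y P(gpos N y = 0, exit) = P(S 0 exits)`
(all `S y` have the same law; it is enough to bound `P(gpos N y = 0, ‖S y (jδ)‖ > r/2)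
= ∑_{‖z‖ > r/2} heat (jδ) z * heat ((k-j)δ) (-y-z)`, sum over `y` and `j`:
`∑_j ∑_{‖z‖ > r/2} heat (jδ) z`).
(2) the other `y ∈ A`: `∑ heat (kδ) (0-y)` over the `y` with some `x ∉ A`, `‖x-y‖ ≤ r`, tends to `0` as
`A → ∞`. -/
theorem blue_bound (hd : 0 < d) (hS : Setup μ p c S) (m : ℕ) {β : ℝ}
    (hβ : 0 < β) (hβ1 : β ≤ 1) {r q : ℝ} (hr : 1 ≤ r) (δ k : ℕ) (hδ : 0 < δ) (hk : 0 < k)
    (hq : ∀ (A : Finset (Site d)) (y w : Site d), y ∉ A → (∀ x, x ≠ y → ‖x - y‖ ≤ r → x ∈ A) →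
      ‖w - y‖ ≤ r / 2 → ∀ j ∈ Finset.Icc 1 k, μ.real (Good c S m A β ((j - 1) * δ) δ w)ᶜ ≤ q) :
    gdens μ c S m false (k * δ * 2 ^ m) ≤ (1 - β ^ 2 / 48) ^ k + k * q +
      ∑ j ∈ Finset.Icc 1 k, ∑' x : Site d, if r / 2 < ‖x‖ then heat d ((j : ℝ) * δ) x else 0 := by
  classical
  have hq0 : 0 ≤ q := le_trans measureReal_nonneg
    (hq ((U3.ball_finite (0 : Site d) r).toFinset.erase 0) 0 0 (Finset.notMem_erase _ _)
      (fun x hx hxr => Finset.mem_erase.2 ⟨hx, by simpa using hxr⟩) (by simp; linarith) 1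
      (by simp; omega))
  have hQ0 : 0 ≤ (1 - β ^ 2 / 48) ^ k + k * q := by
    have : 0 ≤ 1 - β ^ 2 / 48 := by nlinarith
    positivity
  set h : Site d → ℝ := fun y => heat d ((k * δ : ℕ) : ℝ) (0 - y) with hh
  have hT : (0 : ℝ) ≤ ((k * δ : ℕ) : ℝ) := Nat.cast_nonneg _
  have h0 : ∀ y, 0 ≤ h y := fun y => heat_nonneg hT _
  have hsum : HasSum h 1 := (Equiv.subLeft (0 : Site d)).hasSum_iff.2 (heat_hasSum hd hT)
  refine le_of_forall_pos_le_add fun ε hε => ?_
  refine le_of_tendsto (gdens_tendsto hd hS m false (k * δ * 2 ^ m) 0) ?_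
  obtain ⟨F0, hF0⟩ := summable_iff_vanishing_norm.1 hsum.summable ε hε
  filter_upwards [eventually_ge_atTop (F0.biUnion fun y => (U3.ball_finite y r).toFinset)]
    with A hA
  rw [gw_eq_sum hd hS]
  have hin : ∀ y ∈ F0, ∀ x, ‖x - y‖ ≤ r → x ∈ A := fun y hy x hx =>
    hA (Finset.mem_biUnion.2 ⟨y, hy, by simpa using hx⟩)
  have key : ∀ y ∈ A, μ.real {ω | y ∈ ga c S m A (k * δ * 2 ^ m) ω ∧ c y ω = false ∧
        gpos S m ω (k * δ * 2 ^ m) y = 0} ≤
      h y * ((1 - β ^ 2 / 48) ^ k + k * q) +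
        ∑ j ∈ Finset.Icc 1 k, μ.real {ω | r / 2 < ‖S y ((j * δ : ℕ) : ℝ≥0) ω‖ ∧
          y + S y ((k * δ : ℕ) : ℝ≥0) ω = 0} +
        (if (∀ x, ‖x - y‖ ≤ r → x ∈ A) then 0 else h y) := by
    intro y hy
    split_ifs with hi
    · rw [add_zero]
      exact U3.inner_bound hd hS m hβ hβ1 hr δ k hδ hk hy fun w hw j hj =>
        hq (A.erase y) y w (Finset.notMem_erase y A)
          (fun x hx hxr => Finset.mem_erase.2 ⟨hx, hi x hxr⟩) hw j hj
    · have h1 : μ.real {ω | y ∈ ga c S m A (k * δ * 2 ^ m) ω ∧ c y ω = false ∧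
          gpos S m ω (k * δ * 2 ^ m) y = 0} ≤ h y := by
        have h2 := U3.at_eq hd hS y 0 ((k * δ : ℕ) : ℝ≥0)
        rw [NNReal.coe_natCast] at h2
        rw [hh]
        simp only
        rw [← h2]
        refine measureReal_mono ?_ (measure_ne_top _ _)
        rintro ω ⟨_, _, h3⟩
        rw [Set.mem_ofPred_eq, ← U3.gpos_eq S m]
        exact h3
      have h2 : 0 ≤ h y * ((1 - β ^ 2 / 48) ^ k + k * q) := mul_nonneg (h0 y) hQ0
      have h3 : 0 ≤ ∑ j ∈ Finset.Icc 1 k, μ.real {ω | r / 2 < ‖S y ((j * δ : ℕ) : ℝ≥0) ω‖ ∧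
          y + S y ((k * δ : ℕ) : ℝ≥0) ω = 0} := Finset.sum_nonneg fun j _ => measureReal_nonneg
      linarith
  refine (Finset.sum_le_sum key).trans ?_
  rw [Finset.sum_add_distrib, Finset.sum_add_distrib, ← Finset.sum_mul, Finset.sum_comm]
  have e1 : (∑ y ∈ A, h y) * ((1 - β ^ 2 / 48) ^ k + k * q) ≤ (1 - β ^ 2 / 48) ^ k + k * q :=
    mul_le_of_le_one_left hQ0 (sum_le_hasSum A (fun y _ => h0 y) hsum)
  have e2 : ∑ j ∈ Finset.Icc 1 k, ∑ y ∈ A, μ.real {ω | r / 2 < ‖S y ((j * δ : ℕ) : ℝ≥0) ω‖ ∧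
          y + S y ((k * δ : ℕ) : ℝ≥0) ω = 0} ≤
      ∑ j ∈ Finset.Icc 1 k, ∑' x : Site d, if r / 2 < ‖x‖ then heat d ((j : ℝ) * δ) x else 0 := by
    refine Finset.sum_le_sum fun j hj => ?_
    obtain ⟨hj1, hjk⟩ := Finset.mem_Icc.1 hj
    have h1 := U3.exit_sum hd hS A (s := ((j * δ : ℕ) : ℝ≥0)) (t := ((k * δ : ℕ) : ℝ≥0))
      (by exact_mod_cast Nat.mul_le_mul_right δ hjk) (r / 2)
    have h2 : ((((j * δ : ℕ) : ℝ≥0)) : ℝ) = (j : ℝ) * δ := by push_cast; ring
    rw [h2] at h1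
    exact h1
  have e3 : ∑ y ∈ A, (if (∀ x, ‖x - y‖ ≤ r → x ∈ A) then 0 else h y) ≤ ε := by
    have h1 : ∑ y ∈ A, (if (∀ x, ‖x - y‖ ≤ r → x ∈ A) then 0 else h y) =
        ∑ y ∈ A.filter (fun y => ¬ ∀ x, ‖x - y‖ ≤ r → x ∈ A), h y := by
      rw [Finset.sum_filter]
      exact Finset.sum_congr rfl fun y _ => by split_ifs <;> simp_all
    rw [h1]
    have h2 := hF0 (A.filter (fun y => ¬ ∀ x, ‖x - y‖ ≤ r → x ∈ A)) (by
      rw [Finset.disjoint_left]
      intro y hy hyF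
      exact (Finset.mem_filter.1 hy).2 (hin y hyF))
    exact ((le_abs_self _).trans_lt h2).le
  linarith

end Pool.Agent.T2H99.AW
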