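import Pool.Agent.T2H99.AW.U3
import Pool.Agent.T2H99.AW.HK3
import Pool.Agent.T2H99.AW.HK4

set_option autoImplicit false

/-!
# AW, package U4: numbers (uses U2, U3, HK3, HK4)
-/

namespace Pool.Agent.T2H99.AW

open Finset Filter Topology MeasureTheory ProbabilityTheory
open scoped NNReal ENNReal BigOperators

variable {d : ℕ} {Ω : Type} [mΩ : MeasurableSpace Ω] {μ : Measure Ω} [IsProbabilityMeasure μ]
  {p : ℝ} {c : Site d → Ω → Bool} {S : Site d → ℝ≥0 → Ω → Site d}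

namespace U4aux

/-- the number of the labels in a ball -/
theorem card_ball (M : ℕ) (y : Site d) (A0 : Finset (Site d))
    (h : ∀ x ∈ A0, ‖x - y‖ ≤ (M : ℝ)) : A0.card ≤ (2 * M + 1) ^ d := by
  classical
  have h1 : A0 ⊆ Fintype.piFinset fun i : Fin d => Finset.Icc (y i - (M : ℤ)) (y i + M) := by
    intro x hx
    rw [Fintype.mem_piFinset]
    intro i
    have h2 := (norm_le_pi_norm (x - y) i).trans (h x hx)
    rw [Pi.sub_apply, Int.norm_eq_abs] at h2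
    have h3 : |((x i - y i : ℤ) : ℝ)| ≤ M := h2
    have h4 : |x i - y i| ≤ (M : ℤ) := by exact_mod_cast h3
    rw [abs_le] at h4
    rw [Finset.mem_Icc]
    constructor <;> linarith [h4.1, h4.2]
  refine (Finset.card_le_card h1).trans ?_
  rw [Fintype.card_piFinset]
  simp only [Int.card_Icc]
  have h5 : ∀ i : Fin d, (y i + (M : ℤ) + 1 - (y i - M)).toNat = 2 * M + 1 := by
    intro i
    have : y i + (M : ℤ) + 1 - (y i - M) = ((2 * M + 1 : ℕ) : ℤ) := by push_cast; ring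
    rw [this, Int.toNat_natCast]
  simp [h5]

end U4aux

open U4aux in
/-- Package U4 (numbers). Take `k = M`, `δ = M^15`, `r = M^14`, `β = 2p-1` in `blue_bound` and `env_bad`
(`s + δ = jδ ∈ [M^15, M^16]`): tail `τ ≤ C (M^16)² / (M^14/2)^4 = 16 C M^{-24}` (`heat_tail`),
`heat (jδ) 0 ≤ C M^{-15d/2}` (`heat_upper`), `|A0| ≤ (2 M^14 + 1)^d ≤ (3 M^14)^d`,
`heat δ 0 ^2 |A0| ≤ C' M^{-15d + 14d} ≤ C' / M`, so for `M` large everything is at most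
`(1-β²/48)^M + M (C M^{-24} + 3 exp(-c M)) + C M^{-23} ≤ C'' M^{-17}`. -/
theorem blue_poly (hd : 0 < d) (hp : 1 / 2 < p) (hp1 : p < 1) (hS : Setup μ p c S) :
    ∃ C : ℝ, ∃ M0 : ℕ, ∀ M : ℕ, M0 ≤ M → ∀ m : ℕ,
      gdens μ c S m false (M ^ 16 * 2 ^ m) ≤ C / (M : ℝ) ^ 17 := by
  classical
  obtain ⟨β, hβ⟩ : ∃ β : ℝ, β = 2 * p - 1 := ⟨_, rfl⟩
  have hβ0 : 0 < β := by linarith
  have hβ1 : β ≤ 1 := by linarith
  obtain ⟨C1, hC1, htail⟩ := heat_tail hd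
  obtain ⟨C2, hC2, hup⟩ := heat_upper hd
  obtain ⟨a, ha⟩ : ∃ a : ℝ, a = 1 - β ^ 2 / 48 := ⟨_, rfl⟩
  have ha0 : 0 ≤ a := by rw [ha]; nlinarith
  have ha1 : a < 1 := by
    rw [ha]
    have : 0 < β ^ 2 / 48 := by positivity
    linarith
  obtain ⟨κ, hκ⟩ : ∃ κ : ℝ, κ = β ^ 2 / (128 * (C2 ^ 2 * 3 ^ d)) := ⟨_, rfl⟩
  have hκ0 : 0 < κ := by rw [hκ]; positivity
  have hdr : (0 : ℝ) < (d : ℝ) / 2 := by
    have : (0 : ℝ) < d := by exact_mod_cast hd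
    positivity
  -- eventual inequalities
  have E1 : ∀ᶠ M : ℕ in atTop, (M : ℝ) ^ 17 * a ^ M ≤ 1 :=
    (tendsto_pow_const_mul_const_pow_of_abs_lt_one 17
      (by rw [abs_of_nonneg ha0]; exact ha1)).eventually_le_const one_pos
  have E2 : ∀ᶠ M : ℕ in atTop, (M : ℝ) ^ 18 * (Real.exp (-κ)) ^ M ≤ 1 :=
    (tendsto_pow_const_mul_const_pow_of_abs_lt_one 18 (by
      rw [abs_of_pos (Real.exp_pos _), Real.exp_lt_one_iff]
      linarith)).eventually_le_const one_pos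
  have hM15 : Tendsto (fun M : ℕ => ((M : ℝ) ^ 15)) atTop atTop :=
    (tendsto_pow_atTop (by norm_num : (15 : ℕ) ≠ 0)).comp tendsto_natCast_atTop_atTop
  have E3 : ∀ᶠ M : ℕ in atTop, C2 * ((M : ℝ) ^ 15) ^ (-((d : ℝ) / 2)) ≤ 1 / 16 := by
    have h := ((tendsto_rpow_neg_atTop hdr).comp hM15).const_mul C2
    rw [mul_zero] at h
    exact h.eventually_le_const (by norm_num)
  have E4 : ∀ᶠ M : ℕ in atTop, 256 * C1 ≤ (M : ℝ) :=
    tendsto_natCast_atTop_atTop.eventually_ge_atTop _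
  obtain ⟨M0, hM0⟩ := eventually_atTop.1 (((E1.and E2).and (E3.and E4)).and (eventually_ge_atTop 1))
  refine ⟨1 + ((16 / β + 8) * (16 * C1) + 3) + 16 * C1, M0, fun M hM m => ?_⟩
  obtain ⟨⟨⟨e1, e2⟩, e3, e4⟩, e5⟩ := hM0 M hM
  have hM1 : (1 : ℝ) ≤ M := by exact_mod_cast e5
  have hMp : (0 : ℝ) < M := by linarith
  -- the tail
  have hT : ∀ j : ℕ, j ∈ Finset.Icc 1 M → ∀ t : ℝ, t = (j : ℝ) * ((M ^ 15 : ℕ) : ℝ) →
      (∑' x : Site d, if ((M ^ 14 : ℕ) : ℝ) / 2 < ‖x‖ then heat d t x else 0) ≤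
        16 * C1 / (M : ℝ) ^ 24 := by
    intro j hj t ht
    rw [Finset.mem_Icc] at hj
    have hj1 : (1 : ℝ) ≤ j := by exact_mod_cast hj.1
    have hjM : (j : ℝ) ≤ M := by exact_mod_cast hj.2
    have hM15' : (1 : ℝ) ≤ (M : ℝ) ^ 15 := one_le_pow₀ hM1
    have ht1 : 1 ≤ t := by
      rw [ht]
      push_cast
      nlinarith
    have ht2 : t ≤ (M : ℝ) ^ 16 := by
      rw [ht]
      push_cast
      calc (j : ℝ) * (M : ℝ) ^ 15 ≤ M * (M : ℝ) ^ 15 := by gcongr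
        _ = (M : ℝ) ^ 16 := by ring
    have hr0 : (0 : ℝ) < ((M ^ 14 : ℕ) : ℝ) / 2 := by
      push_cast
      positivity
    refine (htail t ht1 _ hr0).trans ?_
    push_cast
    have h1 : C1 * t ^ 2 ≤ C1 * ((M : ℝ) ^ 16) ^ 2 := by
      have : t ^ 2 ≤ ((M : ℝ) ^ 16) ^ 2 := pow_le_pow_left₀ (by linarith) ht2 2
      exact mul_le_mul_of_nonneg_left this hC1.le
    calc C1 * t ^ 2 / ((M : ℝ) ^ 14 / 2) ^ 4 ≤ C1 * ((M : ℝ) ^ 16) ^ 2 / ((M : ℝ) ^ 14 / 2) ^ 4 := by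
          gcongr
      _ = 16 * C1 / (M : ℝ) ^ 24 := by
          field_simp
          ring
  have h24 : 16 * C1 / (M : ℝ) ^ 24 ≤ 1 / 16 := by
    rw [div_le_div_iff₀ (by positivity) (by norm_num)]
    have : (M : ℝ) ≤ (M : ℝ) ^ 24 := le_self_pow₀ hM1 (by norm_num)
    linarith
  have hM15n : (1 : ℝ) ≤ ((M ^ 15 : ℕ) : ℝ) := by
    push_cast
    exact one_le_pow₀ hM1
  have hheat : heat d ((M ^ 15 : ℕ) : ℝ) 0 ≤ C2 * ((M : ℝ) ^ 15) ^ (-((d : ℝ) / 2)) := by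
    have := hup ((M ^ 15 : ℕ) : ℝ) (by linarith)
    push_cast at this ⊢
    exact this
  have hheat0 : 0 ≤ heat d ((M ^ 15 : ℕ) : ℝ) 0 := heat_nonneg (by linarith) _
  -- the bound of `q`
  have hq : ∀ (A : Finset (Site d)) (y w : Site d), y ∉ A →
      (∀ x, x ≠ y → ‖x - y‖ ≤ ((M ^ 14 : ℕ) : ℝ) → x ∈ A) →
      ‖w - y‖ ≤ ((M ^ 14 : ℕ) : ℝ) / 2 → ∀ j ∈ Finset.Icc 1 M,
      μ.real (Good c S m A β ((j - 1) * M ^ 15) (M ^ 15) w)ᶜ ≤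
        (16 / β + 8) * (16 * C1 / (M : ℝ) ^ 24) + 3 * (Real.exp (-κ)) ^ M := by
    intro A y w hyA hA hw j hj
    have hj' := Finset.mem_Icc.1 hj
    obtain ⟨A0, hA0⟩ : ∃ A0 : Finset (Site d),
      A0 = A.filter fun x => x ≠ y ∧ ‖x - y‖ ≤ ((M ^ 14 : ℕ) : ℝ) := ⟨_, rfl⟩
    have hA0' : ∀ x, x ∈ A0 ↔ x ≠ y ∧ ‖x - y‖ ≤ ((M ^ 14 : ℕ) : ℝ) := by
      intro x
      rw [hA0, Finset.mem_filter]
      exact ⟨fun h => h.2, fun h => ⟨hA x h.1 h.2, h⟩⟩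
    have hsub : A0 ⊆ A := by rw [hA0]; exact Finset.filter_subset _ _
    have hcast : (((j - 1) * M ^ 15 : ℕ) : ℝ) + ((M ^ 15 : ℕ) : ℝ) =
        (j : ℝ) * ((M ^ 15 : ℕ) : ℝ) := by
      rw [Nat.cast_mul, Nat.cast_sub hj'.1]
      ring
    have hj1 : (1 : ℝ) ≤ j := by exact_mod_cast hj'.1
    have hτ := hT j hj _ hcast
    have hle : ((M ^ 15 : ℕ) : ℝ) ≤ (((j - 1) * M ^ 15 : ℕ) : ℝ) + ((M ^ 15 : ℕ) : ℝ) := by
      have : (0 : ℝ) ≤ (((j - 1) * M ^ 15 : ℕ) : ℝ) := Nat.cast_nonneg _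
      linarith
    have hh0 : heat d ((((j - 1) * M ^ 15 : ℕ) : ℝ) + ((M ^ 15 : ℕ) : ℝ)) 0 ≤ 1 / 16 :=
      ((heat_zero_anti hd (by linarith) hle).trans hheat).trans e3
    have hr1 : (1 : ℝ) ≤ ((M ^ 14 : ℕ) : ℝ) := by
      push_cast
      exact one_le_pow₀ hM1
    have hδ : 0 < M ^ 15 := pow_pos (by omega) _
    have hmain := env_bad (A := A) (A0 := A0) (y := y) (w := w) (r := ((M ^ 14 : ℕ) : ℝ))
      hd hp hp1 hS m hr1 ((j - 1) * M ^ 15) (M ^ 15) hδ hA0' hsub hyA hw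
      (by linarith)
    rw [← hβ] at hmain
    refine hmain.trans (add_le_add (mul_le_mul_of_nonneg_left hτ (by positivity)) ?_)
    refine mul_le_mul_of_nonneg_left ?_ (by norm_num)
    rw [← Real.exp_nat_mul]
    apply Real.exp_le_exp.2
    -- the cardinality
    have hcard : A0.card ≤ (2 * M ^ 14 + 1) ^ d :=
      card_ball (M ^ 14) y A0 fun x hx => ((hA0' x).1 hx).2
    have hcardr : (A0.card : ℝ) ≤ (3 * (M : ℝ) ^ 14) ^ d := by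
      have h1 : (A0.card : ℝ) ≤ (2 * (M : ℝ) ^ 14 + 1) ^ d := by exact_mod_cast hcard
      have h2 : (1 : ℝ) ≤ (M : ℝ) ^ 14 := one_le_pow₀ hM1
      refine h1.trans (pow_le_pow_left₀ (by positivity) (by linarith) d)
    have hcard1 : (1 : ℝ) ≤ A0.card := by
      have hne : A0.Nonempty := by
        refine ⟨y + Pi.single (⟨0, hd⟩ : Fin d) 1, (hA0' _).2 ⟨?_, ?_⟩⟩
        · intro h
          have h1 := congrFun h ⟨0, hd⟩
          simp at h1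
        · rw [add_sub_cancel_left]
          refine le_trans ?_ hr1
          rw [pi_norm_le_iff_of_nonneg (by norm_num)]
          intro i
          by_cases hi : i = ⟨0, hd⟩
          · rw [hi]; simp
          · rw [Pi.single_eq_of_ne hi]; simp
      exact_mod_cast hne.card_pos
    have hsq : heat d ((M ^ 15 : ℕ) : ℝ) 0 ^ 2 ≤ C2 ^ 2 / ((M : ℝ) ^ 15) ^ d := by
      have h1 : heat d ((M ^ 15 : ℕ) : ℝ) 0 ^ 2 ≤ (C2 * ((M : ℝ) ^ 15) ^ (-((d : ℝ) / 2))) ^ 2 :=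
        pow_le_pow_left₀ hheat0 hheat 2
      refine h1.trans (le_of_eq ?_)
      rw [mul_pow, ← Real.rpow_natCast (((M : ℝ) ^ 15) ^ (-((d : ℝ) / 2))) 2,
        ← Real.rpow_mul (by positivity)]
      have h2 : -((d : ℝ) / 2) * ((2 : ℕ) : ℝ) = -(d : ℝ) := by
        push_cast
        ring
      rw [h2, Real.rpow_neg (by positivity), Real.rpow_natCast]
      rw [div_eq_mul_inv]
    have hprod : heat d ((M ^ 15 : ℕ) : ℝ) 0 ^ 2 * A0.card ≤ C2 ^ 2 * 3 ^ d / M := by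
      have h1 : heat d ((M ^ 15 : ℕ) : ℝ) 0 ^ 2 * A0.card ≤
          C2 ^ 2 / ((M : ℝ) ^ 15) ^ d * (3 * (M : ℝ) ^ 14) ^ d :=
        mul_le_mul hsq hcardr (by positivity) (by positivity)
      refine h1.trans ?_
      have h2 : C2 ^ 2 / ((M : ℝ) ^ 15) ^ d * (3 * (M : ℝ) ^ 14) ^ d = C2 ^ 2 * 3 ^ d / (M : ℝ) ^ d := by
        rw [mul_pow]
        have h3 : ((M : ℝ) ^ 15) ^ d = ((M : ℝ) ^ 14) ^ d * (M : ℝ) ^ d := by
          rw [← mul_pow]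
          congr 1
        rw [h3]
        field_simp
      rw [h2]
      have h4 : (M : ℝ) ≤ (M : ℝ) ^ d := le_self_pow₀ hM1 (by omega)
      gcongr
    have hhp : 0 < heat d ((M ^ 15 : ℕ) : ℝ) 0 := by
      obtain ⟨b, hb, hlow⟩ := heat_lower hd
      have h1 := hlow _ hM15n
      have h2 : 0 < b * (((M ^ 15 : ℕ) : ℝ)) ^ (-((d : ℝ) / 2)) := by
        have : (0 : ℝ) < ((M ^ 15 : ℕ) : ℝ) := by linarith
        positivity
      linarith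
    have hden : 0 < 128 * heat d ((M ^ 15 : ℕ) : ℝ) 0 ^ 2 * (A0.card : ℝ) := by positivity
    have hfin : (M : ℝ) * κ ≤ β ^ 2 / (128 * heat d ((M ^ 15 : ℕ) : ℝ) 0 ^ 2 * (A0.card : ℝ)) := by
      rw [le_div_iff₀ hden, hκ]
      have h1 : 128 * heat d ((M ^ 15 : ℕ) : ℝ) 0 ^ 2 * (A0.card : ℝ) ≤
          128 * (C2 ^ 2 * 3 ^ d / M) := by
        nlinarith [hprod]
      have h2 : (M : ℝ) * (β ^ 2 / (128 * (C2 ^ 2 * 3 ^ d))) * (128 * (C2 ^ 2 * 3 ^ d / M)) =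
          β ^ 2 := by
        field_simp
      calc (M : ℝ) * (β ^ 2 / (128 * (C2 ^ 2 * 3 ^ d))) *
            (128 * heat d ((M ^ 15 : ℕ) : ℝ) 0 ^ 2 * (A0.card : ℝ))
          ≤ (M : ℝ) * (β ^ 2 / (128 * (C2 ^ 2 * 3 ^ d))) * (128 * (C2 ^ 2 * 3 ^ d / M)) :=
            mul_le_mul_of_nonneg_left h1 (by positivity)
        _ = β ^ 2 := h2
    have hneg : -(β ^ 2) / (128 * heat d ((M ^ 15 : ℕ) : ℝ) 0 ^ 2 * (A0.card : ℝ)) =
        -(β ^ 2 / (128 * heat d ((M ^ 15 : ℕ) : ℝ) 0 ^ 2 * (A0.card : ℝ))) := neg_div _ _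
    rw [hneg]
    linarith
  have hr1 : (1 : ℝ) ≤ ((M ^ 14 : ℕ) : ℝ) := by
    push_cast
    exact one_le_pow₀ hM1
  have hmain := blue_bound (r := ((M ^ 14 : ℕ) : ℝ))
    (q := (16 / β + 8) * (16 * C1 / (M : ℝ) ^ 24) + 3 * (Real.exp (-κ)) ^ M)
    hd hS m hβ0 hβ1 hr1 (M ^ 15) M (pow_pos (by omega) _) (by omega) hq
  have hpw : M ^ 16 * 2 ^ m = M * M ^ 15 * 2 ^ m := by ring
  rw [hpw]
  refine hmain.trans ?_
  have hsum : ∑ j ∈ Finset.Icc 1 M, ∑' x : Site d,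
      (if ((M ^ 14 : ℕ) : ℝ) / 2 < ‖x‖ then heat d ((j : ℝ) * ((M ^ 15 : ℕ) : ℝ)) x else 0) ≤
      M * (16 * C1 / (M : ℝ) ^ 24) := by
    refine (Finset.sum_le_sum fun j hj => hT j hj _ rfl).trans (le_of_eq ?_)
    rw [Finset.sum_const, Nat.card_Icc, Nat.add_sub_cancel, nsmul_eq_mul]
  have h1 : (1 - β ^ 2 / 48) ^ M ≤ 1 / (M : ℝ) ^ 17 := by
    rw [← ha, le_div_iff₀ (by positivity)]
    linarith
  have h2 : (Real.exp (-κ)) ^ M * M ≤ 1 / (M : ℝ) ^ 17 := by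
    rw [le_div_iff₀ (by positivity)]
    calc (Real.exp (-κ)) ^ M * M * (M : ℝ) ^ 17 = (M : ℝ) ^ 18 * (Real.exp (-κ)) ^ M := by ring
      _ ≤ 1 := e2
  have h3 : (M : ℝ) * (16 * C1 / (M : ℝ) ^ 24) ≤ 16 * C1 * (1 / (M : ℝ) ^ 17) := by
    have h4 : (M : ℝ) * (16 * C1 / (M : ℝ) ^ 24) = 16 * C1 * (1 / (M : ℝ) ^ 23) := by
      field_simp
    rw [h4]
    have h5 : (M : ℝ) ^ 17 ≤ (M : ℝ) ^ 23 := pow_le_pow_right₀ hM1 (by norm_num)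
    gcongr
  have h6 : 0 ≤ 16 / β + 8 := by positivity
  have h7 := mul_le_mul_of_nonneg_left h3 h6
  calc (1 - β ^ 2 / 48) ^ M +
        (M : ℝ) * ((16 / β + 8) * (16 * C1 / (M : ℝ) ^ 24) + 3 * (Real.exp (-κ)) ^ M) +
        ∑ j ∈ Finset.Icc 1 M, ∑' x : Site d,
      (if ((M ^ 14 : ℕ) : ℝ) / 2 < ‖x‖ then heat d ((j : ℝ) * ((M ^ 15 : ℕ) : ℝ)) x else 0)
      = (1 - β ^ 2 / 48) ^ M +
        ((16 / β + 8) * ((M : ℝ) * (16 * C1 / (M : ℝ) ^ 24)) + 3 * ((Real.exp (-κ)) ^ M * M)) +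
        ∑ j ∈ Finset.Icc 1 M, ∑' x : Site d,
      (if ((M ^ 14 : ℕ) : ℝ) / 2 < ‖x‖ then heat d ((j : ℝ) * ((M ^ 15 : ℕ) : ℝ)) x else 0) := by
        ring
    _ ≤ 1 / (M : ℝ) ^ 17 + ((16 / β + 8) * (16 * C1 * (1 / (M : ℝ) ^ 17)) +
        3 * (1 / (M : ℝ) ^ 17)) + 16 * C1 * (1 / (M : ℝ) ^ 17) := by
        linarith
    _ = (1 + ((16 / β + 8) * (16 * C1) + 3) + 16 * C1) / (M : ℝ) ^ 17 := by ring

end Pool.Agent.T2H99.AW
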