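import Pool.Agent.T2H99.AW.U4
import Pool.Agent.T2H99.AW.CD2

set_option autoImplicit false

/-!
# AW, package U5: the blue density is summable (uses U4, CD2)
-/

namespace Pool.Agent.T2H99.AW

open Finset Filter Topology MeasureTheory ProbabilityTheory
open scoped NNReal ENNReal BigOperators

variable {d : ℕ} {Ω : Type} [mΩ : MeasurableSpace Ω] {μ : Measure Ω} [IsProbabilityMeasure μ]
  {p : ℝ} {c : Site d → Ω → Bool} {S : Site d → ℝ≥0 → Ω → Site d}
  {alive : Finset (Site d) → ℝ≥0 → Ω → Finset (Site d)}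

/-- A nonnegative antitone sequence with `f (M ^ 16) ≤ C / M ^ 17` for large `M` is summable. -/
theorem summable_of_poly {f : ℕ → ℝ} (h0 : ∀ k, 0 ≤ f k) (ha : Antitone f) {C : ℝ} {M0 : ℕ}
    (hC : ∀ M : ℕ, M0 ≤ M → f (M ^ 16) ≤ C / (M : ℝ) ^ 17) : Summable f := by
  have hs : Summable fun k : ℕ => (max C 0 * 2 ^ 17) * (1 / (k : ℝ) ^ (17 / 16 : ℝ)) :=
    (Real.summable_one_div_nat_rpow.2 (by norm_num)).mul_left _
  refine Summable.of_norm_bounded_eventually_nat hs ?_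
  filter_upwards [eventually_ge_atTop ((max M0 1) ^ 16)] with k hk
  obtain ⟨x, hx⟩ : ∃ x : ℝ, x = (k : ℝ) ^ (((16 : ℕ) : ℝ)⁻¹) := ⟨_, rfl⟩
  have hk0 : (0 : ℝ) ≤ k := Nat.cast_nonneg k
  have hx0 : 0 ≤ x := hx ▸ Real.rpow_nonneg hk0 _
  have hx16 : x ^ 16 = k := by
    rw [hx]
    exact Real.rpow_inv_natCast_pow hk0 (by norm_num)
  have hk1 : 1 ≤ k := le_trans (Nat.one_le_pow _ _ (by omega)) hk
  have hkpos : (0 : ℝ) < k := by exact_mod_cast hk1
  have hxge : ((max M0 1 : ℕ) : ℝ) ≤ x := by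
    refine le_of_pow_le_pow_left₀ (n := 16) (by norm_num) hx0 ?_
    rw [hx16]
    exact_mod_cast hk
  have hM : max M0 1 ≤ ⌊x⌋₊ := Nat.le_floor hxge
  obtain ⟨M, hMd⟩ : ∃ M : ℕ, M = ⌊x⌋₊ := ⟨_, rfl⟩
  rw [← hMd] at hM
  have hM1 : 1 ≤ M := le_trans (le_max_right _ _) hM
  have hM0 : M0 ≤ M := le_trans (le_max_left _ _) hM
  have hMx : (M : ℝ) ≤ x := by
    rw [hMd]
    exact Nat.floor_le hx0
  have hxM : x < M + 1 := by
    rw [hMd]
    exact Nat.lt_floor_add_one x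
  have hMr : (1 : ℝ) ≤ M := by exact_mod_cast hM1
  have hx2 : x / 2 ≤ M := by linarith
  have hxpos : 0 < x := by linarith
  have hMk : M ^ 16 ≤ k := by
    have : (M : ℝ) ^ 16 ≤ k := by
      rw [← hx16]
      exact pow_le_pow_left₀ (by linarith) hMx 16
    exact_mod_cast this
  have h1 : f k ≤ max C 0 / (M : ℝ) ^ 17 :=
    (ha hMk).trans ((hC M hM0).trans (div_le_div_of_nonneg_right (le_max_left _ _) (by positivity)))
  have h2 : max C 0 / (M : ℝ) ^ 17 ≤ max C 0 / (x / 2) ^ 17 := by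
    refine div_le_div_of_nonneg_left (le_max_right _ _) (by positivity) ?_
    exact pow_le_pow_left₀ (by linarith) hx2 17
  have h3 : x ^ 17 = (k : ℝ) ^ (17 / 16 : ℝ) := by
    have e1 : x ^ 17 = x ^ 16 * x := by ring
    rw [e1, hx16, hx]
    nth_rewrite 1 [← Real.rpow_one (k : ℝ)]
    rw [← Real.rpow_add hkpos]
    norm_num
  rw [Real.norm_eq_abs, abs_of_nonneg (h0 k)]
  refine h1.trans (h2.trans (le_of_eq ?_))
  rw [div_pow, h3]
  field_simp

/-- Package U5. `dens false (M^16) ≤ C / M^17` for large `M` (`blue_poly`, `dens_lim_gdens`), and `dens` is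
antitone: the `k ∈ [M^16, (M+1)^16)` contribute at most `((M+1)^16 - M^16) C / M^17 ≤ C' / M²`. -/
theorem dens_summable (hd : 0 < d) (hp : 1 / 2 < p) (hp1 : p < 1) (hA : Sys μ p c S alive) :
    Summable (dens μ c S alive false) := by
  obtain ⟨C, M0, hC⟩ := blue_poly hd hp hp1 hA.setup
  refine summable_of_poly (C := C) (M0 := M0) (fun k => dens_nonneg hd hA false k)
    (dens_anti hd hA false) fun M hM => ?_
  exact le_of_tendsto' (dens_lim_gdens hd hA false (M ^ 16)) fun m => hC M hM m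

end Pool.Agent.T2H99.AW
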